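import Pool.Agent.Lib.MP_cd65c1_an.Defs

/-!
# MP_cd65c1_an / ABasic : characters on the torus, Fourier coefficients of trigonometric polynomials
(about 120 lines)

Everything is elementary.  `UnitAddTorus.mFourier k x = ∏ i, fourier (k i) (x i)` (Mathlib file
`Analysis/Fourier/AddCircleMulti`; its measure theoretic lemmas use a local instance and are NOT
wanted here: `mu d = Measure.pi haarAddCircle`).

* `integral_mF`: `integral_fintype_prod_eq_prod` (or the version for `Measure.pi`) and
  `∫ fourier n ∂haarAddCircle = if n = 0 then 1 else 0` (for `n ≠ 0`: `fourier_add_half_inv_index` /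
  `orthonormal_fourier`, or translation by `y` with `fourier n y ≠ 1`).
* `mF_add_arg`, `mF_neg_arg`: from `fourier_apply`, `AddCircle.toCircle_add` coordinatewise.
* `cf_tp`: linearity, `mFourier_add`, `integral_mF`.
* `cf_translate`: the measure is translation invariant (`Measure.pi` of Haar measures; instance
  `IsAddHaarMeasure`), `integral_sub_right_eq_self`.
* `cf_neg_arg`: invariance under `x ↦ -x` (`integral_neg_eq_self`).
-/

namespace MPcd65c1

open MeasureTheory
open scoped ENNReal

/-- the measure is invariant under `x ↦ -x` -/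
instance instNegMu (d : ℕ) : (mu d).IsNegInvariant := by
  refine ⟨?_⟩
  exact (measurePreserving_pi _ _ (fun _ => Measure.measurePreserving_neg
    (AddCircle.haarAddCircle : Measure UnitAddCircle))).map_eq

theorem norm_mF {d : ℕ} (k : Fin d → ℤ) (x : Td d) : ‖(UnitAddTorus.mFourier k x : ℂ)‖ = 1 := by
  simp [UnitAddTorus.mFourier, norm_prod, fourier_apply]

theorem mF_add_arg {d : ℕ} (k : Fin d → ℤ) (x y : Td d) :
    (UnitAddTorus.mFourier k (x + y) : ℂ) =
      UnitAddTorus.mFourier k x * UnitAddTorus.mFourier k y := by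
  simp only [UnitAddTorus.mFourier, ContinuousMap.coe_mk, Pi.add_apply, fourier_apply, smul_add,
    AddCircle.toCircle_add, Circle.coe_mul, Finset.prod_mul_distrib]

theorem mF_neg_arg {d : ℕ} (k : Fin d → ℤ) (x : Td d) :
    (UnitAddTorus.mFourier k (-x) : ℂ) = UnitAddTorus.mFourier (-k) x := by
  simp only [UnitAddTorus.mFourier, ContinuousMap.coe_mk, Pi.neg_apply, fourier_apply, smul_neg,
    neg_smul]

theorem mF_zero_arg {d : ℕ} (k : Fin d → ℤ) : (UnitAddTorus.mFourier k (0 : Td d) : ℂ) = 1 := by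
  simp [UnitAddTorus.mFourier, fourier_apply]

theorem mF_conj {d : ℕ} (k : Fin d → ℤ) (x : Td d) :
    (starRingEnd ℂ) (UnitAddTorus.mFourier k x : ℂ) = UnitAddTorus.mFourier (-k) x := by
  rw [UnitAddTorus.mFourier_neg]

private theorem integral_fourier' (n : ℤ) :
    ∫ t : UnitAddCircle, (fourier n t : ℂ) ∂(AddCircle.haarAddCircle : Measure UnitAddCircle) =
      if n = 0 then 1 else 0 := by
  split_ifs with h
  · subst h
    simp
  · have h1 := orthonormal_iff_ite.mp (orthonormal_fourier (T := 1)) 0 n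
    rw [if_neg (fun h0 => h h0.symm)] at h1
    rw [ContinuousMap.inner_toLp] at h1
    simpa using h1

theorem integral_mF {d : ℕ} (k : Fin d → ℤ) :
    ∫ x, (UnitAddTorus.mFourier k x : ℂ) ∂(mu d) = if k = 0 then 1 else 0 := by
  have h1 : ∀ x : Td d, (UnitAddTorus.mFourier k x : ℂ) = ∏ i, (fourier (k i) (x i) : ℂ) := by
    intro x
    rfl
  simp_rw [h1]
  rw [MeasureTheory.integral_fintype_prod_eq_prod (f := fun i (t : UnitAddCircle) => (fourier (k i) t : ℂ))]
  simp_rw [integral_fourier']
  split_ifs with h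
  · subst h
    simp
  · obtain ⟨i, hi⟩ := Function.ne_iff.mp h
    exact Finset.prod_eq_zero (Finset.mem_univ i) (if_neg (by simpa using hi))

theorem tp_apply {d : ℕ} (L : Finset (Fin d → ℤ)) (c : CV d) (x : Td d) :
    tp L c x = ∑ k ∈ L, c k * UnitAddTorus.mFourier k x := by
  simp [tp, ContinuousMap.sum_apply]

private theorem int_mF {d : ℕ} (k : Fin d → ℤ) (μ : Measure (Td d)) [IsFiniteMeasure μ] :
    Integrable (fun x => (UnitAddTorus.mFourier k x : ℂ)) μ :=
  (map_continuous (UnitAddTorus.mFourier k)).integrable_of_hasCompactSupport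
    (HasCompactSupport.of_compactSpace _)

private theorem int_mF_mul {d : ℕ} (k : Fin d → ℤ) {f : Td d → ℂ} (hf : Integrable f (mu d)) :
    Integrable (fun x => (UnitAddTorus.mFourier k x : ℂ) * f x) (mu d) := by
  refine hf.bdd_mul (c := 1) (map_continuous (UnitAddTorus.mFourier k)).aestronglyMeasurable ?_
  filter_upwards with x
  rw [norm_mF]

theorem cf_congr {d : ℕ} {f g : Td d → ℂ} (h : f =ᵐ[mu d] g) (k : Fin d → ℤ) :
    cf f k = cf g k := by
  unfold cf
  refine integral_congr_ae ?_
  filter_upwards [h] with x hx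
  rw [hx]

theorem cf_add {d : ℕ} {f g : Td d → ℂ} (hf : Integrable f (mu d)) (hg : Integrable g (mu d))
    (k : Fin d → ℤ) : cf (fun x => f x + g x) k = cf f k + cf g k := by
  unfold cf
  rw [← integral_add (int_mF_mul _ hf) (int_mF_mul _ hg)]
  simp_rw [mul_add]

theorem cf_sub {d : ℕ} {f g : Td d → ℂ} (hf : Integrable f (mu d)) (hg : Integrable g (mu d))
    (k : Fin d → ℤ) : cf (fun x => f x - g x) k = cf f k - cf g k := by
  unfold cf
  rw [← integral_sub (int_mF_mul _ hf) (int_mF_mul _ hg)]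
  simp_rw [mul_sub]

theorem cf_smul {d : ℕ} (c : ℂ) (f : Td d → ℂ) (k : Fin d → ℤ) :
    cf (fun x => c * f x) k = c * cf f k := by
  unfold cf
  rw [← integral_const_mul]
  congr 1
  ext x
  ring

theorem cf_sum {d : ℕ} {ι : Type*} (S : Finset ι) (f : ι → Td d → ℂ)
    (hf : ∀ i ∈ S, Integrable (f i) (mu d)) (k : Fin d → ℤ) :
    cf (fun x => ∑ i ∈ S, f i x) k = ∑ i ∈ S, cf (f i) k := by
  unfold cf
  rw [← integral_finsetSum S (fun i hi => int_mF_mul _ (hf i hi))]
  simp_rw [Finset.mul_sum]

theorem cf_tp {d : ℕ} (L : Finset (Fin d → ℤ)) (c : CV d) (k : Fin d → ℤ) :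
    cf (tp L c) k = if k ∈ L then c k else 0 := by
  have h0 : (tp L c : Td d → ℂ) = fun x => ∑ k ∈ L, (c k * UnitAddTorus.mFourier k x : ℂ) := by
    ext x
    exact tp_apply L c x
  rw [h0, cf_sum L (fun k x => (c k * UnitAddTorus.mFourier k x : ℂ))
    (fun i _ => (int_mF i (mu d)).const_mul _)]
  simp_rw [cf_smul]
  have h1 : ∀ j : Fin d → ℤ, cf (fun x => (UnitAddTorus.mFourier j x : ℂ)) k = if j = k then 1 else 0 := by
    intro j
    unfold cf
    simp_rw [← UnitAddTorus.mFourier_add]
    rw [integral_mF]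
    have h2 : (-k + j = 0) ↔ (j = k) := by
      rw [neg_add_eq_zero]
      exact eq_comm
    simp only [h2]
  simp_rw [h1]
  simp

theorem norm_cf_le_int {d : ℕ} (f : Td d → ℂ) (k : Fin d → ℤ) : ‖cf f k‖ ≤ ∫ x, ‖f x‖ ∂(mu d) := by
  unfold cf
  refine (norm_integral_le_integral_norm _).trans (le_of_eq ?_)
  congr 1
  ext x
  rw [norm_mul, norm_mF, one_mul]

theorem cf_translate {d : ℕ} (f : Td d → ℂ) (y : Td d) (k : Fin d → ℤ) :
    cf (fun x => f (x - y)) k = UnitAddTorus.mFourier (-k) y * cf f k := by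
  unfold cf
  rw [← integral_const_mul, ← integral_sub_right_eq_self
    (fun x => (UnitAddTorus.mFourier (-k) y : ℂ) * (UnitAddTorus.mFourier (-k) x * f x)) y]
  congr 1
  ext x
  have : (UnitAddTorus.mFourier (-k) x : ℂ) =
      UnitAddTorus.mFourier (-k) y * UnitAddTorus.mFourier (-k) (x - y) := by
    rw [← mF_add_arg]
    congr 1
    abel
  rw [this]
  ring

theorem cf_neg_arg {d : ℕ} (f : Td d → ℂ) (k : Fin d → ℤ) :
    cf (fun x => f (-x)) k = cf f (-k) := by
  unfold cf
  rw [← integral_neg_eq_self]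
  congr 1
  ext x
  rw [mF_neg_arg]
  simp only [neg_neg]

end MPcd65c1
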