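import Pool.Agent.Lib.MP_cd65c1_an.Defs

/-!
# MP_cd65c1_an / ACount : dyadic blocks and layers, counting (about 180 lines)

`Nat.size m = s ↔ 2^(s-1) ≤ m < 2^s` (for `s ≥ 1`), `Nat.size_le : size m ≤ n ↔ m < 2^n`,
`Nat.lt_size : m < size n ↔ 2^m ≤ n`.

* `mem_blk`: `|k| < 2^s` follows from `Nat.size |k| = s` (`Nat.lt_size_self`).
* `card_blk`: `{k : size |k| ≤ s}` is `Ioo (-2^s) (2^s)`, which has `2^(s+1) - 1` elements; for
  `s = 0` the block is `{0}`; for `s ≥ 1` subtract `2^s - 1`.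
* `mem_Lam`, `card_Lam`: `Finset.card_biUnion` (the sets are disjoint: `s_j = size |k_j|`),
  `Fintype.card_piFinset`, `∏ 2^(s_j) = 2^l`.
* `card_adt_le`: `#{s ∈ ℕ^d : Σ s = l} ≤ (l+1)^(d-1)`, `d ≥ 1`: the map
  `s ↦ (s_1,...,s_{d-1})` is injective on this set and has values in `{0..l}^(d-1)`; or induction on `d`
  (`Finset.Nat.antidiagonalTuple` is defined by recursion).
* `card_adt_ge`: `(l+1)^(d-1) ≤ (d-1)! * #{...}`, by induction on `d`:
  `K_{d+1}(l) = Σ_{i ≤ l} K_d(i) ≥ Σ (i+1)^(d-1)/(d-1)! ≥ (l+1)^d/d!`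
  (`Σ_{i ≤ l} d (i+1)^(d-1) ≥ (l+1)^d`), or from `K_d(l) = (l+d-1).choose (d-1)`.
* `mem_LL`, `card_LL_le`: `#LL ≤ Σ_{i ≤ l} 2^i (l+1)^(d-1) ≤ 2 * 2^l (l+1)^(d-1)`.
* `abs_le_of_mem_LL`: `|k_j| < 2^(size |k_j|) ≤ 2^l`.
-/

namespace MPcd65c1

theorem mem_blk (s : ℕ) (k : ℤ) : k ∈ blk s ↔ Nat.size k.natAbs = s := by
  unfold blk
  rw [Finset.mem_filter, Finset.mem_Ioo]
  constructor
  · exact fun h => h.2
  · intro h
    refine ⟨?_, h⟩
    have h1 := Nat.lt_size_self k.natAbs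
    rw [h] at h1
    have h2 : (k.natAbs : ℤ) < (2 : ℤ) ^ s := by exact_mod_cast h1
    omega

theorem card_blk (s : ℕ) : (blk s).card = 2 ^ s := by
  rcases Nat.eq_zero_or_pos s with rfl | hs
  · have h : blk 0 = {0} := by
      ext k
      rw [mem_blk, Nat.size_eq_zero, Finset.mem_singleton, Int.natAbs_eq_zero]
    rw [h]
    simp
  · obtain ⟨m, rfl⟩ : ∃ m, s = m + 1 := ⟨s - 1, by omega⟩
    have h : blk (m + 1) = Finset.Ioo (-(2 : ℤ) ^ (m + 1)) ((2 : ℤ) ^ (m + 1)) \
        Finset.Ioo (-(2 : ℤ) ^ m) ((2 : ℤ) ^ m) := by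
      ext k
      rw [mem_blk, Finset.mem_sdiff, Finset.mem_Ioo, Finset.mem_Ioo]
      have h1 : Nat.size k.natAbs = m + 1 ↔
          k.natAbs < 2 ^ (m + 1) ∧ 2 ^ m ≤ k.natAbs := by
        rw [← Nat.size_le, ← Nat.lt_size]
        omega
      rw [h1]
      have h2 : k.natAbs < 2 ^ (m + 1) ↔ (k.natAbs : ℤ) < (2 : ℤ) ^ (m + 1) := by
        constructor
        · intro h; exact_mod_cast h
        · intro h; exact_mod_cast h
      have h3 : 2 ^ m ≤ k.natAbs ↔ (2 : ℤ) ^ m ≤ (k.natAbs : ℤ) := by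
        constructor
        · intro h; exact_mod_cast h
        · intro h; exact_mod_cast h
      rw [h2, h3]
      omega
    have hpos : (0 : ℤ) < (2 : ℤ) ^ m := by positivity
    rw [h, Finset.card_sdiff_of_subset, Int.card_Ioo, Int.card_Ioo]
    · have h4 : ((2 : ℤ) ^ (m + 1) - -(2 : ℤ) ^ (m + 1) - 1).toNat = 2 ^ (m + 2) - 1 := by
        have : (2 : ℤ) ^ (m + 1) - -(2 : ℤ) ^ (m + 1) - 1 = ((2 ^ (m + 2) - 1 : ℕ) : ℤ) := by
          rw [Nat.cast_sub (Nat.one_le_two_pow)]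
          push_cast
          ring
        rw [this, Int.toNat_natCast]
      have h5 : ((2 : ℤ) ^ m - -(2 : ℤ) ^ m - 1).toNat = 2 ^ (m + 1) - 1 := by
        have : (2 : ℤ) ^ m - -(2 : ℤ) ^ m - 1 = ((2 ^ (m + 1) - 1 : ℕ) : ℤ) := by
          rw [Nat.cast_sub (Nat.one_le_two_pow)]
          push_cast
          ring
        rw [this, Int.toNat_natCast]
      rw [h4, h5]
      have h6 : 1 ≤ 2 ^ (m + 1) := Nat.one_le_two_pow
      have h7 : 2 ^ (m + 2) = 2 * 2 ^ (m + 1) := by ring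
      omega
    · intro k hk
      rw [Finset.mem_Ioo] at hk ⊢
      have h8 : (2 : ℤ) ^ (m + 1) = 2 * 2 ^ m := by ring
      rw [h8]
      omega

/-- the product blocks are disjoint -/
private theorem ACount_disj (d l : ℕ) :
    ((Finset.Nat.antidiagonalTuple d l : Finset (Fin d → ℕ)) : Set (Fin d → ℕ)).PairwiseDisjoint
      (fun s => Fintype.piFinset (fun j => blk (s j))) := by
  intro s _ t _ hst
  refine Finset.disjoint_left.2 fun k hk1 hk2 => hst ?_
  rw [Fintype.mem_piFinset] at hk1 hk2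
  funext j
  rw [← (mem_blk _ _).1 (hk1 j), ← (mem_blk _ _).1 (hk2 j)]

theorem mem_Lam (d l : ℕ) (k : Fin d → ℤ) : k ∈ Lam d l ↔ lev k = l := by
  unfold Lam lev
  rw [Finset.mem_biUnion]
  constructor
  · rintro ⟨s, hs, hk⟩
    rw [Finset.Nat.mem_antidiagonalTuple] at hs
    rw [Fintype.mem_piFinset] at hk
    rw [← hs]
    exact Finset.sum_congr rfl fun j _ => (mem_blk _ _).1 (hk j)
  · intro h
    refine ⟨fun j => Nat.size (k j).natAbs, ?_, ?_⟩
    · rw [Finset.Nat.mem_antidiagonalTuple]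
      exact h
    · rw [Fintype.mem_piFinset]
      exact fun j => (mem_blk _ _).2 rfl

theorem card_Lam (d l : ℕ) :
    (Lam d l).card = 2 ^ l * (Finset.Nat.antidiagonalTuple d l).card := by
  classical
  have h := Finset.card_biUnion (s := Finset.Nat.antidiagonalTuple d l)
    (t := fun s => Fintype.piFinset (fun j => blk (s j))) (ACount_disj d l)
  unfold Lam
  rw [h]
  have h2 : ∀ s ∈ Finset.Nat.antidiagonalTuple d l,
      (Fintype.piFinset (fun j => blk (s j))).card = 2 ^ l := by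
    intro s hs
    rw [Finset.Nat.mem_antidiagonalTuple] at hs
    rw [Fintype.card_piFinset]
    simp only [card_blk]
    rw [Finset.prod_pow_eq_pow_sum, hs]
  rw [Finset.sum_congr rfl h2, Finset.sum_const, smul_eq_mul, mul_comm]

theorem card_adt_le (d l : ℕ) (hd : 1 ≤ d) :
    (Finset.Nat.antidiagonalTuple d l).card ≤ (l + 1) ^ (d - 1) := by
  obtain ⟨m, rfl⟩ : ∃ m, d = m + 1 := ⟨d - 1, by omega⟩
  rw [Nat.add_sub_cancel]
  have h1 : (Fintype.piFinset (fun _ : Fin m => Finset.range (l + 1))).card = (l + 1) ^ m := by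
    rw [Fintype.card_piFinset]
    simp
  rw [← h1]
  refine Finset.card_le_card_of_injOn (fun s => Fin.tail s) ?_ ?_
  · intro s hs
    rw [Finset.mem_coe, Finset.Nat.mem_antidiagonalTuple] at hs
    rw [Finset.mem_coe, Fintype.mem_piFinset]
    intro j
    rw [Finset.mem_range, Nat.lt_succ_iff, ← hs]
    exact Finset.single_le_sum (f := fun i => s i) (fun i _ => Nat.zero_le _)
      (Finset.mem_univ (Fin.succ j))
  · intro s hs t ht hst
    rw [Finset.mem_coe, Finset.Nat.mem_antidiagonalTuple] at hs ht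
    have hst' : Fin.tail s = Fin.tail t := hst
    rw [Fin.sum_univ_succ] at hs ht
    have h2 : ∀ i, s (Fin.succ i) = t (Fin.succ i) := fun i => congrFun hst' i
    have h3 : s 0 = t 0 := by
      have h4 : ∑ i : Fin m, s (Fin.succ i) = ∑ i : Fin m, t (Fin.succ i) :=
        Finset.sum_congr rfl fun i _ => h2 i
      omega
    funext j
    refine Fin.cases h3 h2 j

private theorem ACount_rec (m l : ℕ) : (Finset.Nat.antidiagonalTuple (m + 1) l).card =
    ∑ i ∈ Finset.range (l + 1), (Finset.Nat.antidiagonalTuple m i).card := by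
  classical
  rw [Finset.card_eq_sum_card_fiberwise (f := fun s : Fin (m + 1) → ℕ => ∑ j, Fin.tail s j)
    (t := Finset.range (l + 1))]
  · refine Finset.sum_congr rfl fun i hi => ?_
    rw [Finset.mem_range] at hi
    refine Finset.card_bij (fun s _ => Fin.tail s) ?_ ?_ ?_
    · intro s hs
      rw [Finset.mem_filter] at hs
      rw [Finset.Nat.mem_antidiagonalTuple]
      exact hs.2
    · intro s hs t ht hst
      rw [Finset.mem_filter, Finset.Nat.mem_antidiagonalTuple, Fin.sum_univ_succ] at hs ht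
      have h2 : ∀ i, s (Fin.succ i) = t (Fin.succ i) := fun i => congrFun hst i
      have h3 : s 0 = t 0 := by
        have h4 : ∑ i : Fin m, s (Fin.succ i) = ∑ i : Fin m, t (Fin.succ i) :=
          Finset.sum_congr rfl fun i _ => h2 i
        have h5 := hs.1
        have h6 := ht.1
        omega
      funext j
      refine Fin.cases h3 h2 j
    · intro t ht
      rw [Finset.Nat.mem_antidiagonalTuple] at ht
      refine ⟨Fin.cons (l - i) t, ?_, Fin.tail_cons _ _⟩
      rw [Finset.mem_filter, Finset.Nat.mem_antidiagonalTuple, Fin.sum_univ_succ, Fin.tail_cons]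
      simp only [Fin.cons_zero, Fin.cons_succ]
      refine ⟨?_, ht⟩
      rw [ht]
      omega
  · intro s hs
    rw [Finset.mem_coe, Finset.Nat.mem_antidiagonalTuple, Fin.sum_univ_succ] at hs
    rw [Finset.mem_coe, Finset.mem_range]
    change ∑ i : Fin m, s (Fin.succ i) < l + 1
    omega

private theorem ACount_choose (m l : ℕ) :
    (Finset.Nat.antidiagonalTuple (m + 1) l).card = (l + m).choose m := by
  induction m generalizing l with
  | zero => simp [Finset.Nat.antidiagonalTuple_one]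
  | succ m ih =>
    rw [ACount_rec, Finset.sum_congr rfl (fun i _ => ih i), Nat.sum_range_add_choose]
    rfl

theorem card_adt_ge (d l : ℕ) (hd : 1 ≤ d) :
    (l + 1) ^ (d - 1) ≤ (d - 1).factorial * (Finset.Nat.antidiagonalTuple d l).card := by
  obtain ⟨m, rfl⟩ : ∃ m, d = m + 1 := ⟨d - 1, by omega⟩
  rw [Nat.add_sub_cancel, ACount_choose, ← Nat.ascFactorial_eq_factorial_mul_choose]
  exact Nat.pow_succ_le_ascFactorial (l + 1) m

theorem mem_LL (d l : ℕ) (k : Fin d → ℤ) : k ∈ LL d l ↔ lev k ≤ l ∧ l ≤ lev k + d := by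
  unfold LL
  rw [Finset.mem_biUnion]
  constructor
  · rintro ⟨i, hi, hk⟩
    rw [Finset.mem_range] at hi
    split_ifs at hk with h
    · rw [mem_Lam] at hk
      omega
    · simp at hk
  · rintro ⟨h1, h2⟩
    refine ⟨lev k, Finset.mem_range.2 (by omega), ?_⟩
    rw [if_pos h2, mem_Lam]

theorem card_LL_le (d l : ℕ) (hd : 1 ≤ d) : ((LL d l).card : ℝ) ≤ 2 * Mm d l := by
  have h1 : (LL d l).card ≤ ∑ i ∈ Finset.range (l + 1), 2 ^ i * (l + 1) ^ (d - 1) := by
    unfold LL
    refine Finset.card_biUnion_le.trans ?_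
    refine Finset.sum_le_sum fun i hi => ?_
    rw [Finset.mem_range] at hi
    split_ifs with h
    · rw [card_Lam]
      refine Nat.mul_le_mul_left _ ((card_adt_le d i hd).trans ?_)
      exact Nat.pow_le_pow_left (by omega) _
    · simp
  rw [← Finset.sum_mul] at h1
  have h2 : ∑ i ∈ Finset.range (l + 1), 2 ^ i ≤ 2 * 2 ^ l := by
    have h3 := Nat.geomSum_eq (le_refl 2) (l + 1)
    rw [h3]
    have h4 : 2 ^ (l + 1) = 2 * 2 ^ l := by ring
    rw [h4]
    simp
  have h5 : (LL d l).card ≤ 2 * 2 ^ l * (l + 1) ^ (d - 1) :=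
    h1.trans (Nat.mul_le_mul_right _ h2)
  have h6 : ((LL d l).card : ℝ) ≤ ((2 * 2 ^ l * (l + 1) ^ (d - 1) : ℕ) : ℝ) := by
    exact_mod_cast h5
  refine h6.trans ?_
  unfold Mm
  push_cast
  rw [mul_assoc]

theorem abs_le_of_mem_LL (d l : ℕ) (k : Fin d → ℤ) (hk : k ∈ LL d l) (j : Fin d) :
    |k j| ≤ 2 ^ l := by
  have h1 := ((mem_LL d l k).1 hk).1
  have h2 : Nat.size (k j).natAbs ≤ lev k := by
    unfold lev
    exact Finset.single_le_sum (f := fun i => Nat.size (k i).natAbs) (fun i _ => Nat.zero_le _)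
      (Finset.mem_univ j)
  have h3 := Nat.lt_size_self (k j).natAbs
  have h4 : (k j).natAbs < 2 ^ l :=
    lt_of_lt_of_le h3 (Nat.pow_le_pow_right (by norm_num) (h2.trans h1))
  have h5 : ((k j).natAbs : ℤ) < (2 : ℤ) ^ l := by exact_mod_cast h4
  rw [Int.natCast_natAbs] at h5
  exact h5.le

theorem Mm_pos (d l : ℕ) : 0 < Mm d l := by
  unfold Mm
  positivity

/-- the sum over `Lam` as an iterated sum over blocks -/
theorem sum_Lam {d : ℕ} (l : ℕ) (f : (Fin d → ℤ) → ℂ) :
    ∑ k ∈ Lam d l, f k =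
      ∑ s ∈ Finset.Nat.antidiagonalTuple d l, ∑ k ∈ Fintype.piFinset (fun j => blk (s j)), f k := by
  classical
  unfold Lam
  exact Finset.sum_biUnion (ACount_disj d l)

end MPcd65c1
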