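import Pool.Agent.Lib.MP_cd65c1_an.ACount

/-!
# MP_cd65c1_an / ALam : size of the Bernoulli multiplier (about 90 lines)

`‖bern r k‖ = |k|^(-r)` for `k ≠ 0` and `1` for `k = 0`.  With `s = size |k|`: for `k ≠ 0`
`2^(s-1) ≤ |k| < 2^s`, so `2^(-rs) ≤ ‖bern r k‖ ≤ 2^r 2^(-rs)`; for `k = 0`, `s = 0` and the value is `1`.
Take products over the coordinates.  `bern r (-k) = conj (bern r k)`.
`wt` : `‖wt r σ k‖ ≤ 1` for `r ≥ 0` and `bern r k * wt r r k = 2^(-r size|k|)`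
(`|k|^(-r) (|k|/2^s)^r = 2^(-rs)`, the phases cancel), `wt r σ (-k) = conj (wt r σ k) = wt r (-σ) k`.
-/

namespace MPcd65c1

theorem abs_lt_two_pow_size (k : ℤ) : |(k : ℝ)| < (2 : ℝ) ^ (Nat.size k.natAbs) := by
  have h := Nat.lt_size_self k.natAbs
  have h2 : |(k : ℝ)| = (k.natAbs : ℝ) := by
    rw [Nat.cast_natAbs]; simp
  rw [h2]
  exact_mod_cast h

theorem two_pow_size_le (k : ℤ) (hk : k ≠ 0) :
    (2 : ℝ) ^ (Nat.size k.natAbs) ≤ 2 * |(k : ℝ)| := by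
  have h2 : |(k : ℝ)| = (k.natAbs : ℝ) := by
    rw [Nat.cast_natAbs]; simp
  rw [h2]
  have hpos : 0 < Nat.size k.natAbs := Nat.size_pos.2 (by omega)
  obtain ⟨t, ht⟩ : ∃ t, Nat.size k.natAbs = t + 1 := ⟨Nat.size k.natAbs - 1, by omega⟩
  have h3 : 2 ^ t ≤ k.natAbs := Nat.lt_size.1 (by omega)
  rw [ht, pow_succ, mul_comm]
  have h4 : ((2 : ℝ)) ^ t ≤ (k.natAbs : ℝ) := by exact_mod_cast h3
  linarith

theorem norm_bern_ne {r : ℝ} {k : ℤ} (hk : k ≠ 0) : ‖bern r k‖ = |(k : ℝ)| ^ (-r) := by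
  unfold bern
  rw [if_neg hk, norm_mul, Complex.norm_exp]
  have h1 : (-(Complex.I * (((k.sign : ℝ) * r * Real.pi / 2 : ℝ) : ℂ))).re = 0 := by
    simp
  rw [h1, Real.exp_zero, mul_one, Complex.norm_real, Real.norm_of_nonneg]
  exact Real.rpow_nonneg (abs_nonneg _) _

theorem bern_zero (r : ℝ) : bern r 0 = 1 := by simp [bern]

theorem norm_bern_lower {r : ℝ} (hr : 0 ≤ r) (k : ℤ) :
    (2 : ℝ) ^ (-(r * (Nat.size k.natAbs : ℝ))) ≤ ‖bern r k‖ := by
  by_cases hk : k = 0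
  · subst hk
    simp [bern_zero]
  · rw [norm_bern_ne hk]
    have h1 : (2 : ℝ) ^ (-(r * (Nat.size k.natAbs : ℝ))) =
        ((2 : ℝ) ^ (Nat.size k.natAbs)) ^ (-r) := by
      rw [← Real.rpow_natCast, ← Real.rpow_mul (by norm_num)]
      congr 1; ring
    rw [h1]
    have hk' : 0 < |(k : ℝ)| := abs_pos.2 (by exact_mod_cast hk)
    exact Real.rpow_le_rpow_of_nonpos hk' (abs_lt_two_pow_size k).le (by linarith)

theorem norm_bern_upper {r : ℝ} (hr : 0 ≤ r) (k : ℤ) :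
    ‖bern r k‖ ≤ (2 : ℝ) ^ r * (2 : ℝ) ^ (-(r * (Nat.size k.natAbs : ℝ))) := by
  by_cases hk : k = 0
  · subst hk
    simp only [bern_zero, norm_one, Int.natAbs_zero, Nat.size_zero, Nat.cast_zero, mul_zero,
      neg_zero, Real.rpow_zero, mul_one]
    exact Real.one_le_rpow (by norm_num) hr
  · rw [norm_bern_ne hk]
    have h1 : (2 : ℝ) ^ r * (2 : ℝ) ^ (-(r * (Nat.size k.natAbs : ℝ))) =
        ((2 : ℝ) ^ (Nat.size k.natAbs) / 2) ^ (-r) := by
      rw [Real.div_rpow (by positivity) (by norm_num), ← Real.rpow_natCast,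
        ← Real.rpow_mul (by norm_num), Real.rpow_neg (by norm_num : (0 : ℝ) ≤ 2) r]
      rw [div_inv_eq_mul, mul_comm]
      congr 2; ring
    rw [h1]
    have h2 := two_pow_size_le k hk
    exact Real.rpow_le_rpow_of_nonpos (by positivity) (by linarith) (by linarith)

theorem norm_lamr {d : ℕ} (r : ℝ) (k : Fin d → ℤ) : ‖lamr r k‖ = ∏ j, ‖bern r (k j)‖ := by
  unfold lamr
  rw [norm_prod]

theorem two_rpow_lev {d : ℕ} (r : ℝ) (k : Fin d → ℤ) :
    (2 : ℝ) ^ (-(r * lev k)) = ∏ j, (2 : ℝ) ^ (-(r * (Nat.size (k j).natAbs : ℝ))) := by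
  rw [← Real.rpow_sum_of_pos (by norm_num : (0 : ℝ) < 2)]
  congr 1
  unfold lev
  push_cast
  rw [Finset.mul_sum, Finset.sum_neg_distrib]

theorem lamr_lower {d : ℕ} {r : ℝ} (hr : 0 ≤ r) (k : Fin d → ℤ) :
    (2 : ℝ) ^ (-(r * lev k)) ≤ ‖lamr r k‖ := by
  rw [norm_lamr, two_rpow_lev]
  exact Finset.prod_le_prod (fun j _ => by positivity) (fun j _ => norm_bern_lower hr (k j))

theorem lamr_upper {d : ℕ} {r : ℝ} (hr : 0 ≤ r) (k : Fin d → ℤ) :
    ‖lamr r k‖ ≤ (2 : ℝ) ^ (r * d) * (2 : ℝ) ^ (-(r * lev k)) := by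
  rw [norm_lamr, two_rpow_lev]
  have h1 : (2 : ℝ) ^ (r * d) = ∏ _j : Fin d, (2 : ℝ) ^ r := by
    rw [Finset.prod_const, Finset.card_univ, Fintype.card_fin, Real.rpow_mul (by norm_num),
      Real.rpow_natCast]
  rw [h1, ← Finset.prod_mul_distrib]
  exact Finset.prod_le_prod (fun j _ => norm_nonneg _) (fun j _ => norm_bern_upper hr (k j))

theorem bern_neg (r : ℝ) (k : ℤ) : bern r (-k) = (starRingEnd ℂ) (bern r k) := by
  unfold bern
  by_cases hk : k = 0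
  · subst hk; simp
  · rw [if_neg hk, if_neg (neg_ne_zero.2 hk), map_mul, Complex.conj_ofReal, ← Complex.exp_conj]
    simp only [Int.cast_neg, abs_neg, Int.sign_neg, map_neg, map_mul, Complex.conj_I,
      Complex.conj_ofReal]
    congr 2
    push_cast
    ring

theorem lamr_neg {d : ℕ} (r : ℝ) (k : Fin d → ℤ) :
    lamr r (-k) = (starRingEnd ℂ) (lamr r k) := by
  unfold lamr
  rw [map_prod]
  exact Finset.prod_congr rfl (fun j _ => by rw [Pi.neg_apply, bern_neg])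

theorem norm_wt_le {r : ℝ} (hr : 0 ≤ r) (σ : ℝ) (k : ℤ) : ‖wt r σ k‖ ≤ 1 := by
  unfold wt
  by_cases hk : k = 0
  · subst hk; simp
  · rw [if_neg hk, norm_mul, Complex.norm_exp]
    have h1 : (Complex.I * (((k.sign : ℝ) * σ * Real.pi / 2 : ℝ) : ℂ)).re = 0 := by
      simp
    have h0 : 0 ≤ |(k : ℝ)| / (2 : ℝ) ^ (Nat.size k.natAbs) := by positivity
    rw [h1, Real.exp_zero, mul_one, Complex.norm_real, Real.norm_of_nonneg (Real.rpow_nonneg h0 _)]
    refine Real.rpow_le_one h0 ?_ hr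
    rw [div_le_one (by positivity)]
    exact (abs_lt_two_pow_size k).le

theorem wt_neg (r σ : ℝ) (k : ℤ) : wt r σ (-k) = (starRingEnd ℂ) (wt r σ k) := by
  unfold wt
  by_cases hk : k = 0
  · subst hk; simp
  · rw [if_neg hk, if_neg (neg_ne_zero.2 hk), map_mul, Complex.conj_ofReal, ← Complex.exp_conj]
    simp only [Int.cast_neg, abs_neg, Int.sign_neg, map_mul, Complex.conj_I,
      Complex.conj_ofReal, Int.natAbs_neg]
    congr 2
    push_cast
    ring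

theorem wt_neg_phase (r σ : ℝ) (k : ℤ) : wt r (-σ) k = (starRingEnd ℂ) (wt r σ k) := by
  unfold wt
  by_cases hk : k = 0
  · subst hk; simp
  · rw [if_neg hk, if_neg hk, map_mul, Complex.conj_ofReal, ← Complex.exp_conj]
    simp only [map_mul, Complex.conj_I, Complex.conj_ofReal]
    congr 2
    push_cast
    ring

theorem bern_mul_wt (r : ℝ) (k : ℤ) :
    bern r k * wt r r k = (((2 : ℝ) ^ (-(r * (Nat.size k.natAbs : ℝ))) : ℝ) : ℂ) := by
  unfold bern wt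
  by_cases hk : k = 0
  · subst hk; simp
  · rw [if_neg hk, if_neg hk]
    have hk' : 0 < |(k : ℝ)| := abs_pos.2 (by exact_mod_cast hk)
    have h1 : |(k : ℝ)| ^ (-r) * (|(k : ℝ)| / (2 : ℝ) ^ (Nat.size k.natAbs)) ^ r =
        (2 : ℝ) ^ (-(r * (Nat.size k.natAbs : ℝ))) := by
      rw [Real.div_rpow (abs_nonneg _) (by positivity), Real.rpow_neg (abs_nonneg _),
        ← Real.rpow_natCast, ← Real.rpow_mul (by norm_num), Real.rpow_neg (by norm_num)]
      have : |(k : ℝ)| ^ r ≠ 0 := (Real.rpow_pos_of_pos hk' r).ne'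
      rw [mul_comm (Nat.size k.natAbs : ℝ) r]
      field_simp
    have h2 : Complex.exp (-(Complex.I * (((k.sign : ℝ) * r * Real.pi / 2 : ℝ) : ℂ))) *
        Complex.exp (Complex.I * (((k.sign : ℝ) * r * Real.pi / 2 : ℝ) : ℂ)) = 1 := by
      rw [← Complex.exp_add]; simp
    rw [← h1]
    push_cast
    calc _ = (Complex.exp (-(Complex.I * (((k.sign : ℝ) * r * Real.pi / 2 : ℝ) : ℂ))) *
        Complex.exp (Complex.I * (((k.sign : ℝ) * r * Real.pi / 2 : ℝ) : ℂ))) *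
        (((|(k : ℝ)| ^ (-r) : ℝ) : ℂ) *
          (((|(k : ℝ)| / (2 : ℝ) ^ (Nat.size k.natAbs)) ^ r : ℝ) : ℂ)) := by
            push_cast; ring
      _ = _ := by rw [h2, one_mul]

theorem lamr_mul_wt {d : ℕ} (r : ℝ) (k : Fin d → ℤ) :
    lamr r k * ∏ j, wt r r (k j) = (((2 : ℝ) ^ (-(r * (lev k : ℝ))) : ℝ) : ℂ) := by
  unfold lamr
  rw [← Finset.prod_mul_distrib, two_rpow_lev]
  push_cast
  exact Finset.prod_congr rfl (fun j _ => bern_mul_wt r (k j))

end MPcd65c1
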