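import Pool.Agent.Lib.MP_cd65c1_an.Defs

/-!
# MP_cd65c1_an / ANrm : elementary properties of `nrm q` (about 120 lines)

`mu d` is a probability measure, so continuous functions are in every `L_q`
(`MeasureTheory.MemLp.of_bound`, `BoundedContinuousFunction`/`ContinuousMap` lemmas) and
`eLpNorm f q (mu d) ≤ ‖f‖_∞` (`eLpNorm_le_of_ae_bound`).
* `nrm_add_le`: `eLpNorm_add_le` and finiteness. `nrm_smul`: `eLpNorm_const_smul`.
* `nrm_mono_exp`: `eLpNorm_le_eLpNorm_of_exponent_le` (probability measure).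
* `nrm_pow_even`: for real `m ≥ 1` : `nrm (2m) f ^ (2m) = ∫ ‖f‖^(2m)` for continuous `f`.
* `nrm_infty_le`, `le_nrm_infty`: for a continuous function the essential supremum with respect to
  Haar measure is the supremum (open sets have positive measure: `Measure.IsOpenPosMeasure`).
-/

namespace MPcd65c1

open MeasureTheory
open scoped ENNReal

theorem memLp_cont {d : ℕ} (f : C(Td d, ℂ)) (q : ℝ≥0∞) : MemLp (f : Td d → ℂ) q (mu d) := by
  exact MemLp.of_bound f.continuous.aestronglyMeasurable ‖f‖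
    (Filter.Eventually.of_forall fun x => f.norm_coe_le_norm x)

theorem nrm_nonneg {d : ℕ} (q : ℝ≥0∞) (f : Td d → ℂ) : 0 ≤ nrm q f := by
  exact ENNReal.toReal_nonneg

theorem nrm_add_le {d : ℕ} {q : ℝ≥0∞} (hq : 1 ≤ q) {f g : Td d → ℂ}
    (hf : MemLp f q (mu d)) (hg : MemLp g q (mu d)) :
    nrm q (fun x => f x + g x) ≤ nrm q f + nrm q g := by
  unfold nrm
  rw [← ENNReal.toReal_add hf.2.ne hg.2.ne]
  refine ENNReal.toReal_mono (ENNReal.add_lt_top.2 ⟨hf.2, hg.2⟩).ne ?_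
  exact eLpNorm_add_le hf.1 hg.1 hq

theorem nrm_smul {d : ℕ} (q : ℝ≥0∞) (c : ℂ) (f : Td d → ℂ) :
    nrm q (fun x => c * f x) = ‖c‖ * nrm q f := by
  unfold nrm
  have h := eLpNorm_const_smul c f q (mu d)
  have h2 : (c • f) = fun x => c * f x := rfl
  rw [h2] at h
  rw [h, ENNReal.toReal_mul, toReal_enorm]

theorem nrm_mono_exp {d : ℕ} {q q' : ℝ≥0∞} (hq : q ≤ q') {f : Td d → ℂ}
    (hf : MemLp f q' (mu d)) : nrm q f ≤ nrm q' f := by
  unfold nrm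
  exact ENNReal.toReal_mono hf.2.ne (eLpNorm_le_eLpNorm_of_exponent_le hq hf.1)

theorem nrm_le_of_bound {d : ℕ} (q : ℝ≥0∞) {f : Td d → ℂ} {C : ℝ} (hC : 0 ≤ C)
    (h : ∀ x, ‖f x‖ ≤ C) : nrm q f ≤ C := by
  unfold nrm
  have h1 := eLpNorm_le_of_ae_bound (p := q) (μ := mu d) (f := f) (C := C)
    (Filter.Eventually.of_forall h)
  rw [measure_univ, ENNReal.one_rpow, one_mul] at h1
  exact ENNReal.toReal_le_of_le_ofReal hC h1

theorem le_nrm_infty {d : ℕ} (f : C(Td d, ℂ)) (x : Td d) : ‖f x‖ ≤ nrm ∞ (f : Td d → ℂ) := by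
  by_contra hcon
  push Not at hcon
  have hfin : eLpNorm (f : Td d → ℂ) ∞ (mu d) ≠ ∞ := (memLp_cont f ∞).2.ne
  have h1 : ∀ᵐ y ∂(mu d), ‖f y‖ ≤ nrm ∞ (f : Td d → ℂ) := by
    have h2 := ae_le_eLpNormEssSup (f := (f : Td d → ℂ)) (μ := mu d)
    filter_upwards [h2] with y hy
    unfold nrm
    rw [← toReal_enorm (f y)]
    refine ENNReal.toReal_mono hfin ?_
    rw [eLpNorm_exponent_top]
    exact hy
  have hU : IsOpen {y : Td d | nrm ∞ (f : Td d → ℂ) < ‖f y‖} :=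
    isOpen_lt continuous_const f.continuous.norm
  have hpos := hU.measure_pos (mu d) ⟨x, hcon⟩
  have h0 : mu d {y : Td d | nrm ∞ (f : Td d → ℂ) < ‖f y‖} = 0 := by
    have h3 := (ae_iff.1 h1)
    simpa only [not_le] using h3
  rw [h0] at hpos
  exact lt_irrefl _ hpos

theorem nrm_one_eq {d : ℕ} (f : Td d → ℂ) (hf : AEStronglyMeasurable f (mu d)) :
    nrm 1 f = ∫ x, ‖f x‖ ∂(mu d) := by
  unfold nrm
  rw [eLpNorm_one_eq_lintegral_enorm, integral_norm_eq_lintegral_enorm hf]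

/-- `nrm (2m) f ^ (2m) = ∫ ‖f‖^(2m)` -/
theorem nrm_even_pow {d : ℕ} (m : ℕ) (hm : 1 ≤ m) (f : C(Td d, ℂ)) :
    nrm ((2 * m : ℕ) : ℝ≥0∞) (f : Td d → ℂ) ^ (2 * m) = ∫ x, ‖f x‖ ^ (2 * m) ∂(mu d) := by
  have hm0 : 2 * m ≠ 0 := by omega
  have h1 := (memLp_cont f ((2 * m : ℕ) : ℝ≥0∞)).eLpNorm_eq_integral_rpow_norm
    (by exact_mod_cast hm0) (ENNReal.natCast_ne_top _)
  unfold nrm
  rw [h1, ENNReal.toReal_natCast]
  have h2 : ∀ x : Td d, ‖f x‖ ^ ((2 * m : ℕ) : ℝ) = ‖f x‖ ^ (2 * m) := fun x =>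
    Real.rpow_natCast _ _
  simp only [h2]
  have h3 : 0 ≤ ∫ x, ‖f x‖ ^ (2 * m) ∂(mu d) := integral_nonneg fun x => by positivity
  rw [ENNReal.toReal_ofReal (Real.rpow_nonneg h3 _), Real.rpow_inv_natCast_pow h3 hm0]

/-- Hoelder: `|∫ f g| ≤ ‖f‖_p ‖g‖_q`, `1/p + 1/q = 1` -/
theorem norm_integral_mul_le {d : ℕ} {p q : ℝ≥0∞} (hpq : p.HolderConjugate q) {f g : Td d → ℂ}
    (hf : MemLp f p (mu d)) (hg : MemLp g q (mu d)) :
    ‖∫ x, f x * g x ∂(mu d)‖ ≤ nrm p f * nrm q g := by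
  have := hpq
  have h1 : AEStronglyMeasurable (fun x => f x * g x) (mu d) := hf.1.mul hg.1
  refine (norm_integral_le_integral_norm _).trans ?_
  rw [← nrm_one_eq _ h1]
  unfold nrm
  rw [← ENNReal.toReal_mul]
  refine ENNReal.toReal_mono (ENNReal.mul_lt_top hf.2 hg.2).ne ?_
  have h2 := eLpNorm_smul_le_mul_eLpNorm (p := p) (q := q) (r := 1) hg.1 hf.1
  exact h2

private theorem ANrm_apply {d : ℕ} (L : Finset (Fin d → ℤ)) (c : CV d) (x : Td d) :
    tp L c x = ∑ k ∈ L, c k * UnitAddTorus.mFourier k x := by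
  unfold tp
  rw [ContinuousMap.sum_apply]
  rfl

private theorem ANrm_l2 {d : ℕ} (L : Finset (Fin d → ℤ)) (c : CV d) :
    l2 L c = ‖(WithLp.toLp 2 (fun k : L => c k) : EuclideanSpace ℂ L)‖ := by
  rw [EuclideanSpace.norm_eq]
  unfold l2
  congr 1
  exact (Finset.sum_coe_sort L (fun k => ‖c k‖ ^ 2)).symm

/-- `nrm q (tp L ·)` is a seminorm -/
theorem nrm_tp_add_le {d : ℕ} {q : ℝ≥0∞} (hq : 1 ≤ q) (L : Finset (Fin d → ℤ)) (c c' : CV d) :
    nrm q (tp L (c + c')) ≤ nrm q (tp L c) + nrm q (tp L c') := by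
  have h : (tp L (c + c') : Td d → ℂ) = fun x => tp L c x + tp L c' x := by
    funext x
    simp [tp, add_mul, Finset.sum_add_distrib]
  rw [h]
  exact nrm_add_le hq (memLp_cont _ _) (memLp_cont _ _)

theorem nrm_tp_smul {d : ℕ} (q : ℝ≥0∞) (L : Finset (Fin d → ℤ)) (t : ℝ) (c : CV d) :
    nrm q (tp L (t • c)) = |t| * nrm q (tp L c) := by
  have h : (tp L (t • c) : Td d → ℂ) = fun x => (t : ℂ) * tp L c x := by
    funext x
    simp only [ANrm_apply, Finset.mul_sum, Pi.smul_apply, Complex.real_smul]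
    exact Finset.sum_congr rfl fun k _ => by ring
  rw [h, nrm_smul]
  simp

theorem l2_add_le {d : ℕ} (L : Finset (Fin d → ℤ)) (c c' : CV d) :
    l2 L (c + c') ≤ l2 L c + l2 L c' := by
  rw [ANrm_l2, ANrm_l2, ANrm_l2]
  refine le_trans (le_of_eq ?_) (norm_add_le _ _)
  congr 1

theorem l2_smul {d : ℕ} (L : Finset (Fin d → ℤ)) (t : ℝ) (c : CV d) :
    l2 L (t • c) = |t| * l2 L c := by
  unfold l2
  rw [← Real.sqrt_sq_eq_abs, ← Real.sqrt_mul (sq_nonneg t), Finset.mul_sum]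
  congr 1
  refine Finset.sum_congr rfl fun k _ => ?_
  rw [Pi.smul_apply, norm_smul, mul_pow, Real.norm_eq_abs, sq_abs]

end MPcd65c1
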