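import Pool.Agent.Lib.MP_cd65c1_an.ABasic

/-!
# MP_cd65c1_an / AUniq : uniqueness of Fourier coefficients in `L_1` (about 120 lines)

Proof. Let `h = f - g`, `cf h k = 0` for all `k` (`cf_sub`).  For every `G` in the linear span of
the characters `∫ G h = 0`.  The span is dense in `C(Td d, ℂ)` for the sup norm
(`UnitAddTorus.span_mFourier_closure_eq_top`; `Td d` is `UnitAddTorus (Fin d)`), and
`G ↦ ∫ G h` is continuous for the sup norm (`|∫ G h| ≤ ‖G‖ ∫ ‖h‖`), so `∫ G h = 0` for every
continuous `G`.  Hence `h = 0` a.e.: for example, for real and imaginary part `u` of `h`,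
`∫ G u = 0` for all real continuous `G`; the finite measures `u⁺ mu` and `u⁻ mu`
(`withDensity (ENNReal.ofReal u)`, ...) give the same integrals to all bounded continuous functions,
so they coincide (`MeasureTheory.ext_of_forall_integral_eq_of_IsFiniteMeasure`) and `u⁺ = u⁻` a.e.
(`MeasureTheory.withDensity_eq_iff`).  Other route: for a closed set `F` use the decreasing
continuous approximations `thickenedIndicator` of its indicator to get `∫_F h = 0` (dominated
convergence) and `ae_eq_zero_of_forall_setIntegral_isClosed_eq_zero` if available.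
-/

namespace MPcd65c1

open MeasureTheory
open scoped ENNReal

private theorem int_cont_mul {d : ℕ} (G : C(Td d, ℂ)) {h : Td d → ℂ}
    (hh : Integrable h (mu d)) : Integrable (fun x => G x * h x) (mu d) := by
  refine hh.bdd_mul (c := ‖G‖) (map_continuous G).aestronglyMeasurable ?_
  filter_upwards with x
  exact G.norm_coe_le_norm x

private theorem integral_cont_mul_eq_zero {d : ℕ} {h : Td d → ℂ} (hh : Integrable h (mu d))
    (hc : ∀ k, cf h k = 0) (G : C(Td d, ℂ)) : ∫ x, G x * h x ∂(mu d) = 0 := by
  -- the functional is linear and vanishes on the span of the characters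
  let Λ : C(Td d, ℂ) →ₗ[ℂ] ℂ :=
    { toFun := fun G => ∫ x, G x * h x ∂(mu d)
      map_add' := by
        intro G G'
        rw [← integral_add (int_cont_mul G hh) (int_cont_mul G' hh)]
        simp [add_mul]
      map_smul' := by
        intro c G
        simp only [ContinuousMap.coe_smul, Pi.smul_apply, smul_eq_mul, RingHom.id_apply, mul_assoc]
        rw [integral_const_mul] }
  have hΛ : ∀ G, ‖Λ G‖ ≤ (∫ x, ‖h x‖ ∂(mu d)) * ‖G‖ := by
    intro G
    show ‖∫ x, G x * h x ∂(mu d)‖ ≤ _
    refine (norm_integral_le_integral_norm _).trans ?_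
    rw [mul_comm, ← integral_const_mul]
    refine integral_mono (int_cont_mul G hh).norm (hh.norm.const_mul _) (fun x => ?_)
    simp only [norm_mul]
    exact mul_le_mul_of_nonneg_right (G.norm_coe_le_norm x) (norm_nonneg _)
  let Λc : C(Td d, ℂ) →L[ℂ] ℂ := Λ.mkContinuous _ hΛ
  have hker : (Submodule.span ℂ (Set.range (UnitAddTorus.mFourier (d := Fin d)))) ≤
      LinearMap.ker Λ := by
    rw [Submodule.span_le]
    rintro _ ⟨k, rfl⟩
    show Λ (UnitAddTorus.mFourier k) = 0
    have := hc (-k)
    unfold cf at this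
    rw [neg_neg] at this
    exact this
  have hcl : IsClosed ((LinearMap.ker Λ : Submodule ℂ C(Td d, ℂ)) : Set C(Td d, ℂ)) := by
    have : ((LinearMap.ker Λ : Submodule ℂ C(Td d, ℂ)) : Set C(Td d, ℂ)) = Λc ⁻¹' {0} := by
      ext G
      simp [Λc]
    rw [this]
    exact isClosed_singleton.preimage Λc.continuous
  have htop := Submodule.topologicalClosure_minimal _ hker hcl
  have h1 : (Submodule.span ℂ (Set.range (UnitAddTorus.mFourier (d := Fin d)))).topologicalClosure
      = ⊤ := UnitAddTorus.span_mFourier_closure_eq_top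
  rw [h1] at htop
  have : G ∈ LinearMap.ker Λ := htop (Submodule.mem_top)
  exact this

private theorem ae_zero {d : ℕ} {h : Td d → ℂ} (hh : Integrable h (mu d))
    (hc : ∀ k, cf h k = 0) : h =ᵐ[mu d] 0 := by
  refine ae_eq_zero_of_forall_setIntegral_isClosed_eq_zero hh (fun F hF => ?_)
  have hlim : Filter.Tendsto (fun n : ℕ => ∫ x, ((hF.apprSeq n x : ℝ) : ℂ) * h x ∂(mu d))
      Filter.atTop (nhds (∫ x, F.indicator h x ∂(mu d))) := by
    refine tendsto_integral_of_dominated_convergence (fun x => ‖h x‖) ?_ hh.norm ?_ ?_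
    · intro n
      refine AEStronglyMeasurable.mul ?_ hh.aestronglyMeasurable
      have : Continuous (fun x : Td d => ((hF.apprSeq n x : ℝ) : ℂ)) := by
        have := (hF.apprSeq n).continuous
        fun_prop
      exact this.aestronglyMeasurable
    · intro n
      filter_upwards with x
      rw [norm_mul]
      have h1 : ‖((hF.apprSeq n x : ℝ) : ℂ)‖ ≤ 1 := by
        rw [Complex.norm_real, Real.norm_of_nonneg (by positivity)]
        exact_mod_cast HasOuterApproxClosed.apprSeq_apply_le_one hF n x
      calc _ ≤ 1 * ‖h x‖ := mul_le_mul_of_nonneg_right h1 (norm_nonneg _)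
        _ = _ := one_mul _
    · filter_upwards with x
      have h1 := (tendsto_pi_nhds.mp (HasOuterApproxClosed.tendsto_apprSeq hF)) x
      have h2 : Filter.Tendsto (fun n : ℕ => ((hF.apprSeq n x : ℝ) : ℂ)) Filter.atTop
          (nhds ((((F.indicator (fun _ => (1 : NNReal)) x : NNReal) : ℝ) : ℂ))) := by
        have hcont : Continuous (fun t : NNReal => ((t : ℝ) : ℂ)) := by fun_prop
        exact (hcont.tendsto _).comp h1
      have h3 := h2.mul_const (h x)
      have h4 : (((F.indicator (fun _ => (1 : NNReal)) x : NNReal) : ℝ) : ℂ) * h x =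
          F.indicator h x := by
        by_cases hx : x ∈ F
        · simp [hx]
        · simp [hx]
      rw [← h4]
      exact h3
  have hz : ∀ n : ℕ, ∫ x, ((hF.apprSeq n x : ℝ) : ℂ) * h x ∂(mu d) = 0 := by
    intro n
    have hcont : Continuous (fun x : Td d => ((hF.apprSeq n x : ℝ) : ℂ)) := by
      have := (hF.apprSeq n).continuous
      fun_prop
    exact integral_cont_mul_eq_zero hh hc ⟨_, hcont⟩
  simp_rw [hz] at hlim
  have := tendsto_nhds_unique hlim tendsto_const_nhds
  rw [integral_indicator hF.measurableSet] at this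
  exact this

theorem ae_eq_of_cf_eq {d : ℕ} {f g : Td d → ℂ} (hf : Integrable f (mu d))
    (hg : Integrable g (mu d)) (h : ∀ k, cf f k = cf g k) : f =ᵐ[mu d] g := by
  have h0 : (fun x => f x - g x) =ᵐ[mu d] 0 := by
    refine ae_zero (hf.sub hg) (fun k => ?_)
    rw [cf_sub hf hg, h k, sub_self]
  filter_upwards [h0] with x hx
  exact sub_eq_zero.mp hx

end MPcd65c1
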