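import Pool.Agent.Lib.MP_cd65c1_an.H1

/-!
# H4c: trigonometric polynomials in L_q: seminorms, transfer of coverings

`Cov.toLp`: translation of a covering of coefficient families by the seminorm `nrm q (tp L ·)` into a covering in
`Lp ℂ q`: the map `T c = (tp L c as an element of Lp)` (`(ContinuousMap.memLp_..).toLp`; every continuous function on
the compact torus is in every `Lp`, `mu d` is finite) satisfies `‖T v - T w‖ = nrm q (tp L (v - w))`; use `Cov.image`.
-/

set_option autoImplicit false

namespace MPcd65c1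

open MeasureTheory
open scoped ENNReal

private theorem tp_apply' {d : ℕ} (L : Finset (Fin d → ℤ)) (c : CV d) (t : Td d) :
    tp L c t = ∑ k ∈ L, c k * UnitAddTorus.mFourier k t := by
  simp [tp, ContinuousMap.coe_sum, Finset.sum_apply]

private theorem tp_add' {d : ℕ} (L : Finset (Fin d → ℤ)) (x y : CV d) :
    tp L (x + y) = tp L x + tp L y := by
  ext t
  rw [ContinuousMap.add_apply, tp_apply', tp_apply', tp_apply', ← Finset.sum_add_distrib]
  exact Finset.sum_congr rfl fun k _ => by rw [Pi.add_apply, add_mul]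

private theorem tp_sub' {d : ℕ} (L : Finset (Fin d → ℤ)) (x y : CV d) :
    tp L (x - y) = tp L x - tp L y := by
  ext t
  rw [ContinuousMap.sub_apply, tp_apply', tp_apply', tp_apply', ← Finset.sum_sub_distrib]
  exact Finset.sum_congr rfl fun k _ => by rw [Pi.sub_apply, sub_mul]

private theorem tp_smul' {d : ℕ} (L : Finset (Fin d → ℤ)) (t : ℝ) (x : CV d) :
    tp L (t • x) = (t : ℂ) • tp L x := by
  ext u
  rw [ContinuousMap.smul_apply, tp_apply', tp_apply', smul_eq_mul, Finset.mul_sum]
  exact Finset.sum_congr rfl fun k _ => by rw [Pi.smul_apply, Complex.real_smul, mul_assoc]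

theorem memLp_tp {d : ℕ} (q : ℝ≥0∞) (L : Finset (Fin d → ℤ)) (c : CV d) :
    MemLp (tp L c : Td d → ℂ) q (mu d) := by
  exact MemLp.of_bound (tp L c).continuous.aestronglyMeasurable ‖tp L c‖
    (Filter.Eventually.of_forall fun x => ContinuousMap.norm_coe_le_norm _ x)

theorem sn_nrm {d : ℕ} (q : ℝ≥0∞) (hq : 1 ≤ q) (L : Finset (Fin d → ℤ)) (a : CV d) :
    Sn (fun c : CV d => nrm q (tp L (fun k => a k * c k))) := by
  have h1 : Sn (fun c : CV d => nrm q (tp L c)) := by
    constructor
    · intro x y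
      have hx := memLp_tp q L x
      have hy := memLp_tp q L y
      have h2 : (tp L (x + y) : Td d → ℂ) = (tp L x : Td d → ℂ) + (tp L y : Td d → ℂ) := by
        rw [tp_add']
        rfl
      simp only [nrm]
      rw [h2, ← ENNReal.toReal_add hx.2.ne hy.2.ne]
      exact ENNReal.toReal_mono (ENNReal.add_ne_top.mpr ⟨hx.2.ne, hy.2.ne⟩)
        (eLpNorm_add_le hx.1 hy.1 hq)
    · intro t x
      have h2 : (tp L (t • x) : Td d → ℂ) = (t : ℂ) • (tp L x : Td d → ℂ) := by
        rw [tp_smul']
        rfl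
      simp only [nrm]
      rw [h2, eLpNorm_const_smul, ENNReal.toReal_mul]
      simp
  let T : CV d →ₗ[ℝ] CV d :=
    { toFun := fun c k => a k * c k
      map_add' := fun x y => by
        funext k
        simp only [Pi.add_apply]
        ring
      map_smul' := fun t x => by
        funext k
        simp only [Pi.smul_apply, Complex.real_smul, RingHom.id_apply]
        ring }
  exact h1.comp T

theorem sn_nrm' {d : ℕ} (q : ℝ≥0∞) (hq : 1 ≤ q) (L : Finset (Fin d → ℤ)) :
    Sn (fun c : CV d => nrm q (tp L c)) := by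
  have h := sn_nrm q hq L 1
  simpa using h

/-- the element of `L_q` defined by a trigonometric polynomial -/
noncomputable def tpLp {d : ℕ} (q : ℝ≥0∞) (L : Finset (Fin d → ℤ)) (c : CV d) :
    Lp ℂ q (mu d) := (memLp_tp q L c).toLp _

theorem norm_tpLp_sub {d : ℕ} (q : ℝ≥0∞) (L : Finset (Fin d → ℤ)) (v w : CV d) :
    ‖tpLp q L v - tpLp q L w‖ = nrm q (tp L (v - w)) := by
  have h1 : tpLp q L v - tpLp q L w =
      ((memLp_tp q L v).sub (memLp_tp q L w)).toLp _ := rfl
  rw [h1, Lp.norm_toLp]
  unfold nrm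
  rw [tp_sub']
  rfl

theorem Cov.toLp {d : ℕ} {q : ℝ≥0∞} {L : Finset (Fin d → ℤ)} {A : Set (CV d)} {N e : ℝ}
    (h : Cov (fun c : CV d => nrm q (tp L c)) A N e) :
    Cov (fun x : Lp ℂ q (mu d) => ‖x‖) (tpLp q L '' A) N e :=
  h.image (tpLp q L) fun v w => (norm_tpLp_sub q L v w).le

end MPcd65c1
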