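import Pool.Agent.Lib.MP_cd65c1_an.ABasic
import Pool.Agent.Lib.MP_cd65c1_an.ANrm
import Pool.Agent.Lib.MP_cd65c1_an.AUniq
import Pool.Agent.Lib.MP_cd65c1_an.H4c

/-!
# MP_cd65c1_an / ALp : trigonometric polynomials in `L_q`, coefficients of sums of series
(about 130 lines)

* `tpLp` (the class of `tp L c` in `L_q`) is defined in `H4c`.
* `norm_tpLp`: `MemLp.coeFn_toLp`, `Lp.norm_def`, `eLpNorm_congr_ae` (or `norm_tpLp_sub` of `H4c` with `w = 0`).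
* `cf_tpLp`: `cf_congr`, `cf_tp`.
* `cf_sub_le`: `‖cf u k - cf v k‖ ≤ ∫ ‖u - v‖ = nrm 1 (u - v) ≤ nrm q (u - v) = ‖u - v‖`.
* `cf_hasSum`: `u = Σ u_i` in `L_q` (norm convergence) implies `cf u k = Σ cf (u_i) k`: the map
  `u ↦ cf u k` is additive and Lipschitz (`cf_sub_le`), so it is a continuous additive map and
  `HasSum.map` applies.
* `Lp_ext_cf`: `ae_eq_of_cf_eq`, `Lp.ext`; elements of `Lp q`, `q ≥ 1`, are integrable
  (probability measure).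
-/

namespace MPcd65c1

open MeasureTheory
open scoped ENNReal

theorem coe_tpLp {d : ℕ} (q : ℝ≥0∞) [Fact (1 ≤ q)] (L : Finset (Fin d → ℤ)) (c : CV d) :
    (tpLp q L c : Td d → ℂ) =ᵐ[mu d] (tp L c : Td d → ℂ) :=
  MemLp.coeFn_toLp (memLp_tp q L c)

theorem norm_tpLp {d : ℕ} (q : ℝ≥0∞) [Fact (1 ≤ q)] (L : Finset (Fin d → ℤ)) (c : CV d) :
    ‖tpLp q L c‖ = nrm q (tp L c) := by
  unfold nrm tpLp
  rw [Lp.norm_toLp]

theorem tpLp_sub {d : ℕ} (q : ℝ≥0∞) [Fact (1 ≤ q)] (L : Finset (Fin d → ℤ)) (c c' : CV d) :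
    tpLp q L c - tpLp q L c' = tpLp q L (c - c') := by
  refine Lp.ext ?_
  filter_upwards [Lp.coeFn_sub (tpLp q L c) (tpLp q L c'), coe_tpLp q L c, coe_tpLp q L c',
    coe_tpLp q L (c - c')] with x h1 h2 h3 h4
  rw [h1, Pi.sub_apply, h2, h3, h4, tp_apply, tp_apply, tp_apply, ← Finset.sum_sub_distrib]
  refine Finset.sum_congr rfl (fun k _ => ?_)
  rw [Pi.sub_apply]
  ring

theorem cf_tpLp {d : ℕ} (q : ℝ≥0∞) [Fact (1 ≤ q)] (L : Finset (Fin d → ℤ)) (c : CV d)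
    (k : Fin d → ℤ) : cf (tpLp q L c : Td d → ℂ) k = if k ∈ L then c k else 0 := by
  rw [cf_congr (coe_tpLp q L c) k, cf_tp]

theorem integrable_Lp {d : ℕ} (q : ℝ≥0∞) [Fact (1 ≤ q)] (u : Lp ℂ q (mu d)) :
    Integrable (u : Td d → ℂ) (mu d) :=
  (Lp.memLp u).integrable (Fact.out : 1 ≤ q)

theorem cf_sub_le {d : ℕ} (q : ℝ≥0∞) [Fact (1 ≤ q)] (u v : Lp ℂ q (mu d)) (k : Fin d → ℤ) :
    ‖cf (u : Td d → ℂ) k - cf (v : Td d → ℂ) k‖ ≤ ‖u - v‖ := by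
  rw [← cf_sub (integrable_Lp q u) (integrable_Lp q v) k]
  refine (norm_cf_le_int _ k).trans ?_
  have hm : MemLp (fun x => (u : Td d → ℂ) x - (v : Td d → ℂ) x) q (mu d) :=
    (Lp.memLp u).sub (Lp.memLp v)
  rw [← nrm_one_eq _ hm.aestronglyMeasurable]
  refine (nrm_mono_exp (Fact.out : 1 ≤ q) hm).trans (le_of_eq ?_)
  rw [Lp.norm_def]
  unfold nrm
  congr 1
  exact eLpNorm_congr_ae (Lp.coeFn_sub u v).symm

theorem cf_hasSum {d : ℕ} (q : ℝ≥0∞) [Fact (1 ≤ q)] {u : ℕ → Lp ℂ q (mu d)} {v : Lp ℂ q (mu d)}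
    (h : HasSum u v) (k : Fin d → ℤ) :
    HasSum (fun i => cf (u i : Td d → ℂ) k) (cf (v : Td d → ℂ) k) := by
  let φ : Lp ℂ q (mu d) →+ ℂ :=
    { toFun := fun w => cf (w : Td d → ℂ) k
      map_zero' := by
        have h1 : cf ((0 : Lp ℂ q (mu d)) : Td d → ℂ) k = cf (fun _ => (0 : ℂ)) k :=
          cf_congr (Lp.coeFn_zero ℂ q (mu d)) k
        rw [h1]
        unfold cf
        simp
      map_add' := fun a b => by
        have h1 : cf ((a + b : Lp ℂ q (mu d)) : Td d → ℂ) k =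
            cf (fun x => (a : Td d → ℂ) x + (b : Td d → ℂ) x) k :=
          cf_congr (Lp.coeFn_add a b) k
        rw [h1, cf_add (integrable_Lp q a) (integrable_Lp q b)] }
  have hc : Continuous φ := by
    have hl : LipschitzWith 1 φ := LipschitzWith.of_dist_le_mul (fun a b => by
      rw [dist_eq_norm, dist_eq_norm]
      simp only [NNReal.coe_one, one_mul]
      exact cf_sub_le q a b k)
    exact hl.continuous
  exact h.map φ hc

theorem Lp_ext_cf {d : ℕ} (q : ℝ≥0∞) [Fact (1 ≤ q)] {u v : Lp ℂ q (mu d)}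
    (h : ∀ k, cf (u : Td d → ℂ) k = cf (v : Td d → ℂ) k) : u = v :=
  Lp.ext (ae_eq_of_cf_eq (integrable_Lp q u) (integrable_Lp q v) h)

end MPcd65c1
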