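import Pool.Agent.Lib.MP_cd65c1_an.ABasic

/-!
# MP_cd65c1_an / APars : Parseval, pairing and Bessel (about 120 lines)

* `integral_mul_conj_tp`: expand `conj (tp L c x) = Σ conj (c k) e_{-k}(x)` and integrate termwise
  (`Integrable.bdd_mul` or `Integrable.mul_bdd`, `|e_k| = 1`).
* `integral_norm_sq_tp`: `‖z‖^2 = z * conj z`, the previous with `f = tp L c`, `cf_tp`.
* `nrm_two_tp`: `eLpNorm f 2` in terms of `∫ ‖f‖^2` (e.g. `MeasureTheory.MemLp.eLpNorm_eq_integral_rpow_norm`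
  or `eLpNorm_eq_lintegral_rpow_enorm`; continuous functions on a probability space are in every `L_p`).
* `bessel`: `0 ≤ ∫ ‖φ - tp L (cf φ)‖^2 = ∫ ‖φ‖^2 - Σ_L ‖cf φ k‖^2` (use the pairing), or Cauchy-Schwarz:
  `Σ ‖c k‖^2 = ∫ φ conj (tp L c) ≤ ‖φ‖_2 ‖tp L c‖_2 = ‖φ‖_2 (Σ ‖c k‖^2)^(1/2)` with `c = cf φ`.
* `l2_mul_cf_le`: `‖cf φ k‖ ≤ ∫ ‖φ‖ = nrm 1 φ ≤ 1`.
-/

namespace MPcd65c1

open MeasureTheory
open scoped ENNReal

theorem norm_tp_le {d : ℕ} (L : Finset (Fin d → ℤ)) (c : CV d) (x : Td d) :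
    ‖tp L c x‖ ≤ ∑ k ∈ L, ‖c k‖ := by
  rw [tp_apply]
  refine (norm_sum_le _ _).trans (Finset.sum_le_sum fun k _ => ?_)
  rw [norm_mul, norm_mF, mul_one]

theorem integral_mul_conj_tp {d : ℕ} (L : Finset (Fin d → ℤ)) (c : CV d) {f : Td d → ℂ}
    (hf : Integrable f (mu d)) :
    ∫ x, f x * (starRingEnd ℂ) (tp L c x) ∂(mu d) =
      ∑ k ∈ L, cf f k * (starRingEnd ℂ) (c k) := by
  have h1 : ∀ x : Td d, f x * (starRingEnd ℂ) (tp L c x) =
      ∑ k ∈ L, (starRingEnd ℂ) (c k) * (UnitAddTorus.mFourier (-k) x * f x) := by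
    intro x
    rw [tp_apply, map_sum, Finset.mul_sum]
    refine Finset.sum_congr rfl fun k _ => ?_
    rw [map_mul, mF_conj]
    ring
  simp_rw [h1]
  rw [integral_finsetSum]
  · refine Finset.sum_congr rfl fun k _ => ?_
    rw [integral_const_mul, cf, mul_comm]
  · intro k _
    refine Integrable.const_mul ?_ _
    exact hf.bdd_mul (c := 1) (UnitAddTorus.mFourier (-k)).continuous.aestronglyMeasurable
      (Filter.Eventually.of_forall fun x => (norm_mF (-k) x).le)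

private theorem tp_integrable {d : ℕ} (L : Finset (Fin d → ℤ)) (c : CV d) :
    Integrable (tp L c : Td d → ℂ) (mu d) :=
  Integrable.of_bound (tp L c).continuous.aestronglyMeasurable (∑ k ∈ L, ‖c k‖)
    (Filter.Eventually.of_forall fun x => norm_tp_le L c x)

private theorem tp_memLp {d : ℕ} (L : Finset (Fin d → ℤ)) (c : CV d) (q : ℝ≥0∞) :
    MemLp (tp L c : Td d → ℂ) q (mu d) :=
  MemLp.of_bound (tp L c).continuous.aestronglyMeasurable (∑ k ∈ L, ‖c k‖)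
    (Filter.Eventually.of_forall fun x => norm_tp_le L c x)

theorem integral_norm_sq_tp {d : ℕ} (L : Finset (Fin d → ℤ)) (c : CV d) :
    ∫ x, ‖tp L c x‖ ^ 2 ∂(mu d) = ∑ k ∈ L, ‖c k‖ ^ 2 := by
  have h1 := integral_mul_conj_tp L c (tp_integrable L c)
  have h2 : ∀ z : ℂ, z * (starRingEnd ℂ) z = ((‖z‖ ^ 2 : ℝ) : ℂ) := by
    intro z
    rw [Complex.mul_conj, Complex.normSq_eq_norm_sq]
  have h3 : ∑ k ∈ L, cf (tp L c) k * (starRingEnd ℂ) (c k) =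
      ((∑ k ∈ L, ‖c k‖ ^ 2 : ℝ) : ℂ) := by
    rw [Complex.ofReal_sum]
    refine Finset.sum_congr rfl fun k hk => ?_
    rw [cf_tp, if_pos hk, h2]
  rw [h3] at h1
  simp_rw [h2] at h1
  rw [integral_complex_ofReal] at h1
  exact_mod_cast h1

private theorem nrm_two {d : ℕ} {f : Td d → ℂ} (h : MemLp f 2 (mu d)) :
    nrm 2 f = Real.sqrt (∫ x, ‖f x‖ ^ 2 ∂(mu d)) := by
  have h0 : 0 ≤ ∫ x, ‖f x‖ ^ 2 ∂(mu d) := integral_nonneg fun x => by positivity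
  rw [nrm, h.eLpNorm_eq_integral_rpow_norm (by norm_num) (by norm_num)]
  rw [ENNReal.toReal_ofReal (by positivity)]
  have h1 : ∀ x, ‖f x‖ ^ (2 : ℝ≥0∞).toReal = ‖f x‖ ^ 2 := by
    intro x
    rw [ENNReal.toReal_ofNat]
    norm_cast
  simp_rw [h1]
  rw [Real.sqrt_eq_rpow, ENNReal.toReal_ofNat]
  norm_num

theorem nrm_two_tp {d : ℕ} (L : Finset (Fin d → ℤ)) (c : CV d) : nrm 2 (tp L c) = l2 L c := by
  rw [nrm_two (tp_memLp L c 2), integral_norm_sq_tp, l2]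

private theorem nrm_two_nonneg {d : ℕ} (φ : Td d → ℂ) : 0 ≤ nrm 2 φ := ENNReal.toReal_nonneg

theorem bessel {d : ℕ} (L : Finset (Fin d → ℤ)) {φ : Td d → ℂ} (h : MemLp φ 2 (mu d)) :
    l2 L (cf φ) ≤ nrm 2 φ := by
  have hint : Integrable φ (mu d) := h.integrable (by norm_num)
  have h1 := integral_mul_conj_tp L (cf φ) hint
  have h2 : ∑ k ∈ L, cf φ k * (starRingEnd ℂ) (cf φ k) = ((l2 L (cf φ) ^ 2 : ℝ) : ℂ) := by
    rw [l2, Real.sq_sqrt (Finset.sum_nonneg fun k _ => by positivity), Complex.ofReal_sum]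
    refine Finset.sum_congr rfl fun k _ => ?_
    rw [Complex.mul_conj, Complex.normSq_eq_norm_sq]
  have h3 : l2 L (cf φ) ^ 2 ≤ nrm 2 φ * l2 L (cf φ) := by
    have e1 : l2 L (cf φ) ^ 2 = ‖∫ x, φ x * (starRingEnd ℂ) (tp L (cf φ) x) ∂(mu d)‖ := by
      rw [h1, h2, Complex.norm_real, Real.norm_of_nonneg (by positivity)]
    have e2 : ‖∫ x, φ x * (starRingEnd ℂ) (tp L (cf φ) x) ∂(mu d)‖ ≤
        ∫ x, ‖φ x‖ * ‖tp L (cf φ) x‖ ∂(mu d) := by
      refine (norm_integral_le_integral_norm _).trans (le_of_eq ?_)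
      refine integral_congr_ae (Filter.Eventually.of_forall fun x => ?_)
      simp only [norm_mul, RCLike.norm_conj]
    have e3 := integral_mul_norm_le_Lp_mul_Lq (μ := mu d) (p := 2) (q := 2) (f := φ)
      (g := (tp L (cf φ) : Td d → ℂ)) Real.HolderConjugate.two_two
      (by simpa using h) (by simpa using tp_memLp L (cf φ) 2)
    have e4 : (∫ x, ‖φ x‖ ^ (2 : ℝ) ∂(mu d)) ^ (1 / (2 : ℝ)) = nrm 2 φ := by
      rw [nrm_two h, Real.sqrt_eq_rpow]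
      norm_cast
    have e5 : (∫ x, ‖tp L (cf φ) x‖ ^ (2 : ℝ) ∂(mu d)) ^ (1 / (2 : ℝ)) = l2 L (cf φ) := by
      rw [← nrm_two_tp, nrm_two (tp_memLp L (cf φ) 2), Real.sqrt_eq_rpow]
      norm_cast
    rw [e4, e5] at e3
    rw [e1]
    exact e2.trans e3
  have h4 : 0 ≤ l2 L (cf φ) := Real.sqrt_nonneg _
  rcases h4.eq_or_lt with h5 | h5
  · rw [← h5]
    exact nrm_two_nonneg φ
  · rw [sq] at h3
    exact le_of_mul_le_mul_right h3 h5

theorem l2_mul_cf_le {d : ℕ} (L : Finset (Fin d → ℤ)) (a : CV d) {φ : Td d → ℂ}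
    (h : MemLp φ 1 (mu d)) (h1 : eLpNorm φ 1 (mu d) ≤ 1) :
    l2 L (fun k => a k * cf φ k) ≤ l2 L a := by
  have h2 : ∫ x, ‖φ x‖ ∂(mu d) ≤ 1 := by
    rw [integral_norm_eq_lintegral_enorm h.1, ← eLpNorm_one_eq_lintegral_enorm]
    exact ENNReal.toReal_le_of_le_ofReal zero_le_one (by simpa using h1)
  refine Real.sqrt_le_sqrt (Finset.sum_le_sum fun k _ => ?_)
  rw [norm_mul]
  have h3 : ‖cf φ k‖ ≤ 1 := (norm_cf_le_int φ k).trans h2
  have h4 : ‖a k‖ * ‖cf φ k‖ ≤ ‖a k‖ * 1 := mul_le_mul_of_nonneg_left h3 (norm_nonneg _)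
  rw [mul_one] at h4
  exact pow_le_pow_left₀ (by positivity) h4 2

end MPcd65c1
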