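import Pool.Agent.Lib.MP_cd65c1_an.BInt
import Pool.Agent.Lib.MP_cd65c1_an.ALp

/-!
# MP_cd65c1_an / BConv : convolution with `F_r` and Fourier coefficients; `WC = W` (about 150 lines)

* `K = FkerD r ∈ L_1`, `φ ∈ L_1`: the function `(x,y) ↦ K(x-y) φ(y)` is integrable on `Td d × Td d`
  (`Integrable.convolution_integrand` of Mathlib, for the additive Haar probability measure; or
  `MeasurePreserving` of `(x,y) ↦ (x-y,y)` and `Integrable.mul_prod`), so `convC r φ` is integrable.
* `cf_convC`: `∫ e_{-k}(x) ∫ K(x-y) φ(y) dy dx = ∫ (∫ e_{-k}(x-y) K(x-y) dx) e_{-k}(y) φ(y) dy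
  = lamr r k * cf φ k` (Fubini `integral_integral_swap`, translation invariance, `mF_add_arg`, `cf_FkerD`).
* `WC_eq_W`: if `f = convC r φ` a.e. then the coefficients agree (`cf_congr`); conversely if the coefficients agree
  then `f = convC r φ` a.e. (`ae_eq_of_cf_eq`, `integrable_Lp`).  (`MemLp φ p`, `1 ≤ p` implies integrable.)
* `convR`: `((convR r φ x : ℝ) : ℂ) = convC r (fun y => (φ y : ℂ)) x` (`integral_ofReal`).
-/

namespace MPcd65c1

open MeasureTheory
open scoped ENNReal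

private theorem bc_prod {d : ℕ} (r : ℝ) (hr : 0 < r) {φ : Td d → ℂ}
    (hφ : Integrable φ (mu d)) :
    Integrable (fun p : Td d × Td d => ((FkerD r (p.1 - p.2) : ℝ) : ℂ) * φ p.2)
      ((mu d).prod (mu d)) := by
  have hK : Integrable (fun x : Td d => ((FkerD r x : ℝ) : ℂ)) (mu d) :=
    (integrable_FkerD r hr).ofReal
  have h := Integrable.convolution_integrand (ContinuousLinearMap.mul ℂ ℂ) hφ hK
  refine h.congr (Filter.Eventually.of_forall fun p => ?_)
  simp only [ContinuousLinearMap.mul_apply']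
  ring

theorem integrable_convC {d : ℕ} (r : ℝ) (hr : 0 < r) {φ : Td d → ℂ} (hφ : Integrable φ (mu d)) :
    Integrable (convC r φ) (mu d) := by
  have h := (bc_prod r hr hφ).integral_prod_left
  exact h

theorem cf_convC {d : ℕ} (r : ℝ) (hr : 0 < r) {φ : Td d → ℂ} (hφ : Integrable φ (mu d))
    (k : Fin d → ℤ) : cf (convC r φ) k = lamr r k * cf φ k := by
  have hint : Integrable (Function.uncurry fun (x y : Td d) =>
      (UnitAddTorus.mFourier (-k) x : ℂ) * (((FkerD r (x - y) : ℝ) : ℂ) * φ y))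
      ((mu d).prod (mu d)) := by
    have hm : AEStronglyMeasurable (fun p : Td d × Td d => (UnitAddTorus.mFourier (-k) p.1 : ℂ))
        ((mu d).prod (mu d)) :=
      ((map_continuous (UnitAddTorus.mFourier (-k))).comp continuous_fst).aestronglyMeasurable
    have h1 := (bc_prod r hr hφ).bdd_mul (c := 1) hm (by
      filter_upwards with p
      rw [norm_mF])
    exact h1
  have h1 : cf (convC r φ) k = ∫ x, ∫ y, (UnitAddTorus.mFourier (-k) x : ℂ) *
      (((FkerD r (x - y) : ℝ) : ℂ) * φ y) ∂(mu d) ∂(mu d) := by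
    unfold cf convC
    congr 1
    funext x
    rw [← integral_const_mul]
  rw [h1, integral_integral_swap hint]
  have h2 : ∀ y : Td d, ∫ x, (UnitAddTorus.mFourier (-k) x : ℂ) *
      (((FkerD r (x - y) : ℝ) : ℂ) * φ y) ∂(mu d) =
      lamr r k * ((UnitAddTorus.mFourier (-k) y : ℂ) * φ y) := by
    intro y
    have h3 := cf_translate (fun x : Td d => ((FkerD r x : ℝ) : ℂ)) y k
    rw [cf_FkerD r hr k] at h3
    unfold cf at h3
    calc ∫ x, (UnitAddTorus.mFourier (-k) x : ℂ) * (((FkerD r (x - y) : ℝ) : ℂ) * φ y) ∂(mu d)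
        = ∫ x, ((UnitAddTorus.mFourier (-k) x : ℂ) * ((FkerD r (x - y) : ℝ) : ℂ)) * φ y ∂(mu d) := by
          congr 1
          funext x
          ring
      _ = (∫ x, (UnitAddTorus.mFourier (-k) x : ℂ) * ((FkerD r (x - y) : ℝ) : ℂ) ∂(mu d)) * φ y := by
          rw [integral_mul_const]
      _ = lamr r k * ((UnitAddTorus.mFourier (-k) y : ℂ) * φ y) := by
          rw [h3]
          ring
  simp_rw [h2]
  rw [integral_const_mul]
  rfl

theorem ofReal_convR {d : ℕ} (r : ℝ) (φ : Td d → ℝ) (x : Td d) :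
    ((convR r φ x : ℝ) : ℂ) = convC r (fun y => ((φ y : ℝ) : ℂ)) x := by
  unfold convR convC
  refine (integral_ofReal (𝕜 := ℂ) (μ := mu d)
    (f := fun y => FkerD r (x - y) * φ y)).symm.trans ?_
  refine integral_congr_ae (Filter.Eventually.of_forall fun y => ?_)
  simp

theorem WC_eq_W (d : ℕ) (r : ℝ) (hr : 0 < r) (p q : ℝ≥0∞) [Fact (1 ≤ p)] [Fact (1 ≤ q)] :
    WC d r p q = W d r p q := by
  ext f
  constructor
  · rintro ⟨φ, hφ, hφ1, hf⟩
    refine ⟨φ, hφ, hφ1, fun k => ?_⟩
    have hi : Integrable φ (mu d) := hφ.integrable (Fact.out)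
    rw [cf_congr hf k, cf_convC r hr hi k]
  · rintro ⟨φ, hφ, hφ1, hf⟩
    have hi : Integrable φ (mu d) := hφ.integrable (Fact.out)
    refine ⟨φ, hφ, hφ1, ?_⟩
    refine ae_eq_of_cf_eq (integrable_Lp q f) (integrable_convC r hr hi) fun k => ?_
    rw [hf k, cf_convC r hr hi k]

end MPcd65c1
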