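import Pool.Agent.Lib.MP_cd65c1_an.Defs

/-!
# MP_cd65c1_an / BDefs : the class `W^r_p` literally: convolution with the Bernoulli kernels
-/

namespace MPcd65c1

open MeasureTheory
open scoped ENNReal

/-- representative in `[0,1)` of a point of `ℝ/ℤ` -/
noncomputable def rep (t : UnitAddCircle) : ℝ := (AddCircle.equivIco (1 : ℝ) 0 t : ℝ)

/-- partial sums of the Bernoulli kernel `F_r(2πt) = 1 + 2 Σ_{k ≥ 1} k^{-r} cos(2πkt - rπ/2)` -/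
noncomputable def Fpart (r : ℝ) (N : ℕ) (t : UnitAddCircle) : ℝ :=
  1 + 2 * ∑ k ∈ Finset.range N,
    ((k : ℝ) + 1) ^ (-r) * Real.cos (2 * Real.pi * ((k : ℝ) + 1) * rep t - r * Real.pi / 2)

/-- the Bernoulli kernel (limit of the partial sums; it exists for every `t ≠ 0`) -/
noncomputable def Fker (r : ℝ) (t : UnitAddCircle) : ℝ :=
  Filter.limUnder Filter.atTop (fun N : ℕ => Fpart r N t)

/-- `F_r(x) = ∏_j F_r(x_j)` -/
noncomputable def FkerD {d : ℕ} (r : ℝ) (x : Td d) : ℝ := ∏ j, Fker r (x j)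

/-- `F_r * φ` -/
noncomputable def convC {d : ℕ} (r : ℝ) (φ : Td d → ℂ) (x : Td d) : ℂ :=
  ∫ y, ((FkerD r (x - y) : ℝ) : ℂ) * φ y ∂(mu d)

/-- `F_r * φ`, real functions -/
noncomputable def convR {d : ℕ} (r : ℝ) (φ : Td d → ℝ) (x : Td d) : ℝ :=
  ∫ y, FkerD r (x - y) * φ y ∂(mu d)

/-- the class `W^r_p` in `L_q`, complex functions -/
def WC (d : ℕ) (r : ℝ) (p q : ℝ≥0∞) : Set (Lp ℂ q (mu d)) :=
  {f | ∃ φ : Td d → ℂ, MemLp φ p (mu d) ∧ eLpNorm φ p (mu d) ≤ 1 ∧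
    (f : Td d → ℂ) =ᵐ[mu d] convC r φ}

/-- the class `W^r_p` in `L_q`, real functions -/
def WRR (d : ℕ) (r : ℝ) (p q : ℝ≥0∞) : Set (Lp ℝ q (mu d)) :=
  {f | ∃ φ : Td d → ℝ, MemLp φ p (mu d) ∧ eLpNorm φ p (mu d) ≤ 1 ∧
    (f : Td d → ℝ) =ᵐ[mu d] convR r φ}

end MPcd65c1
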