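import Pool.Agent.Lib.MP_cd65c1_an.BSer
import Pool.Agent.Lib.MP_cd65c1_an.ABasic

/-!
# MP_cd65c1_an / BInt : `F_r ∈ L_1` and its Fourier coefficients (about 170 lines)

* `integrable_pow`: `t ↦ ‖t‖^(a-1)`, `0 < a`, is integrable on the circle:
  `UnitAddCircle.lintegral_preimage`/`integral_preimage` over `Ioc (-1/2) (1/2)` (relation between `volume` and
  `haarAddCircle`: `AddCircle.volume_eq_smul_haarAddCircle`, `ENNReal.ofReal 1 = 1`), `‖(u : UnitAddCircle)‖ = |u|` for
  `|u| ≤ 1/2`, `intervalIntegral.intervalIntegrable_rpow'`.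
* `integrable_Fker`: a.e. limit (points are null sets) of the continuous functions `Fpart r N`
  (`Fpart_eq`), dominated by `7 ‖t‖^(a-1)` (`abs_Fpart_le`).
* `coef_Fker`: dominated convergence: `∫ e_{-k} Fker = lim_N ∫ e_{-k} Fpart r N`, and by `Fpart_eq`
  (`Re w = (w + conj w)/2`) and orthogonality of `fourier`, for `N ≥ |k|` the value is `bern r k`:
  `k = 0`: `1`; `k > 0`: `e^{-irπ/2} k^(-r)`; `k < 0`: `e^{irπ/2} |k|^(-r)`.
* product: `FkerD r x = ∏ Fker r (x j)`: `MeasureTheory.Integrable.fintype_prod`,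
  `integral_fintype_prod_eq_prod`, `mFourier (-k) x = ∏ fourier (-k j) (x j)`.
-/

namespace MPcd65c1

open MeasureTheory

private theorem bi_haar : (AddCircle.haarAddCircle : Measure UnitAddCircle) = volume := by
  rw [AddCircle.volume_eq_smul_haarAddCircle, ENNReal.ofReal_one, one_smul]

private theorem bi_ae_ne :
    ∀ᵐ t ∂(AddCircle.haarAddCircle : Measure UnitAddCircle), t ≠ 0 := by
  rw [bi_haar, ← (UnitAddCircle.measurePreserving_mk 0).map_eq]
  refine (ae_map_iff (p := fun t : UnitAddCircle => t ≠ 0)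
    (UnitAddCircle.measurePreserving_mk 0).measurable.aemeasurable
    (measurableSet_singleton (0 : UnitAddCircle)).compl).mpr ?_
  rw [ae_restrict_iff' measurableSet_Ioc]
  have h1 : ∀ᵐ x : ℝ, x ≠ 1 := Measure.ae_ne volume 1
  filter_upwards [h1] with x hx hx2 hx3
  have hx3' : ((x : ℝ) : AddCircle (1 : ℝ)) = 0 := hx3
  rw [AddCircle.coe_eq_zero_iff] at hx3'
  obtain ⟨n, hn⟩ := hx3'
  rw [zsmul_eq_mul, mul_one] at hn
  rw [zero_add] at hx2
  have h2 : (n : ℝ) < 1 := lt_of_le_of_ne (by rw [hn]; exact hx2.2) (by rw [hn]; exact hx)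
  have h3 : (0 : ℝ) < n := by rw [hn]; exact hx2.1
  have h4 : n < 1 := by exact_mod_cast h2
  have h5 : 0 < n := by exact_mod_cast h3
  omega

private theorem bi_abs (a : ℝ) (ha : 0 < a) :
    IntervalIntegrable (fun x : ℝ => |x| ^ (a - 1)) volume (-(1 / 2)) (1 / 2) := by
  have h1 : IntervalIntegrable (fun x : ℝ => x ^ (a - 1)) volume 0 (1 / 2) :=
    intervalIntegral.intervalIntegrable_rpow' (by linarith)
  have h2 : IntervalIntegrable (fun x : ℝ => |x| ^ (a - 1)) volume 0 (1 / 2) := by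
    rw [intervalIntegrable_iff] at h1 ⊢
    refine h1.congr_fun ?_ measurableSet_uIoc
    intro x hx
    rw [Set.uIoc_of_le (by norm_num)] at hx
    simp only
    rw [abs_of_pos hx.1]
  have h3 := h2.comp_sub_left 0
  simp only [zero_sub, abs_neg, neg_zero] at h3
  exact h3.symm.trans h2

/-- the powers of the distance are integrable on the circle -/
private theorem bi_pow (a : ℝ) (ha : 0 < a) :
    Integrable (fun t : UnitAddCircle => ‖t‖ ^ (a - 1))
      (AddCircle.haarAddCircle : Measure UnitAddCircle) := by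
  rw [bi_haar]
  have hmeas : Measurable (fun t : UnitAddCircle => ‖t‖ ^ (a - 1)) :=
    (continuous_norm.measurable).pow_const _
  rw [← (UnitAddCircle.measurePreserving_mk (-(1 / 2))).integrable_comp hmeas.aestronglyMeasurable]
  have h1 := bi_abs a ha
  rw [intervalIntegrable_iff, Set.uIoc_of_le (by norm_num)] at h1
  have h2 : -(1 / 2 : ℝ) + 1 = 1 / 2 := by norm_num
  rw [h2]
  refine h1.congr_fun ?_ measurableSet_Ioc
  intro x hx
  simp only [Function.comp]
  have h3 : ‖((x : ℝ) : AddCircle (1 : ℝ))‖ = |x| := by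
    rw [AddCircle.norm_coe_eq_abs_iff (1 : ℝ) one_ne_zero, abs_one]
    exact abs_le.mpr ⟨hx.1.le, hx.2⟩
  exact congrArg (fun y : ℝ => y ^ (a - 1)) h3.symm

private theorem bi_cont (r : ℝ) (N : ℕ) : Continuous (Fpart r N) := by
  have h : Fpart r N = fun t => 1 + 2 * (Complex.exp (-(Complex.I * ((r * Real.pi / 2 : ℝ) : ℂ))) *
      ∑ k ∈ Finset.range N, ((((k : ℝ) + 1) ^ (-r) : ℝ) : ℂ) *
        (fourier ((k : ℤ) + 1) t : ℂ)).re := by
    funext t
    exact Fpart_eq r N t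
  rw [h]
  refine continuous_const.add (continuous_const.mul (Complex.continuous_re.comp
    (continuous_const.mul (continuous_finsetSum _ fun k _ => continuous_const.mul ?_))))
  exact (map_continuous (fourier ((k : ℤ) + 1) : C(UnitAddCircle, ℂ)))

private theorem bi_abs_Fker_le (r : ℝ) (hr : 0 < r) (t : UnitAddCircle) (ht : t ≠ 0) :
    |Fker r t| ≤ 7 * ‖t‖ ^ (min r (1 / 2) - 1) := by
  refine le_of_tendsto (tendsto_Fpart r hr t ht).abs (Filter.Eventually.of_forall fun N => ?_)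
  exact abs_Fpart_le r hr N t ht

theorem integrable_Fker (r : ℝ) (hr : 0 < r) :
    Integrable (Fker r) (AddCircle.haarAddCircle : Measure UnitAddCircle) := by
  have hmeas : AEStronglyMeasurable (Fker r) (AddCircle.haarAddCircle : Measure UnitAddCircle) := by
    refine aestronglyMeasurable_of_tendsto_ae Filter.atTop (f := fun N => Fpart r N)
      (fun N => (bi_cont r N).aestronglyMeasurable) ?_
    filter_upwards [bi_ae_ne] with t ht
    exact tendsto_Fpart r hr t ht
  refine Integrable.mono' ((bi_pow (min r (1 / 2)) (lt_min hr (by norm_num))).const_mul 7) hmeas ?_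
  filter_upwards [bi_ae_ne] with t ht
  exact bi_abs_Fker_le r hr t ht

private theorem bi_int_fourier (n : ℤ) :
    ∫ t : UnitAddCircle, (fourier n t : ℂ) ∂(AddCircle.haarAddCircle : Measure UnitAddCircle) =
      if n = 0 then 1 else 0 := by
  split_ifs with h
  · subst h
    simp
  · have h1 := orthonormal_iff_ite.mp (orthonormal_fourier (T := 1)) 0 n
    rw [if_neg (fun h0 => h h0.symm)] at h1
    rw [ContinuousMap.inner_toLp] at h1
    simpa using h1

private theorem bi_integrable_fourier (n : ℤ) :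
    Integrable (fun t : UnitAddCircle => (fourier n t : ℂ))
      (AddCircle.haarAddCircle : Measure UnitAddCircle) :=
  (map_continuous (fourier n : C(UnitAddCircle, ℂ))).integrable_of_hasCompactSupport
    (HasCompactSupport.of_compactSpace _)

private theorem bi_complex (r : ℝ) (N : ℕ) (t : UnitAddCircle) :
    ((Fpart r N t : ℝ) : ℂ) = (fourier 0 t : ℂ) +
      (∑ n ∈ Finset.range N, (Complex.exp (-(Complex.I * ((r * Real.pi / 2 : ℝ) : ℂ))) *
          ((((n : ℝ) + 1) ^ (-r) : ℝ) : ℂ)) * (fourier ((n : ℤ) + 1) t : ℂ) +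
       ∑ n ∈ Finset.range N, (Complex.exp (Complex.I * ((r * Real.pi / 2 : ℝ) : ℂ)) *
          ((((n : ℝ) + 1) ^ (-r) : ℝ) : ℂ)) * (fourier (-((n : ℤ) + 1)) t : ℂ)) := by
  rw [Fpart_eq]
  set w : ℂ := Complex.exp (-(Complex.I * ((r * Real.pi / 2 : ℝ) : ℂ))) *
    ∑ k ∈ Finset.range N, ((((k : ℝ) + 1) ^ (-r) : ℝ) : ℂ) * (fourier ((k : ℤ) + 1) t : ℂ) with hw
  have h1 : ∑ n ∈ Finset.range N, (Complex.exp (-(Complex.I * ((r * Real.pi / 2 : ℝ) : ℂ))) *
      ((((n : ℝ) + 1) ^ (-r) : ℝ) : ℂ)) * (fourier ((n : ℤ) + 1) t : ℂ) = w := by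
    rw [hw, Finset.mul_sum]
    exact Finset.sum_congr rfl fun n _ => by ring
  have h2 : ∑ n ∈ Finset.range N, (Complex.exp (Complex.I * ((r * Real.pi / 2 : ℝ) : ℂ)) *
      ((((n : ℝ) + 1) ^ (-r) : ℝ) : ℂ)) * (fourier (-((n : ℤ) + 1)) t : ℂ) =
      (starRingEnd ℂ) w := by
    rw [hw, map_mul, map_sum, Finset.mul_sum]
    refine Finset.sum_congr rfl fun n _ => ?_
    rw [map_mul, Complex.conj_ofReal, ← Complex.exp_conj, fourier_neg]
    have h3 : (starRingEnd ℂ) (-(Complex.I * ((r * Real.pi / 2 : ℝ) : ℂ))) =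
        Complex.I * ((r * Real.pi / 2 : ℝ) : ℂ) := by
      rw [map_neg, map_mul, Complex.conj_I, Complex.conj_ofReal]
      ring
    rw [h3]
    ring
  rw [h1, h2, Complex.add_conj, fourier_zero]
  push_cast
  ring

private theorem bi_coef_part (r : ℝ) (N : ℕ) (k : ℤ) :
    ∫ t, (fourier (-k) t : ℂ) * ((Fpart r N t : ℝ) : ℂ)
        ∂(AddCircle.haarAddCircle : Measure UnitAddCircle) =
      (if k = 0 then 1 else 0) +
      (∑ n ∈ Finset.range N, (Complex.exp (-(Complex.I * ((r * Real.pi / 2 : ℝ) : ℂ))) *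
          ((((n : ℝ) + 1) ^ (-r) : ℝ) : ℂ)) * (if (n : ℤ) + 1 = k then 1 else 0) +
       ∑ n ∈ Finset.range N, (Complex.exp (Complex.I * ((r * Real.pi / 2 : ℝ) : ℂ)) *
          ((((n : ℝ) + 1) ^ (-r) : ℝ) : ℂ)) * (if -((n : ℤ) + 1) = k then 1 else 0)) := by
  have h1 : ∀ t : UnitAddCircle, (fourier (-k) t : ℂ) * ((Fpart r N t : ℝ) : ℂ) =
      (fourier (-k + 0) t : ℂ) +
      (∑ n ∈ Finset.range N, (Complex.exp (-(Complex.I * ((r * Real.pi / 2 : ℝ) : ℂ))) *
          ((((n : ℝ) + 1) ^ (-r) : ℝ) : ℂ)) * (fourier (-k + ((n : ℤ) + 1)) t : ℂ) +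
       ∑ n ∈ Finset.range N, (Complex.exp (Complex.I * ((r * Real.pi / 2 : ℝ) : ℂ)) *
          ((((n : ℝ) + 1) ^ (-r) : ℝ) : ℂ)) * (fourier (-k + (-((n : ℤ) + 1))) t : ℂ)) := by
    intro t
    rw [bi_complex]
    simp only [fourier_add]
    rw [mul_add, mul_add, Finset.mul_sum, Finset.mul_sum]
    congr 2
    · exact Finset.sum_congr rfl fun n _ => by ring
    · exact Finset.sum_congr rfl fun n _ => by ring
  have hi : ∀ (c : ℂ) (m : ℤ), Integrable (fun t : UnitAddCircle => c * (fourier m t : ℂ))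
      (AddCircle.haarAddCircle : Measure UnitAddCircle) := fun c m =>
    (bi_integrable_fourier m).const_mul c
  simp_rw [h1]
  have hI1 : Integrable (fun t : UnitAddCircle => ∑ n ∈ Finset.range N,
      (Complex.exp (-(Complex.I * ((r * Real.pi / 2 : ℝ) : ℂ))) *
        ((((n : ℝ) + 1) ^ (-r) : ℝ) : ℂ)) * (fourier (-k + ((n : ℤ) + 1)) t : ℂ))
      (AddCircle.haarAddCircle : Measure UnitAddCircle) :=
    integrable_finsetSum _ fun n _ => hi _ _
  have hI2 : Integrable (fun t : UnitAddCircle => ∑ n ∈ Finset.range N,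
      (Complex.exp (Complex.I * ((r * Real.pi / 2 : ℝ) : ℂ)) *
        ((((n : ℝ) + 1) ^ (-r) : ℝ) : ℂ)) * (fourier (-k + (-((n : ℤ) + 1))) t : ℂ))
      (AddCircle.haarAddCircle : Measure UnitAddCircle) :=
    integrable_finsetSum _ fun n _ => hi _ _
  have e0 := integral_add (bi_integrable_fourier (-k + 0)) (hI1.add hI2)
  have e00 := integral_add hI1 hI2
  simp only [Pi.add_apply] at e0 e00
  rw [e0, e00, integral_finsetSum _ (fun n _ => hi _ _),
    integral_finsetSum _ (fun n _ => hi _ _)]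
  simp_rw [integral_const_mul, bi_int_fourier]
  have e1 : (-k + 0 = 0) ↔ (k = 0) := by omega
  have e2 : ∀ n : ℕ, (-k + ((n : ℤ) + 1) = 0) ↔ ((n : ℤ) + 1 = k) := fun n => by omega
  have e3 : ∀ n : ℕ, (-k + (-((n : ℤ) + 1)) = 0) ↔ (-((n : ℤ) + 1) = k) := fun n => by omega
  simp only [e1, e2, e3]

private theorem bi_coef_eventually (r : ℝ) (k : ℤ) (N : ℕ) (hN : k.natAbs ≤ N) :
    ∫ t, (fourier (-k) t : ℂ) * ((Fpart r N t : ℝ) : ℂ)
        ∂(AddCircle.haarAddCircle : Measure UnitAddCircle) = bern r k := by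
  rw [bi_coef_part]
  rcases lt_trichotomy k 0 with hk | hk | hk
  · obtain ⟨n0, rfl⟩ : ∃ n0 : ℕ, k = -((n0 : ℤ) + 1) := ⟨(-k - 1).toNat, by omega⟩
    rw [if_neg (by omega)]
    have h1 : ∑ n ∈ Finset.range N, (Complex.exp (-(Complex.I * ((r * Real.pi / 2 : ℝ) : ℂ))) *
        ((((n : ℝ) + 1) ^ (-r) : ℝ) : ℂ)) *
          (if (n : ℤ) + 1 = -((n0 : ℤ) + 1) then (1 : ℂ) else 0) = 0 := by
      refine Finset.sum_eq_zero fun n _ => ?_
      rw [if_neg (by omega), mul_zero]
    have h2 : ∑ n ∈ Finset.range N, (Complex.exp (Complex.I * ((r * Real.pi / 2 : ℝ) : ℂ)) *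
        ((((n : ℝ) + 1) ^ (-r) : ℝ) : ℂ)) *
          (if -((n : ℤ) + 1) = -((n0 : ℤ) + 1) then (1 : ℂ) else 0) =
        Complex.exp (Complex.I * ((r * Real.pi / 2 : ℝ) : ℂ)) *
          ((((n0 : ℝ) + 1) ^ (-r) : ℝ) : ℂ) := by
      rw [Finset.sum_eq_single n0]
      · rw [if_pos rfl, mul_one]
      · intro n _ hn
        rw [if_neg (by omega), mul_zero]
      · intro h
        exact absurd (Finset.mem_range.mpr (by omega)) h
    rw [h1, h2]
    unfold bern
    rw [if_neg (by omega)]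
    have h3 : |((-((n0 : ℤ) + 1) : ℤ) : ℝ)| = (n0 : ℝ) + 1 := by
      push_cast
      rw [abs_neg, abs_of_nonneg (by positivity)]
    have h4 : (-((n0 : ℤ) + 1)).sign = -1 := Int.sign_eq_neg_one_of_neg (by omega)
    rw [h3, h4]
    have h5 : -(Complex.I * (((((-1 : ℤ) : ℝ) * r * Real.pi / 2 : ℝ)) : ℂ)) =
        Complex.I * ((r * Real.pi / 2 : ℝ) : ℂ) := by
      push_cast
      ring
    rw [h5]
    ring
  · subst hk
    rw [if_pos rfl]
    have h1 : ∑ n ∈ Finset.range N, (Complex.exp (-(Complex.I * ((r * Real.pi / 2 : ℝ) : ℂ))) *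
        ((((n : ℝ) + 1) ^ (-r) : ℝ) : ℂ)) * (if (n : ℤ) + 1 = 0 then (1 : ℂ) else 0) = 0 := by
      refine Finset.sum_eq_zero fun n _ => ?_
      rw [if_neg (by omega), mul_zero]
    have h2 : ∑ n ∈ Finset.range N, (Complex.exp (Complex.I * ((r * Real.pi / 2 : ℝ) : ℂ)) *
        ((((n : ℝ) + 1) ^ (-r) : ℝ) : ℂ)) * (if -((n : ℤ) + 1) = 0 then (1 : ℂ) else 0) = 0 := by
      refine Finset.sum_eq_zero fun n _ => ?_
      rw [if_neg (by omega), mul_zero]
    rw [h1, h2]
    unfold bern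
    rw [if_pos rfl]
    ring
  · obtain ⟨n0, rfl⟩ : ∃ n0 : ℕ, k = (n0 : ℤ) + 1 := ⟨(k - 1).toNat, by omega⟩
    rw [if_neg (by omega)]
    have h1 : ∑ n ∈ Finset.range N, (Complex.exp (-(Complex.I * ((r * Real.pi / 2 : ℝ) : ℂ))) *
        ((((n : ℝ) + 1) ^ (-r) : ℝ) : ℂ)) *
          (if (n : ℤ) + 1 = (n0 : ℤ) + 1 then (1 : ℂ) else 0) =
        Complex.exp (-(Complex.I * ((r * Real.pi / 2 : ℝ) : ℂ))) *
          ((((n0 : ℝ) + 1) ^ (-r) : ℝ) : ℂ) := by
      rw [Finset.sum_eq_single n0]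
      · rw [if_pos rfl, mul_one]
      · intro n _ hn
        rw [if_neg (by omega), mul_zero]
      · intro h
        exact absurd (Finset.mem_range.mpr (by omega)) h
    have h2 : ∑ n ∈ Finset.range N, (Complex.exp (Complex.I * ((r * Real.pi / 2 : ℝ) : ℂ)) *
        ((((n : ℝ) + 1) ^ (-r) : ℝ) : ℂ)) *
          (if -((n : ℤ) + 1) = (n0 : ℤ) + 1 then (1 : ℂ) else 0) = 0 := by
      refine Finset.sum_eq_zero fun n _ => ?_
      rw [if_neg (by omega), mul_zero]
    rw [h1, h2]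
    unfold bern
    rw [if_neg (by omega)]
    have h3 : |(((n0 : ℤ) + 1 : ℤ) : ℝ)| = (n0 : ℝ) + 1 := by
      push_cast
      rw [abs_of_nonneg (by positivity)]
    have h4 : ((n0 : ℤ) + 1).sign = 1 := Int.sign_eq_one_of_pos (by omega)
    rw [h3, h4]
    have h5 : -(Complex.I * (((((1 : ℤ) : ℝ) * r * Real.pi / 2 : ℝ)) : ℂ)) =
        -(Complex.I * ((r * Real.pi / 2 : ℝ) : ℂ)) := by
      push_cast
      ring
    rw [h5]
    ring

theorem coef_Fker (r : ℝ) (hr : 0 < r) (k : ℤ) :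
    ∫ t, (fourier (-k) t : ℂ) * ((Fker r t : ℝ) : ℂ) ∂(AddCircle.haarAddCircle : Measure UnitAddCircle) =
      bern r k := by
  have h1 : Filter.Tendsto (fun N : ℕ => ∫ t, (fourier (-k) t : ℂ) * ((Fpart r N t : ℝ) : ℂ)
      ∂(AddCircle.haarAddCircle : Measure UnitAddCircle)) Filter.atTop
      (nhds (∫ t, (fourier (-k) t : ℂ) * ((Fker r t : ℝ) : ℂ)
        ∂(AddCircle.haarAddCircle : Measure UnitAddCircle))) := by
    refine tendsto_integral_of_dominated_convergence
      (fun t => 7 * ‖t‖ ^ (min r (1 / 2) - 1)) ?_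
      ((bi_pow (min r (1 / 2)) (lt_min hr (by norm_num))).const_mul 7) ?_ ?_
    · intro N
      exact ((map_continuous (fourier (-k) : C(UnitAddCircle, ℂ))).mul
        (Complex.continuous_ofReal.comp (bi_cont r N))).aestronglyMeasurable
    · intro N
      filter_upwards [bi_ae_ne] with t ht
      rw [norm_mul, Complex.norm_real]
      have h2 : ‖(fourier (-k) t : ℂ)‖ = 1 := by
        simp only [fourier_apply]
        exact Circle.norm_coe _
      rw [h2, one_mul]
      exact abs_Fpart_le r hr N t ht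
    · filter_upwards [bi_ae_ne] with t ht
      exact ((Complex.continuous_ofReal.tendsto _).comp (tendsto_Fpart r hr t ht)).const_mul _
  have h2 : Filter.Tendsto (fun N : ℕ => ∫ t, (fourier (-k) t : ℂ) * ((Fpart r N t : ℝ) : ℂ)
      ∂(AddCircle.haarAddCircle : Measure UnitAddCircle)) Filter.atTop (nhds (bern r k)) := by
    refine tendsto_const_nhds.congr' ?_
    filter_upwards [Filter.eventually_ge_atTop k.natAbs] with N hN
    exact (bi_coef_eventually r k N hN).symm
  exact tendsto_nhds_unique h1 h2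

theorem integrable_FkerD {d : ℕ} (r : ℝ) (hr : 0 < r) : Integrable (FkerD r : Td d → ℝ) (mu d) := by
  have h := Integrable.fintype_prod (ι := Fin d) (f := fun _ => Fker r)
    (μ := fun _ => (AddCircle.haarAddCircle : Measure UnitAddCircle))
    (fun _ => integrable_Fker r hr)
  exact h

theorem cf_FkerD {d : ℕ} (r : ℝ) (hr : 0 < r) (k : Fin d → ℤ) :
    cf (fun x : Td d => ((FkerD r x : ℝ) : ℂ)) k = lamr r k := by
  unfold cf lamr FkerD
  have h1 : ∀ x : Td d, (UnitAddTorus.mFourier (-k) x : ℂ) * (((∏ j, Fker r (x j)) : ℝ) : ℂ) =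
      ∏ i, ((fourier (-k i) (x i) : ℂ) * ((Fker r (x i) : ℝ) : ℂ)) := by
    intro x
    rw [Finset.prod_mul_distrib]
    push_cast
    rfl
  simp_rw [h1]
  rw [MeasureTheory.integral_fintype_prod_eq_prod
    (f := fun i (t : UnitAddCircle) => (fourier (-k i) t : ℂ) * ((Fker r t : ℝ) : ℂ))]
  exact Finset.prod_congr rfl fun i _ => coef_Fker r hr (k i)

end MPcd65c1
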