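import Pool.Agent.Lib.MP_cd65c1_an.BConv

/-!
# MP_cd65c1_an / BReal : the real class in real `L_q` has the same entropy numbers as `WR` (about 150 lines)

`J : Lp ℝ q → Lp ℂ q`, `J = Complex.ofRealCLM.compLp` (isometric: `‖J f‖ = ‖f‖`, `J f = ofReal ∘ f` a.e.) and
`P : Lp ℂ q → Lp ℝ q`, `P = Complex.reCLM.compLp` (`‖P f - P g‖ ≤ ‖f - g‖`, `P (J f) = f`).
* `J '' WRR = WR`: `f ∈ WRR` with `φ`: `J f = convC r φ` a.e. (`ofReal_convR`), so `cf (J f) k = lamr r k cf φ k`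
  (`cf_convC`).  Conversely `f ∈ WR` with real `φ`: `f = convC r φ` a.e. (`ae_eq_of_cf_eq`), which is real, so
  `f = J (P f)` and `P f = convR r φ` a.e.
* entropy numbers: the sets of admissible `ε` coincide: a cover of `WRR` by balls `(y_j, ε)` gives the cover of `WR` by
  `(J y_j, ε)`; a cover of `WR` by `(y_j, ε)` gives the cover of `WRR` by `(P y_j, ε)`:
  `‖f - P y‖ = ‖P (J f) - P y‖ ≤ ‖J f - y‖`.
* `memLp_convR`: if `EX d p q r` then `convR r φ ∈ L_q` for `φ ∈ L_p`: the `f` of `EX` (for the complexification)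
  equals `convC r φ` a.e.
-/

namespace MPcd65c1

open MeasureTheory
open scoped ENNReal

private noncomputable def brJ {d : ℕ} {q : ℝ≥0∞} (f : Lp ℝ q (mu d)) : Lp ℂ q (mu d) :=
  Complex.ofRealCLM.compLp f

private noncomputable def brP {d : ℕ} {q : ℝ≥0∞} (f : Lp ℂ q (mu d)) : Lp ℝ q (mu d) :=
  Complex.reCLM.compLp f

private theorem brJ_coe {d : ℕ} {q : ℝ≥0∞} (f : Lp ℝ q (mu d)) :
    (brJ f : Td d → ℂ) =ᵐ[mu d] fun x => ((f x : ℝ) : ℂ) :=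
  Complex.ofRealCLM.coeFn_compLp' f

private theorem brP_coe {d : ℕ} {q : ℝ≥0∞} (f : Lp ℂ q (mu d)) :
    (brP f : Td d → ℝ) =ᵐ[mu d] fun x => (f x).re :=
  Complex.reCLM.coeFn_compLp' f

private theorem brP_brJ {d : ℕ} {q : ℝ≥0∞} (f : Lp ℝ q (mu d)) : brP (brJ f) = f := by
  refine Lp.ext ?_
  filter_upwards [brP_coe (brJ f), brJ_coe f] with x h1 h2
  rw [h1, h2, Complex.ofReal_re]

private theorem brJ_dist {d : ℕ} {q : ℝ≥0∞} [Fact (1 ≤ q)] (f g : Lp ℝ q (mu d)) :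
    dist (brJ f) (brJ g) ≤ dist f g := by
  have h1 : brJ f - brJ g = brJ (f - g) :=
    (map_sub (Complex.ofRealCLM.compLpₗ (p := q) (μ := mu d)) f g).symm
  rw [dist_eq_norm, dist_eq_norm, h1]
  refine (Complex.ofRealCLM.norm_compLp_le (f - g)).trans ?_
  rw [Complex.ofRealCLM_norm, one_mul]

private theorem brP_dist {d : ℕ} {q : ℝ≥0∞} [Fact (1 ≤ q)] (f g : Lp ℂ q (mu d)) :
    dist (brP f) (brP g) ≤ dist f g := by
  have h1 : brP f - brP g = brP (f - g) :=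
    (map_sub (Complex.reCLM.compLpₗ (p := q) (μ := mu d)) f g).symm
  rw [dist_eq_norm, dist_eq_norm, h1]
  refine (Complex.reCLM.norm_compLp_le (f - g)).trans ?_
  rw [Complex.reCLM_norm, one_mul]

private theorem br_int {d : ℕ} {p : ℝ≥0∞} [Fact (1 ≤ p)] {φ : Td d → ℝ} (hφ : MemLp φ p (mu d)) :
    Integrable (fun y => ((φ y : ℝ) : ℂ)) (mu d) :=
  (hφ.integrable (Fact.out)).ofReal

private theorem brJ_mem {d : ℕ} {r : ℝ} (hr : 0 < r) {p q : ℝ≥0∞} [Fact (1 ≤ p)] [Fact (1 ≤ q)]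
    {f : Lp ℝ q (mu d)} (hf : f ∈ WRR d r p q) : brJ f ∈ WR d r p q := by
  obtain ⟨φ, hφ, hφ1, hfφ⟩ := hf
  refine ⟨φ, hφ, hφ1, fun k => ?_⟩
  have h1 : (brJ f : Td d → ℂ) =ᵐ[mu d] convC r (fun y => ((φ y : ℝ) : ℂ)) := by
    filter_upwards [brJ_coe f, hfφ] with x h2 h3
    rw [h2, h3, ofReal_convR]
  rw [cf_congr h1 k, cf_convC r hr (br_int hφ) k]

private theorem br_surj {d : ℕ} {r : ℝ} (hr : 0 < r) {p q : ℝ≥0∞} [Fact (1 ≤ p)] [Fact (1 ≤ q)]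
    {g : Lp ℂ q (mu d)} (hg : g ∈ WR d r p q) : brP g ∈ WRR d r p q ∧ brJ (brP g) = g := by
  obtain ⟨φ, hφ, hφ1, hgφ⟩ := hg
  have h1 : (g : Td d → ℂ) =ᵐ[mu d] convC r (fun y => ((φ y : ℝ) : ℂ)) := by
    refine ae_eq_of_cf_eq (integrable_Lp q g) (integrable_convC r hr (br_int hφ)) fun k => ?_
    rw [hgφ k, cf_convC r hr (br_int hφ) k]
  have h2 : (brP g : Td d → ℝ) =ᵐ[mu d] convR r φ := by
    filter_upwards [brP_coe g, h1] with x h3 h4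
    rw [h3, h4, ← ofReal_convR, Complex.ofReal_re]
  refine ⟨⟨φ, hφ, hφ1, h2⟩, ?_⟩
  refine Lp.ext ?_
  filter_upwards [brJ_coe (brP g), h2, h1] with x h3 h4 h5
  rw [h3, h4, h5, ofReal_convR]

theorem ent_WRR (d : ℕ) (r : ℝ) (hr : 0 < r) (p q : ℝ≥0∞) [Fact (1 ≤ p)] [Fact (1 ≤ q)] (n : ℕ) :
    ent n (WRR d r p q) = ent n (WR d r p q) := by
  unfold ent
  congr 1
  ext ε
  constructor
  · rintro ⟨hε, y, hy⟩
    refine ⟨hε, fun j => brJ (y j), fun g hg => ?_⟩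
    obtain ⟨h1, h2⟩ := br_surj hr hg
    obtain ⟨j, hj⟩ := Set.mem_iUnion.mp (hy h1)
    refine Set.mem_iUnion.mpr ⟨j, ?_⟩
    rw [Metric.mem_closedBall] at hj ⊢
    rw [← h2]
    exact (brJ_dist _ _).trans hj
  · rintro ⟨hε, y, hy⟩
    refine ⟨hε, fun j => brP (y j), fun f hf => ?_⟩
    obtain ⟨j, hj⟩ := Set.mem_iUnion.mp (hy (brJ_mem hr hf))
    refine Set.mem_iUnion.mpr ⟨j, ?_⟩
    rw [Metric.mem_closedBall] at hj ⊢
    rw [← brP_brJ f]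
    exact (brP_dist _ _).trans hj

theorem memLp_convC (d : ℕ) (r : ℝ) (hr : 0 < r) (p q : ℝ≥0∞) [Fact (1 ≤ p)] [Fact (1 ≤ q)]
    (h : ∀ φ : Td d → ℂ, MemLp φ p (mu d) →
      ∃ f : Lp ℂ q (mu d), ∀ k, cf (f : Td d → ℂ) k = lamr r k * cf φ k)
    {φ : Td d → ℂ} (hφ : MemLp φ p (mu d)) : MemLp (convC r φ) q (mu d) := by
  obtain ⟨f, hf⟩ := h φ hφ
  have hi : Integrable φ (mu d) := hφ.integrable (Fact.out)
  have h1 : (f : Td d → ℂ) =ᵐ[mu d] convC r φ := by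
    refine ae_eq_of_cf_eq (integrable_Lp q f) (integrable_convC r hr hi) fun k => ?_
    rw [hf k, cf_convC r hr hi k]
  exact (Lp.memLp f).ae_eq h1

theorem memLp_convR (d : ℕ) (r : ℝ) (hr : 0 < r) (p q : ℝ≥0∞) [Fact (1 ≤ p)] [Fact (1 ≤ q)]
    (h : ∀ φ : Td d → ℂ, MemLp φ p (mu d) →
      ∃ f : Lp ℂ q (mu d), ∀ k, cf (f : Td d → ℂ) k = lamr r k * cf φ k)
    {φ : Td d → ℝ} (hφ : MemLp φ p (mu d)) : MemLp (convR r φ) q (mu d) := by
  have h1 := (memLp_convC d r hr p q h hφ.ofReal).re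
  refine h1.ae_eq (Filter.Eventually.of_forall fun x => ?_)
  have h2 := ofReal_convR r φ x
  have h3 := congrArg Complex.re h2
  rw [Complex.ofReal_re] at h3
  exact h3.symm

end MPcd65c1
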