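import Pool.Agent.Lib.MP_cd65c1_an.ACount
import Pool.Agent.Lib.MP_cd65c1_an.ALam

/-!
# MP_cd65c1_an / KAbel : one-dimensional block kernels are bounded by `qb` (about 150 lines)

CLAIM `‖bl r σ s x‖ ≤ qb s x = 2^s / max 1 (2^s ‖x‖)` for `r ≥ 0`.

(1) trivial bound: `‖bl‖ ≤ #blk s = 2^s` (`norm_wt_le`, `card_blk`, `‖fourier k x‖ = 1`).  If
`2^s ‖x‖ ≤ 1` this is the claim.
(2) otherwise `x ≠ 0` and the claim is `‖bl r σ s x‖ ≤ 1/‖x‖`.  `s = 0`: `blk 0 = {0}`, `bl = 1` and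
`‖x‖ ≤ 1/2` (`AddCircle.norm_le_half_period`).  `s ≥ 1`: the block is the disjoint union of the
positive part `[2^(s-1), 2^s)` and the negative part.  With `z = fourier 1 x`, `fourier k x = z^k`:
positive part `= e^{iσπ/2} Σ_{k=2^(s-1)}^{2^s-1} b_k z^k`, `b_k = (k/2^s)^r` nondecreasing in `[0,1]`.
ABEL: for `0 ≤ b_m ≤ ... ≤ b_{n-1} ≤ 1`, `‖z‖ = 1`:
`(1-z) Σ_{k=m}^{n-1} b_k z^k = b_m z^m + Σ_{k=m+1}^{n-1} (b_k - b_{k-1}) z^k - b_{n-1} z^n`, so
`‖1-z‖ ‖Σ‖ ≤ b_m + (b_{n-1} - b_m) + b_{n-1} = 2 b_{n-1} ≤ 2` (induction on `n`).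
The negative part is the same with `conj z`.  Finally `‖1 - z‖ ≥ 4 ‖x‖`: with a representative
`t`, `|t| = ‖x‖ ≤ 1/2`, `‖1 - e^{2πit}‖ = 2 |sin πt| ≥ 4 |t|` (`Real.mul_le_sin`, Jordan).
Total `≤ 2 * 2/(4‖x‖) = 1/‖x‖`.
-/

namespace MPcd65c1

private theorem abel_aux (b : ℕ → ℝ) (m : ℕ) (hb0 : ∀ k, 0 ≤ b k) (z : ℂ) (hz : ‖z‖ = 1) :
    ∀ j : ℕ, (∀ k l, m ≤ k → k ≤ l → l < m + j + 1 → b k ≤ b l) →
      ‖(1 - z) * (∑ k ∈ Finset.Ico m (m + j + 1), (b k : ℂ) * z ^ k) +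
        (b (m + j) : ℂ) * z ^ (m + j + 1)‖ ≤ b (m + j) := by
  intro j
  induction j with
  | zero =>
    intro _
    have h1 : (1 - z) * (∑ k ∈ Finset.Ico m (m + 0 + 1), (b k : ℂ) * z ^ k) +
        (b (m + 0) : ℂ) * z ^ (m + 0 + 1) = (b m : ℂ) * z ^ m := by
      simp only [Nat.add_zero, Nat.Ico_succ_singleton, Finset.sum_singleton]
      ring
    rw [h1, norm_mul, norm_pow, hz, one_pow, mul_one, Complex.norm_real, Real.norm_eq_abs,
      abs_of_nonneg (hb0 m)]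
    simp
  | succ j ih =>
    intro hmono
    have ih' := ih (fun k l hk hkl hl => hmono k l hk hkl (by omega))
    have h1 : (1 - z) * (∑ k ∈ Finset.Ico m (m + (j + 1) + 1), (b k : ℂ) * z ^ k) +
        (b (m + (j + 1)) : ℂ) * z ^ (m + (j + 1) + 1) =
        ((1 - z) * (∑ k ∈ Finset.Ico m (m + j + 1), (b k : ℂ) * z ^ k) +
        (b (m + j) : ℂ) * z ^ (m + j + 1)) +
        (((b (m + (j + 1)) - b (m + j) : ℝ)) : ℂ) * z ^ (m + j + 1) := by
      rw [show m + (j + 1) + 1 = (m + j + 1) + 1 by ring,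
        Finset.sum_Ico_succ_top (by omega : m ≤ m + j + 1)]
      rw [show m + (j + 1) = m + j + 1 by ring]
      push_cast
      ring
    rw [h1]
    have h2 : b (m + j) ≤ b (m + (j + 1)) := hmono _ _ (by omega) (by omega) (by omega)
    calc _ ≤ b (m + j) + ‖(((b (m + (j + 1)) - b (m + j) : ℝ)) : ℂ) * z ^ (m + j + 1)‖ :=
          (norm_add_le _ _).trans (by linarith)
      _ = b (m + j) + (b (m + (j + 1)) - b (m + j)) := by
          rw [norm_mul, norm_pow, hz, one_pow, mul_one, Complex.norm_real, Real.norm_eq_abs,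
            abs_of_nonneg (by linarith)]
      _ = b (m + (j + 1)) := by ring

/-- Abel summation for monotone coefficients. -/
theorem abel_mono (b : ℕ → ℝ) (m n : ℕ) (hb0 : ∀ k, 0 ≤ b k) (hb1 : ∀ k, k < n → b k ≤ 1)
    (hmono : ∀ k l, m ≤ k → k ≤ l → l < n → b k ≤ b l) (z : ℂ) (hz : ‖z‖ = 1) :
    ‖1 - z‖ * ‖∑ k ∈ Finset.Ico m n, (b k : ℂ) * z ^ k‖ ≤ 2 := by
  rcases Nat.lt_or_ge m n with h | h
  · obtain ⟨j, rfl⟩ : ∃ j, n = m + j + 1 := ⟨n - m - 1, by omega⟩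
    have h1 := abel_aux b m hb0 z hz j (fun k l hk hkl hl => hmono k l hk hkl hl)
    have h2 : b (m + j) ≤ 1 := hb1 _ (by omega)
    rw [← norm_mul]
    set S := (1 - z) * (∑ k ∈ Finset.Ico m (m + j + 1), (b k : ℂ) * z ^ k) with hS
    have h3 : S = (S + (b (m + j) : ℂ) * z ^ (m + j + 1)) - (b (m + j) : ℂ) * z ^ (m + j + 1) := by
      ring
    rw [h3]
    have h4 : ‖(b (m + j) : ℂ) * z ^ (m + j + 1)‖ = b (m + j) := by
      rw [norm_mul, norm_pow, hz, one_pow, mul_one, Complex.norm_real, Real.norm_eq_abs,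
        abs_of_nonneg (hb0 _)]
    calc _ ≤ ‖S + (b (m + j) : ℂ) * z ^ (m + j + 1)‖ + ‖(b (m + j) : ℂ) * z ^ (m + j + 1)‖ :=
          norm_sub_le _ _
      _ ≤ 2 := by rw [h4]; linarith
  · rw [Finset.Ico_eq_empty_of_le h]
    simp

theorem four_norm_le (x : UnitAddCircle) : 4 * ‖x‖ ≤ ‖1 - (fourier 1 x : ℂ)‖ := by
  obtain ⟨y, rfl⟩ := QuotientAddGroup.mk_surjective x
  set t : ℝ := y - round y with ht
  have hcoe : (QuotientAddGroup.mk y : UnitAddCircle) = ((t : ℝ) : UnitAddCircle) := by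
    rw [ht]
    have : ((round y : ℝ) : UnitAddCircle) = 0 := by
      rw [AddCircle.coe_eq_zero_iff]
      exact ⟨round y, by simp⟩
    rw [AddCircle.coe_sub, this, sub_zero]
  have hnorm : ‖(QuotientAddGroup.mk y : UnitAddCircle)‖ = |t| := by
    have := UnitAddCircle.norm_eq (x := y)
    exact this
  rw [hnorm, hcoe]
  have ht2 : |t| ≤ 1 / 2 := abs_sub_round y
  have h1 : (fourier 1 ((t : ℝ) : UnitAddCircle) : ℂ) = Complex.exp (Complex.I * ((2 * Real.pi * t : ℝ) : ℂ)) := by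
    rw [fourier_coe_apply]
    congr 1
    push_cast
    ring
  rw [h1, norm_sub_rev, Complex.norm_exp_I_mul_ofReal_sub_one, Real.norm_eq_abs, abs_mul,
    abs_of_pos (by norm_num : (0 : ℝ) < 2)]
  have h2 : 2 * Real.pi * t / 2 = Real.pi * t := by ring
  rw [h2]
  have h3 : |Real.sin (Real.pi * t)| = Real.sin (Real.pi * |t|) := by
    rcases le_total 0 t with h | h
    · rw [abs_of_nonneg h, abs_of_nonneg]
      apply Real.sin_nonneg_of_nonneg_of_le_pi
      · exact mul_nonneg Real.pi_pos.le h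
      · rw [abs_of_nonneg h] at ht2
        nlinarith [Real.pi_pos]
    · rw [abs_of_nonpos h, show Real.pi * -t = -(Real.pi * t) by ring, Real.sin_neg, abs_of_nonpos]
      rw [← neg_nonneg, ← Real.sin_neg]
      apply Real.sin_nonneg_of_nonneg_of_le_pi
      · nlinarith [Real.pi_pos]
      · rw [abs_of_nonpos h] at ht2
        nlinarith [Real.pi_pos]
  rw [h3]
  have h4 := Real.mul_le_sin (x := Real.pi * |t|) (by positivity) (by nlinarith [Real.pi_pos])
  have h5 : 2 / Real.pi * (Real.pi * |t|) = 2 * |t| := by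
    field_simp
  rw [h5] at h4
  linarith

private theorem fourier_pow (k : ℕ) (x : UnitAddCircle) :
    (fourier (k : ℤ) x : ℂ) = (fourier 1 x : ℂ) ^ k := by
  induction k with
  | zero => simp
  | succ k ih =>
    rw [Nat.cast_succ, fourier_add, ih, pow_succ]

private theorem norm_fourier (k : ℤ) (x : UnitAddCircle) : ‖(fourier k x : ℂ)‖ = 1 := by
  rw [fourier_apply]
  exact Circle.norm_coe _

private theorem half_bound {r : ℝ} (hr : 0 ≤ r) (s : ℕ) (z : ℂ) (hz : ‖z‖ = 1) :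
    ‖1 - z‖ * ‖∑ k ∈ Finset.Ico ((2 : ℕ) ^ s) ((2 : ℕ) ^ (s + 1)),
      (((((k : ℝ) / (2 : ℝ) ^ (s + 1)) ^ r : ℝ)) : ℂ) * z ^ k‖ ≤ 2 := by
  apply abel_mono (fun k : ℕ => ((k : ℝ) / (2 : ℝ) ^ (s + 1)) ^ r) _ _ _ _ _ z hz
  · intro k; positivity
  · intro k hk
    apply Real.rpow_le_one (by positivity) _ hr
    rw [div_le_one (by positivity)]
    exact_mod_cast hk.le
  · intro k l _ hkl _
    apply Real.rpow_le_rpow (by positivity) _ hr
    gcongr

theorem norm_bl_le {r : ℝ} (hr : 0 ≤ r) (σ : ℝ) (s : ℕ) (x : UnitAddCircle) :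
    ‖bl r σ s x‖ ≤ qb s x := by
  have htriv : ‖bl r σ s x‖ ≤ 2 ^ s := by
    rw [bl]
    calc _ ≤ ∑ k ∈ blk s, ‖wt r σ k * (fourier k x : ℂ)‖ := norm_sum_le _ _
      _ ≤ ∑ k ∈ blk s, (1 : ℝ) := by
          apply Finset.sum_le_sum
          intro k _
          rw [norm_mul, norm_fourier, mul_one]
          exact norm_wt_le hr σ k
      _ = 2 ^ s := by rw [Finset.sum_const, card_blk]; simp
  rw [qb]
  rcases le_or_gt ((2 : ℝ) ^ s * ‖x‖) 1 with h | h
  · rw [max_eq_left h, div_one]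
    exact htriv
  rw [max_eq_right h.le]
  have hx : 0 < ‖x‖ := by
    by_contra hc
    have : ‖x‖ = 0 := le_antisymm (not_lt.mp hc) (norm_nonneg _)
    rw [this, mul_zero] at h
    linarith
  have hgoal : (2 : ℝ) ^ s / ((2 : ℝ) ^ s * ‖x‖) = 1 / ‖x‖ := by
    field_simp
  rw [hgoal]
  rcases s with _ | s
  · -- s = 0
    have hb := htriv
    rw [pow_zero] at hb
    have h2 : ‖x‖ ≤ 1 / 2 := by
      have := AddCircle.norm_le_half_period (1 : ℝ) (x := x) one_ne_zero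
      simpa using this
    have h3 : (1 : ℝ) ≤ 1 / ‖x‖ := by
      rw [le_div_iff₀ hx]; linarith
    linarith
  · set z : ℂ := (fourier 1 x : ℂ) with hz
    have hzn : ‖z‖ = 1 := norm_fourier 1 x
    have hzc : ‖(starRingEnd ℂ) z‖ = 1 := by rw [RCLike.norm_conj]; exact hzn
    have h4 : 4 * ‖x‖ ≤ ‖1 - z‖ := four_norm_le x
    have h4c : 4 * ‖x‖ ≤ ‖1 - (starRingEnd ℂ) z‖ := by
      have : 1 - (starRingEnd ℂ) z = (starRingEnd ℂ) (1 - z) := by simp
      rw [this, RCLike.norm_conj]; exact h4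
    -- split the block
    have hsplit : blk (s + 1) = (Finset.Ico ((2 : ℕ) ^ s) ((2 : ℕ) ^ (s + 1))).image (fun k : ℕ => (k : ℤ)) ∪
        (Finset.Ico ((2 : ℕ) ^ s) ((2 : ℕ) ^ (s + 1))).image (fun k : ℕ => -(k : ℤ)) := by
      ext k
      rw [mem_blk, Finset.mem_union, Finset.mem_image, Finset.mem_image]
      have hsz : Nat.size k.natAbs = s + 1 ↔ 2 ^ s ≤ k.natAbs ∧ k.natAbs < 2 ^ (s + 1) := by
        constructor
        · intro h
          constructor
          · have := Nat.lt_size.mp (show s < Nat.size k.natAbs by omega)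
            exact this
          · exact Nat.size_le.mp (by omega)
        · rintro ⟨h1, h2⟩
          have a1 := Nat.lt_size.mpr h1
          have a2 := Nat.size_le.mpr h2
          omega
      rw [hsz]
      constructor
      · rintro ⟨h1, h2⟩
        rcases le_total 0 k with hk | hk
        · left
          exact ⟨k.natAbs, Finset.mem_Ico.mpr ⟨h1, h2⟩, by simp [abs_of_nonneg hk]⟩
        · right
          exact ⟨k.natAbs, Finset.mem_Ico.mpr ⟨h1, h2⟩, by simp [abs_of_nonpos hk]⟩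
      · rintro (⟨m, hm, rfl⟩ | ⟨m, hm, rfl⟩)
        · simpa using Finset.mem_Ico.mp hm
        · simpa using Finset.mem_Ico.mp hm
    have hdisj : Disjoint ((Finset.Ico ((2 : ℕ) ^ s) ((2 : ℕ) ^ (s + 1))).image (fun k : ℕ => (k : ℤ)))
        ((Finset.Ico ((2 : ℕ) ^ s) ((2 : ℕ) ^ (s + 1))).image (fun k : ℕ => -(k : ℤ))) := by
      rw [Finset.disjoint_left]
      intro k h1 h2
      rw [Finset.mem_image] at h1 h2
      obtain ⟨a, ha, rfl⟩ := h1
      obtain ⟨b, hb, hab⟩ := h2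
      have hpos : 0 < 2 ^ s := by positivity
      have ha' := (Finset.mem_Ico.mp ha).1
      have hb' := (Finset.mem_Ico.mp hb).1
      omega
    have hwpos : ∀ k ∈ Finset.Ico ((2 : ℕ) ^ s) ((2 : ℕ) ^ (s + 1)), wt r σ ((k : ℕ) : ℤ) =
        (((((k : ℝ) / (2 : ℝ) ^ (s + 1)) ^ r : ℝ)) : ℂ) *
          Complex.exp (Complex.I * (((σ * Real.pi / 2 : ℝ)) : ℂ)) := by
      intro k hk
      have hk' := Finset.mem_Ico.mp hk
      have hpos : 0 < 2 ^ s := by positivity
      have hk0 : 0 < k := by omega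
      have hsz : Nat.size k = s + 1 := by
        have a1 := Nat.lt_size.mpr hk'.1
        have a2 := Nat.size_le.mpr hk'.2
        omega
      rw [wt, if_neg (by exact_mod_cast hk0.ne')]
      have e1 : ((k : ℤ)).sign = 1 := Int.sign_eq_one_of_pos (by exact_mod_cast hk0)
      have e2 : |(((k : ℤ)) : ℝ)| = (k : ℝ) := by
        rw [Int.cast_natCast]; exact abs_of_nonneg (by positivity)
      rw [e1, e2, Int.natAbs_natCast, hsz]
      simp
    have hwneg : ∀ k ∈ Finset.Ico ((2 : ℕ) ^ s) ((2 : ℕ) ^ (s + 1)), wt r σ (-((k : ℕ) : ℤ)) =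
        (((((k : ℝ) / (2 : ℝ) ^ (s + 1)) ^ r : ℝ)) : ℂ) *
          Complex.exp (Complex.I * (((-(σ * Real.pi / 2) : ℝ)) : ℂ)) := by
      intro k hk
      rw [wt_neg, hwpos k hk, map_mul, Complex.conj_ofReal, ← Complex.exp_conj, map_mul,
        Complex.conj_I, Complex.conj_ofReal]
      congr 2
      push_cast
      ring
    have hsum : bl r σ (s + 1) x =
        Complex.exp (Complex.I * (((σ * Real.pi / 2 : ℝ)) : ℂ)) *
          (∑ k ∈ Finset.Ico ((2 : ℕ) ^ s) ((2 : ℕ) ^ (s + 1)),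
            (((((k : ℝ) / (2 : ℝ) ^ (s + 1)) ^ r : ℝ)) : ℂ) * z ^ k) +
        Complex.exp (Complex.I * (((-(σ * Real.pi / 2) : ℝ)) : ℂ)) *
          (∑ k ∈ Finset.Ico ((2 : ℕ) ^ s) ((2 : ℕ) ^ (s + 1)),
            (((((k : ℝ) / (2 : ℝ) ^ (s + 1)) ^ r : ℝ)) : ℂ) * ((starRingEnd ℂ) z) ^ k) := by
      rw [bl, hsplit, Finset.sum_union hdisj, Finset.sum_image, Finset.sum_image]
      · congr 1
        · rw [Finset.mul_sum]
          apply Finset.sum_congr rfl
          intro k hk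
          rw [hwpos k hk, fourier_pow]
          ring
        · rw [Finset.mul_sum]
          apply Finset.sum_congr rfl
          intro k hk
          rw [hwneg k hk, fourier_neg, fourier_pow, map_pow]
          ring
      · intro a _ b _ hab
        simpa using hab
      · intro a _ b _ hab
        simpa using hab
    have hb1 := half_bound hr s z hzn
    have hb2 := half_bound hr s ((starRingEnd ℂ) z) hzc
    have hphase : ∀ θ : ℝ, ‖Complex.exp (Complex.I * ((θ : ℝ) : ℂ))‖ = 1 := by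
      intro θ
      rw [mul_comm]
      exact Complex.norm_exp_ofReal_mul_I θ
    have hA : ∀ (w S : ℂ), 4 * ‖x‖ ≤ ‖1 - w‖ → ‖1 - w‖ * ‖S‖ ≤ 2 → ‖S‖ ≤ 1 / (2 * ‖x‖) := by
      intro w S h1 h2
      rw [le_div_iff₀ (by positivity)]
      have : 4 * ‖x‖ * ‖S‖ ≤ 2 := (mul_le_mul_of_nonneg_right h1 (norm_nonneg _)).trans h2
      linarith
    rw [hsum]
    calc _ ≤ 1 / (2 * ‖x‖) + 1 / (2 * ‖x‖) := by
          refine (norm_add_le _ _).trans (add_le_add ?_ ?_)
          · rw [norm_mul, hphase, one_mul]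
            exact hA _ _ h4 hb1
          · rw [norm_mul, hphase, one_mul]
            exact hA _ _ h4c hb2
      _ = 1 / ‖x‖ := by
          field_simp
          norm_num

end MPcd65c1
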