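import Pool.Agent.Lib.MP_cd65c1_an.BDefs
import Pool.Agent.Lib.MP_cd65c1_an.KAbel

/-!
# MP_cd65c1_an / BSer : convergence and domination of the series of the Bernoulli kernel
(about 170 lines)

Let `t ≠ 0`, `z = fourier 1 t = exp(2πi rep t)`, `‖z‖ = 1`, `‖1 - z‖ ≥ 4 ‖t‖ > 0` (`four_norm_le`).
`Fpart r N t = 1 + 2 Re (e^{-irπ/2} Σ_{k=1}^N k^(-r) z^k)`.
ABEL (decreasing coefficients): for `1 ≤ M < N`... `‖1-z‖ ‖Σ_{k=M+1}^N k^(-r) z^k‖ ≤ 2 (M+1)^(-r)`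
(`(1-z) Σ_{k=M+1}^N b_k z^k = b_{M+1} z^{M+1} - Σ_{k=M+1}^{N-1} (b_k - b_{k+1}) z^{k+1} - b_N z^{N+1}`).
So the partial sums are a Cauchy sequence (`r > 0`) and converge: `tendsto_Fpart`.

DOMINATION: `a = min r (1/2)`.  Let `M = ⌊1/‖t‖⌋₊ ≥ 2`.  For `N ≤ M`: `|Σ_{k ≤ N} k^(-r) z^k| ≤ Σ_{k ≤ M} k^(-a)
≤ M^(1-a)/(1-a) ≤ 2 ‖t‖^(a-1)` (`Σ_{k ≤ M} k^(-a) ≤ ∫_0^M u^(-a) du`, or by induction:
`(k^(1-a) - (k-1)^(1-a)) ≥ (1-a) k^(-a)`).  For `N > M` add the tail `≤ 2 (M+1)^(-r)/(4‖t‖)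
≤ ‖t‖^(r-1) ≤ ‖t‖^(a-1)` (`M + 1 ≥ 1/‖t‖`, `‖t‖ ≤ 1/2`).  So `|Fpart r N t| ≤ 1 + 6 ‖t‖^(a-1) ≤ 7 ‖t‖^(a-1)` for all
`N`, `t ≠ 0` (`‖t‖^(a-1) ≥ 1`).
-/

namespace MPcd65c1

open MeasureTheory Filter Topology

private theorem bs_rep_coe (t : UnitAddCircle) : ((rep t : ℝ) : UnitAddCircle) = t := by
  unfold rep
  exact AddCircle.coe_equivIco

private theorem bs_fourier_pow (k : ℕ) (t : UnitAddCircle) :
    (fourier ((k : ℤ) + 1) t : ℂ) = (fourier 1 t : ℂ) ^ (k + 1) := by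
  simp only [fourier_apply]
  rw [AddCircle.toCircle_zsmul, one_zsmul]
  push_cast
  rw [← zpow_natCast]
  push_cast
  rfl

/-- the partial sums as real parts of trigonometric polynomials -/
theorem Fpart_eq (r : ℝ) (N : ℕ) (t : UnitAddCircle) :
    Fpart r N t = 1 + 2 * (Complex.exp (-(Complex.I * ((r * Real.pi / 2 : ℝ) : ℂ))) *
      ∑ k ∈ Finset.range N, ((((k : ℝ) + 1) ^ (-r) : ℝ) : ℂ) * (fourier ((k : ℤ) + 1) t : ℂ)).re := by
  unfold Fpart
  have h0 : ∀ (c : ℂ) (g : ℕ → ℂ), (c * ∑ k ∈ Finset.range N, g k).re =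
      ∑ k ∈ Finset.range N, (c * g k).re := by
    intro c g
    rw [Finset.mul_sum, Complex.re_sum]
  rw [h0]
  congr 2
  refine Finset.sum_congr rfl fun k _ => ?_
  have h1 : (fourier ((k : ℤ) + 1) t : ℂ) =
      Complex.exp (((2 * Real.pi * ((k : ℝ) + 1) * rep t : ℝ) : ℂ) * Complex.I) := by
    conv_lhs => rw [← bs_rep_coe t]
    rw [fourier_coe_apply]
    congr 1
    push_cast
    ring
  rw [h1]
  have h2 : Complex.exp (-(Complex.I * ((r * Real.pi / 2 : ℝ) : ℂ))) *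
      (((((k : ℝ) + 1) ^ (-r) : ℝ) : ℂ) *
        Complex.exp (((2 * Real.pi * ((k : ℝ) + 1) * rep t : ℝ) : ℂ) * Complex.I)) =
      ((((k : ℝ) + 1) ^ (-r) : ℝ) : ℂ) *
        Complex.exp (((2 * Real.pi * ((k : ℝ) + 1) * rep t - r * Real.pi / 2 : ℝ) : ℂ) *
          Complex.I) := by
    rw [mul_left_comm, ← Complex.exp_add]
    congr 2
    push_cast
    ring
  rw [h2, Complex.re_ofReal_mul, Complex.exp_ofReal_mul_I_re]

private theorem bs_norm_z (t : UnitAddCircle) : ‖(fourier 1 t : ℂ)‖ = 1 := by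
  simp only [fourier_apply]
  exact Circle.norm_coe _

private theorem bs_pos {t : UnitAddCircle} (ht : t ≠ 0) : 0 < ‖t‖ := norm_pos_iff.mpr ht

private theorem bs_gap {t : UnitAddCircle} (ht : t ≠ 0) : 0 < ‖1 - (fourier 1 t : ℂ)‖ := by
  have h1 := four_norm_le t
  have h2 := bs_pos ht
  linarith

/-- Abel summation, decreasing coefficients -/
private theorem bs_abel_aux (b : ℕ → ℝ) (hb0 : ∀ k, 0 ≤ b k) (hanti : Antitone b) (m : ℕ) (z : ℂ)
    (hz : ‖z‖ = 1) (n : ℕ) :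
    ‖(1 - z) * (∑ k ∈ Finset.Ico m (m + n + 1), (b k : ℂ) * z ^ k) +
      (b (m + n) : ℂ) * z ^ (m + n + 1)‖ ≤ 2 * b m - b (m + n) := by
  induction n with
  | zero =>
    have h1 : (1 - z) * (∑ k ∈ Finset.Ico m (m + 0 + 1), (b k : ℂ) * z ^ k) +
        (b (m + 0) : ℂ) * z ^ (m + 0 + 1) = (b m : ℂ) * z ^ m := by
      rw [add_zero, Finset.sum_Ico_succ_top (le_refl m), Finset.Ico_self, Finset.sum_empty]
      ring
    rw [h1, norm_mul, norm_pow, hz, one_pow, mul_one, Complex.norm_real, Real.norm_of_nonneg (hb0 m),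
      add_zero]
    linarith
  | succ n ih =>
    have h1 : (1 - z) * (∑ k ∈ Finset.Ico m (m + (n + 1) + 1), (b k : ℂ) * z ^ k) +
        (b (m + (n + 1)) : ℂ) * z ^ (m + (n + 1) + 1) =
        ((1 - z) * (∑ k ∈ Finset.Ico m (m + n + 1), (b k : ℂ) * z ^ k) +
          (b (m + n) : ℂ) * z ^ (m + n + 1)) -
        ((b (m + n) - b (m + (n + 1)) : ℝ) : ℂ) * z ^ (m + n + 1) := by
      rw [Finset.sum_Ico_succ_top (by omega : m ≤ m + (n + 1))]
      have e : m + (n + 1) = m + n + 1 := by ring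
      rw [e]
      push_cast
      ring
    rw [h1]
    refine (norm_sub_le _ _).trans ?_
    have h2 : b (m + (n + 1)) ≤ b (m + n) := hanti (by omega)
    rw [norm_mul, norm_pow, hz, one_pow, mul_one, Complex.norm_real,
      Real.norm_of_nonneg (by linarith)]
    linarith

private theorem bs_abel (b : ℕ → ℝ) (hb0 : ∀ k, 0 ≤ b k) (hanti : Antitone b) (m n : ℕ) (z : ℂ)
    (hz : ‖z‖ = 1) :
    ‖1 - z‖ * ‖∑ k ∈ Finset.Ico m n, (b k : ℂ) * z ^ k‖ ≤ 2 * b m := by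
  rcases Nat.lt_or_ge m n with h | h
  · obtain ⟨j, rfl⟩ : ∃ j, n = m + j + 1 := ⟨n - m - 1, by omega⟩
    rw [← norm_mul]
    have h1 := bs_abel_aux b hb0 hanti m z hz j
    have h2 : (1 - z) * (∑ k ∈ Finset.Ico m (m + j + 1), (b k : ℂ) * z ^ k) =
        ((1 - z) * (∑ k ∈ Finset.Ico m (m + j + 1), (b k : ℂ) * z ^ k) +
          (b (m + j) : ℂ) * z ^ (m + j + 1)) - (b (m + j) : ℂ) * z ^ (m + j + 1) := by ring
    rw [h2]
    refine (norm_sub_le _ _).trans ?_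
    rw [norm_mul (b (m + j) : ℂ), norm_pow, hz, one_pow, mul_one, Complex.norm_real,
      Real.norm_of_nonneg (hb0 _)]
    linarith
  · rw [Finset.Ico_eq_empty (by omega), Finset.sum_empty, norm_zero, mul_zero]
    have := hb0 m
    linarith

private theorem bs_anti {r : ℝ} (hr : 0 < r) : Antitone (fun k : ℕ => ((k : ℝ) + 1) ^ (-r)) := by
  intro k l hkl
  have h1 : (0 : ℝ) < (k : ℝ) + 1 := by positivity
  have h2 : (k : ℝ) + 1 ≤ (l : ℝ) + 1 := by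
    have : (k : ℝ) ≤ l := by exact_mod_cast hkl
    linarith
  exact Real.rpow_le_rpow_of_nonpos h1 h2 (by linarith)

theorem tendsto_Fpart (r : ℝ) (hr : 0 < r) (t : UnitAddCircle) (ht : t ≠ 0) :
    Tendsto (fun N : ℕ => Fpart r N t) atTop (𝓝 (Fker r t)) := by
  unfold Fker
  refine CauchySeq.tendsto_limUnder ?_
  have h0 : Tendsto (fun k : ℕ => ((k : ℝ) + 1) ^ (-r)) atTop (𝓝 0) := by
    have h1 := (tendsto_rpow_neg_atTop hr).comp
      (tendsto_atTop_add_const_right atTop (1 : ℝ) tendsto_natCast_atTop_atTop)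
    exact h1
  have hb : ∀ n : ℕ, ‖∑ k ∈ Finset.range n, (fourier ((k : ℤ) + 1) t : ℂ)‖ ≤
      2 / ‖1 - (fourier 1 t : ℂ)‖ := by
    intro n
    rw [le_div_iff₀ (bs_gap ht), mul_comm]
    have h1 := bs_abel (fun _ => 1) (fun _ => zero_le_one) (fun _ _ _ => le_rfl) 1 (n + 1)
      (fourier 1 t : ℂ) (bs_norm_z t)
    have h2 : ∑ k ∈ Finset.range n, (fourier ((k : ℤ) + 1) t : ℂ) =
        ∑ k ∈ Finset.Ico 1 (n + 1), (((1 : ℝ) : ℝ) : ℂ) * (fourier 1 t : ℂ) ^ k := by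
      rw [Finset.sum_Ico_eq_sum_range]
      refine Finset.sum_congr rfl fun k _ => ?_
      rw [bs_fourier_pow, Complex.ofReal_one, one_mul, add_comm 1 k]
    rw [h2]
    linarith
  have h2 := (bs_anti hr).cauchySeq_series_mul_of_tendsto_zero_of_bounded h0 hb
  have h3 : CauchySeq (fun N : ℕ => 1 + 2 * (Complex.exp (-(Complex.I * ((r * Real.pi / 2 : ℝ) : ℂ))) *
      ∑ k ∈ Finset.range N, ((k : ℝ) + 1) ^ (-r) • (fourier ((k : ℤ) + 1) t : ℂ)).re) := by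
    obtain ⟨w, hw⟩ := cauchySeq_tendsto_of_complete h2
    have h4 : Tendsto (fun N : ℕ => 1 + 2 * (Complex.exp (-(Complex.I * ((r * Real.pi / 2 : ℝ) : ℂ))) *
        ∑ k ∈ Finset.range N, ((k : ℝ) + 1) ^ (-r) • (fourier ((k : ℤ) + 1) t : ℂ)).re) atTop
        (𝓝 (1 + 2 * (Complex.exp (-(Complex.I * ((r * Real.pi / 2 : ℝ) : ℂ))) * w).re)) :=
      ((Complex.continuous_re.tendsto _).comp (hw.const_mul _)).const_mul 2 |>.const_add 1
    exact h4.cauchySeq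
  have h5 : (fun N : ℕ => Fpart r N t) =
      fun N : ℕ => 1 + 2 * (Complex.exp (-(Complex.I * ((r * Real.pi / 2 : ℝ) : ℂ))) *
        ∑ k ∈ Finset.range N, ((k : ℝ) + 1) ^ (-r) • (fourier ((k : ℤ) + 1) t : ℂ)).re := by
    funext N
    rw [Fpart_eq]
    simp only [Complex.real_smul]
  rw [h5]
  exact h3

private theorem bs_sum_rpow {a : ℝ} (ha1 : a ≤ 1 / 2) (N : ℕ) (ha0 : 0 < a) :
    ∑ k ∈ Finset.range N, ((k : ℝ) + 1) ^ (-a) ≤ 2 * (N : ℝ) ^ (1 - a) := by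
  have key : (1 - a) * ∑ k ∈ Finset.range N, ((k : ℝ) + 1) ^ (-a) ≤ (N : ℝ) ^ (1 - a) := by
    induction N with
    | zero =>
      simp only [Finset.range_zero, Finset.sum_empty, mul_zero, Nat.cast_zero]
      exact Real.rpow_nonneg le_rfl _
    | succ N ih =>
      rw [Finset.sum_range_succ, mul_add]
      have hN : (0 : ℝ) < (N : ℝ) + 1 := by positivity
      have h1 : (N : ℝ) ^ (1 - a) ≤ ((N : ℝ) + 1) ^ (1 - a) - (1 - a) * ((N : ℝ) + 1) ^ (-a) := by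
        have h2 := rpow_one_add_le_one_add_mul_self
          (s := -(1 / ((N : ℝ) + 1))) (by
            rw [neg_le_neg_iff, div_le_one hN]
            have : (0 : ℝ) ≤ N := Nat.cast_nonneg N
            linarith) (p := 1 - a) (by linarith) (by linarith)
        have h3 : (1 + -(1 / ((N : ℝ) + 1))) = (N : ℝ) / ((N : ℝ) + 1) := by
          field_simp
          ring
        rw [h3, Real.div_rpow (Nat.cast_nonneg N) hN.le,
          div_le_iff₀ (Real.rpow_pos_of_pos hN _)] at h2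
        have h4 : ((N : ℝ) + 1) ^ (-a) = ((N : ℝ) + 1) ^ (1 - a) * (1 / ((N : ℝ) + 1)) := by
          rw [show -a = (1 - a) - 1 by ring, Real.rpow_sub hN, Real.rpow_one]
          ring
        rw [h4]
        linarith
      push_cast
      linarith
  have h0 : 0 ≤ ∑ k ∈ Finset.range N, ((k : ℝ) + 1) ^ (-a) :=
    Finset.sum_nonneg fun k _ => Real.rpow_nonneg (by positivity) _
  nlinarith

theorem abs_Fpart_le (r : ℝ) (hr : 0 < r) (N : ℕ) (t : UnitAddCircle) (ht : t ≠ 0) :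
    |Fpart r N t| ≤ 7 * ‖t‖ ^ (min r (1 / 2) - 1) := by
  set a : ℝ := min r (1 / 2) with ha
  have ha0 : 0 < a := lt_min hr (by norm_num)
  have ha1 : a ≤ 1 / 2 := min_le_right _ _
  have har : a ≤ r := min_le_left _ _
  have ht0 := bs_pos ht
  have hth : ‖t‖ ≤ 1 / 2 := by
    have := AddCircle.norm_le_half_period (x := t) (p := 1) (by norm_num)
    simpa using this
  have hX1 : 1 ≤ ‖t‖ ^ (a - 1) :=
    Real.one_le_rpow_of_pos_of_le_one_of_nonpos ht0 (by linarith) (by linarith)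
  set z : ℂ := (fourier 1 t : ℂ) with hz
  set M : ℕ := ⌊1 / ‖t‖⌋₊ with hM
  have hMle : (M : ℝ) ≤ 1 / ‖t‖ := Nat.floor_le (by positivity)
  have hMlt : 1 / ‖t‖ < (M : ℝ) + 1 := Nat.lt_floor_add_one _
  have hXinv : (1 / ‖t‖) ^ (1 - a) = ‖t‖ ^ (a - 1) := by
    rw [one_div, Real.inv_rpow ht0.le, ← Real.rpow_neg ht0.le]
    congr 1
    ring
  -- the beginning of the series
  have hbeg : ∀ n : ℕ, n ≤ M →
      ‖∑ k ∈ Finset.range n, ((((k : ℝ) + 1) ^ (-r) : ℝ) : ℂ) * (fourier ((k : ℤ) + 1) t : ℂ)‖ ≤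
        2 * ‖t‖ ^ (a - 1) := by
    intro n hn
    refine (norm_sum_le _ _).trans ?_
    calc ∑ k ∈ Finset.range n,
          ‖((((k : ℝ) + 1) ^ (-r) : ℝ) : ℂ) * (fourier ((k : ℤ) + 1) t : ℂ)‖
        ≤ ∑ k ∈ Finset.range n, ((k : ℝ) + 1) ^ (-a) := by
          refine Finset.sum_le_sum fun k _ => ?_
          have h1 : (1 : ℝ) ≤ (k : ℝ) + 1 := by
            have : (0 : ℝ) ≤ k := Nat.cast_nonneg k
            linarith
          rw [norm_mul, bs_fourier_pow, norm_pow, bs_norm_z, one_pow, mul_one, Complex.norm_real,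
            Real.norm_of_nonneg (Real.rpow_nonneg (by linarith) _)]
          exact Real.rpow_le_rpow_of_exponent_le h1 (by linarith)
      _ ≤ 2 * (n : ℝ) ^ (1 - a) := bs_sum_rpow ha1 n ha0
      _ ≤ 2 * (1 / ‖t‖) ^ (1 - a) := by
          apply mul_le_mul_of_nonneg_left _ (by norm_num)
          apply Real.rpow_le_rpow (Nat.cast_nonneg n) _ (by linarith)
          have : (n : ℝ) ≤ M := by exact_mod_cast hn
          linarith
      _ = 2 * ‖t‖ ^ (a - 1) := by rw [hXinv]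
  have hS : ‖∑ k ∈ Finset.range N, ((((k : ℝ) + 1) ^ (-r) : ℝ) : ℂ) *
      (fourier ((k : ℤ) + 1) t : ℂ)‖ ≤ 3 * ‖t‖ ^ (a - 1) := by
    rcases Nat.le_total N M with h | h
    · have := hbeg N h
      linarith
    · rw [← Finset.sum_range_add_sum_Ico _ h]
      refine (norm_add_le _ _).trans ?_
      have h1 := hbeg M le_rfl
      have h2 : ‖∑ k ∈ Finset.Ico M N, ((((k : ℝ) + 1) ^ (-r) : ℝ) : ℂ) *
          (fourier ((k : ℤ) + 1) t : ℂ)‖ ≤ ‖t‖ ^ (a - 1) := by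
        have e : ∑ k ∈ Finset.Ico M N, ((((k : ℝ) + 1) ^ (-r) : ℝ) : ℂ) *
            (fourier ((k : ℤ) + 1) t : ℂ) =
            (∑ k ∈ Finset.Ico M N, ((((k : ℝ) + 1) ^ (-r) : ℝ) : ℂ) * z ^ k) * z := by
          rw [Finset.sum_mul]
          refine Finset.sum_congr rfl fun k _ => ?_
          rw [bs_fourier_pow, pow_succ]
          ring
        rw [e, norm_mul, bs_norm_z, mul_one]
        have h3 := bs_abel (fun k : ℕ => ((k : ℝ) + 1) ^ (-r))
          (fun k => Real.rpow_nonneg (by positivity) _) (bs_anti hr) M N z (bs_norm_z t)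
        have h4 := four_norm_le t
        have h5 : ((M : ℝ) + 1) ^ (-r) ≤ ‖t‖ ^ a := by
          have hM1 : (1 : ℝ) ≤ (M : ℝ) + 1 := by
            have : (0 : ℝ) ≤ M := Nat.cast_nonneg M
            linarith
          calc ((M : ℝ) + 1) ^ (-r) ≤ ((M : ℝ) + 1) ^ (-a) :=
                Real.rpow_le_rpow_of_exponent_le hM1 (by linarith)
            _ ≤ (1 / ‖t‖) ^ (-a) :=
                Real.rpow_le_rpow_of_nonpos (by positivity) hMlt.le (by linarith)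
            _ = ‖t‖ ^ a := by
                rw [one_div, Real.inv_rpow ht0.le, ← Real.rpow_neg ht0.le, neg_neg]
        have h6 : ‖t‖ ^ a = ‖t‖ ^ (a - 1) * ‖t‖ := by
          rw [Real.rpow_sub ht0, Real.rpow_one]
          field_simp
        set Y := ‖∑ k ∈ Finset.Ico M N, ((((k : ℝ) + 1) ^ (-r) : ℝ) : ℂ) * z ^ k‖ with hY
        have hY0 : 0 ≤ Y := norm_nonneg _
        have h7 : 4 * ‖t‖ * Y ≤ 2 * (‖t‖ ^ (a - 1) * ‖t‖) := by
          calc 4 * ‖t‖ * Y ≤ ‖1 - z‖ * Y := mul_le_mul_of_nonneg_right h4 hY0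
            _ ≤ 2 * ((M : ℝ) + 1) ^ (-r) := h3
            _ ≤ 2 * (‖t‖ ^ (a - 1) * ‖t‖) := by rw [← h6]; linarith
        have h8 : 0 < ‖t‖ ^ (a - 1) := by linarith
        have h9 : ‖t‖ * (2 * Y) ≤ ‖t‖ * ‖t‖ ^ (a - 1) := by linarith
        have h10 := le_of_mul_le_mul_left h9 ht0
        linarith
      linarith
  rw [Fpart_eq]
  have h1 : |(Complex.exp (-(Complex.I * ((r * Real.pi / 2 : ℝ) : ℂ))) *
      ∑ k ∈ Finset.range N, ((((k : ℝ) + 1) ^ (-r) : ℝ) : ℂ) * (fourier ((k : ℤ) + 1) t : ℂ)).re| ≤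
      3 * ‖t‖ ^ (a - 1) := by
    refine (Complex.abs_re_le_norm _).trans ?_
    rw [norm_mul]
    have h2 : ‖Complex.exp (-(Complex.I * ((r * Real.pi / 2 : ℝ) : ℂ)))‖ = 1 := by
      rw [Complex.norm_exp]
      simp
    rw [h2, one_mul]
    exact hS
  refine (abs_add_le _ _).trans ?_
  rw [abs_one, abs_mul, abs_two]
  linarith

end MPcd65c1
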