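import Pool.Agent.Lib.MP_cd65c1_an.CNu

/-!
# MP_cd65c1_an / CMom : even moments of the random sums

For all `m` and `Cj : ℕ → ℝ` there is `K > 0` such that: if `E` is continuous, `τ ≥ 0`,
`(n : ℝ) ≤ n0`, `0 < n0` and `∫ E^(2j) ≤ Cj j * τ^(2j)/n0` for `1 ≤ j ≤ m`, then for every `x`
`∫_I (Ssum E I x)^(2m) ≤ K τ^(2m)`.

Let `a_m(n) = ∫_I (Ssum E I x)^(2m) ∂nuI d n`.  By `integral_nuI_succ` and the binomial formula
(`Ssum E (Fin.cons (y,b) I) x = sg b * E(x-y) + Ssum E I x`; odd powers of `sg b` have mean zero)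
`a_m(n+1) = Σ_{j=0}^m C(2m,2j) (∫ E^(2j)) a_{m-j}(n)`. Strong induction on `m`, and induction on `n`.
-/

namespace MPcd65c1

open MeasureTheory

private theorem mSsum_cons {d n : ℕ} (G : Td d → ℝ) (z : Td d × Bool) (I : Fin n → Td d × Bool)
    (x : Td d) : Ssum G (Fin.cons z I : Fin (n + 1) → Td d × Bool) x =
      sg z.2 * G (x - z.1) + Ssum G I x := by
  unfold Ssum
  rw [Fin.sum_univ_succ]
  simp

private theorem mcont_Ssum_I {d n : ℕ} {G : Td d → ℝ} (hG : Continuous G) (x : Td d) :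
    Continuous (fun I : Fin n → Td d × Bool => Ssum G I x) :=
  (continuous_Ssum hG).comp (continuous_id.prodMk continuous_const)

private theorem mcont_sg : Continuous sg := continuous_of_discreteTopology

private theorem mintegral_shift {d : ℕ} (f : Td d → ℝ) (x : Td d) :
    ∫ y, f (x - y) ∂(mu d) = ∫ y, f y ∂(mu d) := by
  have : (mu d).IsNegInvariant := Measure.IsAddHaarMeasure.isNegInvariant_of_regular (mu d)
  exact integral_sub_left_eq_self f (mu d) x

private theorem sum_even (g : ℕ → ℝ) (hg : ∀ j, g (2 * j + 1) = 0) (m : ℕ) :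
    ∑ k ∈ Finset.range (2 * m + 1), g k = ∑ j ∈ Finset.range (m + 1), g (2 * j) := by
  induction m with
  | zero => simp
  | succ m ih =>
    rw [show 2 * (m + 1) + 1 = 2 * m + 1 + 1 + 1 from by ring, Finset.sum_range_succ,
      Finset.sum_range_succ, ih, hg m, add_zero, Finset.sum_range_succ _ (m + 1)]
    rfl

theorem moment_rec {d n : ℕ} (E : Td d → ℝ) (hE : Continuous E) (m : ℕ) (x : Td d) :
    ∫ I, (Ssum E I x) ^ (2 * m) ∂(nuI d (n + 1)) =
      ∑ j ∈ Finset.range (m + 1), ((2 * m).choose (2 * j) : ℝ) *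
        (∫ y, (E y) ^ (2 * j) ∂(mu d)) * ∫ I, (Ssum E I x) ^ (2 * (m - j)) ∂(nuI d n) := by
  have hc : Continuous (fun I : Fin (n + 1) → Td d × Bool => (Ssum E I x) ^ (2 * m)) :=
    (mcont_Ssum_I hE x).pow _
  rw [integral_nuI_succ _ hc]
  have hS : Continuous (fun I : Fin n → Td d × Bool => Ssum E I x) := mcont_Ssum_I hE x
  obtain ⟨a, ha⟩ : ∃ a : ℕ → ℝ, a = fun k => ∫ I, (Ssum E I x) ^ k ∂(nuI d n) := ⟨_, rfl⟩
  have h1 : ∀ z : Td d × Bool, ∫ I, (Ssum E (Fin.cons z I : Fin (n + 1) → Td d × Bool) x) ^ (2 * m)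
      ∂(nuI d n) = ∑ k ∈ Finset.range (2 * m + 1),
        (sg z.2) ^ k * ((E (x - z.1)) ^ k * (a (2 * m - k) * ((2 * m).choose k : ℝ))) := by
    intro z
    have h2 : ∀ I : Fin n → Td d × Bool,
        (Ssum E (Fin.cons z I : Fin (n + 1) → Td d × Bool) x) ^ (2 * m) =
        ∑ k ∈ Finset.range (2 * m + 1), ((sg z.2) ^ k * ((E (x - z.1)) ^ k *
          ((2 * m).choose k : ℝ))) * (Ssum E I x) ^ (2 * m - k) := by
      intro I
      rw [mSsum_cons, add_pow]
      refine Finset.sum_congr rfl (fun k _ => ?_)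
      rw [mul_pow]
      ring
    simp only [h2]
    rw [integral_finsetSum]
    · refine Finset.sum_congr rfl (fun k _ => ?_)
      rw [integral_const_mul, ha]
      ring
    · intro k _
      exact (integrable_nuI (hS.pow _)).const_mul _
  simp only [h1]
  have hEx : Continuous (fun y : Td d => E (x - y)) := hE.comp (continuous_const.sub continuous_id)
  have hEz : Continuous (fun z : Td d × Bool => E (x - z.1)) := hEx.comp continuous_fst
  rw [integral_nu1]
  · have h3 : ∀ b : Bool, ∫ y, (∑ k ∈ Finset.range (2 * m + 1),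
        (sg b) ^ k * ((E (x - y)) ^ k * (a (2 * m - k) * ((2 * m).choose k : ℝ)))) ∂(mu d) =
        ∑ k ∈ Finset.range (2 * m + 1),
          (sg b) ^ k * ((∫ y, (E y) ^ k ∂(mu d)) * (a (2 * m - k) * ((2 * m).choose k : ℝ))) := by
      intro b
      rw [integral_finsetSum]
      · refine Finset.sum_congr rfl (fun k _ => ?_)
        rw [integral_const_mul, integral_mul_const, mintegral_shift (fun y => (E y) ^ k) x]
      · intro k _
        have i1 : Integrable (fun y : Td d => (E (x - y)) ^ k) (mu d) :=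
          (hEx.pow k).integrable_of_hasCompactSupport (HasCompactSupport.of_compactSpace _)
        exact (i1.mul_const _).const_mul _
    show ((∫ y, (∑ k ∈ Finset.range (2 * m + 1), (sg true) ^ k * ((E (x - y)) ^ k *
        (a (2 * m - k) * ((2 * m).choose k : ℝ)))) ∂(mu d)) +
      ∫ y, (∑ k ∈ Finset.range (2 * m + 1), (sg false) ^ k * ((E (x - y)) ^ k *
        (a (2 * m - k) * ((2 * m).choose k : ℝ)))) ∂(mu d)) / 2 = _
    rw [h3 true, h3 false, ← Finset.sum_add_distrib, Finset.sum_div]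
    have h4 := sum_even (fun k => ((sg true) ^ k * ((∫ y, (E y) ^ k ∂(mu d)) *
        (a (2 * m - k) * ((2 * m).choose k : ℝ))) + (sg false) ^ k * ((∫ y, (E y) ^ k ∂(mu d)) *
        (a (2 * m - k) * ((2 * m).choose k : ℝ)))) / 2) (fun j => by
          have e1 : (sg true) ^ (2 * j + 1) = 1 := by simp [sg]
          have e2 : (sg false) ^ (2 * j + 1) = -1 := by
            simp only [sg, Bool.false_eq_true, if_false]
            rw [pow_succ, pow_mul]
            simp
          rw [e1, e2]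
          ring) m
    rw [h4]
    refine Finset.sum_congr rfl (fun j _ => ?_)
    have e1 : (sg true) ^ (2 * j) = 1 := by simp [sg]
    have e2 : (sg false) ^ (2 * j) = 1 := by
      simp only [sg, Bool.false_eq_true, if_false]
      rw [pow_mul]
      simp
    rw [e1, e2, ← Nat.mul_sub, ha]
    ring
  · refine continuous_finsetSum _ (fun k _ => ?_)
    exact ((mcont_sg.comp continuous_snd).pow k).mul ((hEz.pow k).mul continuous_const)

theorem moments (m : ℕ) (Cj : ℕ → ℝ) :
    ∃ K : ℝ, 0 < K ∧ ∀ (d n : ℕ) (E : Td d → ℝ) (τ n0 : ℝ), Continuous E → 0 ≤ τ → 0 < n0 →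
      (n : ℝ) ≤ n0 →
      (∀ j, 1 ≤ j → j ≤ m → ∫ y, (E y) ^ (2 * j) ∂(mu d) ≤ Cj j * τ ^ (2 * j) / n0) →
      ∀ x : Td d, ∫ I, (Ssum E I x) ^ (2 * m) ∂(nuI d n) ≤ K * τ ^ (2 * m) := by
  induction m using Nat.strong_induction_on with
  | _ m ih =>
  rcases Nat.eq_zero_or_pos m with hm | hm
  · subst hm
    refine ⟨1, one_pos, ?_⟩
    intro d n E τ n0 _ _ _ _ _ x
    simp
  · -- the constants of the smaller exponents
    have ih' : ∀ m' : ℕ, ∃ K : ℝ, 0 < K ∧ (m' < m → ∀ (d n : ℕ) (E : Td d → ℝ) (τ n0 : ℝ),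
        Continuous E → 0 ≤ τ → 0 < n0 → (n : ℝ) ≤ n0 →
        (∀ j, 1 ≤ j → j ≤ m' → ∫ y, (E y) ^ (2 * j) ∂(mu d) ≤ Cj j * τ ^ (2 * j) / n0) →
        ∀ x : Td d, ∫ I, (Ssum E I x) ^ (2 * m') ∂(nuI d n) ≤ K * τ ^ (2 * m')) := by
      intro m'
      by_cases h : m' < m
      · obtain ⟨K, hK, hK'⟩ := ih m' h
        exact ⟨K, hK, fun _ => hK'⟩
      · exact ⟨1, one_pos, fun h' => absurd h' h⟩
    choose Kf hKf hKf' using ih'
    obtain ⟨K', hK'⟩ : ∃ K' : ℝ, K' = ∑ j ∈ Finset.range m,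
      ((2 * m).choose (2 * (j + 1)) : ℝ) * |Cj (j + 1)| * Kf (m - (j + 1)) := ⟨_, rfl⟩
    have hK'0 : 0 ≤ K' := by
      rw [hK']
      exact Finset.sum_nonneg (fun j _ => mul_nonneg (mul_nonneg (Nat.cast_nonneg _)
        (abs_nonneg _)) (hKf _).le)
    refine ⟨K' + 1, by linarith, ?_⟩
    intro d n E τ n0 hE hτ hn0 hn hj x
    have key : ∀ k : ℕ, (k : ℝ) ≤ n0 →
        ∫ I, (Ssum E I x) ^ (2 * m) ∂(nuI d k) ≤ k * (K' * τ ^ (2 * m) / n0) := by
      intro k
      induction k with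
      | zero =>
        intro _
        have : ∀ I : Fin 0 → Td d × Bool, (Ssum E I x) ^ (2 * m) = 0 := by
          intro I
          simp only [Ssum, Finset.univ_eq_empty, Finset.sum_empty]
          exact zero_pow (by omega)
        simp [this]
      | succ k ihk =>
        intro hk
        have hk' : (k : ℝ) ≤ n0 := by
          push_cast at hk
          linarith
        rw [moment_rec E hE m x, Finset.sum_range_succ']
        have h0 : (((2 * m).choose (2 * 0) : ℕ) : ℝ) * (∫ y, (E y) ^ (2 * 0) ∂(mu d)) *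
            ∫ I, (Ssum E I x) ^ (2 * (m - 0)) ∂(nuI d k) =
            ∫ I, (Ssum E I x) ^ (2 * m) ∂(nuI d k) := by
          simp
        rw [h0]
        have h1 : ∑ j ∈ Finset.range m, (((2 * m).choose (2 * (j + 1)) : ℕ) : ℝ) *
            (∫ y, (E y) ^ (2 * (j + 1)) ∂(mu d)) *
            ∫ I, (Ssum E I x) ^ (2 * (m - (j + 1))) ∂(nuI d k) ≤ K' * τ ^ (2 * m) / n0 := by
          rw [hK', Finset.sum_mul, Finset.sum_div]
          refine Finset.sum_le_sum (fun j hjm => ?_)
          rw [Finset.mem_range] at hjm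
          have a1 : ∫ y, (E y) ^ (2 * (j + 1)) ∂(mu d) ≤ |Cj (j + 1)| * τ ^ (2 * (j + 1)) / n0 := by
            refine (hj (j + 1) (by omega) (by omega)).trans ?_
            exact div_le_div_of_nonneg_right (mul_le_mul_of_nonneg_right (le_abs_self _)
              (pow_nonneg hτ _)) hn0.le
          have a2 : ∫ I, (Ssum E I x) ^ (2 * (m - (j + 1))) ∂(nuI d k) ≤
              Kf (m - (j + 1)) * τ ^ (2 * (m - (j + 1))) :=
            hKf' (m - (j + 1)) (by omega) d k E τ n0 hE hτ hn0 hk'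
              (fun i h1 h2 => hj i h1 (by omega)) x
          have a3 : 0 ≤ ∫ I, (Ssum E I x) ^ (2 * (m - (j + 1))) ∂(nuI d k) :=
            integral_nonneg (fun I => by
              rw [pow_mul]
              positivity)
          have a4 : 0 ≤ |Cj (j + 1)| * τ ^ (2 * (j + 1)) / n0 := by positivity
          have a5 : (0 : ℝ) ≤ (((2 * m).choose (2 * (j + 1)) : ℕ) : ℝ) := Nat.cast_nonneg _
          calc (((2 * m).choose (2 * (j + 1)) : ℕ) : ℝ) *
              (∫ y, (E y) ^ (2 * (j + 1)) ∂(mu d)) *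
              ∫ I, (Ssum E I x) ^ (2 * (m - (j + 1))) ∂(nuI d k)
              ≤ (((2 * m).choose (2 * (j + 1)) : ℕ) : ℝ) *
                (|Cj (j + 1)| * τ ^ (2 * (j + 1)) / n0) *
                (Kf (m - (j + 1)) * τ ^ (2 * (m - (j + 1)))) :=
                mul_le_mul (mul_le_mul_of_nonneg_left a1 a5) a2 a3 (mul_nonneg a5 a4)
            _ = _ := by
                have e : τ ^ (2 * m) = τ ^ (2 * (j + 1)) * τ ^ (2 * (m - (j + 1))) := by
                  rw [← pow_add]
                  congr 1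
                  omega
                rw [e]
                ring
        have h2 := ihk hk'
        push_cast
        linarith
    refine (key n hn).trans ?_
    have h3 : (n : ℝ) * (K' * τ ^ (2 * m) / n0) = (n / n0) * (K' * τ ^ (2 * m)) := by ring
    rw [h3]
    have h4 : (n : ℝ) / n0 ≤ 1 := (div_le_one hn0).2 hn
    have h5 : 0 ≤ τ ^ (2 * m) := pow_nonneg hτ _
    have h6 : 0 ≤ K' * τ ^ (2 * m) := mul_nonneg hK'0 h5
    nlinarith

end MPcd65c1
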