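import Pool.Agent.Lib.MP_cd65c1_an.KQl

/-!
# MP_cd65c1_an / KPt : pointwise bounds for `F(x) = Σ_{l0 ≤ l ≤ l1} 2^(-l) Ql l x` (about 150 lines)

Let `w = wx x`.  From `Ql_le`: `2^(-l) Ql l x ≤ C 2^(min l w - l) (1+|w-l|)^(d-1)`, i.e.
`≤ C (1+w-l)^(d-1)` for `l ≤ w` and `≤ C 2^(-(l-w)) (1+l-w)^(d-1)` for `l > w`.

(a) `w ≥ l0`, `u = w - l0`: the levels `l0 ≤ l ≤ w` contribute at most `(1+u) * C (1+u)^(d-1)`, the levels
`l > w` at most `C Σ_j 2^(-j) (1+j)^(d-1) = C'`: `F ≤ C'' (1+u)^d`.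
(b) `w < l0`: `F ≤ C Σ_{l ≥ l0} 2^(-(l-w)) (1+l-w)^(d-1)
   ≤ C 2^(-(l0-w)) (1+l0-w)^(d-1) Σ_j 2^(-j) (1+j)^(d-1)` (`1+l0-w+j ≤ (1+l0-w)(1+j)`).
(c) every single term is at most `C (1+u)^(d-1)`, `u = (w-l0)_+` (for `l > w` it is at most a constant:
`2^(-j)(1+j)^(d-1) ≤ C`), and at most `(l+1)^(d-1) ≤ (l1+1)^(d-1) ≤ 2^(d-1) (l0+1)^(d-1)` (`Ql_le_triv`,
`l1 + 1 ≤ 2 (l0+1)`).  There are `Lv = l1 - l0 + 1` terms:
`F ≤ C Lv min ((1+u)^(d-1)) ((l0+1)^(d-1))`.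
(d) CONSEQUENCE for `d ≥ 2`: if `0 ≤ lam ≤ c0 (l0+1)/(Lv (l0+1)^(d-1))` then
`lam F ≤ c0 C (l0+1) min ((1+u)^(d-1)) ((l0+1)^(d-1)) / (l0+1)^(d-1) ≤ c0 C (1+u)`:
if `u ≤ l0`: `(l0+1)(1+u)^(d-1)/(l0+1)^(d-1) = (1+u) ((1+u)/(l0+1))^(d-2) ≤ 1+u`; if `u > l0`:
`≤ l0+1 ≤ 1+u`.
-/

namespace MPcd65c1

open MeasureTheory

noncomputable def F1 {d : ℕ} (l0 l1 : ℕ) (x : Td d) : ℝ :=
  ∑ l ∈ Finset.Icc l0 l1, ((2 : ℝ) ^ l)⁻¹ * Ql l x

/-- the general term `2^(-j) (1+j)^(d-1)` -/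
noncomputable def gK (d j : ℕ) : ℝ := ((2 : ℝ) ^ j)⁻¹ * (1 + (j : ℝ)) ^ (d - 1)

theorem gK_nonneg (d j : ℕ) : 0 ≤ gK d j := by
  unfold gK
  positivity

theorem summable_gK (d : ℕ) : Summable (gK d) := by
  have h : Summable (fun n : ℕ => (n : ℝ) ^ (d - 1) * (1 / 2 : ℝ) ^ n) :=
    summable_pow_mul_geometric_of_norm_lt_one (d - 1)
      (by rw [Real.norm_eq_abs, abs_of_pos (by norm_num)]; norm_num)
  have h1 := ((summable_nat_add_iff 1).2 h).mul_left 2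
  refine h1.congr (fun n => ?_)
  unfold gK
  push_cast
  rw [one_div, inv_pow, pow_succ, mul_inv]
  ring

noncomputable def SK (d : ℕ) : ℝ := ∑' j, gK d j

theorem SK_nonneg (d : ℕ) : 0 ≤ SK d := tsum_nonneg (gK_nonneg d)

theorem gK_le_SK (d j : ℕ) : gK d j ≤ SK d :=
  (summable_gK d).le_tsum j (fun i _ => gK_nonneg d i)

/-- the sum of `gK (l - w)` over `l ∈ Icc a b`, `w ≤ a` -/
theorem sum_gK_le (d w : ℕ) (s : Finset ℕ) (hs : ∀ l ∈ s, w ≤ l) :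
    ∑ l ∈ s, gK d (l - w) ≤ SK d := by
  have hinj : Set.InjOn (fun l : ℕ => l - w) (s : Set ℕ) := by
    intro a ha b hb hab
    have h1 := hs a ha
    have h2 := hs b hb
    simp only at hab
    omega
  rw [← Finset.sum_image (f := gK d) (g := fun l : ℕ => l - w) hinj]
  exact (summable_gK d).sum_le_tsum _ (fun i _ => gK_nonneg d i)

theorem term_le (d : ℕ) (hd : 1 ≤ d) :
    ∃ C : ℝ, 0 < C ∧ ∀ (l : ℕ) (x : Td d), (∀ j, x j ≠ 0) →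
      (l ≤ wx x → ((2 : ℝ) ^ l)⁻¹ * Ql l x ≤ C * (1 + ((wx x : ℝ) - l)) ^ (d - 1)) ∧
      (wx x ≤ l → ((2 : ℝ) ^ l)⁻¹ * Ql l x ≤ C * gK d (l - wx x)) := by
  obtain ⟨C, hC, h⟩ := Ql_le d hd
  refine ⟨C, hC, fun l x hx => ⟨fun hl => ?_, fun hl => ?_⟩⟩
  · have h1 := h l x hx
    rw [min_eq_left hl] at h1
    have h2 : dist1 (wx x) l = (wx x : ℝ) - l := by
      unfold dist1
      rw [abs_of_nonneg]
      have : (l : ℝ) ≤ wx x := by exact_mod_cast hl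
      linarith
    rw [h2] at h1
    have h3 : (0 : ℝ) < (2 : ℝ) ^ l := by positivity
    calc ((2 : ℝ) ^ l)⁻¹ * Ql l x
        ≤ ((2 : ℝ) ^ l)⁻¹ * (C * (2 : ℝ) ^ l * (1 + ((wx x : ℝ) - l)) ^ (d - 1)) :=
          mul_le_mul_of_nonneg_left h1 (by positivity)
      _ = C * (1 + ((wx x : ℝ) - l)) ^ (d - 1) := by
          field_simp
  · have h1 := h l x hx
    rw [min_eq_right hl] at h1
    have h2 : dist1 (wx x) l = ((l - wx x : ℕ) : ℝ) := by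
      unfold dist1
      rw [Nat.cast_sub hl, abs_sub_comm, abs_of_nonneg]
      have : (wx x : ℝ) ≤ l := by exact_mod_cast hl
      linarith
    rw [h2] at h1
    have h3 : (0 : ℝ) < (2 : ℝ) ^ l := by positivity
    have h4 : (2 : ℝ) ^ l = (2 : ℝ) ^ (wx x) * (2 : ℝ) ^ (l - wx x) := by
      rw [← pow_add]
      congr 1
      omega
    have h5 : ((2 : ℝ) ^ l)⁻¹ * (C * (2 : ℝ) ^ (wx x) * (1 + ((l - wx x : ℕ) : ℝ)) ^ (d - 1)) =
        C * gK d (l - wx x) := by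
      unfold gK
      rw [h4]
      have h6 : (0 : ℝ) < (2 : ℝ) ^ (wx x) := by positivity
      have h7 : (0 : ℝ) < (2 : ℝ) ^ (l - wx x) := by positivity
      field_simp
    calc ((2 : ℝ) ^ l)⁻¹ * Ql l x
        ≤ ((2 : ℝ) ^ l)⁻¹ * (C * (2 : ℝ) ^ (wx x) * (1 + ((l - wx x : ℕ) : ℝ)) ^ (d - 1)) :=
          mul_le_mul_of_nonneg_left h1 (by positivity)
      _ = C * gK d (l - wx x) := h5

theorem F1_le_high (d : ℕ) (hd : 1 ≤ d) :
    ∃ C : ℝ, 0 < C ∧ ∀ (l0 l1 : ℕ) (x : Td d), l0 ≤ l1 → (∀ j, x j ≠ 0) → l0 ≤ wx x →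
      F1 l0 l1 x ≤ C * (1 + ((wx x : ℝ) - l0)) ^ d := by
  obtain ⟨C, hC, h⟩ := term_le d hd
  have hS := SK_nonneg d
  refine ⟨C * (1 + SK d), by positivity, fun l0 l1 x hl hx hw => ?_⟩
  have hwr : (l0 : ℝ) ≤ wx x := by exact_mod_cast hw
  set U : ℝ := 1 + ((wx x : ℝ) - l0) with hU
  have hU1 : 1 ≤ U := by rw [hU]; linarith
  have hsplit : F1 l0 l1 x = ∑ l ∈ (Finset.Icc l0 l1).filter (fun l => l ≤ wx x),
      ((2 : ℝ) ^ l)⁻¹ * Ql l x + ∑ l ∈ (Finset.Icc l0 l1).filter (fun l => ¬ l ≤ wx x),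
      ((2 : ℝ) ^ l)⁻¹ * Ql l x := by
    unfold F1
    rw [Finset.sum_filter_add_sum_filter_not]
  have h1 : ∑ l ∈ (Finset.Icc l0 l1).filter (fun l => l ≤ wx x), ((2 : ℝ) ^ l)⁻¹ * Ql l x ≤
      C * U ^ d := by
    have ha : ∀ l ∈ (Finset.Icc l0 l1).filter (fun l => l ≤ wx x),
        ((2 : ℝ) ^ l)⁻¹ * Ql l x ≤ C * U ^ (d - 1) := by
      intro l hl'
      rw [Finset.mem_filter, Finset.mem_Icc] at hl'
      refine ((h l x hx).1 hl'.2).trans (mul_le_mul_of_nonneg_left ?_ hC.le)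
      have h2 : (l0 : ℝ) ≤ l := by exact_mod_cast hl'.1.1
      have h3 : (l : ℝ) ≤ wx x := by exact_mod_cast hl'.2
      exact pow_le_pow_left₀ (by linarith) (by rw [hU]; linarith) _
    have hb := Finset.sum_le_card_nsmul _ _ _ ha
    rw [nsmul_eq_mul] at hb
    have hcard : (((Finset.Icc l0 l1).filter (fun l => l ≤ wx x)).card : ℝ) ≤ U := by
      have h4 : (Finset.Icc l0 l1).filter (fun l => l ≤ wx x) ⊆ Finset.Icc l0 (wx x) := by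
        intro l hl'
        rw [Finset.mem_filter, Finset.mem_Icc] at hl'
        rw [Finset.mem_Icc]
        exact ⟨hl'.1.1, hl'.2⟩
      have h5 := Finset.card_le_card h4
      rw [Nat.card_Icc] at h5
      have h6 : (((Finset.Icc l0 l1).filter (fun l => l ≤ wx x)).card : ℝ) ≤
          ((wx x + 1 - l0 : ℕ) : ℝ) := by exact_mod_cast h5
      refine h6.trans (le_of_eq ?_)
      rw [Nat.cast_sub (by omega), hU]
      push_cast
      ring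
    refine hb.trans ?_
    calc _ ≤ U * (C * U ^ (d - 1)) := mul_le_mul_of_nonneg_right hcard (by positivity)
      _ = C * U ^ d := by
        obtain ⟨e, rfl⟩ : ∃ e, d = e + 1 := ⟨d - 1, by omega⟩
        simp only [Nat.add_sub_cancel]
        ring
  have h2 : ∑ l ∈ (Finset.Icc l0 l1).filter (fun l => ¬ l ≤ wx x), ((2 : ℝ) ^ l)⁻¹ * Ql l x ≤
      C * SK d := by
    have ha : ∀ l ∈ (Finset.Icc l0 l1).filter (fun l => ¬ l ≤ wx x),
        ((2 : ℝ) ^ l)⁻¹ * Ql l x ≤ C * gK d (l - wx x) := by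
      intro l hl'
      rw [Finset.mem_filter, Finset.mem_Icc] at hl'
      exact (h l x hx).2 (by omega)
    refine (Finset.sum_le_sum ha).trans ?_
    rw [← Finset.mul_sum]
    refine mul_le_mul_of_nonneg_left (sum_gK_le d (wx x) _ ?_) hC.le
    intro l hl'
    rw [Finset.mem_filter] at hl'
    omega
  have hUd : 1 ≤ U ^ d := one_le_pow₀ hU1
  rw [hsplit]
  calc _ ≤ C * U ^ d + C * SK d := add_le_add h1 h2
    _ ≤ C * U ^ d + C * SK d * U ^ d := by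
        have : C * SK d * 1 ≤ C * SK d * U ^ d := mul_le_mul_of_nonneg_left hUd (by positivity)
        linarith
    _ = C * (1 + SK d) * U ^ d := by ring

theorem F1_le_low (d : ℕ) (hd : 1 ≤ d) :
    ∃ C : ℝ, 0 < C ∧ ∀ (l0 l1 : ℕ) (x : Td d), l0 ≤ l1 → (∀ j, x j ≠ 0) → wx x < l0 →
      F1 l0 l1 x ≤ C * ((2 : ℝ) ^ (l0 - wx x))⁻¹ * (1 + ((l0 : ℝ) - wx x)) ^ (d - 1) := by
  obtain ⟨C, hC, h⟩ := term_le d hd
  have hS := SK_nonneg d
  refine ⟨C * (1 + SK d), by positivity, fun l0 l1 x hl hx hw => ?_⟩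
  have hwr : (wx x : ℝ) < l0 := by exact_mod_cast hw
  have ha : ∀ l ∈ Finset.Icc l0 l1, ((2 : ℝ) ^ l)⁻¹ * Ql l x ≤
      C * ((2 : ℝ) ^ (l0 - wx x))⁻¹ * (1 + ((l0 : ℝ) - wx x)) ^ (d - 1) * gK d (l - l0) := by
    intro l hl'
    rw [Finset.mem_Icc] at hl'
    refine ((h l x hx).2 (by omega)).trans ?_
    rw [mul_assoc, mul_assoc]
    refine mul_le_mul_of_nonneg_left ?_ hC.le
    unfold gK
    have h1 : l - wx x = (l0 - wx x) + (l - l0) := by omega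
    have h2 : ((l - wx x : ℕ) : ℝ) = ((l0 : ℝ) - wx x) + ((l - l0 : ℕ) : ℝ) := by
      rw [h1, Nat.cast_add, Nat.cast_sub hw.le]
    rw [h2, h1, pow_add, mul_inv]
    have h3 : (0 : ℝ) ≤ ((l - l0 : ℕ) : ℝ) := Nat.cast_nonneg _
    have h4 : (0 : ℝ) ≤ (l0 : ℝ) - wx x := by linarith
    have h5 : (1 + (((l0 : ℝ) - wx x) + ((l - l0 : ℕ) : ℝ))) ^ (d - 1) ≤
        (1 + ((l0 : ℝ) - wx x)) ^ (d - 1) * (1 + ((l - l0 : ℕ) : ℝ)) ^ (d - 1) := by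
      rw [← mul_pow]
      refine pow_le_pow_left₀ (by linarith) ?_ _
      have := mul_nonneg h4 h3
      nlinarith
    have h6 : (0 : ℝ) ≤ ((2 : ℝ) ^ (l0 - wx x))⁻¹ * ((2 : ℝ) ^ (l - l0))⁻¹ := by positivity
    calc _ ≤ ((2 : ℝ) ^ (l0 - wx x))⁻¹ * ((2 : ℝ) ^ (l - l0))⁻¹ *
          ((1 + ((l0 : ℝ) - wx x)) ^ (d - 1) * (1 + ((l - l0 : ℕ) : ℝ)) ^ (d - 1)) :=
          mul_le_mul_of_nonneg_left h5 h6
      _ = _ := by ring
  unfold F1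
  refine (Finset.sum_le_sum ha).trans ?_
  rw [← Finset.mul_sum]
  have h7 := sum_gK_le d l0 (Finset.Icc l0 l1) (fun l hl' => (Finset.mem_Icc.1 hl').1)
  have h8 : (0 : ℝ) ≤ (1 + ((l0 : ℝ) - wx x)) := by linarith
  have h9 : (0 : ℝ) ≤ C * ((2 : ℝ) ^ (l0 - wx x))⁻¹ * (1 + ((l0 : ℝ) - wx x)) ^ (d - 1) := by
    positivity
  calc _ ≤ C * ((2 : ℝ) ^ (l0 - wx x))⁻¹ * (1 + ((l0 : ℝ) - wx x)) ^ (d - 1) * (1 + SK d) :=
        mul_le_mul_of_nonneg_left (by linarith) h9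
    _ = _ := by ring

/-- (d): `lam * F1 ≤ c0 C (1 + (w - l0)_+)` -/
theorem lam_F1_le (d : ℕ) (hd : 2 ≤ d) :
    ∃ C : ℝ, 0 < C ∧ ∀ (c0 : ℝ) (l0 l1 : ℕ) (x : Td d) (lam : ℝ), 0 ≤ c0 → l0 ≤ l1 →
      l1 ≤ 2 * l0 + 1 → (∀ j, x j ≠ 0) → 0 ≤ lam →
      lam ≤ c0 * ((l0 : ℝ) + 1) / (Lv l0 l1 * kap d l0) →
      lam * F1 l0 l1 x ≤ c0 * C * (1 + ((wx x - l0 : ℕ) : ℝ)) := by
  obtain ⟨C, hC, h⟩ := term_le d (by omega)
  have hS := SK_nonneg d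
  refine ⟨C * (1 + SK d) + 2 ^ (d - 1), by positivity,
    fun c0 l0 l1 x lam hc0 hl hl1 hx hlam hlam' => ?_⟩
  set u : ℝ := ((wx x - l0 : ℕ) : ℝ) with hu
  have hu0 : 0 ≤ u := Nat.cast_nonneg _
  have hLv : Lv l0 l1 = ((Finset.Icc l0 l1).card : ℝ) := by
    rw [Nat.card_Icc]
    unfold Lv
    rw [Nat.cast_sub (by omega)]
    push_cast
    ring
  have hLpos : 0 < Lv l0 l1 := by
    unfold Lv
    have : (l0 : ℝ) ≤ l1 := by exact_mod_cast hl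
    linarith
  have hkap : 0 < kap d l0 := by
    unfold kap
    positivity
  have hF0 : 0 ≤ F1 l0 l1 x := by
    unfold F1
    exact Finset.sum_nonneg (fun l _ => mul_nonneg (by positivity) (Ql_nonneg l x))
  -- every term is at most `C (1 + SK) (1+u)^(d-1)`
  have hA : F1 l0 l1 x ≤ Lv l0 l1 * (C * (1 + SK d) * (1 + u) ^ (d - 1)) := by
    rw [hLv, ← nsmul_eq_mul]
    unfold F1
    refine Finset.sum_le_card_nsmul _ _ _ (fun l hl' => ?_)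
    rw [Finset.mem_Icc] at hl'
    have h1u : 1 ≤ (1 + u) ^ (d - 1) := one_le_pow₀ (by linarith)
    rcases le_total l (wx x) with hlw | hlw
    · refine ((h l x hx).1 hlw).trans ?_
      have h2 : (1 + ((wx x : ℝ) - l)) ^ (d - 1) ≤ (1 + u) ^ (d - 1) := by
        have h3 : (l : ℝ) ≤ wx x := by exact_mod_cast hlw
        refine pow_le_pow_left₀ (by linarith) ?_ _
        have h4 : (l0 : ℝ) ≤ l := by exact_mod_cast hl'.1
        rw [hu, Nat.cast_sub (by omega)]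
        linarith
      have h5 : C * (1 + ((wx x : ℝ) - l)) ^ (d - 1) ≤ C * (1 + u) ^ (d - 1) :=
        mul_le_mul_of_nonneg_left h2 hC.le
      have h6 : 0 ≤ C * SK d * (1 + u) ^ (d - 1) := by positivity
      calc _ ≤ C * (1 + u) ^ (d - 1) := h5
        _ ≤ C * (1 + SK d) * (1 + u) ^ (d - 1) := by linarith
    · refine ((h l x hx).2 hlw).trans ?_
      have h2 := gK_le_SK d (l - wx x)
      have h5 : C * gK d (l - wx x) ≤ C * SK d * 1 := by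
        rw [mul_one]
        exact mul_le_mul_of_nonneg_left h2 hC.le
      have h6 : C * SK d * 1 ≤ C * SK d * (1 + u) ^ (d - 1) :=
        mul_le_mul_of_nonneg_left h1u (by positivity)
      have h7 : 0 ≤ C * (1 + u) ^ (d - 1) := by positivity
      calc _ ≤ C * SK d * (1 + u) ^ (d - 1) := h5.trans h6
        _ ≤ C * (1 + SK d) * (1 + u) ^ (d - 1) := by linarith
  have hB : F1 l0 l1 x ≤ Lv l0 l1 * (2 ^ (d - 1) * kap d l0) := by
    rw [hLv, ← nsmul_eq_mul]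
    unfold F1
    refine Finset.sum_le_card_nsmul _ _ _ (fun l hl' => ?_)
    rw [Finset.mem_Icc] at hl'
    have h1 := Ql_le_triv (by omega : 1 ≤ d) l x
    have h3 : (0 : ℝ) < (2 : ℝ) ^ l := by positivity
    calc ((2 : ℝ) ^ l)⁻¹ * Ql l x
        ≤ ((2 : ℝ) ^ l)⁻¹ * ((2 : ℝ) ^ l * ((l : ℝ) + 1) ^ (d - 1)) :=
          mul_le_mul_of_nonneg_left h1 (by positivity)
      _ = ((l : ℝ) + 1) ^ (d - 1) := by field_simp
      _ ≤ (2 * ((l0 : ℝ) + 1)) ^ (d - 1) := by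
          refine pow_le_pow_left₀ (by positivity) ?_ _
          have h4 : (l : ℝ) ≤ 2 * l0 + 1 := by exact_mod_cast (hl'.2.trans hl1)
          linarith
      _ = 2 ^ (d - 1) * kap d l0 := by
          unfold kap
          rw [mul_pow]
  have hmain : lam * F1 l0 l1 x ≤ c0 * ((l0 : ℝ) + 1) / (Lv l0 l1 * kap d l0) * F1 l0 l1 x :=
    mul_le_mul_of_nonneg_right hlam' hF0
  have hq0 : 0 ≤ c0 * ((l0 : ℝ) + 1) / (Lv l0 l1 * kap d l0) := by positivity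
  refine hmain.trans ?_
  rcases le_total u l0 with hul | hul
  · refine (mul_le_mul_of_nonneg_left hA hq0).trans ?_
    obtain ⟨e, rfl⟩ : ∃ e, d = e + 2 := ⟨d - 2, by omega⟩
    have hk : kap (e + 2) l0 = ((l0 : ℝ) + 1) * ((l0 : ℝ) + 1) ^ e := by
      unfold kap
      rw [show e + 2 - 1 = e + 1 by omega, pow_succ]
      ring
    have hpe : (1 + u) ^ e ≤ ((l0 : ℝ) + 1) ^ e :=
      pow_le_pow_left₀ (by linarith) (by linarith) _
    have hpe0 : (0 : ℝ) < ((l0 : ℝ) + 1) ^ e := by positivity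
    have hl0p : (0 : ℝ) < (l0 : ℝ) + 1 := by positivity
    have h1 : c0 * ((l0 : ℝ) + 1) / (Lv l0 l1 * kap (e + 2) l0) *
        (Lv l0 l1 * (C * (1 + SK (e + 2)) * (1 + u) ^ (e + 2 - 1))) =
        c0 * (C * (1 + SK (e + 2))) * (1 + u) * ((1 + u) ^ e / ((l0 : ℝ) + 1) ^ e) := by
      rw [hk, show e + 2 - 1 = e + 1 by omega, pow_succ]
      field_simp
    rw [h1]
    have h2 : (1 + u) ^ e / ((l0 : ℝ) + 1) ^ e ≤ 1 := (div_le_one hpe0).2 hpe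
    have h3 : 0 ≤ c0 * (C * (1 + SK (e + 2))) * (1 + u) := by positivity
    have h4 : c0 * (C * (1 + SK (e + 2))) * (1 + u) * ((1 + u) ^ e / ((l0 : ℝ) + 1) ^ e) ≤
        c0 * (C * (1 + SK (e + 2))) * (1 + u) * 1 := mul_le_mul_of_nonneg_left h2 h3
    have h5 : 0 ≤ c0 * 2 ^ (e + 2 - 1) * (1 + u) := by positivity
    calc _ ≤ c0 * (C * (1 + SK (e + 2))) * (1 + u) * 1 := h4
      _ ≤ c0 * (C * (1 + SK (e + 2)) + 2 ^ (e + 2 - 1)) * (1 + u) := by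
          rw [mul_add]
          linarith
  · refine (mul_le_mul_of_nonneg_left hB hq0).trans ?_
    have h1 : c0 * ((l0 : ℝ) + 1) / (Lv l0 l1 * kap d l0) *
        (Lv l0 l1 * (2 ^ (d - 1) * kap d l0)) = c0 * 2 ^ (d - 1) * ((l0 : ℝ) + 1) := by
      field_simp
    rw [h1]
    have h2 : c0 * 2 ^ (d - 1) * ((l0 : ℝ) + 1) ≤ c0 * 2 ^ (d - 1) * (1 + u) :=
      mul_le_mul_of_nonneg_left (by linarith) (by positivity)
    have h5 : 0 ≤ c0 * (C * (1 + SK d)) * (1 + u) := by positivity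
    calc _ ≤ c0 * 2 ^ (d - 1) * (1 + u) := h2
      _ ≤ c0 * (C * (1 + SK d) + 2 ^ (d - 1)) * (1 + u) := by
          rw [mul_add]
          linarith

end MPcd65c1
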