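import Pool.Agent.Lib.MP_cd65c1_an.KQl

/-!
# MP_cd65c1_an / KSum : the cell sum with one pivot level (about 120 lines)

`Phi l a w := (1 + (w-l))^a * 2^((w-l)/2)` for `w ≥ l` and `(1+(l-w))^a * 2^(-2(l-w))` for `w < l`.

CLAIM.  For `d ≥ 1` and `a : ℕ` there is `C` such that for all `l` and `A ≥ 0` and every continuous
`f ≥ 0` with `f x ≤ A * Phi l a (wx x)` (all coordinates nonzero):
`∫ f ≤ C * A * 2^(-l) * (l+1)^(d-1)`.

Proof.  `integral_cell` with `Ψ = A * Phi l a`.  Split the sum over `w`: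
* `w = l + u`, `u ≥ 0`: `(l+u+1)^(d-1) ≤ (l+1)^(d-1) (1+u)^(d-1)`, `2^(-w) = 2^(-l) 2^(-u)`:
  the part is `≤ A 2^(-l) (l+1)^(d-1) Σ_u (1+u)^(d-1+a) 2^(-u/2)`, a convergent series.
* `w = l - v`, `1 ≤ v ≤ l`: `(w+1)^(d-1) ≤ (l+1)^(d-1)`, `2^(-w) = 2^(-l) 2^v`:
  the part is `≤ A 2^(-l) (l+1)^(d-1) Σ_v (1+v)^a 2^(-v)`.
(Summability: `w ↦ Psi w` term is bounded by a convergent series; use `Summable` of
`(1+u)^N * ρ^u`, `0 < ρ < 1`: `summable_pow_mul_geometric_of_norm_lt_one`.)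
Then the single level moments `moment_Ql`: `∫ (Ql l)^n ≤ C 2^((n-1) l) (l+1)^(d-1)` for `n ≥ 2`
(apply the claim to `f = (Ql l)^n`, `A = C^n 2^(nl)`, `a = n(d-1)`: for `w < l`,
`2^(n w) = 2^(nl) 2^(-n(l-w)) ≤ 2^(nl) 2^(-2(l-w))`).
-/

namespace MPcd65c1

open MeasureTheory

noncomputable def Phi (l a w : ℕ) : ℝ :=
  if l ≤ w then (1 + ((w : ℝ) - l)) ^ a * (2 : ℝ) ^ (((w : ℝ) - l) / 2)
  else (1 + ((l : ℝ) - w)) ^ a * ((2 : ℝ) ^ (2 * (l - w)))⁻¹

private lemma summable_gam {ρ : ℝ} (h0 : 0 < ρ) (h1 : ρ < 1) (N : ℕ) :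
    Summable (fun u : ℕ => (1 + (u : ℝ)) ^ N * ρ ^ u) := by
  have h := summable_pow_mul_geometric_of_norm_lt_one N (r := ρ)
    (by rw [Real.norm_eq_abs, abs_of_pos h0]; exact h1)
  have h2 := ((summable_nat_add_iff 1).2 h).mul_left (ρ⁻¹)
  refine h2.congr (fun i => ?_)
  push_cast
  rw [pow_succ, add_comm (i : ℝ) 1]
  field_simp

theorem cell_sum (d a : ℕ) (hd : 1 ≤ d) :
    ∃ C : ℝ, 0 < C ∧ ∀ (l : ℕ) (A : ℝ), 0 ≤ A → ∀ f : Td d → ℝ, Continuous f → (∀ x, 0 ≤ f x) →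
      (∀ x : Td d, (∀ j, x j ≠ 0) → f x ≤ A * Phi l a (wx x)) →
      ∫ x, f x ∂(mu d) ≤ C * A * ((2 : ℝ) ^ l)⁻¹ * ((l : ℝ) + 1) ^ (d - 1) := by
  set ρ : ℝ := (2 : ℝ) ^ (-(1 / 2 : ℝ)) with hρ
  have hρ0 : 0 < ρ := Real.rpow_pos_of_pos (by norm_num) _
  have hρ1 : ρ < 1 := Real.rpow_lt_one_of_one_lt_of_neg (by norm_num) (by norm_num)
  have hρ2 : (1 / 2 : ℝ) ≤ ρ := by
    have h1 : (1 / 2 : ℝ) = (2 : ℝ) ^ (-(1 : ℝ)) := by
      rw [Real.rpow_neg_one]; norm_num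
    rw [h1, hρ]
    exact Real.rpow_le_rpow_of_exponent_le (by norm_num) (by norm_num)
  have hρu : ∀ u : ℕ, (2 : ℝ) ^ ((u : ℝ) / 2) * ((2 : ℝ) ^ u)⁻¹ = ρ ^ u := by
    intro u
    rw [hρ, ← Real.rpow_natCast 2 u, ← Real.rpow_neg (by norm_num), ← Real.rpow_add (by norm_num),
      ← Real.rpow_natCast, ← Real.rpow_mul (by norm_num)]
    congr 1
    ring
  set N : ℕ := (d - 1) + a with hN
  set γ : ℕ → ℝ := fun u => (1 + (u : ℝ)) ^ N * ρ ^ u with hγ
  have hγs : Summable γ := summable_gam hρ0 hρ1 N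
  have hγ0 : ∀ u, 0 ≤ γ u := fun u => by simp only [hγ]; positivity
  set T : ℝ := ∑' u, γ u with hT
  have hT0 : 0 ≤ T := tsum_nonneg hγ0
  refine ⟨2 ^ d * (2 * T + 1), by positivity, ?_⟩
  intro l A hA f hf hf0 hfb
  have hPhi0 : ∀ w, 0 ≤ Phi l a w := by
    intro w
    unfold Phi
    split_ifs with h
    · have : (l : ℝ) ≤ w := by exact_mod_cast h
      have h2 : 0 ≤ (w : ℝ) - l := by linarith
      positivity
    · have : (w : ℝ) ≤ l := by exact_mod_cast (Nat.lt_of_not_le h).le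
      have h2 : 0 ≤ (l : ℝ) - w := by linarith
      positivity
  set K : ℝ := A * ((2 : ℝ) ^ l)⁻¹ * ((l : ℝ) + 1) ^ (d - 1) with hK
  have hK0 : 0 ≤ K := by positivity
  set F : ℕ → ℝ := fun w => ((w : ℝ) + 1) ^ (d - 1) * ((2 : ℝ) ^ w)⁻¹ * (A * Phi l a w) with hF
  have hF0 : ∀ w, 0 ≤ F w := fun w => by
    have := hPhi0 w
    simp only [hF]; positivity
  have hhigh : ∀ u : ℕ, F (u + l) ≤ K * γ u := by
    intro u
    have e1 : Phi l a (u + l) = (1 + (u : ℝ)) ^ a * (2 : ℝ) ^ ((u : ℝ) / 2) := by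
      unfold Phi
      rw [if_pos (by omega)]
      push_cast
      rw [add_sub_cancel_right]
    have e2 : (((u + l : ℕ) : ℝ) + 1) ^ (d - 1) ≤ ((l : ℝ) + 1) ^ (d - 1) * (1 + (u : ℝ)) ^ (d - 1) := by
      rw [← mul_pow]
      apply pow_le_pow_left₀ (by positivity)
      push_cast
      nlinarith [Nat.cast_nonneg (α := ℝ) u, Nat.cast_nonneg (α := ℝ) l,
        mul_nonneg (Nat.cast_nonneg (α := ℝ) u) (Nat.cast_nonneg (α := ℝ) l)]
    have e3 : ((2 : ℝ) ^ (u + l))⁻¹ = ((2 : ℝ) ^ u)⁻¹ * ((2 : ℝ) ^ l)⁻¹ := by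
      rw [pow_add, mul_inv]
    have e4 : γ u = (1 + (u : ℝ)) ^ (d - 1) * (1 + (u : ℝ)) ^ a *
        ((2 : ℝ) ^ ((u : ℝ) / 2) * ((2 : ℝ) ^ u)⁻¹) := by
      simp only [hγ, hN]
      rw [hρu u, pow_add]
    calc F (u + l) = (((u + l : ℕ) : ℝ) + 1) ^ (d - 1) * (((2 : ℝ) ^ (u + l))⁻¹ *
          (A * Phi l a (u + l))) := by simp only [hF]; ring
      _ ≤ (((l : ℝ) + 1) ^ (d - 1) * (1 + (u : ℝ)) ^ (d - 1)) * (((2 : ℝ) ^ (u + l))⁻¹ *
          (A * Phi l a (u + l))) :=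
          mul_le_mul_of_nonneg_right e2 (by have := hPhi0 (u + l); positivity)
      _ = K * γ u := by rw [e1, e3, e4, hK]; ring
  have hlow : ∀ w : ℕ, w < l → F w ≤ K * γ (l - w) := by
    intro w hw
    obtain ⟨v, rfl⟩ : ∃ v, l = w + v := ⟨l - w, by omega⟩
    have hv : 0 < v := by omega
    rw [Nat.add_sub_cancel_left]
    have e1 : Phi (w + v) a w = (1 + (v : ℝ)) ^ a * ((2 : ℝ) ^ (2 * v))⁻¹ := by
      unfold Phi
      rw [if_neg (by omega), Nat.add_sub_cancel_left]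
      push_cast
      rw [add_sub_cancel_left]
    have e2 : ((w : ℝ) + 1) ^ (d - 1) ≤ (((w + v : ℕ) : ℝ) + 1) ^ (d - 1) * (1 + (v : ℝ)) ^ (d - 1) := by
      rw [← mul_pow]
      apply pow_le_pow_left₀ (by positivity)
      push_cast
      nlinarith [Nat.cast_nonneg (α := ℝ) w, Nat.cast_nonneg (α := ℝ) v,
        mul_nonneg (Nat.cast_nonneg (α := ℝ) w) (Nat.cast_nonneg (α := ℝ) v),
        mul_nonneg (Nat.cast_nonneg (α := ℝ) v) (Nat.cast_nonneg (α := ℝ) v)]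
    have e3 : ((2 : ℝ) ^ w)⁻¹ * ((2 : ℝ) ^ (2 * v))⁻¹ ≤ ((2 : ℝ) ^ (w + v))⁻¹ * ρ ^ v := by
      have h1 : (1 / 2 : ℝ) ^ v ≤ ρ ^ v := pow_le_pow_left₀ (by norm_num) hρ2 v
      have h2 : ((2 : ℝ) ^ w)⁻¹ * ((2 : ℝ) ^ (2 * v))⁻¹ = ((2 : ℝ) ^ (w + v))⁻¹ * (1 / 2 : ℝ) ^ v := by
        rw [one_div, inv_pow, ← mul_inv, ← mul_inv, ← pow_add, ← pow_add]
        congr 2
        ring
      rw [h2]
      exact mul_le_mul_of_nonneg_left h1 (by positivity)
    have e4 : γ v = (1 + (v : ℝ)) ^ (d - 1) * (1 + (v : ℝ)) ^ a * ρ ^ v := by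
      simp only [hγ, hN]
      rw [pow_add]
    calc F w = ((w : ℝ) + 1) ^ (d - 1) * (A * (1 + (v : ℝ)) ^ a *
          (((2 : ℝ) ^ w)⁻¹ * ((2 : ℝ) ^ (2 * v))⁻¹)) := by
          simp only [hF]; rw [e1]; ring
      _ ≤ ((((w + v : ℕ) : ℝ) + 1) ^ (d - 1) * (1 + (v : ℝ)) ^ (d - 1)) * (A * (1 + (v : ℝ)) ^ a *
          (((2 : ℝ) ^ (w + v))⁻¹ * ρ ^ v)) := by
          apply mul_le_mul e2 _ (by positivity) (by positivity)
          exact mul_le_mul_of_nonneg_left e3 (by positivity)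
      _ = K * γ v := by rw [e4, hK]; ring
  have hFs : Summable F := by
    rw [← summable_nat_add_iff l]
    exact Summable.of_nonneg_of_le (fun u => hF0 _) hhigh (hγs.mul_left K)
  have hmain := integral_cell hd f hf hf0 (fun w => A * Phi l a w)
    (fun w => mul_nonneg hA (hPhi0 w)) hfb hFs
  have hsum : ∑' w, F w ≤ K * (2 * T) := by
    rw [← hFs.sum_add_tsum_nat_add l]
    have h1 : ∑ w ∈ Finset.range l, F w ≤ K * T := by
      calc ∑ w ∈ Finset.range l, F w ≤ ∑ w ∈ Finset.range l, K * γ (l - w) :=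
            Finset.sum_le_sum (fun w hw => hlow w (Finset.mem_range.1 hw))
        _ = K * ∑ w ∈ Finset.range l, γ (l - w) := by rw [Finset.mul_sum]
        _ ≤ K * T := by
            apply mul_le_mul_of_nonneg_left _ hK0
            have h2 : ∑ w ∈ Finset.range l, γ (l - w) = ∑ w ∈ Finset.range l, γ (w + 1) := by
              rw [← Finset.sum_range_reflect]
              apply Finset.sum_congr rfl
              intro w hw
              have := Finset.mem_range.1 hw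
              congr 1
              omega
            rw [h2]
            have h3 := (summable_nat_add_iff 1).2 hγs
            have h4 : ∑ w ∈ Finset.range l, γ (w + 1) ≤ ∑' w, γ (w + 1) :=
              h3.sum_le_tsum _ (fun i _ => hγ0 _)
            have h5 := hγs.sum_add_tsum_nat_add 1
            have h6 : 0 ≤ ∑ i ∈ Finset.range 1, γ i := Finset.sum_nonneg (fun i _ => hγ0 i)
            linarith
    have h2 : ∑' u, F (u + l) ≤ K * T := by
      rw [hT, ← tsum_mul_left]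
      exact ((summable_nat_add_iff l).2 hFs).tsum_le_tsum hhigh (hγs.mul_left K)
    linarith
  calc ∫ x, f x ∂(mu d) ≤ 2 ^ d * ∑' w, F w := hmain
    _ ≤ 2 ^ d * (K * (2 * T)) := mul_le_mul_of_nonneg_left hsum (by positivity)
    _ ≤ 2 ^ d * (K * (2 * T + 1)) := by
        apply mul_le_mul_of_nonneg_left _ (by positivity)
        exact mul_le_mul_of_nonneg_left (by linarith) hK0
    _ = _ := by rw [hK]; ring

theorem moment_Ql (d n : ℕ) (hd : 1 ≤ d) (hn : 2 ≤ n) :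
    ∃ C : ℝ, 0 < C ∧ ∀ l : ℕ,
      ∫ x, (Ql l x) ^ n ∂(mu d) ≤ C * (2 : ℝ) ^ ((n - 1) * l) * ((l : ℝ) + 1) ^ (d - 1) := by
  obtain ⟨C1, hC1, h1⟩ := Ql_le d hd
  obtain ⟨C2, hC2, h2⟩ := cell_sum d (n * (d - 1)) hd
  refine ⟨C2 * C1 ^ n, by positivity, fun l => ?_⟩
  have h3 := h2 l (C1 ^ n * (2 : ℝ) ^ (n * l)) (by positivity) (fun x => (Ql l x) ^ n)
    ((continuous_Ql l).pow n) (fun x => pow_nonneg (Ql_nonneg l x) n) (by
      intro x hx
      have h4 := h1 l x hx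
      have h5 : (Ql l x) ^ n ≤
          (C1 * (2 : ℝ) ^ (min l (wx x)) * (1 + dist1 (wx x) l) ^ (d - 1)) ^ n :=
        pow_le_pow_left₀ (Ql_nonneg l x) h4 n
      refine h5.trans ?_
      have e0 : (C1 * (2 : ℝ) ^ (min l (wx x)) * (1 + dist1 (wx x) l) ^ (d - 1)) ^ n =
          C1 ^ n * ((1 + dist1 (wx x) l) ^ (n * (d - 1)) * (2 : ℝ) ^ (n * min l (wx x))) := by
        rw [mul_pow, mul_pow, ← pow_mul, ← pow_mul, mul_comm (min l (wx x)) n,
          mul_comm (d - 1) n]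
        ring
      rw [e0, mul_assoc]
      apply mul_le_mul_of_nonneg_left _ (by positivity)
      unfold Phi dist1
      split_ifs with h
      · have hr : (l : ℝ) ≤ wx x := by exact_mod_cast h
        have h6 : 0 ≤ (wx x : ℝ) - l := by linarith
        rw [abs_of_nonneg h6, min_eq_left h]
        have h7 : (1 : ℝ) ≤ (2 : ℝ) ^ (((wx x : ℝ) - l) / 2) :=
          Real.one_le_rpow (by norm_num) (by linarith)
        have h8 : (0 : ℝ) ≤ (1 + ((wx x : ℝ) - l)) ^ (n * (d - 1)) := by positivity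
        calc (1 + ((wx x : ℝ) - l)) ^ (n * (d - 1)) * (2 : ℝ) ^ (n * l)
            = (2 : ℝ) ^ (n * l) * ((1 + ((wx x : ℝ) - l)) ^ (n * (d - 1)) * 1) := by ring
          _ ≤ _ := by
            apply mul_le_mul_of_nonneg_left _ (by positivity)
            exact mul_le_mul_of_nonneg_left h7 h8
      · have hlt : wx x < l := Nat.lt_of_not_le h
        have hr : (wx x : ℝ) ≤ l := by exact_mod_cast hlt.le
        have h6 : (wx x : ℝ) - l ≤ 0 := by linarith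
        rw [abs_of_nonpos h6, neg_sub, min_eq_right hlt.le]
        have h8 : (0 : ℝ) ≤ (1 + ((l : ℝ) - wx x)) ^ (n * (d - 1)) := by
          have : 0 ≤ (l : ℝ) - wx x := by linarith
          positivity
        have h9 : (2 : ℝ) ^ (n * wx x) ≤ (2 : ℝ) ^ (n * l) * ((2 : ℝ) ^ (2 * (l - wx x)))⁻¹ := by
          rw [le_mul_inv_iff₀ (by positivity), ← pow_add]
          apply pow_le_pow_right₀ (by norm_num)
          have h10 : 2 * (l - wx x) ≤ n * (l - wx x) := Nat.mul_le_mul_right _ hn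
          have h11 : n * wx x + n * (l - wx x) = n * l := by
            rw [← mul_add]
            congr 1
            omega
          omega
        calc (1 + ((l : ℝ) - wx x)) ^ (n * (d - 1)) * (2 : ℝ) ^ (n * wx x)
            ≤ (1 + ((l : ℝ) - wx x)) ^ (n * (d - 1)) *
              ((2 : ℝ) ^ (n * l) * ((2 : ℝ) ^ (2 * (l - wx x)))⁻¹) :=
              mul_le_mul_of_nonneg_left h9 h8
          _ = _ := by ring)
  refine h3.trans (le_of_eq ?_)
  have e1 : (2 : ℝ) ^ (n * l) = (2 : ℝ) ^ ((n - 1) * l) * (2 : ℝ) ^ l := by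
    rw [← pow_add]
    congr 1
    obtain ⟨m, rfl⟩ : ∃ m, n = m + 1 := ⟨n - 1, by omega⟩
    rw [Nat.add_sub_cancel]
    ring
  rw [e1]
  have h2l : (2 : ℝ) ^ l ≠ 0 := by positivity
  field_simp

end MPcd65c1
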