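import Pool.Agent.Lib.MP_cd65c1_an.KEl
import Pool.Agent.Lib.MP_cd65c1_an.KSum
import Pool.Agent.Lib.MP_cd65c1_an.KPt

/-!
# MP_cd65c1_an / KKey : the KEY exponential integral (about 100 lines)

`∫ Gt^2 exp(lam |Gt|) ≤ C 2^(-l0) kap` for `0 ≤ lam ≤ c0 (l0+1)/(Lv kap)`, `d ≥ 2`, `l0 ≤ l1 ≤ 2 l0 + 1`.

Proof.  `|Gt| ≤ F1` (`abs_Gt_le`).  Let `C1` be the constant of `lam_F1_le` and `c0 = (log 2)/(2 C1)`, so
`exp(lam |Gt|) ≤ 2^((1+u)/2)`, `u = (w-l0)_+`.  Hence with `w = wx x`: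
`w ≥ l0`: `Gt^2 exp ≤ C^2 (1+u)^(2d) 2^((1+u)/2) ≤ 2 C^2 Phi l0 (2d) w`;
`w < l0`: `Gt^2 exp ≤ C^2 4^(-(l0-w)) (1+l0-w)^(2(d-1)) 2^(1/2) ≤ 2 C^2 Phi l0 (2d) w`.
Apply `cell_sum` with `a = 2d`, `l = l0`, `A = 2C^2` to `f = Gt^2 exp(lam |Gt|)` (continuous).
-/

namespace MPcd65c1

open MeasureTheory

theorem key_integral (d : ℕ) (hd : 2 ≤ d) :
    ∃ c0 C : ℝ, 0 < c0 ∧ 0 < C ∧ ∀ (l0 l1 : ℕ) (lam : ℝ), l0 ≤ l1 → l1 ≤ 2 * l0 + 1 → 0 ≤ lam →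
      lam ≤ c0 * ((l0 : ℝ) + 1) / (Lv l0 l1 * kap d l0) →
      ∫ x : Td d, (Gt l0 l1 x) ^ 2 * Real.exp (lam * |Gt l0 l1 x|) ∂(mu d) ≤
        C * ((2 : ℝ) ^ l0)⁻¹ * kap d l0 := by
  obtain ⟨Ch, hCh, hhigh⟩ := F1_le_high d (by omega)
  obtain ⟨Cl, hCl, hlow⟩ := F1_le_low d (by omega)
  obtain ⟨C1, hC1, hlam⟩ := lam_F1_le d hd
  obtain ⟨Cs, hCs, hcell⟩ := cell_sum d (2 * d) (by omega)
  have hlog : 0 < Real.log 2 := Real.log_pos (by norm_num)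
  refine ⟨Real.log 2 / (2 * C1), Cs * (2 * (Ch + Cl) ^ 2), by positivity, by positivity, ?_⟩
  intro l0 l1 lam h01 h10 hlam0 hlam1
  have hkey := hcell l0 (2 * (Ch + Cl) ^ 2) (by positivity)
    (fun x : Td d => (Gt l0 l1 x) ^ 2 * Real.exp (lam * |Gt l0 l1 x|))
    (by
      have hc : Continuous (Gt l0 l1 : Td d → ℝ) := continuous_Gt l0 l1
      exact (hc.pow 2).mul (Real.continuous_exp.comp (continuous_const.mul hc.abs)))
    (fun x => by positivity) ?_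
  · simp only [kap]
    exact hkey
  intro x hx
  have hG : |Gt l0 l1 x| ≤ F1 l0 l1 x := abs_Gt_le l0 l1 x
  have hG0 : 0 ≤ |Gt l0 l1 x| := abs_nonneg _
  have hF := hlam (Real.log 2 / (2 * C1)) l0 l1 x lam (by positivity) h01 h10 hx hlam0 hlam1
  have hc : Real.log 2 / (2 * C1) * C1 = Real.log 2 / 2 := by field_simp
  rw [hc] at hF
  have hexp : Real.exp (lam * |Gt l0 l1 x|) ≤
      (2 : ℝ) ^ ((1 / 2 : ℝ) + ((wx x - l0 : ℕ) : ℝ) / 2) := by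
    rw [Real.rpow_def_of_pos (by norm_num : (0 : ℝ) < 2)]
    apply Real.exp_le_exp.mpr
    calc lam * |Gt l0 l1 x| ≤ lam * F1 l0 l1 x := mul_le_mul_of_nonneg_left hG hlam0
      _ ≤ _ := hF
      _ = _ := by ring
  have hroot : (2 : ℝ) ^ (1 / 2 : ℝ) ≤ 2 := by
    calc (2 : ℝ) ^ (1 / 2 : ℝ) ≤ (2 : ℝ) ^ (1 : ℝ) :=
          Real.rpow_le_rpow_of_exponent_le (by norm_num) (by norm_num)
      _ = 2 := Real.rpow_one 2
  have hsq : (Gt l0 l1 x) ^ 2 = |Gt l0 l1 x| ^ 2 := (sq_abs _).symm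
  rw [hsq]
  rcases le_or_gt l0 (wx x) with hw | hw
  · have h1 := hhigh l0 l1 x h01 hx hw
    have hcast : ((wx x - l0 : ℕ) : ℝ) = (wx x : ℝ) - l0 := by
      rw [Nat.cast_sub hw]
    rw [hcast] at hexp
    have hu : 0 ≤ (wx x : ℝ) - l0 := by
      have : (l0 : ℝ) ≤ wx x := by exact_mod_cast hw
      linarith
    rw [Phi, if_pos hw]
    rw [Real.rpow_add (by norm_num : (0 : ℝ) < 2)] at hexp
    have h2 : |Gt l0 l1 x| ^ 2 ≤ (Ch + Cl) ^ 2 * (1 + ((wx x : ℝ) - l0)) ^ (2 * d) := by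
      calc |Gt l0 l1 x| ^ 2 ≤ (Ch * (1 + ((wx x : ℝ) - l0)) ^ d) ^ 2 :=
            pow_le_pow_left₀ hG0 (hG.trans h1) 2
        _ = Ch ^ 2 * (1 + ((wx x : ℝ) - l0)) ^ (2 * d) := by rw [mul_pow, ← pow_mul, mul_comm d 2]
        _ ≤ _ := by
            apply mul_le_mul_of_nonneg_right _ (by positivity)
            exact pow_le_pow_left₀ hCh.le (by linarith) 2
    calc |Gt l0 l1 x| ^ 2 * Real.exp (lam * |Gt l0 l1 x|)
        ≤ ((Ch + Cl) ^ 2 * (1 + ((wx x : ℝ) - l0)) ^ (2 * d)) *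
            ((2 : ℝ) ^ (1 / 2 : ℝ) * (2 : ℝ) ^ (((wx x : ℝ) - l0) / 2)) :=
          mul_le_mul h2 hexp (Real.exp_pos _).le (by positivity)
      _ ≤ ((Ch + Cl) ^ 2 * (1 + ((wx x : ℝ) - l0)) ^ (2 * d)) *
            (2 * (2 : ℝ) ^ (((wx x : ℝ) - l0) / 2)) := by
          apply mul_le_mul_of_nonneg_left _ (by positivity)
          exact mul_le_mul_of_nonneg_right hroot (by positivity)
      _ = _ := by ring
  · have h1 := hlow l0 l1 x h01 hx hw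
    have hcast : ((wx x - l0 : ℕ) : ℝ) = 0 := by
      rw [Nat.sub_eq_zero_of_le hw.le]; simp
    rw [hcast] at hexp
    simp only [zero_div, add_zero] at hexp
    have hu : 0 ≤ (l0 : ℝ) - wx x := by
      have : (wx x : ℝ) ≤ l0 := by exact_mod_cast hw.le
      linarith
    rw [Phi, if_neg (by omega)]
    have h2 : |Gt l0 l1 x| ^ 2 ≤
        (Ch + Cl) ^ 2 * (((2 : ℝ) ^ (2 * (l0 - wx x)))⁻¹ * (1 + ((l0 : ℝ) - wx x)) ^ (2 * d)) := by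
      calc |Gt l0 l1 x| ^ 2
          ≤ (Cl * ((2 : ℝ) ^ (l0 - wx x))⁻¹ * (1 + ((l0 : ℝ) - wx x)) ^ (d - 1)) ^ 2 :=
            pow_le_pow_left₀ hG0 (hG.trans h1) 2
        _ = Cl ^ 2 * (((2 : ℝ) ^ (2 * (l0 - wx x)))⁻¹ *
              (1 + ((l0 : ℝ) - wx x)) ^ (2 * (d - 1))) := by
            rw [mul_pow, mul_pow, inv_pow, ← pow_mul, ← pow_mul, mul_comm (l0 - wx x) 2,
              mul_comm (d - 1) 2]
            ring
        _ ≤ _ := by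
            apply mul_le_mul
            · exact pow_le_pow_left₀ hCl.le (by linarith) 2
            · apply mul_le_mul_of_nonneg_left _ (by positivity)
              exact pow_le_pow_right₀ (by linarith) (by omega)
            · positivity
            · positivity
    calc |Gt l0 l1 x| ^ 2 * Real.exp (lam * |Gt l0 l1 x|)
        ≤ ((Ch + Cl) ^ 2 * (((2 : ℝ) ^ (2 * (l0 - wx x)))⁻¹ *
            (1 + ((l0 : ℝ) - wx x)) ^ (2 * d))) * 2 :=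
          mul_le_mul h2 (hexp.trans hroot) (Real.exp_pos _).le (by positivity)
      _ = _ := by ring

end MPcd65c1
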