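import Pool.Agent.Lib.MP_cd65c1_an.KEl
import Pool.Agent.Lib.MP_cd65c1_an.KSum
import Pool.Agent.Lib.MP_cd65c1_an.APars

/-!
# MP_cd65c1_an / KMom : moments of the companion kernel (about 130 lines)

`∫ Et^(2j) ≤ C Lv kap 2^((j-1) l1)` for `j ≥ 1`, `r ≥ 0`, `l0 ≤ l1 ≤ 2 l0 + 1`.

`j = 1`: Parseval (`Et_eq_tp`, `integral_norm_sq_tp`): `∫ Et^2 = Σ_l Σ_{k ∈ Lam l} 2^(-l) |wt|^2
≤ Σ_l 2^(-l) #Lam l = Σ_l #S_l ≤ Lv (l1+1)^(d-1) ≤ 2^(d-1) Lv kap` (`norm_wt_le`, `card_Lam`, `card_adt_le`;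
the sets `Lam d l` are disjoint).

`j ≥ 2`: `|Et| ≤ Σ_l a_l`, `a_l = 2^(-l/2) Ql l` (`abs_Et_le`).  Put `θ_l = 2^(-(l1-l)/4)`,
`Θ = Σ_l θ_l ≤ C`.  Convexity (Jensen for `t^(2j)` with weights `θ_l/Θ`, `inner_le_nnorm_mul_nnorm` or
`Real.inner_le_Lp_mul_Lq`, or `ConvexOn.map_sum_le`):
`(Σ a_l)^(2j) ≤ Θ^(2j-1) Σ_l θ_l^(1-2j) a_l^(2j)`.
With `moment_Ql` (`n = 2j`): `∫ a_l^(2j) ≤ C 2^(-jl) 2^((2j-1)l) (l+1)^(d-1) = C 2^((j-1)l) (l+1)^(d-1)`, so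
`∫ Et^(2j) ≤ C Σ_l 2^((2j-1)(l1-l)/4) 2^((j-1)l) (l1+1)^(d-1)
 = C 2^((j-1)l1) (l1+1)^(d-1) Σ_l 2^(-((j-1)-(2j-1)/4)(l1-l))`, and `(j-1)-(2j-1)/4 = (2j-3)/4 ≥ 1/4`.
Finally `(l1+1)^(d-1) ≤ 2^(d-1) kap` and `1 ≤ Lv`.
-/

namespace MPcd65c1

open MeasureTheory

private lemma adt_bounds (d : ℕ) (hd : 1 ≤ d) (l0 l1 l : ℕ) (h1 : l ≤ l1) (h2 : l1 ≤ 2 * l0 + 1) :
    ((Finset.Nat.antidiagonalTuple d l).card : ℝ) ≤ 2 ^ (d - 1) * kap d l0 := by
  have h3 : ((Finset.Nat.antidiagonalTuple d l).card : ℝ) ≤ ((l : ℝ) + 1) ^ (d - 1) := by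
    exact_mod_cast card_adt_le d l hd
  refine h3.trans ?_
  unfold kap
  rw [← mul_pow]
  apply pow_le_pow_left₀ (by positivity)
  have h4 : (l : ℝ) ≤ 2 * l0 + 1 := by exact_mod_cast h1.trans h2
  linarith

private lemma kap_nonneg' (d l0 : ℕ) : 0 ≤ kap d l0 := by unfold kap; positivity

private lemma Lv_card (l0 l1 : ℕ) (h : l0 ≤ l1) : ((Finset.Icc l0 l1).card : ℝ) = Lv l0 l1 := by
  rw [Nat.card_Icc, Nat.cast_sub (by omega)]
  unfold Lv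
  push_cast
  ring

private lemma one_le_Lv (l0 l1 : ℕ) (h : l0 ≤ l1) : 1 ≤ Lv l0 l1 := by
  unfold Lv
  have : (l0 : ℝ) ≤ l1 := by exact_mod_cast h
  linarith

private lemma moment_one (d : ℕ) (hd : 1 ≤ d) (r : ℝ) (hr : 0 ≤ r) (σ : ℝ) (l0 l1 : ℕ)
    (h01 : l0 ≤ l1) (h10 : l1 ≤ 2 * l0 + 1) :
    ∫ x : Td d, (Et r σ l0 l1 x) ^ 2 ∂(mu d) ≤ 2 ^ (d - 1) * Lv l0 l1 * kap d l0 := by
  classical
  set U : Finset (Fin d → ℤ) := (Finset.Icc l0 l1).biUnion (Lam d) with hU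
  set c : CV d := fun k => (((2 : ℝ) ^ ((lev k : ℝ) / 2))⁻¹ : ℝ) * wtd r σ k with hc
  have e1 : ∀ x : Td d, (Et r σ l0 l1 x) ^ 2 = ‖tp U c x‖ ^ 2 := by
    intro x
    rw [← Et_eq_tp r σ l0 l1 x, Complex.norm_real, Real.norm_eq_abs, sq_abs]
  calc ∫ x : Td d, (Et r σ l0 l1 x) ^ 2 ∂(mu d) = ∫ x : Td d, ‖tp U c x‖ ^ 2 ∂(mu d) := by
        simp only [e1]
    _ = ∑ k ∈ U, ‖c k‖ ^ 2 := integral_norm_sq_tp U c
    _ ≤ ∑ k ∈ U, ((2 : ℝ) ^ (lev k))⁻¹ := by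
        apply Finset.sum_le_sum
        intro k _
        have h1 : ‖wtd r σ k‖ ≤ 1 := by
          unfold wtd
          rw [norm_prod]
          exact Finset.prod_le_one (fun j _ => norm_nonneg _) (fun j _ => norm_wt_le hr σ _)
        have h2 : ‖c k‖ = ((2 : ℝ) ^ ((lev k : ℝ) / 2))⁻¹ * ‖wtd r σ k‖ := by
          simp only [hc]
          rw [norm_mul, Complex.norm_real, Real.norm_of_nonneg (by positivity)]
        have h3 : (((2 : ℝ) ^ ((lev k : ℝ) / 2))⁻¹) ^ 2 = ((2 : ℝ) ^ (lev k))⁻¹ := by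
          rw [inv_pow, ← Real.rpow_natCast ((2 : ℝ) ^ ((lev k : ℝ) / 2)) 2,
            ← Real.rpow_mul (by norm_num), ← Real.rpow_natCast 2 (lev k)]
          congr 2
          push_cast
          ring
        rw [h2, mul_pow, h3]
        have h4 : ‖wtd r σ k‖ ^ 2 ≤ 1 := pow_le_one₀ (norm_nonneg _) h1
        calc ((2 : ℝ) ^ (lev k))⁻¹ * ‖wtd r σ k‖ ^ 2 ≤ ((2 : ℝ) ^ (lev k))⁻¹ * 1 :=
              mul_le_mul_of_nonneg_left h4 (by positivity)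
          _ = _ := mul_one _
    _ = ∑ l ∈ Finset.Icc l0 l1, ∑ k ∈ Lam d l, ((2 : ℝ) ^ (lev k))⁻¹ := by
        rw [hU, Finset.sum_biUnion]
        intro a _ b _ hab
        rw [Function.onFun, Finset.disjoint_left]
        intro k hk hk'
        rw [mem_Lam] at hk hk'
        exact hab (hk.symm.trans hk')
    _ = ∑ l ∈ Finset.Icc l0 l1, ((Finset.Nat.antidiagonalTuple d l).card : ℝ) := by
        apply Finset.sum_congr rfl
        intro l _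
        have h5 : ∑ k ∈ Lam d l, ((2 : ℝ) ^ (lev k))⁻¹ = ∑ k ∈ Lam d l, ((2 : ℝ) ^ l)⁻¹ := by
          apply Finset.sum_congr rfl
          intro k hk
          rw [(mem_Lam d l k).1 hk]
        rw [h5, Finset.sum_const, nsmul_eq_mul, card_Lam]
        push_cast
        field_simp
    _ ≤ ∑ l ∈ Finset.Icc l0 l1, 2 ^ (d - 1) * kap d l0 :=
        Finset.sum_le_sum (fun l hl =>
          adt_bounds d hd l0 l1 l (Finset.mem_Icc.1 hl).2 h10)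
    _ = _ := by
        rw [Finset.sum_const, nsmul_eq_mul, Lv_card l0 l1 h01]
        ring

private lemma moment_two (d : ℕ) (hd : 1 ≤ d) (r : ℝ) (hr : 0 ≤ r) (j : ℕ) (hj : 2 ≤ j) :
    ∃ C : ℝ, 0 < C ∧ ∀ (σ : ℝ) (l0 l1 : ℕ), l0 ≤ l1 → l1 ≤ 2 * l0 + 1 →
      ∫ x : Td d, (Et r σ l0 l1 x) ^ (2 * j) ∂(mu d) ≤
        C * Lv l0 l1 * kap d l0 * (2 : ℝ) ^ ((j - 1) * l1) := by
  obtain ⟨C, hC, hM⟩ := moment_Ql d (2 * j) hd (by omega)
  set β : ℝ := (2 : ℝ) ^ (1 / 4 : ℝ) with hβ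
  have hβ0 : 0 < β := Real.rpow_pos_of_pos (by norm_num) _
  have hβ1 : 1 < β := Real.one_lt_rpow (by norm_num) (by norm_num)
  have hβ4 : β ^ 4 = 2 := by
    rw [hβ, ← Real.rpow_natCast, ← Real.rpow_mul (by norm_num)]
    norm_num
  have hβh : ∀ l : ℕ, (2 : ℝ) ^ ((l : ℝ) / 2) = β ^ (2 * l) := by
    intro l
    rw [hβ, ← Real.rpow_natCast, ← Real.rpow_mul (by norm_num)]
    congr 1
    push_cast
    ring
  have hinv0 : 0 < β⁻¹ := inv_pos.2 hβ0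
  have hinv1 : β⁻¹ < 1 := inv_lt_one_of_one_lt₀ hβ1
  set T : ℝ := ∑' u : ℕ, (β⁻¹) ^ u with hT
  have hTs : Summable (fun u : ℕ => (β⁻¹) ^ u) :=
    summable_geometric_of_lt_one hinv0.le hinv1
  have hT0 : 0 ≤ T := tsum_nonneg (fun u => by positivity)
  refine ⟨C * (T + 1) ^ (2 * j) * 2 ^ (d - 1), by positivity, ?_⟩
  intro σ l0 l1 h01 h10
  set θ : ℕ → ℝ := fun l => (β⁻¹) ^ (l1 - l) with hθ
  have hθ0 : ∀ l, 0 < θ l := fun l => by simp only [hθ]; positivity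
  set Θ : ℝ := ∑ l ∈ Finset.Icc l0 l1, θ l with hΘ
  have hΘ1 : 1 ≤ Θ := by
    have h1 : θ l1 ≤ Θ := Finset.single_le_sum (fun l _ => (hθ0 l).le)
      (Finset.mem_Icc.2 ⟨h01, le_refl _⟩)
    have h2 : θ l1 = 1 := by simp [hθ]
    linarith
  have hΘ0 : 0 < Θ := by linarith
  have hΘT : Θ ≤ T := by
    have h1 : Θ = ∑ u ∈ (Finset.Icc l0 l1).image (fun l => l1 - l), (β⁻¹) ^ u := by
      rw [Finset.sum_image]
      intro a ha b hb hab
      have ha' := (Finset.mem_Icc.1 (Finset.mem_coe.1 ha)).2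
      have hb' := (Finset.mem_Icc.1 (Finset.mem_coe.1 hb)).2
      simp only at hab
      omega
    rw [h1]
    exact hTs.sum_le_tsum _ (fun u _ => by positivity)
  set a : ℕ → Td d → ℝ := fun l x => ((2 : ℝ) ^ ((l : ℝ) / 2))⁻¹ * Ql l x with ha
  have ha0 : ∀ l x, 0 ≤ a l x := fun l x => by
    have := Ql_nonneg l x
    simp only [ha]; positivity
  have hpt : ∀ x : Td d, (Et r σ l0 l1 x) ^ (2 * j) ≤
      ∑ l ∈ Finset.Icc l0 l1, θ l / Θ * (a l x * (Θ / θ l)) ^ (2 * j) := by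
    intro x
    have h1 : (Et r σ l0 l1 x) ^ (2 * j) = |Et r σ l0 l1 x| ^ (2 * j) := by
      rw [pow_mul, pow_mul, sq_abs]
    rw [h1]
    have h2 : |Et r σ l0 l1 x| ≤ ∑ l ∈ Finset.Icc l0 l1, a l x := abs_Et_le hr σ l0 l1 x
    have h3 : ∑ l ∈ Finset.Icc l0 l1, a l x =
        ∑ l ∈ Finset.Icc l0 l1, θ l / Θ * (a l x * (Θ / θ l)) := by
      apply Finset.sum_congr rfl
      intro l _
      have := (hθ0 l).ne'
      have := hΘ0.ne'
      field_simp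
    calc |Et r σ l0 l1 x| ^ (2 * j) ≤ (∑ l ∈ Finset.Icc l0 l1, a l x) ^ (2 * j) :=
          pow_le_pow_left₀ (abs_nonneg _) h2 _
      _ = (∑ l ∈ Finset.Icc l0 l1, θ l / Θ * (a l x * (Θ / θ l))) ^ (2 * j) := by rw [h3]
      _ ≤ _ := by
          apply Real.pow_arith_mean_le_arith_mean_pow
          · intro l _
            have := (hθ0 l).le
            positivity
          · rw [← Finset.sum_div, ← hΘ, div_self hΘ0.ne']
          · intro l _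
            have := (hθ0 l).le
            have := ha0 l x
            positivity
  have hcont : ∀ l, Continuous (fun x : Td d => θ l / Θ * (a l x * (Θ / θ l)) ^ (2 * j)) := by
    intro l
    exact continuous_const.mul (((continuous_const.mul (continuous_Ql l)).mul
      continuous_const).pow _)
  have hint : ∀ l, Integrable (fun x : Td d => θ l / Θ * (a l x * (Θ / θ l)) ^ (2 * j)) (mu d) :=
    fun l => (hcont l).integrable_of_hasCompactSupport (HasCompactSupport.of_compactSpace _)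
  have hterm : ∀ l ∈ Finset.Icc l0 l1,
      ∫ x : Td d, θ l / Θ * (a l x * (Θ / θ l)) ^ (2 * j) ∂(mu d) ≤
        C * Θ ^ (2 * j) * (2 ^ (d - 1) * kap d l0) * (2 : ℝ) ^ ((j - 1) * l1) * (θ l / Θ) := by
    intro l hl
    have hl1 := (Finset.mem_Icc.1 hl).2
    have e1 : ∀ x : Td d, θ l / Θ * (a l x * (Θ / θ l)) ^ (2 * j) =
        (θ l / Θ * ((β ^ (2 * l))⁻¹ * (Θ / θ l)) ^ (2 * j)) * (Ql l x) ^ (2 * j) := by
      intro x
      simp only [ha]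
      rw [hβh l]
      rw [show (β ^ (2 * l))⁻¹ * Ql l x * (Θ / θ l) = (β ^ (2 * l))⁻¹ * (Θ / θ l) * Ql l x by ring,
        mul_pow _ (Ql l x)]
      ring
    simp only [e1]
    rw [integral_const_mul]
    have h1 := hM l
    have hpos : 0 ≤ θ l / Θ * ((β ^ (2 * l))⁻¹ * (Θ / θ l)) ^ (2 * j) := by
      have := (hθ0 l).le
      positivity
    refine (mul_le_mul_of_nonneg_left h1 hpos).trans ?_
    have h2 : ((l : ℝ) + 1) ^ (d - 1) ≤ 2 ^ (d - 1) * kap d l0 := by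
      unfold kap
      rw [← mul_pow]
      apply pow_le_pow_left₀ (by positivity)
      have h4 : (l : ℝ) ≤ 2 * l0 + 1 := by exact_mod_cast hl1.trans h10
      linarith
    have hkap := kap_nonneg' d l0
    obtain ⟨u, hu⟩ : ∃ u, l1 = l + u := ⟨l1 - l, by omega⟩
    have hθl : θ l = (β ^ u)⁻¹ := by
      simp only [hθ]
      rw [hu, Nat.add_sub_cancel_left, inv_pow]
    have key : ((β ^ (2 * l))⁻¹ * (1 / θ l)) ^ (2 * j) * (2 : ℝ) ^ ((2 * j - 1) * l) ≤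
        (2 : ℝ) ^ ((j - 1) * l1) := by
      rw [hθl, one_div, inv_inv, mul_pow, inv_pow, ← pow_mul, ← pow_mul, ← hβ4, ← pow_mul, ← pow_mul,
        hu]
      obtain ⟨i, rfl⟩ : ∃ i, j = i + 2 := ⟨j - 2, by omega⟩
      rw [mul_assoc, ← pow_add, inv_mul_le_iff₀ (by positivity), ← pow_add]
      apply pow_le_pow_right₀ hβ1.le
      have e1 : 2 * (i + 2) - 1 = 2 * i + 3 := by omega
      have e2 : i + 2 - 1 = i + 1 := by omega
      rw [e1, e2]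
      nlinarith [Nat.zero_le (u * i), Nat.zero_le (l * i), Nat.zero_le u, Nat.zero_le l]
    have hfin : θ l / Θ * ((β ^ (2 * l))⁻¹ * (Θ / θ l)) ^ (2 * j) *
        (C * (2 : ℝ) ^ ((2 * j - 1) * l) * ((l : ℝ) + 1) ^ (d - 1)) =
        (C * Θ ^ (2 * j) * (θ l / Θ)) * ((((β ^ (2 * l))⁻¹ * (1 / θ l)) ^ (2 * j) *
          (2 : ℝ) ^ ((2 * j - 1) * l)) * ((l : ℝ) + 1) ^ (d - 1)) := by
      rw [show (β ^ (2 * l))⁻¹ * (Θ / θ l) = Θ * ((β ^ (2 * l))⁻¹ * (1 / θ l)) by ring, mul_pow Θ]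
      ring
    rw [hfin]
    have hθn := (hθ0 l).le
    calc (C * Θ ^ (2 * j) * (θ l / Θ)) * ((((β ^ (2 * l))⁻¹ * (1 / θ l)) ^ (2 * j) *
          (2 : ℝ) ^ ((2 * j - 1) * l)) * ((l : ℝ) + 1) ^ (d - 1))
        ≤ (C * Θ ^ (2 * j) * (θ l / Θ)) * ((2 : ℝ) ^ ((j - 1) * l1) * (2 ^ (d - 1) * kap d l0)) := by
          apply mul_le_mul_of_nonneg_left _ (by positivity)
          exact mul_le_mul key h2 (by positivity) (by positivity)
      _ = _ := by ring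
  have hEint : Integrable (fun x : Td d => (Et r σ l0 l1 x) ^ (2 * j)) (mu d) :=
    ((continuous_Et r σ l0 l1).pow _).integrable_of_hasCompactSupport
      (HasCompactSupport.of_compactSpace _)
  have hkap := kap_nonneg' d l0
  have hLv := one_le_Lv l0 l1 h01
  calc ∫ x : Td d, (Et r σ l0 l1 x) ^ (2 * j) ∂(mu d)
      ≤ ∫ x : Td d, ∑ l ∈ Finset.Icc l0 l1, θ l / Θ * (a l x * (Θ / θ l)) ^ (2 * j) ∂(mu d) :=
        integral_mono hEint (integrable_finsetSum _ (fun l _ => hint l)) hpt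
    _ = ∑ l ∈ Finset.Icc l0 l1, ∫ x : Td d, θ l / Θ * (a l x * (Θ / θ l)) ^ (2 * j) ∂(mu d) :=
        integral_finsetSum _ (fun l _ => hint l)
    _ ≤ ∑ l ∈ Finset.Icc l0 l1,
        C * Θ ^ (2 * j) * (2 ^ (d - 1) * kap d l0) * (2 : ℝ) ^ ((j - 1) * l1) * (θ l / Θ) :=
        Finset.sum_le_sum hterm
    _ = C * Θ ^ (2 * j) * (2 ^ (d - 1) * kap d l0) * (2 : ℝ) ^ ((j - 1) * l1) := by
        rw [← Finset.mul_sum, ← Finset.sum_div, ← hΘ, div_self hΘ0.ne', mul_one]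
    _ ≤ C * (T + 1) ^ (2 * j) * (2 ^ (d - 1) * kap d l0) * (2 : ℝ) ^ ((j - 1) * l1) := by
        have h1 : Θ ^ (2 * j) ≤ (T + 1) ^ (2 * j) :=
          pow_le_pow_left₀ hΘ0.le (by linarith) _
        apply mul_le_mul_of_nonneg_right _ (by positivity)
        apply mul_le_mul_of_nonneg_right _ (by positivity)
        exact mul_le_mul_of_nonneg_left h1 hC.le
    _ = (C * (T + 1) ^ (2 * j) * 2 ^ (d - 1)) * 1 * kap d l0 * (2 : ℝ) ^ ((j - 1) * l1) := by ring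
    _ ≤ _ := by
        apply mul_le_mul_of_nonneg_right _ (by positivity)
        apply mul_le_mul_of_nonneg_right _ hkap
        exact mul_le_mul_of_nonneg_left hLv (by positivity)

theorem moment_Et (d : ℕ) (hd : 1 ≤ d) (r : ℝ) (hr : 0 ≤ r) (j : ℕ) (hj : 1 ≤ j) :
    ∃ C : ℝ, 0 < C ∧ ∀ (σ : ℝ) (l0 l1 : ℕ), l0 ≤ l1 → l1 ≤ 2 * l0 + 1 →
      ∫ x : Td d, (Et r σ l0 l1 x) ^ (2 * j) ∂(mu d) ≤
        C * Lv l0 l1 * kap d l0 * (2 : ℝ) ^ ((j - 1) * l1) := by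
  rcases Nat.lt_or_ge 1 j with h | h
  · exact moment_two d hd r hr j h
  · obtain rfl : j = 1 := by omega
    refine ⟨2 ^ (d - 1), by positivity, fun σ l0 l1 h01 h10 => ?_⟩
    have h1 := moment_one d hd r hr σ l0 l1 h01 h10
    simpa using h1

/-- `Gt 0` is of order `Lv * kap` -/
theorem Gt_zero_bounds (d : ℕ) (hd : 1 ≤ d) :
    ∃ c C : ℝ, 0 < c ∧ 0 < C ∧ ∀ l0 l1 : ℕ, l0 ≤ l1 → l1 ≤ 2 * l0 + 1 →
      c * Lv l0 l1 * kap d l0 ≤ Gt l0 l1 (0 : Td d) ∧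
      Gt l0 l1 (0 : Td d) ≤ C * Lv l0 l1 * kap d l0 := by
  refine ⟨(((d - 1).factorial : ℕ) : ℝ)⁻¹, 2 ^ (d - 1), by positivity, by positivity, ?_⟩
  intro l0 l1 h01 h10
  rw [Gt_zero]
  constructor
  · calc (((d - 1).factorial : ℕ) : ℝ)⁻¹ * Lv l0 l1 * kap d l0
        = ∑ l ∈ Finset.Icc l0 l1, (((d - 1).factorial : ℕ) : ℝ)⁻¹ * kap d l0 := by
          rw [Finset.sum_const, nsmul_eq_mul, Lv_card l0 l1 h01]
          ring
      _ ≤ _ := by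
          apply Finset.sum_le_sum
          intro l hl
          have hl0 := (Finset.mem_Icc.1 hl).1
          have h1 : ((l : ℝ) + 1) ^ (d - 1) ≤
              (((d - 1).factorial : ℕ) : ℝ) * ((Finset.Nat.antidiagonalTuple d l).card : ℝ) := by
            exact_mod_cast card_adt_ge d l hd
          rw [inv_mul_le_iff₀ (by positivity)]
          refine le_trans ?_ h1
          unfold kap
          apply pow_le_pow_left₀ (by positivity)
          have : (l0 : ℝ) ≤ l := by exact_mod_cast hl0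
          linarith
  · calc ∑ l ∈ Finset.Icc l0 l1, ((Finset.Nat.antidiagonalTuple d l).card : ℝ)
        ≤ ∑ l ∈ Finset.Icc l0 l1, 2 ^ (d - 1) * kap d l0 :=
          Finset.sum_le_sum (fun l hl => adt_bounds d hd l0 l1 l (Finset.mem_Icc.1 hl).2 h10)
      _ = _ := by
          rw [Finset.sum_const, nsmul_eq_mul, Lv_card l0 l1 h01]
          ring

end MPcd65c1
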