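import Pool.Agent.Lib.MP_cd65c1_an.CCode
import Pool.Agent.Lib.MP_cd65c1_an.CMom
import Pool.Agent.Lib.MP_cd65c1_an.KKey
import Pool.Agent.Lib.MP_cd65c1_an.KMom
import Pool.Agent.Lib.MP_cd65c1_an.ANrm

/-!
# MP_cd65c1_an / CApp : the coding lemma for `Gt`, `Et` (about 150 lines)

Let `κ = kap d l0`, `Λ = Lv l0 l1 ≥ 1`.  `key_integral` gives `c0, C2`; `Gt_zero_bounds` gives `c1`.
Take `lam = c0 (l0+1)/(Λ κ)`, `V = C2 2^(-l0) κ`, `L = lam Gt(0) ≥ c0 c1 (l0+1) ≥ 67` for `l0 ≥ L0`.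
`16 n lam^2 V ≤ lam Gt(0)` follows from `16 n lam V ≤ c1 Λ κ`, i.e. from
`n ≤ (c1/(16 c0 C2)) 2^l0 Λ^2 κ/(l0+1)`: put `η = c1/(16 c0 C2)`.
MOMENTS: `τ = sqrt(n Λ κ)`, `n0 = n`; by `moment_Et` and `2^l1 ≤ n κ`, `Λ ≥ 1`:
`∫ Et^(2j) ≤ Cj Λ κ 2^((j-1) l1) ≤ Cj Λ κ (n κ)^(j-1) ≤ Cj (n Λ κ)^j / n = Cj τ^(2j)/n`.
`moments` gives `∫_I (Ssum Et I x)^(2m) ≤ K τ^(2m)` for all `x`, so (Fubini, continuity)
`∫_I ∫_x ≤ D := K τ^(2m)`.  `coding` gives `S` with `exp(nL/16)/8` elements; `nL/32 ≥ log 8`, so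
`S.card ≥ exp(nL/32) ≥ exp(c n (l0+1))`, `c = c0 c1/32`.
`nrm (2m) (Ssum Et I)^(2m) = ∫ (Ssum Et I)^(2m) ≤ 8 K τ^(2m)` (`nrm_even_pow`), so
`nrm ≤ (8K)^(1/(2m)) τ ≤ max 1 (8K) * τ`.
-/

namespace MPcd65c1

open MeasureTheory
open scoped ENNReal

private theorem kap_ge_one (d l0 : ℕ) : 1 ≤ kap d l0 := by
  unfold kap
  exact one_le_pow₀ (by have : (0 : ℝ) ≤ (l0 : ℝ) := Nat.cast_nonneg _; linarith)

private theorem Lv_ge_one {l0 l1 : ℕ} (h : l0 ≤ l1) : 1 ≤ Lv l0 l1 := by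
  unfold Lv
  have : (l0 : ℝ) ≤ l1 := by exact_mod_cast h
  linarith

/-- double integral of the even moments -/
private theorem double_le {d n : ℕ} (E : Td d → ℝ) (hE : Continuous E) (m : ℕ) (B : ℝ)
    (h : ∀ x : Td d, ∫ I, (Ssum E I x) ^ (2 * m) ∂(nuI d n) ≤ B) :
    ∫ I, (∫ x, (Ssum E I x) ^ (2 * m) ∂(mu d)) ∂(nuI d n) ≤ B := by
  have hc : Continuous (fun p : (Fin n → Td d × Bool) × Td d => (Ssum E p.1 p.2) ^ (2 * m)) :=
    (continuous_Ssum hE).pow _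
  have : OpensMeasurableSpace ((Fin n → Td d × Bool) × Td d) := Prod.opensMeasurableSpace
  have hint : Integrable (Function.uncurry (fun (I : Fin n → Td d × Bool) (x : Td d) =>
      (Ssum E I x) ^ (2 * m))) ((nuI d n).prod (mu d)) :=
    hc.integrable_of_hasCompactSupport (HasCompactSupport.of_compactSpace _)
  rw [integral_integral_swap hint]
  have h2 : ∫ x, (∫ I, (Ssum E I x) ^ (2 * m) ∂(nuI d n)) ∂(mu d) ≤ ∫ _x : Td d, B ∂(mu d) := by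
    refine integral_mono_of_nonneg (Filter.Eventually.of_forall (fun x => ?_))
      (integrable_const B) (Filter.Eventually.of_forall h)
    refine integral_nonneg (fun I => ?_)
    have : (Ssum E I x) ^ (2 * m) = ((Ssum E I x) ^ m) ^ 2 := by ring
    change (0 : ℝ) ≤ (Ssum E I x) ^ (2 * m)
    rw [this]
    positivity
  refine h2.trans ?_
  simp

theorem code_app (d : ℕ) (hd : 2 ≤ d) (r : ℝ) (hr : 0 ≤ r) (m : ℕ) (hm : 1 ≤ m) :
    ∃ (η c C : ℝ) (L0 : ℕ), 0 < η ∧ 0 < c ∧ 0 < C ∧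
      ∀ (σ : ℝ) (l0 l1 n : ℕ), L0 ≤ l0 → l0 ≤ l1 → l1 ≤ 2 * l0 + 1 → 1 ≤ n →
      (n : ℝ) ≤ η * (2 : ℝ) ^ l0 * (Lv l0 l1) ^ 2 * kap d l0 / ((l0 : ℝ) + 1) →
      (2 : ℝ) ^ l1 ≤ n * kap d l0 →
      ∃ S : Finset (Fin n → Td d × Bool), Real.exp (c * n * ((l0 : ℝ) + 1)) ≤ S.card ∧
        (∀ I ∈ S, 3 / 4 * (n * Gt l0 l1 (0 : Td d)) ≤ Bf (Gt l0 l1) I I) ∧
        (∀ I ∈ S, nrm ((2 * m : ℕ) : ℝ≥0∞) (fun x => ((Ssum (Et r σ l0 l1) I x : ℝ) : ℂ)) ≤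
          C * Real.sqrt (n * Lv l0 l1 * kap d l0)) ∧
        ∀ I ∈ S, ∀ J ∈ S, I ≠ J → |Bf (Gt l0 l1) I J| ≤ n * Gt l0 l1 (0 : Td d) / 8 := by
  obtain ⟨c0, C2, hc0, hC2, hkey⟩ := key_integral d hd
  obtain ⟨c1, C1, hc1, hC1, hGt⟩ := Gt_zero_bounds d (by omega)
  have hmom : ∀ j : ℕ, 1 ≤ j → ∃ C : ℝ, 0 < C ∧ ∀ (σ : ℝ) (l0 l1 : ℕ), l0 ≤ l1 →
      l1 ≤ 2 * l0 + 1 →
      ∫ x : Td d, (Et r σ l0 l1 x) ^ (2 * j) ∂(mu d) ≤
        C * Lv l0 l1 * kap d l0 * (2 : ℝ) ^ ((j - 1) * l1) :=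
    fun j hj => moment_Et d (by omega) r hr j hj
  have hmom' : ∀ j : ℕ, ∃ C : ℝ, 0 < C ∧ (1 ≤ j → ∀ (σ : ℝ) (l0 l1 : ℕ), l0 ≤ l1 →
      l1 ≤ 2 * l0 + 1 →
      ∫ x : Td d, (Et r σ l0 l1 x) ^ (2 * j) ∂(mu d) ≤
        C * Lv l0 l1 * kap d l0 * (2 : ℝ) ^ ((j - 1) * l1)) := by
    intro j
    by_cases hj : 1 ≤ j
    · obtain ⟨C, hC, h⟩ := hmom j hj
      exact ⟨C, hC, fun _ => h⟩
    · exact ⟨1, one_pos, fun h => absurd h hj⟩
  choose Cj hCj0 hCj using hmom'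
  obtain ⟨K, hK, hmoments⟩ := moments m Cj
  refine ⟨c1 / (16 * c0 * C2), c0 * c1 / 32, max 1 (8 * K), ⌈67 / (c0 * c1)⌉₊, by positivity,
    by positivity, by positivity, ?_⟩
  intro σ l0 l1 n hL0 h01 h10 hn hnη h2n
  have hκ : 1 ≤ kap d l0 := kap_ge_one d l0
  have hΛ : 1 ≤ Lv l0 l1 := Lv_ge_one h01
  set κ := kap d l0 with hκd
  set Λ := Lv l0 l1 with hΛd
  have hκ0 : 0 < κ := by linarith
  have hΛ0 : 0 < Λ := by linarith
  have hn1 : (1 : ℝ) ≤ n := by exact_mod_cast hn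
  have hn0 : (0 : ℝ) < n := by linarith
  have hl0 : (0 : ℝ) < (l0 : ℝ) + 1 := by positivity
  have h2l : (0 : ℝ) < (2 : ℝ) ^ l0 := by positivity
  obtain ⟨hG1, -⟩ := hGt l0 l1 h01 h10
  rw [← hκd, ← hΛd] at hG1
  set G0 := Gt l0 l1 (0 : Td d) with hG0d
  have hG0 : 0 < G0 := lt_of_lt_of_le (by positivity) hG1
  have hc01 : 0 < c0 * c1 := by positivity
  set lam := c0 * ((l0 : ℝ) + 1) / (Λ * κ) with hlamd
  have hlam : 0 < lam := by positivity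
  set V := C2 * ((2 : ℝ) ^ l0)⁻¹ * κ with hVd
  have hLge : c0 * c1 * ((l0 : ℝ) + 1) ≤ lam * G0 := by
    have h1 : lam * (c1 * Λ * κ) ≤ lam * G0 := mul_le_mul_of_nonneg_left hG1 hlam.le
    have h2 : lam * (c1 * Λ * κ) = c0 * c1 * ((l0 : ℝ) + 1) := by
      rw [hlamd]
      field_simp
    linarith
  have hL67 : 67 ≤ lam * G0 := by
    have h1 : 67 / (c0 * c1) ≤ (l0 : ℝ) := by
      have := Nat.le_ceil (67 / (c0 * c1))
      have h2 : ((⌈67 / (c0 * c1)⌉₊ : ℕ) : ℝ) ≤ (l0 : ℝ) := by exact_mod_cast hL0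
      linarith
    rw [div_le_iff₀ hc01] at h1
    nlinarith
  have hV : ∫ x : Td d, (Gt l0 l1 x) ^ 2 * Real.exp (lam * |Gt l0 l1 x|) ∂(mu d) ≤ V :=
    hkey l0 l1 lam h01 h10 hlam.le (le_of_eq (by rw [hlamd]))
  have hnV : 16 * n * lam ^ 2 * V ≤ lam * G0 := by
    have h1 : 16 * n * lam * V ≤ c1 * Λ * κ := by
      have h2 : 16 * (n : ℝ) * lam * V =
          (n : ℝ) * (16 * c0 * C2 * ((l0 : ℝ) + 1) / ((2 : ℝ) ^ l0 * Λ)) := by
        rw [hlamd, hVd]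
        field_simp
      rw [h2]
      have h3 : (n : ℝ) * (16 * c0 * C2 * ((l0 : ℝ) + 1) / ((2 : ℝ) ^ l0 * Λ)) ≤
          (c1 / (16 * c0 * C2) * (2 : ℝ) ^ l0 * Λ ^ 2 * κ / ((l0 : ℝ) + 1)) *
            (16 * c0 * C2 * ((l0 : ℝ) + 1) / ((2 : ℝ) ^ l0 * Λ)) :=
        mul_le_mul_of_nonneg_right hnη (by positivity)
      refine h3.trans (le_of_eq ?_)
      field_simp
    have h4 : 16 * n * lam ^ 2 * V = lam * (16 * n * lam * V) := by ring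
    rw [h4]
    exact mul_le_mul_of_nonneg_left (h1.trans hG1) hlam.le
  -- moments
  set τ := Real.sqrt (n * Λ * κ) with hτd
  have hτ0 : 0 < τ := Real.sqrt_pos.mpr (by positivity)
  have hτ2 : τ ^ 2 = n * Λ * κ := Real.sq_sqrt (by positivity)
  have hEc : Continuous (Et r σ l0 l1 : Td d → ℝ) := continuous_Et r σ l0 l1
  have hEm : ∀ j, 1 ≤ j → j ≤ m →
      ∫ y : Td d, (Et r σ l0 l1 y) ^ (2 * j) ∂(mu d) ≤ Cj j * τ ^ (2 * j) / n := by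
    intro j hj _
    have h1 := hCj j hj σ l0 l1 h01 h10
    rw [← hκd, ← hΛd] at h1
    refine h1.trans ?_
    have h2 : (2 : ℝ) ^ ((j - 1) * l1) ≤ (n * κ) ^ (j - 1) := by
      rw [mul_comm (j - 1) l1, pow_mul]
      exact pow_le_pow_left₀ (by positivity) h2n _
    have h3 : τ ^ (2 * j) = (n * Λ * κ) ^ j := by rw [pow_mul, hτ2]
    rw [h3, le_div_iff₀ hn0]
    have h4 : (n * Λ * κ) ^ j = (n * κ) ^ (j - 1) * Λ ^ (j - 1) * (n * Λ * κ) := by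
      conv_lhs => rw [show j = (j - 1) + 1 by omega, pow_succ]
      rw [show (n : ℝ) * Λ * κ = (n * κ) * Λ by ring, mul_pow]
    rw [h4]
    have h5 : (1 : ℝ) ≤ Λ ^ (j - 1) := one_le_pow₀ hΛ
    have h6 : (0 : ℝ) ≤ (n * κ) ^ (j - 1) := by positivity
    have hC := (hCj0 j).le
    calc Cj j * Λ * κ * (2 : ℝ) ^ ((j - 1) * l1) * n
        ≤ Cj j * Λ * κ * (n * κ) ^ (j - 1) * n := by gcongr
      _ = Cj j * ((n * κ) ^ (j - 1) * 1 * (n * Λ * κ)) := by ring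
      _ ≤ Cj j * ((n * κ) ^ (j - 1) * Λ ^ (j - 1) * (n * Λ * κ)) := by gcongr
  have hx := hmoments d n (Et r σ l0 l1) τ n hEc hτ0.le hn0 le_rfl hEm
  have hD := double_le (n := n) (Et r σ l0 l1 : Td d → ℝ) hEc m (K * τ ^ (2 * m)) hx
  obtain ⟨S, hS1, hS2, hS3, hS4⟩ := coding hn (Gt l0 l1 : Td d → ℝ) (Et r σ l0 l1 : Td d → ℝ)
    (continuous_Gt l0 l1) hEc (fun x => Gt_even l0 l1 x) lam V hlam hL67 hV hnV m
    (K * τ ^ (2 * m)) (by positivity) hD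
  refine ⟨S, ?_, hS2, ?_, hS4⟩
  · refine le_trans ?_ hS1
    rw [← hG0d]
    have h8 : Real.exp (67 / 32) ≥ 8 := by
      have h1 : Real.log 8 ≤ 67 / 32 := by
        have h2 : Real.log 8 = 3 * Real.log 2 := by
          rw [show (8 : ℝ) = 2 ^ (3 : ℕ) by norm_num, Real.log_pow]
          norm_num
        have h3 := Real.log_two_lt_d9
        rw [h2]
        linarith
      have h4 : Real.exp (Real.log 8) ≤ Real.exp (67 / 32) := Real.exp_le_exp.mpr h1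
      rwa [Real.exp_log (by norm_num)] at h4
    have h9 : Real.exp (c0 * c1 / 32 * n * ((l0 : ℝ) + 1)) * 8 ≤
        Real.exp (n * (lam * G0) / 16) := by
      calc Real.exp (c0 * c1 / 32 * n * ((l0 : ℝ) + 1)) * 8
          ≤ Real.exp (n * (lam * G0) / 32) * Real.exp (67 / 32) := by
            refine mul_le_mul (Real.exp_le_exp.mpr ?_) h8 (by norm_num) (Real.exp_pos _).le
            have : n * (c0 * c1 * ((l0 : ℝ) + 1)) ≤ n * (lam * G0) :=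
              mul_le_mul_of_nonneg_left hLge hn0.le
            linarith
        _ ≤ Real.exp (n * (lam * G0) / 32) * Real.exp (n * (lam * G0) / 32) := by
            refine mul_le_mul_of_nonneg_left (Real.exp_le_exp.mpr ?_) (Real.exp_pos _).le
            have : 1 * (lam * G0) ≤ n * (lam * G0) :=
              mul_le_mul_of_nonneg_right hn1 (by positivity)
            linarith
        _ = Real.exp (n * (lam * G0) / 16) := by
            rw [← Real.exp_add]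
            congr 1
            ring
    linarith
  · intro I hI
    have hcont : Continuous (fun x : Td d => ((Ssum (Et r σ l0 l1) I x : ℝ) : ℂ)) := by
      have h1 : Continuous (fun x : Td d => Ssum (Et r σ l0 l1) I x) :=
        (continuous_Ssum hEc).comp (by fun_prop : Continuous (fun x : Td d => (I, x)))
      exact Complex.continuous_ofReal.comp h1
    have h1 := nrm_even_pow m hm (⟨fun x : Td d => ((Ssum (Et r σ l0 l1) I x : ℝ) : ℂ), hcont⟩ :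
      C(Td d, ℂ))
    have h2 : ∀ x : Td d, ‖((Ssum (Et r σ l0 l1) I x : ℝ) : ℂ)‖ ^ (2 * m) =
        (Ssum (Et r σ l0 l1) I x) ^ (2 * m) := by
      intro x
      rw [Complex.norm_real, Real.norm_eq_abs]
      exact (even_two_mul m).pow_abs _
    change nrm ((2 * m : ℕ) : ℝ≥0∞) (fun x : Td d => ((Ssum (Et r σ l0 l1) I x : ℝ) : ℂ)) ^ (2 * m) =
      ∫ x : Td d, ‖((Ssum (Et r σ l0 l1) I x : ℝ) : ℂ)‖ ^ (2 * m) ∂(mu d) at h1
    simp only [h2] at h1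
    have h3 := hS3 I hI
    rw [← h1] at h3
    set N := nrm ((2 * m : ℕ) : ℝ≥0∞) (fun x : Td d => ((Ssum (Et r σ l0 l1) I x : ℝ) : ℂ))
    have hM1 : (1 : ℝ) ≤ max 1 (8 * K) := le_max_left _ _
    have h4 : 8 * (K * τ ^ (2 * m)) ≤ (max 1 (8 * K) * τ) ^ (2 * m) := by
      rw [mul_pow, ← mul_assoc]
      refine mul_le_mul_of_nonneg_right ?_ (by positivity)
      calc 8 * K ≤ max 1 (8 * K) := le_max_right _ _
        _ = (max 1 (8 * K)) ^ 1 := (pow_one _).symm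
        _ ≤ (max 1 (8 * K)) ^ (2 * m) := pow_le_pow_right₀ hM1 (by omega)
    exact le_of_pow_le_pow_left₀ (by omega) (by positivity) (h3.trans h4)

end MPcd65c1
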