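import Pool.Agent.Lib.MP_cd65c1_an.CNu

/-!
# MP_cd65c1_an / CChern : Chernoff bound for iid sums and the two cosh moments (about 170 lines)

* `chernoff`: for continuous `h : Td d × Bool → ℝ`, `lam > 0`:
  `nuI {I | t ≤ Σ h (I i)} ≤ exp(-lam t) ∫ exp(lam Σ h (I i)) = exp(-lam t) (∫ exp(lam h))^n`
  (Markov `mul_meas_ge_le_integral_of_nonneg`, `integral_prod_nuI` with `f = exp(lam h)`).
* `chernoff_Bf`: `Bf G I J = Σ_i h (I i)`, `h (y,b) = sg b * Ssum G J y`, and
  `∫ exp(lam h) ∂nu1 = ∫ cosh(lam Ssum G J y) dy = A` (`integral_nu1`); the same for `-h`; two-sided bound: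
  `nuI {I | t < |Bf G I J|} ≤ 2 exp(-lam t) A^n`.
* `cosh_mean`: `∫_I ∫_x cosh(lam Ssum E I x) = (∫ cosh(lam E))^n`: Fubini; for fixed `x`
  `∫_I exp(± lam Ssum E I x) = (∫ exp(± lam sg b E(x-y)) dnu1)^n = (∫ cosh(lam E(x-y)) dy)^n
  = (∫ cosh(lam E))^n` (`integral_prod_nuI`, `integral_nu1`, `integral_sub_left_eq_self`).
* `cosh_le`: `cosh t ≤ 1 + t^2/2 * exp |t|` (Taylor, or `cosh t - 1 = 2 sinh(t/2)^2` and
  `|sinh s| ≤ |s| exp |s|`... note `2 (|t|/2)^2 exp(|t|) = t^2/2 exp|t|`), so
  `∫ cosh(lam G) ≤ 1 + lam^2/2 ∫ G^2 exp(lam|G|) ≤ exp(lam^2 V/2)`.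
-/

namespace MPcd65c1

open MeasureTheory
open scoped ENNReal

private theorem cont_Ssum_right {d n : ℕ} {G : Td d → ℝ} (hG : Continuous G)
    (J : Fin n → Td d × Bool) : Continuous (fun x : Td d => Ssum G J x) :=
  (continuous_Ssum hG).comp (continuous_const.prodMk continuous_id)

private theorem cont_Ssum_left {d n : ℕ} {G : Td d → ℝ} (hG : Continuous G)
    (x : Td d) : Continuous (fun I : Fin n → Td d × Bool => Ssum G I x) :=
  (continuous_Ssum hG).comp (continuous_id.prodMk continuous_const)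

private theorem cont_sg {d : ℕ} : Continuous (fun z : Td d × Bool => sg z.2) :=
  (continuous_of_discreteTopology (f := sg)).comp continuous_snd

private theorem exp_nu1 {d : ℕ} (S : Td d → ℝ) (hS : Continuous S) (lam : ℝ) :
    ∫ z, Real.exp (lam * (sg z.2 * S z.1)) ∂(nu1 d) = ∫ x, Real.cosh (lam * S x) ∂(mu d) := by
  have hc : Continuous (fun z : Td d × Bool => Real.exp (lam * (sg z.2 * S z.1))) :=
    Real.continuous_exp.comp (continuous_const.mul (cont_sg.mul (hS.comp continuous_fst)))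
  rw [integral_nu1 _ hc]
  have i1 : Integrable (fun x : Td d => Real.exp (lam * S x)) (mu d) :=
    (Real.continuous_exp.comp (continuous_const.mul hS)).integrable_of_hasCompactSupport
      (HasCompactSupport.of_compactSpace _)
  have i2 : Integrable (fun x : Td d => Real.exp (-(lam * S x))) (mu d) :=
    (Real.continuous_exp.comp (continuous_const.mul hS).neg).integrable_of_hasCompactSupport
      (HasCompactSupport.of_compactSpace _)
  simp only [sg, if_true, Bool.false_eq_true, if_false, one_mul]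
  have e : ∀ x, Real.cosh (lam * S x) = (Real.exp (lam * S x) + Real.exp (-(lam * S x))) / 2 :=
    fun x => Real.cosh_eq _
  simp_rw [e]
  rw [integral_div, integral_add i1 i2]
  congr 2
  refine integral_congr_ae (Filter.Eventually.of_forall fun x => ?_)
  simp only
  congr 1
  ring

private theorem sinh_le_mul_exp (s : ℝ) : Real.sinh s ≤ s * Real.exp s := by
  rw [Real.sinh_eq]
  have h1 := Real.add_one_le_exp (-(2 * s))
  have h2 : Real.exp (-s) = Real.exp s * Real.exp (-(2 * s)) := by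
    rw [← Real.exp_add]; congr 1; ring
  rw [h2]
  nlinarith [Real.exp_pos s]

private theorem cosh_le_aux (t : ℝ) : Real.cosh t ≤ 1 + t ^ 2 / 2 * Real.exp |t| := by
  have h0 : Real.cosh t = 1 + 2 * Real.sinh (|t| / 2) ^ 2 := by
    rw [← Real.cosh_abs, show |t| = 2 * (|t| / 2) by ring, Real.cosh_two_mul, Real.cosh_sq]
    ring_nf
  rw [h0]
  have hs : 0 ≤ |t| / 2 := by positivity
  have h1 := sinh_le_mul_exp (|t| / 2)
  have h2 : 0 ≤ Real.sinh (|t| / 2) := Real.sinh_nonneg_iff.mpr hs
  have h3 : Real.exp |t| = Real.exp (|t| / 2) ^ 2 := by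
    rw [← Real.exp_nat_mul]; congr 1; push_cast; ring
  have h4 : Real.sinh (|t| / 2) ^ 2 ≤ (|t| / 2 * Real.exp (|t| / 2)) ^ 2 :=
    pow_le_pow_left₀ h2 h1 2
  have h5 : (|t| / 2 * Real.exp (|t| / 2)) ^ 2 = t ^ 2 / 4 * Real.exp |t| := by
    rw [h3, mul_pow, div_pow, sq_abs]
    ring
  rw [h5] at h4
  linarith

private theorem exp_mean {d n : ℕ} (G : Td d → ℝ) (hG : Continuous G) (lam : ℝ) (x : Td d) :
    ∫ I, Real.exp (lam * Ssum G I x) ∂(nuI d n) = (∫ x, Real.cosh (lam * G x) ∂(mu d)) ^ n := by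
  have e1 : ∀ I : Fin n → Td d × Bool, Real.exp (lam * Ssum G I x)
      = ∏ i, Real.exp (lam * (sg (I i).2 * G (x - (I i).1))) := by
    intro I
    rw [← Real.exp_sum, Ssum, Finset.mul_sum]
  simp_rw [e1]
  rw [integral_prod_nuI (fun z : Td d × Bool => Real.exp (lam * (sg z.2 * G (x - z.1))))]
  rw [exp_nu1 (fun y : Td d => G (x - y)) (hG.comp (continuous_const.sub continuous_id)) lam]
  congr 1
  have : (mu d).IsNegInvariant := Measure.pi.isNegInvariant _
  exact integral_sub_left_eq_self (fun y : Td d => Real.cosh (lam * G y)) (mu d) x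

theorem chernoff {d n : ℕ} (h : Td d × Bool → ℝ) (hh : Continuous h) (lam t : ℝ)
    (hlam : 0 < lam) :
    (nuI d n).real {I | t ≤ ∑ i, h (I i)} ≤
      Real.exp (-(lam * t)) * (∫ z, Real.exp (lam * h z) ∂(nu1 d)) ^ n := by
  have hc : Continuous (fun I : Fin n → Td d × Bool => ∑ i, h (I i)) :=
    continuous_finsetSum _ fun i _ => hh.comp (continuous_apply i)
  have hint : Integrable (fun I : Fin n → Td d × Bool => Real.exp (lam * ∑ i, h (I i)))
      (nuI d n) := integrable_nuI (Real.continuous_exp.comp (continuous_const.mul hc))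
  have hM := mul_meas_ge_le_integral_of_nonneg (μ := nuI d n)
    (f := fun I : Fin n → Td d × Bool => Real.exp (lam * ∑ i, h (I i)))
    (Filter.Eventually.of_forall fun I => (Real.exp_pos _).le) hint (Real.exp (lam * t))
  have hset : {I : Fin n → Td d × Bool | Real.exp (lam * t) ≤ Real.exp (lam * ∑ i, h (I i))}
      = {I | t ≤ ∑ i, h (I i)} := by
    ext I
    simp only [Set.mem_ofPred_eq, Real.exp_le_exp]
    exact mul_le_mul_iff_right₀ hlam
  rw [hset] at hM
  have hI : ∫ I, Real.exp (lam * ∑ i, h (I i)) ∂(nuI d n)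
      = (∫ z, Real.exp (lam * h z) ∂(nu1 d)) ^ n := by
    rw [← integral_prod_nuI]
    refine integral_congr_ae (Filter.Eventually.of_forall fun I => ?_)
    simp only
    rw [← Real.exp_sum, Finset.mul_sum]
  rw [hI] at hM
  rw [Real.exp_neg, inv_mul_eq_div, le_div_iff₀ (Real.exp_pos _), mul_comm]
  exact hM

theorem chernoff_Bf {d n : ℕ} (G : Td d → ℝ) (hG : Continuous G) (J : Fin n → Td d × Bool)
    (lam t : ℝ) (hlam : 0 < lam) :
    (nuI d n).real {I | t < |Bf G I J|} ≤
      2 * Real.exp (-(lam * t)) * (∫ x, Real.cosh (lam * Ssum G J x) ∂(mu d)) ^ n := by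
  have hS := cont_Ssum_right hG J
  have hS' : Continuous (fun x : Td d => -Ssum G J x) := hS.neg
  have h1 := chernoff (n := n) (fun z : Td d × Bool => sg z.2 * Ssum G J z.1)
    (cont_sg.mul (hS.comp continuous_fst)) lam t hlam
  have h2 := chernoff (n := n) (fun z : Td d × Bool => sg z.2 * (-Ssum G J z.1))
    (cont_sg.mul (hS'.comp continuous_fst)) lam t hlam
  rw [exp_nu1 (fun x => Ssum G J x) hS lam] at h1
  rw [exp_nu1 (fun x => -Ssum G J x) hS' lam] at h2
  have e2 : ∫ x, Real.cosh (lam * -Ssum G J x) ∂(mu d)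
      = ∫ x, Real.cosh (lam * Ssum G J x) ∂(mu d) := by
    refine integral_congr_ae (Filter.Eventually.of_forall fun x => ?_)
    simp only
    rw [mul_neg, Real.cosh_neg]
  rw [e2] at h2
  have hsub : {I : Fin n → Td d × Bool | t < |Bf G I J|} ⊆
      {I | t ≤ ∑ i, sg (I i).2 * Ssum G J (I i).1} ∪
      {I | t ≤ ∑ i, sg (I i).2 * (-Ssum G J (I i).1)} := by
    intro I hI
    simp only [Set.mem_ofPred_eq] at hI
    rcases le_total 0 (Bf G I J) with h | h
    · left
      rw [abs_of_nonneg h] at hI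
      exact hI.le
    · right
      rw [abs_of_nonpos h] at hI
      simp only [Set.mem_ofPred_eq, mul_neg, Finset.sum_neg_distrib]
      exact hI.le
  calc (nuI d n).real {I | t < |Bf G I J|} ≤ (nuI d n).real
        ({I | t ≤ ∑ i, sg (I i).2 * Ssum G J (I i).1} ∪
          {I | t ≤ ∑ i, sg (I i).2 * (-Ssum G J (I i).1)}) :=
        measureReal_mono hsub (measure_ne_top _ _)
    _ ≤ _ := measureReal_union_le _ _
    _ ≤ Real.exp (-(lam * t)) * (∫ x, Real.cosh (lam * Ssum G J x) ∂(mu d)) ^ n +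
        Real.exp (-(lam * t)) * (∫ x, Real.cosh (lam * Ssum G J x) ∂(mu d)) ^ n :=
        add_le_add h1 h2
    _ = _ := by ring

theorem cosh_mean {d n : ℕ} (G : Td d → ℝ) (hG : Continuous G) (lam : ℝ) :
    ∫ I, (∫ x, Real.cosh (lam * Ssum G I x) ∂(mu d)) ∂(nuI d n) =
      (∫ x, Real.cosh (lam * G x) ∂(mu d)) ^ n := by
  have hc : Continuous (fun p : (Fin n → Td d × Bool) × Td d =>
      Real.cosh (lam * Ssum G p.1 p.2)) :=
    Real.continuous_cosh.comp (continuous_const.mul (continuous_Ssum hG))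
  have h1 : OpensMeasurableSpace (Fin n → Td d × Bool) := inferInstance
  have h2 : SecondCountableTopology (Fin n → Td d × Bool) := inferInstance
  have h3 : OpensMeasurableSpace ((Fin n → Td d × Bool) × Td d) := Prod.opensMeasurableSpace
  have hint : Integrable (fun p : (Fin n → Td d × Bool) × Td d =>
      Real.cosh (lam * Ssum G p.1 p.2)) ((nuI d n).prod (mu d)) :=
    hc.integrable_of_hasCompactSupport (HasCompactSupport.of_compactSpace _)
  rw [integral_integral_swap hint]
  have e1 : ∀ x : Td d, ∫ I, Real.cosh (lam * Ssum G I x) ∂(nuI d n)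
      = (∫ x, Real.cosh (lam * G x) ∂(mu d)) ^ n := by
    intro x
    have i1 : Integrable (fun I : Fin n → Td d × Bool => Real.exp (lam * Ssum G I x))
        (nuI d n) := integrable_nuI
      (Real.continuous_exp.comp (continuous_const.mul (cont_Ssum_left hG x)))
    have i2 : Integrable (fun I : Fin n → Td d × Bool => Real.exp (-lam * Ssum G I x))
        (nuI d n) := integrable_nuI
      (Real.continuous_exp.comp (continuous_const.mul (cont_Ssum_left hG x)))
    have e : ∀ I : Fin n → Td d × Bool, Real.cosh (lam * Ssum G I x)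
        = (Real.exp (lam * Ssum G I x) + Real.exp (-lam * Ssum G I x)) / 2 := by
      intro I
      rw [Real.cosh_eq, neg_mul]
    simp_rw [e]
    rw [integral_div, integral_add i1 i2, exp_mean G hG lam x, exp_mean G hG (-lam) x]
    have e3 : ∫ x, Real.cosh (-lam * G x) ∂(mu d) = ∫ x, Real.cosh (lam * G x) ∂(mu d) := by
      refine integral_congr_ae (Filter.Eventually.of_forall fun x => ?_)
      simp only
      rw [neg_mul, Real.cosh_neg]
    rw [e3]
    ring
  simp_rw [e1]
  simp

theorem integral_cosh_le {d : ℕ} (G : Td d → ℝ) (hG : Continuous G) (lam V : ℝ)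
    (hlam : 0 ≤ lam) (hV : ∫ x, (G x) ^ 2 * Real.exp (lam * |G x|) ∂(mu d) ≤ V) :
    ∫ x, Real.cosh (lam * G x) ∂(mu d) ≤ Real.exp (lam ^ 2 * V / 2) := by
  have c1 : Continuous (fun x : Td d => Real.cosh (lam * G x)) :=
    Real.continuous_cosh.comp (continuous_const.mul hG)
  have c2 : Continuous (fun x : Td d => (G x) ^ 2 * Real.exp (lam * |G x|)) :=
    (hG.pow 2).mul (Real.continuous_exp.comp (continuous_const.mul hG.abs))
  have i1 : Integrable (fun x : Td d => Real.cosh (lam * G x)) (mu d) :=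
    c1.integrable_of_hasCompactSupport (HasCompactSupport.of_compactSpace _)
  have i2 : Integrable (fun x : Td d => (G x) ^ 2 * Real.exp (lam * |G x|)) (mu d) :=
    c2.integrable_of_hasCompactSupport (HasCompactSupport.of_compactSpace _)
  have h1 : ∫ x, Real.cosh (lam * G x) ∂(mu d) ≤
      ∫ x, (1 + lam ^ 2 / 2 * ((G x) ^ 2 * Real.exp (lam * |G x|))) ∂(mu d) := by
    refine integral_mono i1 ((integrable_const _).add (i2.const_mul _)) fun x => ?_
    simp only
    refine (cosh_le_aux _).trans (le_of_eq ?_)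
    rw [abs_mul, abs_of_nonneg hlam]
    ring
  have h2 : ∫ x, (1 + lam ^ 2 / 2 * ((G x) ^ 2 * Real.exp (lam * |G x|))) ∂(mu d)
      = 1 + lam ^ 2 / 2 * ∫ x, (G x) ^ 2 * Real.exp (lam * |G x|) ∂(mu d) := by
    rw [integral_add (integrable_const _) (i2.const_mul _), integral_const_mul]
    simp
  have h3 : lam ^ 2 / 2 * ∫ x, (G x) ^ 2 * Real.exp (lam * |G x|) ∂(mu d)
      ≤ lam ^ 2 / 2 * V := mul_le_mul_of_nonneg_left hV (by positivity)
  have h4 := Real.add_one_le_exp (lam ^ 2 * V / 2)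
  linarith

end MPcd65c1
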