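import Pool.Agent.Lib.MP_cd65c1_an.CNu

/-!
# MP_cd65c1_an / COff : the off-diagonal part of `B(I,I)`

For even continuous `G`: `∫_I (Bf G I I - n G(0))^2 ≤ 2 n^2 ∫ G^2`.

Induction on `n` (`integral_nuI_succ`): put `O_n(I) = Bf G I I - n G(0)`.
For `I' = Fin.cons z I`, `z = (y, b)`: `O_{n+1}(I') = O_n(I) + 2 sg b Ssum G I y` (`G` even,
`sg b^2 = 1`).  Hence, the mixed term having mean zero (average over `b`),
`∫ O_{n+1}^2 = ∫ O_n^2 + 4 ∫_I ∫_y (Ssum G I y)^2`, and `∫_I (Ssum G I y)^2 = n ∫ G^2`.
-/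

namespace MPcd65c1

open MeasureTheory

private theorem sg_sq (b : Bool) : sg b * sg b = 1 := by
  cases b <;> simp [sg]

private theorem Ssum_cons {d n : ℕ} (G : Td d → ℝ) (z : Td d × Bool) (I : Fin n → Td d × Bool)
    (x : Td d) : Ssum G (Fin.cons z I : Fin (n + 1) → Td d × Bool) x =
      sg z.2 * G (x - z.1) + Ssum G I x := by
  unfold Ssum
  rw [Fin.sum_univ_succ]
  simp

private theorem cont_Ssum_I {d n : ℕ} {G : Td d → ℝ} (hG : Continuous G) (x : Td d) :
    Continuous (fun I : Fin n → Td d × Bool => Ssum G I x) :=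
  (continuous_Ssum hG).comp (continuous_id.prodMk continuous_const)

private theorem cont_Bf_diag {d n : ℕ} {G : Td d → ℝ} (hG : Continuous G) :
    Continuous (fun I : Fin n → Td d × Bool => Bf G I I) :=
  (continuous_Bf hG).comp (continuous_id.prodMk continuous_id)

private theorem cont_sg : Continuous sg := continuous_of_discreteTopology

private theorem integral_shift {d : ℕ} (f : Td d → ℝ) (x : Td d) :
    ∫ y, f (x - y) ∂(mu d) = ∫ y, f y ∂(mu d) := by
  have : (mu d).IsNegInvariant := Measure.IsAddHaarMeasure.isNegInvariant_of_regular (mu d)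
  exact integral_sub_left_eq_self f (mu d) x

theorem Ssum_sq {d n : ℕ} (G : Td d → ℝ) (hG : Continuous G) (x : Td d) :
    ∫ I, (Ssum G I x) ^ 2 ∂(nuI d n) = n * ∫ y, (G y) ^ 2 ∂(mu d) := by
  induction n with
  | zero => simp [Ssum]
  | succ n ih =>
    have hc : Continuous (fun I : Fin (n + 1) → Td d × Bool => (Ssum G I x) ^ 2) :=
      (cont_Ssum_I hG x).pow 2
    rw [integral_nuI_succ _ hc]
    have hS : Continuous (fun I : Fin n → Td d × Bool => Ssum G I x) := cont_Ssum_I hG x
    obtain ⟨c1, hc1⟩ : ∃ c1 : ℝ, c1 = ∫ I, Ssum G I x ∂(nuI d n) := ⟨_, rfl⟩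
    obtain ⟨c2, hc2⟩ : ∃ c2 : ℝ, c2 = ∫ I, (Ssum G I x) ^ 2 ∂(nuI d n) := ⟨_, rfl⟩
    have h1 : ∀ z : Td d × Bool, ∫ I, (Ssum G (Fin.cons z I : Fin (n + 1) → Td d × Bool) x) ^ 2
        ∂(nuI d n) = (G (x - z.1)) ^ 2 + sg z.2 * (2 * G (x - z.1) * c1) + c2 := by
      intro z
      have h2 : ∀ I : Fin n → Td d × Bool,
          (Ssum G (Fin.cons z I : Fin (n + 1) → Td d × Bool) x) ^ 2 =
          (G (x - z.1)) ^ 2 + (sg z.2 * (2 * G (x - z.1))) * Ssum G I x + (Ssum G I x) ^ 2 := by
        intro I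
        rw [Ssum_cons]
        have := sg_sq z.2
        linear_combination (G (x - z.1)) ^ 2 * this
      simp only [h2]
      rw [integral_add, integral_add, integral_const_mul, ← hc1, ← hc2]
      · simp
        ring
      · exact integrable_const _
      · exact (integrable_nuI hS).const_mul _
      · exact (integrable_const _).add ((integrable_nuI hS).const_mul _)
      · exact integrable_nuI (hS.pow 2)
    simp only [h1]
    have hGx : Continuous (fun y : Td d => G (x - y)) := hG.comp (continuous_const.sub continuous_id)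
    have hGz : Continuous (fun z : Td d × Bool => G (x - z.1)) := hGx.comp continuous_fst
    rw [integral_nu1]
    · have h3 : ∀ b : Bool, ∫ y, ((G (x - y)) ^ 2 + sg b * (2 * G (x - y) * c1) + c2) ∂(mu d) =
          (∫ y, (G y) ^ 2 ∂(mu d)) + sg b * (∫ y, 2 * G (x - y) * c1 ∂(mu d)) + c2 := by
        intro b
        have i1 : Integrable (fun y : Td d => (G (x - y)) ^ 2) (mu d) :=
          (hGx.pow 2).integrable_of_hasCompactSupport (HasCompactSupport.of_compactSpace _)
        have i2 : Integrable (fun y : Td d => 2 * G (x - y) * c1) (mu d) :=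
          ((continuous_const.mul hGx).mul continuous_const).integrable_of_hasCompactSupport
            (HasCompactSupport.of_compactSpace _)
        have i3 : Integrable (fun y : Td d => (G (x - y)) ^ 2 + sg b * (2 * G (x - y) * c1))
            (mu d) := i1.add (i2.const_mul _)
        rw [integral_add i3 (integrable_const _),
          integral_add i1 (i2.const_mul _), integral_const_mul,
          integral_shift (fun y => (G y) ^ 2) x]
        simp
      show ((∫ y, ((G (x - y)) ^ 2 + sg true * (2 * G (x - y) * c1) + c2) ∂(mu d)) +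
        ∫ y, ((G (x - y)) ^ 2 + sg false * (2 * G (x - y) * c1) + c2) ∂(mu d)) / 2 = _
      rw [h3 true, h3 false, hc2, ih]
      simp only [sg, if_true, Bool.false_eq_true, if_false]
      push_cast
      ring
    · exact ((hGz.pow 2).add ((cont_sg.comp continuous_snd).mul
        ((continuous_const.mul hGz).mul continuous_const))).add continuous_const

private theorem Bf_cons {d n : ℕ} (G : Td d → ℝ) (heven : ∀ x, G (-x) = G x) (z : Td d × Bool)
    (I : Fin n → Td d × Bool) :
    Bf G (Fin.cons z I : Fin (n + 1) → Td d × Bool) (Fin.cons z I) =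
      Bf G I I + 2 * sg z.2 * Ssum G I z.1 + G 0 := by
  unfold Bf
  rw [Fin.sum_univ_succ]
  simp only [Fin.cons_zero, Fin.cons_succ, Ssum_cons]
  have h1 : ∑ i, sg (I i).2 * (sg z.2 * G ((I i).1 - z.1) + Ssum G I (I i).1) =
      sg z.2 * Ssum G I z.1 + ∑ i, sg (I i).2 * Ssum G I (I i).1 := by
    simp only [mul_add, Finset.sum_add_distrib]
    congr 1
    unfold Ssum
    rw [Finset.mul_sum]
    refine Finset.sum_congr rfl (fun i _ => ?_)
    rw [← heven (z.1 - (I i).1), neg_sub]
    ring
  rw [h1, sub_self]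
  have := sg_sq z.2
  linear_combination G 0 * this

private theorem off_diag_eq {d : ℕ} (n : ℕ) (G : Td d → ℝ) (hG : Continuous G)
    (heven : ∀ x, G (-x) = G x) :
    ∫ I, (Bf G I I - n * G 0) ^ 2 ∂(nuI d n) =
      2 * ((n : ℝ) * (n - 1)) * ∫ y, (G y) ^ 2 ∂(mu d) := by
  induction n with
  | zero => simp [Bf]
  | succ n ih =>
    have hO' : Continuous (fun I : Fin (n + 1) → Td d × Bool =>
        (Bf G I I - ((n + 1 : ℕ) : ℝ) * G 0) ^ 2) :=
      ((cont_Bf_diag hG).sub continuous_const).pow 2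
    rw [integral_nuI_succ _ hO']
    obtain ⟨O, hO⟩ : ∃ O : (Fin n → Td d × Bool) → ℝ, O = fun I => Bf G I I - n * G 0 := ⟨_, rfl⟩
    have hOc : Continuous O := by
      rw [hO]
      exact (cont_Bf_diag hG).sub continuous_const
    obtain ⟨Mf, hM⟩ : ∃ Mf : Td d → ℝ, Mf = fun y => ∫ I, O I * Ssum G I y ∂(nuI d n) := ⟨_, rfl⟩
    have hMc : Continuous Mf := by
      rw [hM]
      have h := continuous_parametric_integral_of_continuous (μ := nuI d n)
        (f := fun (y : Td d) (I : Fin n → Td d × Bool) => O I * Ssum G I y)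
        ((hOc.comp continuous_snd).mul ((continuous_Ssum hG).comp
          (continuous_snd.prodMk continuous_fst))) isCompact_univ
      simpa using h
    obtain ⟨a, ha⟩ : ∃ a : ℝ, a = ∫ I, (O I) ^ 2 ∂(nuI d n) := ⟨_, rfl⟩
    have h1 : ∀ z : Td d × Bool, ∫ I, (Bf G (Fin.cons z I : Fin (n + 1) → Td d × Bool)
        (Fin.cons z I) - ((n + 1 : ℕ) : ℝ) * G 0) ^ 2 ∂(nuI d n) =
        a + sg z.2 * (4 * Mf z.1) + 4 * (n * ∫ y, (G y) ^ 2 ∂(mu d)) := by
      intro z
      have hS : Continuous (fun I : Fin n → Td d × Bool => Ssum G I z.1) := cont_Ssum_I hG z.1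
      have h2 : ∀ I : Fin n → Td d × Bool, (Bf G (Fin.cons z I : Fin (n + 1) → Td d × Bool)
          (Fin.cons z I) - ((n + 1 : ℕ) : ℝ) * G 0) ^ 2 =
          (O I) ^ 2 + (sg z.2 * 4) * (O I * Ssum G I z.1) + 4 * (Ssum G I z.1) ^ 2 := by
        intro I
        rw [Bf_cons G heven, hO]
        push_cast
        have := sg_sq z.2
        linear_combination (4 * (Ssum G I z.1) ^ 2) * this
      simp only [h2]
      rw [integral_add, integral_add, integral_const_mul, integral_const_mul, ← ha,
        Ssum_sq G hG z.1, hM]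
      · ring
      · exact integrable_nuI (hOc.pow 2)
      · exact (integrable_nuI (hOc.mul hS)).const_mul _
      · exact (integrable_nuI (hOc.pow 2)).add ((integrable_nuI (hOc.mul hS)).const_mul _)
      · exact (integrable_nuI (hS.pow 2)).const_mul _
    simp only [h1]
    rw [integral_nu1]
    · have h3 : ∀ b : Bool, ∫ y, (a + sg b * (4 * Mf y) + 4 * (n * ∫ y, (G y) ^ 2 ∂(mu d)))
          ∂(mu d) = a + sg b * (∫ y, 4 * Mf y ∂(mu d)) + 4 * (n * ∫ y, (G y) ^ 2 ∂(mu d)) := by
        intro b
        have i1 : Integrable (fun y : Td d => 4 * Mf y) (mu d) :=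
          (continuous_const.mul hMc).integrable_of_hasCompactSupport
            (HasCompactSupport.of_compactSpace _)
        have i2 : Integrable (fun y : Td d => a + sg b * (4 * Mf y)) (mu d) :=
          (integrable_const _).add (i1.const_mul _)
        rw [integral_add i2 (integrable_const _),
          integral_add (integrable_const _) (i1.const_mul _), integral_const_mul]
        simp
      show ((∫ y, (a + sg true * (4 * Mf y) + 4 * (n * ∫ y, (G y) ^ 2 ∂(mu d))) ∂(mu d)) +
        ∫ y, (a + sg false * (4 * Mf y) + 4 * (n * ∫ y, (G y) ^ 2 ∂(mu d))) ∂(mu d)) / 2 = _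
      rw [h3 true, h3 false, ha]
      have ih' : ∫ I, (O I) ^ 2 ∂(nuI d n) =
          2 * ((n : ℝ) * (n - 1)) * ∫ y, (G y) ^ 2 ∂(mu d) := by
        rw [hO]
        exact ih
      rw [ih']
      simp only [sg, if_true, Bool.false_eq_true, if_false]
      push_cast
      ring
    · exact (continuous_const.add ((cont_sg.comp continuous_snd).mul
        (continuous_const.mul (hMc.comp continuous_fst)))).add continuous_const

theorem off_diag {d n : ℕ} (G : Td d → ℝ) (hG : Continuous G) (heven : ∀ x, G (-x) = G x) :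
    ∫ I, (Bf G I I - n * G 0) ^ 2 ∂(nuI d n) ≤ 2 * (n : ℝ) ^ 2 * ∫ y, (G y) ^ 2 ∂(mu d) := by
  rw [off_diag_eq n G hG heven]
  refine mul_le_mul_of_nonneg_right ?_ (integral_nonneg (fun y => sq_nonneg _))
  have : (0 : ℝ) ≤ n := Nat.cast_nonneg n
  nlinarith

end MPcd65c1
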