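import Pool.Agent.Lib.MP_cd65c1_an.CChern
import Pool.Agent.Lib.MP_cd65c1_an.COff

/-!
# MP_cd65c1_an / CCode : greedy_code choice and the coding lemma

GREEDY.  `(Ω, P)` probability space, `Good` measurable with `P Good ≥ 1/2`, `R` a relation with
`P {I | ¬ R I J} ≤ δ` for `J ∈ Good` and `¬ R I I` for `I ∈ Good`.  If `N δ < 1/2` there are `N` elements of
`Good`, pairwise satisfying `R I J ∨ R J I`.

CODING LEMMA.  `g0 = G 0`, `L = lam g0 ≥ 67`, `n ≥ 1`, `16 n lam^2 V ≤ L`.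
(1) `A_J = ∫ cosh(lam Ssum G J x)` has mean `(∫ cosh(lam G))^n ≤ exp(n lam^2 V/2) ≤ exp(L/32)`
    (`cosh_mean`, `integral_cosh_le`), so `P(A_J ≥ 8 exp(L/32)) ≤ 1/8` (Markov).
(2) `P(|Bf G I I - n g0| ≥ n g0/4) ≤ 16 * 2 n^2 V/(n^2 g0^2) = 32 V/g0^2 ≤ 2/(n L) ≤ 1/8`.
(3) `P(∫ (Ssum E I)^(2m) ≥ 8 D) ≤ 1/8` (Markov).
`Good` = complement of the three events, `P Good ≥ 5/8`. For `J ∈ Good`: `P(|Bf G I J| > n g0/8)
≤ 2 exp(-L n/8) (8 exp(L/32))^n ≤ 2 exp(-n L/16) =: δ` since `log 8 ≤ L/32`.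
`N = ⌈exp(nL/16)/8⌉₊`: `N δ ≤ 1/4 + 2 exp(-67/16) < 1/2`.
-/

namespace MPcd65c1

open MeasureTheory

theorem greedy_code {Ω : Type*} [MeasurableSpace Ω] (P : Measure Ω) [IsProbabilityMeasure P]
    (Good : Set Ω) (hGm : MeasurableSet Good) (hG : 1 / 2 ≤ P.real Good)
    (R : Ω → Ω → Prop) (δ : ℝ) (hδ : 0 < δ) (hR : ∀ J ∈ Good, P.real {I | ¬ R I J} ≤ δ)
    (hirr : ∀ I ∈ Good, ¬ R I I) (N : ℕ) (hN : N * δ < 1 / 2) :
    ∃ S : Finset Ω, S.card = N ∧ (∀ I ∈ S, I ∈ Good) ∧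
      ∀ I ∈ S, ∀ J ∈ S, I ≠ J → R I J ∨ R J I := by
  classical
  induction N with
  | zero => exact ⟨∅, by simp, by simp, by simp⟩
  | succ N ih =>
    have hN' : (N : ℝ) * δ < 1 / 2 := by
      push_cast at hN
      linarith
    obtain ⟨S, hS1, hS2, hS3⟩ := ih hN'
    have hex : ∃ I ∈ Good, ∀ J ∈ S, R I J := by
      by_contra hcon
      push Not at hcon
      have hsub : Good ⊆ ⋃ J ∈ S, {I | ¬ R I J} := by
        intro I hI
        obtain ⟨J, hJ, hRJ⟩ := hcon I hI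
        exact Set.mem_biUnion hJ hRJ
      have h1 : P.real Good ≤ ∑ J ∈ S, P.real {I | ¬ R I J} :=
        (measureReal_mono hsub (measure_ne_top _ _)).trans (measureReal_biUnion_finset_le _ _)
      have h2 : ∑ J ∈ S, P.real {I | ¬ R I J} ≤ N * δ := by
        refine (Finset.sum_le_sum (fun J hJ => hR J (hS2 J hJ))).trans ?_
        rw [Finset.sum_const, hS1, nsmul_eq_mul]
      linarith
    obtain ⟨I₀, hI1, hI2⟩ := hex
    have hI3 : I₀ ∉ S := fun h => hirr I₀ hI1 (hI2 I₀ h)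
    refine ⟨insert I₀ S, by rw [Finset.card_insert_of_notMem hI3, hS1], ?_, ?_⟩
    · intro I hI
      rcases Finset.mem_insert.1 hI with rfl | hI
      · exact hI1
      · exact hS2 I hI
    · intro I hI J hJ hne
      rcases Finset.mem_insert.1 hI with hI' | hI'
      · rcases Finset.mem_insert.1 hJ with hJ' | hJ'
        · exact absurd (hI'.trans hJ'.symm) hne
        · rw [hI']
          exact Or.inl (hI2 J hJ')
      · rcases Finset.mem_insert.1 hJ with hJ' | hJ'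
        · rw [hJ']
          exact Or.inr (hI2 I hI')
        · exact hS3 I hI' J hJ' hne

theorem Bf_symm {d n : ℕ} (G : Td d → ℝ) (heven : ∀ x, G (-x) = G x)
    (I J : Fin n → Td d × Bool) : Bf G I J = Bf G J I := by
  unfold Bf Ssum
  simp only [Finset.mul_sum]
  rw [Finset.sum_comm]
  refine Finset.sum_congr rfl (fun i _ => Finset.sum_congr rfl (fun j _ => ?_))
  rw [← heven ((J i).1 - (I j).1), neg_sub]
  ring

private theorem markov {Ω : Type*} [MeasurableSpace Ω] (P : Measure Ω) [IsProbabilityMeasure P]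
    (f : Ω → ℝ) (hf : ∀ x, 0 ≤ f x) (hfi : Integrable f P) (a b : ℝ) (ha : 0 < a)
    (hb : ∫ x, f x ∂P ≤ b * a) : P.real {x | a ≤ f x} ≤ b := by
  have h := mul_meas_ge_le_integral_of_nonneg (μ := P) (ae_of_all _ hf) hfi a
  have h2 : a * P.real {x | a ≤ f x} ≤ a * b := by
    rw [mul_comm a b]
    exact h.trans hb
  exact le_of_mul_le_mul_left h2 ha

theorem coding {d n : ℕ} (hn : 1 ≤ n) (G E : Td d → ℝ) (hG : Continuous G) (hE : Continuous E)
    (heven : ∀ x, G (-x) = G x) (lam V : ℝ) (hlam : 0 < lam) (hL : 67 ≤ lam * G 0)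
    (hV : ∫ x, (G x) ^ 2 * Real.exp (lam * |G x|) ∂(mu d) ≤ V)
    (hnV : 16 * n * lam ^ 2 * V ≤ lam * G 0) (m : ℕ) (D : ℝ) (hD0 : 0 < D)
    (hD : ∫ I, (∫ x, (Ssum E I x) ^ (2 * m) ∂(mu d)) ∂(nuI d n) ≤ D) :
    ∃ S : Finset (Fin n → Td d × Bool), Real.exp (n * (lam * G 0) / 16) / 8 ≤ S.card ∧
      (∀ I ∈ S, 3 / 4 * (n * G 0) ≤ Bf G I I) ∧
      (∀ I ∈ S, ∫ x, (Ssum E I x) ^ (2 * m) ∂(mu d) ≤ 8 * D) ∧
      ∀ I ∈ S, ∀ J ∈ S, I ≠ J → |Bf G I J| ≤ n * G 0 / 8 := by
  obtain ⟨g0, hg0⟩ : ∃ g0 : ℝ, g0 = G 0 := ⟨_, rfl⟩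
  obtain ⟨L, hLdef⟩ : ∃ L : ℝ, L = lam * g0 := ⟨_, rfl⟩
  rw [← hg0] at hL hnV
  rw [← hLdef] at hL hnV
  have hn1 : (1 : ℝ) ≤ n := by exact_mod_cast hn
  have hg0p : 0 < g0 := by
    by_contra h
    have : L ≤ 0 := by
      rw [hLdef]
      exact mul_nonpos_of_nonneg_of_nonpos hlam.le (not_lt.1 h)
    linarith
  -- continuity of the three functions
  have hBc : Continuous (fun I : Fin n → Td d × Bool => Bf G I I) :=
    (continuous_Bf hG).comp (continuous_id.prodMk continuous_id)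
  have hAc : Continuous (fun J : Fin n → Td d × Bool =>
      ∫ x, Real.cosh (lam * Ssum G J x) ∂(mu d)) := by
    have h := continuous_parametric_integral_of_continuous (μ := mu d)
      (f := fun (J : Fin n → Td d × Bool) (x : Td d) => Real.cosh (lam * Ssum G J x))
      (Real.continuous_cosh.comp (continuous_const.mul (continuous_Ssum hG))) isCompact_univ
    simpa using h
  have hMc : Continuous (fun J : Fin n → Td d × Bool =>
      ∫ x, (Ssum E J x) ^ (2 * m) ∂(mu d)) := by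
    have h := continuous_parametric_integral_of_continuous (μ := mu d)
      (f := fun (J : Fin n → Td d × Bool) (x : Td d) => (Ssum E J x) ^ (2 * m))
      ((continuous_Ssum hE).pow _) isCompact_univ
    simpa using h
  -- the square integral of `G`
  have hGV : ∫ x, (G x) ^ 2 ∂(mu d) ≤ V := by
    refine le_trans (integral_mono ?_ ?_ (fun x => ?_)) hV
    · exact (hG.pow 2).integrable_of_hasCompactSupport (HasCompactSupport.of_compactSpace _)
    · exact ((hG.pow 2).mul (Real.continuous_exp.comp (continuous_const.mul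
        hG.abs))).integrable_of_hasCompactSupport (HasCompactSupport.of_compactSpace _)
    · have h1 : 1 ≤ Real.exp (lam * |G x|) :=
        Real.one_le_exp (mul_nonneg hlam.le (abs_nonneg _))
      have h2 := sq_nonneg (G x)
      show (G x) ^ 2 ≤ (G x) ^ 2 * Real.exp (lam * |G x|)
      nlinarith
  have hV0 : 0 ≤ V := (integral_nonneg (fun x => sq_nonneg (G x))).trans hGV
  -- event 1
  have h1 : (nuI d n).real {J | 8 * Real.exp (L / 32) ≤
      ∫ x, Real.cosh (lam * Ssum G J x) ∂(mu d)} ≤ 1 / 8 := by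
    refine markov (nuI d n) _ (fun J => integral_nonneg (fun x => (Real.cosh_pos _).le))
      (integrable_nuI hAc) _ _ (by positivity) ?_
    rw [cosh_mean G hG lam]
    have h2 := integral_cosh_le G hG lam V hlam.le hV
    have h3 : 0 ≤ ∫ x, Real.cosh (lam * G x) ∂(mu d) :=
      integral_nonneg (fun x => (Real.cosh_pos _).le)
    refine (pow_le_pow_left₀ h3 h2 n).trans ?_
    rw [← Real.exp_nat_mul, show (1 : ℝ) / 8 * (8 * Real.exp (L / 32)) = Real.exp (L / 32) by ring]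
    refine Real.exp_le_exp.2 ?_
    linarith
  -- event 2
  have h2 : (nuI d n).real {I | (n * g0 / 4) ^ 2 ≤ (Bf G I I - n * G 0) ^ 2} ≤ 1 / 8 := by
    refine markov (nuI d n) _ (fun I => sq_nonneg _)
      (integrable_nuI ((hBc.sub continuous_const).pow 2)) _ _ (by positivity) ?_
    refine (off_diag G hG heven).trans ?_
    have h3 : 2 * (n : ℝ) ^ 2 * ∫ x, (G x) ^ 2 ∂(mu d) ≤ 2 * (n : ℝ) ^ 2 * V :=
      mul_le_mul_of_nonneg_left hGV (by positivity)
    refine h3.trans ?_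
    have h4 : 256 * V ≤ g0 ^ 2 := by
      have h5 : 16 * n * lam ^ 2 * V ≤ lam ^ 2 * (g0 ^ 2 / 67) := by
        have h6 : L * 67 ≤ L * L := mul_le_mul_of_nonneg_left hL (by linarith)
        have h7 : L ≤ L * L / 67 := by linarith
        have h8 : L * L / 67 = lam ^ 2 * (g0 ^ 2 / 67) := by
          rw [hLdef]
          ring
        linarith
      have h6 : lam ^ 2 * (16 * n * V) ≤ lam ^ 2 * (g0 ^ 2 / 67) := by
        have : lam ^ 2 * (16 * n * V) = 16 * n * lam ^ 2 * V := by ring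
        rw [this]
        exact h5
      have h7 : 16 * n * V ≤ g0 ^ 2 / 67 := le_of_mul_le_mul_left h6 (by positivity)
      have h8 : V ≤ n * V := by nlinarith
      nlinarith
    have h5 : (n : ℝ) ^ 2 * (256 * V) ≤ (n : ℝ) ^ 2 * g0 ^ 2 :=
      mul_le_mul_of_nonneg_left h4 (by positivity)
    nlinarith
  -- event 3
  have h3 : (nuI d n).real {I | 8 * D ≤ ∫ x, (Ssum E I x) ^ (2 * m) ∂(mu d)} ≤ 1 / 8 := by
    refine markov (nuI d n) _ (fun J => integral_nonneg (fun x => ?_))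
      (integrable_nuI hMc) _ _ (by positivity) (by linarith)
    show 0 ≤ (Ssum E J x) ^ (2 * m)
    rw [pow_mul]
    positivity
  obtain ⟨Good, hGood⟩ : ∃ Good : Set (Fin n → Td d × Bool), Good =
    ({J | 8 * Real.exp (L / 32) ≤ ∫ x, Real.cosh (lam * Ssum G J x) ∂(mu d)} ∪
      {I | (n * g0 / 4) ^ 2 ≤ (Bf G I I - n * G 0) ^ 2} ∪
      {I | 8 * D ≤ ∫ x, (Ssum E I x) ^ (2 * m) ∂(mu d)})ᶜ := ⟨_, rfl⟩
  have hm1 : MeasurableSet {J : Fin n → Td d × Bool | 8 * Real.exp (L / 32) ≤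
      ∫ x, Real.cosh (lam * Ssum G J x) ∂(mu d)} :=
    (isClosed_le continuous_const hAc).measurableSet
  have hm2 : MeasurableSet {I : Fin n → Td d × Bool |
      (n * g0 / 4) ^ 2 ≤ (Bf G I I - n * G 0) ^ 2} :=
    (isClosed_le continuous_const ((hBc.sub continuous_const).pow 2)).measurableSet
  have hm3 : MeasurableSet {I : Fin n → Td d × Bool |
      8 * D ≤ ∫ x, (Ssum E I x) ^ (2 * m) ∂(mu d)} :=
    (isClosed_le continuous_const hMc).measurableSet
  have hGm : MeasurableSet Good := by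
    rw [hGood]
    exact ((hm1.union hm2).union hm3).compl
  have hGP : 1 / 2 ≤ (nuI d n).real Good := by
    rw [hGood, probReal_compl_eq_one_sub ((hm1.union hm2).union hm3)]
    have e1 := measureReal_union_le (μ := nuI d n)
      ({J | 8 * Real.exp (L / 32) ≤ ∫ x, Real.cosh (lam * Ssum G J x) ∂(mu d)} ∪
        {I | (n * g0 / 4) ^ 2 ≤ (Bf G I I - n * G 0) ^ 2})
      {I | 8 * D ≤ ∫ x, (Ssum E I x) ^ (2 * m) ∂(mu d)}
    have e2 := measureReal_union_le (μ := nuI d n)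
      {J | 8 * Real.exp (L / 32) ≤ ∫ x, Real.cosh (lam * Ssum G J x) ∂(mu d)}
      {I | (n * g0 / 4) ^ 2 ≤ (Bf G I I - n * G 0) ^ 2}
    linarith
  have hmem : ∀ I ∈ Good, (∫ x, Real.cosh (lam * Ssum G I x) ∂(mu d) < 8 * Real.exp (L / 32)) ∧
      (3 / 4 * (n * G 0) ≤ Bf G I I) ∧ (∫ x, (Ssum E I x) ^ (2 * m) ∂(mu d) ≤ 8 * D) := by
    intro I hI
    rw [hGood, Set.mem_compl_iff, Set.mem_union, Set.mem_union, not_or, not_or] at hI
    obtain ⟨⟨a1, a2⟩, a3⟩ := hI
    refine ⟨not_le.1 a1, ?_, (not_le.1 a3).le⟩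
    have a4 : (Bf G I I - n * G 0) ^ 2 < (n * g0 / 4) ^ 2 := not_le.1 a2
    have a5 := (abs_lt_of_sq_lt_sq' a4 (by positivity)).1
    rw [← hg0] at a5 ⊢
    linarith
  obtain ⟨δ, hδ⟩ : ∃ δ : ℝ, δ = 2 * Real.exp (-(n * L / 16)) := ⟨_, rfl⟩
  have hδ0 : 0 < δ := by
    rw [hδ]
    positivity
  have h8 : (8 : ℝ) ≤ Real.exp (L / 32) := by
    have e1 : Real.exp (67 / 32) ≤ Real.exp (L / 32) := Real.exp_le_exp.2 (by linarith)
    refine le_trans ?_ e1
    have e2 : Real.log 8 ≤ 67 / 32 := by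
      have : Real.log 8 = 3 * Real.log 2 := by
        rw [show (8 : ℝ) = 2 ^ 3 by norm_num, Real.log_pow]
        norm_num
      rw [this]
      have := Real.log_two_lt_d9
      linarith
    exact (Real.log_le_iff_le_exp (by norm_num)).1 e2
  have hR : ∀ J ∈ Good, (nuI d n).real {I | ¬ |Bf G I J| ≤ n * G 0 / 8} ≤ δ := by
    intro J hJ
    have a1 := (hmem J hJ).1
    have a2 := chernoff_Bf G hG J lam (n * G 0 / 8) hlam
    simp only [not_le]
    refine a2.trans ?_
    have a3 : 0 ≤ ∫ x, Real.cosh (lam * Ssum G J x) ∂(mu d) :=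
      integral_nonneg (fun x => (Real.cosh_pos _).le)
    have a4 : (∫ x, Real.cosh (lam * Ssum G J x) ∂(mu d)) ^ n ≤ (Real.exp (L / 16)) ^ n := by
      refine pow_le_pow_left₀ a3 (a1.le.trans ?_) n
      have e : Real.exp (L / 16) = Real.exp (L / 32) * Real.exp (L / 32) := by
        rw [← Real.exp_add]
        congr 1
        ring
      rw [e]
      exact mul_le_mul_of_nonneg_right h8 (Real.exp_pos _).le
    rw [hδ]
    calc 2 * Real.exp (-(lam * (n * G 0 / 8))) *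
          (∫ x, Real.cosh (lam * Ssum G J x) ∂(mu d)) ^ n
        ≤ 2 * Real.exp (-(lam * (n * G 0 / 8))) * (Real.exp (L / 16)) ^ n :=
          mul_le_mul_of_nonneg_left a4 (by positivity)
      _ = 2 * Real.exp (-(n * L / 16)) := by
          rw [← Real.exp_nat_mul, mul_assoc, ← Real.exp_add, ← hg0, hLdef]
          congr 2
          ring
      _ ≤ _ := le_refl _
  have hirr : ∀ I ∈ Good, ¬ |Bf G I I| ≤ n * G 0 / 8 := by
    intro I hI h
    have a1 := (hmem I hI).2.1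
    have a2 := (abs_le.1 h).2
    rw [← hg0] at a1 a2
    have : 0 < n * g0 := by positivity
    linarith
  obtain ⟨N, hN⟩ : ∃ N : ℕ, N = ⌈Real.exp (n * L / 16) / 8⌉₊ := ⟨_, rfl⟩
  have hNle : Real.exp (n * L / 16) / 8 ≤ N := by
    rw [hN]
    exact Nat.le_ceil _
  have hNlt : (N : ℝ) < Real.exp (n * L / 16) / 8 + 1 := by
    rw [hN]
    exact Nat.ceil_lt_add_one (by positivity)
  have hNδ : (N : ℝ) * δ < 1 / 2 := by
    have e1 : Real.exp (n * L / 16) * Real.exp (-(n * L / 16)) = 1 := by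
      rw [← Real.exp_add]
      simp
    have e2 : Real.exp (-(n * L / 16)) ≤ 1 / 64 := by
      have e3 : Real.exp (-(n * L / 16)) ≤ Real.exp (-(L / 16)) := by
        refine Real.exp_le_exp.2 ?_
        have : L ≤ n * L := by nlinarith
        linarith
      have e4 : Real.exp (L / 16) = Real.exp (L / 32) * Real.exp (L / 32) := by
        rw [← Real.exp_add]
        congr 1
        ring
      have e5 : 64 ≤ Real.exp (L / 16) := by
        rw [e4]
        nlinarith
      rw [Real.exp_neg (L / 16)] at e3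
      refine e3.trans ?_
      rw [one_div]
      exact inv_anti₀ (by norm_num) e5
    have e3 := Real.exp_pos (-(n * L / 16))
    calc (N : ℝ) * δ < (Real.exp (n * L / 16) / 8 + 1) * δ :=
          mul_lt_mul_of_pos_right hNlt hδ0
      _ = (Real.exp (n * L / 16) * Real.exp (-(n * L / 16))) / 4 +
          2 * Real.exp (-(n * L / 16)) := by
          rw [hδ]
          ring
      _ ≤ 1 / 4 + 2 * (1 / 64) := by
          rw [e1]
          linarith
      _ < 1 / 2 := by norm_num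
  obtain ⟨S, hS1, hS2, hS3⟩ := greedy_code (nuI d n) Good hGm hGP
    (fun I J => |Bf G I J| ≤ n * G 0 / 8) δ hδ0 hR hirr N hNδ
  refine ⟨S, ?_, fun I hI => (hmem I (hS2 I hI)).2.1, fun I hI => (hmem I (hS2 I hI)).2.2, ?_⟩
  · rw [hS1, ← hg0, ← hLdef]
    exact hNle
  · intro I hI J hJ hne
    rcases hS3 I hI J hJ hne with h | h
    · exact h
    · rw [Bf_symm G heven I J]
      exact h

end MPcd65c1
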