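import Pool.Agent.Lib.MP_cd65c1_an.Defs

/-!
# MP_cd65c1_an / CNu : the probability spaces of random signed points (about 150 lines)

`nu1 d = mu d × uniform(Bool)`, `nuI d n = (nu1 d)^n`.  All functions below are continuous on the
compact spaces `Td d × Bool` and `Fin n → Td d × Bool` (`Bool` is discrete), hence bounded and
integrable (`Continuous.integrable_of_hasCompactSupport` / `ContinuousOn.integrableOn_compact`).

* `integral_nu1`: `integral_prod` and `∫ f ∂uniform = (f true + f false)/2`
  (`PMF.toMeasure`: `MeasureTheory.integral_fintype`, the measure of a singleton is `1/2`).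
* `integral_prod_nuI`: `MeasureTheory.integral_fintype_prod_eq_pow` (for `Measure.pi`).
* `integral_nuI_succ`: `MeasureTheory.measurePreserving_piFinSuccAbove` at `0` (or `Fin.consEquiv`) and Fubini.
-/

namespace MPcd65c1

open MeasureTheory
open scoped ENNReal

instance instProbNu1 (d : ℕ) : IsProbabilityMeasure (nu1 d) := by
  unfold nu1
  infer_instance

instance instProbNuI (d n : ℕ) : IsProbabilityMeasure (nuI d n) := by
  unfold nuI
  infer_instance

theorem integrable_nu1 {d : ℕ} {f : Td d × Bool → ℝ} (hf : Continuous f) :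
    Integrable f (nu1 d) :=
  hf.integrable_of_hasCompactSupport (HasCompactSupport.of_compactSpace f)

theorem integrable_nuI {d n : ℕ} {f : (Fin n → Td d × Bool) → ℝ} (hf : Continuous f) :
    Integrable f (nuI d n) :=
  hf.integrable_of_hasCompactSupport (HasCompactSupport.of_compactSpace f)

theorem integral_nu1 {d : ℕ} (f : Td d × Bool → ℝ) (hf : Continuous f) :
    ∫ z, f z ∂(nu1 d) =
      ((∫ y, f (y, true) ∂(mu d)) + ∫ y, f (y, false) ∂(mu d)) / 2 := by
  have hint : Integrable f (nu1 d) := integrable_nu1 hf
  unfold nu1 at hint ⊢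
  rw [integral_prod f hint]
  have h1 : ∀ y : Td d, ∫ b, f (y, b) ∂((PMF.uniformOfFintype Bool).toMeasure) =
      (f (y, true) + f (y, false)) / 2 := by
    intro y
    rw [integral_fintype (Integrable.of_finite)]
    have hm : ∀ b : Bool, ((PMF.uniformOfFintype Bool).toMeasure).real {b} = 1 / 2 := by
      intro b
      rw [Measure.real, PMF.toMeasure_apply_singleton _ _ (MeasurableSet.singleton b)]
      simp
    simp only [Fintype.sum_bool, hm, smul_eq_mul]
    ring
  simp only [h1]
  rw [integral_div, integral_add]
  · exact (hf.comp (by fun_prop)).integrable_of_hasCompactSupport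
      (HasCompactSupport.of_compactSpace _)
  · exact (hf.comp (by fun_prop)).integrable_of_hasCompactSupport
      (HasCompactSupport.of_compactSpace _)

theorem integral_prod_nuI {d n : ℕ} (f : Td d × Bool → ℝ) :
    ∫ I, ∏ i, f (I i) ∂(nuI d n) = (∫ z, f z ∂(nu1 d)) ^ n := by
  unfold nuI
  rw [integral_fintype_prod_eq_pow (fun z => f z)]
  simp

theorem integral_nuI_succ {d n : ℕ} (f : (Fin (n + 1) → Td d × Bool) → ℝ) (hf : Continuous f) :
    ∫ I, f I ∂(nuI d (n + 1)) = ∫ z, (∫ I, f (Fin.cons z I) ∂(nuI d n)) ∂(nu1 d) := by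
  have hmp := measurePreserving_piFinSuccAbove (fun _ : Fin (n + 1) => nu1 d) 0
  unfold nuI
  rw [← (hmp.symm).integral_comp' f]
  rw [integral_prod]
  · refine integral_congr_ae (Filter.Eventually.of_forall (fun z => ?_))
    refine integral_congr_ae (Filter.Eventually.of_forall (fun I => ?_))
    have h1 : (MeasurableEquiv.piFinSuccAbove (fun _ : Fin (n + 1) => Td d × Bool) 0).symm (z, I) =
        Fin.cons z I := by
      change Fin.insertNth (α := fun _ : Fin (n + 1) => Td d × Bool) 0 z I = _
      exact Fin.insertNth_zero' z I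
    change f _ = f _
    rw [h1]
  · have hint : Integrable f (nuI d (n + 1)) := integrable_nuI hf
    exact (hmp.symm).integrable_comp_of_integrable hint

theorem continuous_Ssum {d n : ℕ} {E : Td d → ℝ} (hE : Continuous E) :
    Continuous (fun p : (Fin n → Td d × Bool) × Td d => Ssum E p.1 p.2) := by
  unfold Ssum
  refine continuous_finsetSum _ (fun i _ => ?_)
  have h1 : Continuous (fun p : (Fin n → Td d × Bool) × Td d => sg (p.1 i).2) :=
    (continuous_of_discreteTopology (f := sg)).comp (by fun_prop)
  exact h1.mul (hE.comp (by fun_prop))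

theorem continuous_Bf {d n : ℕ} {G : Td d → ℝ} (hG : Continuous G) :
    Continuous (fun p : (Fin n → Td d × Bool) × (Fin n → Td d × Bool) => Bf G p.1 p.2) := by
  unfold Bf
  refine continuous_finsetSum _ (fun i _ => ?_)
  have h1 : Continuous (fun p : (Fin n → Td d × Bool) × (Fin n → Td d × Bool) =>
      sg (p.1 i).2) :=
    (continuous_of_discreteTopology (f := sg)).comp (by fun_prop)
  have h2 : Continuous (fun p : (Fin n → Td d × Bool) × (Fin n → Td d × Bool) =>
      (p.2, (p.1 i).1)) := by fun_prop
  exact h1.mul ((continuous_Ssum hG).comp h2)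

end MPcd65c1
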