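import Mathlib

/-!
# Definitions for MP_cd65c1_an (entropy numbers of W^r_p in L_q, extreme cases)
-/

namespace MPcd65c1

open MeasureTheory
open scoped ENNReal

/-- the `d`-dimensional torus `(ℝ/ℤ)^d` -/
abbrev Td (d : ℕ) : Type := Fin d → UnitAddCircle

/-- normalised Lebesgue (Haar) measure on the torus -/
noncomputable abbrev mu (d : ℕ) : Measure (Td d) :=
  Measure.pi (fun _ : Fin d => (AddCircle.haarAddCircle : Measure UnitAddCircle))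

/-- Fourier coefficient `f^(k) = ∫ e_{-k} f` -/
noncomputable def cf {d : ℕ} (f : Td d → ℂ) (k : Fin d → ℤ) : ℂ :=
  ∫ x, UnitAddTorus.mFourier (-k) x * f x ∂(mu d)

/-- Fourier coefficients of the univariate Bernoulli kernel
`F_r(t) = 1 + 2 Σ_{k ≥ 1} k^{-r} cos(k t - r π/2)` -/
noncomputable def bern (r : ℝ) (k : ℤ) : ℂ :=
  if k = 0 then 1
  else ((|(k : ℝ)| ^ (-r) : ℝ) : ℂ) *
    Complex.exp (-(Complex.I * (((k.sign : ℝ) * r * Real.pi / 2 : ℝ) : ℂ)))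

/-- Fourier coefficients of `F_r(x) = ∏_j F_r(x_j)` -/
noncomputable def lamr {d : ℕ} (r : ℝ) (k : Fin d → ℤ) : ℂ := ∏ j, bern r (k j)

/-- The class `W^r_p` as a subset of `L_q`: all `f ∈ L_q` with `f^ = lamr * φ^`, `‖φ‖_p ≤ 1`. -/
def W (d : ℕ) (r : ℝ) (p q : ℝ≥0∞) : Set (Lp ℂ q (mu d)) :=
  {f | ∃ φ : Td d → ℂ, MemLp φ p (mu d) ∧ eLpNorm φ p (mu d) ≤ 1 ∧
    ∀ k, cf (f : Td d → ℂ) k = lamr r k * cf φ k}

/-- The same with real functions `φ`. -/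
def WR (d : ℕ) (r : ℝ) (p q : ℝ≥0∞) : Set (Lp ℂ q (mu d)) :=
  {f | ∃ φ : Td d → ℝ, MemLp φ p (mu d) ∧ eLpNorm φ p (mu d) ≤ 1 ∧
    ∀ k, cf (f : Td d → ℂ) k = lamr r k * cf (fun x => (φ x : ℂ)) k}

/-- entropy numbers -/
noncomputable def ent {X : Type*} [PseudoMetricSpace X] (n : ℕ) (A : Set X) : ℝ :=
  sInf {ε : ℝ | 0 < ε ∧ ∃ y : Fin (2 ^ n) → X, A ⊆ ⋃ j, Metric.closedBall (y j) ε}

/-- Covering statement: `A` is covered by at most `N` sets `{v | ν (v - y) ≤ ε}`. -/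
def Cov {V : Type*} [AddCommGroup V] (ν : V → ℝ) (A : Set V) (N ε : ℝ) : Prop :=
  ∃ Y : Finset V, (Y.card : ℝ) ≤ N ∧ ∀ a ∈ A, ∃ y ∈ Y, ν (a - y) ≤ ε

/-- the space of coefficient families -/
abbrev CV (d : ℕ) : Type := (Fin d → ℤ) → ℂ

/-- trigonometric polynomial with spectrum in `L` -/
noncomputable def tp {d : ℕ} (L : Finset (Fin d → ℤ)) (c : CV d) : C(Td d, ℂ) :=
  ∑ k ∈ L, c k • (UnitAddTorus.mFourier k : C(Td d, ℂ))

/-- `L_q` norm as a real number -/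
noncomputable def nrm {d : ℕ} (q : ℝ≥0∞) (f : Td d → ℂ) : ℝ := (eLpNorm f q (mu d)).toReal

/-- `ℓ_2(L)` norm -/
noncomputable def l2 {d : ℕ} (L : Finset (Fin d → ℤ)) (c : CV d) : ℝ :=
  Real.sqrt (∑ k ∈ L, ‖c k‖ ^ 2)

/-- image of the unit ball of `L_p` under the multiplier `a` restricted to `L`,
as a set of coefficient families -/
def Img {d : ℕ} (L : Finset (Fin d → ℤ)) (a : CV d) (p : ℝ≥0∞) : Set (CV d) :=
  {c | ∃ φ : Td d → ℂ, MemLp φ p (mu d) ∧ eLpNorm φ p (mu d) ≤ 1 ∧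
    c = fun k => if k ∈ L then a k * cf φ k else 0}

/-- level of a frequency: `Σ_j size |k_j|` (binary lengths) -/
def lev {d : ℕ} (k : Fin d → ℤ) : ℕ := ∑ j, Nat.size (k j).natAbs

/-- one-dimensional dyadic block: `{k : size |k| = s}` (it has `2^s` elements) -/
noncomputable def blk (s : ℕ) : Finset ℤ :=
  (Finset.Ioo (-(2 : ℤ) ^ s) ((2 : ℤ) ^ s)).filter (fun k => Nat.size k.natAbs = s)

/-- the layer `{k : lev k = l}` -/
noncomputable def Lam (d l : ℕ) : Finset (Fin d → ℤ) :=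
  (Finset.Nat.antidiagonalTuple d l).biUnion (fun s => Fintype.piFinset (fun j => blk (s j)))

/-- `M_l = 2^l (l+1)^(d-1)` -/
noncomputable def Mm (d l : ℕ) : ℝ := (2 : ℝ) ^ l * ((l : ℝ) + 1) ^ (d - 1)

/-- the frequencies with `l - d ≤ lev k ≤ l` -/
noncomputable def LL (d l : ℕ) : Finset (Fin d → ℤ) :=
  (Finset.range (l + 1)).biUnion (fun i => if l ≤ i + d then Lam d i else ∅)

/-- `T_l = 2^l (l+1)^g` -/
noncomputable def Tt (g : ℝ) (l : ℕ) : ℝ := (2 : ℝ) ^ l * ((l : ℝ) + 1) ^ g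

/-- source property -/
def SP (d : ℕ) (p : ℝ≥0∞) (g h : ℝ) : Prop :=
  ∃ C : ℝ, 0 < C ∧ ∀ (l : ℕ) (k : ℝ), 0 < k →
    Cov (l2 (LL d l)) (Img (LL d l) 1 p) ((2 : ℝ) ^ k)
      (C * ((l : ℝ) + 1) ^ h * (Mm d l / k) ^ g)

/-- target property -/
def TQ (d : ℕ) (q : ℝ≥0∞) (g h : ℝ) : Prop :=
  ∃ C : ℝ, 0 < C ∧ ∀ (l : ℕ) (k : ℝ), 0 < k →
    Cov (fun c : CV d => nrm q (tp (LL d l) c)) {c | l2 (LL d l) c ≤ 1} ((2 : ℝ) ^ k)
      (C * ((l : ℝ) + 1) ^ h * (Mm d l / k) ^ g)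

/-- level bound for a family of level multipliers, with exponent `b` -/
def LB (d : ℕ) (p q : ℝ≥0∞) (r : ℝ) (a : ℕ → CV d) (g h b : ℝ) : Prop :=
  ∃ C : ℝ, 0 < C ∧ ∀ (l : ℕ) (k : ℝ), 0 < k →
    Cov (fun c : CV d => nrm q (tp (LL d l) c)) (Img (LL d l) (a l) p) ((2 : ℝ) ^ k)
      (C * (2 : ℝ) ^ (-(r * l)) * ((l : ℝ) + 1) ^ h * (Tt g l / k) ^ b)

/-- the order of decay -/
noncomputable def psi (d : ℕ) (p q : ℝ≥0∞) (r : ℝ) (n : ℕ) : ℝ :=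
  if p = 1 ∧ q = ∞ then (n : ℝ) ^ (-r) * (Real.log n) ^ (((d : ℝ) - 1) * r + 1)
  else if 1 / 2 < r then (n : ℝ) ^ (-r) * (Real.log n) ^ (((d : ℝ) - 1) * r + 1 / 2)
  else if r = 1 / 2 then
    (n : ℝ) ^ (-r) * (Real.log n) ^ ((d : ℝ) / 2) * (Real.log (Real.log n)) ^ ((1 : ℝ) / 2)
  else (n : ℝ) ^ (-r) * (Real.log n) ^ (((d : ℝ) - 1) * (1 - r) + r)

/-! kernels for the lower bound -/

/-- one-dimensional majorant `min (2^s) (1/‖x‖)` -/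
noncomputable def qb (s : ℕ) (x : UnitAddCircle) : ℝ := (2 : ℝ) ^ s / max 1 ((2 : ℝ) ^ s * ‖x‖)

/-- level majorant -/
noncomputable def Ql {d : ℕ} (l : ℕ) (x : Td d) : ℝ :=
  ∑ s ∈ Finset.Nat.antidiagonalTuple d l, ∏ j, qb (s j) (x j)

/-- one-dimensional weights -/
noncomputable def wt (r σ : ℝ) (k : ℤ) : ℂ :=
  if k = 0 then 1
  else (((|(k : ℝ)| / (2 : ℝ) ^ (Nat.size k.natAbs)) ^ r : ℝ) : ℂ) *
    Complex.exp (Complex.I * (((k.sign : ℝ) * σ * Real.pi / 2 : ℝ) : ℂ))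

/-- one-dimensional block kernel -/
noncomputable def bl (r σ : ℝ) (s : ℕ) (x : UnitAddCircle) : ℂ :=
  ∑ k ∈ blk s, wt r σ k * (fourier k x : ℂ)

/-- level kernel -/
noncomputable def El {d : ℕ} (r σ : ℝ) (l : ℕ) (x : Td d) : ℂ :=
  ∑ s ∈ Finset.Nat.antidiagonalTuple d l, ∏ j, bl r σ (s j) (x j)

/-- The test kernel `G~ = Σ_{l0 ≤ l ≤ l1} 2^{-l} G_l` (real valued, even) -/
noncomputable def Gt {d : ℕ} (l0 l1 : ℕ) (x : Td d) : ℝ :=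
  ∑ l ∈ Finset.Icc l0 l1, ((2 : ℝ) ^ l)⁻¹ * (El 0 0 l x).re

/-- The companion kernel `E~ = Σ 2^{-l/2} E_l` (real valued) -/
noncomputable def Et {d : ℕ} (r σ : ℝ) (l0 l1 : ℕ) (x : Td d) : ℝ :=
  ∑ l ∈ Finset.Icc l0 l1, ((2 : ℝ) ^ ((l : ℝ) / 2))⁻¹ * (El r σ l x).re

/-- number of levels -/
noncomputable def Lv (l0 l1 : ℕ) : ℝ := (l1 : ℝ) - l0 + 1

/-- `κ = (l0+1)^(d-1)` -/
noncomputable def kap (d l0 : ℕ) : ℝ := ((l0 : ℝ) + 1) ^ (d - 1)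

/-! coding -/

/-- sign of a boolean -/
def sg (b : Bool) : ℝ := if b then 1 else -1

/-- `Σ_i ε_i E(x - y_i)` -/
noncomputable def Ssum {d n : ℕ} (E : Td d → ℝ) (I : Fin n → Td d × Bool) (x : Td d) : ℝ :=
  ∑ i, sg (I i).2 * E (x - (I i).1)

/-- `B(I,J) = Σ_{i,j} ε_i ε'_j G(y_i - y'_j)` -/
noncomputable def Bf {d n : ℕ} (G : Td d → ℝ) (I J : Fin n → Td d × Bool) : ℝ :=
  ∑ i, sg (I i).2 * Ssum G J (I i).1

/-- one random signed point -/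
noncomputable def nu1 (d : ℕ) : Measure (Td d × Bool) :=
  (mu d).prod ((PMF.uniformOfFintype Bool).toMeasure)

/-- `n` independent random signed points -/
noncomputable def nuI (d n : ℕ) : Measure (Fin n → Td d × Bool) :=
  Measure.pi (fun _ => nu1 d)

/-! Gaussian measure -/

/-- density of the standard Gaussian measure on `ℝ^ι` -/
noncomputable def gd {ι : Type*} [Fintype ι] (x : ι → ℝ) : ℝ :=
  ∏ i, ProbabilityTheory.gaussianPDFReal 0 1 (x i)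

/-- standard Gaussian measure on `ℝ^ι` -/
noncomputable def gam (ι : Type*) [Fintype ι] : Measure (ι → ℝ) :=
  volume.withDensity (fun x => ENNReal.ofReal (gd x))

end MPcd65c1
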