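import Pool.Agent.Lib.MP_cd65c1_an.Defs

/-!
# MP_cd65c1_an / Defs2 : smooth level decomposition, pivots, auxiliary statements
-/

namespace MPcd65c1

open MeasureTheory
open scoped ENNReal

/-- de la Vallee-Poussin multiplier: `1` for `|k| ≤ 2^(s-1)`, `0` for `|k| ≥ 2^s`, linear between -/
noncomputable def vp (s : ℕ) (k : ℤ) : ℝ :=
  if s = 0 then (if k = 0 then 1 else 0)
  else max 0 (min 1 (2 - |(k : ℝ)| / (2 : ℝ) ^ (s - 1)))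

/-- smooth dyadic partition of unity -/
noncomputable def eta (s : ℕ) (k : ℤ) : ℝ :=
  if s = 0 then vp 0 k else vp s k - vp (s - 1) k

/-- smooth level cut-off -/
noncomputable def etad {d : ℕ} (l : ℕ) (k : Fin d → ℤ) : ℝ :=
  ∑ s ∈ Finset.Nat.antidiagonalTuple d l, ∏ j, eta (s j) (k j)

/-- level multipliers -/
noncomputable def alm {d : ℕ} (r : ℝ) (l : ℕ) : CV d := fun k => lamr r k * (etad l k : ℝ)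

/-- frequencies of the levels `l0 ≤ l < l1` -/
noncomputable def Lmid (d l0 l1 : ℕ) : Finset (Fin d → ℤ) :=
  (Finset.Ico l0 l1).biUnion (LL d)

/-- multiplier of the levels `l0 ≤ l < l1` -/
noncomputable def amid {d : ℕ} (r : ℝ) (l0 l1 : ℕ) : CV d :=
  fun k => ∑ l ∈ Finset.Ico l0 l1, alm r l k

/-- pivot level: `2^piv ~ n (log n)^(-g)` -/
noncomputable def piv (g : ℝ) (n : ℕ) : ℕ :=
  ⌊Real.logb 2 ((n : ℝ) * (Real.log n) ^ (-g))⌋₊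

/-- upper bound statement -/
def UP (d : ℕ) (p q : ℝ≥0∞) [Fact (1 ≤ q)] (r : ℝ) (ψ : ℕ → ℝ) : Prop :=
  ∃ C : ℝ, 0 < C ∧ ∀ n : ℕ, 3 ≤ n →
    Cov (fun v : Lp ℂ q (mu d) => ‖v‖) (W d r p q) ((2 : ℝ) ^ (n : ℝ)) (C * ψ n)

/-- existence statement -/
def EX (d : ℕ) (p q : ℝ≥0∞) [Fact (1 ≤ q)] (r : ℝ) : Prop :=
  ∀ φ : Td d → ℂ, MemLp φ p (mu d) →
    ∃ f : Lp ℂ q (mu d), ∀ k, cf (f : Td d → ℂ) k = lamr r k * cf φ k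

/-- lower bound statement -/
def LOW (d : ℕ) (p q : ℝ≥0∞) [Fact (1 ≤ q)] (r : ℝ) (ψ : ℕ → ℝ) : Prop :=
  ∃ (c : ℝ) (n0 : ℕ), 0 < c ∧ ∀ n : ℕ, n0 ≤ n → ∀ ε : ℝ,
    Cov (fun v : Lp ℂ q (mu d) => ‖v‖) (WR d r p q) ((2 : ℝ) ^ (n : ℝ)) ε → c * ψ n ≤ ε

/-- parameters for the lower bound -/
def Params (d : ℕ) (r : ℝ) (ψ : ℕ → ℝ) (η c : ℝ) (L0 : ℕ) : Prop :=
  ∃ (c' : ℝ) (n0 : ℕ), 0 < c' ∧ ∀ n : ℕ, n0 ≤ n → ∃ l0 l1 np : ℕ,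
    L0 ≤ l0 ∧ l0 ≤ l1 ∧ l1 ≤ 2 * l0 + 1 ∧ (l0 = l1 ∨ r = 1 / 2) ∧ 1 ≤ np ∧
    (np : ℝ) ≤ η * (2 : ℝ) ^ l0 * (Lv l0 l1) ^ 2 * kap d l0 / ((l0 : ℝ) + 1) ∧
    (2 : ℝ) ^ l1 ≤ np * kap d l0 ∧
    (2 : ℝ) ^ (n : ℝ) < Real.exp (c * np * ((l0 : ℝ) + 1)) ∧
    c' * ψ n ≤ c * (2 : ℝ) ^ ((1 / 2 - r) * l0) * Real.sqrt (Lv l0 l1 * kap d l0 / np)

end MPcd65c1
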