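import Pool.Agent.Lib.MP_cd65c1_an.Defs

/-!
# MP_cd65c1_an / LNum : the order `psi0` and its elementary properties (about 90 lines)

`psi0 d r n` is the order in all cases but `(1,∞)`.  `psi0_double`: `psi0 (2n) ≥ c psi0 n` for `n ≥ 3`
(`(2n)^(-r) = 2^(-r) n^(-r)`, the logarithmic factors have nonnegative exponents and increase:
`log (2n) ≥ log n > 1`, `log log (2n) ≥ log log n > 0`).  `psi0_pos` for `n ≥ 3` (`log 3 > 1`).
-/

namespace MPcd65c1

open scoped ENNReal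

noncomputable def psi0 (d : ℕ) (r : ℝ) (n : ℕ) : ℝ :=
  if 1 / 2 < r then (n : ℝ) ^ (-r) * (Real.log n) ^ (((d : ℝ) - 1) * r + 1 / 2)
  else if r = 1 / 2 then
    (n : ℝ) ^ (-r) * (Real.log n) ^ ((d : ℝ) / 2) * (Real.log (Real.log n)) ^ ((1 : ℝ) / 2)
  else (n : ℝ) ^ (-r) * (Real.log n) ^ (((d : ℝ) - 1) * (1 - r) + r)

noncomputable def psi1 (d : ℕ) (r : ℝ) (n : ℕ) : ℝ :=
  (n : ℝ) ^ (-r) * (Real.log n) ^ (((d : ℝ) - 1) * r + 1)

theorem psi_eq (d : ℕ) (p q : ℝ≥0∞) (r : ℝ) (n : ℕ) :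
    psi d p q r n = if p = 1 ∧ q = ∞ then psi1 d r n else psi0 d r n := by
  unfold psi psi0 psi1
  rfl

private theorem ln_log {n : ℕ} (hn : 3 ≤ n) : 1 < Real.log n := by
  have h1 : (3 : ℝ) ≤ n := by exact_mod_cast hn
  rw [Real.lt_log_iff_exp_lt (by linarith)]
  exact lt_of_lt_of_le Real.exp_one_lt_three h1

private theorem ln_pos {n : ℕ} (hn : 3 ≤ n) : (0 : ℝ) < n := by
  have : 0 < n := by omega
  exact_mod_cast this

theorem psi0_pos (d : ℕ) (r : ℝ) (n : ℕ) (hn : 3 ≤ n) : 0 < psi0 d r n := by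
  have h0 := ln_pos hn
  have h1 := ln_log hn
  have h2 : 0 < Real.log n := by linarith
  have h3 : 0 < Real.log (Real.log n) := Real.log_pos h1
  unfold psi0
  split_ifs <;> positivity

theorem psi1_pos (d : ℕ) (r : ℝ) (n : ℕ) (hn : 3 ≤ n) : 0 < psi1 d r n := by
  have h0 := ln_pos hn
  have h1 := ln_log hn
  have h2 : 0 < Real.log n := by linarith
  unfold psi1
  positivity

private theorem ln_mul {r α : ℝ} (hα : 0 ≤ α) {n : ℕ} (hn : 3 ≤ n) :
    (2 : ℝ) ^ (-r) * ((n : ℝ) ^ (-r) * (Real.log n) ^ α) ≤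
      ((2 * n : ℕ) : ℝ) ^ (-r) * (Real.log ((2 * n : ℕ) : ℝ)) ^ α := by
  have h0 := ln_pos hn
  have h1 := ln_log hn
  have h2 : Real.log n ≤ Real.log ((2 * n : ℕ) : ℝ) := by
    refine Real.log_le_log h0 ?_
    push_cast
    linarith
  have h3 : ((2 * n : ℕ) : ℝ) ^ (-r) = (2 : ℝ) ^ (-r) * (n : ℝ) ^ (-r) := by
    push_cast
    rw [Real.mul_rpow (by norm_num) h0.le]
  rw [h3, ← mul_assoc]
  refine mul_le_mul_of_nonneg_left ?_ (by positivity)
  exact Real.rpow_le_rpow (by linarith) h2 hα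

private theorem ln_bdd {r : ℝ} (hr : 0 < r) (α : ℝ) :
    ∃ C : ℝ, 0 < C ∧ ∀ n : ℕ, 3 ≤ n → (n : ℝ) ^ (-r) * (Real.log n) ^ α ≤ C := by
  rcases le_or_gt α 0 with hα | hα
  · refine ⟨1, one_pos, fun n hn => ?_⟩
    have h0 := ln_pos hn
    have h1 := ln_log hn
    have h2 : (1 : ℝ) ≤ n := by
      have : 1 ≤ n := by omega
      exact_mod_cast this
    have h3 : (n : ℝ) ^ (-r) ≤ 1 := Real.rpow_le_one_of_one_le_of_nonpos h2 (by linarith)
    have h4 : (Real.log n) ^ α ≤ 1 := Real.rpow_le_one_of_one_le_of_nonpos h1.le hα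
    exact mul_le_one₀ h3 (Real.rpow_nonneg (by linarith) _) h4
  · refine ⟨(1 / (r / α)) ^ α, by positivity, fun n hn => ?_⟩
    have h0 := ln_pos hn
    have h1 := ln_log hn
    have hε : 0 < r / α := by positivity
    have h2 : Real.log n ≤ (n : ℝ) ^ (r / α) / (r / α) := Real.log_le_rpow_div h0.le hε
    have h3 : (Real.log n) ^ α ≤ ((n : ℝ) ^ (r / α) / (r / α)) ^ α :=
      Real.rpow_le_rpow (by linarith) h2 hα.le
    have h4 : ((n : ℝ) ^ (r / α) / (r / α)) ^ α = (n : ℝ) ^ r * (1 / (r / α)) ^ α := by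
      rw [div_eq_mul_one_div ((n : ℝ) ^ (r / α)), Real.mul_rpow (by positivity) (by positivity),
        ← Real.rpow_mul h0.le, div_mul_cancel₀ r hα.ne']
    rw [h4] at h3
    calc (n : ℝ) ^ (-r) * (Real.log n) ^ α
        ≤ (n : ℝ) ^ (-r) * ((n : ℝ) ^ r * (1 / (r / α)) ^ α) :=
          mul_le_mul_of_nonneg_left h3 (by positivity)
      _ = (1 / (r / α)) ^ α := by
          rw [← mul_assoc, ← Real.rpow_add h0, neg_add_cancel, Real.rpow_zero, one_mul]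

theorem psi0_double (d : ℕ) (hd : 1 ≤ d) (r : ℝ) (hr : 0 < r) (n : ℕ) (hn : 3 ≤ n) :
    (2 : ℝ) ^ (-r) * psi0 d r n ≤ psi0 d r (2 * n) := by
  have hd' : (1 : ℝ) ≤ d := by exact_mod_cast hd
  have h0 := ln_pos hn
  have h1 := ln_log hn
  unfold psi0
  split_ifs with h2 h3
  · exact ln_mul (by nlinarith) hn
  · have h4 := ln_mul (r := r) (α := (d : ℝ) / 2) (by positivity) hn
    have h5 : (Real.log (Real.log n)) ^ ((1 : ℝ) / 2) ≤
        (Real.log (Real.log ((2 * n : ℕ) : ℝ))) ^ ((1 : ℝ) / 2) := by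
      refine Real.rpow_le_rpow (Real.log_pos h1).le ?_ (by norm_num)
      refine Real.log_le_log (by linarith) (Real.log_le_log h0 ?_)
      push_cast
      linarith
    have h6 : 0 ≤ (Real.log (Real.log n)) ^ ((1 : ℝ) / 2) :=
      Real.rpow_nonneg (Real.log_pos h1).le _
    have h7 : (0 : ℝ) ≤ (2 : ℝ) ^ (-r) * ((n : ℝ) ^ (-r) * (Real.log n) ^ ((d : ℝ) / 2)) := by
      have : 0 < Real.log n := by linarith
      positivity
    calc (2 : ℝ) ^ (-r) * ((n : ℝ) ^ (-r) * (Real.log n) ^ ((d : ℝ) / 2) *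
          (Real.log (Real.log n)) ^ ((1 : ℝ) / 2))
        = ((2 : ℝ) ^ (-r) * ((n : ℝ) ^ (-r) * (Real.log n) ^ ((d : ℝ) / 2))) *
          (Real.log (Real.log n)) ^ ((1 : ℝ) / 2) := by ring
      _ ≤ _ := mul_le_mul h4 h5 h6 (h7.trans h4)
  · have h4 : r < 1 / 2 := lt_of_le_of_ne (not_lt.1 h2) h3
    exact ln_mul (by nlinarith) hn

/-- `psi0` is bounded on `n ≥ 3` -/
theorem psi0_bdd (d : ℕ) (r : ℝ) (hr : 0 < r) : ∃ C : ℝ, 0 < C ∧ ∀ n : ℕ, 3 ≤ n → psi0 d r n ≤ C := by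
  by_cases h2 : 1 / 2 < r
  · obtain ⟨C, hC, h⟩ := ln_bdd hr (((d : ℝ) - 1) * r + 1 / 2)
    refine ⟨C, hC, fun n hn => ?_⟩
    unfold psi0
    rw [if_pos h2]
    exact h n hn
  · by_cases h3 : r = 1 / 2
    · obtain ⟨C, hC, h⟩ := ln_bdd hr ((d : ℝ) / 2 + 1 / 2)
      refine ⟨C, hC, fun n hn => ?_⟩
      have h0 := ln_pos hn
      have h1 := ln_log hn
      have h4 : 0 < Real.log n := by linarith
      unfold psi0
      rw [if_neg h2, if_pos h3]
      refine le_trans ?_ (h n hn)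
      rw [mul_assoc, Real.rpow_add h4]
      refine mul_le_mul_of_nonneg_left (mul_le_mul_of_nonneg_left ?_ (by positivity)) (by positivity)
      refine Real.rpow_le_rpow (Real.log_pos h1).le ?_ (by norm_num)
      exact Real.log_le_self h4.le
    · obtain ⟨C, hC, h⟩ := ln_bdd hr (((d : ℝ) - 1) * (1 - r) + r)
      refine ⟨C, hC, fun n hn => ?_⟩
      unfold psi0
      rw [if_neg h2, if_neg h3]
      exact h n hn

theorem psi1_bdd (d : ℕ) (r : ℝ) (hr : 0 < r) : ∃ C : ℝ, 0 < C ∧ ∀ n : ℕ, 3 ≤ n → psi1 d r n ≤ C :=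
  ln_bdd hr _

end MPcd65c1
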