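import Pool.Agent.Lib.MP_cd65c1_an.ANrm

/-!
# MP_cd65c1_an / UTrunc : truncation and interpolation of `L_p` norms (about 170 lines)

`truncate`: `φ1 = φ` where `‖φ‖ ≤ s` and `0` elsewhere, `φ2 = φ - φ1`.  For `p2 ≥ p`:
`∫ ‖φ1‖^p2 ≤ s^(p2-p) ∫ ‖φ‖^p ≤ s^(p2-p)`, so the norm is `≤ s^(1-p/p2)`.  For `p1 ≤ p`: on `‖φ‖ > s`
`‖φ‖^p1 ≤ s^(p1-p) ‖φ‖^p`, so `∫ ‖φ2‖^p1 ≤ s^(p1-p)`, norm `≤ s^(1-p/p1)`.  (Work with
`eLpNorm_eq_lintegral_rpow_enorm` / lintegrals in `ℝ≥0∞`.)  Measurability: choose first a strongly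
measurable representative?  No: `φ` is only a.e. strongly measurable, but `{‖φ‖ ≤ s}` is null
measurable and `φ1 = indicator`: `AEStronglyMeasurable.indicator₀`.

`nrm_interp`: `1 ≤ q1, q, q2 < ∞` real, `0 < θ < 1`, `1/q = (1-θ)/q1 + θ/q2`:
`‖f‖_q ≤ ‖f‖_q1^(1-θ) ‖f‖_q2^θ` (Hoelder for `|f|^((1-θ)q) |f|^(θq)` with the exponents
`q1/((1-θ)q)` and `q2/(θ q)`; `ENNReal.lintegral_mul_le_Lp_mul_Lq`).
-/

namespace MPcd65c1

open MeasureTheory
open scoped ENNReal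

private theorem UTrunc_eq {d : ℕ} (t : ℝ) (ht : 1 ≤ t) (g : Td d → ℂ) :
    eLpNorm g (ENNReal.ofReal t) (mu d) = (∫⁻ x, ‖g x‖ₑ ^ t ∂(mu d)) ^ (1 / t) := by
  have ht0 : 0 < t := by linarith
  rw [eLpNorm_eq_lintegral_rpow_enorm_toReal (by simpa using ht0) ENNReal.ofReal_ne_top,
    ENNReal.toReal_ofReal ht0.le]

private theorem UTrunc_core {d : ℕ} {φ g : Td d → ℂ} (t p : ℝ) (ht : 1 ≤ t) (hp : 1 ≤ p) {c : ℝ}
    (hc : 0 ≤ c) (h1 : eLpNorm φ (ENNReal.ofReal p) (mu d) ≤ 1)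
    (hle : ∀ x, ‖g x‖ ^ t ≤ c * ‖φ x‖ ^ p) :
    eLpNorm g (ENNReal.ofReal t) (mu d) ≤ ENNReal.ofReal (c ^ (1 / t)) := by
  have ht0 : 0 < t := by linarith
  have hp0 : 0 < p := by linarith
  rw [UTrunc_eq t ht]
  rw [UTrunc_eq p hp] at h1
  have hI : ∫⁻ x, ‖φ x‖ₑ ^ p ∂(mu d) ≤ 1 := by
    have h2 := ENNReal.rpow_le_rpow h1 hp0.le
    rwa [← ENNReal.rpow_mul, one_div_mul_cancel hp0.ne', ENNReal.rpow_one,
      ENNReal.one_rpow] at h2
  have hpt : ∀ x, ‖g x‖ₑ ^ t ≤ ENNReal.ofReal c * ‖φ x‖ₑ ^ p := by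
    intro x
    rw [← ofReal_norm_eq_enorm, ← ofReal_norm_eq_enorm,
      ENNReal.ofReal_rpow_of_nonneg (norm_nonneg _) ht0.le,
      ENNReal.ofReal_rpow_of_nonneg (norm_nonneg _) hp0.le, ← ENNReal.ofReal_mul hc]
    exact ENNReal.ofReal_le_ofReal (hle x)
  have h3 : ∫⁻ x, ‖g x‖ₑ ^ t ∂(mu d) ≤ ENNReal.ofReal c := by
    calc ∫⁻ x, ‖g x‖ₑ ^ t ∂(mu d) ≤ ∫⁻ x, ENNReal.ofReal c * ‖φ x‖ₑ ^ p ∂(mu d) :=
          lintegral_mono hpt
      _ = ENNReal.ofReal c * ∫⁻ x, ‖φ x‖ₑ ^ p ∂(mu d) :=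
          lintegral_const_mul' _ _ ENNReal.ofReal_ne_top
      _ ≤ ENNReal.ofReal c * 1 := by gcongr
      _ = ENNReal.ofReal c := mul_one _
  rw [← ENNReal.ofReal_rpow_of_nonneg hc (by positivity)]
  exact ENNReal.rpow_le_rpow h3 (by positivity)

theorem truncate {d : ℕ} (p : ℝ) (hp : 1 ≤ p) (s : ℝ) (hs : 0 < s) {φ : Td d → ℂ}
    (hφ : MemLp φ (ENNReal.ofReal p) (mu d)) (h1 : eLpNorm φ (ENNReal.ofReal p) (mu d) ≤ 1) :
    ∃ φ1 φ2 : Td d → ℂ, (∀ x, φ x = φ1 x + φ2 x) ∧ (∀ x, φ1 x = φ x ∨ φ1 x = 0) ∧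
      AEStronglyMeasurable φ1 (mu d) ∧ AEStronglyMeasurable φ2 (mu d) ∧
      (∀ x, ‖φ1 x‖ ≤ s) ∧
      (∀ p2 : ℝ, p ≤ p2 → MemLp φ1 (ENNReal.ofReal p2) (mu d) ∧
        eLpNorm φ1 (ENNReal.ofReal p2) (mu d) ≤ ENNReal.ofReal (s ^ (1 - p / p2))) ∧
      (∀ p1 : ℝ, 1 ≤ p1 → p1 ≤ p → MemLp φ2 (ENNReal.ofReal p1) (mu d) ∧
        eLpNorm φ2 (ENNReal.ofReal p1) (mu d) ≤ ENNReal.ofReal (s ^ (1 - p / p1))) := by
  classical
  have hp0 : 0 < p := by linarith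
  set A : Set (Td d) := {x | ‖φ x‖ ≤ s} with hA
  have hAm : NullMeasurableSet A (mu d) :=
    nullMeasurableSet_le hφ.1.norm.aemeasurable aemeasurable_const
  have hm1 : AEStronglyMeasurable (A.indicator φ) (mu d) := hφ.1.indicator₀ hAm
  have hm2 : AEStronglyMeasurable (Aᶜ.indicator φ) (mu d) := hφ.1.indicator₀ hAm.compl
  refine ⟨A.indicator φ, Aᶜ.indicator φ, fun x => ?_, fun x => ?_, hm1, hm2, fun x => ?_,
    fun p2 hp2 => ?_, fun p1 hp1 hp1' => ?_⟩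
  · exact (congrFun (Set.indicator_self_add_compl A φ) x).symm
  · by_cases hx : x ∈ A
    · left
      rw [Set.indicator_of_mem hx]
    · right
      rw [Set.indicator_of_notMem hx]
  · by_cases hx : x ∈ A
    · rw [Set.indicator_of_mem hx]
      exact hx
    · rw [Set.indicator_of_notMem hx, norm_zero]
      exact hs.le
  · have hp20 : 0 < p2 := by linarith
    have hle : ∀ x, ‖A.indicator φ x‖ ^ p2 ≤ s ^ (p2 - p) * ‖φ x‖ ^ p := by
      intro x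
      have hr : 0 ≤ s ^ (p2 - p) * ‖φ x‖ ^ p := by positivity
      by_cases hx : x ∈ A
      · rw [Set.indicator_of_mem hx]
        have e : ‖φ x‖ ^ p2 = ‖φ x‖ ^ (p2 - p) * ‖φ x‖ ^ p := by
          rw [← Real.rpow_add_of_nonneg (norm_nonneg _) (by linarith) hp0.le]
          congr 1
          ring
        rw [e]
        gcongr
        exact hx
      · rw [Set.indicator_of_notMem hx, norm_zero, Real.zero_rpow hp20.ne']
        exact hr
    have hb := UTrunc_core p2 p (hp.trans hp2) hp (by positivity) h1 hle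
    have e : (s ^ (p2 - p)) ^ (1 / p2) = s ^ (1 - p / p2) := by
      rw [← Real.rpow_mul hs.le]
      congr 1
      field_simp
    rw [e] at hb
    exact ⟨⟨hm1, hb.trans_lt ENNReal.ofReal_lt_top⟩, hb⟩
  · have hp10 : 0 < p1 := by linarith
    have hle : ∀ x, ‖Aᶜ.indicator φ x‖ ^ p1 ≤ s ^ (p1 - p) * ‖φ x‖ ^ p := by
      intro x
      have hr : 0 ≤ s ^ (p1 - p) * ‖φ x‖ ^ p := by positivity
      by_cases hx : x ∈ A
      · rw [Set.indicator_of_notMem (by simpa using hx), norm_zero, Real.zero_rpow hp10.ne']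
        exact hr
      · rw [Set.indicator_of_mem hx]
        have hx' : s < ‖φ x‖ := not_le.1 hx
        have hpos : 0 < ‖φ x‖ := hs.trans hx'
        have e : ‖φ x‖ ^ p1 = ‖φ x‖ ^ (p1 - p) * ‖φ x‖ ^ p := by
          rw [← Real.rpow_add hpos]
          congr 1
          ring
        rw [e]
        refine mul_le_mul_of_nonneg_right ?_ (by positivity)
        exact Real.rpow_le_rpow_of_nonpos hs hx'.le (by linarith)
    have hb := UTrunc_core p1 p hp1 hp (by positivity) h1 hle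
    have e : (s ^ (p1 - p)) ^ (1 / p1) = s ^ (1 - p / p1) := by
      rw [← Real.rpow_mul hs.le]
      congr 1
      field_simp
    rw [e] at hb
    exact ⟨⟨hm2, hb.trans_lt ENNReal.ofReal_lt_top⟩, hb⟩

theorem nrm_interp {d : ℕ} (q1 q q2 θ : ℝ) (hq1 : 1 ≤ q1) (hq : 1 ≤ q) (hq2 : 1 ≤ q2)
    (hθ0 : 0 < θ) (hθ1 : θ < 1) (h : 1 / q = (1 - θ) / q1 + θ / q2) {f : Td d → ℂ}
    (hf1 : MemLp f (ENNReal.ofReal q1) (mu d)) (hf2 : MemLp f (ENNReal.ofReal q2) (mu d)) :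
    nrm (ENNReal.ofReal q) f ≤
      nrm (ENNReal.ofReal q1) f ^ (1 - θ) * nrm (ENNReal.ofReal q2) f ^ θ := by
  have hq10 : 0 < q1 := by linarith
  have hq0 : 0 < q := by linarith
  have hq20 : 0 < q2 := by linarith
  have hθ' : 0 < 1 - θ := by linarith
  set a : ℝ := q1 / ((1 - θ) * q) with ha
  set b : ℝ := q2 / (θ * q) with hb
  have ha0 : 0 < a := by positivity
  have hb0 : 0 < b := by positivity
  have hab : 1 / a + 1 / b = 1 := by
    rw [ha, hb, one_div_div, one_div_div]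
    have : (1 - θ) * q / q1 + θ * q / q2 = q * ((1 - θ) / q1 + θ / q2) := by ring
    rw [this, ← h]
    field_simp
  have ha1 : 1 < a := by
    have h2 : 0 < 1 / b := by positivity
    have h3 : 1 / a < 1 := by linarith
    rwa [div_lt_one ha0] at h3
  have hconj : a.HolderConjugate b := by
    rw [Real.holderConjugate_iff]
    refine ⟨ha1, ?_⟩
    simpa [one_div] using hab
  have hme : AEMeasurable (fun x => ‖f x‖ₑ) (mu d) := hf1.1.enorm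
  have hH := ENNReal.lintegral_mul_le_Lp_mul_Lq (mu d) hconj
    (f := fun x => ‖f x‖ₑ ^ ((1 - θ) * q)) (g := fun x => ‖f x‖ₑ ^ (θ * q))
    (hme.pow_const _) (hme.pow_const _)
  have e1 : ∀ x, ((fun x => ‖f x‖ₑ ^ ((1 - θ) * q)) * fun x => ‖f x‖ₑ ^ (θ * q)) x =
      ‖f x‖ₑ ^ q := by
    intro x
    simp only [Pi.mul_apply]
    rw [← ENNReal.rpow_add_of_nonneg _ _ (by positivity) (by positivity)]
    congr 1
    ring
  have e2 : ∀ x, (‖f x‖ₑ ^ ((1 - θ) * q)) ^ a = ‖f x‖ₑ ^ q1 := by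
    intro x
    rw [← ENNReal.rpow_mul, ha]
    congr 1
    field_simp
  have e3 : ∀ x, (‖f x‖ₑ ^ (θ * q)) ^ b = ‖f x‖ₑ ^ q2 := by
    intro x
    rw [← ENNReal.rpow_mul, hb]
    congr 1
    field_simp
  simp only [e1, e2, e3] at hH
  have key : eLpNorm f (ENNReal.ofReal q) (mu d) ≤
      eLpNorm f (ENNReal.ofReal q1) (mu d) ^ (1 - θ) *
        eLpNorm f (ENNReal.ofReal q2) (mu d) ^ θ := by
    rw [UTrunc_eq q hq, UTrunc_eq q1 hq1, UTrunc_eq q2 hq2]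
    refine (ENNReal.rpow_le_rpow hH (by positivity : 0 ≤ 1 / q)).trans ?_
    rw [ENNReal.mul_rpow_of_nonneg _ _ (by positivity : 0 ≤ 1 / q), ← ENNReal.rpow_mul,
      ← ENNReal.rpow_mul, ← ENNReal.rpow_mul, ← ENNReal.rpow_mul]
    have g1 : 1 / a * (1 / q) = 1 / q1 * (1 - θ) := by
      rw [ha]
      field_simp
    have g2 : 1 / b * (1 / q) = 1 / q2 * θ := by
      rw [hb]
      field_simp
    rw [g1, g2]
  have hne1 : eLpNorm f (ENNReal.ofReal q1) (mu d) ≠ ∞ := hf1.2.ne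
  have hne2 : eLpNorm f (ENNReal.ofReal q2) (mu d) ≠ ∞ := hf2.2.ne
  unfold nrm
  rw [ENNReal.toReal_rpow, ENNReal.toReal_rpow, ← ENNReal.toReal_mul]
  refine ENNReal.toReal_mono ?_ key
  exact ENNReal.mul_ne_top (ENNReal.rpow_ne_top_of_nonneg hθ'.le hne1)
    (ENNReal.rpow_ne_top_of_nonneg hθ0.le hne2)

end MPcd65c1
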