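import Pool.Agent.Lib.MP_cd65c1_an.H1
import Pool.Agent.Lib.MP_cd65c1_an.UTrunc
import Pool.Agent.Lib.MP_cd65c1_an.ALp
import Pool.Agent.Lib.MP_cd65c1_an.Defs2
import Pool.Agent.Lib.MP_cd65c1_an.LNum

/-!
# MP_cd65c1_an / EInf : lower bound for `(∞,∞)` from `(2m,∞)` and the upper bound for `(m,∞)`

Let `s > 0`, `f ∈ WR d r (2m) ∞` with real `φ`.  `truncate` (`p = 2m`, `p1 = m`): `φ = φ1 + φ2`, `|φ1| ≤ s`,
`‖φ2‖_m ≤ s^(1-2) = s^(-1)`; `φ1 x ∈ {φ x, 0}`, so `φ1`, `φ2` are real.  `EX d ∞ ∞ r` gives `f1 ∈ L_∞` for `φ1/s`,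
`EX d m ∞ r` gives `f2` for `s φ2`; `f = s f1 + s^(-1) f2` (`Lp_ext_cf`).  So with `Cov.trunc`
`Cov (WR d r ∞ ∞) (2^n) ε` and `UP d m ∞` (`C psi0 n`) give
`Cov (WR d r (2m) ∞) (2^(2n)) (s ε + s^(-1) C psi0 n)`, hence (`LOW d (2m) ∞`, `n ≥ n0`, index `2n`)
`c psi0(2n) ≤ s ε + s^(-1) C psi0 n` for all `s > 0`.  With `a = c 2^(-r)` and `s = 2C/a` this is
`a psi0 n ≤ (2C/a) ε + (a/2) psi0 n`, so `ε ≥ a^2/(4C) psi0 n`.
-/

namespace MPcd65c1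

open MeasureTheory
open scoped ENNReal

private theorem ei_sn {d : ℕ} (q : ℝ≥0∞) [Fact (1 ≤ q)] : Sn (fun v : Lp ℂ q (mu d) => ‖v‖) where
  add x y := norm_add_le x y
  smul t x := by
    show ‖t • x‖ = |t| * ‖x‖
    rw [norm_smul, Real.norm_eq_abs]

private theorem ei_cf {d : ℕ} (q : ℝ≥0∞) [Fact (1 ≤ q)] (s t : ℝ) (u v : Lp ℂ q (mu d))
    (k : Fin d → ℤ) :
    cf ((s • u + t • v : Lp ℂ q (mu d)) : Td d → ℂ) k =
      (s : ℂ) * cf (u : Td d → ℂ) k + (t : ℂ) * cf (v : Td d → ℂ) k := by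
  have h1 : ((s • u + t • v : Lp ℂ q (mu d)) : Td d → ℂ) =ᵐ[mu d]
      fun x => (s : ℂ) * (u : Td d → ℂ) x + (t : ℂ) * (v : Td d → ℂ) x := by
    filter_upwards [Lp.coeFn_add (s • u) (t • v), Lp.coeFn_smul s u, Lp.coeFn_smul t v]
      with x h2 h3 h4
    rw [h2, Pi.add_apply, h3, h4, Pi.smul_apply, Pi.smul_apply]
    simp only [Complex.real_smul]
  rw [cf_congr h1, cf_add ((integrable_Lp q u).const_mul _) ((integrable_Lp q v).const_mul _),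
    cf_smul, cf_smul]

private theorem ei_key {d : ℕ} (r : ℝ) (m : ℕ) (hm : 2 ≤ m) (H3 : EX d (m : ℝ≥0∞) ∞ r)
    (H4 : EX d ∞ ∞ r) (s : ℝ) (hs : 0 < s) (f : Lp ℂ ∞ (mu d))
    (hf : f ∈ WR d r ((2 * m : ℕ) : ℝ≥0∞) ∞) :
    ∃ b1 ∈ WR d r ∞ ∞, ∃ b2 ∈ W d r (m : ℝ≥0∞) ∞, f = s • b1 + s⁻¹ • b2 := by
  obtain ⟨φ, h1, h2, h3⟩ := hf
  have hm0 : (0 : ℝ) < m := by
    have : 0 < m := by omega
    exact_mod_cast this
  have hm1 : (1 : ℝ) ≤ m := by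
    have : 1 ≤ m := by omega
    exact_mod_cast this
  have e1 : ((2 * m : ℕ) : ℝ≥0∞) = ENNReal.ofReal (2 * m : ℝ) := by
    rw [← ENNReal.ofReal_natCast]
    push_cast
    rfl
  have e2 : (m : ℝ≥0∞) = ENNReal.ofReal (m : ℝ) := by
    rw [ENNReal.ofReal_natCast]
  have h4 : MemLp (fun x => (φ x : ℂ)) (ENNReal.ofReal (2 * m : ℝ)) (mu d) := by
    rw [← e1]
    exact h1.ofReal
  have h5 : eLpNorm (fun x => (φ x : ℂ)) (ENNReal.ofReal (2 * m : ℝ)) (mu d) ≤ 1 := by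
    rw [← e1]
    refine le_trans (le_of_eq ?_) h2
    refine eLpNorm_congr_norm_ae (Filter.Eventually.of_forall fun x => ?_)
    simp
  obtain ⟨φ1, φ2, g1, g2, g3, g4, g5, -, g7⟩ := truncate (2 * m : ℝ) (by linarith) s hs h4 h5
  obtain ⟨g8, g9⟩ := g7 m hm1 (by linarith)
  have e3 : (1 : ℝ) - 2 * m / m = -1 := by
    field_simp
    norm_num
  rw [e3, Real.rpow_neg_one] at g9
  rw [← e2] at g8 g9
  have hr1 : ∀ x, (((φ1 x).re : ℝ) : ℂ) = φ1 x := by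
    intro x
    rcases g2 x with h | h
    · rw [h, Complex.ofReal_re]
    · rw [h]; simp
  -- first part
  have i1 : MemLp (fun x => ((s⁻¹ : ℝ) : ℂ) * φ1 x) ∞ (mu d) := by
    refine MemLp.of_bound (g3.const_mul _) 1 (Filter.Eventually.of_forall fun x => ?_)
    rw [norm_mul, Complex.norm_real, Real.norm_of_nonneg (by positivity),
      inv_mul_le_iff₀ hs, mul_one]
    exact g5 x
  obtain ⟨b1, hb1⟩ := H4 _ i1
  have i2 : MemLp (fun x => (s : ℂ) * φ2 x) (m : ℝ≥0∞) (mu d) := g8.const_mul _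
  obtain ⟨b2, hb2⟩ := H3 _ i2
  refine ⟨b1, ⟨fun x => s⁻¹ * (φ1 x).re, ?_, ?_, ?_⟩, b2, ⟨_, i2, ?_, hb2⟩, ?_⟩
  · have := i1.re
    refine this.ae_eq (Filter.Eventually.of_forall fun x => ?_)
    simp only [RCLike.re_to_complex]
    rw [Complex.re_ofReal_mul]
  · refine le_trans (eLpNorm_exponent_top.le.trans (eLpNormEssSup_le_of_ae_bound (C := 1)
      (Filter.Eventually.of_forall fun x => ?_))) (by simp)
    rw [norm_mul, Real.norm_of_nonneg (by positivity : (0 : ℝ) ≤ s⁻¹), inv_mul_le_iff₀ hs, mul_one]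
    exact (Complex.abs_re_le_norm _).trans (g5 x)
  · intro k
    rw [hb1 k]
    congr 2
    funext x
    rw [Complex.ofReal_mul, hr1 x]
  · have j1 : eLpNorm (fun x => (s : ℂ) * φ2 x) (m : ℝ≥0∞) (mu d) =
        ENNReal.ofReal s * eLpNorm φ2 (m : ℝ≥0∞) (mu d) := by
      have := eLpNorm_const_smul (s : ℂ) φ2 (m : ℝ≥0∞) (mu d)
      rw [show (fun x => (s : ℂ) * φ2 x) = (s : ℂ) • φ2 from rfl, this]
      congr 1
      rw [← ofReal_norm, Complex.norm_real, Real.norm_of_nonneg hs.le]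
    rw [j1]
    calc ENNReal.ofReal s * eLpNorm φ2 (m : ℝ≥0∞) (mu d)
        ≤ ENNReal.ofReal s * ENNReal.ofReal s⁻¹ := mul_le_mul_right g9 _
      _ = 1 := by
          rw [← ENNReal.ofReal_mul hs.le, mul_inv_cancel₀ hs.ne', ENNReal.ofReal_one]
  · refine Lp_ext_cf ∞ fun k => ?_
    rw [ei_cf, hb1 k, hb2 k, h3 k, cf_smul, cf_smul]
    have j2 : cf (fun x => (φ x : ℂ)) k = cf φ1 k + cf φ2 k := by
      have j3 : (fun x => (φ x : ℂ)) = fun x => φ1 x + φ2 x := by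
        funext x
        exact g1 x
      rw [j3, cf_add]
      · exact memLp_one_iff_integrable.1
          ((MemLp.of_bound g3 s (Filter.Eventually.of_forall g5) : MemLp φ1 ∞ (mu d)).mono_exponent
            le_top)
      · refine memLp_one_iff_integrable.1 (g8.mono_exponent ?_)
        have : 1 ≤ m := by omega
        exact_mod_cast this
    rw [j2]
    have hsC : (s : ℂ) ≠ 0 := by exact_mod_cast hs.ne'
    rw [Complex.ofReal_inv]
    field_simp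

theorem low_infty (d : ℕ) (hd : 1 ≤ d) (r : ℝ) (hr : 0 < r) (m : ℕ) (hm : 2 ≤ m)
    (H1 : LOW d ((2 * m : ℕ) : ℝ≥0∞) ∞ r (psi0 d r)) (H2 : UP d (m : ℝ≥0∞) ∞ r (psi0 d r))
    (H3 : EX d (m : ℝ≥0∞) ∞ r) (H4 : EX d ∞ ∞ r) : LOW d ∞ ∞ r (psi0 d r) := by
  obtain ⟨c, n0, hc, h1⟩ := H1
  obtain ⟨C, hC, h2⟩ := H2
  have ha : 0 < c * (2 : ℝ) ^ (-r) := by positivity
  refine ⟨(c * (2 : ℝ) ^ (-r)) ^ 2 / (4 * C), max n0 3, by positivity, fun n hn ε hcov => ?_⟩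
  have hn3 : 3 ≤ n := le_trans (le_max_right _ _) hn
  have hn0 : n0 ≤ 2 * n := by
    have := le_trans (le_max_left _ _) hn
    omega
  have hP := psi0_pos d r n hn3
  have key : ∀ s : ℝ, 0 < s → c * (2 : ℝ) ^ (-r) * psi0 d r n ≤ s * ε + s⁻¹ * (C * psi0 d r n) := by
    intro s hs
    have h3 := Cov.trunc (A := WR d r ((2 * m : ℕ) : ℝ≥0∞) ∞) (ei_sn ∞) hs.le (inv_nonneg.2 hs.le)
      (fun a ha => ei_key r m hm H3 H4 s hs a ha) hcov (h2 n hn3)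
    have h4 : (2 : ℝ) ^ (n : ℝ) * (2 : ℝ) ^ (n : ℝ) = (2 : ℝ) ^ (((2 * n : ℕ)) : ℝ) := by
      rw [← Real.rpow_add (by norm_num)]
      push_cast
      congr 1
      ring
    rw [h4] at h3
    have h5 := h1 (2 * n) hn0 _ h3
    refine le_trans ?_ h5
    rw [mul_assoc]
    exact mul_le_mul_of_nonneg_left (psi0_double d hd r hr n hn3) hc.le
  have h6 := key (2 * C / (c * (2 : ℝ) ^ (-r))) (by positivity)
  set a := c * (2 : ℝ) ^ (-r) with hadef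
  rw [inv_div] at h6
  have h7 : a / (2 * C) * (C * psi0 d r n) = a / 2 * psi0 d r n := by
    field_simp
  rw [h7] at h6
  have h8 : a / 2 * psi0 d r n ≤ 2 * C / a * ε := by linarith
  have h9 : 2 * C / a * ε = (2 * C * ε) / a := by ring
  rw [h9, le_div_iff₀ ha] at h8
  rw [div_mul_eq_mul_div, div_le_iff₀ (by positivity)]
  nlinarith

end MPcd65c1
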