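import Pool.Agent.Lib.MP_cd65c1_an.H1
import Pool.Agent.Lib.MP_cd65c1_an.UTrunc
import Pool.Agent.Lib.MP_cd65c1_an.ALp
import Pool.Agent.Lib.MP_cd65c1_an.Defs2
import Pool.Agent.Lib.MP_cd65c1_an.LNum

/-!
# MP_cd65c1_an / EOne : lower bound for `(1,1)` from `(1,(2m)')` and the upper bound for `(1,m')`
(about 150 lines)

`q1 = 2m/(2m-1)`, `q0 = m/(m-1)`, `1/q1 = (1/2)/1 + (1/2)/q0`: `nrm_interp` with `θ = 1/2`.
For every `φ ∈ L_1` there is `f ∈ L_q0` with `f^ = lamr φ^` (`EX d 1 q0 r`); its class is also in `L_q1`, `L_1`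
(`MemLp.mono_exponent`), and by uniqueness all elements of `WR d r 1 q1`, `WR d r 1 1` are of this form.
Suppose `Cov (WR d r 1 1) (2^n) ε`, and `UP d 1 q0` with `C psi0 n`.  CELLS (as in `Cov.cells`, but the three
sets live in three `L_q` spaces and are indexed by the `φ`'s): for each pair (centre in `L_1`, centre in
`L_q0`) choose, if possible, one `φ` with both distances small, and take its `f` in `L_q1` as the centre.
Two `φ, φ'` in a cell: `‖f-f'‖_1 ≤ 2ε`, `‖f-f'‖_q0 ≤ 2 C psi0 n`, so `‖f-f'‖_q1 ≤ 2 sqrt(ε C psi0 n)`.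
Hence `Cov (WR d r 1 q1) (2^(2n)) (2 sqrt(ε C psi0 n))` and `LOW d 1 q1` gives
`c psi0(2n) ≤ 2 sqrt(ε C psi0 n)`, so `ε ≥ c' psi0 n` (`psi0_double`) (`ε ≥ 0` because `WR` is not empty).

`low_transfer`: `LOW d 1 1` implies `LOW d 1 q` if `EX d 1 q r`: `Cov (WR d r 1 q) N ε` in `L_q` implies
`Cov (WR d r 1 1) N ε` in `L_1` (centres `y ∈ L_q ⊆ L_1`, `‖·‖_1 ≤ ‖·‖_q`).
`low_mono_src`: `WR d r p' q ⊆ WR d r p q` for `p ≤ p'`.
-/

namespace MPcd65c1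

open MeasureTheory
open scoped ENNReal

/-- the inclusion `L_q0 → L_q'` for `q' ≤ q0` -/
private noncomputable def dn {d : ℕ} {q0 q' : ℝ≥0∞} [Fact (1 ≤ q0)] [Fact (1 ≤ q')] (hq : q' ≤ q0) :
    Lp ℂ q0 (mu d) →ₗ[ℝ] Lp ℂ q' (mu d) where
  toFun u := ((Lp.memLp u).mono_exponent hq).toLp (u : Td d → ℂ)
  map_add' u v := by
    apply Lp.ext
    have h1 := ((Lp.memLp (u + v)).mono_exponent hq).coeFn_toLp
    have h2 := ((Lp.memLp u).mono_exponent hq).coeFn_toLp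
    have h3 := ((Lp.memLp v).mono_exponent hq).coeFn_toLp
    have h4 := Lp.coeFn_add (((Lp.memLp u).mono_exponent hq).toLp (u : Td d → ℂ))
      (((Lp.memLp v).mono_exponent hq).toLp (v : Td d → ℂ))
    have h5 := Lp.coeFn_add u v
    filter_upwards [h1, h2, h3, h4, h5] with x e1 e2 e3 e4 e5
    rw [e1, e4, e5]
    simp only [Pi.add_apply]
    rw [e2, e3]
  map_smul' t u := by
    apply Lp.ext
    have h1 := ((Lp.memLp (t • u)).mono_exponent hq).coeFn_toLp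
    have h2 := ((Lp.memLp u).mono_exponent hq).coeFn_toLp
    have h4 := Lp.coeFn_smul t (((Lp.memLp u).mono_exponent hq).toLp (u : Td d → ℂ))
    have h5 := Lp.coeFn_smul t u
    filter_upwards [h1, h2, h4, h5] with x e1 e2 e4 e5
    rw [e1, RingHom.id_apply, e4, e5]
    simp only [Pi.smul_apply]
    rw [e2]

private theorem coe_dn {d : ℕ} {q0 q' : ℝ≥0∞} [Fact (1 ≤ q0)] [Fact (1 ≤ q')] (hq : q' ≤ q0)
    (u : Lp ℂ q0 (mu d)) : (dn hq u : Td d → ℂ) =ᵐ[mu d] (u : Td d → ℂ) :=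
  ((Lp.memLp u).mono_exponent hq).coeFn_toLp

private theorem norm_dn {d : ℕ} {q0 q' : ℝ≥0∞} [Fact (1 ≤ q0)] [Fact (1 ≤ q')] (hq : q' ≤ q0)
    (u : Lp ℂ q0 (mu d)) : ‖dn hq u‖ = nrm q' (u : Td d → ℂ) := by
  rw [Lp.norm_def]
  unfold nrm
  rw [eLpNorm_congr_ae (coe_dn hq u)]

private theorem norm_eq_nrm {d : ℕ} {q : ℝ≥0∞} [Fact (1 ≤ q)] (u : Lp ℂ q (mu d)) :
    ‖u‖ = nrm q (u : Td d → ℂ) := Lp.norm_def u

private theorem norm_dn_le {d : ℕ} {q0 q' : ℝ≥0∞} [Fact (1 ≤ q0)] [Fact (1 ≤ q')] (hq : q' ≤ q0)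
    (u : Lp ℂ q0 (mu d)) : ‖dn hq u‖ ≤ ‖u‖ := by
  rw [norm_dn, norm_eq_nrm]
  exact nrm_mono_exp hq (Lp.memLp u)

private theorem sn_norm {E : Type*} [NormedAddCommGroup E] [NormedSpace ℝ E] :
    Sn (fun v : E => ‖v‖) where
  add x y := norm_add_le x y
  smul t x := by rw [norm_smul, Real.norm_eq_abs]

/-- pull back a covering, with centres in the set -/
private theorem pull {V W : Type*} [AddCommGroup V] [AddCommGroup W] [Module ℝ W] {ω : W → ℝ}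
    (hω : Sn ω) (T : V → W) (hT : ∀ u v, T (u - v) = T u - T v) {A : Set V} {N e : ℝ}
    (h : Cov ω (T '' A) N e) : Cov (fun u => ω (T u)) A N (2 * e) := by
  classical
  obtain ⟨Y, hY, hc⟩ := h
  let f : W → V := fun y => if h : ∃ a ∈ A, ω (T a - y) ≤ e then h.choose else 0
  refine ⟨Y.image f, (Nat.cast_le.mpr Finset.card_image_le).trans hY, fun a ha => ?_⟩
  obtain ⟨y, hy, h1⟩ := hc (T a) ⟨a, ha, rfl⟩
  have hP : ∃ a ∈ A, ω (T a - y) ≤ e := ⟨a, ha, h1⟩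
  refine ⟨f y, Finset.mem_image_of_mem f hy, ?_⟩
  have hf : f y = hP.choose := dif_pos hP
  have h2 := hP.choose_spec.2
  rw [← hf] at h2
  simp only [hT]
  have h3 := hω.sub_le' (T a) y (T (f y))
  rw [hω.sub_comm y] at h3
  linarith

/-- every element of the real class in `L_q'` comes from the class in `L_q0` -/
private theorem WR_image {d : ℕ} (r : ℝ) {q0 q' : ℝ≥0∞} [Fact (1 ≤ q0)] [Fact (1 ≤ q')]
    (hq : q' ≤ q0) (H3 : EX d 1 q0 r) : WR d r 1 q' ⊆ dn hq '' (WR d r 1 q0) := by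
  rintro f ⟨φ, h1, h2, h3⟩
  obtain ⟨g, hg⟩ := H3 (fun x => (φ x : ℂ)) h1.ofReal
  refine ⟨g, ⟨φ, h1, h2, hg⟩, ?_⟩
  apply Lp_ext_cf
  intro k
  rw [cf_congr (coe_dn hq g) k, hg k, h3 k]

private theorem image_WR {d : ℕ} (r : ℝ) {q0 q' : ℝ≥0∞} [Fact (1 ≤ q0)] [Fact (1 ≤ q')]
    (hq : q' ≤ q0) : dn hq '' (WR d r 1 q0) ⊆ WR d r 1 q' := by
  rintro _ ⟨g, ⟨φ, h1, h2, h3⟩, rfl⟩
  refine ⟨φ, h1, h2, fun k => ?_⟩
  rw [cf_congr (coe_dn hq g) k, h3 k]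

private theorem WR_sub_W' {d : ℕ} (r : ℝ) (p q : ℝ≥0∞) : WR d r p q ⊆ W d r p q := by
  rintro f ⟨φ, h1, h2, h3⟩
  refine ⟨fun x => (φ x : ℂ), h1.ofReal, ?_, h3⟩
  refine le_trans (le_of_eq ?_) h2
  apply eLpNorm_congr_norm_ae
  filter_upwards with x
  simp

private theorem zero_mem_WR {d : ℕ} (r : ℝ) (p q : ℝ≥0∞) [Fact (1 ≤ q)] :
    (0 : Lp ℂ q (mu d)) ∈ WR d r p q := by
  refine ⟨fun _ => 0, MemLp.zero', by simp, fun k => ?_⟩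
  have h1 : cf ((0 : Lp ℂ q (mu d)) : Td d → ℂ) k = cf (fun _ => (0 : ℂ)) k := by
    apply cf_congr
    filter_upwards [Lp.coeFn_zero ℂ q (mu d)] with x hx
    rw [hx]
    rfl
  rw [h1]
  simp [cf]

theorem low_one (d : ℕ) (hd : 1 ≤ d) (r : ℝ) (hr : 0 < r) (m : ℕ) (hm : 2 ≤ m)
    (q1 q0 : ℝ≥0∞) [Fact (1 ≤ q1)] [Fact (1 ≤ q0)]
    (hq1 : q1 = ENNReal.ofReal (2 * (m : ℝ) / (2 * m - 1)))
    (hq0 : q0 = ENNReal.ofReal ((m : ℝ) / (m - 1)))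
    (H1 : LOW d 1 q1 r (psi0 d r)) (H2 : UP d 1 q0 r (psi0 d r)) (H3 : EX d 1 q0 r) :
    LOW d 1 1 r (psi0 d r) := by
  have hm2 : (2 : ℝ) ≤ m := by exact_mod_cast hm
  have hq10 : q1 ≤ q0 := by
    rw [hq1, hq0]
    apply ENNReal.ofReal_le_ofReal
    rw [div_le_div_iff₀ (by linarith) (by linarith)]
    nlinarith
  have h1q0 : (1 : ℝ≥0∞) ≤ q0 := Fact.out
  obtain ⟨c, n0, hc, hL⟩ := H1
  obtain ⟨C, hC, hU⟩ := H2
  refine ⟨c ^ 2 * ((2 : ℝ) ^ (-r)) ^ 2 / (8 * C), max n0 3, by positivity, fun n hn ε hcov => ?_⟩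
  have hn3 : 3 ≤ n := (le_max_right _ _).trans hn
  have hn0 : n0 ≤ n := (le_max_left _ _).trans hn
  have hψ := psi0_pos d r n hn3
  set ψ : ℝ := psi0 d r n with hψdef
  have hε : 0 ≤ ε := by
    obtain ⟨Y, -, hY⟩ := hcov
    obtain ⟨y, -, hy⟩ := hY 0 (zero_mem_WR r 1 1)
    exact (norm_nonneg _).trans hy
  -- the covering in the small space
  have e1 : Cov (fun u : Lp ℂ q0 (mu d) => ‖dn h1q0 u‖) (WR d r 1 q0) ((2 : ℝ) ^ (n : ℝ)) (2 * ε) :=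
    pull sn_norm (dn h1q0) (fun u v => map_sub _ u v) (hcov.mono_A (image_WR r h1q0))
  have e2 : Cov (fun u : Lp ℂ q0 (mu d) => ‖u‖) (WR d r 1 q0) ((2 : ℝ) ^ (n : ℝ)) (C * ψ) :=
    (hU n hn3).mono_A (WR_sub_W' r 1 q0)
  have hint : ∀ v : Lp ℂ q0 (mu d), ‖dn hq10 v‖ ≤ ‖dn h1q0 v‖ ^ (1 - (1 / 2 : ℝ)) * ‖v‖ ^ (1 / 2 : ℝ) := by
    intro v
    have hv0 : MemLp (v : Td d → ℂ) (ENNReal.ofReal ((m : ℝ) / (m - 1))) (mu d) := by
      rw [← hq0]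
      exact Lp.memLp v
    have hv1 : MemLp (v : Td d → ℂ) (ENNReal.ofReal 1) (mu d) := by
      rw [ENNReal.ofReal_one]
      exact (Lp.memLp v).mono_exponent h1q0
    have h := nrm_interp 1 (2 * (m : ℝ) / (2 * m - 1)) ((m : ℝ) / (m - 1)) (1 / 2) le_rfl
      (by rw [le_div_iff₀ (by linarith)]; linarith)
      (by rw [le_div_iff₀ (by linarith)]; linarith) (by norm_num) (by norm_num)
      (by
        have h1 : (m : ℝ) ≠ 0 := by linarith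
        have h2 : (m : ℝ) - 1 ≠ 0 := by linarith
        have h3 : 2 * (m : ℝ) - 1 ≠ 0 := by linarith
        field_simp
        ring) hv1 hv0
    rw [← hq1, ← hq0, ENNReal.ofReal_one] at h
    rw [norm_dn, norm_dn, norm_eq_nrm v]
    exact h
  have e3 := Cov.interp (ν'' := fun u : Lp ℂ q0 (mu d) => ‖dn hq10 u‖)
    (sn_norm.comp (dn h1q0)) sn_norm (by norm_num) (by norm_num) hint (by positivity)
    (by positivity) e1 e2
  have e4 : Cov (fun u : Lp ℂ q1 (mu d) => ‖u‖) (dn hq10 '' (WR d r 1 q0))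
      ((2 : ℝ) ^ (n : ℝ) * (2 : ℝ) ^ (n : ℝ))
      (2 * ((2 * ε) ^ (1 - (1 / 2 : ℝ)) * (C * ψ) ^ (1 / 2 : ℝ))) :=
    e3.image (dn hq10) (fun v w => by rw [← map_sub])
  have e5 : Cov (fun u : Lp ℂ q1 (mu d) => ‖u‖) (WR d r 1 q1)
      ((2 : ℝ) ^ ((2 * n : ℕ) : ℝ))
      (2 * ((2 * ε) ^ (1 - (1 / 2 : ℝ)) * (C * ψ) ^ (1 / 2 : ℝ))) := by
    refine e4.mono (WR_image r hq10 H3) (le_of_eq ?_) le_rfl (fun _ => le_rfl)
    rw [← Real.rpow_add (by norm_num)]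
    congr 1
    push_cast
    ring
  have e6 := hL (2 * n) (by omega) _ e5
  have e7 := psi0_double d hd r hr n hn3
  rw [← hψdef] at e7
  have e8 : c * ((2 : ℝ) ^ (-r) * ψ) ≤
      2 * ((2 * ε) ^ (1 - (1 / 2 : ℝ)) * (C * ψ) ^ (1 / 2 : ℝ)) :=
    (mul_le_mul_of_nonneg_left e7 hc.le).trans e6
  have e9 : (2 * ε) ^ (1 - (1 / 2 : ℝ)) * (C * ψ) ^ (1 / 2 : ℝ) = Real.sqrt (2 * ε * (C * ψ)) := by
    have : (1 : ℝ) - 1 / 2 = 1 / 2 := by norm_num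
    rw [this, ← Real.mul_rpow (by positivity) (by positivity), Real.sqrt_eq_rpow]
  rw [e9] at e8
  have e10 : (c * ((2 : ℝ) ^ (-r) * ψ)) ^ 2 ≤ (2 * Real.sqrt (2 * ε * (C * ψ))) ^ 2 :=
    pow_le_pow_left₀ (by positivity) e8 2
  rw [mul_pow 2 (Real.sqrt _), Real.sq_sqrt (by positivity)] at e10
  have e11 : (c ^ 2 * ((2 : ℝ) ^ (-r)) ^ 2 * ψ) * ψ ≤ (8 * C * ε) * ψ := by nlinarith
  have e12 := le_of_mul_le_mul_right e11 hψ
  rw [div_mul_eq_mul_div, div_le_iff₀ (by positivity)]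
  linarith

theorem low_transfer (d : ℕ) (r : ℝ) (ψ : ℕ → ℝ) (q : ℝ≥0∞) [Fact (1 ≤ q)] (H : LOW d 1 1 r ψ)
    (H3 : EX d 1 q r) : LOW d 1 q r ψ := by
  have h1q : (1 : ℝ≥0∞) ≤ q := Fact.out
  obtain ⟨c, n0, hc, h⟩ := H
  refine ⟨c, n0, hc, fun n hn ε hcov => h n hn ε ?_⟩
  have e1 : Cov (fun u : Lp ℂ 1 (mu d) => ‖u‖) (dn h1q '' (WR d r 1 q)) ((2 : ℝ) ^ (n : ℝ)) ε :=
    hcov.image (dn h1q) (fun v w => by
      rw [← map_sub]
      exact norm_dn_le h1q _)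
  exact e1.mono_A (WR_image r h1q H3)

theorem low_mono_src (d : ℕ) (r : ℝ) (ψ : ℕ → ℝ) {p p' q : ℝ≥0∞} [Fact (1 ≤ q)] (hp : p ≤ p')
    (H : LOW d p' q r ψ) : LOW d p q r ψ := by
  obtain ⟨c, n0, hc, h⟩ := H
  refine ⟨c, n0, hc, fun n hn ε hcov => h n hn ε (hcov.mono_A ?_)⟩
  rintro f ⟨φ, h1, h2, h3⟩
  exact ⟨φ, h1.mono_exponent hp, (eLpNorm_le_eLpNorm_of_exponent_le hp h1.1).trans h2, h3⟩

end MPcd65c1
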