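import Pool.Agent.Lib.MP_cd65c1_an.Defs2
import Pool.Agent.Lib.MP_cd65c1_an.LNum

/-!
# MP_cd65c1_an / EntM : from `Cov` to entropy numbers (about 110 lines)

* `ent_le_of_cov`: a covering set `Y` with `Y.card ≤ 2^n` (real inequality, so natural inequality) is the range
  of a map `Fin (2^n) → X` (extend by an arbitrary element of `X`; `X` is a nonempty space), so `ε` is in the
  set whose infimum is `ent n A` (bounded below by `0`): `csInf_le`.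
* `cov_of_ent`: conversely an element `ε` of that set gives `Cov` (image of `Fin (2^n)`, `Metric.mem_closedBall`,
  `dist_eq_norm`).
* `ent_two_sided`: for `n ≥ max n0 3`: every `ε` in the set satisfies `c ψ n ≤ ε` (`LOW`), the set is not empty
  (`UP`): `le_csInf`.  For `3 ≤ n < n1 := max n0 3`: `ent n A ≥ ent n1 A` (a cover by `2^n` balls is a cover by
  `2^n1` balls) `≥ c ψ n1 ≥ c' ψ n` as `ψ ≤ B` and `ψ n1 > 0`.
  `WR ⊆ W` (`MemLp` and norm of the complexification: `eLpNorm_ofReal`/`memLp_ofReal_iff`).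
-/

namespace MPcd65c1

open MeasureTheory
open scoped ENNReal

private theorem exists_fun_of_cov {d : ℕ} {q : ℝ≥0∞} [Fact (1 ≤ q)] (A : Set (Lp ℂ q (mu d)))
    (n : ℕ) (ε : ℝ) (h : Cov (fun v : Lp ℂ q (mu d) => ‖v‖) A ((2 : ℝ) ^ (n : ℝ)) ε) :
    ∃ y : Fin (2 ^ n) → Lp ℂ q (mu d), A ⊆ ⋃ j, Metric.closedBall (y j) ε := by
  classical
  obtain ⟨Y, hY, hc⟩ := h
  have hcard : Y.card ≤ 2 ^ n := by
    rw [Real.rpow_natCast] at hY
    exact_mod_cast hY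
  refine ⟨fun j => if hj : (j : ℕ) < Y.card then (Y.equivFin.symm ⟨j, hj⟩ : Lp ℂ q (mu d))
    else 0, ?_⟩
  intro a ha
  obtain ⟨y, hy, h1⟩ := hc a ha
  rw [Set.mem_iUnion]
  have hlt : ((Y.equivFin ⟨y, hy⟩ : Fin Y.card) : ℕ) < Y.card := (Y.equivFin ⟨y, hy⟩).2
  refine ⟨⟨(Y.equivFin ⟨y, hy⟩ : Fin Y.card), hlt.trans_le hcard⟩, ?_⟩
  rw [Metric.mem_closedBall, dist_eq_norm]
  simp only [hlt, dite_true, Fin.eta, Equiv.symm_apply_apply]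
  exact h1

theorem ent_le_of_cov {d : ℕ} {q : ℝ≥0∞} [Fact (1 ≤ q)] (A : Set (Lp ℂ q (mu d))) (n : ℕ)
    (ε : ℝ) (hε : 0 < ε)
    (h : Cov (fun v : Lp ℂ q (mu d) => ‖v‖) A ((2 : ℝ) ^ (n : ℝ)) ε) : ent n A ≤ ε := by
  apply csInf_le ⟨0, fun x hx => hx.1.le⟩
  exact ⟨hε, exists_fun_of_cov A n ε h⟩

theorem cov_of_ent {d : ℕ} {q : ℝ≥0∞} [Fact (1 ≤ q)] (A : Set (Lp ℂ q (mu d))) (n : ℕ) (ε : ℝ)
    (h : ∃ y : Fin (2 ^ n) → Lp ℂ q (mu d), A ⊆ ⋃ j, Metric.closedBall (y j) ε) :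
    Cov (fun v : Lp ℂ q (mu d) => ‖v‖) A ((2 : ℝ) ^ (n : ℝ)) ε := by
  classical
  obtain ⟨y, hy⟩ := h
  refine ⟨Finset.univ.image y, ?_, ?_⟩
  · rw [Real.rpow_natCast]
    have h1 : (Finset.univ.image y).card ≤ 2 ^ n := by
      refine Finset.card_image_le.trans ?_
      simp
    exact_mod_cast h1
  · intro a ha
    obtain ⟨j, hj⟩ := Set.mem_iUnion.mp (hy ha)
    refine ⟨y j, Finset.mem_image_of_mem _ (Finset.mem_univ _), ?_⟩
    rw [Metric.mem_closedBall, dist_eq_norm] at hj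
    exact hj

theorem WR_subset_W (d : ℕ) (r : ℝ) (p q : ℝ≥0∞) : WR d r p q ⊆ W d r p q := by
  rintro f ⟨φ, hφ, h1, h2⟩
  refine ⟨fun x => (φ x : ℂ), ?_, ?_, h2⟩
  · exact MemLp.ofReal hφ
  · have h3 : eLpNorm (fun x => (φ x : ℂ)) p (mu d) = eLpNorm φ p (mu d) := by
      apply eLpNorm_congr_norm_ae
      filter_upwards with x
      simp
    rw [h3]
    exact h1

theorem ent_two_sided (d : ℕ) (r : ℝ) (p q : ℝ≥0∞) [Fact (1 ≤ q)] (ψ : ℕ → ℝ)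
    (hpos : ∀ n, 3 ≤ n → 0 < ψ n) (hbdd : ∃ B : ℝ, 0 < B ∧ ∀ n, 3 ≤ n → ψ n ≤ B)
    (hU : UP d p q r ψ) (hL : LOW d p q r ψ) :
    ∃ c C : ℝ, 0 < c ∧ 0 < C ∧ ∀ n : ℕ, 3 ≤ n →
      c * ψ n ≤ ent n (WR d r p q) ∧ ent n (WR d r p q) ≤ ent n (W d r p q) ∧
      ent n (W d r p q) ≤ C * ψ n := by
  obtain ⟨C, hC, hU⟩ := hU
  obtain ⟨c, n0, hc, hL⟩ := hL
  obtain ⟨B, hB, hbdd⟩ := hbdd
  set n1 := max n0 3 with hn1
  have h3 : 3 ≤ n1 := le_max_right _ _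
  have h0 : n0 ≤ n1 := le_max_left _ _
  have hψ1 : 0 < ψ n1 := hpos n1 h3
  refine ⟨min c (c * ψ n1 / B), C, by positivity, hC, ?_⟩
  intro n hn
  have hneW : ({ε : ℝ | 0 < ε ∧ ∃ y : Fin (2 ^ n) → Lp ℂ q (mu d),
      W d r p q ⊆ ⋃ j, Metric.closedBall (y j) ε}).Nonempty :=
    ⟨C * ψ n, mul_pos hC (hpos n hn), exists_fun_of_cov _ n _ (hU n hn)⟩
  have hsub : {ε : ℝ | 0 < ε ∧ ∃ y : Fin (2 ^ n) → Lp ℂ q (mu d),
      W d r p q ⊆ ⋃ j, Metric.closedBall (y j) ε} ⊆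
      {ε : ℝ | 0 < ε ∧ ∃ y : Fin (2 ^ n) → Lp ℂ q (mu d),
      WR d r p q ⊆ ⋃ j, Metric.closedBall (y j) ε} := by
    rintro ε ⟨h1, y, hy⟩
    exact ⟨h1, y, (WR_subset_W d r p q).trans hy⟩
  refine ⟨?_, ?_, ?_⟩
  · apply le_csInf (hneW.mono hsub)
    rintro ε ⟨_, hy⟩
    have hcov := cov_of_ent _ n ε hy
    rcases le_or_gt n0 n with h | h
    · calc min c (c * ψ n1 / B) * ψ n ≤ c * ψ n :=
            mul_le_mul_of_nonneg_right (min_le_left _ _) (hpos n hn).le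
        _ ≤ ε := hL n h ε hcov
    · have hle : (2 : ℝ) ^ (n : ℝ) ≤ (2 : ℝ) ^ (n1 : ℝ) := by
        apply Real.rpow_le_rpow_of_exponent_le (by norm_num)
        have : n ≤ n1 := by omega
        exact_mod_cast this
      obtain ⟨Y, hY, hYc⟩ := hcov
      have h5 := hL n1 h0 ε ⟨Y, hY.trans hle, hYc⟩
      calc min c (c * ψ n1 / B) * ψ n ≤ (c * ψ n1 / B) * ψ n :=
            mul_le_mul_of_nonneg_right (min_le_right _ _) (hpos n hn).le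
        _ ≤ (c * ψ n1 / B) * B := mul_le_mul_of_nonneg_left (hbdd n hn) (by positivity)
        _ = c * ψ n1 := by field_simp
        _ ≤ ε := h5
  · exact csInf_le_csInf ⟨0, fun x hx => hx.1.le⟩ hneW hsub
  · exact ent_le_of_cov _ n _ (mul_pos hC (hpos n hn)) (hU n hn)

end MPcd65c1
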