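import Pool.Agent.Lib.MP_cd65c1_an.Main
import Pool.Agent.Lib.MP_cd65c1_an.BReal

/-!
# MP_cd65c1_an / Final : Q1 literally, all cases
-/

namespace MPcd65c1

open MeasureTheory Filter Topology
open scoped ENNReal

theorem final (d : ℕ) (hd : 3 ≤ d) (p q : ℝ≥0∞) [Fact (1 ≤ p)] [Fact (1 ≤ q)]
    (hpq : p = 1 ∨ q = ∞) (r : ℝ) (hr0 : 0 < r) (hr : (p⁻¹).toReal - (q⁻¹).toReal < r) :
    (∀ t : UnitAddCircle, t ≠ 0 → Tendsto (fun N : ℕ => Fpart r N t) atTop (𝓝 (Fker r t))) ∧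
    Integrable (FkerD r : Td d → ℝ) (mu d) ∧
    (∀ φ : Td d → ℂ, MemLp φ p (mu d) → MemLp (convC r φ) q (mu d)) ∧
    (∀ φ : Td d → ℝ, MemLp φ p (mu d) → MemLp (convR r φ) q (mu d)) ∧
    ∃ c C : ℝ, 0 < c ∧ 0 < C ∧ ∀ n : ℕ, 3 ≤ n →
      (c * psi d p q r n ≤ ent n (WRR d r p q) ∧ ent n (WRR d r p q) ≤ C * psi d p q r n) ∧
      (c * psi d p q r n ≤ ent n (WC d r p q) ∧ ent n (WC d r p q) ≤ C * psi d p q r n) := by
  obtain ⟨hE, c, C, hc, hC, h⟩ := main_multiplier d hd p q hpq r hr0 hr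
  refine ⟨fun t ht => tendsto_Fpart r hr0 t ht, integrable_FkerD r hr0,
    fun φ hφ => memLp_convC d r hr0 p q hE hφ, fun φ hφ => memLp_convR d r hr0 p q hE hφ,
    c, C, hc, hC, fun n hn => ?_⟩
  obtain ⟨h1, h2, h3⟩ := h n hn
  rw [ent_WRR d r hr0 p q n, WC_eq_W d r hr0 p q]
  exact ⟨⟨h1, h2.trans h3⟩, ⟨h1.trans h2, h3⟩⟩

end MPcd65c1
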