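import Pool.Agent.Lib.MP_cd65c1_an.H1

/-!
# G1a: the standard Gaussian measure: density, total mass, exponential moments

PROOF of `lintegral_gam`, `integral_gam`, `integrable_gam_iff`: `gam ι = volume.withDensity (ofReal (gd x))`, `gd` is
nonnegative and measurable (continuous: product of `gaussianPDFReal 0 1 (x i)`, `gaussianPDFReal_def`), so
`integral_withDensity_eq_integral_toReal_smul` (and `integrable_withDensity_iff...`).

PROOF of `exp_gam`. `gd x * exp (∑ v i * x i) = ∏ i, (gaussianPDFReal 0 1 (x i) * exp (v i * x i))`;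
`MeasureTheory.integral_fintype_prod_eq_prod` (volume on `ι → ℝ` is `Measure.pi volume`,
`volume_pi`; integrability `Integrable.fintype_prod`), and
`∫ gaussianPDFReal 0 1 t * exp (s t) = mgf id (gaussianReal 0 1) s = exp (s ^ 2 / 2)` (`mgf_id_gaussianReal`,
`integral_gaussianReal_eq_integral_smul`). `gam_prob` is the case `v = 0`.
(Alternatively prove `gam ι = Measure.pi (fun _ => gaussianReal 0 1)` and use product formulas.)
-/

set_option autoImplicit false

namespace MPcd65c1

open MeasureTheory

variable {ι : Type*} [Fintype ι]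

theorem gd_nonneg (x : ι → ℝ) : 0 ≤ gd x := by
  exact Finset.prod_nonneg fun i _ => ProbabilityTheory.gaussianPDFReal_nonneg 0 1 (x i)

private theorem cont1 : Continuous (fun t : ℝ => ProbabilityTheory.gaussianPDFReal 0 1 t) := by
  unfold ProbabilityTheory.gaussianPDFReal
  fun_prop

theorem continuous_gd : Continuous (gd : (ι → ℝ) → ℝ) := by
  have h : Continuous (fun x : ι → ℝ => ∏ i, ProbabilityTheory.gaussianPDFReal 0 1 (x i)) :=
    continuous_finsetProd _ fun i _ => cont1.comp (continuous_apply i)
  exact h

private theorem meas_gd : Measurable (fun x : ι → ℝ => ENNReal.ofReal (gd x)) :=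
  ENNReal.measurable_ofReal.comp continuous_gd.measurable

theorem integral_gam (f : (ι → ℝ) → ℝ) : ∫ x, f x ∂(gam ι) = ∫ x, gd x * f x := by
  unfold gam
  rw [integral_withDensity_eq_integral_toReal_smul meas_gd
    (Filter.Eventually.of_forall fun x => ENNReal.ofReal_lt_top)]
  refine integral_congr_ae (Filter.Eventually.of_forall fun x => ?_)
  simp [ENNReal.toReal_ofReal (gd_nonneg x), smul_eq_mul]

theorem integrable_gam_iff (f : (ι → ℝ) → ℝ) :
    Integrable f (gam ι) ↔ Integrable (fun x => gd x * f x) := by
  unfold gam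
  rw [integrable_withDensity_iff_integrable_smul' meas_gd
    (Filter.Eventually.of_forall fun x => ENNReal.ofReal_lt_top)]
  refine integrable_congr (Filter.Eventually.of_forall fun x => ?_)
  simp [ENNReal.toReal_ofReal (gd_nonneg x), smul_eq_mul]

private theorem one_dim (s : ℝ) :
    Integrable (fun t : ℝ => ProbabilityTheory.gaussianPDFReal 0 1 t * Real.exp (s * t)) ∧
      ∫ t : ℝ, ProbabilityTheory.gaussianPDFReal 0 1 t * Real.exp (s * t) = Real.exp (s ^ 2 / 2) := by
  constructor
  · have h : Integrable (fun t : ℝ => Real.exp (s * t)) (ProbabilityTheory.gaussianReal 0 1) :=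
      ProbabilityTheory.integrable_exp_mul_gaussianReal s
    rw [ProbabilityTheory.gaussianReal_of_var_ne_zero 0 one_ne_zero] at h
    rw [integrable_withDensity_iff_integrable_smul'
      (ProbabilityTheory.measurable_gaussianPDF 0 1)
      (Filter.Eventually.of_forall fun x => ProbabilityTheory.gaussianPDF_lt_top)] at h
    refine h.congr (Filter.Eventually.of_forall fun x => ?_)
    simp [ProbabilityTheory.toReal_gaussianPDF, smul_eq_mul]
  · have h := congrFun (ProbabilityTheory.mgf_id_gaussianReal (μ := 0) (v := 1)) s
    rw [ProbabilityTheory.mgf] at h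
    rw [ProbabilityTheory.integral_gaussianReal_eq_integral_smul one_ne_zero] at h
    simpa [smul_eq_mul] using h

theorem exp_gam (v : ι → ℝ) : Integrable (fun x : ι → ℝ => Real.exp (∑ i, v i * x i)) (gam ι) ∧
    ∫ x, Real.exp (∑ i, v i * x i) ∂(gam ι) = Real.exp ((∑ i, v i ^ 2) / 2) := by
  have key : (fun x : ι → ℝ => gd x * Real.exp (∑ i, v i * x i)) =
      fun x => ∏ i, (ProbabilityTheory.gaussianPDFReal 0 1 (x i) * Real.exp (v i * x i)) := by
    funext x
    rw [Finset.prod_mul_distrib, ← Real.exp_sum]
    rfl
  constructor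
  · rw [integrable_gam_iff, key]
    exact Integrable.fintype_prod (f := fun i t => ProbabilityTheory.gaussianPDFReal 0 1 t *
      Real.exp (v i * t)) fun i => (one_dim (v i)).1
  · rw [integral_gam, key]
    rw [integral_fintype_prod_volume_eq_prod (fun i t => ProbabilityTheory.gaussianPDFReal 0 1 t *
      Real.exp (v i * t))]
    rw [Finset.prod_congr rfl fun i _ => (one_dim (v i)).2, ← Real.exp_sum, Finset.sum_div]

instance gam_prob : IsProbabilityMeasure (gam ι) := by
  have h := exp_gam (fun _ : ι => (0 : ℝ))
  have h2 : ∫ x : ι → ℝ, (1 : ℝ) ∂(gam ι) = 1 := by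
    have h3 := h.2
    simpa using h3
  have h1 : Integrable (fun _ : ι → ℝ => (1 : ℝ)) (gam ι) := by
    have h3 := h.1
    simpa using h3
  have hfin : IsFiniteMeasure (gam ι) := by
    rcases integrable_const_iff.1 h1 with h4 | h4
    · exact absurd h4 one_ne_zero
    · exact h4
  constructor
  have h5 : (gam ι).real Set.univ = 1 := by
    rw [integral_const] at h2
    simpa using h2
  rw [measureReal_def] at h5
  have := (ENNReal.toReal_eq_one_iff _).1 h5
  exact this

end MPcd65c1
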