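import Pool.Agent.Lib.MP_cd65c1_an.G1a

/-!
# G1b: moments of linear forms (G3)

PROOF of `moment_gam`. For `v = 0` both sides are `0` (`m ≥ 1`). Let `s = √(∑ v i ^ 2) > 0`, `y = ∑ v i x i`,
`t = √(2 m) / s`. Then `(t y) ^ (2 m) / (2 m)! ≤ exp |t y| ≤ exp (t y) + exp (-(t y))`
(`Real.pow_div_factorial_le_exp` for `|t y|`), so
`∫ y ^ (2 m) ≤ (2 m)! t ^ (-2 m) 2 exp (t ^ 2 s ^ 2 / 2) = 2 (2 m)! (s ^ 2 / (2 m)) ^ m exp m`
`≤ 2 (2 m) ^ (2 m) (2 m) ^ (-m) (exp 1) ^ m s ^ (2 m) = 2 (2 m exp 1) ^ m s ^ (2 m) ≤ (4 exp 1 m) ^ m s ^ (2 m)`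
(`Nat.factorial_le_pow`). Integrability: dominated by the exponentials, or polynomial in the coordinates.
-/

set_option autoImplicit false

namespace MPcd65c1

open MeasureTheory

variable {ι : Type*} [Fintype ι]

private theorem pow_le_exps (z : ℝ) (n : ℕ) :
    z ^ (2 * n) ≤ (2 * n).factorial * (Real.exp z + Real.exp (-z)) := by
  have h0 : (0 : ℝ) < ((2 * n).factorial : ℝ) := by positivity
  have h1 : |z| ^ (2 * n) / ((2 * n).factorial : ℝ) ≤ Real.exp |z| :=
    Real.pow_div_factorial_le_exp |z| (abs_nonneg z) (2 * n)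
  have h2 : |z| ^ (2 * n) = z ^ (2 * n) := (even_two_mul n).pow_abs z
  have h3 : Real.exp |z| ≤ Real.exp z + Real.exp (-z) := by
    rcases abs_choice z with h | h <;> rw [h]
    · linarith [Real.exp_pos (-z)]
    · linarith [Real.exp_pos z]
  rw [h2, div_le_iff₀ h0] at h1
  calc z ^ (2 * n) ≤ Real.exp |z| * ((2 * n).factorial : ℝ) := h1
    _ ≤ (Real.exp z + Real.exp (-z)) * ((2 * n).factorial : ℝ) :=
        mul_le_mul_of_nonneg_right h3 h0.le
    _ = _ := by ring

/-- (G3) -/
theorem moment_gam (v : ι → ℝ) (m : ℕ) (hm : 1 ≤ m) :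
    Integrable (fun x : ι → ℝ => (∑ i, v i * x i) ^ (2 * m)) (gam ι) ∧
    ∫ x, (∑ i, v i * x i) ^ (2 * m) ∂(gam ι) ≤ (4 * Real.exp 1 * m) ^ m * (∑ i, v i ^ 2) ^ m := by
  have hS0 : 0 ≤ ∑ i, v i ^ 2 := Finset.sum_nonneg fun i _ => sq_nonneg _
  have hm0 : (0 : ℝ) < m := by exact_mod_cast hm
  rcases hS0.eq_or_lt with hS | hS
  · have hv : ∀ i, v i = 0 := by
      intro i
      have := (Finset.sum_eq_zero_iff_of_nonneg (fun i _ => sq_nonneg (v i))).1 hS.symm i
        (Finset.mem_univ i)
      exact pow_eq_zero_iff (two_ne_zero) |>.1 this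
    have h0 : (fun x : ι → ℝ => (∑ i, v i * x i) ^ (2 * m)) = fun _ => 0 := by
      funext x
      have : ∑ i, v i * x i = 0 := Finset.sum_eq_zero fun i _ => by rw [hv i, zero_mul]
      rw [this, zero_pow (by omega)]
    rw [h0]
    refine ⟨integrable_const 0, ?_⟩
    rw [integral_zero]
    positivity
  · set S := ∑ i, v i ^ 2 with hSdef
    set t : ℝ := Real.sqrt (2 * m / S) with ht
    have htpos : 0 < t := Real.sqrt_pos.2 (by positivity)
    have ht2 : t ^ 2 = 2 * m / S := Real.sq_sqrt (by positivity)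
    have e1 := exp_gam (fun i => t * v i)
    have e2 := exp_gam (fun i => -(t * v i))
    have hs1 : ∑ i, (t * v i) ^ 2 = 2 * m := by
      have : ∑ i, (t * v i) ^ 2 = t ^ 2 * S := by
        rw [hSdef, Finset.mul_sum]
        exact Finset.sum_congr rfl fun i _ => by ring
      rw [this, ht2]
      field_simp
    have hs2 : ∑ i, (-(t * v i)) ^ 2 = 2 * m := by
      rw [← hs1]
      exact Finset.sum_congr rfl fun i _ => by ring
    rw [hs1] at e1
    rw [hs2] at e2
    have hm2 : (2 * (m : ℝ)) / 2 = m := by ring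
    rw [hm2] at e1 e2
    set C : ℝ := ((2 * m).factorial : ℝ) / t ^ (2 * m) with hC
    have hCpos : 0 < C := by positivity
    have hpt : ∀ x : ι → ℝ, (∑ i, v i * x i) ^ (2 * m) ≤
        C * (Real.exp (∑ i, t * v i * x i) + Real.exp (∑ i, -(t * v i) * x i)) := by
      intro x
      have h1 := pow_le_exps (t * ∑ i, v i * x i) m
      have h2 : ∑ i, t * v i * x i = t * ∑ i, v i * x i := by
        rw [Finset.mul_sum]
        exact Finset.sum_congr rfl fun i _ => by ring
      have h3 : ∑ i, -(t * v i) * x i = -(t * ∑ i, v i * x i) := by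
        rw [Finset.mul_sum, ← Finset.sum_neg_distrib]
        exact Finset.sum_congr rfl fun i _ => by ring
      rw [h2, h3]
      rw [mul_pow] at h1
      have h4 : (∑ i, v i * x i) ^ (2 * m) = (t ^ (2 * m) * (∑ i, v i * x i) ^ (2 * m)) /
          t ^ (2 * m) := by
        field_simp
      rw [h4, hC, div_mul_eq_mul_div]
      exact div_le_div_of_nonneg_right h1 (by positivity)
    have hint : Integrable (fun x : ι → ℝ => C * (Real.exp (∑ i, t * v i * x i) +
        Real.exp (∑ i, -(t * v i) * x i))) (gam ι) := (e1.1.add e2.1).const_mul C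
    have hmeas : Continuous (fun x : ι → ℝ => (∑ i, v i * x i) ^ (2 * m)) := by
      fun_prop
    have hI : Integrable (fun x : ι → ℝ => (∑ i, v i * x i) ^ (2 * m)) (gam ι) := by
      refine hint.mono' hmeas.aestronglyMeasurable (Filter.Eventually.of_forall fun x => ?_)
      rw [Real.norm_eq_abs, abs_of_nonneg ((even_two_mul m).pow_nonneg _)]
      exact hpt x
    refine ⟨hI, ?_⟩
    calc ∫ x, (∑ i, v i * x i) ^ (2 * m) ∂(gam ι)
        ≤ ∫ x, C * (Real.exp (∑ i, t * v i * x i) + Real.exp (∑ i, -(t * v i) * x i)) ∂(gam ι) :=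
          integral_mono hI hint hpt
      _ = C * (Real.exp m + Real.exp m) := by
          rw [integral_const_mul, integral_add e1.1 e2.1, e1.2, e2.2]
      _ ≤ (4 * Real.exp 1 * m) ^ m * S ^ m := by
          have htm : t ^ (2 * m) = (2 * m / S) ^ m := by rw [pow_mul, ht2]
          have hfac : ((2 * m).factorial : ℝ) ≤ ((2 * m : ℕ) : ℝ) ^ (2 * m) := by
            exact_mod_cast Nat.factorial_le_pow (2 * m)
          have hexp : Real.exp m = Real.exp 1 ^ m := by
            rw [← Real.exp_nat_mul, mul_one]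
          have h2m : (2 : ℝ) ≤ 2 ^ m := by
            calc (2 : ℝ) = 2 ^ 1 := by norm_num
              _ ≤ 2 ^ m := pow_le_pow_right₀ (by norm_num) hm
          have hCle : C ≤ (2 * m * S) ^ m := by
            rw [hC, htm, div_le_iff₀ (by positivity)]
            calc ((2 * m).factorial : ℝ) ≤ ((2 * m : ℕ) : ℝ) ^ (2 * m) := hfac
              _ = (2 * m * S) ^ m * (2 * m / S) ^ m := by
                  rw [← mul_pow]
                  have : 2 * (m : ℝ) * S * (2 * m / S) = (2 * m) ^ 2 := by field_simp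
                  rw [this, ← pow_mul]
                  push_cast
                  rfl
          calc C * (Real.exp m + Real.exp m) = C * Real.exp 1 ^ m * 2 := by rw [hexp]; ring
            _ ≤ (2 * m * S) ^ m * Real.exp 1 ^ m * 2 ^ m := by
                have : 0 ≤ Real.exp 1 ^ m := by positivity
                have h5 : C * Real.exp 1 ^ m ≤ (2 * m * S) ^ m * Real.exp 1 ^ m :=
                  mul_le_mul_of_nonneg_right hCle this
                have h6 : 0 ≤ (2 * m * S) ^ m * Real.exp 1 ^ m := by positivity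
                exact mul_le_mul h5 h2m (by norm_num) h6
            _ = (4 * Real.exp 1 * m) ^ m * S ^ m := by
                rw [← mul_pow, ← mul_pow, ← mul_pow]
                ring

end MPcd65c1
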