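import Pool.Agent.Lib.MP_cd65c1_an.G1a

/-!
# G2a: Gaussian shift inequality (G1 of the paper)

PROOF of `gam_shift`. Work with real integrals (`(gam ι).real U = ∫ x in U, gd x`; from the definition of
`withDensity`, `ofReal_integral..`; or as `∫ indicator U 1 ∂(gam ι)` and `integral_gam`).
`gam {x | x - h ∈ U} = ∫ x, gd x * 1_U (x - h) = ∫ x, gd (x + h) * 1_U x` (translation invariance of `volume`,
`integral_sub_right_eq_self` / `integral_add_right_eq_self`) and
`gd (x + h) = gd x * exp (-∑ h i x i - (∑ h i ^ 2) / 2)` (product of `gaussianPDFReal 0 1 (x i + h i)`,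
`gaussianPDFReal_def`, `Finset.prod_mul_distrib`, `Real.exp_sum`). With `x ↦ -x` (`integral_neg_eq_self`, `gd` is even,
`U` symmetric) the same integral is `∫ gd x 1_U x exp (∑ h i x i - (∑ h i ^ 2) / 2)`. Adding,
`2 gam {x | x - h ∈ U} = exp (-(∑ h i ^ 2) / 2) ∫_U gd (exp y + exp (-y)) ≥ 2 exp (-(∑ h i ^ 2)/2) gam U` as
`exp y + exp (-y) ≥ 2` (integrability: `exp_gam`).
-/

set_option autoImplicit false

namespace MPcd65c1

open MeasureTheory

variable {ι : Type*} [Fintype ι]

private theorem gd_add (x h : ι → ℝ) : gd (x + h) =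
    Real.exp (-(∑ i, h i ^ 2) / 2) * (gd x * Real.exp (∑ i, (-h) i * x i)) := by
  have h1 : ∀ i, ProbabilityTheory.gaussianPDFReal 0 1 ((x + h) i) =
      ProbabilityTheory.gaussianPDFReal 0 1 (x i) * Real.exp (-(h i ^ 2) / 2 + (-h) i * x i) := by
    intro i
    simp only [ProbabilityTheory.gaussianPDFReal, Pi.add_apply, Pi.neg_apply]
    have key : Real.exp (-(x i + h i - 0) ^ 2 / (2 * ((1 : NNReal) : ℝ))) =
        Real.exp (-(x i - 0) ^ 2 / (2 * ((1 : NNReal) : ℝ))) *
          Real.exp (-(h i ^ 2) / 2 + -h i * x i) := by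
      rw [← Real.exp_add]
      congr 1
      simp only [NNReal.coe_one]
      ring
    rw [key]
    ring
  unfold gd
  rw [Finset.prod_congr rfl fun i _ => h1 i, Finset.prod_mul_distrib, ← Real.exp_sum,
    Finset.sum_add_distrib, Real.exp_add, ← Finset.sum_div, Finset.sum_neg_distrib]
  ring

private theorem gd_neg (x : ι → ℝ) : gd (-x) = gd x := by
  unfold gd
  refine Finset.prod_congr rfl fun i _ => ?_
  simp only [ProbabilityTheory.gaussianPDFReal, Pi.neg_apply]
  congr 2
  ring

private theorem gam_real (S : Set (ι → ℝ)) (hS : MeasurableSet S) :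
    (gam ι).real S = ∫ x, gd x * S.indicator (fun _ => (1 : ℝ)) x := by
  rw [← integral_gam (fun x => S.indicator (fun _ => (1 : ℝ)) x)]
  exact (integral_indicator_one hS).symm

private theorem gam_int (v : ι → ℝ) :
    Integrable (fun x : ι → ℝ => gd x * Real.exp (∑ i, v i * x i)) :=
  (integrable_gam_iff _).mp (exp_gam v).1

/-- (G1) -/
theorem gam_shift (U : Set (ι → ℝ)) (hU : MeasurableSet U) (hsym : ∀ x ∈ U, -x ∈ U) (h : ι → ℝ) :
    Real.exp (-(∑ i, h i ^ 2) / 2) * (gam ι).real U ≤ (gam ι).real {x | x - h ∈ U} := by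
  set E : ℝ := Real.exp (-(∑ i, h i ^ 2) / 2) with hE
  have hE0 : 0 < E := Real.exp_pos _
  set J : (ι → ℝ) → ℝ := fun v => ∫ x in U, gd x * Real.exp (∑ i, v i * x i) with hJ
  have hU1 : (gam ι).real U = ∫ x in U, gd x := by
    rw [gam_real U hU, ← integral_indicator hU]
    congr 1
    funext x
    by_cases hx : x ∈ U <;> simp [hx]
  have hSm : MeasurableSet {x : ι → ℝ | x - h ∈ U} := hU.preimage (measurable_id.sub_const h)
  have hA : (gam ι).real {x | x - h ∈ U} = E * J (-h) := by
    rw [gam_real _ hSm]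
    have h1 : (fun x : ι → ℝ => gd x * ({x | x - h ∈ U} : Set (ι → ℝ)).indicator
        (fun _ => (1 : ℝ)) x) =
        fun x => (fun y : ι → ℝ => gd (y + h) * U.indicator (fun _ => (1 : ℝ)) y) (x - h) := by
      funext x
      by_cases hx : x - h ∈ U <;> simp [hx]
    rw [h1, integral_sub_right_eq_self
      (fun y : ι → ℝ => gd (y + h) * U.indicator (fun _ => (1 : ℝ)) y) h]
    simp only [hJ]
    rw [← integral_const_mul, ← integral_indicator hU]
    congr 1
    funext x
    by_cases hx : x ∈ U
    · simp only [Set.indicator_of_mem hx, mul_one]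
      exact gd_add x h
    · simp [Set.indicator_of_notMem hx]
  have hJs : J (-h) = J h := by
    simp only [hJ]
    rw [← integral_indicator hU, ← integral_indicator hU]
    rw [← integral_neg_eq_self (U.indicator fun x => gd x * Real.exp (∑ i, (-h) i * x i))]
    congr 1
    funext x
    by_cases hx : x ∈ U
    · rw [Set.indicator_of_mem (hsym x hx), Set.indicator_of_mem hx, gd_neg]
      congr 3
      funext i
      simp
    · have hx' : -x ∉ U := fun h' => hx (by simpa using hsym _ h')
      rw [Set.indicator_of_notMem hx', Set.indicator_of_notMem hx]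
  have hi : IntegrableOn (fun x : ι → ℝ => gd x) U := by
    have := gam_int (0 : ι → ℝ)
    simpa using this.integrableOn (s := U)
  have hkey : 2 * ∫ x in U, gd x ≤ J h + J (-h) := by
    simp only [hJ]
    rw [← integral_add (gam_int h).integrableOn (gam_int (-h)).integrableOn, ← integral_const_mul]
    refine integral_mono (hi.const_mul 2)
      ((gam_int h).integrableOn.add (gam_int (-h)).integrableOn) fun x => ?_
    have h2 : ∑ i, (-h) i * x i = -∑ i, h i * x i := by
      simp
    simp only [h2]
    set u := ∑ i, h i * x i with hu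
    have h3 : 2 ≤ Real.exp u + Real.exp (-u) := by
      have h4 := Real.add_one_le_exp u
      have h5 := Real.add_one_le_exp (-u)
      linarith
    calc 2 * gd x = gd x * 2 := mul_comm _ _
      _ ≤ gd x * (Real.exp u + Real.exp (-u)) := mul_le_mul_of_nonneg_left h3 (gd_nonneg x)
      _ = gd x * Real.exp u + gd x * Real.exp (-u) := by ring
  rw [hA, hU1]
  apply mul_le_mul_of_nonneg_left _ hE0.le
  rw [hJs] at hkey ⊢
  linarith

end MPcd65c1
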