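import Pool.Agent.Lib.MP_cd65c1_an.G2a

/-!
# G2b: the dual Sudakov inequality (G2)

PROOF of `dual_sudakov`. `Cov.of_separated` (H1): let `S ⊆ {x | ∑ x i ^ 2 ≤ 1}` be finite with `e < q (x - y)` for
`x ≠ y`. `U = {x | q x < 2 A}` is measurable and symmetric, `gam Uᶜ ≤ (∫ q) / (2 A) ≤ 1/2` (Markov,
`mul_meas_ge_le_integral_of_nonneg`), so `gam U ≥ 1/2`. Let `λ = 4 A / e`, `U_s = {x | x - λ • s ∈ U}` (`s ∈ S`): if
`x` is in `U_s` and `U_s'` then `q (λ • s - λ • s') < 4 A`, but `q (λ • (s - s')) = λ q (s - s') > λ e = 4 A`. So they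
are disjoint and `∑_{s ∈ S} gam U_s ≤ 1` (`measureReal_biUnion_finset`), each
`gam U_s ≥ exp (-(∑ (λ s i) ^ 2) / 2) / 2 ≥ exp (-λ ^ 2 / 2) / 2`. So `S.card ≤ 2 exp (λ ^ 2 / 2) = 2 exp (8 A ^ 2 / e ^ 2)`.
-/

set_option autoImplicit false

namespace MPcd65c1

open MeasureTheory

variable {ι : Type*} [Fintype ι]

/-- (G2) the dual Sudakov inequality -/
theorem dual_sudakov (q : (ι → ℝ) → ℝ) (hq : Sn q) (hm : Measurable q)
    (hi : Integrable q (gam ι)) (A : ℝ) (hA : 0 < A) (hE : ∫ x, q x ∂(gam ι) ≤ A)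
    (e : ℝ) (he : 0 < e) :
    Cov q {x : ι → ℝ | ∑ i, x i ^ 2 ≤ 1} (2 * Real.exp (8 * A ^ 2 / e ^ 2)) e := by
  classical
  refine Cov.of_separated hq he.le fun S hS hsep => ?_
  set U : Set (ι → ℝ) := {x | q x < 2 * A} with hU
  have hUm : MeasurableSet U := measurableSet_lt hm measurable_const
  have hUs : ∀ x ∈ U, -x ∈ U := by
    intro x hx
    change q (-x) < 2 * A
    rw [hq.neg]
    exact hx
  have hhalf : 1 / 2 ≤ (gam ι).real U := by
    have h1 := mul_meas_ge_le_integral_of_nonneg (μ := gam ι)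
      (Filter.Eventually.of_forall fun x => hq.nonneg x) hi (2 * A)
    have h2 : (gam ι).real {x | 2 * A ≤ q x} ≤ 1 / 2 := by
      have h3 : 2 * A * (gam ι).real {x | 2 * A ≤ q x} ≤ A := h1.trans hE
      have h4 : 2 * A * (gam ι).real {x | 2 * A ≤ q x} ≤ 2 * A * (1 / 2) := by linarith
      exact le_of_mul_le_mul_left h4 (by positivity)
    have h5 : Uᶜ = {x | 2 * A ≤ q x} := by
      ext x
      simp [hU]
    have h6 := probReal_compl_eq_one_sub (μ := gam ι) hUm
    rw [h5] at h6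
    linarith
  set lam : ℝ := 4 * A / e with hlam
  have hlam0 : 0 < lam := by positivity
  set T : (ι → ℝ) → Set (ι → ℝ) := fun s => {x | x - lam • s ∈ U} with hT
  have hTm : ∀ s ∈ S, MeasurableSet (T s) := fun s _ =>
    hUm.preimage (measurable_id.sub_const (lam • s))
  have hdisj : (S : Set (ι → ℝ)).PairwiseDisjoint T := by
    intro s hs s' hs' hne
    rw [Function.onFun, Set.disjoint_left]
    intro x hx hx'
    have h1 : q (x - lam • s) < 2 * A := hx
    have h2 : q (x - lam • s') < 2 * A := hx'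
    have h3 := hsep s hs s' hs' hne
    have h4 := hq.sub_le' (lam • s) x (lam • s')
    rw [hq.sub_comm (lam • s) x, ← smul_sub, hq.smul, abs_of_pos hlam0] at h4
    have h5 : lam * e < lam * q (s - s') := mul_lt_mul_of_pos_left h3 hlam0
    have h6 : lam * e = 4 * A := by rw [hlam]; field_simp
    linarith
  have hsum : ∑ s ∈ S, (gam ι).real (T s) ≤ 1 := by
    rw [← measureReal_biUnion_finset hdisj hTm]
    exact measureReal_le_one
  have hlow : ∀ s ∈ S, Real.exp (-(lam ^ 2) / 2) * (1 / 2) ≤ (gam ι).real (T s) := by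
    intro s hs
    have h1 := gam_shift U hUm hUs (lam • s)
    refine le_trans ?_ h1
    have h2 : ∑ i, (lam • s) i ^ 2 ≤ lam ^ 2 := by
      have h3 : ∑ i, s i ^ 2 ≤ 1 := hS s hs
      have h4 : ∑ i, (lam • s) i ^ 2 = lam ^ 2 * ∑ i, s i ^ 2 := by
        rw [Finset.mul_sum]
        refine Finset.sum_congr rfl fun i _ => ?_
        simp only [Pi.smul_apply, smul_eq_mul]
        ring
      rw [h4]
      have h5 : 0 ≤ lam ^ 2 := by positivity
      nlinarith
    apply mul_le_mul _ hhalf (by norm_num) (Real.exp_pos _).le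
    apply Real.exp_le_exp.mpr
    linarith
  have hcard : (S.card : ℝ) * (Real.exp (-(lam ^ 2) / 2) * (1 / 2)) ≤ 1 := by
    have h1 := Finset.card_nsmul_le_sum S _ _ hlow
    rw [nsmul_eq_mul] at h1
    exact h1.trans hsum
  have h7 : 8 * A ^ 2 / e ^ 2 = lam ^ 2 / 2 := by
    rw [hlam]
    field_simp
    ring
  rw [h7]
  have h8 : Real.exp (-(lam ^ 2) / 2) * Real.exp (lam ^ 2 / 2) = 1 := by
    rw [← Real.exp_add]
    have : -(lam ^ 2) / 2 + lam ^ 2 / 2 = 0 := by ring
    rw [this, Real.exp_zero]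
  have h9 : 0 < Real.exp (lam ^ 2 / 2) := Real.exp_pos _
  calc (S.card : ℝ) = ((S.card : ℝ) * (Real.exp (-(lam ^ 2) / 2) * (1 / 2))) *
        (2 * Real.exp (lam ^ 2 / 2)) := by
        calc (S.card : ℝ) = S.card * (Real.exp (-(lam ^ 2) / 2) * Real.exp (lam ^ 2 / 2)) := by
              rw [h8, mul_one]
          _ = _ := by ring
    _ ≤ 1 * (2 * Real.exp (lam ^ 2 / 2)) := mul_le_mul_of_nonneg_right hcard (by positivity)
    _ = _ := one_mul _

end MPcd65c1
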