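import Pool.Agent.Lib.MP_cd65c1_an.H4c

/-!
# G3a: Gaussian coefficients, norm of a trigonometric polynomial

`gc L x k = x (k, true) + i x (k, false)` for `k ∈ L` and `0` otherwise, for `x : L × Bool → ℝ`.
-/

set_option autoImplicit false

namespace MPcd65c1

open MeasureTheory
open scoped ENNReal

/-- Gaussian coefficients -/
noncomputable def gc {d : ℕ} (L : Finset (Fin d → ℤ)) (x : L × Bool → ℝ) : CV d :=
  fun k => open Classical in if h : k ∈ L then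
    (x (⟨k, h⟩, true) : ℂ) + Complex.I * (x (⟨k, h⟩, false) : ℂ) else 0

theorem nrm_pow {d : ℕ} (L : Finset (Fin d → ℤ)) (c : CV d) (m : ℕ) (hm : 1 ≤ m) :
    nrm (2 * m : ℝ≥0∞) (tp L c) ^ (2 * m) = ∫ t, ‖tp L c t‖ ^ (2 * m) ∂(mu d) := by
  have hm2 : 2 * m ≠ 0 := by omega
  have hp0 : (2 * m : ℝ≥0∞) ≠ 0 := by
    have : ((2 * m : ℕ) : ℝ≥0∞) ≠ 0 := by exact_mod_cast hm2
    simpa using this
  have hpt : (2 * m : ℝ≥0∞) ≠ ∞ := by
    have : ((2 * m : ℕ) : ℝ≥0∞) ≠ ∞ := ENNReal.natCast_ne_top _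
    simpa using this
  have hpr : (2 * m : ℝ≥0∞).toReal = ((2 * m : ℕ) : ℝ) := by
    simp
  unfold nrm
  rw [(memLp_tp (2 * m : ℝ≥0∞) L c).eLpNorm_eq_integral_rpow_norm hp0 hpt, hpr]
  have h0 : 0 ≤ ∫ t, ‖tp L c t‖ ^ ((2 * m : ℕ) : ℝ) ∂(mu d) :=
    integral_nonneg fun t => by positivity
  rw [ENNReal.toReal_ofReal (by positivity), Real.rpow_inv_natCast_pow h0 hm2]
  simp only [Real.rpow_natCast]

theorem nrm_tp_le {d : ℕ} (q : ℝ≥0∞) (L : Finset (Fin d → ℤ)) (c : CV d) :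
    nrm q (tp L c) ≤ ∑ k ∈ L, ‖c k‖ := by
  have hb : ∀ t, ‖tp L c t‖ ≤ ∑ k ∈ L, ‖c k‖ := by
    intro t
    have h1 : tp L c t = ∑ k ∈ L, c k * UnitAddTorus.mFourier k t := by
      simp [tp, ContinuousMap.coe_sum, Finset.sum_apply]
    rw [h1]
    refine (norm_sum_le _ _).trans (Finset.sum_le_sum fun k _ => ?_)
    rw [norm_mul]
    have h2 : ‖UnitAddTorus.mFourier k t‖ = 1 := by
      simp [UnitAddTorus.mFourier, norm_prod]
    rw [h2, mul_one]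
  have h0 : 0 ≤ ∑ k ∈ L, ‖c k‖ := Finset.sum_nonneg fun k _ => norm_nonneg _
  have h3 := eLpNorm_le_of_ae_bound (μ := mu d) (p := q)
    (Filter.Eventually.of_forall hb)
  rw [measure_univ, ENNReal.one_rpow, one_mul] at h3
  unfold nrm
  refine (ENNReal.toReal_mono ENNReal.ofReal_ne_top h3).trans ?_
  rw [ENNReal.toReal_ofReal h0]

end MPcd65c1
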