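import Pool.Agent.Lib.MP_cd65c1_an.G3a
import Pool.Agent.Lib.MP_cd65c1_an.G1b

/-!
# G3b: pointwise moment of a random Gaussian polynomial

PROOF of `point_moment`. Let `b k = a k * mFourier k t`, `‖b k‖ = ‖a k‖` (`‖mFourier k t‖ = 1`). Then
`Z = ∑ b k (x_k + i y_k)`, `Re Z = ∑ (Re b k x_k - Im b k y_k)`, `Im Z = ∑ (Im b k x_k + Re b k y_k)`: both are linear
forms `∑ v i x i` over `L × Bool` with `∑ v i ^ 2 = ∑ ‖b k‖ ^ 2 = s ^ 2`, `s = l2 L a` (`Fintype.sum_prod_type`).
`‖Z‖ ^ (2 m) = (Re ^ 2 + Im ^ 2) ^ m ≤ 2 ^ (m-1) (Re ^ (2m) + Im ^ (2m))` (`add_pow_le_pow_mul_pow_of_add_eq_one`,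
`inner_le_nnorm_mul_nnorm`, or `add_pow_le (ha) (hb) m : (a + b) ^ m ≤ 2 ^ (m - 1) * (a ^ m + b ^ m)`), so with
`moment_gam`: `E ‖Z‖ ^ (2m) ≤ 2 ^ m (4 exp 1 m) ^ m s ^ (2m) = (8 exp 1 m) ^ m s ^ (2m)`.
-/

set_option autoImplicit false

namespace MPcd65c1

open MeasureTheory
open scoped ENNReal

private theorem gc_cont {d : ℕ} (L : Finset (Fin d → ℤ)) (k : Fin d → ℤ) :
    Continuous (fun x : L × Bool → ℝ => gc L x k) := by
  by_cases h : k ∈ L
  · simp only [gc, dif_pos h]
    fun_prop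
  · simp only [gc, dif_neg h]
    exact continuous_const

theorem point_moment {d : ℕ} (L : Finset (Fin d → ℤ)) (a : CV d) (m : ℕ) (hm : 1 ≤ m) (t : Td d) :
    Integrable (fun x : L × Bool → ℝ => ‖tp L (fun k => a k * gc L x k) t‖ ^ (2 * m))
      (gam (L × Bool)) ∧
    ∫ x : L × Bool → ℝ, ‖tp L (fun k => a k * gc L x k) t‖ ^ (2 * m) ∂(gam (L × Bool)) ≤
      (8 * Real.exp 1 * m) ^ m * l2 L a ^ (2 * m) := by
  classical
  set s := l2 L a with hs
  set Z : (L × Bool → ℝ) → ℂ := fun x => tp L (fun k => a k * gc L x k) t with hZ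
  set b : (Fin d → ℤ) → ℂ := fun k => a k * UnitAddTorus.mFourier k t with hb
  have hbn : ∀ k, ‖b k‖ = ‖a k‖ := by
    intro k
    have h2 : ‖UnitAddTorus.mFourier k t‖ = 1 := by
      simp [UnitAddTorus.mFourier, norm_prod]
    simp only [hb]
    rw [norm_mul, h2, mul_one]
  have hZ1 : ∀ x, Z x = ∑ k : L, b k * ((x (k, true) : ℂ) + Complex.I * (x (k, false) : ℂ)) := by
    intro x
    have h1 : Z x = ∑ k ∈ L, (a k * gc L x k) * UnitAddTorus.mFourier k t := by
      simp [hZ, tp, ContinuousMap.coe_sum, Finset.sum_apply]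
    rw [h1, ← Finset.sum_coe_sort L]
    refine Finset.sum_congr rfl fun k _ => ?_
    simp only [gc, dif_pos k.2, hb, Subtype.coe_eta]
    ring
  set v : L × Bool → ℝ := fun p => if p.2 then (b p.1).re else -(b p.1).im with hv
  set w : L × Bool → ℝ := fun p => if p.2 then (b p.1).im else (b p.1).re with hw
  have hsum : ∑ k : L, ‖b k‖ ^ 2 = s ^ 2 := by
    rw [hs, l2, Real.sq_sqrt (Finset.sum_nonneg fun k _ => by positivity),
      ← Finset.sum_coe_sort L (fun k => ‖a k‖ ^ 2)]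
    exact Finset.sum_congr rfl fun k _ => by rw [hbn]
  have hv2 : ∑ i, v i ^ 2 = s ^ 2 := by
    rw [← hsum, Fintype.sum_prod_type]
    refine Finset.sum_congr rfl fun k _ => ?_
    simp only [Fintype.sum_bool, hv, if_true, Bool.false_eq_true, if_false]
    rw [← Complex.normSq_eq_norm_sq, Complex.normSq_apply]
    ring
  have hw2 : ∑ i, w i ^ 2 = s ^ 2 := by
    rw [← hsum, Fintype.sum_prod_type]
    refine Finset.sum_congr rfl fun k _ => ?_
    simp only [Fintype.sum_bool, hw, if_true, Bool.false_eq_true, if_false]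
    rw [← Complex.normSq_eq_norm_sq, Complex.normSq_apply]
    ring
  have hre : ∀ x, (Z x).re = ∑ i, v i * x i := by
    intro x
    rw [hZ1, Complex.re_sum, Fintype.sum_prod_type]
    refine Finset.sum_congr rfl fun k _ => ?_
    simp only [Fintype.sum_bool, hv, if_true, Bool.false_eq_true, if_false]
    simp only [Complex.mul_re, Complex.add_re, Complex.ofReal_re, Complex.I_re, Complex.ofReal_im,
      Complex.add_im, Complex.mul_im, Complex.I_im]
    ring
  have him : ∀ x, (Z x).im = ∑ i, w i * x i := by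
    intro x
    rw [hZ1, Complex.im_sum, Fintype.sum_prod_type]
    refine Finset.sum_congr rfl fun k _ => ?_
    simp only [Fintype.sum_bool, hw, if_true, Bool.false_eq_true, if_false]
    simp only [Complex.mul_re, Complex.add_re, Complex.ofReal_re, Complex.I_re, Complex.ofReal_im,
      Complex.add_im, Complex.mul_im, Complex.I_im]
    ring
  obtain ⟨hvi, hvE⟩ := moment_gam v m hm
  obtain ⟨hwi, hwE⟩ := moment_gam w m hm
  rw [hv2] at hvE
  rw [hw2] at hwE
  have hbound : ∀ x, ‖Z x‖ ^ (2 * m) ≤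
      2 ^ (m - 1) * ((∑ i, v i * x i) ^ (2 * m) + (∑ i, w i * x i) ^ (2 * m)) := by
    intro x
    rw [pow_mul, ← Complex.normSq_eq_norm_sq, Complex.normSq_apply, hre, him, ← pow_two,
      ← pow_two]
    have h1 := add_pow_le (sq_nonneg (∑ i, v i * x i)) (sq_nonneg (∑ i, w i * x i)) m
    rw [← pow_mul, ← pow_mul] at h1
    exact h1
  have hgi : Integrable (fun x : L × Bool → ℝ =>
      2 ^ (m - 1) * ((∑ i, v i * x i) ^ (2 * m) + (∑ i, w i * x i) ^ (2 * m))) (gam (L × Bool)) :=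
    (hvi.add hwi).const_mul _
  have hZc : Continuous Z := by
    have h1 : Z = fun x => ∑ k ∈ L, (a k * gc L x k) * UnitAddTorus.mFourier k t := by
      funext x
      simp [hZ, tp, ContinuousMap.coe_sum, Finset.sum_apply]
    rw [h1]
    exact continuous_finsetSum _ fun k _ =>
      (continuous_const.mul (gc_cont L k)).mul continuous_const
  have hZi : Integrable (fun x => ‖Z x‖ ^ (2 * m)) (gam (L × Bool)) := by
    refine Integrable.mono' hgi (hZc.norm.pow _).aestronglyMeasurable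
      (Filter.Eventually.of_forall fun x => ?_)
    rw [Real.norm_eq_abs, abs_of_nonneg (by positivity)]
    exact hbound x
  refine ⟨hZi, ?_⟩
  refine (integral_mono hZi hgi hbound).trans ?_
  rw [integral_const_mul, integral_add hvi hwi]
  have h2 : (2 : ℝ) ^ (m - 1) * ((4 * Real.exp 1 * m) ^ m * (s ^ 2) ^ m +
      (4 * Real.exp 1 * m) ^ m * (s ^ 2) ^ m) = (8 * Real.exp 1 * m) ^ m * s ^ (2 * m) := by
    have h3 : (2 : ℝ) ^ (m - 1) * 2 = 2 ^ m := by
      rw [← pow_succ]
      congr 1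
      omega
    have h4 : (8 * Real.exp 1 * (m : ℝ)) ^ m = 2 ^ m * (4 * Real.exp 1 * m) ^ m := by
      rw [← mul_pow]
      congr 1
      ring
    rw [h4, pow_mul, ← h3]
    ring
  rw [← h2]
  apply mul_le_mul_of_nonneg_left _ (by positivity)
  linarith

end MPcd65c1
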