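import Pool.Agent.Lib.MP_cd65c1_an.G3b

/-!
# G3c: the mean of the `L_2m` norm of a random Gaussian polynomial

PROOF of `mean_norm`. `nrm (2m) f ^ (2m) = ∫ ‖f t‖ ^ (2m) dmu(t)` (`nrm_pow`, from
`eLpNorm_eq_lintegral_rpow_enorm` / `MemLp.eLpNorm_eq_integral_rpow_norm`). Tonelli / Fubini
(`integral_integral_swap`; the integrand is continuous in `(x, t)`, bounded by a polynomial in `x`):
`E nrm ^ (2m) = ∫ E ‖Z_t‖ ^ (2m) dmu(t) ≤ (8 exp 1 m) ^ m s ^ (2m)`. Jensen on the probability space `gam`: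
`(E nrm) ^ (2m) ≤ E nrm ^ (2m)` (`inner_le_Lp..`, `ConvexOn.map_integral_le`, or Hölder), so
`E nrm ≤ √(8 exp 1 m) s`. Measurability and integrability of `x ↦ nrm (..)`: it is a seminorm in `x` on a finite
dimensional space, hence continuous (Lipschitz: `|nrm(x) - nrm(x')| ≤ nrm (x - x') ≤ ∑_k ‖a k‖ |x_k - x'_k|`), and
`|nrm| ≤ ∑ ‖a k‖ (|x_k| + |y_k|)` integrable (`moment_gam` with a coordinate vector and `|u| ≤ 1 + u ^ 2`).
-/

set_option autoImplicit false

namespace MPcd65c1

open MeasureTheory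
open scoped ENNReal

private theorem sn_sum_le {V : Type*} [AddCommGroup V] [Module ℝ V] {F : V → ℝ} (hF : Sn F)
    {ι : Type*} (s : Finset ι) (f : ι → V) : F (∑ i ∈ s, f i) ≤ ∑ i ∈ s, F (f i) := by
  classical
  induction s using Finset.induction_on with
  | empty => simp [hF.zero]
  | insert a s ha ih =>
    rw [Finset.sum_insert ha, Finset.sum_insert ha]
    exact (hF.add _ _).trans (by linarith)

private theorem sn_fin_le {ι : Type*} [Fintype ι] [DecidableEq ι] {F : (ι → ℝ) → ℝ} (hF : Sn F)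
    (x : ι → ℝ) : F x ≤ ∑ i, F (Pi.single i 1) * |x i| := by
  have hx : x = ∑ i, x i • (Pi.single i (1 : ℝ) : ι → ℝ) := by
    conv_lhs => rw [← Finset.univ_sum_single x]
    apply Finset.sum_congr rfl
    intro i _
    rw [← Pi.single_smul, smul_eq_mul, mul_one]
  conv_lhs => rw [hx]
  refine (sn_sum_le hF _ _).trans (Finset.sum_le_sum fun i _ => ?_)
  rw [hF.smul, mul_comm]

private theorem sn_fin_continuous {ι : Type*} [Fintype ι] {F : (ι → ℝ) → ℝ} (hF : Sn F) :
    Continuous F := by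
  classical
  rw [continuous_iff_continuousAt]
  intro x
  rw [ContinuousAt, tendsto_iff_norm_sub_tendsto_zero]
  have h1 : Filter.Tendsto (fun y : ι → ℝ => ∑ i, F (Pi.single i 1) * |(y - x) i|) (nhds x)
      (nhds 0) := by
    have h2 : Continuous (fun y : ι → ℝ => ∑ i, F (Pi.single i 1) * |(y - x) i|) := by
      fun_prop
    have h3 := h2.tendsto x
    simpa using h3
  refine squeeze_zero (fun _ => norm_nonneg _) (fun y => ?_) h1
  rw [Real.norm_eq_abs, abs_le]
  have h4 := sn_fin_le hF (y - x)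
  have h5 := hF.add x (y - x)
  have h6 := hF.add y (x - y)
  rw [add_sub_cancel] at h5 h6
  rw [hF.sub_comm x y] at h6
  constructor <;> linarith

private theorem integrable_coord {ι : Type*} [Fintype ι] (i : ι) :
    Integrable (fun x : ι → ℝ => |x i|) (gam ι) := by
  classical
  have h1 := (moment_gam (Pi.single i (1 : ℝ) : ι → ℝ) 1 le_rfl).1
  have h2 : (fun x : ι → ℝ => (∑ j, (Pi.single i (1 : ℝ) : ι → ℝ) j * x j) ^ (2 * 1)) =
      fun x => x i ^ 2 := by
    funext x
    simp [Pi.single_apply]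
  rw [h2] at h1
  refine Integrable.mono' ((integrable_const (1 : ℝ)).add h1)
    ((continuous_apply i).abs.aestronglyMeasurable) (Filter.Eventually.of_forall fun x => ?_)
  rw [Real.norm_eq_abs, abs_abs]
  simp only [Pi.add_apply]
  nlinarith [sq_nonneg (|x i| - 1), sq_abs (x i), abs_nonneg (x i)]

private theorem sn_fin_integrable {ι : Type*} [Fintype ι] {F : (ι → ℝ) → ℝ} (hF : Sn F) :
    Integrable F (gam ι) := by
  classical
  have h1 : Integrable (fun x : ι → ℝ => ∑ i, F (Pi.single i 1) * |x i|) (gam ι) :=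
    integrable_finsetSum _ fun i _ => (integrable_coord i).const_mul _
  refine Integrable.mono' h1 (sn_fin_continuous hF).aestronglyMeasurable
    (Filter.Eventually.of_forall fun x => ?_)
  rw [Real.norm_eq_abs, abs_of_nonneg (hF.nonneg x)]
  exact sn_fin_le hF x

private theorem gc_add {d : ℕ} (L : Finset (Fin d → ℤ)) (x y : L × Bool → ℝ) :
    gc L (x + y) = gc L x + gc L y := by
  funext k
  by_cases h : k ∈ L
  · simp only [gc, dif_pos h, Pi.add_apply]
    push_cast
    ring
  · simp [gc, dif_neg h]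

private theorem gc_smul {d : ℕ} (L : Finset (Fin d → ℤ)) (t : ℝ) (x : L × Bool → ℝ) :
    gc L (t • x) = t • gc L x := by
  funext k
  by_cases h : k ∈ L
  · simp only [gc, dif_pos h, Pi.smul_apply, smul_eq_mul, Complex.real_smul]
    push_cast
    ring
  · simp [gc, dif_neg h]

private noncomputable def gcL {d : ℕ} (L : Finset (Fin d → ℤ)) : (L × Bool → ℝ) →ₗ[ℝ] CV d where
  toFun := gc L
  map_add' := gc_add L
  map_smul' t x := gc_smul L t x

private theorem gc_continuous {d : ℕ} (L : Finset (Fin d → ℤ)) (k : Fin d → ℤ) :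
    Continuous (fun x : L × Bool → ℝ => gc L x k) := by
  by_cases h : k ∈ L
  · simp only [gc, dif_pos h]
    fun_prop
  · simp only [gc, dif_neg h]
    exact continuous_const

private theorem tp_apply {d : ℕ} (L : Finset (Fin d → ℤ)) (c : CV d) (t : Td d) :
    tp L c t = ∑ k ∈ L, c k * UnitAddTorus.mFourier k t := by
  simp [tp, ContinuousMap.coe_sum, Finset.sum_apply]

theorem mean_norm {d : ℕ} (L : Finset (Fin d → ℤ)) (a : CV d) (m : ℕ) (hm : 1 ≤ m) :
    Continuous (fun x : L × Bool → ℝ => nrm (2 * m : ℝ≥0∞) (tp L (fun k => a k * gc L x k))) ∧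
    Integrable (fun x : L × Bool → ℝ => nrm (2 * m : ℝ≥0∞) (tp L (fun k => a k * gc L x k)))
      (gam (L × Bool)) ∧
    ∫ x : L × Bool → ℝ, nrm (2 * m : ℝ≥0∞) (tp L (fun k => a k * gc L x k)) ∂(gam (L × Bool)) ≤
      √(8 * Real.exp 1 * m) * l2 L a := by
  have hq1 : (1 : ℝ≥0∞) ≤ 2 * m := by
    have : (1 : ℝ≥0∞) ≤ m := by exact_mod_cast hm
    calc (1 : ℝ≥0∞) ≤ m := this
      _ = 1 * m := (one_mul _).symm
      _ ≤ 2 * m := by gcongr; norm_num
  set F : (L × Bool → ℝ) → ℝ := fun x => nrm (2 * m : ℝ≥0∞) (tp L (fun k => a k * gc L x k))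
    with hFdef
  have hF : Sn F := (sn_nrm (2 * m : ℝ≥0∞) hq1 L a).comp (gcL L)
  have hFc : Continuous F := sn_fin_continuous hF
  have hFi : Integrable F (gam (L × Bool)) := sn_fin_integrable hF
  refine ⟨hFc, hFi, ?_⟩
  set s := l2 L a with hs
  have hs0 : 0 ≤ s := Real.sqrt_nonneg _
  set K : ℝ := (8 * Real.exp 1 * m) ^ m * s ^ (2 * m) with hK
  have hK0 : 0 ≤ K := by positivity
  set f : (L × Bool → ℝ) × Td d → ℝ :=
    fun p => ‖tp L (fun k => a k * gc L p.1 k) p.2‖ ^ (2 * m) with hf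
  have hfc : Continuous f := by
    simp only [hf, tp_apply]
    refine (continuous_norm.comp ?_).pow _
    refine continuous_finsetSum _ fun k _ => ?_
    exact (continuous_const.mul ((gc_continuous L k).comp continuous_fst)).mul
      ((UnitAddTorus.mFourier k).continuous.comp continuous_snd)
  have hfm : AEStronglyMeasurable f ((gam (L × Bool)).prod (mu d)) := hfc.aestronglyMeasurable
  have hpt : ∀ t : Td d, Integrable (fun x => f (x, t)) (gam (L × Bool)) ∧
      ∫ x, f (x, t) ∂(gam (L × Bool)) ≤ K := fun t => point_moment L a m hm t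
  have hfnn : ∀ p, 0 ≤ f p := fun p => by positivity
  have hfi : Integrable f ((gam (L × Bool)).prod (mu d)) := by
    rw [integrable_prod_iff' hfm]
    refine ⟨Filter.Eventually.of_forall fun t => (hpt t).1, ?_⟩
    refine Integrable.of_bound (hfm.norm.prod_swap.integral_prod_right') K
      (Filter.Eventually.of_forall fun t => ?_)
    have h1 : ∀ x, ‖f (x, t)‖ = f (x, t) := fun x => by
      rw [Real.norm_eq_abs, abs_of_nonneg (hfnn _)]
    simp only [h1]
    rw [Real.norm_eq_abs, abs_of_nonneg (integral_nonneg fun x => hfnn _)]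
    exact (hpt t).2
  have hFpow : ∀ x, F x ^ (2 * m) = ∫ t, f (x, t) ∂(mu d) := fun x =>
    nrm_pow L (fun k => a k * gc L x k) m hm
  have hFpi : Integrable (fun x => F x ^ (2 * m)) (gam (L × Bool)) := by
    simp only [hFpow]
    exact hfi.integral_prod_left
  have h1 : ∫ x, F x ^ (2 * m) ∂(gam (L × Bool)) ≤ K := by
    simp only [hFpow]
    rw [integral_integral_swap (f := fun x t => f (x, t)) hfi]
    calc ∫ t, ∫ x, f (x, t) ∂(gam (L × Bool)) ∂(mu d) ≤ ∫ _t : Td d, K ∂(mu d) := by
          apply integral_mono hfi.integral_prod_right (integrable_const K)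
          intro t
          exact (hpt t).2
      _ = K := by simp
  have h2 : (∫ x, F x ∂(gam (L × Bool))) ^ (2 * m) ≤ ∫ x, F x ^ (2 * m) ∂(gam (L × Bool)) :=
    (convexOn_pow (2 * m)).map_integral_le (continuous_pow _).continuousOn isClosed_Ici
      (Filter.Eventually.of_forall fun x => hF.nonneg x) hFi hFpi
  have h3 : K = (√(8 * Real.exp 1 * m) * s) ^ (2 * m) := by
    rw [mul_pow, pow_mul (√(8 * Real.exp 1 * m)), Real.sq_sqrt (by positivity)]
  have h4 : (∫ x, F x ∂(gam (L × Bool))) ^ (2 * m) ≤ (√(8 * Real.exp 1 * m) * s) ^ (2 * m) := by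
    rw [← h3]
    exact h2.trans h1
  exact le_of_pow_le_pow_left₀ (by omega) (by positivity) h4

end MPcd65c1
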