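import Pool.Agent.Lib.MP_cd65c1_an.H1

/-!
# H3a: the seminorm l2, covering of the l2 ball by balls of radius 1/2

`sn_l2`: `l2 L c` is the norm of `(c k)_{k ∈ L}` in `EuclideanSpace ℂ L` (`EuclideanSpace.norm_eq`; use
`WithLp.toLp 2 (fun k : L => c k)`), so it is a seminorm.

PROOF of `vol_half`. Use `Cov.of_separated` (H1) for `A = {c | l2 L c ≤ 1}`, `e = 1/2`: let `S ⊆ A` be finite and
`1/2`-separated (`1/2 < l2 L (x - y)`). The vectors `2 • x` (`x ∈ S`) of `E = EuclideanSpace ℂ L` have norm `≤ 2` and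
mutual distances `≥ 1`, so (`Besicovitch.card_le_of_separated`, applied to the image of `S` in `E`; the map is
injective on `S` by the separation) `S.card ≤ 5 ^ finrank ℝ E` and `finrank ℝ E = 2 * L.card`
(`finrank_real_complex`, `finrank_mul_finrank ℝ ℂ E` or `Module.finrank_pi_fintype`).
-/

set_option autoImplicit false

namespace MPcd65c1

private noncomputable def emb {d : ℕ} (L : Finset (Fin d → ℤ)) (c : CV d) :
    EuclideanSpace ℂ L := WithLp.toLp 2 (fun k : L => c k)

private theorem norm_emb {d : ℕ} (L : Finset (Fin d → ℤ)) (c : CV d) :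
    ‖emb L c‖ = l2 L c := by
  rw [EuclideanSpace.norm_eq, l2]
  congr 1
  simp only [emb]
  exact Finset.sum_coe_sort L (fun k => ‖c k‖ ^ 2)

private theorem emb_add {d : ℕ} (L : Finset (Fin d → ℤ)) (x y : CV d) :
    emb L (x + y) = emb L x + emb L y := rfl

private theorem emb_sub {d : ℕ} (L : Finset (Fin d → ℤ)) (x y : CV d) :
    emb L (x - y) = emb L x - emb L y := rfl

private theorem emb_smul {d : ℕ} (L : Finset (Fin d → ℤ)) (t : ℝ) (x : CV d) :
    emb L (t • x) = t • emb L x := rfl

theorem sn_l2 {d : ℕ} (L : Finset (Fin d → ℤ)) : Sn (l2 L) := by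
  constructor
  · intro x y
    rw [← norm_emb, ← norm_emb, ← norm_emb, emb_add]
    exact norm_add_le _ _
  · intro t x
    rw [← norm_emb, ← norm_emb, emb_smul, norm_smul, Real.norm_eq_abs]

theorem vol_half {d : ℕ} (L : Finset (Fin d → ℤ)) :
    Cov (l2 L) {c : CV d | l2 L c ≤ 1} ((5 : ℝ) ^ (2 * L.card)) (1 / 2) := by
  classical
  refine Cov.of_separated (sn_l2 L) (by norm_num) fun S hS hsep => ?_
  set f : CV d → EuclideanSpace ℂ L := fun x => (2 : ℝ) • emb L x with hf
  have hdist : ∀ x y : CV d, ‖f x - f y‖ = 2 * l2 L (x - y) := by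
    intro x y
    rw [hf]
    simp only
    rw [← smul_sub, ← emb_sub, norm_smul, norm_emb]
    norm_num
  have hinj : Set.InjOn f S := by
    intro x hx y hy hxy
    by_contra hne
    have h1 := hsep x hx y hy hne
    have h2 := hdist x y
    rw [hxy, sub_self, norm_zero] at h2
    linarith
  have h1 := Besicovitch.card_le_of_separated (S.image f) (by
    intro c hc
    obtain ⟨x, hx, rfl⟩ := Finset.mem_image.mp hc
    have h2 : l2 L x ≤ 1 := hS x hx
    rw [hf]
    simp only
    rw [norm_smul, norm_emb]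
    norm_num
    linarith) (by
    intro c hc c' hc' hne
    obtain ⟨x, hx, rfl⟩ := Finset.mem_image.mp hc
    obtain ⟨y, hy, rfl⟩ := Finset.mem_image.mp hc'
    have hne' : x ≠ y := fun h => hne (by rw [h])
    have h2 := hsep x hx y hy hne'
    rw [hdist]
    linarith)
  rw [Finset.card_image_of_injOn hinj, finrank_real_of_complex, finrank_euclideanSpace,
    Fintype.card_coe] at h1
  exact_mod_cast h1

end MPcd65c1
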