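import Pool.Agent.Lib.MP_cd65c1_an.G2b
import Pool.Agent.Lib.MP_cd65c1_an.G3c
import Pool.Agent.Lib.MP_cd65c1_an.H3a

/-!
# G4a: covering of the l2 ball in the norm of L_2m after a multiplier, exponential form

PROOF of `cov_exp`. If `l2 L a = 0` then `a k = 0` on `L`, the seminorm is `0` and one ball works
(`Cov.one_ball`). Otherwise apply `dual_sudakov` on `ι = L × Bool` to
`q x = nrm (2m) (tp L (a * gc L x))` (a seminorm by `sn_nrm` and linearity of `gc L`), `A = √(8 exp 1 m) * l2 L a`
(`mean_norm`): `Cov q {∑ x i ^ 2 ≤ 1} (2 exp (64 exp 1 m (l2 L a) ^ 2 / e ^ 2)) e` and `64 exp 1 ≤ 200`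
(`Real.exp_one_lt_d9`). Transfer to `CV d`: `T x = gc L x` is linear, `l2 L (gc L x) ^ 2 = ∑ x i ^ 2`; for `c` with
`l2 L c ≤ 1` take `x` = real and imaginary parts of `c` on `L`: then `gc L x = c` on `L`, the polynomials are equal.
So if `y` is the centre for `x` then `gc L y` is a centre for `c`.
-/

set_option autoImplicit false

namespace MPcd65c1

open MeasureTheory
open scoped ENNReal

private theorem tp_congr {d : ℕ} {L : Finset (Fin d → ℤ)} {c c' : CV d}
    (h : ∀ k ∈ L, c k = c' k) : tp L c = tp L c' := by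
  unfold tp
  exact Finset.sum_congr rfl fun k hk => by rw [h k hk]

private theorem gc_add' {d : ℕ} (L : Finset (Fin d → ℤ)) (x y : L × Bool → ℝ) :
    gc L (x + y) = gc L x + gc L y := by
  funext k
  by_cases h : k ∈ L
  · simp only [gc, dif_pos h, Pi.add_apply]
    push_cast
    ring
  · simp [gc, dif_neg h]

private theorem gc_smul' {d : ℕ} (L : Finset (Fin d → ℤ)) (t : ℝ) (x : L × Bool → ℝ) :
    gc L (t • x) = t • gc L x := by
  funext k
  by_cases h : k ∈ L
  · simp only [gc, dif_pos h, Pi.smul_apply, smul_eq_mul, Complex.real_smul]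
    push_cast
    ring
  · simp [gc, dif_neg h]

private noncomputable def gcL' {d : ℕ} (L : Finset (Fin d → ℤ)) :
    (L × Bool → ℝ) →ₗ[ℝ] CV d where
  toFun := gc L
  map_add' := gc_add' L
  map_smul' t x := gc_smul' L t x

theorem cov_exp {d : ℕ} (L : Finset (Fin d → ℤ)) (a : CV d) (m : ℕ) (hm : 1 ≤ m) (e : ℝ)
    (he : 0 < e) :
    Cov (fun c : CV d => nrm (2 * m : ℝ≥0∞) (tp L (fun k => a k * c k))) {c | l2 L c ≤ 1}
      (2 * Real.exp (200 * m * l2 L a ^ 2 / e ^ 2)) e := by
  classical
  set s := l2 L a with hs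
  have hs0 : 0 ≤ s := Real.sqrt_nonneg _
  have hone : (1 : ℝ) ≤ 2 * Real.exp (200 * m * s ^ 2 / e ^ 2) := by
    have : (1 : ℝ) ≤ Real.exp (200 * m * s ^ 2 / e ^ 2) := Real.one_le_exp (by positivity)
    linarith
  rcases eq_or_lt_of_le hs0 with h0 | hpos
  · -- the multiplier vanishes on `L`
    have hz : ∀ k ∈ L, a k = 0 := by
      have h1 : ∑ k ∈ L, ‖a k‖ ^ 2 = 0 := by
        have h2 : √(∑ k ∈ L, ‖a k‖ ^ 2) = 0 := h0.symm
        exact (Real.sqrt_eq_zero (Finset.sum_nonneg fun k _ => by positivity)).mp h2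
      intro k hk
      have h3 := (Finset.sum_eq_zero_iff_of_nonneg (fun k _ => by positivity)).mp h1 k hk
      simpa using h3
    refine Cov.one_ball (fun c _ => ?_) hone
    refine (nrm_tp_le _ L _).trans ?_
    rw [Finset.sum_eq_zero fun k hk => by rw [hz k hk, zero_mul, norm_zero]]
    exact he.le
  · have hq1 : (1 : ℝ≥0∞) ≤ 2 * m := by
      have : (1 : ℝ≥0∞) ≤ m := by exact_mod_cast hm
      calc (1 : ℝ≥0∞) ≤ m := this
        _ = 1 * m := (one_mul _).symm
        _ ≤ 2 * m := by gcongr; norm_num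
    set F : (L × Bool → ℝ) → ℝ := fun x => nrm (2 * m : ℝ≥0∞) (tp L (fun k => a k * gc L x k))
      with hFdef
    have hF : Sn F := (sn_nrm (2 * m : ℝ≥0∞) hq1 L a).comp (gcL' L)
    obtain ⟨hc, hi, hE⟩ := mean_norm L a m hm
    have hm0 : (0 : ℝ) < m := by exact_mod_cast hm
    have hA : 0 < √(8 * Real.exp 1 * m) * s := by
      have : 0 < √(8 * Real.exp 1 * m) := Real.sqrt_pos.mpr (by positivity)
      positivity
    obtain ⟨Y, hY, hcov⟩ := dual_sudakov F hF hc.measurable hi _ hA hE e he
    refine ⟨Y.image (gc L), ?_, ?_⟩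
    · refine (Nat.cast_le.mpr Finset.card_image_le).trans (hY.trans ?_)
      apply mul_le_mul_of_nonneg_left _ (by norm_num : (0 : ℝ) ≤ 2)
      apply Real.exp_le_exp.mpr
      apply div_le_div_of_nonneg_right _ (by positivity)
      rw [mul_pow, Real.sq_sqrt (by positivity)]
      have he1 : Real.exp 1 ≤ 2.7182818286 := Real.exp_one_lt_d9.le
      have h1 : 8 * (8 * Real.exp 1 * m * s ^ 2) = (64 * Real.exp 1) * (m * s ^ 2) := by ring
      have h2 : 200 * (m : ℝ) * s ^ 2 = 200 * (m * s ^ 2) := by ring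
      rw [h1, h2]
      exact mul_le_mul_of_nonneg_right (by linarith) (by positivity)
    · intro c hc1
      have hc1' : l2 L c ≤ 1 := hc1
      set x : L × Bool → ℝ := fun p => if p.2 then (c p.1).re else (c p.1).im with hx
      have hsum : ∑ i, x i ^ 2 ≤ 1 := by
        have h1 : ∑ i, x i ^ 2 = ∑ k ∈ L, ‖c k‖ ^ 2 := by
          rw [Fintype.sum_prod_type, ← Finset.sum_coe_sort L (fun k => ‖c k‖ ^ 2)]
          apply Finset.sum_congr rfl
          intro k _
          simp only [Fintype.sum_bool, hx, if_true, Bool.false_eq_true, if_false]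
          rw [← Complex.normSq_eq_norm_sq, Complex.normSq_apply]
          ring
        rw [h1]
        have h2 : ∑ k ∈ L, ‖c k‖ ^ 2 = l2 L c ^ 2 :=
          (Real.sq_sqrt (Finset.sum_nonneg fun k _ => by positivity)).symm
        rw [h2]
        have h3 : 0 ≤ l2 L c := Real.sqrt_nonneg _
        nlinarith
      obtain ⟨y, hy, h4⟩ := hcov x hsum
      refine ⟨gc L y, Finset.mem_image_of_mem _ hy, ?_⟩
      have h5 : tp L (fun k => a k * (c - gc L y) k) = tp L (fun k => a k * gc L (x - y) k) := by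
        apply tp_congr
        intro k hk
        congr 1
        simp only [Pi.sub_apply, gc, dif_pos hk, hx, if_true, Bool.false_eq_true, if_false]
        push_cast
        conv_lhs => rw [← Complex.re_add_im (c k)]
        ring
      change nrm (2 * m : ℝ≥0∞) (tp L (fun k => a k * (c - gc L y) k)) ≤ e
      rw [h5]
      exact h4

end MPcd65c1
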