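import Pool.Agent.Lib.MP_cd65c1_an.G4a

/-!
# G4b: the same with bits (G4)

PROOF of `cov_bits` (G4). `C0 = 40`. For `k ≥ 2` apply `cov_exp` with `e = 40 √m s / √k` (`s = l2 L a > 0`; the case
`s = 0` trivial): `200 m s ^ 2 / e ^ 2 = 200 k / 1600 = k / 8` and `2 exp (k / 8) ≤ 2 ^ k` for `k ≥ 2`
(`2 ^ k = exp (k log 2)`, `log 2 + k / 8 ≤ k log 2` since `k (log 2 - 1/8) ≥ 2 * 0.568 ≥ log 2`, `Real.log_two_gt_d9`).
For `0 < k < 2`: one ball: `nrm ≤ ∑ ‖a k c k‖ ≤ l2 L a * l2 L c ≤ s ≤ 40 √m s / √k` (`nrm_tp_le`, Cauchy-Schwarz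
`Finset.sum_mul_sq_le_sq_mul_sq`).
-/

set_option autoImplicit false

namespace MPcd65c1

open MeasureTheory
open scoped ENNReal

theorem nrm_le_l2 {d : ℕ} (q : ℝ≥0∞) (L : Finset (Fin d → ℤ)) (a c : CV d) (hc : l2 L c ≤ 1) :
    nrm q (tp L (fun k => a k * c k)) ≤ l2 L a := by
  refine (nrm_tp_le q L _).trans ?_
  have h1 : ∑ k ∈ L, ‖a k * c k‖ = ∑ k ∈ L, ‖a k‖ * ‖c k‖ :=
    Finset.sum_congr rfl fun k _ => norm_mul _ _
  rw [h1]
  refine (Real.sum_mul_le_sqrt_mul_sqrt L (fun k => ‖a k‖) (fun k => ‖c k‖)).trans ?_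
  have h2 : √(∑ k ∈ L, ‖c k‖ ^ 2) ≤ 1 := hc
  have h3 : 0 ≤ l2 L a := Real.sqrt_nonneg _
  exact mul_le_of_le_one_right h3 h2

/-- (G4) -/
theorem cov_bits {d : ℕ} (L : Finset (Fin d → ℤ)) (a : CV d) (m : ℕ) (hm : 1 ≤ m) (k : ℝ)
    (hk : 0 < k) :
    Cov (fun c : CV d => nrm (2 * m : ℝ≥0∞) (tp L (fun k => a k * c k))) {c | l2 L c ≤ 1}
      ((2 : ℝ) ^ k) (40 * √m * l2 L a / √k) := by
  have hs0 : 0 ≤ l2 L a := Real.sqrt_nonneg _
  have hm1 : (1 : ℝ) ≤ m := by exact_mod_cast hm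
  have hsm : (1 : ℝ) ≤ √m := by
    rw [show (1 : ℝ) = √1 by simp]
    exact Real.sqrt_le_sqrt hm1
  have hsk : 0 < √k := Real.sqrt_pos.mpr hk
  have hN1 : (1 : ℝ) ≤ (2 : ℝ) ^ k := Real.one_le_rpow (by norm_num) hk.le
  rcases lt_or_ge k 2 with hk2 | hk2
  · refine Cov.one_ball (fun c hc => (nrm_le_l2 _ L a c hc).trans ?_) hN1
    rw [le_div_iff₀ hsk]
    have h1 : √k ≤ 2 := by
      rw [show (2 : ℝ) = √4 by rw [show (4 : ℝ) = 2 ^ 2 by norm_num]; simp]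
      exact Real.sqrt_le_sqrt (by linarith)
    have h2 : √k ≤ 40 * √m := by linarith
    calc l2 L a * √k ≤ l2 L a * (40 * √m) := mul_le_mul_of_nonneg_left h2 hs0
      _ = 40 * √m * l2 L a := by ring
  · rcases eq_or_lt_of_le hs0 with h0 | hpos
    · refine Cov.one_ball (fun c hc => (nrm_le_l2 _ L a c hc).trans ?_) hN1
      rw [← h0]
      simp
    · have he : 0 < 40 * √m * l2 L a / √k := by positivity
      refine (cov_exp L a m hm _ he).mono_N ?_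
      have h1 : 200 * (m : ℝ) * l2 L a ^ 2 / (40 * √m * l2 L a / √k) ^ 2 = k / 8 := by
        rw [div_pow, mul_pow, mul_pow, Real.sq_sqrt hk.le, Real.sq_sqrt (by linarith)]
        field_simp
        norm_num
      rw [h1, Real.rpow_def_of_pos (by norm_num)]
      have h2 : (2 : ℝ) * Real.exp (k / 8) = Real.exp (Real.log 2 + k / 8) := by
        rw [Real.exp_add, Real.exp_log (by norm_num)]
      rw [h2]
      apply Real.exp_le_exp.mpr
      have h3 : (0.6931471803 : ℝ) < Real.log 2 := Real.log_two_gt_d9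
      nlinarith

end MPcd65c1
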