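import Pool.Agent.Lib.MP_cd65c1_an.H1

/-!
# G5a: characters are Lipschitz, measure of small boxes
-/

set_option autoImplicit false

namespace MPcd65c1

open MeasureTheory
open scoped ENNReal

private theorem g5a_fourier_lip (n : ℤ) (x y : UnitAddCircle) :
    ‖(fourier n x : ℂ) - fourier n y‖ ≤ 2 * Real.pi * |(n : ℝ)| * ‖x - y‖ := by
  obtain ⟨t, ht⟩ : ∃ t : ℝ, (t : UnitAddCircle) = x - y := QuotientAddGroup.mk_surjective _
  have hu : (((t - round t : ℝ)) : UnitAddCircle) = x - y := by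
    rw [← ht, AddCircle.coe_sub]
    have : (((round t : ℤ) : ℝ) : UnitAddCircle) = 0 := by
      have := AddCircle.coe_period (1 : ℝ)
      rw [show (((round t : ℤ) : ℝ)) = (round t : ℤ) • (1 : ℝ) by simp, AddCircle.coe_zsmul,
        this, smul_zero]
    rw [this, sub_zero]
  have hn : ‖x - y‖ = |t - round t| := by rw [← ht, UnitAddCircle.norm_eq]
  have hx : x = y + ((t - round t : ℝ) : UnitAddCircle) := by rw [hu]; abel
  have h1 : (fourier n x : ℂ) = fourier n y * fourier n (((t - round t : ℝ)) : UnitAddCircle) := by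
    rw [hx, fourier_apply, fourier_apply, fourier_apply, smul_add, AddCircle.toCircle_add,
      Circle.coe_mul]
  have h2 : ‖(fourier n y : ℂ)‖ = 1 := by rw [fourier_apply, Circle.norm_coe]
  have h3 : (fourier n x : ℂ) - fourier n y =
      fourier n y * (fourier n (((t - round t : ℝ)) : UnitAddCircle) - 1) := by
    rw [h1]; ring
  rw [h3, norm_mul, h2, one_mul, hn, fourier_coe_apply]
  have h4 : (2 * Real.pi * Complex.I * n * ((t - round t : ℝ) : ℂ) / ((1 : ℝ) : ℂ)) =
      Complex.I * ((2 * Real.pi * n * (t - round t) : ℝ) : ℂ) := by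
    push_cast
    ring
  rw [h4]
  refine (Real.norm_exp_I_mul_ofReal_sub_one_le).trans (le_of_eq ?_)
  rw [Real.norm_eq_abs, abs_mul, abs_mul, abs_mul, abs_of_pos Real.pi_pos, abs_of_pos (by norm_num : (0 : ℝ) < 2)]

private theorem g5a_prod {ι : Type*} (s : Finset ι) (a b : ι → ℂ) (ha : ∀ i, ‖a i‖ ≤ 1)
    (hb : ∀ i, ‖b i‖ ≤ 1) : ‖∏ i ∈ s, a i - ∏ i ∈ s, b i‖ ≤ ∑ i ∈ s, ‖a i - b i‖ := by
  classical
  induction s using Finset.induction_on with
  | empty => simp
  | insert i s hi ih =>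
    rw [Finset.prod_insert hi, Finset.prod_insert hi, Finset.sum_insert hi]
    have h1 : a i * ∏ i ∈ s, a i - b i * ∏ i ∈ s, b i =
      (a i - b i) * ∏ i ∈ s, a i + b i * (∏ i ∈ s, a i - ∏ i ∈ s, b i) := by ring
    rw [h1]
    have h2 : ‖∏ i ∈ s, a i‖ ≤ 1 := by
      rw [norm_prod]
      exact Finset.prod_le_one (fun _ _ => norm_nonneg _) (fun _ _ => ha _)
    calc _ ≤ ‖(a i - b i) * ∏ i ∈ s, a i‖ + ‖b i * (∏ i ∈ s, a i - ∏ i ∈ s, b i)‖ := norm_add_le _ _
      _ ≤ ‖a i - b i‖ * 1 + 1 * ∑ i ∈ s, ‖a i - b i‖ := by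
        rw [norm_mul, norm_mul]
        gcongr
        exact hb i
      _ = _ := by ring

theorem mF_lip {d : ℕ} (k : Fin d → ℤ) (x y : Td d) :
    ‖UnitAddTorus.mFourier k x - UnitAddTorus.mFourier k y‖ ≤
      ∑ j, 2 * Real.pi * |(k j : ℝ)| * ‖x j - y j‖ := by
  have h : ‖UnitAddTorus.mFourier k x - UnitAddTorus.mFourier k y‖ ≤
      ∑ j, ‖(fourier (k j) (x j) : ℂ) - fourier (k j) (y j)‖ := by
    refine g5a_prod Finset.univ (fun j => (fourier (k j) (x j) : ℂ))
      (fun j => (fourier (k j) (y j) : ℂ)) (fun i => ?_) (fun i => ?_)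
    · simp only [fourier_apply, Circle.norm_coe, le_refl]
    · simp only [fourier_apply, Circle.norm_coe, le_refl]
  exact h.trans (Finset.sum_le_sum fun j _ => g5a_fourier_lip _ _ _)

theorem box_measure {d : ℕ} (x : Td d) (δ : ℝ) (h0 : 0 ≤ δ) (h1 : δ ≤ 1 / 2) :
    δ ^ d ≤ (mu d).real {y | ∀ j, ‖y j - x j‖ ≤ δ} := by
  have hset : {y : Td d | ∀ j, ‖y j - x j‖ ≤ δ} =
      Set.pi Set.univ (fun j => Metric.closedBall (x j) δ) := by
    ext y
    simp [Set.mem_pi, Metric.mem_closedBall, dist_eq_norm]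
  have hhaar : ∀ z : UnitAddCircle,
      ENNReal.ofReal δ ≤ (AddCircle.haarAddCircle : Measure UnitAddCircle) (Metric.closedBall z δ) := by
    intro z
    have h2 : (volume : Measure UnitAddCircle) (Metric.closedBall z δ) =
        (AddCircle.haarAddCircle : Measure UnitAddCircle) (Metric.closedBall z δ) := by
      rw [AddCircle.volume_eq_smul_haarAddCircle]
      simp
    rw [← h2, AddCircle.volume_closedBall]
    apply ENNReal.ofReal_le_ofReal
    rw [le_min_iff]
    constructor <;> linarith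
  have hm : ENNReal.ofReal (δ ^ d) ≤ mu d {y | ∀ j, ‖y j - x j‖ ≤ δ} := by
    rw [hset, mu, Measure.pi_pi, ENNReal.ofReal_pow h0]
    calc ENNReal.ofReal δ ^ d = ∏ _j : Fin d, ENNReal.ofReal δ := by simp
      _ ≤ _ := Finset.prod_le_prod' fun j _ => hhaar _
  rw [Measure.real, ← ENNReal.ofReal_le_iff_le_toReal]
  · exact hm
  · exact measure_ne_top _ _

end MPcd65c1
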