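import Pool.Agent.Lib.MP_cd65c1_an.G5a
import Pool.Agent.Lib.MP_cd65c1_an.H4c

/-!
# G5b: the inequality of Nikolskii between L_oo and L_2m, m >= l+1 (G5)
-/

set_option autoImplicit false

namespace MPcd65c1

open MeasureTheory
open scoped ENNReal

private theorem g5b_integral_fourier (n : ℤ) :
    ∫ x, (fourier n x : ℂ) ∂(AddCircle.haarAddCircle : Measure UnitAddCircle) =
      if n = 0 then 1 else 0 := by
  by_cases h : n = 0
  · subst h
    simp
  · rw [if_neg h]
    exact integral_eq_zero_of_add_right_eq_neg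
      (μ := (AddCircle.haarAddCircle : Measure UnitAddCircle))
      (fourier_add_half_inv_index h (by norm_num : (0 : ℝ) < 1))

private theorem g5b_integral_mF {d : ℕ} (k : Fin d → ℤ) :
    ∫ x, (UnitAddTorus.mFourier k x : ℂ) ∂(mu d) = if k = 0 then 1 else 0 := by
  have h1 : ∫ x, (UnitAddTorus.mFourier k x : ℂ) ∂(mu d) =
      ∏ j, ∫ x, (fourier (k j) x : ℂ) ∂(AddCircle.haarAddCircle : Measure UnitAddCircle) := by
    rw [← integral_fintype_prod_eq_prod]
    rfl
  rw [h1]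
  simp_rw [g5b_integral_fourier]
  by_cases h : k = 0
  · subst h
    simp
  · rw [if_neg h]
    obtain ⟨j, hj⟩ := Function.ne_iff.mp h
    exact Finset.prod_eq_zero (Finset.mem_univ j) (if_neg hj)

private theorem g5b_tp_apply {d : ℕ} (L : Finset (Fin d → ℤ)) (c : CV d) (x : Td d) :
    tp L c x = ∑ k ∈ L, c k * UnitAddTorus.mFourier k x := by
  simp [tp, ContinuousMap.sum_apply]

private theorem g5b_norm_mF {d : ℕ} (k : Fin d → ℤ) (x : Td d) :
    ‖(UnitAddTorus.mFourier k x : ℂ)‖ = 1 := by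
  simp only [UnitAddTorus.mFourier, ContinuousMap.coe_mk, norm_prod, fourier_apply,
    Circle.norm_coe, Finset.prod_const_one]

private theorem g5b_coef {d : ℕ} (L : Finset (Fin d → ℤ)) (c : CV d) (k : Fin d → ℤ) (hk : k ∈ L) :
    ∫ x, UnitAddTorus.mFourier (-k) x * tp L c x ∂(mu d) = c k := by
  have h1 : ∀ x : Td d, UnitAddTorus.mFourier (-k) x * tp L c x =
      ∑ m ∈ L, c m * UnitAddTorus.mFourier (m + -k) x := by
    intro x
    rw [g5b_tp_apply, Finset.mul_sum]
    refine Finset.sum_congr rfl fun m _ => ?_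
    rw [UnitAddTorus.mFourier_add]
    ring
  simp_rw [h1]
  rw [integral_finsetSum]
  · simp_rw [integral_const_mul, g5b_integral_mF]
    rw [Finset.sum_eq_single k]
    · simp
    · intro m _ hm
      rw [if_neg, mul_zero]
      intro h
      exact hm (by simpa using add_neg_eq_zero.mp h)
    · intro h
      exact absurd hk h
  · intro m _
    exact ((UnitAddTorus.mFourier (m + -k)).continuous.integrable_of_hasCompactSupport
      (HasCompactSupport.of_compactSpace _)).const_mul _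

theorem coef_le_sup {d : ℕ} (L : Finset (Fin d → ℤ)) (c : CV d) (F : ℝ)
    (hF : ∀ x, ‖tp L c x‖ ≤ F) (k : Fin d → ℤ) (hk : k ∈ L) : ‖c k‖ ≤ F := by
  rw [← g5b_coef L c k hk]
  have h := norm_integral_le_of_norm_le_const (μ := mu d) (C := F)
    (f := fun x => UnitAddTorus.mFourier (-k) x * tp L c x)
    (Filter.Eventually.of_forall fun x => by
      rw [norm_mul, g5b_norm_mF, one_mul]
      exact hF x)
  simpa using h

private theorem g5b_card {d : ℕ} (D : ℕ) (L : Finset (Fin d → ℤ))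
    (hL : ∀ k ∈ L, ∀ j, |k j| ≤ 2 ^ D) : (L.card : ℝ) ≤ 3 ^ d * (2 : ℝ) ^ (D * d) := by
  have h1 : L ⊆ Fintype.piFinset (fun _ : Fin d => Finset.Icc (-(2 : ℤ) ^ D) (2 ^ D)) := by
    intro k hk
    rw [Fintype.mem_piFinset]
    intro j
    rw [Finset.mem_Icc]
    have := abs_le.mp (hL k hk j)
    exact this
  have h2 := Finset.card_le_card h1
  rw [Fintype.card_piFinset] at h2
  simp only [Int.card_Icc, Finset.prod_const, Finset.card_univ, Fintype.card_fin] at h2
  have h3 : ((2 : ℤ) ^ D + 1 - -(2 : ℤ) ^ D).toNat = 2 * 2 ^ D + 1 := by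
    have : (2 : ℤ) ^ D + 1 - -(2 : ℤ) ^ D = ((2 * 2 ^ D + 1 : ℕ) : ℤ) := by
      push_cast
      ring
    rw [this, Int.toNat_natCast]
  rw [h3] at h2
  have h4 : (2 * 2 ^ D + 1 : ℕ) ≤ 3 * 2 ^ D := by
    have : 1 ≤ 2 ^ D := Nat.one_le_two_pow
    omega
  have h5 : L.card ≤ (3 * 2 ^ D) ^ d := h2.trans (Nat.pow_le_pow_left h4 d)
  calc (L.card : ℝ) ≤ (((3 * 2 ^ D) ^ d : ℕ) : ℝ) := by exact_mod_cast h5
    _ = _ := by
      push_cast
      rw [mul_pow, pow_mul]

/-- (G5) -/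
theorem nikolskii (d A : ℕ) : ∃ C : ℝ, 0 < C ∧ ∀ (l m : ℕ), l + 1 ≤ m →
    ∀ L : Finset (Fin d → ℤ), (∀ k ∈ L, ∀ j, |k j| ≤ 2 ^ (A * (l + 1))) → ∀ c : CV d,
      nrm ∞ (tp L c) ≤ C * nrm (2 * m : ℝ≥0∞) (tp L c) := by
  set K : ℝ := 4 * Real.pi * ((d : ℝ) + 1) * 3 ^ d with hK
  have hpi := Real.pi_gt_three
  have hd0 : (0 : ℝ) ≤ d := Nat.cast_nonneg d
  have hK1 : 1 ≤ K := by
    have h3 : (1 : ℝ) ≤ 3 ^ d := one_le_pow₀ (by norm_num)
    have : (1 : ℝ) ≤ 4 * Real.pi * ((d : ℝ) + 1) := by nlinarith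
    calc (1 : ℝ) = 1 * 1 := by ring
      _ ≤ K := by rw [hK]; gcongr
  set B : ℝ := K ^ d * (2 : ℝ) ^ ((A + A * d) * d) with hB
  have hB1 : 1 ≤ B := by
    have h1 : (1 : ℝ) ≤ K ^ d := one_le_pow₀ hK1
    have h2 : (1 : ℝ) ≤ (2 : ℝ) ^ ((A + A * d) * d) := one_le_pow₀ (by norm_num)
    calc (1 : ℝ) = 1 * 1 := by ring
      _ ≤ B := by rw [hB]; gcongr
  refine ⟨2 * B, by positivity, ?_⟩
  intro l m hlm L hL c
  set D : ℕ := A * (l + 1) with hD
  have hm0 : 0 < m := by omega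
  obtain ⟨x0, -, hx0⟩ := isCompact_univ.exists_isMaxOn (s := (Set.univ : Set (Td d)))
    ⟨0, trivial⟩ (f := fun x => ‖tp L c x‖) (by fun_prop)
  have hmax : ∀ x, ‖tp L c x‖ ≤ ‖tp L c x0‖ := fun x => hx0 (Set.mem_univ x)
  set F : ℝ := ‖tp L c x0‖ with hF
  have hF0 : 0 ≤ F := norm_nonneg _
  -- the sup norm is at most F
  have hsup : nrm ∞ (tp L c : Td d → ℂ) ≤ F := by
    have : eLpNorm (tp L c : Td d → ℂ) ∞ (mu d) ≤ ENNReal.ofReal F := by
      rw [eLpNorm_exponent_top]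
      exact eLpNormEssSup_le_of_ae_bound (Filter.Eventually.of_forall hmax)
    rw [nrm]
    exact ENNReal.toReal_le_of_le_ofReal hF0 this
  refine hsup.trans ?_
  -- the box
  set N1 : ℝ := 3 ^ d * (2 : ℝ) ^ (D * d) with hN1
  have hN1pos : 0 < N1 := by positivity
  set R : ℝ := (2 : ℝ) ^ D with hR
  have hR1 : 1 ≤ R := one_le_pow₀ (by norm_num)
  have hN11 : 1 ≤ N1 := by
    have h1 : (1 : ℝ) ≤ 3 ^ d := one_le_pow₀ (by norm_num)
    have h2 : (1 : ℝ) ≤ (2 : ℝ) ^ (D * d) := one_le_pow₀ (by norm_num)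
    calc (1 : ℝ) = 1 * 1 := by ring
      _ ≤ N1 := by rw [hN1]; gcongr
  set δ : ℝ := (4 * Real.pi * ((d : ℝ) + 1) * R * N1)⁻¹ with hδ
  have hden : 2 ≤ 4 * Real.pi * ((d : ℝ) + 1) * R * N1 := by
    have h1 : (2 : ℝ) ≤ 4 * Real.pi * ((d : ℝ) + 1) := by nlinarith
    calc (2 : ℝ) = 2 * 1 * 1 := by ring
      _ ≤ _ := by gcongr
  have hδ0 : 0 < δ := by rw [hδ]; positivity
  have hδ2 : δ ≤ 1 / 2 := by
    rw [hδ, one_div]
    exact inv_anti₀ (by norm_num) hden
  -- near x0 the function is large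
  have hnear : ∀ x : Td d, (∀ j, ‖x j - x0 j‖ ≤ δ) → F / 2 ≤ ‖tp L c x‖ := by
    intro x hx
    have h1 : ‖tp L c x - tp L c x0‖ ≤ F / 2 := by
      rw [g5b_tp_apply, g5b_tp_apply, ← Finset.sum_sub_distrib]
      have h2 : ∀ k ∈ L, ‖c k * UnitAddTorus.mFourier k x - c k * UnitAddTorus.mFourier k x0‖ ≤
          F * (2 * Real.pi * R * δ * d) := by
        intro k hk
        rw [← mul_sub, norm_mul]
        have h3 : ‖UnitAddTorus.mFourier k x - UnitAddTorus.mFourier k x0‖ ≤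
            2 * Real.pi * R * δ * d := by
          refine (mF_lip k x x0).trans ?_
          calc ∑ j, 2 * Real.pi * |(k j : ℝ)| * ‖x j - x0 j‖
              ≤ ∑ _j : Fin d, 2 * Real.pi * R * δ := by
                refine Finset.sum_le_sum fun j _ => ?_
                have h4 : |(k j : ℝ)| ≤ R := by
                  have := hL k hk j
                  rw [hR]
                  exact_mod_cast this
                have h5 := hx j
                gcongr
            _ = _ := by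
                simp
                ring
        exact mul_le_mul (coef_le_sup L c F hmax k hk) h3 (norm_nonneg _) hF0
      refine (norm_sum_le_of_le L h2).trans ?_
      rw [Finset.sum_const, nsmul_eq_mul]
      have h6 : (L.card : ℝ) ≤ N1 := g5b_card D L hL
      calc (L.card : ℝ) * (F * (2 * Real.pi * R * δ * d))
          ≤ N1 * (F * (2 * Real.pi * R * δ * d)) := by gcongr
        _ = F * ((2 * Real.pi * R * d * N1) * δ) := by ring
        _ ≤ F * (1 / 2) := by
          gcongr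
          rw [hδ, ← div_eq_mul_inv, div_le_iff₀ (by positivity)]
          have : 0 ≤ Real.pi * R * N1 := by positivity
          nlinarith
        _ = F / 2 := by ring
    have h7 : F ≤ ‖tp L c x‖ + ‖tp L c x - tp L c x0‖ := by
      have := norm_sub_norm_le (tp L c x0) (tp L c x)
      rw [norm_sub_rev] at this
      linarith
    linarith
  -- the set
  set S : Set (Td d) := {y | ∀ j, ‖y j - x0 j‖ ≤ δ} with hS
  have hSm : MeasurableSet S := by
    have : IsClosed S := by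
      rw [hS, Set.ofPred_forall]
      refine isClosed_iInter fun j => ?_
      exact isClosed_le (by fun_prop) continuous_const
    exact this.measurableSet
  have hSδ : δ ^ d ≤ (mu d).real S := box_measure x0 δ hδ0.le hδ2
  -- numerical inequality
  have hnum : (B⁻¹) ^ (2 * m) ≤ δ ^ d := by
    rw [inv_pow, hδ, inv_pow]
    apply inv_anti₀ (by positivity)
    have h1 : 4 * Real.pi * ((d : ℝ) + 1) * R * N1 = K * (2 : ℝ) ^ (D + D * d) := by
      rw [hK, hR, hN1, pow_add]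
      ring
    rw [h1, hB, mul_pow K ((2 : ℝ) ^ (D + D * d)) d,
      mul_pow (K ^ d) ((2 : ℝ) ^ ((A + A * d) * d)) (2 * m)]
    apply mul_le_mul
    · exact (le_self_pow₀ (one_le_pow₀ hK1) (by omega))
    · rw [← pow_mul, ← pow_mul]
      apply pow_le_pow_right₀ (by norm_num)
      rw [hD]
      have h2 : l + 1 ≤ 2 * m := by omega
      calc (A * (l + 1) + A * (l + 1) * d) * d = (A + A * d) * d * (l + 1) := by ring
        _ ≤ (A + A * d) * d * (2 * m) := Nat.mul_le_mul_left _ h2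
    · positivity
    · positivity
  have hp0 : (2 * m : ℝ≥0∞) ≠ 0 := by
    have : (m : ℝ≥0∞) ≠ 0 := by exact_mod_cast hm0.ne'
    simp [this]
  have hptop : (2 * m : ℝ≥0∞) ≠ ∞ := by finiteness
  have hlow : F / 2 * B⁻¹ ≤ nrm (2 * m : ℝ≥0∞) (tp L c : Td d → ℂ) := by
    have h1 : eLpNorm (S.indicator fun _ => (((F / 2 : ℝ)) : ℂ)) (2 * m : ℝ≥0∞) (mu d) ≤
        eLpNorm (tp L c : Td d → ℂ) (2 * m : ℝ≥0∞) (mu d) := by
      refine eLpNorm_mono fun x => ?_
      by_cases hx : x ∈ S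
      · rw [Set.indicator_of_mem hx, Complex.norm_real, Real.norm_eq_abs,
          abs_of_nonneg (by positivity)]
        exact hnear x hx
      · rw [Set.indicator_of_notMem hx, norm_zero]
        exact norm_nonneg _
    rw [eLpNorm_indicator_const hSm hp0 hptop] at h1
    have h2 := ENNReal.toReal_mono (memLp_tp (2 * m : ℝ≥0∞) L c).eLpNorm_ne_top h1
    rw [nrm]
    refine le_trans ?_ h2
    rw [ENNReal.toReal_mul, ← ENNReal.toReal_rpow]
    have h3 : ‖(((F / 2 : ℝ)) : ℂ)‖ₑ.toReal = F / 2 := by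
      rw [toReal_enorm, Complex.norm_real, Real.norm_eq_abs, abs_of_nonneg (by positivity)]
    rw [h3]
    have h4 : (2 * m : ℝ≥0∞).toReal = ((2 * m : ℕ) : ℝ) := by
      simp
    rw [h4]
    have h5 : B⁻¹ ≤ ((mu d).real S) ^ (1 / ((2 * m : ℕ) : ℝ)) := by
      have h6 : ((B⁻¹) ^ (2 * m)) ^ (1 / ((2 * m : ℕ) : ℝ)) = B⁻¹ := by
        rw [one_div]
        exact Real.pow_rpow_inv_natCast (by positivity) (by omega)
      calc B⁻¹ = ((B⁻¹) ^ (2 * m)) ^ (1 / ((2 * m : ℕ) : ℝ)) := h6.symm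
        _ ≤ _ := Real.rpow_le_rpow (by positivity) (hnum.trans hSδ) (by positivity)
    have h7 : (mu d S).toReal = (mu d).real S := rfl
    rw [h7]
    gcongr
  calc F = 2 * B * (F / 2 * B⁻¹) := by field_simp
    _ ≤ 2 * B * nrm (2 * m : ℝ≥0∞) (tp L c : Td d → ℂ) := by gcongr

end MPcd65c1
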