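import Pool.Agent.Lib.MP_cd65c1_an.G4b
import Pool.Agent.Lib.MP_cd65c1_an.G5b

/-!
# G6a: target L_oo (G4oo); pairing and Fourier coefficients

PROOF of `cov_bits_sup` (G4oo). `cov_bits` with `m = l + 1`, `nikolskii` and `Cov.mono` (the seminorm
`nrm ∞ ≤ C nrm (2m)`; so the covering in `nrm (2m)` with radius `ρ` is a covering in `nrm ∞` with radius `C ρ`).

PROOF of `pair_le`. `∑_L Re (a k φ^(k) conj (y k)) = Re ∫ φ(x) ∑_L a k conj (y k) e_{-k}(x) dmu`
(`cf φ k = ∫ mFourier (-k) x * φ x`; finite sum, integrable since `φ ∈ L_p ⊆ L_1` and `mFourier` is bounded) and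
`∑_L a k conj (y k) e_{-k} = conj (tp L (conj a * y))` (`UnitAddTorus.mFourier_neg`). Hölder
(`integral_mul_norm_le_Lp_mul_Lq` or `eLpNorm_smul_le_mul_eLpNorm`/`eLpNorm_le_eLpNorm_mul_eLpNorm` with
`p⁻¹ + q⁻¹ = 1`, `(p, q) = ((2m)', 2m)` or `(1, ∞)`, stated with `ENNReal.HolderConjugate`).

PROOF of `norm_cf_le`. `‖cf φ k‖ ≤ ∫ ‖φ‖ = eLpNorm φ 1 ≤ eLpNorm φ p ≤ 1` (`eLpNorm_le_eLpNorm_of_exponent_le`,
probability measure).
-/

set_option autoImplicit false

namespace MPcd65c1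

open MeasureTheory
open scoped ENNReal ComplexConjugate

/-- (G4oo) -/
theorem cov_bits_sup (d A : ℕ) : ∃ C : ℝ, 0 < C ∧ ∀ (l : ℕ) (L : Finset (Fin d → ℤ)),
    (∀ k ∈ L, ∀ j, |k j| ≤ 2 ^ (A * (l + 1))) → ∀ (a : CV d) (k : ℝ), 0 < k →
    Cov (fun c : CV d => nrm ∞ (tp L (fun k => a k * c k))) {c | l2 L c ≤ 1}
      ((2 : ℝ) ^ k) (C * √((l : ℝ) + 1) * l2 L a / √k) := by
  obtain ⟨C, hC, hN⟩ := nikolskii d A
  refine ⟨C * 40, by positivity, fun l L hL a k hk => ?_⟩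
  have h1 := cov_bits L a (l + 1) (by omega) k hk
  obtain ⟨Y, hY, hc⟩ := h1
  refine ⟨Y, hY, fun c hc' => ?_⟩
  obtain ⟨y, hy, h5⟩ := hc c hc'
  refine ⟨y, hy, ?_⟩
  refine (hN l (l + 1) le_rfl L hL _).trans ?_
  refine (mul_le_mul_of_nonneg_left h5 hC.le).trans (le_of_eq ?_)
  push_cast
  ring

theorem pair_le {d : ℕ} (L : Finset (Fin d → ℤ)) (a y : CV d) (p q : ℝ≥0∞)
    (hpq : ENNReal.HolderConjugate p q) (φ : Td d → ℂ) (hφ : MemLp φ p (mu d))
    (h1 : eLpNorm φ p (mu d) ≤ 1) :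
    |∑ k ∈ L, (a k * cf φ k * conj (y k)).re| ≤ nrm q (tp L (fun k => conj (a k) * y k)) := by
  have hp1 : 1 ≤ p := hpq.one_le
  have hφ1 : MemLp φ 1 (mu d) := hφ.mono_exponent hp1
  have hφi : Integrable φ (mu d) := memLp_one_iff_integrable.mp hφ1
  set g : Td d → ℂ := ⇑(tp L (fun k => conj (a k) * y k)) with hg
  have hgm : MemLp g q (mu d) := memLp_tp q L _
  have hmF : ∀ (k : Fin d → ℤ) (x : Td d), ‖UnitAddTorus.mFourier k x‖ = 1 := by
    intro k x
    simp [UnitAddTorus.mFourier, norm_prod]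
  have hint : ∀ k ∈ L, Integrable (fun x => a k * conj (y k) *
      (UnitAddTorus.mFourier (-k) x * φ x)) (mu d) := by
    intro k _
    refine Integrable.const_mul ?_ _
    exact hφi.bdd_mul (c := 1)
      (UnitAddTorus.mFourier (-k)).continuous.aestronglyMeasurable
      (Filter.Eventually.of_forall fun x => (hmF (-k) x).le)
  have h2 : ∑ k ∈ L, (a k * cf φ k * conj (y k)).re = (∫ x, conj (g x) * φ x ∂(mu d)).re := by
    rw [← Complex.re_sum]
    congr 1
    have h3 : ∀ k ∈ L, a k * cf φ k * conj (y k) =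
        ∫ x, a k * conj (y k) * (UnitAddTorus.mFourier (-k) x * φ x) ∂(mu d) := by
      intro k _
      rw [integral_const_mul, cf]
      ring
    rw [Finset.sum_congr rfl h3, ← integral_finsetSum L hint]
    congr 1
    funext x
    rw [hg]
    simp only [tp, ContinuousMap.coe_sum, ContinuousMap.coe_smul, Finset.sum_apply, Pi.smul_apply,
      smul_eq_mul, map_sum, map_mul, Complex.conj_conj, Finset.sum_mul]
    refine Finset.sum_congr rfl fun k _ => ?_
    rw [UnitAddTorus.mFourier_neg]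
    ring
  rw [h2]
  refine (Complex.abs_re_le_norm _).trans ?_
  refine (norm_integral_le_integral_norm _).trans ?_
  have h4 : eLpNorm (fun x => conj (g x) * φ x) 1 (mu d) ≤ eLpNorm g q (mu d) := by
    have hcg : AEStronglyMeasurable (fun x => conj (g x)) (mu d) :=
      (Complex.continuous_conj.comp_aestronglyMeasurable hgm.1)
    have h5 := eLpNorm_smul_le_mul_eLpNorm (p := q) (q := p) (r := 1) (μ := mu d) hφ.1 hcg
    have h6 : eLpNorm (fun x => conj (g x)) q (mu d) = eLpNorm g q (mu d) := by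
      apply eLpNorm_congr_norm_ae
      exact Filter.Eventually.of_forall fun x => by simp
    rw [h6] at h5
    have h7 : (fun x => conj (g x)) • φ = fun x => conj (g x) * φ x := by
      funext x
      simp
    rw [h7] at h5
    refine h5.trans ?_
    calc eLpNorm g q (mu d) * eLpNorm φ p (mu d) ≤ eLpNorm g q (mu d) * 1 := by gcongr
      _ = _ := mul_one _
  have h8 : ∫ x, ‖conj (g x) * φ x‖ ∂(mu d) =
      (eLpNorm (fun x => conj (g x) * φ x) 1 (mu d)).toReal := by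
    rw [eLpNorm_one_eq_lintegral_enorm]
    rw [integral_norm_eq_lintegral_enorm]
    exact (Complex.continuous_conj.comp_aestronglyMeasurable hgm.1).mul hφ.1
  rw [h8]
  exact ENNReal.toReal_mono hgm.2.ne h4

theorem norm_cf_le {d : ℕ} (k : Fin d → ℤ) (p : ℝ≥0∞) (hp : 1 ≤ p) (φ : Td d → ℂ)
    (hφ : MemLp φ p (mu d)) (h1 : eLpNorm φ p (mu d) ≤ 1) : ‖cf φ k‖ ≤ 1 := by
  have hφ1 : MemLp φ 1 (mu d) := hφ.mono_exponent hp
  have hmF : ∀ x : Td d, ‖UnitAddTorus.mFourier (-k) x‖ = 1 := by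
    intro x
    simp [UnitAddTorus.mFourier, norm_prod]
  have h2 : eLpNorm φ 1 (mu d) ≤ 1 :=
    (eLpNorm_le_eLpNorm_of_exponent_le hp hφ.1).trans h1
  unfold cf
  refine (norm_integral_le_integral_norm _).trans ?_
  simp only [norm_mul, hmF, one_mul]
  rw [integral_norm_eq_lintegral_enorm hφ.1, ← eLpNorm_one_eq_lintegral_enorm]
  have h3 := ENNReal.toReal_mono ENNReal.one_ne_top h2
  simpa using h3

end MPcd65c1
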