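import Pool.Agent.Lib.MP_cd65c1_an.H2a

/-!
# H2b: iteration of the duality lemma

PROOF of `iterate`. Claim: for all `j : ℕ` and all `e > 0` with `R ^ 2 ≤ 2 ^ j * e ^ 2`:
`Cov ν C (2 ^ j * exp (64 t ^ 2 / e ^ 2)) e`. `j = 0`: `ν x ≤ R ≤ e`, one ball around `0`. Step: let
`R ^ 2 ≤ 2 ^ (j+1) e ^ 2`, `e' = √2 e`; the induction hypothesis for `e'` gives
`Cov ν C (2 ^ j exp (32 t ^ 2 / e ^ 2)) e'`. Apply `duality` with `e / √2` in place of `e`
(`2 (e / √2) = √2 e = e'`, `√2 (e / √2) = e`) and `hq2 (e / (4 √2))`: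
`2 exp (t ^ 2 / (e / (4 √2)) ^ 2) = 2 exp (32 t ^ 2 / e ^ 2)`. The product is `2 ^ (j+1) exp (64 t ^ 2 / e ^ 2)`.
Now for `e ≥ R` use one ball (`exp (..) ≥ 1`). For `e < R` let `j` be minimal with `R ^ 2 ≤ 2 ^ j * e ^ 2`
(`Nat.find`, `j ≥ 1`): `2 ^ (j-1) e ^ 2 < R ^ 2`, so `2 ^ j ≤ 2 R ^ 2 / e ^ 2 ≤ 2 t ^ 2 / e ^ 2 ≤ exp (2 t ^ 2 / e ^ 2)`.
-/

set_option autoImplicit false

namespace MPcd65c1

variable {V : Type*} [AddCommGroup V] [Module ℝ V]

theorem iterate (ip : V → V → ℝ) (ν q : V → ℝ) (hν : Sn ν) (hq : Sn q)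
    (hsub : ∀ x x' y, ip (x - x') y = ip x y - ip x' y) (hdiag : ∀ x, ν x ^ 2 = ip x x)
    (C : Set V) (hC : ∀ x ∈ C, ∀ y, |ip x y| ≤ q y) (R t : ℝ) (ht : 0 < t) (hRt : R ≤ t)
    (hR : ∀ x ∈ C, ν x ≤ R)
    (hq2 : ∀ e : ℝ, 0 < e → Cov q {y | ν y ≤ 1} (2 * Real.exp (t ^ 2 / e ^ 2)) e)
    (e : ℝ) (he : 0 < e) : Cov ν C (Real.exp (66 * t ^ 2 / e ^ 2)) e := by
  have hs2 : (0 : ℝ) < √2 := Real.sqrt_pos.mpr (by norm_num)
  have hs22 : √2 * √2 = 2 := Real.mul_self_sqrt (by norm_num)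
  have claim : ∀ (j : ℕ) (e : ℝ), 0 < e → R ^ 2 ≤ 2 ^ j * e ^ 2 →
      Cov ν C (2 ^ j * Real.exp (64 * t ^ 2 / e ^ 2)) e := by
    intro j
    induction j with
    | zero =>
      intro e he hRe
      refine Cov.one_ball (fun x hx => (hR x hx).trans ?_) ?_
      · by_contra hlt
        push Not at hlt
        nlinarith
      · have : (1 : ℝ) ≤ Real.exp (64 * t ^ 2 / e ^ 2) := Real.one_le_exp (by positivity)
        linarith
    | succ j ih =>
      intro e he hRe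
      have h1 : R ^ 2 ≤ 2 ^ j * (√2 * e) ^ 2 := by
        rw [mul_pow, Real.sq_sqrt (by norm_num)]
        calc R ^ 2 ≤ 2 ^ (j + 1) * e ^ 2 := hRe
          _ = 2 ^ j * (2 * e ^ 2) := by ring
      have h2 := ih (√2 * e) (by positivity) h1
      have h3 : 2 * (e / √2) = √2 * e := by
        field_simp
        nlinarith
      have h4 : √2 * (e / √2) = e := by field_simp
      rw [← h3] at h2
      have h5 := duality ip ν q hν hq hsub hdiag C hC (e / √2) _ _ (by positivity) h2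
        (hq2 (e / √2 / 4) (by positivity))
      rw [h4] at h5
      refine h5.mono_N (le_of_eq ?_)
      have h6 : 64 * t ^ 2 / (2 * (e / √2)) ^ 2 = 32 * t ^ 2 / e ^ 2 := by
        rw [h3, mul_pow, Real.sq_sqrt (by norm_num)]
        field_simp
        norm_num
      have h7 : t ^ 2 / (e / √2 / 4) ^ 2 = 32 * t ^ 2 / e ^ 2 := by
        rw [div_pow, div_pow, Real.sq_sqrt (by norm_num)]
        field_simp
        norm_num
      rw [h6, h7]
      have h8 : Real.exp (64 * t ^ 2 / e ^ 2) =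
          Real.exp (32 * t ^ 2 / e ^ 2) * Real.exp (32 * t ^ 2 / e ^ 2) := by
        rw [← Real.exp_add]
        congr 1
        ring
      rw [h8, pow_succ]
      ring
  rcases le_or_gt R e with hRe | hRe
  · refine Cov.one_ball (fun x hx => (hR x hx).trans hRe) ?_
    exact Real.one_le_exp (by positivity)
  · have hR0 : 0 < R := he.trans hRe
    have hex : ∃ j : ℕ, R ^ 2 ≤ 2 ^ j * e ^ 2 := by
      obtain ⟨j, hj⟩ := pow_unbounded_of_one_lt (R ^ 2 / e ^ 2) (by norm_num : (1 : ℝ) < 2)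
      refine ⟨j, ?_⟩
      rw [div_lt_iff₀ (by positivity)] at hj
      exact hj.le
    classical
    set j := Nat.find hex with hj
    have hj1 : R ^ 2 ≤ 2 ^ j * e ^ 2 := Nat.find_spec hex
    have hjpos : 0 < j := by
      rcases Nat.eq_zero_or_pos j with h0 | h0
      · rw [h0, pow_zero, one_mul] at hj1
        nlinarith
      · exact h0
    have hjm : ¬ R ^ 2 ≤ 2 ^ (j - 1) * e ^ 2 := Nat.find_min hex (by omega)
    push Not at hjm
    have h1 : (2 : ℝ) ^ j = 2 * 2 ^ (j - 1) := by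
      rw [← pow_succ']
      congr 1
      omega
    have h2 : (2 : ℝ) ^ j ≤ 2 * t ^ 2 / e ^ 2 := by
      rw [le_div_iff₀ (by positivity), h1]
      nlinarith
    have h3 : 2 * t ^ 2 / e ^ 2 ≤ Real.exp (2 * t ^ 2 / e ^ 2) := by
      have := Real.add_one_le_exp (2 * t ^ 2 / e ^ 2)
      linarith
    refine (claim j e he hj1).mono_N ?_
    calc (2 : ℝ) ^ j * Real.exp (64 * t ^ 2 / e ^ 2)
        ≤ Real.exp (2 * t ^ 2 / e ^ 2) * Real.exp (64 * t ^ 2 / e ^ 2) :=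
          mul_le_mul_of_nonneg_right (h2.trans h3) (Real.exp_pos _).le
      _ = Real.exp (66 * t ^ 2 / e ^ 2) := by
          rw [← Real.exp_add]
          congr 1
          ring

end MPcd65c1
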