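import Pool.Agent.Lib.MP_cd65c1_an.G6a
import Pool.Agent.Lib.MP_cd65c1_an.H2b

/-!
# G6b: source estimates, general form

PROOF of `src_gen`. `H2.iterate` with `V = CV d`, `ip x y = ∑_{k ∈ L} Re (x k * conj (y k))`, `ν = l2 L`,
`q y = nrm Q (tp L (conj a * y))`, `C = Img L a p`, `R = l2 L a`. For `c ∈ Img L a p`: `c k = a k cf φ k` on `L`, so
`|ip c y| ≤ q y` (`pair_le`), `l2 L c ≤ l2 L a` (`norm_cf_le`). `hdiag`: `(l2 L x) ^ 2 = ∑ ‖x k‖ ^ 2`. Given `k > 0` take
`e = t √(66 / (k log 2))`: `exp (66 t ^ 2 / e ^ 2) = exp (k log 2) = 2 ^ k`, and `√(66 / log 2) ≤ 10`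
(`66 / 0.693 < 96`), so `e ≤ 10 t / √k`.
-/

set_option autoImplicit false

namespace MPcd65c1

open MeasureTheory
open scoped ENNReal ComplexConjugate

theorem src_gen {d : ℕ} (L : Finset (Fin d → ℤ)) (a : CV d) (p Q : ℝ≥0∞)
    (hpQ : ENNReal.HolderConjugate p Q) (t : ℝ) (ht : 0 < t) (hat : l2 L a ≤ t)
    (hcov : ∀ e : ℝ, 0 < e → Cov (fun y : CV d => nrm Q (tp L (fun k => conj (a k) * y k)))
      {y | l2 L y ≤ 1} (2 * Real.exp (t ^ 2 / e ^ 2)) e) (k : ℝ) (hk : 0 < k) :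
    Cov (l2 L) (Img L a p) ((2 : ℝ) ^ k) (10 * t / √k) := by
  classical
  have hp1 : 1 ≤ p := hpQ.one_le
  have hQ1 : 1 ≤ Q := hpQ.symm.one_le
  set ip : CV d → CV d → ℝ := fun x y => ∑ k ∈ L, (x k * conj (y k)).re with hip
  set q : CV d → ℝ := fun y => nrm Q (tp L (fun k => conj (a k) * y k)) with hq
  have hqSn : Sn q := sn_nrm Q hQ1 L (fun k => conj (a k))
  have hsub : ∀ x x' y, ip (x - x') y = ip x y - ip x' y := by
    intro x x' y
    simp only [hip, Pi.sub_apply, sub_mul, Complex.sub_re, Finset.sum_sub_distrib]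
  have hdiag : ∀ x, l2 L x ^ 2 = ip x x := by
    intro x
    rw [l2, Real.sq_sqrt (Finset.sum_nonneg fun k _ => by positivity)]
    simp only [hip]
    refine Finset.sum_congr rfl fun k _ => ?_
    rw [Complex.mul_conj, Complex.ofReal_re, Complex.normSq_eq_norm_sq]
  have hC : ∀ x ∈ Img L a p, ∀ y, |ip x y| ≤ q y := by
    rintro x ⟨φ, hφ, h1, rfl⟩ y
    have h2 := pair_le L a y p Q hpQ φ hφ h1
    have h3 : ip (fun k => if k ∈ L then a k * cf φ k else 0) y =
        ∑ k ∈ L, (a k * cf φ k * conj (y k)).re := by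
      simp only [hip]
      exact Finset.sum_congr rfl fun k hk => by rw [if_pos hk]
    rw [h3]
    exact h2
  have hR : ∀ x ∈ Img L a p, l2 L x ≤ l2 L a := by
    rintro x ⟨φ, hφ, h1, rfl⟩
    apply Real.sqrt_le_sqrt
    refine Finset.sum_le_sum fun k hk => ?_
    simp only [if_pos hk]
    rw [norm_mul]
    have h2 := norm_cf_le k p hp1 φ hφ h1
    have h3 : ‖a k‖ * ‖cf φ k‖ ≤ ‖a k‖ := mul_le_of_le_one_right (norm_nonneg _) h2
    exact pow_le_pow_left₀ (by positivity) h3 2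
  have hlog : (0.6931471803 : ℝ) < Real.log 2 := Real.log_two_gt_d9
  have hlog0 : 0 < Real.log 2 := by linarith
  have hkl : 0 < k * Real.log 2 := by positivity
  set e : ℝ := t * √(66 / (k * Real.log 2)) with he
  have hepos : 0 < e := by
    have : 0 < √(66 / (k * Real.log 2)) := Real.sqrt_pos.mpr (by positivity)
    positivity
  have hmain := iterate ip (l2 L) q (sn_l2 L) hqSn hsub hdiag (Img L a p) hC (l2 L a) t ht hat hR
    hcov e hepos
  refine hmain.mono le_rfl (le_of_eq ?_) ?_ fun _ => le_rfl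
  · rw [Real.rpow_def_of_pos (by norm_num)]
    congr 1
    rw [he, mul_pow, Real.sq_sqrt (by positivity)]
    field_simp
  · rw [he, le_div_iff₀ (Real.sqrt_pos.mpr hk)]
    have h1 : √(66 / (k * Real.log 2)) * √k ≤ 10 := by
      rw [← Real.sqrt_mul (by positivity)]
      have h2 : 66 / (k * Real.log 2) * k = 66 / Real.log 2 := by field_simp
      rw [h2]
      have h3 : 66 / Real.log 2 ≤ 10 ^ 2 := by
        rw [div_le_iff₀ hlog0]
        nlinarith
      calc √(66 / Real.log 2) ≤ √(10 ^ 2) := Real.sqrt_le_sqrt h3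
        _ = 10 := by simp
    calc t * √(66 / (k * Real.log 2)) * √k = t * (√(66 / (k * Real.log 2)) * √k) := by ring
      _ ≤ t * 10 := mul_le_mul_of_nonneg_left h1 ht.le
      _ = 10 * t := by ring

end MPcd65c1
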