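import Pool.Agent.Lib.MP_cd65c1_an.G6b

/-!
# G6c: source estimates (G6)

PROOF of `src_2m`: `src_gen` with `Q = 2m`, `t = √(200 m) l2 L a` and `cov_exp` for `conj a` (`l2 L (conj a) = l2 L a`);
`10 √200 ≤ 142`. If `l2 L a = 0`, then `l2 L c = 0` on `Img`, one ball.
PROOF of `src_1`: `Q = ∞`, `nikolskii` with `m = l + 1`, `t = C √(200 (l+1)) l2 L a`: from `cov_exp` with radius
`e / C`: `Cov (nrm ∞ ..) .. (2 exp (200 (l+1) s ^ 2 C ^ 2 / e ^ 2)) e`.
-/

set_option autoImplicit false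

namespace MPcd65c1

open MeasureTheory
open scoped ENNReal ComplexConjugate

private theorem l2_conj {d : ℕ} (L : Finset (Fin d → ℤ)) (a : CV d) :
    l2 L (fun k => conj (a k)) = l2 L a := by
  unfold l2
  congr 1
  exact Finset.sum_congr rfl fun k _ => by rw [Complex.norm_conj]

private theorem l2_img_zero {d : ℕ} (L : Finset (Fin d → ℤ)) (a : CV d) (h : l2 L a = 0)
    (p : ℝ≥0∞) (N e : ℝ) (hN : 1 ≤ N) (he : 0 ≤ e) : Cov (l2 L) (Img L a p) N e := by
  classical
  refine Cov.one_ball ?_ hN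
  rintro x ⟨φ, -, -, rfl⟩
  have hz : ∀ k ∈ L, a k = 0 := by
    have h1 : ∑ k ∈ L, ‖a k‖ ^ 2 = 0 :=
      (Real.sqrt_eq_zero (Finset.sum_nonneg fun k _ => by positivity)).mp h
    intro k hk
    have h3 := (Finset.sum_eq_zero_iff_of_nonneg (fun k _ => by positivity)).mp h1 k hk
    simpa using h3
  have h4 : l2 L (fun k => if k ∈ L then a k * cf φ k else 0) = 0 := by
    unfold l2
    rw [Finset.sum_eq_zero, Real.sqrt_zero]
    intro k hk
    simp only [if_pos hk, hz k hk, zero_mul, norm_zero]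
    norm_num
  rw [h4]
  exact he

/-- (G6), `p = (2m)'` -/
theorem src_2m {d : ℕ} (L : Finset (Fin d → ℤ)) (a : CV d) (m : ℕ) (hm : 1 ≤ m) (p : ℝ≥0∞)
    (hp : ENNReal.HolderConjugate p (2 * m)) (k : ℝ) (hk : 0 < k) :
    Cov (l2 L) (Img L a p) ((2 : ℝ) ^ k) (142 * √m * l2 L a / √k) := by
  have hs0 : 0 ≤ l2 L a := Real.sqrt_nonneg _
  have hN1 : (1 : ℝ) ≤ (2 : ℝ) ^ k := Real.one_le_rpow (by norm_num) hk.le
  rcases eq_or_lt_of_le hs0 with h0 | hpos
  · exact l2_img_zero L a h0.symm p _ _ hN1 (by positivity)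
  · have hm1 : (1 : ℝ) ≤ m := by exact_mod_cast hm
    have hroot : (1 : ℝ) ≤ √(200 * m) := by
      rw [show (1 : ℝ) = √1 by simp]
      exact Real.sqrt_le_sqrt (by linarith)
    have ht : 0 < √(200 * m) * l2 L a := by positivity
    have h1 := src_gen L a p (2 * m) hp (√(200 * m) * l2 L a) ht
      (le_mul_of_one_le_left hs0 hroot) (fun e he => by
        have h2 := cov_exp L (fun k => conj (a k)) m hm e he
        rw [l2_conj] at h2
        have h3 : (√(200 * (m : ℝ)) * l2 L a) ^ 2 / e ^ 2 = 200 * m * l2 L a ^ 2 / e ^ 2 := by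
          rw [mul_pow, Real.sq_sqrt (by positivity)]
        rw [h3]
        exact h2) k hk
    refine h1.mono_e ?_
    apply div_le_div_of_nonneg_right _ (Real.sqrt_nonneg _)
    rw [Real.sqrt_mul (by norm_num)]
    have h4 : √200 ≤ 14.2 := by
      rw [Real.sqrt_le_left (by norm_num)]
      norm_num
    have h5 : 0 ≤ √(m : ℝ) * l2 L a := by positivity
    calc 10 * (√200 * √m * l2 L a) = (10 * √200) * (√m * l2 L a) := by ring
      _ ≤ 142 * (√m * l2 L a) := mul_le_mul_of_nonneg_right (by linarith) h5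
      _ = 142 * √m * l2 L a := by ring

/-- (G6), `p = 1` -/
theorem src_1 (d A : ℕ) : ∃ C : ℝ, 0 < C ∧ ∀ (l : ℕ) (L : Finset (Fin d → ℤ)),
    (∀ k ∈ L, ∀ j, |k j| ≤ 2 ^ (A * (l + 1))) → ∀ (a : CV d) (k : ℝ), 0 < k →
    Cov (l2 L) (Img L a 1) ((2 : ℝ) ^ k) (C * √((l : ℝ) + 1) * l2 L a / √k) := by
  obtain ⟨C, hC, hN⟩ := nikolskii d A
  refine ⟨142 * (C + 1), by positivity, fun l L hL a k hk => ?_⟩
  have hs0 : 0 ≤ l2 L a := Real.sqrt_nonneg _
  have hN1 : (1 : ℝ) ≤ (2 : ℝ) ^ k := Real.one_le_rpow (by norm_num) hk.le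
  have hl0 : (0 : ℝ) ≤ l := Nat.cast_nonneg l
  rcases eq_or_lt_of_le hs0 with h0 | hpos
  · exact l2_img_zero L a h0.symm 1 _ _ hN1 (by positivity)
  · have hroot : (1 : ℝ) ≤ √(200 * ((l : ℝ) + 1)) := by
      rw [Real.one_le_sqrt]
      linarith
    have hroot' : 1 ≤ (C + 1) * √(200 * ((l : ℝ) + 1)) := by nlinarith
    have ht : 0 < (C + 1) * √(200 * ((l : ℝ) + 1)) * l2 L a := by positivity
    have h1 := src_gen L a 1 ∞ inferInstance ((C + 1) * √(200 * ((l : ℝ) + 1)) * l2 L a) ht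
      (le_mul_of_one_le_left hs0 hroot') (fun e he => by
        have hC1 : 0 < C + 1 := by positivity
        have h2 := cov_exp L (fun k => conj (a k)) (l + 1) (by omega) (e / (C + 1))
          (by positivity)
        rw [l2_conj] at h2
        have h3 : ((C + 1) * √(200 * ((l : ℝ) + 1)) * l2 L a) ^ 2 / e ^ 2 =
            200 * ((l + 1 : ℕ) : ℝ) * l2 L a ^ 2 / (e / (C + 1)) ^ 2 := by
          rw [mul_pow, mul_pow, Real.sq_sqrt (by positivity)]
          push_cast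
          field_simp
        rw [h3]
        have h4 : Cov (fun c : CV d => (C + 1) *
            nrm (2 * ((l + 1 : ℕ) : ℝ≥0∞)) (tp L (fun k => conj (a k) * c k))) {c | l2 L c ≤ 1}
            (2 * Real.exp (200 * ((l + 1 : ℕ) : ℝ) * l2 L a ^ 2 / (e / (C + 1)) ^ 2)) e := by
          obtain ⟨Y, hY, hc⟩ := h2
          refine ⟨Y, hY, fun c hc' => ?_⟩
          obtain ⟨y, hy, h5⟩ := hc c hc'
          refine ⟨y, hy, ?_⟩
          have h6 := mul_le_mul_of_nonneg_left h5 hC1.le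
          rwa [mul_div_cancel₀ _ hC1.ne'] at h6
        refine h4.mono le_rfl le_rfl le_rfl fun c => ?_
        refine (hN l (l + 1) le_rfl L hL _).trans ?_
        exact mul_le_mul_of_nonneg_right (by linarith) ENNReal.toReal_nonneg) k hk
    refine h1.mono_e ?_
    apply div_le_div_of_nonneg_right _ (Real.sqrt_nonneg _)
    rw [Real.sqrt_mul (by norm_num)]
    have h4 : √200 ≤ 14.2 := by
      rw [Real.sqrt_le_left (by norm_num)]
      norm_num
    have h5 : 0 ≤ (C + 1) * (√((l : ℝ) + 1) * l2 L a) := by positivity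
    calc 10 * ((C + 1) * (√200 * √((l : ℝ) + 1)) * l2 L a)
        = (10 * √200) * ((C + 1) * (√((l : ℝ) + 1) * l2 L a)) := by ring
      _ ≤ 142 * ((C + 1) * (√((l : ℝ) + 1) * l2 L a)) :=
        mul_le_mul_of_nonneg_right (by linarith) h5
      _ = 142 * (C + 1) * √((l : ℝ) + 1) * l2 L a := by ring

end MPcd65c1
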