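import Pool.Agent.Lib.MP_cd65c1_an.Defs

/-!
# H1: entropy calculus, basic rules (MP_cd65c1_an, section 1 of the paper)

`Sn ν` : `ν` is a seminorm on the real vector space `V`. Rules (H1)-(H5), (H9), images.
-/

set_option autoImplicit false

namespace MPcd65c1

open scoped ENNReal

/-- `ν` is a seminorm on the real vector space `V` -/
structure Sn {V : Type*} [AddCommGroup V] [Module ℝ V] (ν : V → ℝ) : Prop where
  add : ∀ x y, ν (x + y) ≤ ν x + ν y
  smul : ∀ (t : ℝ) (x : V), ν (t • x) = |t| * ν x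

namespace Sn

variable {V : Type*} [AddCommGroup V] [Module ℝ V] {ν : V → ℝ}

theorem zero (h : Sn ν) : ν 0 = 0 := by
  have := h.smul 0 0
  simpa using this

theorem neg (h : Sn ν) (x : V) : ν (-x) = ν x := by
  have := h.smul (-1) x
  simpa using this

theorem nonneg (h : Sn ν) (x : V) : 0 ≤ ν x := by
  have h1 := h.add x (-x)
  rw [h.neg, add_neg_cancel, h.zero] at h1
  linarith

theorem sub_comm (h : Sn ν) (x y : V) : ν (x - y) = ν (y - x) := by
  rw [← h.neg (x - y), neg_sub]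

theorem sub_le (h : Sn ν) (x y : V) : ν (x - y) ≤ ν x + ν y := by
  have := h.add x (-y)
  rwa [h.neg, ← sub_eq_add_neg] at this

theorem sub_le' (h : Sn ν) (x y z : V) : ν (x - z) ≤ ν (x - y) + ν (y - z) := by
  have := h.add (x - y) (y - z)
  rwa [sub_add_sub_cancel] at this

/-- `c ↦ ν (T c)` for a linear map -/
theorem comp {W : Type*} [AddCommGroup W] [Module ℝ W] (h : Sn ν) (T : W →ₗ[ℝ] V) :
    Sn (fun w => ν (T w)) where
  add x y := by simpa using h.add (T x) (T y)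
  smul t x := by simpa using h.smul t (T x)

end Sn

namespace Cov

variable {V : Type*} [AddCommGroup V] {ν ν' : V → ℝ} {A B : Set V} {N N' N1 N2 e e' e1 e2 : ℝ}

/-- (H1) -/
theorem mono (h : Cov ν A N e) (hA : B ⊆ A) (hN : N ≤ N') (he : e ≤ e')
    (hν : ∀ v, ν' v ≤ ν v) : Cov ν' B N' e' := by
  obtain ⟨Y, hY, hc⟩ := h
  refine ⟨Y, hY.trans hN, fun a ha => ?_⟩
  obtain ⟨y, hy, h1⟩ := hc a (hA ha)
  exact ⟨y, hy, ((hν _).trans h1).trans he⟩

theorem mono_N (h : Cov ν A N e) (hN : N ≤ N') : Cov ν A N' e :=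
  h.mono le_rfl hN le_rfl fun _ => le_rfl

theorem mono_e (h : Cov ν A N e) (he : e ≤ e') : Cov ν A N e' :=
  h.mono le_rfl le_rfl he fun _ => le_rfl

theorem mono_A (h : Cov ν A N e) (hA : B ⊆ A) : Cov ν B N e :=
  h.mono hA le_rfl le_rfl fun _ => le_rfl

theorem N_nonneg (h : Cov ν A N e) : 0 ≤ N := by
  obtain ⟨Y, hY, -⟩ := h
  exact (Nat.cast_nonneg _).trans hY

/-- if `A` is not empty then `N ≥ 1` -/
theorem one_le (h : Cov ν A N e) (hA : A.Nonempty) : 1 ≤ N := by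
  obtain ⟨Y, hY, hc⟩ := h
  obtain ⟨a, ha⟩ := hA
  obtain ⟨y, hy, -⟩ := hc a ha
  have h1 : 1 ≤ Y.card := Finset.card_pos.mpr ⟨y, hy⟩
  have h2 : (1 : ℝ) ≤ Y.card := by exact_mod_cast h1
  exact h2.trans hY

/-- one ball around `0` -/
theorem one_ball (hA : ∀ a ∈ A, ν a ≤ e) (hN : 1 ≤ N) : Cov ν A N e :=
  ⟨{0}, by simpa using hN, fun a ha => ⟨0, by simp, by simpa using hA a ha⟩⟩

/-- the image of a covered set under a map which does not increase distances -/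
theorem image {W : Type*} [AddCommGroup W] {ω : W → ℝ} (h : Cov ν A N e) (T : V → W)
    (hT : ∀ v w, ω (T v - T w) ≤ ν (v - w)) : Cov ω (T '' A) N e := by
  classical
  obtain ⟨Y, hY, hc⟩ := h
  refine ⟨Y.image T, (Nat.cast_le.mpr Finset.card_image_le).trans hY, ?_⟩
  rintro _ ⟨a, ha, rfl⟩
  obtain ⟨y, hy, h1⟩ := hc a ha
  exact ⟨T y, Finset.mem_image_of_mem T hy, (hT _ _).trans h1⟩

/-- the preimage of a covered set under a surjective map which preserves distances -/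
theorem preimage {W : Type*} [AddCommGroup W] {ω : W → ℝ} (h : Cov ν A N e) (T : W → V)
    (hT : ∀ v w, ω (v - w) ≤ ν (T v - T w)) (hs : Function.Surjective T) :
    Cov ω (T ⁻¹' A) N e := by
  classical
  obtain ⟨Y, hY, hc⟩ := h
  obtain ⟨S, hS⟩ := hs.hasRightInverse
  refine ⟨Y.image S, (Nat.cast_le.mpr Finset.card_image_le).trans hY, ?_⟩
  intro a ha
  obtain ⟨y, hy, h1⟩ := hc (T a) ha
  refine ⟨S y, Finset.mem_image_of_mem S hy, (hT _ _).trans ?_⟩
  rwa [hS y]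

variable [Module ℝ V]

/-- (H2) sums -/
theorem add (hν : Sn ν) (h1 : Cov ν A N1 e1) (h2 : Cov ν B N2 e2) :
    Cov ν {v | ∃ a ∈ A, ∃ b ∈ B, v = a + b} (N1 * N2) (e1 + e2) := by
  classical
  obtain ⟨Y, hY, hc⟩ := h1
  obtain ⟨Z, hZ, hd⟩ := h2
  refine ⟨(Y ×ˢ Z).image (fun p => p.1 + p.2), ?_, ?_⟩
  · refine (Nat.cast_le.mpr Finset.card_image_le).trans ?_
    rw [Finset.card_product]
    push_cast
    exact mul_le_mul hY hZ (Nat.cast_nonneg _) ((Nat.cast_nonneg _).trans hY)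
  · rintro _ ⟨a, ha, b, hb, rfl⟩
    obtain ⟨y, hy, h3⟩ := hc a ha
    obtain ⟨z, hz, h4⟩ := hd b hb
    refine ⟨y + z, Finset.mem_image.mpr ⟨(y, z), by simp [hy, hz], rfl⟩, ?_⟩
    have := hν.add (a - y) (b - z)
    have h5 : a + b - (y + z) = a - y + (b - z) := by abel
    rw [h5]
    linarith

/-- scaling -/
theorem smul (hν : Sn ν) (h : Cov ν A N e) (t : ℝ) :
    Cov ν {v | ∃ a ∈ A, v = t • a} N (|t| * e) := by
  classical
  obtain ⟨Y, hY, hc⟩ := h
  refine ⟨Y.image (fun y => t • y), (Nat.cast_le.mpr Finset.card_image_le).trans hY, ?_⟩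
  rintro _ ⟨a, ha, rfl⟩
  obtain ⟨y, hy, h1⟩ := hc a ha
  refine ⟨t • y, Finset.mem_image_of_mem _ hy, ?_⟩
  rw [← smul_sub, hν.smul]
  exact mul_le_mul_of_nonneg_left h1 (abs_nonneg _)

/-- (H3) composition -/
theorem compose (hν : Sn ν) (hν' : Sn ν') (he1 : 0 < e1) (h1 : Cov ν A N1 e1)
    (h2 : Cov ν' {v | ν v ≤ 1} N2 e2) : Cov ν' A (N1 * N2) (e1 * e2) := by
  classical
  obtain ⟨Y, hY, hc⟩ := h1
  obtain ⟨Z, hZ, hd⟩ := h2
  refine ⟨(Y ×ˢ Z).image (fun p => p.1 + e1 • p.2), ?_, ?_⟩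
  · refine (Nat.cast_le.mpr Finset.card_image_le).trans ?_
    rw [Finset.card_product]
    push_cast
    exact mul_le_mul hY hZ (Nat.cast_nonneg _) ((Nat.cast_nonneg _).trans hY)
  · intro a ha
    obtain ⟨y, hy, h3⟩ := hc a ha
    have h4 : ν (e1⁻¹ • (a - y)) ≤ 1 := by
      rw [hν.smul, abs_of_pos (inv_pos.mpr he1)]
      rw [inv_mul_le_iff₀ he1]
      linarith
    obtain ⟨z, hz, h5⟩ := hd _ h4
    refine ⟨y + e1 • z, Finset.mem_image.mpr ⟨(y, z), by simp [hy, hz], rfl⟩, ?_⟩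
    have h6 : a - (y + e1 • z) = e1 • (e1⁻¹ • (a - y) - z) := by
      rw [smul_sub, smul_smul, mul_inv_cancel₀ he1.ne', one_smul]
      abel
    rw [h6, hν'.smul, abs_of_pos he1]
    exact mul_le_mul_of_nonneg_left h5 he1.le

/-- choose the centres in `A`: two points of a cell differ by at most `2 e` -/
theorem cells (hν : Sn ν) (hν' : Sn ν') (h1 : Cov ν A N1 e1) (h2 : Cov ν' A N2 e2) :
    ∃ Y : Finset V, (Y.card : ℝ) ≤ N1 * N2 ∧ (∀ y ∈ Y, y ∈ A) ∧
      ∀ a ∈ A, ∃ y ∈ Y, ν (a - y) ≤ 2 * e1 ∧ ν' (a - y) ≤ 2 * e2 := by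
  classical
  obtain ⟨Y, hY, hc⟩ := h1
  obtain ⟨Z, hZ, hd⟩ := h2
  let P : V × V → Prop := fun p => ∃ a ∈ A, ν (a - p.1) ≤ e1 ∧ ν' (a - p.2) ≤ e2
  let f : V × V → V := fun p => if h : P p then h.choose else 0
  refine ⟨((Y ×ˢ Z).filter P).image f, ?_, ?_, ?_⟩
  · refine (Nat.cast_le.mpr (Finset.card_image_le.trans (Finset.card_filter_le _ _))).trans ?_
    rw [Finset.card_product]
    push_cast
    exact mul_le_mul hY hZ (Nat.cast_nonneg _) ((Nat.cast_nonneg _).trans hY)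
  · intro y hy
    obtain ⟨p, hp, rfl⟩ := Finset.mem_image.mp hy
    have hP : P p := (Finset.mem_filter.mp hp).2
    simp only [f, dif_pos hP]
    exact hP.choose_spec.1
  · intro a ha
    obtain ⟨y, hy, h3⟩ := hc a ha
    obtain ⟨z, hz, h4⟩ := hd a ha
    have hP : P (y, z) := ⟨a, ha, h3, h4⟩
    refine ⟨f (y, z), Finset.mem_image.mpr ⟨(y, z),
      Finset.mem_filter.mpr ⟨Finset.mk_mem_product hy hz, hP⟩, rfl⟩, ?_⟩
    simp only [f, dif_pos hP]
    obtain ⟨-, h5, h6⟩ := hP.choose_spec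
    constructor
    · have := hν.sub_le' a y hP.choose
      rw [hν.sub_comm y] at this
      simp only at h5
      linarith
    · have := hν'.sub_le' a z hP.choose
      rw [hν'.sub_comm z] at this
      simp only at h6
      linarith

/-- (H4) interpolation of the target -/
theorem interp {ν'' : V → ℝ} {θ : ℝ} (hν : Sn ν) (hν' : Sn ν') (hθ0 : 0 ≤ θ) (hθ1 : θ ≤ 1)
    (hi : ∀ v, ν'' v ≤ ν v ^ (1 - θ) * ν' v ^ θ) (he1 : 0 ≤ e1) (he2 : 0 ≤ e2)
    (h1 : Cov ν A N1 e1) (h2 : Cov ν' A N2 e2) :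
    Cov ν'' A (N1 * N2) (2 * (e1 ^ (1 - θ) * e2 ^ θ)) := by
  obtain ⟨Y, hY, -, hc⟩ := cells hν hν' h1 h2
  refine ⟨Y, hY, fun a ha => ?_⟩
  obtain ⟨y, hy, h3, h4⟩ := hc a ha
  refine ⟨y, hy, (hi _).trans ?_⟩
  have h5 : ν (a - y) ^ (1 - θ) ≤ (2 * e1) ^ (1 - θ) :=
    Real.rpow_le_rpow (hν.nonneg _) h3 (by linarith)
  have h6 : ν' (a - y) ^ θ ≤ (2 * e2) ^ θ := Real.rpow_le_rpow (hν'.nonneg _) h4 hθ0
  calc ν (a - y) ^ (1 - θ) * ν' (a - y) ^ θ ≤ (2 * e1) ^ (1 - θ) * (2 * e2) ^ θ :=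
        mul_le_mul h5 h6 (Real.rpow_nonneg (hν'.nonneg _) _) (by positivity)
    _ = (2 ^ (1 - θ) * 2 ^ θ) * (e1 ^ (1 - θ) * e2 ^ θ) := by
        rw [Real.mul_rpow (by norm_num) he1, Real.mul_rpow (by norm_num) he2]
        ring
    _ = _ := by
        rw [← Real.rpow_add (by norm_num)]
        norm_num

/-- (H5) truncation of the source -/
theorem trunc {B1 B2 : Set V} {s1 s2 : ℝ} (hν : Sn ν) (hs1 : 0 ≤ s1) (hs2 : 0 ≤ s2)
    (hA : ∀ a ∈ A, ∃ b1 ∈ B1, ∃ b2 ∈ B2, a = s1 • b1 + s2 • b2) (h1 : Cov ν B1 N1 e1)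
    (h2 : Cov ν B2 N2 e2) : Cov ν A (N1 * N2) (s1 * e1 + s2 * e2) := by
  have h3 := (h1.smul hν s1).add hν (h2.smul hν s2)
  rw [abs_of_nonneg hs1, abs_of_nonneg hs2] at h3
  refine h3.mono_A ?_
  intro a ha
  obtain ⟨b1, hb1, b2, hb2, rfl⟩ := hA a ha
  exact ⟨_, ⟨b1, hb1, rfl⟩, _, ⟨b2, hb2, rfl⟩, rfl⟩

/-- (H9) maximal separated sets -/
theorem of_separated (hν : Sn ν) (he : 0 ≤ e)
    (h : ∀ S : Finset V, (∀ x ∈ S, x ∈ A) → (∀ x ∈ S, ∀ y ∈ S, x ≠ y → e < ν (x - y)) →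
      (S.card : ℝ) ≤ N) : Cov ν A N e := by
  classical
  by_contra hcon
  have key : ∀ m : ℕ, ∃ S : Finset V, S.card = m ∧ (∀ x ∈ S, x ∈ A) ∧
      ∀ x ∈ S, ∀ y ∈ S, x ≠ y → e < ν (x - y) := by
    intro m
    induction m with
    | zero => exact ⟨∅, by simp, by simp, by simp⟩
    | succ m ih =>
      obtain ⟨S, hS, h1, h2⟩ := ih
      by_contra hn
      apply hcon
      refine ⟨S, h S h1 h2, fun a ha => ?_⟩
      by_contra hna
      push Not at hna
      have haS : a ∉ S := by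
        intro haS
        have := hna a haS
        rw [sub_self, hν.zero] at this
        linarith
      apply hn
      refine ⟨insert a S, by rw [Finset.card_insert_of_notMem haS, hS], ?_, ?_⟩
      · intro x hx
        rcases Finset.mem_insert.mp hx with rfl | hx
        · exact ha
        · exact h1 x hx
      · intro x hx y hy hxy
        rcases Finset.mem_insert.mp hx with hx' | hx' <;>
          rcases Finset.mem_insert.mp hy with hy' | hy'
        · exact absurd (hx'.trans hy'.symm) hxy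
        · rw [hx']
          exact hna y hy'
        · rw [hν.sub_comm, hy']
          exact hna x hx'
        · exact h2 x hx' y hy' hxy
  obtain ⟨m, hm⟩ := exists_nat_gt N
  obtain ⟨S, hS, h1, h2⟩ := key m
  have := h S h1 h2
  rw [hS] at this
  linarith

/-- (H8) a separated set gives a lower bound -/
theorem card_le_of_separated (hν : Sn ν) (h : Cov ν A N e) (S : Finset V)
    (hS : ∀ x ∈ S, x ∈ A) (hsep : ∀ x ∈ S, ∀ y ∈ S, x ≠ y → 2 * e < ν (x - y)) :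
    (S.card : ℝ) ≤ N := by
  classical
  obtain ⟨Y, hY, hc⟩ := h
  refine le_trans ?_ hY
  have h1 : ∀ x ∈ S, ∃ y ∈ Y, ν (x - y) ≤ e := fun x hx => hc x (hS x hx)
  choose! f hf hfe using h1
  exact_mod_cast Finset.card_le_card_of_injOn f hf (by
    intro x hx y hy hxy
    by_contra hne
    have h2 := hsep x hx y hy hne
    have h3 := hν.sub_le' x (f x) y
    have h4 := hfe x hx
    have h5 := hfe y hy
    rw [← hxy, hν.sub_comm] at h5
    linarith)

end Cov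

end MPcd65c1
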