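import Pool.Agent.Lib.MP_cd65c1_an.H1

/-!
# H2a: the duality lemma (H6)

`ip` is a bilinear form (only additivity in the first variable is used), `ν x ^ 2 = ip x x`, `q` a seminorm with
`|ip x y| ≤ q y` for all `x ∈ C` and all `y`.

PROOF of `duality`. From `h1` and `h2` (scaled by `2 e`: `Cov.smul` with `t = 2 e`; note that
`{v | ν v ≤ 2 e}` is the set of all `(2 e) • v'` with `ν v' ≤ 1`) we get finite sets `Y`, `Z` such that for every
`x ∈ C` there are `y ∈ Y`, `z ∈ Z` with `ν (x - y) ≤ 2 e` and `q ((x - y) - (2 e) • z) ≤ 2 e * (e / 4) = e ^ 2 / 2`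
(as in `Cov.compose`). This says `Cov q C (N1 * N2) (e ^ 2 / 2)` (indeed it is exactly
`Cov.compose hν hq (2 e > 0) h1 h2`). Now choose the centres in `C` (`Cov.cells` with `ν := q` and, say,
`ν' := q`, would square the number; so redo the argument for one seminorm: this is `cells1` below): there is a finite
set `Y' ⊆ C` with at most `N1 * N2` elements such that each `x ∈ C` has a `y ∈ Y'` with `q (x - y) ≤ e ^ 2`. Then
`ν (x - y) ^ 2 = ip (x - y) (x - y) = ip x (x - y) - ip y (x - y) ≤ 2 q (x - y) ≤ 2 e ^ 2`, so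
`ν (x - y) ≤ √2 e`.
-/

set_option autoImplicit false

namespace MPcd65c1

variable {V : Type*} [AddCommGroup V] [Module ℝ V]

/-- choose the centres in `A` (one seminorm; same proof as `Cov.cells`) -/
theorem Cov.cells1 {ν : V → ℝ} (hν : Sn ν) {A : Set V} {N e : ℝ} (h : Cov ν A N e) :
    ∃ Y : Finset V, (Y.card : ℝ) ≤ N ∧ (∀ y ∈ Y, y ∈ A) ∧ ∀ a ∈ A, ∃ y ∈ Y, ν (a - y) ≤ 2 * e := by
  classical
  obtain ⟨Y, hY, hc⟩ := h
  let P : V → Prop := fun p => ∃ a ∈ A, ν (a - p) ≤ e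
  let f : V → V := fun p => if h : P p then h.choose else 0
  refine ⟨(Y.filter P).image f, ?_, ?_, ?_⟩
  · exact (Nat.cast_le.mpr (Finset.card_image_le.trans (Finset.card_filter_le _ _))).trans hY
  · intro y hy
    obtain ⟨p, hp, rfl⟩ := Finset.mem_image.mp hy
    have hP : P p := (Finset.mem_filter.mp hp).2
    simp only [f, dif_pos hP]
    exact hP.choose_spec.1
  · intro a ha
    obtain ⟨y, hy, h3⟩ := hc a ha
    have hP : P y := ⟨a, ha, h3⟩
    refine ⟨f y, Finset.mem_image.mpr ⟨y, Finset.mem_filter.mpr ⟨hy, hP⟩, rfl⟩, ?_⟩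
    simp only [f, dif_pos hP]
    obtain ⟨-, h5⟩ := hP.choose_spec
    have := hν.sub_le' a y hP.choose
    rw [hν.sub_comm y] at this
    linarith

theorem duality (ip : V → V → ℝ) (ν q : V → ℝ) (hν : Sn ν) (hq : Sn q)
    (hsub : ∀ x x' y, ip (x - x') y = ip x y - ip x' y) (hdiag : ∀ x, ν x ^ 2 = ip x x)
    (C : Set V) (hC : ∀ x ∈ C, ∀ y, |ip x y| ≤ q y) (e N1 N2 : ℝ) (he : 0 < e)
    (h1 : Cov ν C N1 (2 * e)) (h2 : Cov q {y | ν y ≤ 1} N2 (e / 4)) :
    Cov ν C (N1 * N2) (√2 * e) := by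
  have h3 := Cov.compose hν hq (by positivity : 0 < 2 * e) h1 h2
  obtain ⟨Y, hY, hYC, hc⟩ := Cov.cells1 hq h3
  refine ⟨Y, hY, fun x hx => ?_⟩
  obtain ⟨y, hy, h4⟩ := hc x hx
  refine ⟨y, hy, ?_⟩
  have h5 : ν (x - y) ^ 2 ≤ 2 * e ^ 2 := by
    have h6 := le_of_abs_le (hC x hx (x - y))
    have h7 := neg_le_of_abs_le (hC y (hYC y hy) (x - y))
    have h8 : ip (x - y) (x - y) = ip x (x - y) - ip y (x - y) := hsub x y (x - y)
    rw [hdiag, h8]
    nlinarith
  have h9 : √2 ^ 2 = 2 := Real.sq_sqrt (by norm_num)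
  have h10 : ν (x - y) ^ 2 ≤ (√2 * e) ^ 2 := by
    rw [mul_pow, h9]
    exact h5
  exact (abs_le_of_sq_le_sq' h10 (by positivity)).2

end MPcd65c1
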