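import Pool.Agent.Lib.MP_cd65c1_an.H3a

/-!
# H3b: volumetric covering of the l2 ball (H7)

PROOF of `vol_pow`: induction on `j` with `Cov.compose` (`ν = ν' = l2 L`, `e1 = 2 ^ (-j)`), start `j = 0`: one ball.

PROOF of `vol`. Let `D = 2 * L.card`. If `L.card = 0` then `l2 L = 0` and one ball works. Otherwise let `x = k / L.card`
and `j = ⌊x / 5⌋₊` (natural). Then `5 ^ (D j) = 2 ^ (D j log2 5) ≤ 2 ^ (2 * L.card * j * 2.33) ≤ 2 ^ k` (as
`5 ^ 2 = 25 ≤ 32 = 2 ^ 5`: `5 ^ (2 L.card j) ≤ 2 ^ (5 L.card j)` and `5 L.card j ≤ L.card x = k`), and the radius is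
`2 ^ (-j) ≤ 2 * 2 ^ (-(x/5))`. It remains to see that `2 * 2 ^ (-(x/5)) ≤ C * (1/x) ^ g` for all `x > 0`, i.e. that
`x ^ g * 2 ^ (-(x/5))` is bounded: with `n = ⌈g⌉₊`, `x ^ g ≤ 1 + x ^ n`, and `y ^ n ≤ n! exp y` for `y ≥ 0`
(`Real.pow_div_factorial_le_exp`) with `y = x log 2 / 5`; so `C = 2 (1 + n! (5 / log 2) ^ n)` works.
-/

set_option autoImplicit false

namespace MPcd65c1

theorem vol_pow {d : ℕ} (L : Finset (Fin d → ℤ)) (j : ℕ) :
    Cov (l2 L) {c : CV d | l2 L c ≤ 1} ((5 : ℝ) ^ (2 * L.card * j)) ((1 / 2) ^ j) := by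
  induction j with
  | zero =>
    refine Cov.one_ball (fun c hc => ?_) (by simp)
    simpa using hc
  | succ j ih =>
    have h1 := Cov.compose (sn_l2 L) (sn_l2 L) (by positivity) ih (vol_half L)
    rw [← pow_add, ← pow_succ] at h1
    exact h1

/-- (H7) -/
theorem vol (g : ℝ) (hg : 0 ≤ g) : ∃ C : ℝ, 0 < C ∧ ∀ (d : ℕ) (L : Finset (Fin d → ℤ)) (k : ℝ),
    0 < k → Cov (l2 L) {c : CV d | l2 L c ≤ 1} ((2 : ℝ) ^ k) (C * ((L.card : ℝ) / k) ^ g) := by
  set n : ℕ := ⌈g⌉₊ with hn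
  have hlog : (0.6931471803 : ℝ) < Real.log 2 := Real.log_two_gt_d9
  have hlog0 : 0 < Real.log 2 := by linarith
  set C : ℝ := 2 * (1 + n.factorial * (5 / Real.log 2) ^ n) with hC
  have hC0 : 0 < C := by positivity
  have hnum : ∀ x : ℝ, 0 < x → ((1 : ℝ) / 2) ^ ⌊x / 5⌋₊ * x ^ g ≤ C := by
    intro x hx
    set y : ℝ := x * Real.log 2 / 5 with hy
    have hy0 : 0 < y := by positivity
    have h1 : ((1 : ℝ) / 2) ^ ⌊x / 5⌋₊ ≤ 2 * Real.exp (-y) := by
      have h2 : x / 5 - 1 < (⌊x / 5⌋₊ : ℝ) := by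
        have := Nat.lt_floor_add_one (x / 5)
        linarith
      have h3 : ((1 : ℝ) / 2) ^ ⌊x / 5⌋₊ = Real.exp (-((⌊x / 5⌋₊ : ℝ) * Real.log 2)) := by
        rw [one_div, inv_pow, Real.exp_neg, mul_comm, Real.exp_mul, Real.exp_log (by norm_num),
          Real.rpow_natCast]
      have h4 : 2 * Real.exp (-y) = Real.exp (Real.log 2 - y) := by
        rw [sub_eq_add_neg, Real.exp_add, Real.exp_log (by norm_num)]
      rw [h3, h4]
      apply Real.exp_le_exp.mpr
      rw [hy]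
      nlinarith
    have h5 : x ^ g ≤ 1 + x ^ n := by
      rcases le_or_gt x 1 with hx1 | hx1
      · have : x ^ g ≤ 1 := Real.rpow_le_one hx.le hx1 hg
        have : 0 ≤ x ^ n := by positivity
        linarith
      · have h6 : x ^ g ≤ x ^ (n : ℝ) :=
          Real.rpow_le_rpow_of_exponent_le hx1.le (Nat.le_ceil g)
        rw [Real.rpow_natCast] at h6
        linarith
    have h7 : x ^ n * Real.exp (-y) ≤ n.factorial * (5 / Real.log 2) ^ n := by
      have h8 : x = (5 / Real.log 2) * y := by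
        rw [hy]
        field_simp
      have h9 := Real.pow_div_factorial_le_exp y hy0.le n
      rw [div_le_iff₀ (by positivity)] at h9
      have h10 : Real.exp y * Real.exp (-y) = 1 := by rw [← Real.exp_add]; simp
      have h11 : 0 < Real.exp (-y) := Real.exp_pos _
      calc x ^ n * Real.exp (-y) = (5 / Real.log 2) ^ n * (y ^ n * Real.exp (-y)) := by
            rw [h8, mul_pow]
            ring
        _ ≤ (5 / Real.log 2) ^ n * ((Real.exp y * n.factorial) * Real.exp (-y)) := by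
            apply mul_le_mul_of_nonneg_left _ (by positivity)
            exact mul_le_mul_of_nonneg_right h9 h11.le
        _ = n.factorial * (5 / Real.log 2) ^ n * (Real.exp y * Real.exp (-y)) := by ring
        _ = _ := by rw [h10, mul_one]
    have h12 : Real.exp (-y) ≤ 1 := Real.exp_le_one_iff.mpr (by linarith)
    calc ((1 : ℝ) / 2) ^ ⌊x / 5⌋₊ * x ^ g ≤ (2 * Real.exp (-y)) * (1 + x ^ n) :=
          mul_le_mul h1 h5 (by positivity) (by positivity)
      _ = 2 * (Real.exp (-y) + x ^ n * Real.exp (-y)) := by ring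
      _ ≤ C := by
          rw [hC]
          linarith
  refine ⟨C, hC0, fun d L k hk => ?_⟩
  have hN1 : (1 : ℝ) ≤ (2 : ℝ) ^ k := Real.one_le_rpow (by norm_num) hk.le
  rcases Nat.eq_zero_or_pos L.card with h0 | hpos
  · refine Cov.one_ball (fun c _ => ?_) hN1
    have hL : L = ∅ := Finset.card_eq_zero.mp h0
    have h1 : l2 L c = 0 := by
      rw [hL]
      simp [l2]
    rw [h1]
    positivity
  · have hL0 : (0 : ℝ) < L.card := by exact_mod_cast hpos
    set x : ℝ := k / L.card with hx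
    have hx0 : 0 < x := by positivity
    refine (vol_pow L ⌊x / 5⌋₊).mono le_rfl ?_ ?_ fun _ => le_rfl
    · have h1 : ((5 : ℝ)) ^ (2 * L.card * ⌊x / 5⌋₊) ≤ (2 : ℝ) ^ (5 * L.card * ⌊x / 5⌋₊) := by
        rw [mul_assoc, mul_assoc, pow_mul, pow_mul (2 : ℝ)]
        exact pow_le_pow_left₀ (by norm_num) (by norm_num) _
      refine h1.trans ?_
      rw [← Real.rpow_natCast]
      apply Real.rpow_le_rpow_of_exponent_le (by norm_num)
      push_cast
      have h2 : (⌊x / 5⌋₊ : ℝ) ≤ x / 5 := Nat.floor_le (by positivity)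
      calc 5 * (L.card : ℝ) * ⌊x / 5⌋₊ ≤ 5 * (L.card : ℝ) * (x / 5) :=
            mul_le_mul_of_nonneg_left h2 (by positivity)
        _ = k := by
            rw [hx]
            field_simp
    · have h1 := hnum x hx0
      have h2 : (L.card : ℝ) / k = x⁻¹ := by
        rw [hx]
        field_simp
      rw [h2, Real.inv_rpow hx0.le, ← div_eq_mul_inv, le_div_iff₀ (by positivity)]
      exact h1

end MPcd65c1
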