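import Pool.Agent.Lib.MP_cd65c1_an.H1

/-!
# H4a: infinite sums (H10)

PROOF of `inf_sum`. `0 ≤ e l`: `Phi` is not empty (`h0`), so the covering gives a point with `‖..‖ ≤ e l`. Let
`F = {l | 1 ≤ k l}`; it is finite because `∑_{l ∈ s} k l ≤ n` for all finite `s` (`#s ≤ n` for every finite
`s ⊆ F`; e.g. `Set.finite_of_forall_finset_card_le`-type argument or `by_contra` with
`Set.Infinite.exists_subset_card_eq`). For `l ∉ F`: `2 ^ (k l) < 2`, so the covering has at most one centre, and as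
`0 = A l φ0` is covered by it, `‖A l φ‖ ≤ 2 e l` for all `φ ∈ Phi`. Hence `∑ A l φ` converges absolutely
(compare with `2 e l` off the finite set `F`). Covering of the sums: for each `l ∈ F` take the centres `Y l`
(`card ≤ 2 ^ (k l)`); centres of the sum: `∑_{l ∈ F} y_l`, `y ∈ Π_{l ∈ F} Y l` (`Fintype.piFinset` or
`Finset.pi`; number `≤ ∏_{l ∈ F} 2 ^ (k l) = 2 ^ (∑_{l ∈ F} k l) ≤ 2 ^ n`). Error
`≤ ∑_{l ∈ F} e l + ∑_{l ∉ F} 2 e l ≤ 2 ∑' e l`. (Alternatively: induction on the finite set with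
`Cov.add`, then one perturbation by the tail.)
-/

set_option autoImplicit false

namespace MPcd65c1

open MeasureTheory
open scoped ENNReal

private theorem cov_add_norm {X : Type*} [NormedAddCommGroup X] {A B : Set X} {N1 N2 e1 e2 : ℝ}
    (h1 : Cov (fun x : X => ‖x‖) A N1 e1) (h2 : Cov (fun x : X => ‖x‖) B N2 e2) :
    Cov (fun x : X => ‖x‖) {v | ∃ a ∈ A, ∃ b ∈ B, v = a + b} (N1 * N2) (e1 + e2) := by
  classical
  obtain ⟨Y, hY, hc⟩ := h1
  obtain ⟨Z, hZ, hd⟩ := h2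
  refine ⟨(Y ×ˢ Z).image (fun p => p.1 + p.2), ?_, ?_⟩
  · refine (Nat.cast_le.mpr Finset.card_image_le).trans ?_
    rw [Finset.card_product]
    push_cast
    exact mul_le_mul hY hZ (Nat.cast_nonneg _) ((Nat.cast_nonneg _).trans hY)
  · rintro _ ⟨a, ha, b, hb, rfl⟩
    obtain ⟨y, hy, h3⟩ := hc a ha
    obtain ⟨z, hz, h4⟩ := hd b hb
    refine ⟨y + z, Finset.mem_image.mpr ⟨(y, z), by simp [hy, hz], rfl⟩, ?_⟩
    have := norm_add_le (a - y) (b - z)
    have h5 : a + b - (y + z) = a - y + (b - z) := by abel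
    simp only at h3 h4 ⊢
    rw [h5]
    linarith

/-- (H10) -/
theorem inf_sum {Φ X : Type*} [NormedAddCommGroup X] [CompleteSpace X] (Phi : Set Φ)
    (A : ℕ → Φ → X) (φ0 : Φ) (hφ0 : φ0 ∈ Phi) (h0 : ∀ l, A l φ0 = 0) (k e : ℕ → ℝ) (n : ℝ)
    (hk : ∀ l, 0 ≤ k l) (hkn : ∀ s : Finset ℕ, ∑ l ∈ s, k l ≤ n) (he : Summable e)
    (hcov : ∀ l, Cov (fun x : X => ‖x‖) (A l '' Phi) ((2 : ℝ) ^ (k l)) (e l)) :
    (∀ φ ∈ Phi, Summable (fun l => A l φ)) ∧
      Cov (fun x : X => ‖x‖) ((fun φ => ∑' l, A l φ) '' Phi) ((2 : ℝ) ^ n) (2 * ∑' l, e l) := by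
  classical
  -- the errors are nonnegative
  have he0 : ∀ l, 0 ≤ e l := by
    intro l
    obtain ⟨Y, -, hc⟩ := hcov l
    obtain ⟨y, -, h1⟩ := hc (A l φ0) ⟨φ0, hφ0, rfl⟩
    exact (norm_nonneg _).trans h1
  -- small levels
  have hsmall : ∀ l, k l < 1 → ∀ φ ∈ Phi, ‖A l φ‖ ≤ 2 * e l := by
    intro l hl φ hφ
    obtain ⟨Y, hY, hc⟩ := hcov l
    have h1 : (Y.card : ℝ) < 2 := by
      refine hY.trans_lt ?_
      have := Real.rpow_lt_rpow_of_exponent_lt (x := 2) (by norm_num) hl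
      rwa [Real.rpow_one] at this
    have h2 : Y.card ≤ 1 := by
      have h3 : Y.card < 2 := by exact_mod_cast h1
      omega
    obtain ⟨y, hy, h4⟩ := hc (A l φ) ⟨φ, hφ, rfl⟩
    obtain ⟨z, hz, h5⟩ := hc (A l φ0) ⟨φ0, hφ0, rfl⟩
    have h6 : y = z := Finset.card_le_one.mp h2 y hy z hz
    subst h6
    simp only [h0, zero_sub, norm_neg] at h4 h5
    have h7 := norm_add_le (A l φ - y) y
    rw [sub_add_cancel] at h7
    linarith
  have hfin : {l : ℕ | 1 ≤ k l}.Finite := by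
    by_contra hinf
    obtain ⟨N, hN⟩ := exists_nat_gt n
    obtain ⟨t, ht, htc⟩ := Set.Infinite.exists_subset_card_eq (Set.not_finite.mp hinf) N
    have h1 : (t.card : ℝ) ≤ ∑ l ∈ t, k l := by
      rw [Finset.card_eq_sum_ones]
      push_cast
      exact Finset.sum_le_sum fun l hl => ht hl
    have h2 := hkn t
    rw [htc] at h1
    linarith
  set F := hfin.toFinset with hF
  have hnF : ∀ l, l ∉ F → k l < 1 := by
    intro l hl
    by_contra h1
    exact hl (by rw [hF, Set.Finite.mem_toFinset]; exact not_lt.mp h1)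
  have hsum : ∀ φ ∈ Phi, Summable (fun l => A l φ) := by
    intro φ hφ
    refine Summable.of_norm_bounded_eventually (g := fun l => 2 * e l) (he.mul_left 2) ?_
    rw [Filter.eventually_cofinite]
    refine F.finite_toSet.subset ?_
    intro l hl
    by_contra h1
    exact hl (hsmall l (hnF l (by simpa using h1)) φ hφ)
  refine ⟨hsum, ?_⟩
  -- finite sums
  have hcovs : ∀ s : Finset ℕ, Cov (fun x : X => ‖x‖) ((fun φ => ∑ l ∈ s, A l φ) '' Phi)
      ((2 : ℝ) ^ (∑ l ∈ s, k l)) (∑ l ∈ s, e l) := by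
    intro s
    induction s using Finset.induction_on with
    | empty =>
      refine ⟨{0}, by simp, ?_⟩
      rintro _ ⟨φ, -, rfl⟩
      exact ⟨0, by simp, by simp⟩
    | insert a s ha ih =>
      rw [Finset.sum_insert ha, Finset.sum_insert ha, Real.rpow_add (by norm_num)]
      refine (cov_add_norm (hcov a) ih).mono_A ?_
      rintro _ ⟨φ, hφ, rfl⟩
      simp only [Finset.sum_insert ha]
      exact ⟨A a φ, ⟨φ, hφ, rfl⟩, ∑ l ∈ s, A l φ, ⟨φ, hφ, rfl⟩, rfl⟩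
  obtain ⟨Y, hY, hc⟩ := hcovs F
  refine ⟨Y, hY.trans (Real.rpow_le_rpow_of_exponent_le (by norm_num) (hkn F)), ?_⟩
  rintro _ ⟨φ, hφ, rfl⟩
  obtain ⟨y, hy, h1⟩ := hc _ ⟨φ, hφ, rfl⟩
  refine ⟨y, hy, ?_⟩
  simp only at h1 ⊢
  have h2 := (hsum φ hφ).sum_add_tsum_compl (s := F)
  have h3 := he.sum_add_tsum_compl (s := F)
  have h4 : ‖∑' l : ↑((F : Set ℕ)ᶜ), A l φ‖ ≤ ∑' l : ↑((F : Set ℕ)ᶜ), 2 * e l := by
    refine tsum_of_norm_bounded ((he.mul_left 2).subtype _).hasSum ?_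
    rintro ⟨l, hl⟩
    exact hsmall l (hnF l (by simpa using hl)) φ hφ
  rw [tsum_mul_left] at h4
  rw [← h2]
  have h5 : ∑ l ∈ F, A l φ + ∑' l : ↑((F : Set ℕ)ᶜ), A l φ - y =
      (∑ l ∈ F, A l φ - y) + ∑' l : ↑((F : Set ℕ)ᶜ), A l φ := by abel
  rw [h5]
  have h6 := norm_add_le (∑ l ∈ F, A l φ - y) (∑' l : ↑((F : Set ℕ)ᶜ), A l φ)
  have h7 : 0 ≤ ∑ l ∈ F, e l := Finset.sum_nonneg fun l _ => he0 l
  linarith

end MPcd65c1
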