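import Pool.Agent.Lib.MP_cd65c1_an.H1

/-!
# H4b: entropy numbers and coverings

PROOF of `ent_le`. `N = 2 ^ n` (a natural number), the centres in `Y` are enumerated by `Fin (2 ^ n)` (pad by
repetition; if `Y` is empty then `A` is empty and any `y` works, `X` is nonempty as it contains `0`), so `ε` is in the
set whose infimum is `ent n A` (bounded below by `0`): `csInf_le`.

PROOF of `le_ent`. The set `{ε | 0 < ε ∧ ∃ y, ..}` is not empty (`hne`), and each `ε` in it satisfies `δ ≤ ε`: if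
`ε < δ` then two of the `card S > 2 ^ n` points of `S` lie in the same closed ball of radius `ε`
(`Finset.exists_ne_map_eq_of_card_lt_of_maps_to`), so their distance is `≤ 2 ε < 2 δ`. `le_csInf`.
-/

set_option autoImplicit false

namespace MPcd65c1

open MeasureTheory
open scoped ENNReal

private theorem ent_bdd {X : Type*} [PseudoMetricSpace X] (n : ℕ) (A : Set X) :
    BddBelow {ε : ℝ | 0 < ε ∧ ∃ y : Fin (2 ^ n) → X, A ⊆ ⋃ j, Metric.closedBall (y j) ε} :=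
  ⟨0, fun _ h => h.1.le⟩

theorem ent_le {X : Type*} [NormedAddCommGroup X] {A : Set X} {n : ℕ} {e : ℝ} (he : 0 < e)
    (h : Cov (fun x : X => ‖x‖) A ((2 : ℝ) ^ (n : ℝ)) e) : ent n A ≤ e := by
  classical
  obtain ⟨Y, hY, hc⟩ := h
  rw [Real.rpow_natCast] at hY
  have hY' : Y.card ≤ 2 ^ n := by exact_mod_cast hY
  refine csInf_le (ent_bdd n A) ⟨he, ?_⟩
  refine ⟨fun j => if h : (j : ℕ) < Y.card then (Y.equivFin.symm ⟨j, h⟩ : X) else 0, ?_⟩
  intro a ha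
  obtain ⟨y, hy, h1⟩ := hc a ha
  set i := Y.equivFin ⟨y, hy⟩ with hi
  rw [Set.mem_iUnion]
  refine ⟨⟨i, i.2.trans_le hY'⟩, ?_⟩
  have h2 : (Y.equivFin.symm ⟨(i : ℕ), i.2⟩ : X) = y := by
    have : (⟨(i : ℕ), i.2⟩ : Fin Y.card) = i := rfl
    rw [this, hi, Equiv.symm_apply_apply]
  simp only [dif_pos i.2, h2]
  rw [Metric.mem_closedBall, dist_eq_norm]
  exact h1

theorem ent_mono_n {X : Type*} [PseudoMetricSpace X] {A : Set X} {n m : ℕ} (hnm : n ≤ m)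
    (hne : ∃ ε : ℝ, 0 < ε ∧ ∃ y : Fin (2 ^ n) → X, A ⊆ ⋃ j, Metric.closedBall (y j) ε) :
    ent m A ≤ ent n A := by
  refine csInf_le_csInf (ent_bdd m A) hne ?_
  rintro ε ⟨hε, y, hy⟩
  refine ⟨hε, fun j => y ⟨(j : ℕ) % 2 ^ n, Nat.mod_lt _ (by positivity)⟩, ?_⟩
  intro a ha
  obtain ⟨i, hi⟩ := Set.mem_iUnion.mp (hy ha)
  rw [Set.mem_iUnion]
  have h1 : 2 ^ n ≤ 2 ^ m := Nat.pow_le_pow_right (by norm_num) hnm
  refine ⟨⟨i, i.2.trans_le h1⟩, ?_⟩
  have h2 : (⟨(i : ℕ) % 2 ^ n, Nat.mod_lt _ (by positivity)⟩ : Fin (2 ^ n)) = i := by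
    ext
    simp [Nat.mod_eq_of_lt i.2]
  change a ∈ Metric.closedBall (y ⟨(i : ℕ) % 2 ^ n, Nat.mod_lt _ (by positivity)⟩) ε
  rw [h2]
  exact hi

theorem le_ent {X : Type*} [PseudoMetricSpace X] {A : Set X} {n : ℕ} {δ : ℝ} (S : Finset X)
    (hS : ∀ x ∈ S, x ∈ A) (hcard : 2 ^ n < S.card)
    (hsep : ∀ x ∈ S, ∀ y ∈ S, x ≠ y → 2 * δ ≤ dist x y)
    (hne : ∃ ε : ℝ, 0 < ε ∧ ∃ y : Fin (2 ^ n) → X, A ⊆ ⋃ j, Metric.closedBall (y j) ε) :
    δ ≤ ent n A := by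
  classical
  refine le_csInf hne ?_
  rintro ε ⟨hε, y, hy⟩
  by_contra hlt
  push Not at hlt
  have h1 : ∀ x ∈ S, ∃ j : Fin (2 ^ n), x ∈ Metric.closedBall (y j) ε := fun x hx =>
    Set.mem_iUnion.mp (hy (hS x hx))
  choose! f hf using h1
  obtain ⟨x, hx, x', hx', hne', hxx⟩ :=
    Finset.exists_ne_map_eq_of_card_lt_of_maps_to (s := S) (t := Finset.univ) (f := f)
      (by simpa using hcard) (fun x _ => Finset.mem_univ _)
  have h2 := hf x hx
  have h3 := hf x' hx'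
  rw [Metric.mem_closedBall] at h2 h3
  rw [← hxx] at h3
  have h4 := hsep x hx x' hx' hne'
  have h5 := dist_triangle_right x x' (y (f x))
  linarith

end MPcd65c1
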