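import Pool.Agent.Lib.MP_cd65c1_an.Defs2
import Pool.Agent.Lib.MP_cd65c1_an.KAbel

/-!
# MP_cd65c1_an / JOne : `L_1` norm of smooth one-dimensional block kernels (about 170 lines)

(J1) Let `m : ℤ → ℂ` vanish for `|k| ≥ 2^(s+1)`, `‖m k‖ ≤ A`, `‖m (k+1) - m k‖ ≤ A 2^(-s)`.  Then
`g(x) = Σ_{|k| < 2^(s+1)} m(k) e_k(x)` has `∫ ‖g‖ ≤ C A`.
Proof.  `∫ ‖g‖^2 = Σ ‖m k‖^2 ≤ 2^(s+2) A^2` (orthonormality of `fourier`), and
`(1 - e_1) g = Σ (m(k) - m(k-1)) e_k`, so `∫ ‖1-e_1‖^2 ‖g‖^2 = Σ ‖m(k)-m(k-1)‖^2 ≤ (2^(s+2)+1) A^2 4^(-s)`.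
With `‖1 - e_1(x)‖ ≥ 4 ‖x‖` (`four_norm_le`): `∫ (1 + 4^s ‖x‖^2) ‖g‖^2 ≤ C 2^s A^2`.  Cauchy-Schwarz:
`(∫ ‖g‖)^2 ≤ ∫ (1 + 4^s ‖x‖^2)^(-1) dx * ∫ (1 + 4^s‖x‖^2) ‖g‖^2 ≤ C 2^(-s) * C 2^s A^2`, where
`∫ (1 + 4^s ‖x‖^2)^(-1) dx ≤ C 2^(-s)`: e.g. cover `UnitAddCircle` by the balls `‖x‖ ≤ 2^(j-s)`,
`0 ≤ j ≤ s` (measure `≤ 2 * 2^(j-s)`), on `2^(j-1-s) < ‖x‖ ≤ 2^(j-s)` the integrand is `≤ 4 * 4^(-j)`: the sum is
`≤ 2 * 2^(-s) + Σ_j 8 * 4^(-j) 2^(j-s) ≤ 18 * 2^(-s)`.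

(J1') `m(k) = eta s k * bern r k`: `‖m‖ ≤ C 2^(-rs)` (support `size |k| ≥ s - 1`), differences `≤ C 2^(-rs) 2^(-s)`:
`vp s` is Lipschitz with constant `2^(1-s)` (`s ≥ 1`), `|k|^(-r)` for `|k| ≥ 2^(s-2)`, `s ≥ 2`, is Lipschitz with
constant `r |k|^(-r-1) ≤ C 2^(-rs-s)`, the phase is constant on each side; for consecutive `k, k+1` with
different signs or `0` both values vanish if `s ≥ 2`.  `s ≤ 1`: trivially (`≤ 3` frequencies, all `|m| ≤ 1`).
RESULT: `∫ ‖Σ_k eta s k bern r k e_k‖ ≤ C 2^(-rs)`.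
-/

namespace MPcd65c1

open MeasureTheory

/-! ### Parseval in one variable -/

private theorem hmk (n : ℤ) :
    ∫ t : UnitAddCircle, (fourier n t : ℂ) ∂(AddCircle.haarAddCircle : Measure UnitAddCircle) =
      if n = 0 then 1 else 0 := by
  split_ifs with h
  · subst h
    simp
  · have h1 := orthonormal_iff_ite.mp (orthonormal_fourier (T := 1)) 0 n
    rw [if_neg (fun h0 => h h0.symm)] at h1
    rw [ContinuousMap.inner_toLp] at h1
    simpa using h1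

theorem contInt1 {f : UnitAddCircle → ℝ} (hf : Continuous f) :
    Integrable f (AddCircle.haarAddCircle : Measure UnitAddCircle) :=
  hf.integrable_of_hasCompactSupport (HasCompactSupport.of_compactSpace _)

theorem contInt1c {f : UnitAddCircle → ℂ} (hf : Continuous f) :
    Integrable f (AddCircle.haarAddCircle : Measure UnitAddCircle) :=
  hf.integrable_of_hasCompactSupport (HasCompactSupport.of_compactSpace _)

theorem pars1 (S : Finset ℤ) (c : ℤ → ℂ) :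
    ∫ x : UnitAddCircle, ‖∑ k ∈ S, c k * (fourier k x : ℂ)‖ ^ 2
      ∂(AddCircle.haarAddCircle : Measure UnitAddCircle) = ∑ k ∈ S, ‖c k‖ ^ 2 := by
  have h1 : ∀ x : UnitAddCircle, ((‖∑ k ∈ S, c k * (fourier k x : ℂ)‖ ^ 2 : ℝ) : ℂ) =
      ∑ k ∈ S, ∑ j ∈ S, (c k * (starRingEnd ℂ) (c j)) * (fourier (k - j) x : ℂ) := by
    intro x
    push_cast
    rw [← Complex.mul_conj', map_sum, Finset.sum_mul_sum]
    refine Finset.sum_congr rfl (fun k _ => Finset.sum_congr rfl (fun j _ => ?_))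
    rw [map_mul, sub_eq_add_neg, fourier_add, fourier_neg]
    ring
  have h2 : ((∫ x : UnitAddCircle, ‖∑ k ∈ S, c k * (fourier k x : ℂ)‖ ^ 2
      ∂(AddCircle.haarAddCircle : Measure UnitAddCircle) : ℝ) : ℂ) =
      ((∑ k ∈ S, ‖c k‖ ^ 2 : ℝ) : ℂ) := by
    rw [← integral_complex_ofReal]
    simp_rw [h1]
    have hi : ∀ k j : ℤ, Integrable (fun x : UnitAddCircle =>
        (c k * (starRingEnd ℂ) (c j)) * (fourier (k - j) x : ℂ))
        (AddCircle.haarAddCircle : Measure UnitAddCircle) := fun k j =>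
      contInt1c (continuous_const.mul (map_continuous (fourier (k - j))))
    rw [integral_finsetSum S (fun k _ => integrable_finsetSum S (fun j _ => hi k j))]
    push_cast
    refine Finset.sum_congr rfl (fun k hk => ?_)
    rw [integral_finsetSum S (fun j _ => hi k j)]
    simp_rw [integral_const_mul, hmk, sub_eq_zero]
    rw [Finset.sum_eq_single_of_mem k hk]
    · rw [if_pos rfl, mul_one, Complex.mul_conj']
    · intro j _ hj
      rw [if_neg (fun h => hj h.symm), mul_zero]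
  exact_mod_cast h2

/-! ### the weight -/

theorem weight1 (t : ℝ) (ht : 0 < t) :
    ∫ x : UnitAddCircle, (1 + (t * ‖x‖) ^ 2)⁻¹
      ∂(AddCircle.haarAddCircle : Measure UnitAddCircle) ≤ Real.pi / t := by
  have hv : (volume : Measure UnitAddCircle) = AddCircle.haarAddCircle := by
    simp [AddCircle.volume_eq_smul_haarAddCircle]
  rw [← hv, ← UnitAddCircle.intervalIntegral_preimage (-(1 / 2))]
  have h1 : ∫ a : ℝ in (-(1 / 2))..(-(1 / 2) + 1), (1 + (t * ‖((a : ℝ) : UnitAddCircle)‖) ^ 2)⁻¹ =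
      ∫ a : ℝ in (-(1 / 2))..(-(1 / 2) + 1), (1 + (t * a) ^ 2)⁻¹ := by
    refine intervalIntegral.integral_congr (fun a ha => ?_)
    rw [Set.uIcc_of_le (by norm_num)] at ha
    have h2 : |a| ≤ 1 / 2 := abs_le.2 ⟨by linarith [ha.1], by linarith [ha.2]⟩
    have h3 : ‖((a : ℝ) : UnitAddCircle)‖ = |a| := by
      rw [AddCircle.norm_coe_eq_abs_iff 1 one_ne_zero]
      simpa using h2
    simp only [h3, mul_pow, sq_abs]
  rw [h1, intervalIntegral.integral_comp_mul_left (fun y => (1 + y ^ 2)⁻¹) ht.ne',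
    integral_inv_one_add_sq, smul_eq_mul, div_eq_inv_mul Real.pi t]
  refine mul_le_mul_of_nonneg_left ?_ (inv_nonneg.2 ht.le)
  have h4 := Real.arctan_lt_pi_div_two (t * (-(1 / 2) + 1))
  have h5 := Real.neg_pi_div_two_lt_arctan (t * -(1 / 2))
  linarith

theorem J1 : ∃ C : ℝ, 0 < C ∧ ∀ (s : ℕ) (A : ℝ) (m : ℤ → ℂ), 0 ≤ A → (∀ k, ‖m k‖ ≤ A) →
    (∀ k, (2 : ℤ) ^ (s + 1) ≤ |k| → m k = 0) →
    (∀ k, ‖m (k + 1) - m k‖ ≤ A * ((2 : ℝ) ^ s)⁻¹) →
    ∫ x : UnitAddCircle, ‖∑ k ∈ Finset.Ioo (-(2 : ℤ) ^ (s + 1)) ((2 : ℤ) ^ (s + 1)),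
      m k * (fourier k x : ℂ)‖ ∂(AddCircle.haarAddCircle : Measure UnitAddCircle) ≤ C * A := by
  refine ⟨5, by norm_num, fun s A m hA hm hsupp hdiff => ?_⟩
  set N : ℤ := (2 : ℤ) ^ (s + 1) with hN
  have hN0 : 0 < N := by positivity
  rcases hA.eq_or_lt with hA0 | hA0
  · have h0 : ∀ k, m k = 0 := fun k => norm_le_zero_iff.1 (by rw [hA0]; exact hm k)
    simp [h0, ← hA0]
  set g : UnitAddCircle → ℂ := fun x => ∑ k ∈ Finset.Ioo (-N) N, m k * (fourier k x : ℂ) with hg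
  have hgc : Continuous g := continuous_finsetSum _ (fun k _ =>
    continuous_const.mul (map_continuous (fourier k)))
  -- g as a sum over the closed interval
  have hg1 : ∀ x, g x = ∑ k ∈ Finset.Icc (-N) N, m k * (fourier k x : ℂ) := by
    intro x
    refine Finset.sum_subset (fun k hk => ?_) (fun k hk hk' => ?_)
    · rw [Finset.mem_Ioo] at hk; rw [Finset.mem_Icc]; omega
    · rw [Finset.mem_Icc] at hk
      rw [Finset.mem_Ioo] at hk'
      rw [hsupp k (by rw [le_abs]; omega), zero_mul]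
  -- (1-e_1) g
  have hg2 : ∀ x, (1 - (fourier 1 x : ℂ)) * g x =
      ∑ k ∈ Finset.Icc (-N) N, (m k - m (k - 1)) * (fourier k x : ℂ) := by
    intro x
    have h3 : (fourier 1 x : ℂ) * g x = ∑ k ∈ Finset.Icc (-N) N, m (k - 1) * (fourier k x : ℂ) := by
      have h4 : ∑ k ∈ Finset.Icc (-N) N, m (k - 1) * (fourier k x : ℂ) =
          ∑ k ∈ Finset.Icc (-N - 1) (N - 1), m k * (fourier (k + 1) x : ℂ) := by
        refine Finset.sum_bij' (fun k _ => k - 1) (fun k _ => k + 1) ?_ ?_ ?_ ?_ ?_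
        · intro k hk; rw [Finset.mem_Icc] at hk ⊢; omega
        · intro k hk; rw [Finset.mem_Icc] at hk ⊢; omega
        · intro k _; ring
        · intro k _; ring
        · intro k _; simp
      rw [h4, hg, Finset.mul_sum]
      symm
      refine (Finset.sum_subset_zero_on_sdiff (fun k hk => ?_) (fun k hk => ?_) (fun k _ => ?_)).symm
      · rw [Finset.mem_Ioo] at hk; rw [Finset.mem_Icc]; omega
      · rw [Finset.mem_sdiff, Finset.mem_Icc, Finset.mem_Ioo] at hk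
        rw [hsupp k (by rw [le_abs]; omega), zero_mul]
      · rw [fourier_add]; ring
    rw [sub_mul, one_mul, h3, hg1, ← Finset.sum_sub_distrib]
    exact Finset.sum_congr rfl (fun k _ => by ring)
  have hcard1 : ((Finset.Icc (-N) N).card : ℝ) ≤ 5 * 2 ^ s := by
    rw [Int.card_Icc]
    have h5 : ((N + 1 - -N).toNat : ℝ) = ((N + 1 - -N : ℤ) : ℝ) := by
      have : ((N + 1 - -N).toNat : ℤ) = N + 1 - -N := Int.toNat_of_nonneg (by omega)
      exact_mod_cast this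
    rw [h5, hN]
    push_cast
    have h6 : (1 : ℝ) ≤ 2 ^ s := one_le_pow₀ (by norm_num)
    rw [pow_succ]
    linarith
  have hcard2 : ((Finset.Ioo (-N) N).card : ℝ) ≤ 4 * 2 ^ s := by
    rw [Int.card_Ioo]
    have h5 : ((N - -N - 1).toNat : ℝ) = ((N - -N - 1 : ℤ) : ℝ) := by
      have : ((N - -N - 1).toNat : ℤ) = N - -N - 1 := Int.toNat_of_nonneg (by omega)
      exact_mod_cast this
    rw [h5, hN]
    push_cast
    rw [pow_succ]
    linarith
  have hI1 : ∫ x : UnitAddCircle, ‖g x‖ ^ 2 ∂(AddCircle.haarAddCircle : Measure UnitAddCircle)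
      ≤ 4 * 2 ^ s * A ^ 2 := by
    rw [hg, pars1]
    calc ∑ k ∈ Finset.Ioo (-N) N, ‖m k‖ ^ 2 ≤ ∑ _k ∈ Finset.Ioo (-N) N, A ^ 2 :=
          Finset.sum_le_sum (fun k _ => pow_le_pow_left₀ (norm_nonneg _) (hm k) 2)
      _ = ((Finset.Ioo (-N) N).card : ℝ) * A ^ 2 := by rw [Finset.sum_const, nsmul_eq_mul]
      _ ≤ _ := mul_le_mul_of_nonneg_right hcard2 (sq_nonneg A)
  have hI2 : ∫ x : UnitAddCircle, ‖(1 - (fourier 1 x : ℂ)) * g x‖ ^ 2
      ∂(AddCircle.haarAddCircle : Measure UnitAddCircle) ≤ 5 * A ^ 2 * ((2 : ℝ) ^ s)⁻¹ := by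
    simp_rw [hg2]
    rw [pars1]
    calc ∑ k ∈ Finset.Icc (-N) N, ‖m k - m (k - 1)‖ ^ 2
        ≤ ∑ _k ∈ Finset.Icc (-N) N, (A * ((2 : ℝ) ^ s)⁻¹) ^ 2 := by
          refine Finset.sum_le_sum (fun k _ => pow_le_pow_left₀ (norm_nonneg _) ?_ 2)
          have := hdiff (k - 1)
          rwa [sub_add_cancel] at this
      _ = ((Finset.Icc (-N) N).card : ℝ) * (A * ((2 : ℝ) ^ s)⁻¹) ^ 2 := by
          rw [Finset.sum_const, nsmul_eq_mul]
      _ ≤ (5 * 2 ^ s) * (A * ((2 : ℝ) ^ s)⁻¹) ^ 2 :=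
          mul_le_mul_of_nonneg_right hcard1 (sq_nonneg _)
      _ = _ := by
          have : (2 : ℝ) ^ s ≠ 0 := by positivity
          field_simp
  -- pointwise bound
  set t : ℝ := 2 ^ s with ht
  have ht0 : 0 < t := by positivity
  have hpt : ∀ x : UnitAddCircle, ‖g x‖ ≤ (A * t / 2) * (1 + (t * ‖x‖) ^ 2)⁻¹ +
      ((2 * A * t)⁻¹ * ‖g x‖ ^ 2 + (2 * A * t)⁻¹ * (t ^ 2 / 16) *
        ‖(1 - (fourier 1 x : ℂ)) * g x‖ ^ 2) := by
    intro x
    have h7 := four_norm_le x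
    have h8 : (4 * ‖x‖) ^ 2 * ‖g x‖ ^ 2 ≤ ‖(1 - (fourier 1 x : ℂ)) * g x‖ ^ 2 := by
      rw [norm_mul, mul_pow ‖1 - (fourier 1 x : ℂ)‖]
      exact mul_le_mul_of_nonneg_right (pow_le_pow_left₀ (by positivity) h7 2)
        (sq_nonneg ‖g x‖)
    set w : ℝ := 1 + (t * ‖x‖) ^ 2 with hw
    have hw0 : 0 < w := by positivity
    have h9 : ‖g x‖ ≤ (A * t / 2) * w⁻¹ + (2 * A * t)⁻¹ * (w * ‖g x‖ ^ 2) := by
      have h10 : 0 ≤ (A * t / w - ‖g x‖) ^ 2 * (w / (2 * A * t)) := by positivity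
      have h11 : (A * t / w - ‖g x‖) ^ 2 * (w / (2 * A * t)) =
          (A * t / 2) * w⁻¹ + (2 * A * t)⁻¹ * (w * ‖g x‖ ^ 2) - ‖g x‖ := by
        field_simp
        ring
      linarith
    refine h9.trans ?_
    have h12 : w * ‖g x‖ ^ 2 ≤ ‖g x‖ ^ 2 + (t ^ 2 / 16) * ‖(1 - (fourier 1 x : ℂ)) * g x‖ ^ 2 := by
      have h13 : w * ‖g x‖ ^ 2 = ‖g x‖ ^ 2 + (t ^ 2 / 16) * ((4 * ‖x‖) ^ 2 * ‖g x‖ ^ 2) := by
        rw [hw]; ring
      rw [h13]
      have := mul_le_mul_of_nonneg_left h8 (by positivity : (0 : ℝ) ≤ t ^ 2 / 16)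
      linarith
    have h14 := mul_le_mul_of_nonneg_left h12 (by positivity : (0 : ℝ) ≤ (2 * A * t)⁻¹)
    have h15 : (2 * A * t)⁻¹ * (‖g x‖ ^ 2 + (t ^ 2 / 16) * ‖(1 - (fourier 1 x : ℂ)) * g x‖ ^ 2) =
      (2 * A * t)⁻¹ * ‖g x‖ ^ 2 + (2 * A * t)⁻¹ * (t ^ 2 / 16) *
        ‖(1 - (fourier 1 x : ℂ)) * g x‖ ^ 2 := by ring
    linarith
  have hc1 : Continuous (fun x : UnitAddCircle => (1 + (t * ‖x‖) ^ 2)⁻¹) := by
    refine Continuous.inv₀ (by fun_prop) (fun x => ?_)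
    positivity
  have hc2 : Continuous (fun x : UnitAddCircle => ‖g x‖ ^ 2) := hgc.norm.pow 2
  have hc3 : Continuous (fun x : UnitAddCircle => ‖(1 - (fourier 1 x : ℂ)) * g x‖ ^ 2) :=
    (((continuous_const.sub (map_continuous (fourier 1))).mul hgc).norm.pow 2)
  have hmain : ∫ x, ‖g x‖ ∂(AddCircle.haarAddCircle : Measure UnitAddCircle) ≤
      (A * t / 2) * (Real.pi / t) + ((2 * A * t)⁻¹ * (4 * t * A ^ 2) +
        (2 * A * t)⁻¹ * (t ^ 2 / 16) * (5 * A ^ 2 * t⁻¹)) := by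
    calc ∫ x, ‖g x‖ ∂(AddCircle.haarAddCircle : Measure UnitAddCircle)
        ≤ ∫ x : UnitAddCircle, ((A * t / 2) * (1 + (t * ‖x‖) ^ 2)⁻¹ +
      ((2 * A * t)⁻¹ * ‖g x‖ ^ 2 + (2 * A * t)⁻¹ * (t ^ 2 / 16) *
        ‖(1 - (fourier 1 x : ℂ)) * g x‖ ^ 2))
          ∂(AddCircle.haarAddCircle : Measure UnitAddCircle) := by
          refine integral_mono (contInt1 hgc.norm) ?_ hpt
          exact ((contInt1 hc1).const_mul _).add
            (((contInt1 hc2).const_mul _).add ((contInt1 hc3).const_mul _))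
      _ = (A * t / 2) * ∫ x : UnitAddCircle, (1 + (t * ‖x‖) ^ 2)⁻¹
            ∂(AddCircle.haarAddCircle : Measure UnitAddCircle) +
          ((2 * A * t)⁻¹ * ∫ x : UnitAddCircle, ‖g x‖ ^ 2
            ∂(AddCircle.haarAddCircle : Measure UnitAddCircle) +
          (2 * A * t)⁻¹ * (t ^ 2 / 16) * ∫ x : UnitAddCircle, ‖(1 - (fourier 1 x : ℂ)) * g x‖ ^ 2
            ∂(AddCircle.haarAddCircle : Measure UnitAddCircle)) := by
          have i1 := (contInt1 hc1).const_mul (A * t / 2)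
          have i2 := (contInt1 hc2).const_mul ((2 * A * t)⁻¹)
          have i3 := (contInt1 hc3).const_mul ((2 * A * t)⁻¹ * (t ^ 2 / 16))
          have i4 := integral_add i2 i3
          have i5 := integral_add i1 (i2.add i3)
          rw [integral_const_mul, integral_const_mul] at i4
          rw [integral_const_mul] at i5
          rw [← i4]
          exact i5
      _ ≤ _ := by
          have e1 := mul_le_mul_of_nonneg_left (weight1 t ht0)
            (by positivity : (0 : ℝ) ≤ A * t / 2)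
          have e2 := mul_le_mul_of_nonneg_left hI1 (by positivity : (0 : ℝ) ≤ (2 * A * t)⁻¹)
          have e3 := mul_le_mul_of_nonneg_left hI2
            (by positivity : (0 : ℝ) ≤ (2 * A * t)⁻¹ * (t ^ 2 / 16))
          linarith
  refine hmain.trans ?_
  have h16 : (A * t / 2) * (Real.pi / t) + ((2 * A * t)⁻¹ * (4 * t * A ^ 2) +
        (2 * A * t)⁻¹ * (t ^ 2 / 16) * (5 * A ^ 2 * t⁻¹)) = (Real.pi / 2 + 2 + 5 / 32) * A := by
    field_simp
    ring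
  rw [h16]
  have := Real.pi_lt_four
  nlinarith

/-! ### the smooth blocks of the Bernoulli multiplier -/

theorem vp_mem01 (s : ℕ) (k : ℤ) : 0 ≤ vp s k ∧ vp s k ≤ 1 := by
  unfold vp
  split_ifs
  · norm_num
  · norm_num
  · refine ⟨le_max_left _ _, max_le (by norm_num) (min_le_left _ _)⟩

theorem abs_eta_le_one (s : ℕ) (k : ℤ) : |eta s k| ≤ 1 := by
  unfold eta
  split_ifs
  · rw [abs_of_nonneg (vp_mem01 0 k).1]; exact (vp_mem01 0 k).2
  · rw [abs_le]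
    have h1 := vp_mem01 s k
    have h2 := vp_mem01 (s - 1) k
    constructor <;> linarith [h1.1, h1.2, h2.1, h2.2]

theorem vp_zero_of_le (s : ℕ) (k : ℤ) (h : (2 : ℤ) ^ s ≤ |k|) : vp s k = 0 := by
  unfold vp
  have h1 : (2 : ℝ) ^ s ≤ |(k : ℝ)| := by exact_mod_cast h
  split_ifs with h2 h3
  · subst h3; subst h2; simp at h
  · rfl
  · rw [max_eq_left]
    refine (min_le_right _ _).trans ?_
    obtain ⟨t, rfl⟩ : ∃ t, s = t + 1 := ⟨s - 1, by omega⟩
    rw [Nat.add_sub_cancel]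
    rw [sub_nonpos, le_div_iff₀ (by positivity), ← pow_succ']
    exact h1

theorem eta_zero_of_le (s : ℕ) (k : ℤ) (h : (2 : ℤ) ^ s ≤ |k|) : eta s k = 0 := by
  unfold eta
  split_ifs with h1
  · subst h1; exact vp_zero_of_le 0 k h
  · rw [vp_zero_of_le s k h, vp_zero_of_le (s - 1) k, sub_zero]
    refine le_trans ?_ h
    exact pow_le_pow_right₀ (by norm_num) (by omega)

/-- the profile of `vp s`, `s ≥ 1` -/
noncomputable def vpr (s : ℕ) (y : ℝ) : ℝ := max 0 (min 1 (2 - y / (2 : ℝ) ^ (s - 1)))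

theorem vpr_lip (s : ℕ) (y z : ℝ) : |vpr s y - vpr s z| ≤ |y - z| / (2 : ℝ) ^ (s - 1) := by
  unfold vpr
  refine (abs_max_sub_max_le_max _ _ _ _).trans ?_
  rw [sub_self, abs_zero]
  refine max_le (by positivity) ?_
  refine (abs_min_sub_min_le_max _ _ _ _).trans ?_
  rw [sub_self, abs_zero]
  refine max_le (by positivity) (le_of_eq ?_)
  have h1 : 2 - y / (2 : ℝ) ^ (s - 1) - (2 - z / (2 : ℝ) ^ (s - 1)) =
      -((y - z) / (2 : ℝ) ^ (s - 1)) := by ring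
  rw [h1, abs_neg, abs_div, abs_of_pos (by positivity : (0 : ℝ) < (2 : ℝ) ^ (s - 1))]

theorem eta_eq_vpr {s : ℕ} (hs : 2 ≤ s) (k : ℤ) :
    eta s k = vpr s |(k : ℝ)| - vpr (s - 1) |(k : ℝ)| := by
  unfold eta vp vpr
  rw [if_neg (by omega), if_neg (by omega), if_neg (by omega)]

/-- for `s = t + 2` the block vanishes on `|k| ≤ 2^t` -/
theorem eta_zero_small (t : ℕ) (k : ℤ) (h : |k| ≤ (2 : ℤ) ^ t) : eta (t + 2) k = 0 := by
  have h1 : |(k : ℝ)| ≤ (2 : ℝ) ^ t := by exact_mod_cast h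
  rw [eta_eq_vpr (by omega)]
  unfold vpr
  have h2 : t + 2 - 1 = t + 1 := by omega
  have h3 : t + 2 - 1 - 1 = t := by omega
  rw [h3, h2]
  have h4 : |(k : ℝ)| / (2 : ℝ) ^ t ≤ 1 := by rw [div_le_one (by positivity)]; exact h1
  have h5 : |(k : ℝ)| / (2 : ℝ) ^ (t + 1) ≤ 1 := by
    rw [div_le_one (by positivity)]
    refine h1.trans (pow_le_pow_right₀ (by norm_num) (by omega))
  rw [min_eq_left (by linarith), min_eq_left (by linarith), sub_self]

theorem norm_bern_le_one {r : ℝ} (hr : 0 ≤ r) (k : ℤ) : ‖bern r k‖ ≤ 1 := by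
  by_cases hk : k = 0
  · subst hk; simp [bern_zero]
  · rw [norm_bern_ne hk]
    refine Real.rpow_le_one_of_one_le_of_nonpos ?_ (by linarith)
    have h1 : (1 : ℤ) ≤ |k| := Int.one_le_abs hk
    exact_mod_cast h1

/-- `k^{-r} - (k+1)^{-r} ≤ r k^{-r}/k` -/
theorem rpow_diff {r y : ℝ} (hr : 0 < r) (hy : 0 < y) :
    y ^ (-r) - (y + 1) ^ (-r) ≤ r * y ^ (-r) / y := by
  have h1 : (y + 1) ^ (-r) = y ^ (-r) * (1 + 1 / y) ^ (-r) := by
    rw [← Real.mul_rpow hy.le (by positivity)]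
    congr 1
    field_simp
  have h2 : 1 - r / y ≤ (1 + 1 / y) ^ (-r) := by
    have h3 : (0 : ℝ) < 1 + 1 / y := by positivity
    rw [Real.rpow_def_of_pos h3]
    have h4 := Real.add_one_le_exp (Real.log (1 + 1 / y) * -r)
    have h5 := Real.log_le_sub_one_of_pos h3
    have h6 : Real.log (1 + 1 / y) * r ≤ (1 + 1 / y - 1) * r :=
      mul_le_mul_of_nonneg_right h5 hr.le
    have h7 : (1 + 1 / y - 1) * r = r / y := by ring
    linarith
  rw [h1]
  have h8 : 0 < y ^ (-r) := Real.rpow_pos_of_pos hy _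
  have h9 := mul_le_mul_of_nonneg_left h2 h8.le
  have h10 : y ^ (-r) * (1 - r / y) = y ^ (-r) - r * y ^ (-r) / y := by ring
  linarith

/-- the phase of the Bernoulli multiplier on positive frequencies -/
theorem bern_pos_eq (r : ℝ) {k : ℤ} (hk : 0 < k) : bern r k =
    (((k : ℝ) ^ (-r) : ℝ) : ℂ) * Complex.exp (-(Complex.I * ((r * Real.pi / 2 : ℝ) : ℂ))) := by
  unfold bern
  rw [if_neg hk.ne', abs_of_pos (by exact_mod_cast hk), Int.sign_eq_one_of_pos hk]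
  simp

theorem diff_pos {r : ℝ} (hr : 0 < r) (t : ℕ) (k : ℤ) (hk : 0 < k) :
    ‖((eta (t + 2) (k + 1) : ℝ) : ℂ) * bern r (k + 1) - ((eta (t + 2) k : ℝ) : ℂ) * bern r k‖ ≤
      (2 * 2 ^ t)⁻¹ * (3 + 2 * r) * ((2 : ℝ) ^ t) ^ (-r) := by
  have hR : 0 ≤ (2 * (2 : ℝ) ^ t)⁻¹ * (3 + 2 * r) * ((2 : ℝ) ^ t) ^ (-r) := by positivity
  by_cases hz : k + 1 ≤ (2 : ℤ) ^ t
  · rw [eta_zero_small t (k + 1) (by rw [abs_of_pos (by omega)]; exact hz),
      eta_zero_small t k (by rw [abs_of_pos hk]; omega)]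
    simpa using hR
  · have hk2 : (2 : ℤ) ^ t ≤ k := by omega
    have hy : (0 : ℝ) < (k : ℝ) := by exact_mod_cast hk
    have hk3 : (2 : ℝ) ^ t ≤ (k : ℝ) := by exact_mod_cast hk2
    rw [bern_pos_eq r hk, bern_pos_eq r (by omega : 0 < k + 1)]
    have h1 : ((eta (t + 2) (k + 1) : ℝ) : ℂ) * ((((k + 1 : ℤ) : ℝ) ^ (-r) : ℝ) *
        Complex.exp (-(Complex.I * ((r * Real.pi / 2 : ℝ) : ℂ)))) -
        ((eta (t + 2) k : ℝ) : ℂ) * ((((k : ℝ) ^ (-r) : ℝ) : ℂ) *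
        Complex.exp (-(Complex.I * ((r * Real.pi / 2 : ℝ) : ℂ)))) =
        ((eta (t + 2) (k + 1) * ((k : ℝ) + 1) ^ (-r) - eta (t + 2) k * (k : ℝ) ^ (-r) : ℝ) : ℂ) *
        Complex.exp (-(Complex.I * ((r * Real.pi / 2 : ℝ) : ℂ))) := by
      push_cast
      ring
    rw [h1, norm_mul, Complex.norm_exp]
    have h2 : (-(Complex.I * ((r * Real.pi / 2 : ℝ) : ℂ))).re = 0 := by simp
    rw [h2, Real.exp_zero, mul_one, Complex.norm_real, Real.norm_eq_abs]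
    have h3 : eta (t + 2) (k + 1) * ((k : ℝ) + 1) ^ (-r) - eta (t + 2) k * (k : ℝ) ^ (-r) =
        (eta (t + 2) (k + 1) - eta (t + 2) k) * ((k : ℝ) + 1) ^ (-r) -
        eta (t + 2) k * ((k : ℝ) ^ (-r) - ((k : ℝ) + 1) ^ (-r)) := by ring
    have h4 : |eta (t + 2) (k + 1) - eta (t + 2) k| ≤ 3 / (2 * 2 ^ t) := by
      rw [eta_eq_vpr (by omega), eta_eq_vpr (by omega)]
      have e1 := vpr_lip (t + 2) |((k + 1 : ℤ) : ℝ)| |(k : ℝ)|
      have e2 := vpr_lip (t + 2 - 1) |((k + 1 : ℤ) : ℝ)| |(k : ℝ)|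
      have e3 : |(|((k + 1 : ℤ) : ℝ)| - |(k : ℝ)|)| = 1 := by
        have e0 : (0 : ℝ) < (k : ℝ) + 1 := by linarith
        rw [Int.cast_add, Int.cast_one, abs_of_pos hy, abs_of_pos e0, add_sub_cancel_left, abs_one]
      rw [e3] at e1 e2
      have e4 : t + 2 - 1 = t + 1 := by omega
      have e5 : t + 2 - 1 - 1 = t := by omega
      rw [e4] at e1
      rw [e5] at e2
      rw [abs_le] at e1 e2 ⊢
      have e6 : 3 / (2 * (2 : ℝ) ^ t) = 1 / 2 ^ (t + 1) + 1 / 2 ^ t := by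
        rw [pow_succ]; field_simp; norm_num
      rw [e6]
      constructor
      · linarith [e1.1, e2.2]
      · linarith [e1.2, e2.1]
    have h5 : ((k : ℝ) + 1) ^ (-r) ≤ ((2 : ℝ) ^ t) ^ (-r) :=
      Real.rpow_le_rpow_of_nonpos (by positivity) (by linarith) (by linarith)
    have h6 : (k : ℝ) ^ (-r) ≤ ((2 : ℝ) ^ t) ^ (-r) :=
      Real.rpow_le_rpow_of_nonpos (by positivity) hk3 (by linarith)
    have h7 : 0 ≤ (k : ℝ) ^ (-r) - ((k : ℝ) + 1) ^ (-r) :=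
      sub_nonneg.2 (Real.rpow_le_rpow_of_nonpos hy (by linarith) (by linarith))
    have h8 : (k : ℝ) ^ (-r) - ((k : ℝ) + 1) ^ (-r) ≤ r * ((2 : ℝ) ^ t) ^ (-r) / 2 ^ t := by
      refine (rpow_diff hr hy).trans ?_
      rw [div_le_div_iff₀ hy (by positivity)]
      have e1 : 0 < ((2 : ℝ) ^ t) ^ (-r) := Real.rpow_pos_of_pos (by positivity) _
      exact mul_le_mul (mul_le_mul_of_nonneg_left h6 hr.le) hk3 (by positivity) (by positivity)
    rw [h3]
    refine (abs_sub _ _).trans ?_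
    rw [abs_mul, abs_mul, abs_of_nonneg h7, abs_of_nonneg
      (Real.rpow_nonneg (by positivity) _ : 0 ≤ ((k : ℝ) + 1) ^ (-r))]
    have h9 : |eta (t + 2) (k + 1) - eta (t + 2) k| * ((k : ℝ) + 1) ^ (-r) ≤
        3 / (2 * 2 ^ t) * ((2 : ℝ) ^ t) ^ (-r) :=
      mul_le_mul h4 h5 (Real.rpow_nonneg (by positivity) _) (by positivity)
    have h10 : |eta (t + 2) k| * ((k : ℝ) ^ (-r) - ((k : ℝ) + 1) ^ (-r)) ≤
        1 * (r * ((2 : ℝ) ^ t) ^ (-r) / 2 ^ t) :=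
      mul_le_mul (abs_eta_le_one _ _) h8 h7 (by norm_num)
    have h11 : 3 / (2 * 2 ^ t) * ((2 : ℝ) ^ t) ^ (-r) + 1 * (r * ((2 : ℝ) ^ t) ^ (-r) / 2 ^ t) =
        (2 * 2 ^ t)⁻¹ * (3 + 2 * r) * ((2 : ℝ) ^ t) ^ (-r) := by
      field_simp
    linarith

theorem eta_neg (s : ℕ) (k : ℤ) : eta s (-k) = eta s k := by
  unfold eta vp
  simp

theorem mfun_neg (r : ℝ) (s : ℕ) (k : ℤ) : ((eta s (-k) : ℝ) : ℂ) * bern r (-k) =
    (starRingEnd ℂ) (((eta s k : ℝ) : ℂ) * bern r k) := by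
  rw [eta_neg, bern_neg, map_mul, Complex.conj_ofReal]

theorem J1_eta (r : ℝ) (hr : 0 < r) : ∃ C : ℝ, 0 < C ∧ ∀ s : ℕ,
    ∫ x : UnitAddCircle, ‖∑ k ∈ Finset.Ioo (-(2 : ℤ) ^ (s + 1)) ((2 : ℤ) ^ (s + 1)),
      ((eta s k : ℝ) : ℂ) * bern r k * (fourier k x : ℂ)‖
      ∂(AddCircle.haarAddCircle : Measure UnitAddCircle) ≤ C * (2 : ℝ) ^ (-(r * s)) := by
  obtain ⟨C, hC, hJ⟩ := J1
  refine ⟨C * ((6 + 4 * r) * (4 : ℝ) ^ r), by positivity, fun s => ?_⟩
  have hA : (0 : ℝ) ≤ (6 + 4 * r) * (4 : ℝ) ^ r * (2 : ℝ) ^ (-(r * s)) := by positivity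
  have h4 : (4 : ℝ) ^ r = (2 : ℝ) ^ (2 * r) := by
    rw [Real.rpow_mul (by norm_num)]; norm_num
  refine (hJ s ((6 + 4 * r) * (4 : ℝ) ^ r * (2 : ℝ) ^ (-(r * s)))
    (fun k => ((eta s k : ℝ) : ℂ) * bern r k) hA ?_ ?_ ?_).trans (le_of_eq (by ring))
  · -- sup bound
    intro k
    rw [norm_mul, Complex.norm_real, Real.norm_eq_abs]
    rcases Nat.lt_or_ge s 2 with hs | hs
    · have e1 : |eta s k| * ‖bern r k‖ ≤ 1 * 1 :=
        mul_le_mul (abs_eta_le_one s k) (norm_bern_le_one hr.le k) (norm_nonneg _) (by norm_num)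
      refine e1.trans ?_
      rw [h4, mul_assoc, ← Real.rpow_add (by norm_num), one_mul]
      have hs' : (s : ℝ) ≤ 1 := by exact_mod_cast (by omega : s ≤ 1)
      have e2 : (1 : ℝ) ≤ (2 : ℝ) ^ (2 * r + -(r * s)) :=
        Real.one_le_rpow (by norm_num) (by nlinarith)
      nlinarith
    · obtain ⟨t, rfl⟩ : ∃ t, s = t + 2 := ⟨s - 2, by omega⟩
      by_cases hz : |k| ≤ (2 : ℤ) ^ t
      · rw [eta_zero_small t k hz, abs_zero, zero_mul]; exact hA
      · have hk0 : k ≠ 0 := by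
          rintro rfl
          apply hz
          simp
        have e1 : |eta (t + 2) k| * ‖bern r k‖ ≤ 1 * ((2 : ℝ) ^ t) ^ (-r) := by
          refine mul_le_mul (abs_eta_le_one _ k) ?_ (norm_nonneg _) (by norm_num)
          rw [norm_bern_ne hk0]
          refine Real.rpow_le_rpow_of_nonpos (by positivity) ?_ (by linarith)
          have : (2 : ℤ) ^ t ≤ |k| := by omega
          exact_mod_cast this
        refine e1.trans ?_
        have e2 : ((2 : ℝ) ^ t) ^ (-r) = (4 : ℝ) ^ r * (2 : ℝ) ^ (-(r * ((t + 2 : ℕ) : ℝ))) := by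
          rw [h4, ← Real.rpow_add (by norm_num), ← Real.rpow_natCast, ← Real.rpow_mul (by norm_num)]
          congr 1
          push_cast
          ring
        rw [e2, one_mul, mul_assoc]
        have e3 : 0 ≤ (4 : ℝ) ^ r * (2 : ℝ) ^ (-(r * ((t + 2 : ℕ) : ℝ))) := by positivity
        nlinarith
  · intro k hk
    have : eta s k = 0 := eta_zero_of_le s k
      (le_trans (pow_le_pow_right₀ (by norm_num) (by omega)) hk)
    simp [this]
  · intro k
    rcases Nat.lt_or_ge s 2 with hs | hs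
    · have e1 : ∀ j : ℤ, ‖((eta s j : ℝ) : ℂ) * bern r j‖ ≤ 1 := by
        intro j
        rw [norm_mul, Complex.norm_real, Real.norm_eq_abs]
        calc |eta s j| * ‖bern r j‖ ≤ 1 * 1 :=
              mul_le_mul (abs_eta_le_one s j) (norm_bern_le_one hr.le j) (norm_nonneg _)
                (by norm_num)
          _ = 1 := one_mul 1
      refine (norm_sub_le _ _).trans ((add_le_add (e1 (k + 1)) (e1 k)).trans ?_)
      rw [h4, mul_assoc (6 + 4 * r), ← Real.rpow_add (by norm_num)]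
      have hs' : (s : ℝ) ≤ 1 := by exact_mod_cast (by omega : s ≤ 1)
      have e2 : (1 : ℝ) ≤ (2 : ℝ) ^ (2 * r + -(r * s)) :=
        Real.one_le_rpow (by norm_num) (by nlinarith)
      have e3 : (1 / 2 : ℝ) ≤ ((2 : ℝ) ^ s)⁻¹ := by
        rw [one_div]
        refine inv_anti₀ (by positivity) ?_
        calc (2 : ℝ) ^ s ≤ 2 ^ 1 := pow_le_pow_right₀ (by norm_num) (by omega)
          _ = 2 := by norm_num
      have e4 : (6 : ℝ) ≤ (6 + 4 * r) * (2 : ℝ) ^ (2 * r + -(r * s)) := by nlinarith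
      have e5 : (6 : ℝ) * (1 / 2) ≤ (6 + 4 * r) * (2 : ℝ) ^ (2 * r + -(r * s)) * ((2 : ℝ) ^ s)⁻¹ :=
        mul_le_mul e4 e3 (by norm_num) (by positivity)
      linarith
    · obtain ⟨t, rfl⟩ : ∃ t, s = t + 2 := ⟨s - 2, by omega⟩
      have e2 : ((2 : ℝ) ^ t) ^ (-r) = (4 : ℝ) ^ r * (2 : ℝ) ^ (-(r * ((t + 2 : ℕ) : ℝ))) := by
        rw [h4, ← Real.rpow_add (by norm_num), ← Real.rpow_natCast, ← Real.rpow_mul (by norm_num)]
        congr 1
        push_cast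
        ring
      have e3 : (2 * (2 : ℝ) ^ t)⁻¹ * (3 + 2 * r) * ((2 : ℝ) ^ t) ^ (-r) =
          (6 + 4 * r) * (4 : ℝ) ^ r * (2 : ℝ) ^ (-(r * ((t + 2 : ℕ) : ℝ))) *
            ((2 : ℝ) ^ (t + 2))⁻¹ := by
        rw [e2, pow_add]
        field_simp
        ring
      rw [← e3]
      rcases lt_trichotomy k 0 with hk | hk | hk
      · rcases (by omega : k = -1 ∨ k < -1) with rfl | hk'
        · have z1 : eta (t + 2) (-1) = 0 := eta_zero_small t (-1) (by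
            simpa using (one_le_pow₀ (by norm_num) : (1 : ℤ) ≤ 2 ^ t))
          have z2 : eta (t + 2) 0 = 0 := eta_zero_small t 0 (by simp)
          rw [show (-1 : ℤ) + 1 = 0 by norm_num, z1, z2]
          simp only [Complex.ofReal_zero, zero_mul, sub_self, norm_zero]
          positivity
        · have h5 := diff_pos hr t (-k - 1) (by omega)
          have h6 : -k - 1 + 1 = -k := by ring
          have h7 : -k - 1 = -(k + 1) := by ring
          rw [h6, h7, mfun_neg, mfun_neg, ← map_sub, RCLike.norm_conj, norm_sub_rev] at h5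
          exact h5
      · subst hk
        have z1 : eta (t + 2) 1 = 0 := eta_zero_small t 1 (by
          simpa using (one_le_pow₀ (by norm_num) : (1 : ℤ) ≤ 2 ^ t))
        have z2 : eta (t + 2) 0 = 0 := eta_zero_small t 0 (by simp)
        rw [zero_add, z1, z2]
        simp only [Complex.ofReal_zero, zero_mul, sub_self, norm_zero]
        positivity
      · exact diff_pos hr t k hk

end MPcd65c1
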