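import Pool.Agent.Lib.MP_cd65c1_an.Defs2
import Pool.Agent.Lib.MP_cd65c1_an.ACount
import Pool.Agent.Lib.MP_cd65c1_an.ALam

/-!
# MP_cd65c1_an / UEta : the smooth partition (about 170 lines)

* `vp_mem`: `0 ≤ vp s k ≤ 1`; `vp s k = 1` if `size |k| < s` or `s = size |k| = 0`
  (`s ≥ 1`, `|k| ≤ 2^(s-1)`), `vp s k = 0` if `s < size |k|` (`|k| ≥ 2^s`), `vp` is nondecreasing in `s`
  (it is `1` for `s > size |k|`, `0` for `s < size |k|`).
* `eta_nonneg`, `eta_supp`: `eta s k ≠ 0 → size |k| ≤ s ∧ s ≤ size |k| + 1`; `sum_eta`: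
  `Σ_{s ≤ S} eta s k = vp S k` (telescoping), `= 1` for `S > size |k|`.
* `etad`: if a product is nonzero then `lev k ≤ Σ s_j = l ≤ lev k + d`, so `etad l k = 0` unless
  `k ∈ LL d l`; `etad_nonneg`; `Σ_l etad l k = ∏_j Σ_s eta s (k j) = 1`: for
  `N = lev k + d`: `Σ_{l ≤ N} etad l k = Σ over all s with s_j ≤ size|k_j|+1 of ∏ eta = 1` (all other products
  vanish; `Finset.prod_univ_sum`).  Hence `0 ≤ etad ≤ 1`.
* `al`: bound with `lamr_upper` and `lev k ≥ l - d` on `LL`: `‖al‖ ≤ 2^(rd) 2^(-r lev k) ≤ 2^(2rd) 2^(-rl)`.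
-/

namespace MPcd65c1

private theorem UEta_abs_lt (k : ℤ) {s : ℕ} (h : Nat.size k.natAbs ≤ s) :
    |(k : ℝ)| < (2 : ℝ) ^ s := by
  have h1 : k.natAbs < 2 ^ s := Nat.size_le.1 h
  have h2 : ((k.natAbs : ℕ) : ℝ) < ((2 ^ s : ℕ) : ℝ) := by exact_mod_cast h1
  rw [Nat.cast_natAbs] at h2
  push_cast at h2
  exact h2

private theorem UEta_le_abs (k : ℤ) {s : ℕ} (h : s < Nat.size k.natAbs) :
    (2 : ℝ) ^ s ≤ |(k : ℝ)| := by
  have h1 : 2 ^ s ≤ k.natAbs := Nat.lt_size.1 h
  have h2 : ((2 ^ s : ℕ) : ℝ) ≤ ((k.natAbs : ℕ) : ℝ) := by exact_mod_cast h1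
  rw [Nat.cast_natAbs] at h2
  push_cast at h2
  exact h2

private theorem UEta_vp_nonneg (s : ℕ) (k : ℤ) : 0 ≤ vp s k := by
  unfold vp
  split_ifs
  · exact zero_le_one
  · exact le_rfl
  · exact le_max_left _ _

private theorem UEta_vp_le (s : ℕ) (k : ℤ) : vp s k ≤ 1 := by
  unfold vp
  split_ifs
  · exact le_rfl
  · exact zero_le_one
  · exact max_le zero_le_one (min_le_left _ _)

private theorem UEta_vp_one {s : ℕ} {k : ℤ} (h : Nat.size k.natAbs < s) : vp s k = 1 := by
  have hs : s ≠ 0 := by omega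
  unfold vp
  rw [if_neg hs]
  have h1 : |(k : ℝ)| < (2 : ℝ) ^ (s - 1) := UEta_abs_lt k (by omega)
  have h2 : |(k : ℝ)| / (2 : ℝ) ^ (s - 1) ≤ 1 := (div_le_one (by positivity)).2 h1.le
  rw [min_eq_left (by linarith), max_eq_right zero_le_one]

private theorem UEta_vp_zero {s : ℕ} {k : ℤ} (h : s < Nat.size k.natAbs) : vp s k = 0 := by
  unfold vp
  have h1 := UEta_le_abs k h
  by_cases hs : s = 0
  · rw [if_pos hs, if_neg]
    intro hk
    subst hk
    simp at h
  · rw [if_neg hs]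
    have h3 : (2 : ℝ) ^ s = 2 * (2 : ℝ) ^ (s - 1) := by
      rw [← pow_succ']
      congr 1
      omega
    have h2 : 2 ≤ |(k : ℝ)| / (2 : ℝ) ^ (s - 1) := by
      rw [le_div_iff₀ (by positivity), ← h3]
      exact h1
    exact max_eq_left ((min_le_right _ _).trans (by linarith))

theorem eta_nonneg (s : ℕ) (k : ℤ) : 0 ≤ eta s k := by
  unfold eta
  split_ifs with hs
  · exact UEta_vp_nonneg 0 k
  · rcases lt_or_ge (s - 1) (Nat.size k.natAbs) with h | h
    · rw [UEta_vp_zero h, sub_zero]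
      exact UEta_vp_nonneg s k
    · rw [UEta_vp_one (s := s) (by omega)]
      linarith [UEta_vp_le (s - 1) k]

theorem eta_supp (s : ℕ) (k : ℤ) (h : eta s k ≠ 0) :
    Nat.size k.natAbs ≤ s ∧ s ≤ Nat.size k.natAbs + 1 := by
  constructor
  · by_contra hlt
    push Not at hlt
    apply h
    unfold eta
    split_ifs with hs
    · subst hs
      exact UEta_vp_zero hlt
    · rw [UEta_vp_zero hlt, UEta_vp_zero (s := s - 1) (by omega), sub_zero]
  · by_contra hlt
    push Not at hlt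
    apply h
    unfold eta
    rw [if_neg (by omega), UEta_vp_one (s := s) (by omega), UEta_vp_one (s := s - 1) (by omega),
      sub_self]

private theorem UEta_sum_eta (k : ℤ) (S : ℕ) : ∑ s ∈ Finset.range (S + 1), eta s k = vp S k := by
  induction S with
  | zero => simp [eta]
  | succ S ih =>
    rw [Finset.sum_range_succ, ih]
    unfold eta
    rw [if_neg (by omega), Nat.add_sub_cancel]
    ring

theorem etad_nonneg {d : ℕ} (l : ℕ) (k : Fin d → ℤ) : 0 ≤ etad l k :=
  Finset.sum_nonneg fun s _ => Finset.prod_nonneg fun j _ => eta_nonneg (s j) (k j)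

theorem etad_supp {d : ℕ} (l : ℕ) (k : Fin d → ℤ) (h : k ∉ LL d l) : etad l k = 0 := by
  refine Finset.sum_eq_zero fun s hs => ?_
  rw [Finset.Nat.mem_antidiagonalTuple] at hs
  by_contra hne
  apply h
  have hne' := Finset.prod_ne_zero_iff.1 hne
  have h1 : ∀ j, Nat.size (k j).natAbs ≤ s j ∧ s j ≤ Nat.size (k j).natAbs + 1 :=
    fun j => eta_supp _ _ (hne' j (Finset.mem_univ j))
  rw [mem_LL]
  constructor
  · rw [← hs]
    exact Finset.sum_le_sum fun j _ => (h1 j).1
  · rw [← hs]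
    calc ∑ j, s j ≤ ∑ j : Fin d, (Nat.size (k j).natAbs + 1) :=
          Finset.sum_le_sum fun j _ => (h1 j).2
      _ = lev k + d := by
          rw [Finset.sum_add_distrib]
          simp [lev]

theorem sum_etad {d : ℕ} (k : Fin d → ℤ) (N : ℕ) (hN : lev k + d ≤ N) :
    ∑ l ∈ Finset.range (N + 1), etad l k = 1 := by
  classical
  have h1 : ∑ l ∈ Finset.range (N + 1), etad l k =
      ∑ s ∈ (Finset.range (N + 1)).biUnion (fun l => Finset.Nat.antidiagonalTuple d l),
        ∏ j, eta (s j) (k j) := by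
    rw [Finset.sum_biUnion]
    · rfl
    · intro a _ b _ hab
      rw [Function.onFun, Finset.disjoint_left]
      intro s hs hs'
      rw [Finset.Nat.mem_antidiagonalTuple] at hs hs'
      exact hab (hs.symm.trans hs')
  have h2 : ∑ s ∈ Fintype.piFinset (fun j => Finset.range (Nat.size (k j).natAbs + 1 + 1)),
      ∏ j, eta (s j) (k j) =
      ∑ s ∈ (Finset.range (N + 1)).biUnion (fun l => Finset.Nat.antidiagonalTuple d l),
        ∏ j, eta (s j) (k j) := by
    apply Finset.sum_subset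
    · intro s hs
      rw [Fintype.mem_piFinset] at hs
      rw [Finset.mem_biUnion]
      refine ⟨∑ j, s j, ?_, Finset.Nat.mem_antidiagonalTuple.2 rfl⟩
      rw [Finset.mem_range, Nat.lt_succ_iff]
      calc ∑ j, s j ≤ ∑ j : Fin d, (Nat.size (k j).natAbs + 1) :=
            Finset.sum_le_sum fun j _ => by
              have := hs j
              rw [Finset.mem_range] at this
              omega
        _ = lev k + d := by
            rw [Finset.sum_add_distrib]
            simp [lev]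
        _ ≤ N := hN
    · intro s _ hs
      rw [Fintype.mem_piFinset] at hs
      push Not at hs
      obtain ⟨j, hj⟩ := hs
      refine Finset.prod_eq_zero (Finset.mem_univ j) ?_
      by_contra hne
      have := (eta_supp _ _ hne).2
      rw [Finset.mem_range] at hj
      omega
  rw [h1, ← h2, ← Finset.prod_univ_sum (fun j => Finset.range (Nat.size (k j).natAbs + 1 + 1))
    (fun j s => eta s (k j))]
  refine Finset.prod_eq_one fun j _ => ?_
  rw [UEta_sum_eta]
  exact UEta_vp_one (Nat.lt_succ_self _)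

theorem sum_etad_le {d : ℕ} (k : Fin d → ℤ) (S : Finset ℕ) : ∑ l ∈ S, etad l k ≤ 1 := by
  set N : ℕ := max (S.sup id) (lev k + d) with hN
  rw [← sum_etad k N (le_max_right _ _)]
  refine Finset.sum_le_sum_of_subset_of_nonneg (fun l hl => ?_) fun l _ _ => etad_nonneg l k
  rw [Finset.mem_range, Nat.lt_succ_iff]
  exact (Finset.le_sup (f := id) hl).trans (le_max_left _ _)

private theorem UEta_etad_le {d : ℕ} (l : ℕ) (k : Fin d → ℤ) : etad l k ≤ 1 := by
  have := sum_etad_le k {l}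
  rwa [Finset.sum_singleton] at this

theorem alm_supp {d : ℕ} (r : ℝ) (l : ℕ) (k : Fin d → ℤ) (h : k ∉ LL d l) : alm r l k = 0 := by
  unfold alm
  rw [etad_supp l k h, Complex.ofReal_zero, mul_zero]

theorem norm_alm_le {d : ℕ} {r : ℝ} (hr : 0 ≤ r) (l : ℕ) (k : Fin d → ℤ) :
    ‖alm r l k‖ ≤ (2 : ℝ) ^ (2 * r * d) * (2 : ℝ) ^ (-(r * l)) := by
  by_cases hk : k ∈ LL d l
  · rw [mem_LL] at hk
    unfold alm
    rw [norm_mul, Complex.norm_real, Real.norm_eq_abs, abs_of_nonneg (etad_nonneg l k)]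
    have h1 : ‖lamr r k‖ * etad l k ≤ ‖lamr r k‖ * 1 :=
      mul_le_mul_of_nonneg_left (UEta_etad_le l k) (norm_nonneg _)
    have h2 := lamr_upper hr k
    have h3 : (2 : ℝ) ^ (r * d) * (2 : ℝ) ^ (-(r * lev k)) ≤
        (2 : ℝ) ^ (2 * r * d) * (2 : ℝ) ^ (-(r * l)) := by
      rw [← Real.rpow_add (by norm_num : (0 : ℝ) < 2), ← Real.rpow_add (by norm_num : (0 : ℝ) < 2)]
      apply Real.rpow_le_rpow_of_exponent_le (by norm_num : (1 : ℝ) ≤ 2)
      have h4 : (l : ℝ) ≤ lev k + d := by exact_mod_cast hk.2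
      nlinarith [mul_le_mul_of_nonneg_left h4 hr]
    linarith
  · rw [alm_supp r l k hk, norm_zero]
    positivity

theorem norm_amid_le {d : ℕ} (r : ℝ) (l0 l1 : ℕ) (k : Fin d → ℤ) :
    ‖amid r l0 l1 k‖ ≤ ‖lamr r k‖ := by
  unfold amid alm
  rw [← Finset.mul_sum, norm_mul, ← Complex.ofReal_sum, Complex.norm_real, Real.norm_eq_abs,
    abs_of_nonneg (Finset.sum_nonneg fun l _ => etad_nonneg l k)]
  have h1 := mul_le_mul_of_nonneg_left (sum_etad_le k (Finset.Ico l0 l1)) (norm_nonneg (lamr r k))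
  linarith

theorem hasSum_alm {d : ℕ} (r : ℝ) (k : Fin d → ℤ) : HasSum (fun l => alm r l k) (lamr r k) := by
  have h1 : ∑ l ∈ Finset.range (lev k + d + 1), alm r l k = lamr r k := by
    unfold alm
    rw [← Finset.mul_sum, ← Complex.ofReal_sum, sum_etad k _ le_rfl, Complex.ofReal_one, mul_one]
  rw [← h1]
  apply hasSum_sum_of_ne_finset_zero
  intro l hl
  apply alm_supp
  rw [mem_LL]
  rw [Finset.mem_range] at hl
  omega

end MPcd65c1
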