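import Pool.Agent.Lib.MP_cd65c1_an.JOne
import Pool.Agent.Lib.MP_cd65c1_an.UEta
import Pool.Agent.Lib.MP_cd65c1_an.APars
import Pool.Agent.Lib.MP_cd65c1_an.ANrm

/-!
# MP_cd65c1_an / JTwo : `L_1` norm of the level kernels, trivial operator bounds (about 170 lines)

(J2) The level kernel `K_l(x) = tp (LL d l) (alm r l) x` equals `Σ_{|s|=l} ∏_j b_{s_j}(x_j)` with
`b_s(t) = Σ_k eta s k bern r k e_k(t)` (the sum over `|k| < 2^(s+1)`; expand the product, frequencies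
outside `LL` have coefficient `0`, `alm_supp`).  `∫ ‖∏ b_{s_j}(x_j)‖ = ∏ ∫ ‖b_{s_j}‖ ≤ C^d 2^(-rl)`
(`integral_fintype_prod_eq_prod`, `J1_eta`), and there are `≤ (l+1)^(d-1)` terms:
`∫ ‖K_l‖ ≤ C 2^(-rl) (l+1)^(d-1)`.

CONVOLUTION: `tp L (a * cf φ) x = ∫ K(x-y) φ(y) dy` with `K = tp L a` (`cf φ k = ∫ e_{-k}(y) φ(y)`,
`e_k(x) e_{-k}(y) = e_k(x-y)`).  Hence `‖tp L (a*cf φ) x‖ ≤ (∫ ‖K‖) nrm ∞ φ` and, by Fubini,
`∫ ‖tp L (a*cf φ)‖ ≤ (∫ ‖K‖) ∫ ‖φ‖`.
-/

namespace MPcd65c1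

open MeasureTheory
open scoped ENNReal

/-- the one-dimensional block -/
noncomputable def bb (r : ℝ) (s : ℕ) (t : UnitAddCircle) : ℂ :=
  ∑ k ∈ Finset.Ioo (-(2 : ℤ) ^ (s + 1)) ((2 : ℤ) ^ (s + 1)),
      ((eta s k : ℝ) : ℂ) * bern r k * (fourier k t : ℂ)

theorem bb_continuous (r : ℝ) (s : ℕ) : Continuous (bb r s) :=
  continuous_finsetSum _ (fun k _ => continuous_const.mul (map_continuous (fourier k)))

/-- the block as a sum over a larger interval -/
theorem bb_eq (r : ℝ) {s l : ℕ} (h : s ≤ l) (t : UnitAddCircle) :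
    bb r s t = ∑ k ∈ Finset.Ioo (-(2 : ℤ) ^ (l + 1)) ((2 : ℤ) ^ (l + 1)),
      ((eta s k : ℝ) : ℂ) * bern r k * (fourier k t : ℂ) := by
  have h1 : (2 : ℤ) ^ (s + 1) ≤ (2 : ℤ) ^ (l + 1) :=
    pow_le_pow_right₀ (by norm_num) (by omega)
  have h2 : (2 : ℤ) ^ s ≤ (2 : ℤ) ^ (s + 1) := pow_le_pow_right₀ (by norm_num) (by omega)
  unfold bb
  refine Finset.sum_subset (fun k hk => ?_) (fun k _ hk' => ?_)
  · rw [Finset.mem_Ioo] at hk ⊢; omega
  · rw [Finset.mem_Ioo] at hk'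
    rw [eta_zero_of_le s k (by rw [le_abs]; omega)]
    simp

theorem adt_le {d l : ℕ} {s : Fin d → ℕ} (hs : s ∈ Finset.Nat.antidiagonalTuple d l) (j : Fin d) :
    s j ≤ l := by
  rw [Finset.Nat.mem_antidiagonalTuple] at hs
  rw [← hs]
  exact Finset.single_le_sum (f := s) (fun i _ => Nat.zero_le _) (Finset.mem_univ j)

theorem alm_kernel_eq {d : ℕ} (r : ℝ) (l : ℕ) (x : Td d) :
    tp (LL d l) (alm r l) x =
      ∑ s ∈ Finset.Nat.antidiagonalTuple d l, ∏ j, bb r (s j) (x j) := by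
  rw [tp_apply]
  have h1 : ∑ k ∈ LL d l, alm r l k * (UnitAddTorus.mFourier k x : ℂ) =
      ∑ k ∈ Fintype.piFinset (fun _ : Fin d => Finset.Ioo (-(2 : ℤ) ^ (l + 1)) ((2 : ℤ) ^ (l + 1))),
        alm r l k * (UnitAddTorus.mFourier k x : ℂ) := by
    refine Finset.sum_subset (fun k hk => ?_) (fun k _ hk' => ?_)
    · rw [Fintype.mem_piFinset]
      intro j
      have h2 := abs_le_of_mem_LL d l k hk j
      rw [Finset.mem_Ioo]
      rw [abs_le] at h2
      have h3 : (2 : ℤ) ^ l < (2 : ℤ) ^ (l + 1) :=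
        pow_lt_pow_right₀ (by norm_num) (by omega)
      constructor
      · linarith [h2.1]
      · linarith [h2.2]
    · rw [alm_supp r l k hk', zero_mul]
  rw [h1]
  have h2 : ∀ k : Fin d → ℤ, alm r l k * (UnitAddTorus.mFourier k x : ℂ) =
      ∑ s ∈ Finset.Nat.antidiagonalTuple d l,
        ∏ j, (((eta (s j) (k j) : ℝ) : ℂ) * bern r (k j) * (fourier (k j) (x j) : ℂ)) := by
    intro k
    have h3 : (UnitAddTorus.mFourier k x : ℂ) = ∏ j, (fourier (k j) (x j) : ℂ) := rfl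
    unfold alm lamr etad
    rw [h3]
    push_cast
    rw [Finset.mul_sum, Finset.sum_mul]
    refine Finset.sum_congr rfl (fun s _ => ?_)
    rw [← Finset.prod_mul_distrib, ← Finset.prod_mul_distrib]
    exact Finset.prod_congr rfl (fun j _ => by ring)
  simp_rw [h2]
  rw [Finset.sum_comm]
  refine Finset.sum_congr rfl (fun s hs => ?_)
  rw [← Finset.prod_univ_sum (fun _ : Fin d =>
    Finset.Ioo (-(2 : ℤ) ^ (l + 1)) ((2 : ℤ) ^ (l + 1)))
    (fun j k => ((eta (s j) k : ℝ) : ℂ) * bern r k * (fourier k (x j) : ℂ))]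
  exact Finset.prod_congr rfl (fun j _ => (bb_eq r (adt_le hs j) (x j)).symm)

theorem contInt {d : ℕ} {f : Td d → ℝ} (hf : Continuous f) : Integrable f (mu d) :=
  hf.integrable_of_hasCompactSupport (HasCompactSupport.of_compactSpace _)

theorem alm_kernel (d : ℕ) (hd : 1 ≤ d) (r : ℝ) (hr : 0 < r) : ∃ C : ℝ, 0 < C ∧ ∀ l : ℕ,
    ∫ x, ‖tp (LL d l) (alm r l) x‖ ∂(mu d) ≤
      C * (2 : ℝ) ^ (-(r * l)) * ((l : ℝ) + 1) ^ (d - 1) := by
  obtain ⟨C, hC, hJ⟩ := J1_eta r hr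
  refine ⟨C ^ d, by positivity, fun l => ?_⟩
  have hcont : ∀ s : Fin d → ℕ, Continuous (fun x : Td d => ∏ j, ‖bb r (s j) (x j)‖) := by
    intro s
    exact continuous_finsetProd _ (fun j _ => ((bb_continuous r (s j)).comp
      (continuous_apply j)).norm)
  have h1 : ∀ s ∈ Finset.Nat.antidiagonalTuple d l,
      ∫ x : Td d, ∏ j, ‖bb r (s j) (x j)‖ ∂(mu d) ≤ C ^ d * (2 : ℝ) ^ (-(r * l)) := by
    intro s hs
    rw [MeasureTheory.integral_fintype_prod_eq_prod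
      (f := fun j (t : UnitAddCircle) => ‖bb r (s j) t‖)]
    calc ∏ j, ∫ t, ‖bb r (s j) t‖ ∂(AddCircle.haarAddCircle : Measure UnitAddCircle)
        ≤ ∏ j : Fin d, (C * (2 : ℝ) ^ (-(r * (s j : ℝ)))) :=
          Finset.prod_le_prod (fun j _ => integral_nonneg (fun t => norm_nonneg _))
            (fun j _ => hJ (s j))
      _ = C ^ d * (2 : ℝ) ^ (-(r * l)) := by
          rw [Finset.prod_mul_distrib, Finset.prod_const, Finset.card_univ, Fintype.card_fin,
            ← Real.rpow_sum_of_pos (by norm_num : (0 : ℝ) < 2)]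
          congr 2
          rw [Finset.Nat.mem_antidiagonalTuple] at hs
          rw [Finset.sum_neg_distrib, ← Finset.mul_sum, ← Nat.cast_sum, hs]
  calc ∫ x, ‖tp (LL d l) (alm r l) x‖ ∂(mu d)
      ≤ ∫ x : Td d, ∑ s ∈ Finset.Nat.antidiagonalTuple d l, ∏ j, ‖bb r (s j) (x j)‖ ∂(mu d) := by
        refine integral_mono (contInt (map_continuous (tp (LL d l) (alm r l))).norm)
          (contInt (continuous_finsetSum _ (fun s _ => hcont s))) (fun x => ?_)
        simp only []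
        rw [alm_kernel_eq]
        refine (norm_sum_le _ _).trans (le_of_eq ?_)
        exact Finset.sum_congr rfl (fun s _ => norm_prod _ _)
    _ = ∑ s ∈ Finset.Nat.antidiagonalTuple d l, ∫ x : Td d, ∏ j, ‖bb r (s j) (x j)‖ ∂(mu d) :=
        integral_finsetSum _ (fun s _ => contInt (hcont s))
    _ ≤ ∑ _s ∈ Finset.Nat.antidiagonalTuple d l, C ^ d * (2 : ℝ) ^ (-(r * l)) :=
        Finset.sum_le_sum h1
    _ = ((Finset.Nat.antidiagonalTuple d l).card : ℝ) * (C ^ d * (2 : ℝ) ^ (-(r * l))) := by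
        rw [Finset.sum_const, nsmul_eq_mul]
    _ ≤ ((l : ℝ) + 1) ^ (d - 1) * (C ^ d * (2 : ℝ) ^ (-(r * l))) := by
        refine mul_le_mul_of_nonneg_right ?_ (by positivity)
        exact_mod_cast card_adt_le d l hd
    _ = _ := by ring

/-- the operator as a convolution -/
theorem tp_mul_cf {d : ℕ} (L : Finset (Fin d → ℤ)) (a : CV d) {φ : Td d → ℂ}
    (hφ : Integrable φ (mu d)) (x : Td d) :
    tp L (fun k => a k * cf φ k) x = ∫ y, tp L a (x - y) * φ y ∂(mu d) := by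
  rw [tp_apply]
  have h1 : ∀ y : Td d, tp L a (x - y) * φ y =
      ∑ k ∈ L, (a k * (UnitAddTorus.mFourier k x : ℂ)) *
        ((UnitAddTorus.mFourier (-k) y : ℂ) * φ y) := by
    intro y
    rw [tp_apply, Finset.sum_mul]
    refine Finset.sum_congr rfl (fun k _ => ?_)
    rw [sub_eq_add_neg, mF_add_arg, mF_neg_arg]
    ring
  simp_rw [h1]
  have h2 : ∀ k : Fin d → ℤ, Integrable (fun y => (UnitAddTorus.mFourier (-k) y : ℂ) * φ y)
      (mu d) := by
    intro k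
    refine hφ.bdd_mul (c := 1) (map_continuous (UnitAddTorus.mFourier (-k))).aestronglyMeasurable ?_
    filter_upwards with y
    rw [norm_mF]
  rw [integral_finsetSum _ (fun k _ => (h2 k).const_mul _)]
  refine Finset.sum_congr rfl (fun k _ => ?_)
  rw [integral_const_mul]
  unfold cf
  ring

theorem int_translate_neg {d : ℕ} (f : Td d → ℝ) (x : Td d) :
    ∫ y, f (x - y) ∂(mu d) = ∫ y, f y ∂(mu d) := by
  have h1 : ∫ y, f (x - y) ∂(mu d) = ∫ y, (fun z => f (-z)) (y - x) ∂(mu d) := by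
    congr 1
    ext y
    simp
  rw [h1, integral_sub_right_eq_self (fun z => f (-z)) x, integral_neg_eq_self]

theorem conv_infty {d : ℕ} (L : Finset (Fin d → ℤ)) (a : CV d) {φ : Td d → ℂ}
    (hφ : MemLp φ ∞ (mu d)) :
    nrm ∞ (tp L (fun k => a k * cf φ k)) ≤ (∫ x, ‖tp L a x‖ ∂(mu d)) * nrm ∞ φ := by
  have hint : Integrable φ (mu d) := hφ.integrable le_top
  have h0 : 0 ≤ (∫ x, ‖tp L a x‖ ∂(mu d)) * nrm ∞ φ :=
    mul_nonneg (integral_nonneg (fun x => norm_nonneg _)) (nrm_nonneg _ _)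
  refine nrm_le_of_bound ∞ h0 (fun x => ?_)
  have hae : ∀ᵐ y ∂(mu d), ‖φ y‖ ≤ nrm ∞ φ := by
    have h1 := ae_le_eLpNormEssSup (f := φ) (μ := mu d)
    filter_upwards [h1] with y hy
    unfold nrm
    rw [eLpNorm_exponent_top]
    have h2 : eLpNormEssSup φ (mu d) ≠ ∞ := by
      have := hφ.2
      rw [eLpNorm_exponent_top] at this
      exact this.ne
    rw [← toReal_enorm]
    exact ENNReal.toReal_mono h2 hy
  have hc : Continuous (fun y : Td d => tp L a (x - y)) :=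
    (map_continuous (tp L a)).comp (continuous_const.sub continuous_id)
  rw [tp_mul_cf L a hint x]
  calc ‖∫ y, tp L a (x - y) * φ y ∂(mu d)‖ ≤ ∫ y, ‖tp L a (x - y)‖ * nrm ∞ φ ∂(mu d) := by
        refine norm_integral_le_of_norm_le ((contInt hc.norm).mul_const _) ?_
        filter_upwards [hae] with y hy
        rw [norm_mul]
        exact mul_le_mul_of_nonneg_left hy (norm_nonneg _)
    _ = _ := by rw [integral_mul_const, int_translate_neg (fun z => ‖tp L a z‖) x]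

theorem conv_one {d : ℕ} (L : Finset (Fin d → ℤ)) (a : CV d) {φ : Td d → ℂ}
    (hφ : MemLp φ 1 (mu d)) :
    nrm 1 (tp L (fun k => a k * cf φ k)) ≤ (∫ x, ‖tp L a x‖ ∂(mu d)) * nrm 1 φ := by
  have hint : Integrable φ (mu d) := memLp_one_iff_integrable.1 hφ
  rw [nrm_one_eq _ (map_continuous (tp L _)).aestronglyMeasurable,
    nrm_one_eq φ hφ.1]
  have hc2 : Continuous (fun q : Td d × Td d => ‖tp L a (q.1 - q.2)‖) :=
    ((map_continuous (tp L a)).comp (continuous_fst.sub continuous_snd)).norm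
  have hprod : Integrable (fun q : Td d × Td d => ‖tp L a (q.1 - q.2)‖ * ‖φ q.2‖)
      ((mu d).prod (mu d)) := by
    obtain ⟨B, hB⟩ := (isCompact_range hc2).isBounded.exists_norm_le
    refine (hint.norm.comp_snd (mu d)).bdd_mul (c := B) hc2.aestronglyMeasurable ?_
    filter_upwards with q
    exact hB _ ⟨q, rfl⟩
  have h1 : ∀ x, ‖tp L (fun k => a k * cf φ k) x‖ ≤
      ∫ y, ‖tp L a (x - y)‖ * ‖φ y‖ ∂(mu d) := by
    intro x
    rw [tp_mul_cf L a hint x]
    refine (norm_integral_le_integral_norm _).trans (le_of_eq ?_)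
    congr 1
    ext y
    rw [norm_mul]
  calc ∫ x, ‖tp L (fun k => a k * cf φ k) x‖ ∂(mu d)
      ≤ ∫ x, ∫ y, ‖tp L a (x - y)‖ * ‖φ y‖ ∂(mu d) ∂(mu d) :=
        integral_mono (contInt (map_continuous (tp L _)).norm) hprod.integral_prod_left h1
    _ = ∫ y, ∫ x, ‖tp L a (x - y)‖ * ‖φ y‖ ∂(mu d) ∂(mu d) :=
        integral_integral_swap hprod
    _ = ∫ y, (∫ x, ‖tp L a x‖ ∂(mu d)) * ‖φ y‖ ∂(mu d) := by
        congr 1
        ext y
        rw [integral_mul_const, integral_sub_right_eq_self (fun z => ‖tp L a z‖) y]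
    _ = _ := by rw [integral_const_mul]

end MPcd65c1
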