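import Pool.Agent.Lib.MP_cd65c1_an.ACount

/-!
# MP_cd65c1_an / KCell : dyadic cells of the torus (about 180 lines)

`de x` is the dyadic exponent of `x ≠ 0`: `2^(-de x - 1) < ‖x‖ ≤ 2^(-de x)`
(`1/‖x‖ ≥ 2`, `⌊1/‖x‖⌋₊ ∈ [2^a, 2^(a+1))` iff `1/‖x‖ ∈ [2^a, 2^(a+1))`, `Nat.log`).

* `qb_le`: `qb s x = min (2^s) (1/‖x‖)` and `1/‖x‖ < 2^(a+1)`, so `qb s x ≤ 2 * 2^(min s a)`.
* `measure_de`: `{x ≠ 0, de x = a} ⊆ closedBall 0 (2^(-a))`, whose Haar measure is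
  `min 1 (2 * 2^(-a))` (`AddCircle.volume_closedBall`; relation `volume = ofReal 1 • haarAddCircle`,
  `AddCircle.volume_eq_smul_haarAddCircle`).
* `lintegral_cell`: the set where some coordinate vanishes is `mu`-null (points have measure zero).
  Partition the rest into the countably many cells `{x : ∀ j, x j ≠ 0 ∧ de (x j) = a j}`, `a : Fin d → ℕ`,
  measure `≤ ∏ 2 * 2^(-a j)` (`Measure.pi_pi`); `∫⁻ f ≤ Σ_a 2^d 2^(-|a|) Ψ(|a|)`; group the `a` with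
  `|a| = w`: there are `#antidiagonalTuple d w ≤ (w+1)^(d-1)` of them (`card_adt_le`)
  (`tsum` over the fibres of `a ↦ Σ a`, e.g. `ENNReal.tsum_fiberwise`/`tsum_sigma`).
* `integral_cell`: real version: `∫ f ≤ 2^d Σ'`, from `integral_eq_lintegral_of_nonneg_ae` and
  `ENNReal.ofReal_tsum_of_nonneg`.
-/

namespace MPcd65c1

open MeasureTheory
open scoped ENNReal

/-- dyadic exponent -/
noncomputable def de (x : UnitAddCircle) : ℕ := Nat.log 2 ⌊1 / ‖x‖⌋₊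

/-- sum of the dyadic exponents -/
noncomputable def wx {d : ℕ} (x : Td d) : ℕ := ∑ j, de (x j)

theorem qb_le_pow (s : ℕ) (x : UnitAddCircle) : qb s x ≤ (2 : ℝ) ^ s := by
  unfold qb
  have h1 : (1 : ℝ) ≤ max 1 ((2 : ℝ) ^ s * ‖x‖) := le_max_left _ _
  exact div_le_self (by positivity) h1

theorem qb_nonneg (s : ℕ) (x : UnitAddCircle) : 0 ≤ qb s x := by
  unfold qb
  have h1 : (1 : ℝ) ≤ max 1 ((2 : ℝ) ^ s * ‖x‖) := le_max_left _ _
  positivity

private theorem norm_half (x : UnitAddCircle) : ‖x‖ ≤ 1 / 2 := by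
  have h := AddCircle.norm_le_half_period (p := (1 : ℝ)) (x := x) one_ne_zero
  simpa using h

private theorem floor_ne (x : UnitAddCircle) (hx : x ≠ 0) : ⌊1 / ‖x‖⌋₊ ≠ 0 := by
  have h0 : 0 < ‖x‖ := norm_pos_iff.mpr hx
  have h1 := norm_half x
  have h2 : (2 : ℝ) ≤ 1 / ‖x‖ := by
    rw [le_div_iff₀ h0]; linarith
  have h3 : 2 ≤ ⌊1 / ‖x‖⌋₊ := Nat.le_floor (by exact_mod_cast h2)
  omega

private theorem one_div_lt (x : UnitAddCircle) :
    1 / ‖x‖ < (2 : ℝ) ^ (de x + 1) := by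
  have h1 : ⌊1 / ‖x‖⌋₊ < 2 ^ (de x + 1) := Nat.lt_pow_succ_log_self (by norm_num) _
  have h2 : 1 / ‖x‖ < (⌊1 / ‖x‖⌋₊ : ℝ) + 1 := Nat.lt_floor_add_one _
  have h3 : ((⌊1 / ‖x‖⌋₊ + 1 : ℕ) : ℝ) ≤ ((2 ^ (de x + 1) : ℕ) : ℝ) := by
    exact_mod_cast h1
  push_cast at h3
  linarith

private theorem pow_le_one_div (x : UnitAddCircle) (hx : x ≠ 0) :
    (2 : ℝ) ^ (de x) ≤ 1 / ‖x‖ := by
  have h1 : 2 ^ (de x) ≤ ⌊1 / ‖x‖⌋₊ := Nat.pow_log_le_self 2 (floor_ne x hx)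
  have h2 : (⌊1 / ‖x‖⌋₊ : ℝ) ≤ 1 / ‖x‖ := Nat.floor_le (by positivity)
  have h3 : ((2 ^ (de x) : ℕ) : ℝ) ≤ (⌊1 / ‖x‖⌋₊ : ℝ) := by exact_mod_cast h1
  push_cast at h3
  linarith

theorem qb_le (s : ℕ) (x : UnitAddCircle) (hx : x ≠ 0) :
    qb s x ≤ 2 * (2 : ℝ) ^ (min s (de x)) := by
  rcases le_total s (de x) with h | h
  · rw [min_eq_left h]
    have := qb_le_pow s x
    have h2 : (0 : ℝ) ≤ (2 : ℝ) ^ s := by positivity
    linarith
  · rw [min_eq_right h]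
    have h0 : 0 < ‖x‖ := norm_pos_iff.mpr hx
    have h1 : qb s x ≤ 1 / ‖x‖ := by
      unfold qb
      have hp : (0 : ℝ) < (2 : ℝ) ^ s := by positivity
      calc (2 : ℝ) ^ s / max 1 ((2 : ℝ) ^ s * ‖x‖) ≤ (2 : ℝ) ^ s / ((2 : ℝ) ^ s * ‖x‖) :=
            div_le_div_of_nonneg_left hp.le (by positivity) (le_max_right _ _)
        _ = 1 / ‖x‖ := by field_simp
    have h2 := one_div_lt x
    rw [pow_succ] at h2
    linarith

private theorem haar_closedBall (ε : ℝ) :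
    (AddCircle.haarAddCircle : Measure UnitAddCircle) (Metric.closedBall 0 ε) =
      ENNReal.ofReal (min 1 (2 * ε)) := by
  have h1 : (volume : Measure UnitAddCircle) = AddCircle.haarAddCircle := by
    have := AddCircle.volume_eq_smul_haarAddCircle (T := (1 : ℝ))
    rw [ENNReal.ofReal_one, one_smul] at this
    exact this
  rw [← h1]
  exact AddCircle.volume_closedBall (1 : ℝ) ε

theorem measure_de (a : ℕ) :
    (AddCircle.haarAddCircle : Measure UnitAddCircle) {x | x ≠ 0 ∧ de x = a} ≤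
      ENNReal.ofReal (2 * ((2 : ℝ) ^ a)⁻¹) := by
  have hsub : {x : UnitAddCircle | x ≠ 0 ∧ de x = a} ⊆
      Metric.closedBall 0 (((2 : ℝ) ^ a)⁻¹) := by
    rintro x ⟨hx, hd⟩
    rw [Metric.mem_closedBall, dist_zero_right]
    have h0 : 0 < ‖x‖ := norm_pos_iff.mpr hx
    have h1 := pow_le_one_div x hx
    rw [hd] at h1
    rw [le_div_iff₀ h0] at h1
    rw [← one_div, le_div_iff₀ (by positivity)]
    linarith
  refine (measure_mono hsub).trans ?_
  rw [haar_closedBall]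
  exact ENNReal.ofReal_le_ofReal (min_le_right _ _)

private theorem haar_zero :
    (AddCircle.haarAddCircle : Measure UnitAddCircle) {0} = 0 := by
  refine le_antisymm ?_ bot_le
  have h : ∀ a : ℕ, (AddCircle.haarAddCircle : Measure UnitAddCircle) {0} ≤
      ENNReal.ofReal (2 * ((2 : ℝ) ^ a)⁻¹) := by
    intro a
    have hsub : ({0} : Set UnitAddCircle) ⊆ Metric.closedBall 0 (((2 : ℝ) ^ a)⁻¹) := by
      intro x hx
      rw [Set.mem_singleton_iff] at hx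
      subst hx
      rw [Metric.mem_closedBall, dist_self]
      positivity
    refine (measure_mono hsub).trans ?_
    rw [haar_closedBall]
    exact ENNReal.ofReal_le_ofReal (min_le_right _ _)
  have hlim : Filter.Tendsto (fun a : ℕ => ENNReal.ofReal (2 * ((2 : ℝ) ^ a)⁻¹))
      Filter.atTop (nhds 0) := by
    have h1 : Filter.Tendsto (fun a : ℕ => 2 * ((2 : ℝ) ^ a)⁻¹) Filter.atTop (nhds (2 * 0)) := by
      refine Filter.Tendsto.const_mul _ ?_
      have := tendsto_pow_atTop_nhds_zero_of_lt_one (r := (1 / 2 : ℝ)) (by norm_num) (by norm_num)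
      refine this.congr (fun n => ?_)
      rw [one_div, inv_pow]
    have h2 := (ENNReal.continuous_ofReal.tendsto (2 * 0)).comp h1
    rw [mul_zero, ENNReal.ofReal_zero] at h2
    exact h2
  exact ge_of_tendsto' hlim h

private theorem measurable_de : Measurable de := by
  unfold de
  have h1 : Measurable (fun x : UnitAddCircle => ⌊1 / ‖x‖⌋₊) :=
    Nat.measurable_floor.comp (measurable_const.div measurable_norm)
  exact (measurable_from_nat (f := fun n => Nat.log 2 n)).comp h1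

private theorem haar_de (a : ℕ) :
    (AddCircle.haarAddCircle : Measure UnitAddCircle) {x | de x = a} ≤
      2 * ((2 : ℝ≥0∞) ^ a)⁻¹ := by
  have hsub : {x : UnitAddCircle | de x = a} ⊆ {x | x ≠ 0 ∧ de x = a} ∪ {0} := by
    intro x hx
    by_cases h : x = 0
    · right; exact h
    · left; exact ⟨h, hx⟩
  refine (measure_mono hsub).trans ((measure_union_le _ _).trans ?_)
  rw [haar_zero, add_zero]
  refine (measure_de a).trans (le_of_eq ?_)
  rw [ENNReal.ofReal_mul (by norm_num), ENNReal.ofReal_inv_of_pos (by positivity),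
    ENNReal.ofReal_pow (by norm_num)]
  norm_num

private theorem measurable_dev {d : ℕ} :
    Measurable (fun (x : Td d) (j : Fin d) => de (x j)) :=
  measurable_pi_lambda _ (fun j => measurable_de.comp (measurable_pi_apply j))

private theorem mu_cell {d : ℕ} (a : Fin d → ℕ) :
    (mu d) ((fun (x : Td d) (j : Fin d) => de (x j)) ⁻¹' {a}) ≤
      2 ^ d * ((2 : ℝ≥0∞) ^ (∑ j, a j))⁻¹ := by
  have h1 : ((fun (x : Td d) (j : Fin d) => de (x j)) ⁻¹' {a}) =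
      Set.pi Set.univ (fun j => {y : UnitAddCircle | de y = a j}) := by
    ext x
    simp only [Set.mem_preimage, Set.mem_singleton_iff, Set.mem_pi, Set.mem_univ, true_imp_iff,
      Set.mem_ofPred_eq, funext_iff]
  rw [h1, Measure.pi_pi]
  calc ∏ j, (AddCircle.haarAddCircle : Measure UnitAddCircle) {y | de y = a j}
      ≤ ∏ j, (2 * ((2 : ℝ≥0∞) ^ (a j))⁻¹) := Finset.prod_le_prod' (fun j _ => haar_de (a j))
    _ = 2 ^ d * ∏ j, ((2 : ℝ≥0∞) ^ (a j))⁻¹ := by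
        rw [Finset.prod_mul_distrib, Finset.prod_const, Finset.card_univ, Fintype.card_fin]
    _ = 2 ^ d * ((2 : ℝ≥0∞) ^ (∑ j, a j))⁻¹ := by
        congr 1
        simp only [ENNReal.inv_pow]
        rw [Finset.prod_pow_eq_pow_sum]

private theorem tsum_group {d : ℕ} (hd : 1 ≤ d) (F : ℕ → ℝ≥0∞) :
    ∑' a : Fin d → ℕ, F (∑ j, a j) ≤ ∑' w : ℕ, ((w : ℝ≥0∞) + 1) ^ (d - 1) * F w := by
  rw [← ENNReal.tsum_fiberwise (fun a : Fin d → ℕ => F (∑ j, a j)) (fun a => ∑ j, a j)]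
  refine ENNReal.tsum_le_tsum (fun w => ?_)
  have hset : ((fun a : Fin d → ℕ => ∑ j, a j) ⁻¹' {w}) =
      ((Finset.Nat.antidiagonalTuple d w : Finset (Fin d → ℕ)) : Set (Fin d → ℕ)) := by
    ext a
    simp [Finset.Nat.mem_antidiagonalTuple]
  have h1 : (∑' b : ((fun a : Fin d → ℕ => ∑ j, a j) ⁻¹' {w}),
      F (∑ j, (b : Fin d → ℕ) j)) =
      ∑' b : ((fun a : Fin d → ℕ => ∑ j, a j) ⁻¹' {w}), F w := by
    refine tsum_congr (fun b => ?_)
    have hb : ∑ j, (b : Fin d → ℕ) j = w := b.2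
    rw [hb]
  rw [h1, hset]
  have h2 : (∑' _ : (((Finset.Nat.antidiagonalTuple d w : Finset (Fin d → ℕ)) :
      Set (Fin d → ℕ)) : Type), F w) = ((Finset.Nat.antidiagonalTuple d w).card : ℝ≥0∞) * F w := by
    have := Finset.tsum_subtype (Finset.Nat.antidiagonalTuple d w) (fun _ => F w)
    rw [Finset.sum_const, nsmul_eq_mul] at this
    exact this
  rw [h2]
  gcongr
  have := card_adt_le d w hd
  exact_mod_cast this

theorem lintegral_cell {d : ℕ} (hd : 1 ≤ d) (f : Td d → ℝ≥0∞) (Ψ : ℕ → ℝ≥0∞)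
    (h : ∀ x : Td d, (∀ j, x j ≠ 0) → f x ≤ Ψ (wx x)) :
    ∫⁻ x, f x ∂(mu d) ≤
      2 ^ d * ∑' w : ℕ, ((w : ℝ≥0∞) + 1) ^ (d - 1) * ((2 : ℝ≥0∞) ^ w)⁻¹ * Ψ w := by
  have hae : ∀ᵐ x ∂(mu d), ∀ j, x j ≠ 0 := by
    rw [ae_all_iff]
    intro j
    have h0 : ∀ᵐ y ∂(AddCircle.haarAddCircle : Measure UnitAddCircle), y ≠ 0 := by
      rw [ae_iff]
      simpa using haar_zero
    exact (Measure.quasiMeasurePreserving_eval
      (fun _ : Fin d => (AddCircle.haarAddCircle : Measure UnitAddCircle)) j).ae h0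
  have h1 : ∫⁻ x, f x ∂(mu d) ≤ ∫⁻ x, Ψ (wx x) ∂(mu d) := by
    refine lintegral_mono_ae ?_
    filter_upwards [hae] with x hx
    exact h x hx
  refine h1.trans ?_
  have h2 : ∫⁻ x, Ψ (wx x) ∂(mu d) =
      ∫⁻ a : Fin d → ℕ, Ψ (∑ j, a j)
        ∂((mu d).map (fun (x : Td d) (j : Fin d) => de (x j))) := by
    rw [lintegral_map (measurable_of_countable _) measurable_dev]
    rfl
  rw [h2, lintegral_countable']
  have h3 : ∑' a : Fin d → ℕ, Ψ (∑ j, a j) *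
      ((mu d).map (fun (x : Td d) (j : Fin d) => de (x j))) {a} ≤
      ∑' a : Fin d → ℕ, 2 ^ d * (((2 : ℝ≥0∞) ^ (∑ j, a j))⁻¹ * Ψ (∑ j, a j)) := by
    refine ENNReal.tsum_le_tsum (fun a => ?_)
    rw [Measure.map_apply measurable_dev (measurableSet_singleton a), mul_comm]
    calc _ ≤ 2 ^ d * ((2 : ℝ≥0∞) ^ (∑ j, a j))⁻¹ * Ψ (∑ j, a j) := by
          gcongr
          exact mu_cell a
      _ = _ := by rw [mul_assoc]
  refine h3.trans ?_
  rw [ENNReal.tsum_mul_left]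
  gcongr
  refine (tsum_group hd (fun w => ((2 : ℝ≥0∞) ^ w)⁻¹ * Ψ w)).trans (le_of_eq ?_)
  refine tsum_congr (fun w => ?_)
  rw [mul_assoc]

theorem integral_cell {d : ℕ} (hd : 1 ≤ d) (f : Td d → ℝ) (hf : Continuous f)
    (hf0 : ∀ x, 0 ≤ f x) (Ψ : ℕ → ℝ) (hΨ : ∀ w, 0 ≤ Ψ w)
    (h : ∀ x : Td d, (∀ j, x j ≠ 0) → f x ≤ Ψ (wx x))
    (hs : Summable (fun w : ℕ => ((w : ℝ) + 1) ^ (d - 1) * ((2 : ℝ) ^ w)⁻¹ * Ψ w)) :
    ∫ x, f x ∂(mu d) ≤
      2 ^ d * ∑' w : ℕ, ((w : ℝ) + 1) ^ (d - 1) * ((2 : ℝ) ^ w)⁻¹ * Ψ w := by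
  have hnn : ∀ w : ℕ, 0 ≤ ((w : ℝ) + 1) ^ (d - 1) * ((2 : ℝ) ^ w)⁻¹ * Ψ w := fun w =>
    mul_nonneg (by positivity) (hΨ w)
  have h1 := lintegral_cell hd (fun x => ENNReal.ofReal (f x)) (fun w => ENNReal.ofReal (Ψ w))
    (fun x hx => ENNReal.ofReal_le_ofReal (h x hx))
  have h2 : (2 : ℝ≥0∞) ^ d * ∑' w : ℕ, ((w : ℝ≥0∞) + 1) ^ (d - 1) * ((2 : ℝ≥0∞) ^ w)⁻¹ *
      ENNReal.ofReal (Ψ w) = ENNReal.ofReal
      (2 ^ d * ∑' w : ℕ, ((w : ℝ) + 1) ^ (d - 1) * ((2 : ℝ) ^ w)⁻¹ * Ψ w) := by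
    rw [ENNReal.ofReal_mul (by positivity), ENNReal.ofReal_pow (by norm_num),
      ENNReal.ofReal_tsum_of_nonneg hnn hs]
    congr 1
    · norm_num
    · refine tsum_congr (fun w => ?_)
      rw [ENNReal.ofReal_mul (by positivity), ENNReal.ofReal_mul (by positivity),
        ENNReal.ofReal_pow (by positivity), ENNReal.ofReal_inv_of_pos (by positivity),
        ENNReal.ofReal_pow (by norm_num), ENNReal.ofReal_add (by positivity) (by norm_num)]
      simp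
  rw [h2] at h1
  rw [integral_eq_lintegral_of_nonneg_ae (Filter.Eventually.of_forall hf0)
    hf.aestronglyMeasurable]
  refine ENNReal.toReal_le_of_le_ofReal ?_ h1
  exact mul_nonneg (by positivity) (tsum_nonneg hnn)

end MPcd65c1
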