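import Pool.Agent.Lib.MP_cd65c1_an.ABasic
import Pool.Agent.Lib.MP_cd65c1_an.ACount
import Pool.Agent.Lib.MP_cd65c1_an.ALam
import Pool.Agent.Lib.MP_cd65c1_an.KAbel

/-!
# MP_cd65c1_an / KEl : the level kernels `El`, `Gt`, `Et` (about 180 lines)

* `El_eq`: expand the product of sums over the blocks (`Finset.prod_univ_sum`),
  `sum_Lam`, `mFourier k x = ∏ fourier (k j) (x j)`.
* `norm_El_le`: triangle inequality and `norm_bl_le`.
* `El_real`: `blk s` is invariant under `k ↦ -k` (`mem_blk`), `wt_neg`, `fourier_neg`: so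
  `conj (bl r σ s x) = bl r σ s x`, and `El` is real.
* `El_neg_arg`: `bl r σ s (-x) = bl r (-σ) s x`: replace `k` by `-k`,
  `wt r σ (-k) = conj (wt r σ k) = wt r (-σ) k`.
* `cf_Et`, `cf_Gt`: `(El r σ l x).re = El r σ l x = tp (Lam d l) (∏ wt)`, `cf_tp`, `mem_Lam`.
* `Gt_zero`: `El 0 0 l 0 = #Lam d l = 2^l #antidiagonalTuple` (`wt 0 0 k = 1`, `mF_zero_arg`).
-/

namespace MPcd65c1

open MeasureTheory

/-- product weight -/
noncomputable def wtd {d : ℕ} (r σ : ℝ) : CV d := fun k => ∏ j, wt r σ (k j)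

private theorem mF_eq {d : ℕ} (k : Fin d → ℤ) (x : Td d) :
    (UnitAddTorus.mFourier k x : ℂ) = ∏ j, (fourier (k j) (x j) : ℂ) := rfl

theorem El_eq {d : ℕ} (r σ : ℝ) (l : ℕ) (x : Td d) :
    El r σ l x = tp (Lam d l) (wtd r σ) x := by
  rw [tp_apply, sum_Lam, El]
  refine Finset.sum_congr rfl fun s _ => ?_
  simp only [bl]
  rw [Finset.prod_univ_sum]
  refine Finset.sum_congr rfl fun k _ => ?_
  rw [Finset.prod_mul_distrib, mF_eq, wtd]

theorem norm_El_le {d : ℕ} {r : ℝ} (hr : 0 ≤ r) (σ : ℝ) (l : ℕ) (x : Td d) :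
    ‖El r σ l x‖ ≤ Ql l x := by
  rw [El, Ql]
  refine (norm_sum_le _ _).trans (Finset.sum_le_sum fun s _ => ?_)
  rw [norm_prod]
  exact Finset.prod_le_prod (fun _ _ => norm_nonneg _) fun j _ => norm_bl_le hr σ (s j) (x j)

private theorem sum_blk_neg (s : ℕ) (f : ℤ → ℂ) : ∑ k ∈ blk s, f (-k) = ∑ k ∈ blk s, f k := by
  refine Finset.sum_nbij' (fun k => -k) (fun k => -k) ?_ ?_ ?_ ?_ ?_
  · intro k hk
    rw [mem_blk] at hk ⊢
    rwa [Int.natAbs_neg]
  · intro k hk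
    rw [mem_blk] at hk ⊢
    rwa [Int.natAbs_neg]
  · intro k _
    exact neg_neg k
  · intro k _
    exact neg_neg k
  · intro k _
    rfl

private theorem bl_conj (r σ : ℝ) (s : ℕ) (x : UnitAddCircle) :
    (starRingEnd ℂ) (bl r σ s x) = bl r σ s x := by
  rw [bl, map_sum, ← sum_blk_neg s (fun k => wt r σ k * (fourier k x : ℂ))]
  refine Finset.sum_congr rfl fun k _ => ?_
  rw [map_mul, ← wt_neg, ← fourier_neg]

private theorem bl_neg_arg (r σ : ℝ) (s : ℕ) (x : UnitAddCircle) :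
    bl r σ s (-x) = bl r (-σ) s x := by
  rw [bl, bl, ← sum_blk_neg s (fun k => wt r (-σ) k * (fourier k x : ℂ))]
  refine Finset.sum_congr rfl fun k _ => ?_
  have h1 : (fourier k (-x) : ℂ) = fourier (-k) x := by
    simp only [fourier_apply, smul_neg, neg_smul]
  rw [h1, wt_neg_phase, ← wt_neg, neg_neg]

theorem El_real {d : ℕ} (r σ : ℝ) (l : ℕ) (x : Td d) :
    (((El r σ l x).re : ℝ) : ℂ) = El r σ l x := by
  apply Complex.conj_eq_iff_re.mp
  rw [El, map_sum]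
  refine Finset.sum_congr rfl fun s _ => ?_
  rw [map_prod]
  exact Finset.prod_congr rfl fun j _ => bl_conj r σ (s j) (x j)

theorem El_neg_arg {d : ℕ} (r σ : ℝ) (l : ℕ) (x : Td d) :
    El r σ l (-x) = El r (-σ) l x := by
  rw [El, El]
  refine Finset.sum_congr rfl fun s _ => Finset.prod_congr rfl fun j _ => ?_
  exact bl_neg_arg r σ (s j) (x j)

private theorem continuous_El {d : ℕ} (r σ : ℝ) (l : ℕ) : Continuous (El r σ l : Td d → ℂ) := by
  have h : (El r σ l : Td d → ℂ) = fun x => tp (Lam d l) (wtd r σ) x := by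
    funext x
    exact El_eq r σ l x
  rw [h]
  exact (tp (Lam d l) (wtd r σ)).continuous

theorem continuous_Gt {d : ℕ} (l0 l1 : ℕ) : Continuous (Gt l0 l1 : Td d → ℝ) := by
  unfold Gt
  refine continuous_finsetSum _ fun l _ => ?_
  exact continuous_const.mul (Complex.continuous_re.comp (continuous_El 0 0 l))

theorem continuous_Et {d : ℕ} (r σ : ℝ) (l0 l1 : ℕ) : Continuous (Et r σ l0 l1 : Td d → ℝ) := by
  unfold Et
  refine continuous_finsetSum _ fun l _ => ?_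
  exact continuous_const.mul (Complex.continuous_re.comp (continuous_El r σ l))

theorem Gt_even {d : ℕ} (l0 l1 : ℕ) (x : Td d) : Gt l0 l1 (-x) = Gt l0 l1 x := by
  rw [Gt, Gt]
  refine Finset.sum_congr rfl fun l _ => ?_
  rw [El_neg_arg, neg_zero]

theorem Et_neg_arg {d : ℕ} (r σ : ℝ) (l0 l1 : ℕ) (x : Td d) :
    Et r σ l0 l1 (-x) = Et r (-σ) l0 l1 x := by
  rw [Et, Et]
  refine Finset.sum_congr rfl fun l _ => ?_
  rw [El_neg_arg]

private theorem wt_zero (k : ℤ) : wt 0 0 k = 1 := by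
  unfold wt
  split_ifs with h
  · rfl
  · simp

private theorem wtd_zero {d : ℕ} (k : Fin d → ℤ) : wtd 0 0 k = 1 := by
  unfold wtd
  exact Finset.prod_eq_one fun j _ => wt_zero (k j)

theorem Gt_zero {d : ℕ} (l0 l1 : ℕ) :
    Gt l0 l1 (0 : Td d) =
      ∑ l ∈ Finset.Icc l0 l1, ((Finset.Nat.antidiagonalTuple d l).card : ℝ) := by
  rw [Gt]
  refine Finset.sum_congr rfl fun l _ => ?_
  have h1 : El 0 0 l (0 : Td d) = ((Lam d l).card : ℂ) := by
    rw [El_eq, tp_apply]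
    simp only [wtd_zero, mF_zero_arg, mul_one, Finset.sum_const, nsmul_eq_mul]
  rw [h1, Complex.natCast_re, card_Lam]
  push_cast
  field_simp

theorem abs_Gt_le {d : ℕ} (l0 l1 : ℕ) (x : Td d) :
    |Gt l0 l1 x| ≤ ∑ l ∈ Finset.Icc l0 l1, ((2 : ℝ) ^ l)⁻¹ * Ql l x := by
  rw [Gt]
  refine (Finset.abs_sum_le_sum_abs _ _).trans (Finset.sum_le_sum fun l _ => ?_)
  rw [abs_mul, abs_of_nonneg (by positivity)]
  refine mul_le_mul_of_nonneg_left ?_ (by positivity)
  exact (Complex.abs_re_le_norm _).trans (norm_El_le le_rfl 0 l x)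

theorem abs_Et_le {d : ℕ} {r : ℝ} (hr : 0 ≤ r) (σ : ℝ) (l0 l1 : ℕ) (x : Td d) :
    |Et r σ l0 l1 x| ≤ ∑ l ∈ Finset.Icc l0 l1, ((2 : ℝ) ^ ((l : ℝ) / 2))⁻¹ * Ql l x := by
  rw [Et]
  refine (Finset.abs_sum_le_sum_abs _ _).trans (Finset.sum_le_sum fun l _ => ?_)
  rw [abs_mul, abs_of_nonneg (by positivity)]
  refine mul_le_mul_of_nonneg_left ?_ (by positivity)
  exact (Complex.abs_re_le_norm _).trans (norm_El_le hr σ l x)

private theorem disj_Lam {d : ℕ} (S : Finset ℕ) :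
    (S : Set ℕ).PairwiseDisjoint (Lam d) := by
  intro a _ b _ hab
  rw [Function.onFun, Finset.disjoint_left]
  intro k hk hk'
  rw [mem_Lam] at hk hk'
  exact hab (hk.symm.trans hk')

/-- `Gt` as a trigonometric polynomial -/
theorem Gt_eq_tp {d : ℕ} (l0 l1 : ℕ) (x : Td d) :
    ((Gt l0 l1 x : ℝ) : ℂ) =
      tp ((Finset.Icc l0 l1).biUnion (Lam d)) (fun k => (((2 : ℝ) ^ (lev k))⁻¹ : ℝ)) x := by
  rw [tp_apply, Finset.sum_biUnion (disj_Lam _), Gt, Complex.ofReal_sum]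
  refine Finset.sum_congr rfl fun l _ => ?_
  rw [Complex.ofReal_mul, El_real, El_eq, tp_apply, Finset.mul_sum]
  refine Finset.sum_congr rfl fun k hk => ?_
  rw [wtd_zero, one_mul, (mem_Lam d l k).mp hk]

/-- `Et` as a trigonometric polynomial -/
theorem Et_eq_tp {d : ℕ} (r σ : ℝ) (l0 l1 : ℕ) (x : Td d) :
    ((Et r σ l0 l1 x : ℝ) : ℂ) =
      tp ((Finset.Icc l0 l1).biUnion (Lam d))
        (fun k => (((2 : ℝ) ^ ((lev k : ℝ) / 2))⁻¹ : ℝ) * wtd r σ k) x := by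
  rw [tp_apply, Finset.sum_biUnion (disj_Lam _), Et, Complex.ofReal_sum]
  refine Finset.sum_congr rfl fun l _ => ?_
  rw [Complex.ofReal_mul, El_real, El_eq, tp_apply, Finset.mul_sum]
  refine Finset.sum_congr rfl fun k hk => ?_
  rw [(mem_Lam d l k).mp hk, mul_assoc]

end MPcd65c1
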