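import Pool.Agent.Lib.MP_cd65c1_an.KCell

/-!
# MP_cd65c1_an / KQl : pointwise bound of the level majorant (about 180 lines)

Let `x` have no zero coordinate, `a_j = de (x j)`, `w = Σ a_j`.

`Ql l x = Σ_{|s|=l} ∏ qb (s j) (x j) ≤ 2^d Σ_{|s|=l} 2^(Σ_j min (s_j) (a_j))` (`qb_le`).

COUNTING LEMMA (pure natural numbers), `disc_bound`: for `a : Fin d → ℕ`, `d ≥ 1`:
`Σ_{|s|=l} 2^(Σ min (s_j) (a_j)) ≤ C_d 2^(min l w) (1+|w-l|)^(d-1)`.
Proof: put `μ(s) = Σ min (s_j) (a_j) ≤ m = min l w`, `i = m - μ(s)`, `D = |w - l|`.  For every `j`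
`s_j ≤ a_j + (i + D)` and `a_j ≤ s_j + (i + D)`; `Σ s_j = l` determines the first coordinate, so
there are at most `(2(i+D)+1)^(d-1) ≤ ((2i+2)(1+D))^(d-1)` such `s`.  Hence the sum is at most
`2^m (1+D)^(d-1) Σ_i 2^(-i) (2i+2)^(d-1)`.

TRIVIAL BOUND `Ql_le_triv`: `∏ qb ≤ ∏ 2^(s_j) = 2^l`, `#S_l ≤ (l+1)^(d-1)`.
-/

namespace MPcd65c1

open MeasureTheory

/-- `|w - l|` for natural numbers, as a real number -/
noncomputable def dist1 (w l : ℕ) : ℝ := |(w : ℝ) - l|

private lemma count_near (n l R : ℕ) (a : Fin (n + 1) → ℕ) :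
    ((Finset.Nat.antidiagonalTuple (n + 1) l).filter
      (fun s => ∀ j, s j ≤ a j + R ∧ a j ≤ s j + R)).card ≤ (2 * R + 1) ^ n := by
  classical
  have h1 : ((Finset.Nat.antidiagonalTuple (n + 1) l).filter
      (fun s => ∀ j, s j ≤ a j + R ∧ a j ≤ s j + R)).card ≤
      (Fintype.piFinset (fun j : Fin n => Finset.Icc (a j.succ - R) (a j.succ + R))).card := by
    apply Finset.card_le_card_of_injOn (fun s j => s j.succ)
    · intro s hs
      have hs' := (Finset.mem_filter.1 (Finset.mem_coe.1 hs)).2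
      apply Finset.mem_coe.2
      rw [Fintype.mem_piFinset]
      intro j
      rw [Finset.mem_Icc]
      have h1 := hs' j.succ
      exact ⟨Nat.sub_le_iff_le_add.2 h1.2, h1.1⟩
    · intro s hs t ht hst
      have hs1 := Finset.Nat.mem_antidiagonalTuple.1 (Finset.mem_filter.1 (Finset.mem_coe.1 hs)).1
      have ht1 := Finset.Nat.mem_antidiagonalTuple.1 (Finset.mem_filter.1 (Finset.mem_coe.1 ht)).1
      have hst' : ∀ j : Fin n, s j.succ = t j.succ := fun j => congrFun hst j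
      rw [Fin.sum_univ_succ] at hs1 ht1
      have h0 : s 0 = t 0 := by
        have : ∑ j : Fin n, s j.succ = ∑ j : Fin n, t j.succ :=
          Finset.sum_congr rfl (fun j _ => hst' j)
        omega
      funext j
      refine Fin.cases h0 (fun i => hst' i) j
  refine h1.trans ?_
  rw [Fintype.card_piFinset]
  calc ∏ j : Fin n, (Finset.Icc (a j.succ - R) (a j.succ + R)).card
      ≤ ∏ _j : Fin n, (2 * R + 1) := by
        apply Finset.prod_le_prod' 
        intro j _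
        rw [Nat.card_Icc]
        omega
    _ = (2 * R + 1) ^ n := by simp

private lemma summable_aux (n : ℕ) :
    Summable (fun i : ℕ => (2 * (i : ℝ) + 2) ^ n * (1 / 2 : ℝ) ^ i) := by
  have h := summable_pow_mul_geometric_of_norm_lt_one n (r := (1 / 2 : ℝ))
    (by rw [Real.norm_eq_abs, abs_of_pos] <;> norm_num)
  have h2 := ((summable_nat_add_iff 1).2 h).mul_left ((2 : ℝ) ^ n * 2)
  refine h2.congr (fun i => ?_)
  have e1 : (2 * (i : ℝ) + 2) = 2 * (((i + 1 : ℕ) : ℝ)) := by push_cast; ring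
  rw [e1, mul_pow, pow_succ]
  ring

theorem disc_bound (d : ℕ) (hd : 1 ≤ d) :
    ∃ C : ℝ, 0 < C ∧ ∀ (l : ℕ) (a : Fin d → ℕ),
      ∑ s ∈ Finset.Nat.antidiagonalTuple d l, (2 : ℝ) ^ (∑ j, min (s j) (a j)) ≤
        C * (2 : ℝ) ^ (min l (∑ j, a j)) * (1 + dist1 (∑ j, a j) l) ^ (d - 1) := by
  obtain ⟨n, rfl⟩ : ∃ n, d = n + 1 := ⟨d - 1, by omega⟩
  refine ⟨1 + ∑' i : ℕ, (2 * (i : ℝ) + 2) ^ n * (1 / 2 : ℝ) ^ i, ?_, ?_⟩
  · have : 0 ≤ ∑' i : ℕ, (2 * (i : ℝ) + 2) ^ n * (1 / 2 : ℝ) ^ i :=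
      tsum_nonneg (fun i => by positivity)
    linarith
  intro l a
  set w := ∑ j, a j with hw
  set m := min l w with hm
  set D : ℕ := max l w - min l w with hD
  have hDr : dist1 w l = (D : ℝ) := by
    unfold dist1
    rcases le_total l w with h | h
    · rw [hD, max_eq_right h, min_eq_left h, Nat.cast_sub h, abs_of_nonneg]
      have : (l : ℝ) ≤ w := by exact_mod_cast h
      linarith
    · rw [hD, max_eq_left h, min_eq_right h, Nat.cast_sub h, abs_of_nonpos, neg_sub]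
      have : (w : ℝ) ≤ l := by exact_mod_cast h
      linarith
  rw [hDr, Nat.add_sub_cancel]
  -- the function `i(s)`
  have hmu : ∀ s ∈ Finset.Nat.antidiagonalTuple (n + 1) l, ∑ j, min (s j) (a j) ≤ m := by
    intro s hs
    have hs1 := Finset.Nat.mem_antidiagonalTuple.1 hs
    apply le_min
    · rw [← hs1]
      exact Finset.sum_le_sum (fun j _ => min_le_left _ _)
    · exact Finset.sum_le_sum (fun j _ => min_le_right _ _)
  have hfib := Finset.sum_fiberwise_of_maps_to (s := Finset.Nat.antidiagonalTuple (n + 1) l)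
    (t := Finset.range (m + 1)) (g := fun s => m - ∑ j, min (s j) (a j))
    (fun s _ => Finset.mem_range.2 (by omega)) (fun s => (2 : ℝ) ^ (∑ j, min (s j) (a j)))
  rw [← hfib]
  have hterm : ∀ i ∈ Finset.range (m + 1),
      ∑ s ∈ (Finset.Nat.antidiagonalTuple (n + 1) l).filter
        (fun s => m - ∑ j, min (s j) (a j) = i), (2 : ℝ) ^ (∑ j, min (s j) (a j)) ≤
      ((2 : ℝ) ^ m * (1 + (D : ℝ)) ^ n) * ((2 * (i : ℝ) + 2) ^ n * (1 / 2 : ℝ) ^ i) := by
    intro i hi
    have hi' : i ≤ m := Nat.lt_succ_iff.1 (Finset.mem_range.1 hi)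
    have e1 : ∀ s ∈ (Finset.Nat.antidiagonalTuple (n + 1) l).filter
        (fun s => m - ∑ j, min (s j) (a j) = i), (2 : ℝ) ^ (∑ j, min (s j) (a j)) =
        (2 : ℝ) ^ m * (1 / 2 : ℝ) ^ i := by
      intro s hs
      rw [Finset.mem_filter] at hs
      have h1 := hmu s hs.1
      have h2 : m = (∑ j, min (s j) (a j)) + i := by omega
      rw [h2, pow_add, one_div, inv_pow, mul_assoc, mul_inv_cancel₀ (by positivity), mul_one]
    rw [Finset.sum_congr rfl e1, Finset.sum_const, nsmul_eq_mul]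
    have hsub : (Finset.Nat.antidiagonalTuple (n + 1) l).filter
        (fun s => m - ∑ j, min (s j) (a j) = i) ⊆
        (Finset.Nat.antidiagonalTuple (n + 1) l).filter
          (fun s => ∀ j, s j ≤ a j + (i + D) ∧ a j ≤ s j + (i + D)) := by
      intro s hs
      rw [Finset.mem_filter] at hs ⊢
      refine ⟨hs.1, fun j => ?_⟩
      have hs1 := Finset.Nat.mem_antidiagonalTuple.1 hs.1
      have h1 := hmu s hs.1
      have h2 : m = (∑ j, min (s j) (a j)) + i := by omega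
      have h3 : s j - min (s j) (a j) ≤ ∑ j, (s j - min (s j) (a j)) :=
        Finset.single_le_sum (f := fun j => s j - min (s j) (a j)) (fun _ _ => Nat.zero_le _)
          (Finset.mem_univ j)
      have h4 : ∑ j, (s j - min (s j) (a j)) + ∑ j, min (s j) (a j) = ∑ j, s j := by
        rw [← Finset.sum_add_distrib]
        exact Finset.sum_congr rfl (fun j _ => Nat.sub_add_cancel (min_le_left _ _))
      have h5 : a j - min (s j) (a j) ≤ ∑ j, (a j - min (s j) (a j)) :=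
        Finset.single_le_sum (f := fun j => a j - min (s j) (a j)) (fun _ _ => Nat.zero_le _)
          (Finset.mem_univ j)
      have h6 : ∑ j, (a j - min (s j) (a j)) + ∑ j, min (s j) (a j) = ∑ j, a j := by
        rw [← Finset.sum_add_distrib]
        exact Finset.sum_congr rfl (fun j _ => Nat.sub_add_cancel (min_le_right _ _))
      have h7 : min (s j) (a j) ≤ a j := min_le_right _ _
      have h8 : min (s j) (a j) ≤ s j := min_le_left _ _
      constructor
      · omega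
      · omega
    have hcard : (((Finset.Nat.antidiagonalTuple (n + 1) l).filter
        (fun s => m - ∑ j, min (s j) (a j) = i)).card : ℝ) ≤
        (2 * (i : ℝ) + 2) ^ n * (1 + (D : ℝ)) ^ n := by
      have h1 : ((Finset.Nat.antidiagonalTuple (n + 1) l).filter
        (fun s => m - ∑ j, min (s j) (a j) = i)).card ≤ (2 * (i + D) + 1) ^ n :=
        (Finset.card_le_card hsub).trans (count_near n l (i + D) a)
      have h2 : (2 * (i + D) + 1) ^ n ≤ ((2 * i + 2) * (1 + D)) ^ n := by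
        apply Nat.pow_le_pow_left
        have : (2 * i + 2) * (1 + D) = 2 * i + 2 + 2 * (i * D) + 2 * D := by ring
        rw [this]
        omega
      have h3 : (((Finset.Nat.antidiagonalTuple (n + 1) l).filter
        (fun s => m - ∑ j, min (s j) (a j) = i)).card : ℝ) ≤
          (((2 * i + 2) * (1 + D)) ^ n : ℕ) := by exact_mod_cast h1.trans h2
      refine h3.trans (le_of_eq ?_)
      push_cast
      rw [mul_pow]
    calc _ ≤ ((2 * (i : ℝ) + 2) ^ n * (1 + (D : ℝ)) ^ n) * ((2 : ℝ) ^ m * (1 / 2 : ℝ) ^ i) :=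
          mul_le_mul_of_nonneg_right hcard (by positivity)
      _ = _ := by ring
  refine (Finset.sum_le_sum hterm).trans ?_
  rw [← Finset.mul_sum]
  have hts : ∑ i ∈ Finset.range (m + 1), (2 * (i : ℝ) + 2) ^ n * (1 / 2 : ℝ) ^ i ≤
      ∑' i : ℕ, (2 * (i : ℝ) + 2) ^ n * (1 / 2 : ℝ) ^ i :=
    (summable_aux n).sum_le_tsum _ (fun i _ => by positivity)
  calc ((2 : ℝ) ^ m * (1 + (D : ℝ)) ^ n) *
        ∑ i ∈ Finset.range (m + 1), (2 * (i : ℝ) + 2) ^ n * (1 / 2 : ℝ) ^ i
      ≤ ((2 : ℝ) ^ m * (1 + (D : ℝ)) ^ n) *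
        (1 + ∑' i : ℕ, (2 * (i : ℝ) + 2) ^ n * (1 / 2 : ℝ) ^ i) :=
        mul_le_mul_of_nonneg_left (by linarith) (by positivity)
    _ = _ := by ring

theorem Ql_le (d : ℕ) (hd : 1 ≤ d) :
    ∃ C : ℝ, 0 < C ∧ ∀ (l : ℕ) (x : Td d), (∀ j, x j ≠ 0) →
      Ql l x ≤ C * (2 : ℝ) ^ (min l (wx x)) * (1 + dist1 (wx x) l) ^ (d - 1) := by
  obtain ⟨C, hC, h⟩ := disc_bound d hd
  refine ⟨2 ^ d * C, by positivity, fun l x hx => ?_⟩
  have h1 := h l (fun j => de (x j))
  have h2 : Ql l x ≤ ∑ s ∈ Finset.Nat.antidiagonalTuple d l,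
      (2 : ℝ) ^ d * (2 : ℝ) ^ (∑ j, min (s j) (de (x j))) := by
    unfold Ql
    apply Finset.sum_le_sum
    intro s _
    calc ∏ j, qb (s j) (x j) ≤ ∏ j, (2 * (2 : ℝ) ^ (min (s j) (de (x j)))) :=
          Finset.prod_le_prod (fun j _ => qb_nonneg _ _) (fun j _ => qb_le _ _ (hx j))
      _ = _ := by
          rw [Finset.prod_mul_distrib, Finset.prod_const, Finset.prod_pow_eq_pow_sum]
          simp
  rw [← Finset.mul_sum] at h2
  refine h2.trans ?_
  calc (2 : ℝ) ^ d * ∑ s ∈ Finset.Nat.antidiagonalTuple d l, (2 : ℝ) ^ (∑ j, min (s j) (de (x j)))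
      ≤ (2 : ℝ) ^ d * (C * (2 : ℝ) ^ (min l (∑ j, de (x j))) *
          (1 + dist1 (∑ j, de (x j)) l) ^ (d - 1)) :=
        mul_le_mul_of_nonneg_left h1 (by positivity)
    _ = _ := by
        unfold wx
        ring

theorem Ql_le_triv {d : ℕ} (hd : 1 ≤ d) (l : ℕ) (x : Td d) :
    Ql l x ≤ (2 : ℝ) ^ l * ((l : ℝ) + 1) ^ (d - 1) := by
  unfold Ql
  have h1 : ∀ s ∈ Finset.Nat.antidiagonalTuple d l, ∏ j, qb (s j) (x j) ≤ (2 : ℝ) ^ l := by
    intro s hs
    have hs1 := Finset.Nat.mem_antidiagonalTuple.1 hs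
    calc ∏ j, qb (s j) (x j) ≤ ∏ j, (2 : ℝ) ^ (s j) :=
          Finset.prod_le_prod (fun j _ => qb_nonneg _ _) (fun j _ => qb_le_pow _ _)
      _ = (2 : ℝ) ^ l := by rw [Finset.prod_pow_eq_pow_sum, hs1]
  refine (Finset.sum_le_sum h1).trans ?_
  rw [Finset.sum_const, nsmul_eq_mul, mul_comm]
  apply mul_le_mul_of_nonneg_left _ (by positivity)
  have := card_adt_le d l hd
  exact_mod_cast this

theorem Ql_nonneg {d : ℕ} (l : ℕ) (x : Td d) : 0 ≤ Ql l x := by
  unfold Ql
  exact Finset.sum_nonneg (fun s _ => Finset.prod_nonneg (fun j _ => qb_nonneg _ _))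

theorem continuous_Ql {d : ℕ} (l : ℕ) : Continuous (Ql l : Td d → ℝ) := by
  unfold Ql
  refine continuous_finsetSum _ (fun s _ => continuous_finsetProd _ (fun j _ => ?_))
  unfold qb
  have h1 : Continuous fun x : Td d => max 1 ((2 : ℝ) ^ (s j) * ‖x j‖) :=
    continuous_const.max (continuous_const.mul (continuous_apply j).norm)
  refine continuous_const.div h1 (fun x => ?_)
  have : (1 : ℝ) ≤ max 1 ((2 : ℝ) ^ (s j) * ‖x j‖) := le_max_left _ _
  positivity

end MPcd65c1
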