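import Pool.Agent.Lib.MP_cd65c1_an.CApp
import Pool.Agent.Lib.MP_cd65c1_an.ALp

/-!
# MP_cd65c1_an / LInf : separated families for `q = ∞` (about 180 lines)

Let `S`, `C`, `c` be from `code_app` with `σ = r`, `κ = kap d l0`, `Λ = Lv l0 l1`, `ρ = C sqrt(n Λ κ)`,
`θ = 2^((1/2-r) l0)`.  For `I ∈ S` put `φ_I = ρ^(-1) Ssum (Et r r l0 l1) I` (real, `nrm (2m) ≤ 1`) and
`f_I = θ ρ^(-1) Ssum (Gt l0 l1) I` (continuous; as an element of `L_∞`).

`f_I ∈ WR d r (2m) ∞`: coefficients: `cf (x ↦ E(x-y)) k = e_{-k}(y) cf E k` (`cf_translate`, `cf_sum`), so it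
suffices that `θ cf Gt k = lamr r k * cf Et k`; both vanish unless `l0 ≤ lev k ≤ l1` (`Gt_eq_tp`, `Et_eq_tp`,
`cf_tp`, `mem_Lam`), and then `lamr r k * 2^(-lev k/2) wtd r r k = 2^(-lev k/2) 2^(-r lev k)`
(`lamr_mul_wt`) `= θ 2^(-lev k)`, because either `l0 = l1 = lev k` or `r = 1/2` (and `θ = 1`).

SEPARATION: for `I ≠ J` in `S`: `|f_I(x) - f_J(x)| ≤ ‖f_I - f_J‖_∞` for every `x` (`le_nrm_infty`), so
`n ‖f_I - f_J‖ ≥ |Σ_i ε_i (f_I - f_J)(y_i)| = θ ρ^(-1) |Bf Gt I I - Bf Gt I J| ≥ θ ρ^(-1) (3/4 - 1/8) n Gt(0)`,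
`‖f_I - f_J‖ ≥ (5/8) θ c1 Λ κ/ρ = c' θ sqrt(Λ κ/n)` (`Gt_zero_bounds`).

COVERING: if `Cov` holds with `N < S.card`, two different `I, J ∈ S` have the same centre
(`Finset.exists_ne_map_eq_of_card_lt_of_maps_to`), so `‖f_I - f_J‖ ≤ 2ε`.
-/

namespace MPcd65c1

open MeasureTheory
open scoped ENNReal

/-- coefficients of a signed sum of translates -/
private noncomputable def sI {d n : ℕ} (I : Fin n → Td d × Bool) : CV d :=
  fun k => ∑ i, ((sg (I i).2 : ℝ) : ℂ) * UnitAddTorus.mFourier (-k) (I i).1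

private theorem Ssum_tp {d n : ℕ} (L : Finset (Fin d → ℤ)) (g : CV d) (E : Td d → ℝ)
    (hE : ∀ x, ((E x : ℝ) : ℂ) = tp L g x) (I : Fin n → Td d × Bool) (x : Td d) :
    ((Ssum E I x : ℝ) : ℂ) = tp L (fun k => g k * sI I k) x := by
  unfold Ssum
  push_cast
  simp_rw [hE, tp_apply, sub_eq_add_neg, mF_add_arg, mF_neg_arg]
  simp_rw [Finset.mul_sum]
  rw [Finset.sum_comm]
  refine Finset.sum_congr rfl fun k _ => ?_
  simp only [sI, Finset.mul_sum, Finset.sum_mul]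
  refine Finset.sum_congr rfl fun i _ => ?_
  ring

private theorem tp_smul {d : ℕ} (L : Finset (Fin d → ℤ)) (c : CV d) (t : ℂ) (x : Td d) :
    tp L (fun k => t * c k) x = t * tp L c x := by
  rw [tp_apply, tp_apply, Finset.mul_sum]
  refine Finset.sum_congr rfl fun k _ => ?_
  ring

private theorem tp_sub_apply {d : ℕ} (L : Finset (Fin d → ℤ)) (c c' : CV d) (x : Td d) :
    tp L (c - c') x = tp L c x - tp L c' x := by
  rw [tp_apply, tp_apply, tp_apply, ← Finset.sum_sub_distrib]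
  refine Finset.sum_congr rfl fun k _ => ?_
  rw [Pi.sub_apply]
  ring

private theorem exp_id (r : ℝ) (l0 l : ℕ) (h : l = l0 ∨ r = 1 / 2) :
    ((2 : ℝ) ^ ((l : ℝ) / 2))⁻¹ * (2 : ℝ) ^ (-(r * (l : ℝ))) =
      (2 : ℝ) ^ ((1 / 2 - r) * (l0 : ℝ)) * ((2 : ℝ) ^ l)⁻¹ := by
  rw [← Real.rpow_neg (by norm_num), ← Real.rpow_natCast, ← Real.rpow_neg (by norm_num),
    ← Real.rpow_add (by norm_num), ← Real.rpow_add (by norm_num)]
  congr 1
  rcases h with rfl | rfl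
  · ring
  · ring

private theorem coeff_id {d : ℕ} (r : ℝ) (l0 l1 : ℕ) (h : l0 = l1 ∨ r = 1 / 2)
    (k : Fin d → ℤ) (hk : k ∈ (Finset.Icc l0 l1).biUnion (Lam d)) :
    lamr r k * ((((2 : ℝ) ^ ((lev k : ℝ) / 2))⁻¹ : ℝ) * wtd r r k) =
      (((2 : ℝ) ^ ((1 / 2 - r) * (l0 : ℝ)) : ℝ) : ℂ) * (((2 : ℝ) ^ (lev k))⁻¹ : ℝ) := by
  obtain ⟨l, hl, hkl⟩ := Finset.mem_biUnion.mp hk
  rw [mem_Lam] at hkl
  rw [Finset.mem_Icc] at hl
  have h1 := lamr_mul_wt r k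
  have h2 : lev k = l0 ∨ r = 1 / 2 := by
    rcases h with h | h
    · left
      omega
    · right
      exact h
  have h3 := exp_id r l0 (lev k) h2
  have h4 : lamr r k * ((((2 : ℝ) ^ ((lev k : ℝ) / 2))⁻¹ : ℝ) * wtd r r k) =
      (((2 : ℝ) ^ ((lev k : ℝ) / 2))⁻¹ : ℝ) * (lamr r k * ∏ j, wt r r (k j)) := by
    unfold wtd
    ring
  rw [h4, h1, ← Complex.ofReal_mul, ← Complex.ofReal_mul, h3]

private theorem nrm_real {d : ℕ} {q : ℝ≥0∞} (f : Td d → ℝ) (hf : Continuous f) {A : ℝ}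
    (hA : 0 ≤ A) (h : nrm q (fun x => ((f x : ℝ) : ℂ)) ≤ A) :
    MemLp f q (mu d) ∧ eLpNorm f q (mu d) ≤ ENNReal.ofReal A := by
  have h1 : MemLp f q (mu d) := by
    obtain ⟨C, hC⟩ := (isCompact_univ (X := Td d)).exists_bound_of_continuousOn hf.continuousOn
    exact MemLp.of_bound hf.aestronglyMeasurable C
      (Filter.Eventually.of_forall fun x => hC x (Set.mem_univ x))
  refine ⟨h1, ?_⟩
  have h2 : eLpNorm (fun x => ((f x : ℝ) : ℂ)) q (mu d) = eLpNorm f q (mu d) :=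
    eLpNorm_congr_norm_ae (Filter.Eventually.of_forall fun x => by simp)
  rw [nrm, h2] at h
  exact (ENNReal.le_ofReal_iff_toReal_le h1.eLpNorm_ne_top hA).mpr h

private theorem cont_Ssum_aux {d n : ℕ} {E : Td d → ℝ} (hE : Continuous E)
    (I : Fin n → Td d × Bool) : Continuous (Ssum E I) := by
  unfold Ssum
  fun_prop

private theorem abs_sg (b : Bool) : |sg b| = 1 := by
  cases b <;> simp [sg]

/-- the sum of the values at the points of `I` -/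
private theorem sum_le_of_bound {d n : ℕ} (F : Td d → ℝ) (I : Fin n → Td d × Bool) (A : ℝ)
    (h : ∀ x, |F x| ≤ A) : |∑ i, sg (I i).2 * F (I i).1| ≤ n * A := by
  refine (Finset.abs_sum_le_sum_abs _ _).trans ?_
  have : ∑ i : Fin n, |sg (I i).2 * F (I i).1| ≤ ∑ _i : Fin n, A := by
    refine Finset.sum_le_sum fun i _ => ?_
    rw [abs_mul, abs_sg, one_mul]
    exact h _
  simpa using this

theorem sep_infty (d : ℕ) (hd : 2 ≤ d) (r : ℝ) (hr : 0 < r) (m : ℕ) (hm : 1 ≤ m) :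
    ∃ (η c : ℝ) (L0 : ℕ), 0 < η ∧ 0 < c ∧
      ∀ (l0 l1 n : ℕ), L0 ≤ l0 → l0 ≤ l1 → l1 ≤ 2 * l0 + 1 → (l0 = l1 ∨ r = 1 / 2) → 1 ≤ n →
      (n : ℝ) ≤ η * (2 : ℝ) ^ l0 * (Lv l0 l1) ^ 2 * kap d l0 / ((l0 : ℝ) + 1) →
      (2 : ℝ) ^ l1 ≤ n * kap d l0 →
      ∀ N ε : ℝ, N < Real.exp (c * n * ((l0 : ℝ) + 1)) →
      Cov (fun v : Lp ℂ ∞ (mu d) => ‖v‖) (WR d r ((2 * m : ℕ) : ℝ≥0∞) ∞) N ε →
      c * (2 : ℝ) ^ ((1 / 2 - r) * l0) * Real.sqrt (Lv l0 l1 * kap d l0 / n) ≤ ε := by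
  obtain ⟨η, c, C, L0, hη, hc, hC, hcode⟩ := code_app d hd r hr.le m hm
  obtain ⟨c1, C1, hc1, hC1, hG⟩ := Gt_zero_bounds d (by omega)
  refine ⟨η, min c (5 / 16 * (c1 / C)), L0, hη, lt_min hc (by positivity), ?_⟩
  intro l0 l1 n hL0 h01 h12 hor hn hnη hnκ N ε hN hcov
  obtain ⟨S, hScard, hSII, hSnrm, hSIJ⟩ := hcode r l0 l1 n hL0 h01 h12 hn hnη hnκ
  have hn' : (0 : ℝ) < n := by exact_mod_cast hn
  have hLv : 0 < Lv l0 l1 := by
    have : (l0 : ℝ) ≤ l1 := by exact_mod_cast h01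
    unfold Lv
    linarith
  have hkap : 0 < kap d l0 := by
    unfold kap
    positivity
  set θ : ℝ := (2 : ℝ) ^ ((1 / 2 - r) * (l0 : ℝ)) with hθ
  have hθ0 : 0 < θ := by positivity
  set ρ : ℝ := C * Real.sqrt (n * Lv l0 l1 * kap d l0) with hρ
  have hsq : 0 < Real.sqrt (n * Lv l0 l1 * kap d l0) := Real.sqrt_pos.mpr (by positivity)
  have hρ0 : 0 < ρ := by positivity
  set L : Finset (Fin d → ℤ) := (Finset.Icc l0 l1).biUnion (Lam d) with hL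
  let g : CV d := fun k => (((2 : ℝ) ^ (lev k))⁻¹ : ℝ)
  let e : CV d := fun k => (((2 : ℝ) ^ ((lev k : ℝ) / 2))⁻¹ : ℝ) * wtd r r k
  have hGtp : ∀ x : Td d, ((Gt l0 l1 x : ℝ) : ℂ) = tp L g x := fun x => Gt_eq_tp l0 l1 x
  have hEtp : ∀ x : Td d, ((Et r r l0 l1 x : ℝ) : ℂ) = tp L e x := fun x => Et_eq_tp r r l0 l1 x
  let cI : (Fin n → Td d × Bool) → CV d := fun I k => ((θ * ρ⁻¹ : ℝ) : ℂ) * (g k * sI I k)
  have htpI : ∀ I x, tp L (cI I) x = ((θ * ρ⁻¹ * Ssum (Gt l0 l1) I x : ℝ) : ℂ) := by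
    intro I x
    rw [Complex.ofReal_mul, Ssum_tp L g _ hGtp I x]
    exact tp_smul L _ _ x
  -- membership
  have hmem : ∀ I ∈ S, tpLp ∞ L (cI I) ∈ WR d r ((2 * m : ℕ) : ℝ≥0∞) ∞ := by
    intro I hI
    have hcont : Continuous (fun x => ρ⁻¹ * Ssum (Et r r l0 l1) I x) :=
      (cont_Ssum_aux (continuous_Et r r l0 l1) I).const_mul _
    have hbound : nrm ((2 * m : ℕ) : ℝ≥0∞)
        (fun x => ((ρ⁻¹ * Ssum (Et r r l0 l1) I x : ℝ) : ℂ)) ≤ 1 := by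
      have h1 := nrm_smul ((2 * m : ℕ) : ℝ≥0∞) ((ρ⁻¹ : ℝ) : ℂ)
        (fun x => ((Ssum (Et r r l0 l1) I x : ℝ) : ℂ))
      simp only [← Complex.ofReal_mul] at h1
      rw [h1, Complex.norm_real, Real.norm_of_nonneg (by positivity), inv_mul_le_iff₀ hρ0, mul_one]
      exact hSnrm I hI
    obtain ⟨hm1, hm2⟩ := nrm_real _ hcont zero_le_one hbound
    refine ⟨fun x => ρ⁻¹ * Ssum (Et r r l0 l1) I x, hm1, by simpa using hm2, ?_⟩
    intro k
    have h2 : (fun x => ((ρ⁻¹ * Ssum (Et r r l0 l1) I x : ℝ) : ℂ)) =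
        (tp L (fun k => ((ρ⁻¹ : ℝ) : ℂ) * (e k * sI I k)) : Td d → ℂ) := by
      funext x
      rw [Complex.ofReal_mul, Ssum_tp L e _ hEtp I x]
      exact (tp_smul L _ _ x).symm
    rw [cf_tpLp, h2, cf_tp]
    by_cases hk : k ∈ L
    · rw [if_pos hk, if_pos hk]
      have h3 := coeff_id r l0 l1 hor k hk
      have h4 : lamr r k * e k = ((θ : ℝ) : ℂ) * g k := h3
      calc ((θ * ρ⁻¹ : ℝ) : ℂ) * (g k * sI I k)
          = ((ρ⁻¹ : ℝ) : ℂ) * ((((θ : ℝ) : ℂ) * g k) * sI I k) := by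
            push_cast
            ring
        _ = ((ρ⁻¹ : ℝ) : ℂ) * ((lamr r k * e k) * sI I k) := by rw [h4]
        _ = lamr r k * (((ρ⁻¹ : ℝ) : ℂ) * (e k * sI I k)) := by ring
    · rw [if_neg hk, if_neg hk, mul_zero]
  -- separation
  have hG0 := (hG l0 l1 h01 h12).1
  have hsep : ∀ I ∈ S, ∀ J ∈ S, I ≠ J →
      2 * (5 / 16 * (c1 / C) * θ * Real.sqrt (Lv l0 l1 * kap d l0 / n)) ≤
        ‖tpLp ∞ L (cI I) - tpLp ∞ L (cI J)‖ := by
    intro I hI J hJ hIJ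
    rw [norm_tpLp_sub]
    set A : ℝ := nrm ∞ (tp L (cI I - cI J)) with hA
    have hval : ∀ x, |θ * ρ⁻¹ * (Ssum (Gt l0 l1) I x - Ssum (Gt l0 l1) J x)| ≤ A := by
      intro x
      have h1 := le_nrm_infty (tp L (cI I - cI J)) x
      rw [tp_sub_apply, htpI, htpI, ← Complex.ofReal_sub, Complex.norm_real, Real.norm_eq_abs,
        ← mul_sub] at h1
      exact h1
    have h1 := sum_le_of_bound _ I A hval
    have h2 : ∑ i, sg (I i).2 *
        (θ * ρ⁻¹ * (Ssum (Gt l0 l1) I (I i).1 - Ssum (Gt l0 l1) J (I i).1)) =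
        θ * ρ⁻¹ * (Bf (Gt l0 l1) I I - Bf (Gt l0 l1) I J) := by
      unfold Bf
      rw [← Finset.sum_sub_distrib, Finset.mul_sum]
      refine Finset.sum_congr rfl fun i _ => ?_
      ring
    rw [h2] at h1
    have h3 := hSII I hI
    have h4 := (abs_le.mp (hSIJ I hI J hJ hIJ)).2
    have hθρ : 0 < θ * ρ⁻¹ := by positivity
    have h5 : θ * ρ⁻¹ * (5 / 8 * (n * Gt l0 l1 (0 : Td d))) ≤ n * A := by
      refine le_trans ?_ ((le_abs_self _).trans h1)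
      refine mul_le_mul_of_nonneg_left ?_ hθρ.le
      linarith
    have h6 : θ * ρ⁻¹ * (5 / 8) * (c1 * Lv l0 l1 * kap d l0) ≤ A := by
      have h7 : (n : ℝ) * (θ * ρ⁻¹ * (5 / 8) * (c1 * Lv l0 l1 * kap d l0)) ≤ n * A := by
        refine le_trans ?_ h5
        have : θ * ρ⁻¹ * (5 / 8) * (c1 * Lv l0 l1 * kap d l0) ≤
            θ * ρ⁻¹ * (5 / 8) * Gt l0 l1 (0 : Td d) :=
          mul_le_mul_of_nonneg_left hG0 (by positivity)
        calc (n : ℝ) * (θ * ρ⁻¹ * (5 / 8) * (c1 * Lv l0 l1 * kap d l0))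
            ≤ n * (θ * ρ⁻¹ * (5 / 8) * Gt l0 l1 (0 : Td d)) :=
              mul_le_mul_of_nonneg_left this hn'.le
          _ = _ := by ring
      exact le_of_mul_le_mul_left h7 hn'
    refine le_trans (le_of_eq ?_) h6
    have h8 : Real.sqrt (Lv l0 l1 * kap d l0 / n) =
        Lv l0 l1 * kap d l0 / Real.sqrt (n * Lv l0 l1 * kap d l0) := by
      rw [eq_div_iff hsq.ne', ← Real.sqrt_mul (by positivity)]
      have : Lv l0 l1 * kap d l0 / n * (n * Lv l0 l1 * kap d l0) = (Lv l0 l1 * kap d l0) ^ 2 := by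
        field_simp
      rw [this, Real.sqrt_sq (by positivity)]
    rw [h8, hρ]
    field_simp
    ring
  -- pigeonhole
  obtain ⟨Y, hY, hYc⟩ := hcov
  have hNS : N < S.card := by
    refine hN.trans_le (le_trans ?_ hScard)
    refine Real.exp_le_exp.mpr ?_
    have : min c (5 / 16 * (c1 / C)) ≤ c := min_le_left _ _
    gcongr
  have hYS : Y.card < S.card := by
    have : (Y.card : ℝ) < S.card := hY.trans_lt hNS
    exact_mod_cast this
  choose! ctr hctr hctrε using hYc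
  obtain ⟨I, hI, J, hJ, hIJ, heq⟩ := Finset.exists_ne_map_eq_of_card_lt_of_maps_to hYS
    (f := fun I => ctr (tpLp ∞ L (cI I))) (fun I hI => hctr _ (hmem I hI))
  have h1 := hsep I hI J hJ hIJ
  have h2 := hctrε _ (hmem I hI)
  have h3 := hctrε _ (hmem J hJ)
  simp only at h2 h3 heq
  rw [← heq] at h3
  have h4 : ‖tpLp ∞ L (cI I) - tpLp ∞ L (cI J)‖ ≤ ε + ε := by
    have h5 : tpLp ∞ L (cI I) - tpLp ∞ L (cI J) =
        (tpLp ∞ L (cI I) - ctr (tpLp ∞ L (cI I))) -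
          (tpLp ∞ L (cI J) - ctr (tpLp ∞ L (cI I))) := by abel
    rw [h5]
    exact (norm_sub_le _ _).trans (add_le_add h2 h3)
  have h6 : 5 / 16 * (c1 / C) * θ * Real.sqrt (Lv l0 l1 * kap d l0 / n) ≤ ε := by linarith
  refine le_trans ?_ h6
  have h7 : min c (5 / 16 * (c1 / C)) ≤ 5 / 16 * (c1 / C) := min_le_right _ _
  have h8 : 0 ≤ Real.sqrt (Lv l0 l1 * kap d l0 / n) := Real.sqrt_nonneg _
  gcongr

end MPcd65c1
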