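import Pool.Agent.Lib.MP_cd65c1_an.APars
import Pool.Agent.Lib.MP_cd65c1_an.ANrm

/-!
# MP_cd65c1_an / LVP : a kernel with `V^ = 1` on a box and bounded `L_1` norm (about 110 lines)

`A = {k : |k_j| ≤ 2R}`, `B = {k : |k_j| ≤ R}` (finite sets `Fintype.piFinset (fun _ => Finset.Icc (-R) R)`),
`V(x) = (#B)^(-1) (Σ_{a ∈ A} e_a(x)) (Σ_{b ∈ B} e_b(x)) = Σ_k c_k e_k(x)`,
`c_k = #{(a,b) ∈ A × B : a + b = k}/#B`, spectrum in `{|k_j| ≤ 3R}`.
For `k ∈ B`... for `|k_j| ≤ R` and any `b ∈ B`: `a = k - b ∈ A`, so `c_k = 1`.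
`V` is real: `A`, `B` are symmetric, so both factors are real.
`∫|V| ≤ (#B)^(-1) ‖Σ_A e_a‖_2 ‖Σ_B e_b‖_2 = sqrt(#A #B)/#B = sqrt(#A/#B) = ((4R+1)/(2R+1))^(d/2) ≤ 2^d`
(Cauchy-Schwarz, `integral_norm_sq_tp` or `norm_integral_mul_le` with exponents 2, 2).
-/

namespace MPcd65c1

open MeasureTheory

private noncomputable def box (d m : ℕ) : Finset (Fin d → ℤ) :=
  Fintype.piFinset (fun _ : Fin d => Finset.Icc (-(m : ℤ)) m)

private lemma mem_box (d m : ℕ) (k : Fin d → ℤ) : k ∈ box d m ↔ ∀ j, |k j| ≤ m := by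
  unfold box
  rw [Fintype.mem_piFinset]
  simp only [Finset.mem_Icc, abs_le]

private lemma card_box (d m : ℕ) : (box d m).card = (2 * m + 1) ^ d := by
  unfold box
  rw [Fintype.card_piFinset]
  have h : (Finset.Icc (-(m : ℤ)) m).card = 2 * m + 1 := by
    rw [Int.card_Icc]
    omega
  simp [h]

private lemma conj_tp_box (d m : ℕ) (x : Td d) :
    (starRingEnd ℂ) (tp (box d m) 1 x) = tp (box d m) 1 x := by
  rw [tp_apply, map_sum]
  simp only [Pi.one_apply, one_mul, mF_conj]
  apply Finset.sum_bij (fun k _ => -k)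
  · intro k hk
    rw [mem_box] at hk ⊢
    intro j
    rw [Pi.neg_apply, abs_neg]
    exact hk j
  · intro a _ b _ h
    exact neg_injective h
  · intro b hb
    refine ⟨-b, ?_, neg_neg b⟩
    rw [mem_box] at hb ⊢
    intro j
    rw [Pi.neg_apply, abs_neg]
    exact hb j
  · intro k _
    rfl

private lemma integral_tp_box (d m : ℕ) :
    ∫ x, ‖tp (box d m) 1 x‖ ^ 2 ∂(mu d) = ((2 * (m : ℝ) + 1)) ^ d := by
  rw [integral_norm_sq_tp]
  simp only [Pi.one_apply, norm_one, one_pow, Finset.sum_const, nsmul_eq_mul, mul_one]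
  rw [card_box]
  push_cast
  rfl

theorem vp_kernel (d R : ℕ) :
    ∃ (L : Finset (Fin d → ℤ)) (c : CV d),
      (∀ k : Fin d → ℤ, (∀ j, |k j| ≤ R) → k ∈ L ∧ c k = 1) ∧
      (∀ x, (tp L c x).im = 0) ∧ ∫ x, ‖tp L c x‖ ∂(mu d) ≤ 2 ^ d := by
  classical
  set A := box d (2 * R) with hA
  set B := box d R with hB
  set P : Finset ((Fin d → ℤ) × (Fin d → ℤ)) := A ×ˢ B with hP
  set L : Finset (Fin d → ℤ) := P.image (fun p => p.1 + p.2) with hL
  set c : CV d := fun k => (((P.filter (fun p => p.1 + p.2 = k)).card : ℝ) / (B.card : ℝ) : ℝ)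
    with hc
  have hBc : 0 < B.card := by rw [hB, card_box]; positivity
  have hBr : (0 : ℝ) < B.card := by exact_mod_cast hBc
  have hBC : (B.card : ℂ) ≠ 0 := by exact_mod_cast hBc.ne'
  have htp : ∀ x : Td d, tp L c x = (B.card : ℂ)⁻¹ * (tp A 1 x * tp B 1 x) := by
    intro x
    rw [tp_apply]
    have h1 : ∀ k ∈ L, c k * (UnitAddTorus.mFourier k x : ℂ) =
        ∑ p ∈ P.filter (fun p => p.1 + p.2 = k), (B.card : ℂ)⁻¹ *
          (UnitAddTorus.mFourier (p.1 + p.2) x : ℂ) := by
      intro k _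
      have h2 : ∀ p ∈ P.filter (fun p => p.1 + p.2 = k), (B.card : ℂ)⁻¹ *
          (UnitAddTorus.mFourier (p.1 + p.2) x : ℂ) =
          (B.card : ℂ)⁻¹ * (UnitAddTorus.mFourier k x : ℂ) := by
        intro p hp
        rw [(Finset.mem_filter.1 hp).2]
      rw [Finset.sum_congr rfl h2, Finset.sum_const, nsmul_eq_mul]
      simp only [hc]
      push_cast
      ring
    rw [Finset.sum_congr rfl h1, Finset.sum_fiberwise_of_maps_to
      (fun p hp => Finset.mem_image_of_mem _ hp)
      (fun p : (Fin d → ℤ) × (Fin d → ℤ) => (B.card : ℂ)⁻¹ *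
        (UnitAddTorus.mFourier (p.1 + p.2) x : ℂ)), ← Finset.mul_sum, hP, Finset.sum_product]
    congr 1
    rw [tp_apply, tp_apply, Finset.sum_mul_sum]
    apply Finset.sum_congr rfl
    intro a _
    apply Finset.sum_congr rfl
    intro b _
    rw [UnitAddTorus.mFourier_add]
    simp
  refine ⟨L, c, ?_, ?_, ?_⟩
  · intro k hk
    have hzero : (0 : Fin d → ℤ) ∈ B := by
      rw [hB, mem_box]
      intro j
      simp
    have hmem : ∀ b ∈ B, k - b ∈ A := by
      intro b hb
      rw [hB, mem_box] at hb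
      rw [hA, mem_box]
      intro j
      have h1 := hk j
      have h2 := hb j
      rw [Pi.sub_apply]
      rw [abs_le] at h1 h2 ⊢
      push_cast
      constructor
      · linarith [h1.1, h2.2]
      · linarith [h1.2, h2.1]
    constructor
    · rw [hL, Finset.mem_image]
      refine ⟨(k - 0, 0), ?_, by simp⟩
      rw [hP, Finset.mem_product]
      exact ⟨hmem 0 hzero, hzero⟩
    · have hcard : (P.filter (fun p => p.1 + p.2 = k)).card = B.card := by
        apply Finset.card_bij (fun p _ => p.2)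
        · intro p hp
          have := (Finset.mem_filter.1 hp).1
          rw [hP, Finset.mem_product] at this
          exact this.2
        · intro p hp q hq hpq
          have h1 := (Finset.mem_filter.1 hp).2
          have h2 := (Finset.mem_filter.1 hq).2
          have h3 : p.1 = q.1 := by
            have h4 : p.1 + p.2 = q.1 + p.2 := by rw [h1, hpq, h2]
            exact add_right_cancel h4
          exact Prod.ext h3 hpq
        · intro b hb
          refine ⟨(k - b, b), ?_, rfl⟩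
          rw [Finset.mem_filter, hP, Finset.mem_product]
          exact ⟨⟨hmem b hb, hb⟩, sub_add_cancel k b⟩
      simp only [hc]
      rw [hcard, div_self hBr.ne']
      simp
  · intro x
    rw [← Complex.conj_eq_iff_im, htp x, map_mul, map_mul, hA, hB, conj_tp_box, conj_tp_box,
      map_inv₀, Complex.conj_natCast]
  · have h1 : ∀ x : Td d, ‖tp L c x‖ ≤
        (B.card : ℝ)⁻¹ * ((1 / 2) * ‖tp A 1 x‖ ^ 2 + (1 / 2) * ‖tp B 1 x‖ ^ 2) := by
      intro x
      rw [htp x, norm_mul, norm_mul, norm_inv, Complex.norm_natCast]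
      apply mul_le_mul_of_nonneg_left _ (by positivity)
      nlinarith [sq_nonneg (‖tp A 1 x‖ - ‖tp B 1 x‖)]
    have hcA : Continuous (fun x : Td d => ‖tp A 1 x‖ ^ 2) := ((tp A 1).continuous.norm.pow 2)
    have hcB : Continuous (fun x : Td d => ‖tp B 1 x‖ ^ 2) := ((tp B 1).continuous.norm.pow 2)
    have hiA : Integrable (fun x : Td d => (1 / 2) * ‖tp A 1 x‖ ^ 2) (mu d) :=
      (continuous_const.mul hcA).integrable_of_hasCompactSupport (HasCompactSupport.of_compactSpace _)
    have hiB : Integrable (fun x : Td d => (1 / 2) * ‖tp B 1 x‖ ^ 2) (mu d) :=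
      (continuous_const.mul hcB).integrable_of_hasCompactSupport (HasCompactSupport.of_compactSpace _)
    have hiL : Integrable (fun x : Td d => ‖tp L c x‖) (mu d) :=
      (tp L c).continuous.norm.integrable_of_hasCompactSupport (HasCompactSupport.of_compactSpace _)
    calc ∫ x, ‖tp L c x‖ ∂(mu d)
        ≤ ∫ x, (B.card : ℝ)⁻¹ * ((1 / 2) * ‖tp A 1 x‖ ^ 2 + (1 / 2) * ‖tp B 1 x‖ ^ 2) ∂(mu d) :=
          integral_mono hiL ((hiA.add hiB).const_mul _) h1
      _ = (B.card : ℝ)⁻¹ * ((1 / 2) * (2 * ((2 * R : ℕ) : ℝ) + 1) ^ d +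
            (1 / 2) * (2 * (R : ℝ) + 1) ^ d) := by
          rw [integral_const_mul, integral_add hiA hiB, integral_const_mul, integral_const_mul,
            hA, hB, integral_tp_box, integral_tp_box]
      _ ≤ 2 ^ d := by
          have hBe : (B.card : ℝ) = (2 * (R : ℝ) + 1) ^ d := by
            rw [hB, card_box]
            push_cast
            rfl
          rw [inv_mul_le_iff₀ hBr, hBe]
          have h2 : (2 * ((2 * R : ℕ) : ℝ) + 1) ^ d ≤ (2 * (R : ℝ) + 1) ^ d * 2 ^ d := by
            rw [← mul_pow]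
            apply pow_le_pow_left₀ (by positivity)
            push_cast
            linarith
          have h3 : (2 * (R : ℝ) + 1) ^ d ≤ (2 * (R : ℝ) + 1) ^ d * 2 ^ d := by
            have h4 : (1 : ℝ) ≤ 2 ^ d := one_le_pow₀ (by norm_num)
            exact le_mul_of_one_le_right (by positivity) h4
          linarith

end MPcd65c1
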