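import Pool.Agent.Lib.MP_cd65c1_an.CApp
import Pool.Agent.Lib.MP_cd65c1_an.ALp
import Pool.Agent.Lib.MP_cd65c1_an.LVP

/-!
# MP_cd65c1_an / LOne : separated families for `p = 1` (about 200 lines)

Let `S`, `C`, `c` be from `code_app` with `σ = -r`; `κ, Λ, θ` as in `LInf`.  `V = tp L c` real with
`V^ = 1` on `{|k_j| ≤ 2^l1}`, `∫|V| ≤ 2^d` (`vp_kernel` with `R = 2^l1`; all `k` with `lev k ≤ l1` are in the box:
`|k_j| < 2^(size |k_j|) ≤ 2^l1`).  For `I ∈ S`: `φ_I = (2^d n)^(-1) Ssum (V.re) I`, `nrm 1 φ_I ≤ 1`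
(translation invariance of the norm), `f_I = Σ_{k ∈ L} lamr r k c_k (2^d n)^(-1) (Σ_i ε_i e_{-k}(y_i)) e_k`,
a trigonometric polynomial, `f_I ∈ WR d r 1 q` (`cf_translate`, `cf_sum`, `cf_tp`).
TEST FUNCTION `g_I = Ssum (Et r (-r) l0 l1) I`, real, `nrm (2m) g_I ≤ C sqrt(n Λ κ)`, a trigonometric
polynomial with coefficients `γ_I(k) = 2^(-lev k/2) wtd r (-r) k Σ_i ε_i e_{-k}(y_i)`, `l0 ≤ lev k ≤ l1`.
`∫ f_J conj(g_I) = Σ_k cf f_J k conj(γ_I(k))` (`integral_mul_conj_tp`); `conj (wtd r (-r) k) = wtd r r k`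
(`wt_neg_phase`), `lamr r k wtd r r k = 2^(-r lev k)`, so
`= (2^d n)^(-1) Σ_{l0 ≤ lev k ≤ l1} θ 2^(-lev k) Σ_{i,j} ε_i ε'_j e_k(y_i - y'_j) = (2^d n)^(-1) θ Bf Gt I J`.
HOELDER (`norm_integral_mul_le`): for `I ≠ J`
`(2^d n)^(-1) θ (5/8) n Gt(0) ≤ |∫ (f_I - f_J) g_I| ≤ nrm q (f_I - f_J) * C sqrt(n Λ κ)`, so
`‖f_I - f_J‖_q ≥ c' θ sqrt(Λ κ/n)`.  Covering argument as in `LInf`.
-/

namespace MPcd65c1

open MeasureTheory
open scoped ENNReal

/-- coefficients of a signed sum of translates -/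
private noncomputable def sI {d n : ℕ} (I : Fin n → Td d × Bool) : CV d :=
  fun k => ∑ i, ((sg (I i).2 : ℝ) : ℂ) * UnitAddTorus.mFourier (-k) (I i).1

private theorem Ssum_tp {d n : ℕ} (L : Finset (Fin d → ℤ)) (g : CV d) (E : Td d → ℝ)
    (hE : ∀ x, ((E x : ℝ) : ℂ) = tp L g x) (I : Fin n → Td d × Bool) (x : Td d) :
    ((Ssum E I x : ℝ) : ℂ) = tp L (fun k => g k * sI I k) x := by
  unfold Ssum
  push_cast
  simp_rw [hE, tp_apply, sub_eq_add_neg, mF_add_arg, mF_neg_arg]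
  simp_rw [Finset.mul_sum]
  rw [Finset.sum_comm]
  refine Finset.sum_congr rfl fun k _ => ?_
  simp only [sI, Finset.mul_sum, Finset.sum_mul]
  refine Finset.sum_congr rfl fun i _ => ?_
  ring

private theorem tp_smul {d : ℕ} (L : Finset (Fin d → ℤ)) (c : CV d) (t : ℂ) (x : Td d) :
    tp L (fun k => t * c k) x = t * tp L c x := by
  rw [tp_apply, tp_apply, Finset.mul_sum]
  refine Finset.sum_congr rfl fun k _ => ?_
  ring

private theorem tp_sub_apply {d : ℕ} (L : Finset (Fin d → ℤ)) (c c' : CV d) (x : Td d) :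
    tp L (c - c') x = tp L c x - tp L c' x := by
  rw [tp_apply, tp_apply, tp_apply, ← Finset.sum_sub_distrib]
  refine Finset.sum_congr rfl fun k _ => ?_
  rw [Pi.sub_apply]
  ring

private theorem exp_id (r : ℝ) (l0 l : ℕ) (h : l = l0 ∨ r = 1 / 2) :
    ((2 : ℝ) ^ ((l : ℝ) / 2))⁻¹ * (2 : ℝ) ^ (-(r * (l : ℝ))) =
      (2 : ℝ) ^ ((1 / 2 - r) * (l0 : ℝ)) * ((2 : ℝ) ^ l)⁻¹ := by
  rw [← Real.rpow_neg (by norm_num), ← Real.rpow_natCast, ← Real.rpow_neg (by norm_num),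
    ← Real.rpow_add (by norm_num), ← Real.rpow_add (by norm_num)]
  congr 1
  rcases h with rfl | rfl
  · ring
  · ring

private theorem coeff_id {d : ℕ} (r : ℝ) (l0 l1 : ℕ) (h : l0 = l1 ∨ r = 1 / 2)
    (k : Fin d → ℤ) (hk : k ∈ (Finset.Icc l0 l1).biUnion (Lam d)) :
    lamr r k * ((((2 : ℝ) ^ ((lev k : ℝ) / 2))⁻¹ : ℝ) * wtd r r k) =
      (((2 : ℝ) ^ ((1 / 2 - r) * (l0 : ℝ)) : ℝ) : ℂ) * (((2 : ℝ) ^ (lev k))⁻¹ : ℝ) := by
  obtain ⟨l, hl, hkl⟩ := Finset.mem_biUnion.mp hk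
  rw [mem_Lam] at hkl
  rw [Finset.mem_Icc] at hl
  have h1 := lamr_mul_wt r k
  have h2 : lev k = l0 ∨ r = 1 / 2 := by
    rcases h with h | h
    · left
      omega
    · right
      exact h
  have h3 := exp_id r l0 (lev k) h2
  have h4 : lamr r k * ((((2 : ℝ) ^ ((lev k : ℝ) / 2))⁻¹ : ℝ) * wtd r r k) =
      (((2 : ℝ) ^ ((lev k : ℝ) / 2))⁻¹ : ℝ) * (lamr r k * ∏ j, wt r r (k j)) := by
    unfold wtd
    ring
  rw [h4, h1, ← Complex.ofReal_mul, ← Complex.ofReal_mul, h3]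

private theorem nrm_real {d : ℕ} {q : ℝ≥0∞} (f : Td d → ℝ) (hf : Continuous f) {A : ℝ}
    (hA : 0 ≤ A) (h : nrm q (fun x => ((f x : ℝ) : ℂ)) ≤ A) :
    MemLp f q (mu d) ∧ eLpNorm f q (mu d) ≤ ENNReal.ofReal A := by
  have h1 : MemLp f q (mu d) := by
    obtain ⟨C, hC⟩ := (isCompact_univ (X := Td d)).exists_bound_of_continuousOn hf.continuousOn
    exact MemLp.of_bound hf.aestronglyMeasurable C
      (Filter.Eventually.of_forall fun x => hC x (Set.mem_univ x))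
  refine ⟨h1, ?_⟩
  have h2 : eLpNorm (fun x => ((f x : ℝ) : ℂ)) q (mu d) = eLpNorm f q (mu d) :=
    eLpNorm_congr_norm_ae (Filter.Eventually.of_forall fun x => by simp)
  rw [nrm, h2] at h
  exact (ENNReal.le_ofReal_iff_toReal_le h1.eLpNorm_ne_top hA).mpr h

private theorem cont_Ssum_aux {d n : ℕ} {E : Td d → ℝ} (hE : Continuous E)
    (I : Fin n → Td d × Bool) : Continuous (Ssum E I) := by
  unfold Ssum
  fun_prop

private theorem abs_sg (b : Bool) : |sg b| = 1 := by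
  cases b <;> simp [sg]

private theorem conj_sI {d n : ℕ} (I : Fin n → Td d × Bool) (k : Fin d → ℤ) :
    (starRingEnd ℂ) (sI I k) =
      ∑ i, ((sg (I i).2 : ℝ) : ℂ) * UnitAddTorus.mFourier k (I i).1 := by
  unfold sI
  rw [map_sum]
  refine Finset.sum_congr rfl fun i _ => ?_
  rw [map_mul, Complex.conj_ofReal, mF_conj, neg_neg]

private theorem Bf_eq {d n : ℕ} (L : Finset (Fin d → ℤ)) (g : CV d) (E : Td d → ℝ)
    (hE : ∀ x, ((E x : ℝ) : ℂ) = tp L g x) (I J : Fin n → Td d × Bool) :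
    ((Bf E I J : ℝ) : ℂ) = ∑ k ∈ L, g k * sI J k * (starRingEnd ℂ) (sI I k) := by
  unfold Bf
  push_cast
  simp_rw [Ssum_tp L g E hE J, tp_apply, conj_sI, Finset.mul_sum]
  rw [Finset.sum_comm]
  refine Finset.sum_congr rfl fun k _ => ?_
  refine Finset.sum_congr rfl fun i _ => ?_
  ring

private theorem conj_wtd {d : ℕ} (r σ : ℝ) (k : Fin d → ℤ) :
    (starRingEnd ℂ) (wtd r (-σ) k) = wtd r σ k := by
  unfold wtd
  rw [map_prod]
  refine Finset.prod_congr rfl fun j _ => ?_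
  rw [wt_neg_phase, Complex.conj_conj]

private theorem int_Ssum {d n : ℕ} (V : Td d → ℝ) (hV : Continuous V)
    (I : Fin n → Td d × Bool) (A : ℝ) (hA : ∫ x, ‖V x‖ ∂(mu d) ≤ A) :
    ∫ x, ‖Ssum V I x‖ ∂(mu d) ≤ n * A := by
  have hint : ∀ y : Td d, Integrable (fun x => ‖V (x - y)‖) (mu d) := fun y =>
    ((hV.comp (continuous_id.sub continuous_const)).norm).integrable_of_hasCompactSupport
      (HasCompactSupport.of_compactSpace _)
  have h1 : ∫ x, ‖Ssum V I x‖ ∂(mu d) ≤ ∫ x, ∑ i : Fin n, ‖V (x - (I i).1)‖ ∂(mu d) := by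
    refine integral_mono ?_ (integrable_finsetSum _ fun i _ => hint _) ?_
    · exact ((cont_Ssum_aux hV I).norm).integrable_of_hasCompactSupport
        (HasCompactSupport.of_compactSpace _)
    · intro x
      unfold Ssum
      refine (norm_sum_le _ _).trans (Finset.sum_le_sum fun i _ => ?_)
      rw [norm_mul, Real.norm_eq_abs (sg _), abs_sg, one_mul]
  refine h1.trans ?_
  rw [integral_finsetSum _ fun i _ => hint _]
  have h2 : ∀ i : Fin n, ∫ x, ‖V (x - (I i).1)‖ ∂(mu d) ≤ A := by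
    intro i
    rw [integral_sub_right_eq_self (fun x => ‖V x‖) (I i).1]
    exact hA
  calc ∑ i : Fin n, ∫ x, ‖V (x - (I i).1)‖ ∂(mu d) ≤ ∑ _i : Fin n, A :=
        Finset.sum_le_sum fun i _ => h2 i
    _ = n * A := by simp

private theorem abs_lt_of_lev {d : ℕ} (k : Fin d → ℤ) (l1 : ℕ) (h : lev k ≤ l1) (j : Fin d) :
    |k j| ≤ ((2 ^ l1 : ℕ) : ℤ) := by
  have h1 : Nat.size (k j).natAbs ≤ lev k := by
    unfold lev
    exact Finset.single_le_sum (f := fun j => Nat.size (k j).natAbs) (fun _ _ => Nat.zero_le _)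
      (Finset.mem_univ j)
  have h2 : (k j).natAbs < 2 ^ l1 := Nat.size_le.mp (h1.trans h)
  rw [Int.abs_eq_natAbs]
  exact_mod_cast h2.le

theorem sep_one (d : ℕ) (hd : 2 ≤ d) (r : ℝ) (hr : 0 < r) (m : ℕ) (hm : 1 ≤ m) :
    ∃ (η c : ℝ) (L0 : ℕ), 0 < η ∧ 0 < c ∧
      ∀ (l0 l1 n : ℕ), L0 ≤ l0 → l0 ≤ l1 → l1 ≤ 2 * l0 + 1 → (l0 = l1 ∨ r = 1 / 2) → 1 ≤ n →
      (n : ℝ) ≤ η * (2 : ℝ) ^ l0 * (Lv l0 l1) ^ 2 * kap d l0 / ((l0 : ℝ) + 1) →
      (2 : ℝ) ^ l1 ≤ n * kap d l0 →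
      ∀ (q : ℝ≥0∞) [Fact (1 ≤ q)], q.HolderConjugate ((2 * m : ℕ) : ℝ≥0∞) →
      ∀ N ε : ℝ, N < Real.exp (c * n * ((l0 : ℝ) + 1)) →
      Cov (fun v : Lp ℂ q (mu d) => ‖v‖) (WR d r 1 q) N ε →
      c * (2 : ℝ) ^ ((1 / 2 - r) * l0) * Real.sqrt (Lv l0 l1 * kap d l0 / n) ≤ ε := by
  obtain ⟨η, c, C, L0, hη, hc, hC, hcode⟩ := code_app d hd r hr.le m hm
  obtain ⟨c1, C1, hc1, hC1, hG⟩ := Gt_zero_bounds d (by omega)
  refine ⟨η, min c (5 / 16 * (c1 / C) / 2 ^ d), L0, hη, lt_min hc (by positivity), ?_⟩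
  intro l0 l1 n hL0 h01 h12 hor hn hnη hnκ q _ hq N ε hN hcov
  obtain ⟨S, hScard, hSII, hSnrm, hSIJ⟩ := hcode (-r) l0 l1 n hL0 h01 h12 hn hnη hnκ
  obtain ⟨LV, cV, hLV, hVim, hVint⟩ := vp_kernel d (2 ^ l1)
  have hn' : (0 : ℝ) < n := by exact_mod_cast hn
  have hLv : 0 < Lv l0 l1 := by
    have : (l0 : ℝ) ≤ l1 := by exact_mod_cast h01
    unfold Lv
    linarith
  have hkap : 0 < kap d l0 := by
    unfold kap
    positivity
  set θ : ℝ := (2 : ℝ) ^ ((1 / 2 - r) * (l0 : ℝ)) with hθ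
  have hθ0 : 0 < θ := by positivity
  set ρ : ℝ := C * Real.sqrt (n * Lv l0 l1 * kap d l0) with hρ
  have hsq : 0 < Real.sqrt (n * Lv l0 l1 * kap d l0) := Real.sqrt_pos.mpr (by positivity)
  have hρ0 : 0 < ρ := by positivity
  set L : Finset (Fin d → ℤ) := (Finset.Icc l0 l1).biUnion (Lam d) with hL
  have hLsub : ∀ k ∈ L, k ∈ LV ∧ cV k = 1 := by
    intro k hk
    obtain ⟨l, hl, hkl⟩ := Finset.mem_biUnion.mp hk
    rw [mem_Lam] at hkl
    rw [Finset.mem_Icc] at hl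
    exact hLV k (fun j => abs_lt_of_lev k l1 (by omega) j)
  let g : CV d := fun k => (((2 : ℝ) ^ (lev k))⁻¹ : ℝ)
  let e : CV d := fun k => (((2 : ℝ) ^ ((lev k : ℝ) / 2))⁻¹ : ℝ) * wtd r (-r) k
  have hGtp : ∀ x : Td d, ((Gt l0 l1 x : ℝ) : ℂ) = tp L g x := fun x => Gt_eq_tp l0 l1 x
  have hEtp : ∀ x : Td d, ((Et r (-r) l0 l1 x : ℝ) : ℂ) = tp L e x :=
    fun x => Et_eq_tp r (-r) l0 l1 x
  let V : Td d → ℝ := fun x => (tp LV cV x).re
  have hVtp : ∀ x : Td d, ((V x : ℝ) : ℂ) = tp LV cV x := by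
    intro x
    refine Complex.ext (by simp [V]) ?_
    rw [hVim x, Complex.ofReal_im]
  have hVcont : Continuous V := Complex.continuous_re.comp (tp LV cV).continuous
  have hVint' : ∫ x, ‖V x‖ ∂(mu d) ≤ 2 ^ d := by
    refine le_trans (le_of_eq ?_) hVint
    refine integral_congr_ae (Filter.Eventually.of_forall fun x => ?_)
    simp only
    rw [← hVtp x, Complex.norm_real]
  set τ : ℝ := ((2 : ℝ) ^ d * n)⁻¹ with hτ
  have hτ0 : 0 < τ := by positivity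
  let cI : (Fin n → Td d × Bool) → CV d :=
    fun I k => lamr r k * (((τ : ℝ) : ℂ) * (cV k * sI I k))
  -- membership
  have hmem : ∀ I ∈ S, tpLp q LV (cI I) ∈ WR d r 1 q := by
    intro I hI
    have hcont : Continuous (fun x => τ * Ssum V I x) :=
      (cont_Ssum_aux hVcont I).const_mul _
    have hbound : nrm (1 : ℝ≥0∞) (fun x => ((τ * Ssum V I x : ℝ) : ℂ)) ≤ 1 := by
      have hmeas : AEStronglyMeasurable (fun x => ((τ * Ssum V I x : ℝ) : ℂ)) (mu d) :=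
        (Complex.continuous_ofReal.comp hcont).aestronglyMeasurable
      rw [nrm_one_eq _ hmeas]
      have h1 : ∀ x, ‖((τ * Ssum V I x : ℝ) : ℂ)‖ = τ * ‖Ssum V I x‖ := by
        intro x
        rw [Complex.norm_real, norm_mul, Real.norm_of_nonneg hτ0.le]
      simp_rw [h1]
      rw [integral_const_mul]
      have h2 := int_Ssum V hVcont I _ hVint'
      calc τ * ∫ x, ‖Ssum V I x‖ ∂(mu d) ≤ τ * (n * 2 ^ d) :=
            mul_le_mul_of_nonneg_left h2 hτ0.le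
        _ = 1 := by
            rw [hτ, mul_comm (n : ℝ)]
            exact inv_mul_cancel₀ (by positivity)
    obtain ⟨hm1, hm2⟩ := nrm_real _ hcont zero_le_one hbound
    refine ⟨fun x => τ * Ssum V I x, hm1, by simpa using hm2, ?_⟩
    intro k
    have h2 : (fun x => ((τ * Ssum V I x : ℝ) : ℂ)) =
        (tp LV (fun k => ((τ : ℝ) : ℂ) * (cV k * sI I k)) : Td d → ℂ) := by
      funext x
      rw [Complex.ofReal_mul, Ssum_tp LV cV _ hVtp I x]
      exact (tp_smul LV _ _ x).symm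
    rw [cf_tpLp, h2, cf_tp]
    by_cases hk : k ∈ LV
    · rw [if_pos hk, if_pos hk]
    · rw [if_neg hk, if_neg hk, mul_zero]
  -- the duality identity
  have hdual : ∀ I J : Fin n → Td d × Bool,
      ∫ x, (tp LV (cI J) x) * (starRingEnd ℂ) ((Ssum (Et r (-r) l0 l1) I x : ℝ) : ℂ) ∂(mu d) =
        ((τ * θ * Bf (Gt l0 l1) I J : ℝ) : ℂ) := by
    intro I J
    simp_rw [Ssum_tp L e _ hEtp I]
    rw [integral_mul_conj_tp L _ ((memLp_tp 1 LV (cI J)).integrable le_rfl)]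
    rw [Complex.ofReal_mul, Bf_eq L g _ hGtp I J, Finset.mul_sum]
    refine Finset.sum_congr rfl fun k hk => ?_
    obtain ⟨hk1, hk2⟩ := hLsub k hk
    rw [cf_tp, if_pos hk1]
    have h3 := coeff_id r l0 l1 hor k hk
    have h4 : lamr r k * ((((2 : ℝ) ^ ((lev k : ℝ) / 2))⁻¹ : ℝ) * wtd r r k) =
      ((θ : ℝ) : ℂ) * g k := h3
    have h5 : (starRingEnd ℂ) (e k * sI I k) =
        ((((2 : ℝ) ^ ((lev k : ℝ) / 2))⁻¹ : ℝ) * wtd r r k) * (starRingEnd ℂ) (sI I k) := by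
      rw [map_mul]
      congr 1
      simp only [e]
      rw [map_mul, Complex.conj_ofReal, conj_wtd]
    rw [h5]
    simp only [cI, hk2, one_mul]
    calc lamr r k * (((τ : ℝ) : ℂ) * sI J k) *
          (((((2 : ℝ) ^ ((lev k : ℝ) / 2))⁻¹ : ℝ) * wtd r r k) * (starRingEnd ℂ) (sI I k))
        = ((τ : ℝ) : ℂ) * (lamr r k * ((((2 : ℝ) ^ ((lev k : ℝ) / 2))⁻¹ : ℝ) * wtd r r k)) *
            (sI J k * (starRingEnd ℂ) (sI I k)) := by ring
      _ = ((τ : ℝ) : ℂ) * (((θ : ℝ) : ℂ) * g k) *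
            (sI J k * (starRingEnd ℂ) (sI I k)) := by rw [h4]
      _ = ((τ * θ : ℝ) : ℂ) * (g k * sI J k * (starRingEnd ℂ) (sI I k)) := by
            push_cast
            ring
  -- separation
  have hG0 := (hG l0 l1 h01 h12).1
  have hsep : ∀ I ∈ S, ∀ J ∈ S, I ≠ J →
      2 * (5 / 16 * (c1 / C) / 2 ^ d * θ * Real.sqrt (Lv l0 l1 * kap d l0 / n)) ≤
        ‖tpLp q LV (cI I) - tpLp q LV (cI J)‖ := by
    intro I hI J hJ hIJ
    rw [norm_tpLp_sub]
    set A : ℝ := nrm q (tp LV (cI I - cI J)) with hA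
    have hA0 : 0 ≤ A := nrm_nonneg _ _
    have hEc : Continuous (fun x => ((Ssum (Et r (-r) l0 l1) I x : ℝ) : ℂ)) :=
      Complex.continuous_ofReal.comp (cont_Ssum_aux (continuous_Et r (-r) l0 l1) I)
    have hEm : MemLp (fun x => ((Ssum (Et r (-r) l0 l1) I x : ℝ) : ℂ))
        ((2 * m : ℕ) : ℝ≥0∞) (mu d) := by
      have h0 := memLp_tp ((2 * m : ℕ) : ℝ≥0∞) L (fun k => e k * sI I k)
      have h1 : (tp L (fun k => e k * sI I k) : Td d → ℂ) =
          fun x => ((Ssum (Et r (-r) l0 l1) I x : ℝ) : ℂ) := by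
        funext x
        rw [Ssum_tp L e _ hEtp I x]
      rw [h1] at h0
      exact h0
    have hH := norm_integral_mul_le hq (memLp_tp q LV (cI I - cI J)) hEm
    have hEn := hSnrm I hI
    have h1 : ∫ x, tp LV (cI I - cI J) x * ((Ssum (Et r (-r) l0 l1) I x : ℝ) : ℂ) ∂(mu d) =
        ((τ * θ * (Bf (Gt l0 l1) I I - Bf (Gt l0 l1) I J) : ℝ) : ℂ) := by
      have h2 := hdual I I
      have h3 := hdual I J
      simp_rw [Complex.conj_ofReal] at h2 h3
      rw [mul_sub, Complex.ofReal_sub, ← h2, ← h3, ← integral_sub]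
      · refine integral_congr_ae (Filter.Eventually.of_forall fun x => ?_)
        simp only
        rw [tp_sub_apply]
        ring
      · exact ((tp LV (cI I)).continuous.mul hEc).integrable_of_hasCompactSupport
          (HasCompactSupport.of_compactSpace _)
      · exact ((tp LV (cI J)).continuous.mul hEc).integrable_of_hasCompactSupport
          (HasCompactSupport.of_compactSpace _)
    rw [h1, Complex.norm_real, Real.norm_eq_abs] at hH
    have h3 := hSII I hI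
    have h4 := (abs_le.mp (hSIJ I hI J hJ hIJ)).2
    have hτθ : 0 < τ * θ := by positivity
    have h5 : τ * θ * (5 / 8 * (n * Gt l0 l1 (0 : Td d))) ≤ A * ρ := by
      have h6 : τ * θ * (5 / 8 * (n * Gt l0 l1 (0 : Td d))) ≤
          |τ * θ * (Bf (Gt l0 l1) I I - Bf (Gt l0 l1) I J)| := by
        refine le_trans ?_ (le_abs_self _)
        refine mul_le_mul_of_nonneg_left ?_ hτθ.le
        linarith
      exact h6.trans (hH.trans (mul_le_mul_of_nonneg_left hEn hA0))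
    have h6 : θ * ρ⁻¹ / 2 ^ d * (5 / 8) * (c1 * Lv l0 l1 * kap d l0) ≤ A := by
      have h7 : θ * ρ⁻¹ / 2 ^ d * (5 / 8) * (c1 * Lv l0 l1 * kap d l0) ≤
          θ * ρ⁻¹ / 2 ^ d * (5 / 8) * Gt l0 l1 (0 : Td d) :=
        mul_le_mul_of_nonneg_left hG0 (by positivity)
      refine h7.trans ?_
      have h8 : θ * ρ⁻¹ / 2 ^ d * (5 / 8) * Gt l0 l1 (0 : Td d) =
          (τ * θ * (5 / 8 * (n * Gt l0 l1 (0 : Td d)))) / ρ := by
        rw [hτ]
        field_simp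
      rw [h8, div_le_iff₀ hρ0]
      exact h5
    refine le_trans (le_of_eq ?_) h6
    have h8 : Real.sqrt (Lv l0 l1 * kap d l0 / n) =
        Lv l0 l1 * kap d l0 / Real.sqrt (n * Lv l0 l1 * kap d l0) := by
      rw [eq_div_iff hsq.ne', ← Real.sqrt_mul (by positivity)]
      have : Lv l0 l1 * kap d l0 / n * (n * Lv l0 l1 * kap d l0) = (Lv l0 l1 * kap d l0) ^ 2 := by
        field_simp
      rw [this, Real.sqrt_sq (by positivity)]
    rw [h8, hρ]
    field_simp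
    ring
  -- pigeonhole
  obtain ⟨Y, hY, hYc⟩ := hcov
  have hNS : N < S.card := by
    refine hN.trans_le (le_trans ?_ hScard)
    refine Real.exp_le_exp.mpr ?_
    have : min c (5 / 16 * (c1 / C) / 2 ^ d) ≤ c := min_le_left _ _
    gcongr
  have hYS : Y.card < S.card := by
    have : (Y.card : ℝ) < S.card := hY.trans_lt hNS
    exact_mod_cast this
  choose! ctr hctr hctrε using hYc
  obtain ⟨I, hI, J, hJ, hIJ, heq⟩ := Finset.exists_ne_map_eq_of_card_lt_of_maps_to hYS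
    (f := fun I => ctr (tpLp q LV (cI I))) (fun I hI => hctr _ (hmem I hI))
  have h1 := hsep I hI J hJ hIJ
  have h2 := hctrε _ (hmem I hI)
  have h3 := hctrε _ (hmem J hJ)
  simp only at h2 h3 heq
  rw [← heq] at h3
  have h4 : ‖tpLp q LV (cI I) - tpLp q LV (cI J)‖ ≤ ε + ε := by
    have h5 : tpLp q LV (cI I) - tpLp q LV (cI J) =
        (tpLp q LV (cI I) - ctr (tpLp q LV (cI I))) -
          (tpLp q LV (cI J) - ctr (tpLp q LV (cI I))) := by abel
    rw [h5]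
    exact (norm_sub_le _ _).trans (add_le_add h2 h3)
  have h6 : 5 / 16 * (c1 / C) / 2 ^ d * θ * Real.sqrt (Lv l0 l1 * kap d l0 / n) ≤ ε := by
    linarith
  refine le_trans ?_ h6
  have h7 : min c (5 / 16 * (c1 / C) / 2 ^ d) ≤ 5 / 16 * (c1 / C) / 2 ^ d := min_le_right _ _
  have h8 : 0 ≤ Real.sqrt (Lv l0 l1 * kap d l0 / n) := Real.sqrt_nonneg _
  gcongr

end MPcd65c1
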