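import Pool.Agent.Lib.MP_cd65c1_an.Defs2
import Pool.Agent.Lib.MP_cd65c1_an.LNum

/-!
# MP_cd65c1_an / LParH : common lemmas for the parameters of the lower bounds
-/

namespace MPcd65c1

open Filter

theorem lph_log_rpow (A B : ℝ) :
    ∀ᶠ n : ℕ in atTop, A * (Real.log n) ^ B ≤ (n : ℝ) ^ ((1 : ℝ) / 2) := by
  have hc : (0 : ℝ) < 1 / (|A| + 1) := by positivity
  have h1 := (isLittleO_log_rpow_rpow_atTop B (show (0 : ℝ) < 1 / 2 by norm_num)).def hc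
  have h2 := tendsto_natCast_atTop_atTop (R := ℝ) |>.eventually h1
  filter_upwards [h2] with n hn
  rw [Real.norm_eq_abs, Real.norm_eq_abs,
    abs_of_nonneg (Real.rpow_nonneg (Nat.cast_nonneg n) _)] at hn
  have h3 : (0 : ℝ) ≤ (n : ℝ) ^ ((1 : ℝ) / 2) := Real.rpow_nonneg (Nat.cast_nonneg n) _
  calc A * (Real.log n) ^ B ≤ |A * (Real.log n) ^ B| := le_abs_self _
    _ = |A| * |(Real.log n) ^ B| := abs_mul _ _
    _ ≤ |A| * (1 / (|A| + 1) * (n : ℝ) ^ ((1 : ℝ) / 2)) :=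
        mul_le_mul_of_nonneg_left hn (abs_nonneg A)
    _ = (|A| / (|A| + 1)) * (n : ℝ) ^ ((1 : ℝ) / 2) := by ring
    _ ≤ 1 * (n : ℝ) ^ ((1 : ℝ) / 2) := by
        refine mul_le_mul_of_nonneg_right ?_ h3
        rw [div_le_one (by positivity)]
        linarith
    _ = (n : ℝ) ^ ((1 : ℝ) / 2) := one_mul _

theorem lph_log_tendsto (B : ℝ) : ∀ᶠ n : ℕ in atTop, B ≤ Real.log n :=
  (Real.tendsto_log_atTop.comp tendsto_natCast_atTop_atTop).eventually_ge_atTop B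

theorem lph_loglog_tendsto (B : ℝ) : ∀ᶠ n : ℕ in atTop, B ≤ Real.log (Real.log n) :=
  (Real.tendsto_log_atTop.comp
    (Real.tendsto_log_atTop.comp tendsto_natCast_atTop_atTop)).eventually_ge_atTop B

theorem lph_choose {X : ℝ} (hX : 1 ≤ X) : ∃ l : ℕ, X ≤ (2 : ℝ) ^ l ∧ (2 : ℝ) ^ l ≤ 2 * X := by
  have hX0 : 0 < X := by linarith
  have h0 : 0 ≤ Real.logb 2 X := Real.logb_nonneg (by norm_num) hX
  refine ⟨⌈Real.logb 2 X⌉₊, ?_, ?_⟩
  · have h1 : Real.logb 2 X ≤ (⌈Real.logb 2 X⌉₊ : ℝ) := Nat.le_ceil _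
    rw [← Real.rpow_natCast]
    calc X = (2 : ℝ) ^ Real.logb 2 X := (Real.rpow_logb (by norm_num) (by norm_num) hX0).symm
      _ ≤ (2 : ℝ) ^ ((⌈Real.logb 2 X⌉₊ : ℕ) : ℝ) :=
        Real.rpow_le_rpow_of_exponent_le (by norm_num) h1
  · have h1 : (⌈Real.logb 2 X⌉₊ : ℝ) < Real.logb 2 X + 1 := Nat.ceil_lt_add_one h0
    rw [← Real.rpow_natCast]
    calc (2 : ℝ) ^ ((⌈Real.logb 2 X⌉₊ : ℕ) : ℝ) ≤ (2 : ℝ) ^ (Real.logb 2 X + 1) :=
        Real.rpow_le_rpow_of_exponent_le (by norm_num) h1.le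
      _ = 2 * X := by
        rw [Real.rpow_add (by norm_num), Real.rpow_logb (by norm_num) (by norm_num) hX0,
          Real.rpow_one, mul_comm]

theorem lph_one_lt_log {n : ℕ} (hn : 3 ≤ n) : 1 < Real.log n := by
  have h1 : (3 : ℝ) ≤ n := by exact_mod_cast hn
  rw [Real.lt_log_iff_exp_lt (by linarith)]
  exact lt_of_lt_of_le Real.exp_one_lt_three h1

theorem lph_size {n l : ℕ} {X : ℝ} (hn : 3 ≤ n) (h1 : (n : ℝ) ^ ((1 : ℝ) / 2) ≤ X)
    (h2 : 2 * X ≤ (n : ℝ) ^ 2) (hl : X ≤ (2 : ℝ) ^ l) (hl2 : (2 : ℝ) ^ l ≤ 2 * X) :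
    1 / 2 * Real.log n ≤ (l : ℝ) + 1 ∧ (l : ℝ) + 1 ≤ 4 * Real.log n := by
  have hn0 : (0 : ℝ) < n := by
    have : 0 < n := by omega
    exact_mod_cast this
  have hlog := lph_one_lt_log hn
  have h2' : Real.log 2 < 1 := by
    have := Real.log_two_lt_d9
    linarith
  have h2'' : 0.69 < Real.log 2 := by
    have := Real.log_two_gt_d9
    linarith
  have hpow : Real.log ((2 : ℝ) ^ l) = l * Real.log 2 := Real.log_pow 2 l
  have hnpow : (0 : ℝ) < (n : ℝ) ^ ((1 : ℝ) / 2) := Real.rpow_pos_of_pos hn0 _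
  have hX0 : 0 < X := lt_of_lt_of_le hnpow h1
  have h3 : 1 / 2 * Real.log n ≤ l * Real.log 2 := by
    rw [← hpow, ← Real.log_rpow hn0]
    exact Real.log_le_log hnpow (h1.trans hl)
  have h4 : l * Real.log 2 ≤ 2 * Real.log n := by
    rw [← hpow]
    have h5 : (2 : ℝ) * Real.log n = Real.log ((n : ℝ) ^ 2) := by
      rw [Real.log_pow]
      norm_num
    rw [h5]
    exact Real.log_le_log (by positivity) (hl2.trans h2)
  have hl0 : (0 : ℝ) ≤ l := Nat.cast_nonneg l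
  constructor
  · nlinarith
  · nlinarith

/-- eventually all `l` with `(1/2) log n ≤ l + 1` are large -/
theorem lph_large (L1 : ℕ) : ∀ᶠ n : ℕ in atTop, ∀ l : ℕ, 1 / 2 * Real.log n ≤ (l : ℝ) + 1 →
    L1 ≤ l := by
  filter_upwards [lph_log_tendsto (2 * ((L1 : ℝ) + 1))] with n hn l hl
  have h1 : (L1 : ℝ) ≤ l := by linarith
  exact_mod_cast h1

theorem lph_lin (B : ℝ) : ∀ᶠ l : ℕ in atTop, B ≤ (l : ℝ) + 1 := by
  filter_upwards [tendsto_natCast_atTop_atTop (R := ℝ) |>.eventually_ge_atTop B] with l hl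
  linarith

theorem lph_two_pow (B : ℝ) : ∀ᶠ l : ℕ in atTop, B ≤ (2 : ℝ) ^ l :=
  (tendsto_pow_atTop_atTop_of_one_lt (by norm_num : (1 : ℝ) < 2)).eventually_ge_atTop B

theorem lph_pow_le (k : ℕ) : ∀ᶠ l : ℕ in atTop, ((l : ℝ) + 1) ^ k ≤ (2 : ℝ) ^ l := by
  have h1 := tendsto_pow_const_div_const_pow_of_one_lt k (by norm_num : (1 : ℝ) < 2)
  have h2 := (tendsto_add_atTop_iff_nat 1).2 h1
  have h3 := h2.eventually_lt_const (show (0 : ℝ) < 1 / 2 by norm_num)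
  filter_upwards [h3] with l hl
  rw [div_lt_div_iff₀ (by positivity) (by norm_num)] at hl
  push_cast at hl
  rw [pow_succ] at hl
  linarith

/-- exponential form of the bit condition -/
theorem lph_exp {n : ℕ} (hn : 3 ≤ n) {T : ℝ} (hT : (n : ℝ) ≤ T) :
    (2 : ℝ) ^ (n : ℝ) < Real.exp T := by
  have hn0 : (0 : ℝ) < n := by
    have : 0 < n := by omega
    exact_mod_cast this
  have h2' : Real.log 2 < 1 := by
    have := Real.log_two_lt_d9
    linarith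
  rw [Real.rpow_def_of_pos (by norm_num)]
  refine Real.exp_lt_exp.2 ?_
  nlinarith

end MPcd65c1
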