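import Pool.Agent.Lib.MP_cd65c1_an.Defs2
import Pool.Agent.Lib.MP_cd65c1_an.LNum
import Pool.Agent.Lib.MP_cd65c1_an.LParH

/-!
# MP_cd65c1_an / LParA : parameters of the lower bound for `r > 1/2` (about 130 lines)

`l0 = l1 = l` (`Lv = 1`), `κ = (l+1)^(d-1)`, `np = ⌊η 2^l κ/(l+1)⌋₊` (`≥ 1` for large `l`, and
`np ≥ η 2^l κ/(2(l+1))`).
* `2^l ≤ np κ`: `np κ ≥ η 2^l κ^2/(2(l+1)) ≥ η 2^l (l+1)/2 ≥ 2^l` for large `l` (`d ≥ 2`: `κ ≥ l+1`).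
* bits: `c np (l+1) ≥ (cη/2) 2^l (l+1)^(d-1)`.
* distance: `np ≤ η 2^l κ/(l+1)` gives `2^((1/2-r)l) sqrt(κ/np) ≥ η^(-1/2) 2^(-rl) sqrt(l+1)`.
CHOICE: `A` large, `l = ⌈logb 2 (A n (log n)^(-(d-1)))⌉₊`, so for `n ≥ n0`:
`A n (log n)^(-(d-1)) ≤ 2^l ≤ 2 A n (log n)^(-(d-1))`, and `(1/2) log n ≤ (l+1) ≤ 4 log n`
(for `n ≥ n0`: `n^(1/2) ≤ 2^l ≤ n^2` because `(log n)^(d-1) ≤ A n^(1/2)` etc.; `log 2 > 1/2`).
Then `(cη/2) 2^l (l+1)^(d-1) ≥ (cη/2) A n 2^(-(d-1)) > n log 2` for `A` large, so `2^n < exp(c np (l+1))`, and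
`2^(-rl) sqrt(l+1) ≥ (2A)^(-r) n^(-r) (log n)^((d-1)r) (log n/2)^(1/2)`, which is `c' psi0 d r n`.
`l ≥ L0` for `n ≥ n0` because `2^l ≥ n^(1/2)`.
-/

namespace MPcd65c1

open Filter

private theorem lpa_large (η : ℝ) (hη : 0 < η) (L0 : ℕ) : ∃ L1 : ℕ, ∀ l : ℕ, L1 ≤ l →
    L0 ≤ l ∧ 2 / η ≤ (2 : ℝ) ^ l ∧ 2 / η ≤ (l : ℝ) + 1 := by
  have h : ∀ᶠ l : ℕ in atTop, L0 ≤ l ∧ 2 / η ≤ (2 : ℝ) ^ l ∧ 2 / η ≤ (l : ℝ) + 1 :=
    (eventually_ge_atTop L0).and ((lph_two_pow _).and (lph_lin _))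
  obtain ⟨L1, h1⟩ := eventually_atTop.1 h
  exact ⟨L1, h1⟩

theorem params_high (d : ℕ) (hd : 2 ≤ d) (r : ℝ) (hr : 1 / 2 < r) (η c : ℝ) (hη : 0 < η)
    (hc : 0 < c) (L0 : ℕ) : Params d r (psi0 d r) η c L0 := by
  obtain ⟨L1, hL1⟩ := lpa_large η hη L0
  obtain ⟨g, rfl⟩ : ∃ g, d = g + 1 := ⟨d - 1, by omega⟩
  have hg : 1 ≤ g := by omega
  set A : ℝ := 2 ^ (g + 1) / (c * η) with hA
  have hA0 : 0 < A := by positivity
  refine ⟨c * (η ^ (-(1 / 2 : ℝ)) * (2 * A) ^ (-r) * (1 / 2 : ℝ) ^ (1 / 2 : ℝ)), ?_⟩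
  have hev : ∀ᶠ n : ℕ in atTop, 3 ≤ n ∧ (1 / A) * (Real.log n) ^ (g : ℝ) ≤ (n : ℝ) ^ ((1 : ℝ) / 2) ∧
      2 * A * (Real.log n) ^ (-(g : ℝ)) ≤ (n : ℝ) ^ ((1 : ℝ) / 2) ∧
      ∀ l : ℕ, 1 / 2 * Real.log n ≤ (l : ℝ) + 1 → L1 ≤ l :=
    (eventually_ge_atTop 3).and ((lph_log_rpow _ _).and ((lph_log_rpow _ _).and (lph_large L1)))
  obtain ⟨n0, hn0⟩ := eventually_atTop.1 hev
  refine ⟨n0, by positivity, fun n hn => ?_⟩
  obtain ⟨hn3, hlow, hup, hbig⟩ := hn0 n hn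
  have hn1 : (1 : ℝ) ≤ n := by
    have : 1 ≤ n := by omega
    exact_mod_cast this
  have hnpos : (0 : ℝ) < n := by linarith
  have hlog := lph_one_lt_log hn3
  have hlogp : 0 < Real.log n := by linarith
  have hhalf : (n : ℝ) ^ ((1 : ℝ) / 2) * (n : ℝ) ^ ((1 : ℝ) / 2) = n := by
    rw [← Real.rpow_add hnpos]
    norm_num
  have hhalf1 : 1 ≤ (n : ℝ) ^ ((1 : ℝ) / 2) := Real.one_le_rpow hn1 (by norm_num)
  set X : ℝ := A * n * (Real.log n) ^ (-(g : ℝ)) with hX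
  have hXlow : (n : ℝ) ^ ((1 : ℝ) / 2) ≤ X := by
    have h1 : (n : ℝ) ^ ((1 : ℝ) / 2) * (Real.log n) ^ (g : ℝ) ≤ A * n := by
      have h2 := mul_le_mul_of_nonneg_left hlow (mul_nonneg hA0.le
        (Real.rpow_nonneg hnpos.le ((1 : ℝ) / 2)))
      have h3 : A * (n : ℝ) ^ ((1 : ℝ) / 2) * ((1 / A) * (Real.log n) ^ (g : ℝ)) =
          (n : ℝ) ^ ((1 : ℝ) / 2) * (Real.log n) ^ (g : ℝ) := by
        field_simp
      rw [h3, mul_assoc, hhalf] at h2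
      exact h2
    rw [hX, Real.rpow_neg hlogp.le, ← div_eq_mul_inv, le_div_iff₀ (by positivity)]
    exact h1
  have hXup : 2 * X ≤ (n : ℝ) ^ 2 := by
    have h1 : 2 * X = n * (2 * A * (Real.log n) ^ (-(g : ℝ))) := by rw [hX]; ring
    rw [h1, sq]
    refine mul_le_mul_of_nonneg_left (hup.trans ?_) hnpos.le
    nlinarith
  have hX1 : 1 ≤ X := hhalf1.trans hXlow
  obtain ⟨l, hl1, hl2⟩ := lph_choose hX1
  obtain ⟨hs1, hs2⟩ := lph_size hn3 hXlow hXup hl1 hl2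
  obtain ⟨hL, hp1, hp2⟩ := hL1 l (hbig l hs1)
  have hlp : (0 : ℝ) < (l : ℝ) + 1 := by positivity
  have hl1' : (1 : ℝ) ≤ (l : ℝ) + 1 := by
    have : (0 : ℝ) ≤ l := Nat.cast_nonneg l
    linarith
  have h2l : (0 : ℝ) < (2 : ℝ) ^ l := by positivity
  rw [div_le_iff₀ hη] at hp1 hp2
  have hκ : kap (g + 1) l = ((l : ℝ) + 1) ^ g := by
    unfold kap
    norm_num
  have hκ1 : (l : ℝ) + 1 ≤ ((l : ℝ) + 1) ^ g := by
    calc (l : ℝ) + 1 = ((l : ℝ) + 1) ^ 1 := (pow_one _).symm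
      _ ≤ ((l : ℝ) + 1) ^ g := pow_le_pow_right₀ hl1' hg
  set κ : ℝ := ((l : ℝ) + 1) ^ g with hκdef
  have hκ0 : 0 < κ := by positivity
  set Y : ℝ := η * (2 : ℝ) ^ l * κ / ((l : ℝ) + 1) with hY
  have hY2 : 2 ≤ Y := by
    rw [hY, le_div_iff₀ hlp]
    calc 2 * ((l : ℝ) + 1) ≤ (2 ^ l * η) * ((l : ℝ) + 1) :=
          mul_le_mul_of_nonneg_right hp1 hlp.le
      _ ≤ (2 ^ l * η) * κ := mul_le_mul_of_nonneg_left hκ1 (by positivity)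
      _ = η * (2 : ℝ) ^ l * κ := by ring
  have hY0 : 0 < Y := by linarith
  have hnp1 : (⌊Y⌋₊ : ℝ) ≤ Y := Nat.floor_le hY0.le
  have hnp2 : Y / 2 ≤ (⌊Y⌋₊ : ℝ) := by
    have := Nat.lt_floor_add_one Y
    linarith
  have hnp0 : (0 : ℝ) < (⌊Y⌋₊ : ℝ) := by linarith
  have hLv : Lv l l = 1 := by
    unfold Lv
    ring
  refine ⟨l, l, ⌊Y⌋₊, hL, le_rfl, by omega, Or.inl rfl, ?_, ?_, ?_, ?_, ?_⟩
  · exact_mod_cast hnp0
  · rw [hLv, hκ, one_pow, mul_one]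
    exact hnp1
  · rw [hκ]
    have h1 : Y * ((l : ℝ) + 1) = η * (2 : ℝ) ^ l * κ := by
      rw [hY]
      field_simp
    have h2 : (2 : ℝ) ^ l * 2 ≤ η * (2 : ℝ) ^ l * κ := by
      have h3 : 2 ≤ η * κ := by nlinarith
      nlinarith
    have h4 : (2 : ℝ) ^ l ≤ Y / 2 * κ := by
      have h5 : 2 * (Y / 2 * κ) ≥ 2 * (2 : ℝ) ^ l := by
        have h6 : Y * κ ≥ Y * ((l : ℝ) + 1) := mul_le_mul_of_nonneg_left hκ1 hY0.le
        nlinarith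
      linarith
    exact h4.trans (mul_le_mul_of_nonneg_right hnp2 hκ0.le)
  · refine lph_exp hn3 ?_
    have h1 : Y * ((l : ℝ) + 1) = η * (2 : ℝ) ^ l * κ := by
      rw [hY]
      field_simp
    have h2 : (1 / 2 * Real.log n) ^ g ≤ κ := by
      rw [hκdef]
      exact pow_le_pow_left₀ (by positivity) hs1 g
    have h3 : (n : ℝ) = c * (η * X * (1 / 2 * Real.log n) ^ g / 2) := by
      rw [hX, hA, Real.rpow_neg hlogp.le, Real.rpow_natCast, mul_pow]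
      have h4 : (Real.log n) ^ g ≠ 0 := by positivity
      rw [pow_succ, div_pow, one_pow]
      field_simp
    have h5 : η * X * (1 / 2 * Real.log n) ^ g ≤ η * (2 : ℝ) ^ l * κ :=
      mul_le_mul (mul_le_mul_of_nonneg_left hl1 hη.le) h2 (by positivity) (by positivity)
    rw [h3]
    have h6 : c * (η * X * (1 / 2 * Real.log n) ^ g / 2) ≤ c * (Y / 2 * ((l : ℝ) + 1)) := by
      refine mul_le_mul_of_nonneg_left ?_ hc.le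
      linarith
    refine h6.trans ?_
    rw [← mul_assoc]
    exact mul_le_mul_of_nonneg_right (mul_le_mul_of_nonneg_left hnp2 hc.le) hlp.le
  · rw [hLv, hκ, one_mul]
    have h1 : ((l : ℝ) + 1) / (η * (2 : ℝ) ^ l) ≤ κ / (⌊Y⌋₊ : ℝ) := by
      have h2 : ((l : ℝ) + 1) / (η * (2 : ℝ) ^ l) = κ / Y := by
        rw [hY]
        field_simp
      rw [h2]
      exact div_le_div_of_nonneg_left hκ0.le hnp0 hnp1
    have h3 : Real.sqrt (((l : ℝ) + 1) / (η * (2 : ℝ) ^ l)) ≤ Real.sqrt (κ / (⌊Y⌋₊ : ℝ)) :=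
      Real.sqrt_le_sqrt h1
    have h4 : c * (2 : ℝ) ^ ((1 / 2 - r) * l) * Real.sqrt (((l : ℝ) + 1) / (η * (2 : ℝ) ^ l)) ≤
        c * (2 : ℝ) ^ ((1 / 2 - r) * l) * Real.sqrt (κ / (⌊Y⌋₊ : ℝ)) :=
      mul_le_mul_of_nonneg_left h3 (by positivity)
    refine le_trans ?_ h4
    have h5 : (2 : ℝ) ^ ((1 / 2 - r) * l) * Real.sqrt (((l : ℝ) + 1) / (η * (2 : ℝ) ^ l)) =
        η ^ (-(1 / 2 : ℝ)) * ((2 : ℝ) ^ l) ^ (-r) * ((l : ℝ) + 1) ^ (1 / 2 : ℝ) := by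
      rw [Real.sqrt_eq_rpow, Real.div_rpow hlp.le (by positivity),
        Real.mul_rpow hη.le (by positivity), Real.rpow_neg hη.le]
      have h6 : (2 : ℝ) ^ ((1 / 2 - r) * l) = ((2 : ℝ) ^ l) ^ (1 / 2 : ℝ) * ((2 : ℝ) ^ l) ^ (-r) := by
        rw [← Real.rpow_add h2l, ← Real.rpow_natCast, ← Real.rpow_mul (by norm_num)]
        congr 1
        ring
      rw [h6]
      have h7 : ((2 : ℝ) ^ l) ^ (1 / 2 : ℝ) ≠ 0 := by positivity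
      have h8 : η ^ (1 / 2 : ℝ) ≠ 0 := by positivity
      field_simp
    have h9 : (2 * X) ^ (-r) ≤ ((2 : ℝ) ^ l) ^ (-r) :=
      Real.rpow_le_rpow_of_nonpos h2l hl2 (by linarith)
    have h10 : (1 / 2 * Real.log n) ^ (1 / 2 : ℝ) ≤ ((l : ℝ) + 1) ^ (1 / 2 : ℝ) :=
      Real.rpow_le_rpow (by positivity) hs1 (by norm_num)
    have h11 : (2 * X) ^ (-r) = (2 * A) ^ (-r) * ((n : ℝ) ^ (-r) * (Real.log n) ^ ((g : ℝ) * r)) := by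
      have h12 : 2 * X = (2 * A) * (n * (Real.log n) ^ (-(g : ℝ))) := by rw [hX]; ring
      rw [h12, Real.mul_rpow (by positivity) (by positivity),
        Real.mul_rpow hnpos.le (by positivity), ← Real.rpow_mul hlogp.le, neg_mul_neg]
    have h13 : psi0 (g + 1) r n = (n : ℝ) ^ (-r) * ((Real.log n) ^ ((g : ℝ) * r) *
        (Real.log n) ^ (1 / 2 : ℝ)) := by
      unfold psi0
      rw [if_pos hr, ← Real.rpow_add hlogp]
      congr 2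
      push_cast
      ring
    calc c * (η ^ (-(1 / 2 : ℝ)) * (2 * A) ^ (-r) * (1 / 2 : ℝ) ^ (1 / 2 : ℝ)) *
          psi0 (g + 1) r n
        = c * (η ^ (-(1 / 2 : ℝ)) * (2 * X) ^ (-r) * (1 / 2 * Real.log n) ^ (1 / 2 : ℝ)) := by
          rw [h11, h13, Real.mul_rpow (by norm_num) hlogp.le]
          ring
      _ ≤ c * (η ^ (-(1 / 2 : ℝ)) * ((2 : ℝ) ^ l) ^ (-r) * ((l : ℝ) + 1) ^ (1 / 2 : ℝ)) := by
          refine mul_le_mul_of_nonneg_left ?_ hc.le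
          exact mul_le_mul (mul_le_mul_of_nonneg_left h9 (by positivity)) h10 (by positivity)
            (by positivity)
      _ = c * (2 : ℝ) ^ ((1 / 2 - r) * l) * Real.sqrt (((l : ℝ) + 1) / (η * (2 : ℝ) ^ l)) := by
          rw [← h5]
          ring

end MPcd65c1
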