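import Pool.Agent.Lib.MP_cd65c1_an.Defs2
import Pool.Agent.Lib.MP_cd65c1_an.LNum
import Pool.Agent.Lib.MP_cd65c1_an.LParH

/-!
# MP_cd65c1_an / LParB : parameters of the lower bound for `0 < r < 1/2` (about 130 lines)

`l0 = l1 = l` (`Lv = 1`), `κ = (l+1)^(d-1)`, `np = ⌈2^l/κ⌉₊`; for large `l`: `2^l ≥ κ`, so
`2^l/κ ≤ np ≤ 2 * 2^l/κ`.
* `np ≤ η 2^l κ/(l+1)`: `2 * 2^l/κ ≤ η 2^l κ/(l+1)` iff `2(l+1) ≤ η κ^2`; `κ^2 ≥ (l+1)^2`, large `l`.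
* `2^l ≤ np κ` clear.
* bits: `c np (l+1) ≥ c 2^l (l+1)/κ = c 2^l (l+1)^(2-d)`.
* distance: `np ≤ 2 * 2^l/κ` gives `2^((1/2-r)l) sqrt(κ/np) ≥ 2^(-1/2) 2^(-rl) κ = 2^(-1/2) 2^(-rl) (l+1)^(d-1)`.
CHOICE: `A` large, `l = ⌈logb 2 (A n (log n)^(d-2))⌉₊`: `A n (log n)^(d-2) ≤ 2^l ≤ 2 A n (log n)^(d-2)`,
`(1/2) log n ≤ l+1 ≤ 4 log n` for `n ≥ n0`.
bits `≥ c A n (log n)^(d-2) (4 log n)^(2-d) = c A 4^(2-d) n > n log 2`;
distance `≥ 2^(-1/2) (2A)^(-r) n^(-r) (log n)^(-(d-2)r) (log n/2)^(d-1)`, and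
`-(d-2) r + d - 1 = (d-1)(1-r) + r`.
-/

namespace MPcd65c1

open Filter

private theorem lpb_large (η : ℝ) (k L0 : ℕ) : ∃ L1 : ℕ, ∀ l : ℕ, L1 ≤ l →
    L0 ≤ l ∧ ((l : ℝ) + 1) ^ k ≤ (2 : ℝ) ^ l ∧ 2 / η ≤ (l : ℝ) + 1 := by
  have h : ∀ᶠ l : ℕ in atTop, L0 ≤ l ∧ ((l : ℝ) + 1) ^ k ≤ (2 : ℝ) ^ l ∧ 2 / η ≤ (l : ℝ) + 1 :=
    (eventually_ge_atTop L0).and ((lph_pow_le k).and (lph_lin _))
  obtain ⟨L1, h1⟩ := eventually_atTop.1 h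
  exact ⟨L1, h1⟩

theorem params_low (d : ℕ) (hd : 2 ≤ d) (r : ℝ) (hr0 : 0 < r) (hr : r < 1 / 2) (η c : ℝ)
    (hη : 0 < η) (hc : 0 < c) (L0 : ℕ) : Params d r (psi0 d r) η c L0 := by
  obtain ⟨g, rfl⟩ : ∃ g, d = g + 2 := ⟨d - 2, by omega⟩
  obtain ⟨L1, hL1⟩ := lpb_large η (g + 1) L0
  set A : ℝ := 4 ^ g / c with hA
  have hA0 : 0 < A := by positivity
  refine ⟨c * ((2 : ℝ) ^ (-(1 / 2 : ℝ)) * (2 * A) ^ (-r) * (1 / 2 : ℝ) ^ (g + 1)), ?_⟩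
  have hev : ∀ᶠ n : ℕ in atTop, 3 ≤ n ∧ (1 / A) * (Real.log n) ^ (0 : ℝ) ≤ (n : ℝ) ^ ((1 : ℝ) / 2) ∧
      2 * A * (Real.log n) ^ (g : ℝ) ≤ (n : ℝ) ^ ((1 : ℝ) / 2) ∧
      ∀ l : ℕ, 1 / 2 * Real.log n ≤ (l : ℝ) + 1 → L1 ≤ l :=
    (eventually_ge_atTop 3).and ((lph_log_rpow _ _).and ((lph_log_rpow _ _).and (lph_large L1)))
  obtain ⟨n0, hn0⟩ := eventually_atTop.1 hev
  refine ⟨n0, by positivity, fun n hn => ?_⟩
  obtain ⟨hn3, hlow, hup, hbig⟩ := hn0 n hn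
  rw [Real.rpow_zero, mul_one] at hlow
  rw [Real.rpow_natCast] at hup
  have hn1 : (1 : ℝ) ≤ n := by
    have : 1 ≤ n := by omega
    exact_mod_cast this
  have hnpos : (0 : ℝ) < n := by linarith
  have hlog := lph_one_lt_log hn3
  have hlogp : 0 < Real.log n := by linarith
  have hhalf : (n : ℝ) ^ ((1 : ℝ) / 2) * (n : ℝ) ^ ((1 : ℝ) / 2) = n := by
    rw [← Real.rpow_add hnpos]
    norm_num
  have hhalf1 : 1 ≤ (n : ℝ) ^ ((1 : ℝ) / 2) := Real.one_le_rpow hn1 (by norm_num)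
  set X : ℝ := A * n * (Real.log n) ^ g with hX
  have hlogg : 1 ≤ (Real.log n) ^ g := one_le_pow₀ hlog.le
  have hXlow : (n : ℝ) ^ ((1 : ℝ) / 2) ≤ X := by
    have h1 : (n : ℝ) ^ ((1 : ℝ) / 2) ≤ A * n := by
      have h2 := mul_le_mul_of_nonneg_left hlow (mul_nonneg hA0.le
        (Real.rpow_nonneg hnpos.le ((1 : ℝ) / 2)))
      have h3 : A * (n : ℝ) ^ ((1 : ℝ) / 2) * (1 / A) = (n : ℝ) ^ ((1 : ℝ) / 2) := by
        field_simp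
      rw [h3, mul_assoc, hhalf] at h2
      exact h2
    refine h1.trans ?_
    rw [hX]
    exact le_mul_of_one_le_right (by positivity) hlogg
  have hXup : 2 * X ≤ (n : ℝ) ^ 2 := by
    have h1 : 2 * X = n * (2 * A * (Real.log n) ^ g) := by rw [hX]; ring
    rw [h1, sq]
    refine mul_le_mul_of_nonneg_left (hup.trans ?_) hnpos.le
    nlinarith
  have hX1 : 1 ≤ X := hhalf1.trans hXlow
  obtain ⟨l, hl1, hl2⟩ := lph_choose hX1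
  obtain ⟨hs1, hs2⟩ := lph_size hn3 hXlow hXup hl1 hl2
  obtain ⟨hL, hp1, hp2⟩ := hL1 l (hbig l hs1)
  have hlp : (0 : ℝ) < (l : ℝ) + 1 := by positivity
  have hl1' : (1 : ℝ) ≤ (l : ℝ) + 1 := by
    have : (0 : ℝ) ≤ l := Nat.cast_nonneg l
    linarith
  have h2l : (0 : ℝ) < (2 : ℝ) ^ l := by positivity
  rw [div_le_iff₀ hη] at hp2
  have hκ : kap (g + 2) l = ((l : ℝ) + 1) ^ (g + 1) := by
    unfold kap
    norm_num
  have hκ1 : (l : ℝ) + 1 ≤ ((l : ℝ) + 1) ^ (g + 1) := by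
    calc (l : ℝ) + 1 = ((l : ℝ) + 1) ^ 1 := (pow_one _).symm
      _ ≤ ((l : ℝ) + 1) ^ (g + 1) := pow_le_pow_right₀ hl1' (by omega)
  set κ : ℝ := ((l : ℝ) + 1) ^ (g + 1) with hκdef
  have hκ0 : 0 < κ := by positivity
  set Y : ℝ := (2 : ℝ) ^ l / κ with hY
  have hY1 : 1 ≤ Y := by
    rw [hY, le_div_iff₀ hκ0, one_mul]
    exact hp1
  have hY0 : 0 < Y := by linarith
  have hnp1 : Y ≤ (⌈Y⌉₊ : ℝ) := Nat.le_ceil _
  have hnp2 : (⌈Y⌉₊ : ℝ) ≤ 2 * Y := by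
    have := Nat.ceil_lt_add_one hY0.le
    linarith
  have hnp0 : (0 : ℝ) < (⌈Y⌉₊ : ℝ) := by linarith
  have hLv : Lv l l = 1 := by
    unfold Lv
    ring
  have hYκ : Y * κ = (2 : ℝ) ^ l := by
    rw [hY]
    field_simp
  refine ⟨l, l, ⌈Y⌉₊, hL, le_rfl, by omega, Or.inl rfl, ?_, ?_, ?_, ?_, ?_⟩
  · exact_mod_cast hnp0
  · rw [hLv, hκ, one_pow, mul_one]
    refine hnp2.trans ?_
    rw [le_div_iff₀ hlp, ← hYκ]
    have h1 : 2 * ((l : ℝ) + 1) ≤ η * κ * κ := by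
      have h3 : 2 ≤ η * κ := by nlinarith
      calc 2 * ((l : ℝ) + 1) ≤ (η * κ) * ((l : ℝ) + 1) := mul_le_mul_of_nonneg_right h3 hlp.le
        _ ≤ (η * κ) * κ := mul_le_mul_of_nonneg_left hκ1 (by positivity)
    nlinarith
  · rw [hκ, ← hYκ]
    exact mul_le_mul_of_nonneg_right hnp1 hκ0.le
  · refine lph_exp hn3 ?_
    have h1 : (n : ℝ) = c * (X / (4 * Real.log n) ^ g) := by
      rw [hX, hA, mul_pow]
      have h4 : (Real.log n) ^ g ≠ 0 := by positivity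
      field_simp
    have h2 : X / (4 * Real.log n) ^ g ≤ (2 : ℝ) ^ l / ((l : ℝ) + 1) ^ g := by
      refine div_le_div₀ h2l.le hl1 (by positivity) ?_
      exact pow_le_pow_left₀ hlp.le hs2 g
    have h3 : (2 : ℝ) ^ l / ((l : ℝ) + 1) ^ g = Y * ((l : ℝ) + 1) := by
      rw [hY, hκdef, pow_succ]
      field_simp
    rw [h1, mul_assoc]
    refine mul_le_mul_of_nonneg_left ?_ hc.le
    refine h2.trans ?_
    rw [h3]
    exact mul_le_mul_of_nonneg_right hnp1 hlp.le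
  · rw [hLv, hκ, one_mul]
    have h1 : κ ^ 2 / (2 * (2 : ℝ) ^ l) ≤ κ / (⌈Y⌉₊ : ℝ) := by
      have h2 : κ ^ 2 / (2 * (2 : ℝ) ^ l) = κ / (2 * Y) := by
        rw [hY]
        field_simp
      rw [h2]
      exact div_le_div_of_nonneg_left hκ0.le hnp0 hnp2
    have h3 : Real.sqrt (κ ^ 2 / (2 * (2 : ℝ) ^ l)) ≤ Real.sqrt (κ / (⌈Y⌉₊ : ℝ)) :=
      Real.sqrt_le_sqrt h1
    have h4 : c * (2 : ℝ) ^ ((1 / 2 - r) * l) * Real.sqrt (κ ^ 2 / (2 * (2 : ℝ) ^ l)) ≤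
        c * (2 : ℝ) ^ ((1 / 2 - r) * l) * Real.sqrt (κ / (⌈Y⌉₊ : ℝ)) :=
      mul_le_mul_of_nonneg_left h3 (by positivity)
    refine le_trans ?_ h4
    have h5 : (2 : ℝ) ^ ((1 / 2 - r) * l) * Real.sqrt (κ ^ 2 / (2 * (2 : ℝ) ^ l)) =
        (2 : ℝ) ^ (-(1 / 2 : ℝ)) * ((2 : ℝ) ^ l) ^ (-r) * κ := by
      rw [Real.sqrt_div (by positivity), Real.sqrt_sq hκ0.le, Real.sqrt_eq_rpow,
        Real.mul_rpow (by norm_num) h2l.le, Real.rpow_neg (by norm_num)]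
      have h6 : (2 : ℝ) ^ ((1 / 2 - r) * l) = ((2 : ℝ) ^ l) ^ (1 / 2 : ℝ) * ((2 : ℝ) ^ l) ^ (-r) := by
        rw [← Real.rpow_add h2l, ← Real.rpow_natCast, ← Real.rpow_mul (by norm_num)]
        congr 1
        ring
      rw [h6]
      have h7 : ((2 : ℝ) ^ l) ^ (1 / 2 : ℝ) ≠ 0 := by positivity
      have h8 : (2 : ℝ) ^ (1 / 2 : ℝ) ≠ 0 := by positivity
      field_simp
    have h9 : (2 * X) ^ (-r) ≤ ((2 : ℝ) ^ l) ^ (-r) :=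
      Real.rpow_le_rpow_of_nonpos h2l hl2 (by linarith)
    have h10 : (1 / 2 * Real.log n) ^ (g + 1) ≤ κ := pow_le_pow_left₀ (by positivity) hs1 (g + 1)
    have h11 : (2 * X) ^ (-r) = (2 * A) ^ (-r) * ((n : ℝ) ^ (-r) *
        (Real.log n) ^ (-((g : ℝ) * r))) := by
      have h12 : 2 * X = (2 * A) * (n * (Real.log n) ^ (g : ℝ)) := by
        rw [hX, Real.rpow_natCast]
        ring
      rw [h12, Real.mul_rpow (by positivity) (by positivity),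
        Real.mul_rpow hnpos.le (by positivity), ← Real.rpow_mul hlogp.le, mul_neg]
    have h13 : psi0 (g + 2) r n = (n : ℝ) ^ (-r) * ((Real.log n) ^ (-((g : ℝ) * r)) *
        (Real.log n) ^ (g + 1)) := by
      unfold psi0
      rw [if_neg (not_lt.2 hr.le), if_neg hr.ne, ← Real.rpow_natCast, ← Real.rpow_add hlogp]
      congr 2
      push_cast
      ring
    calc c * ((2 : ℝ) ^ (-(1 / 2 : ℝ)) * (2 * A) ^ (-r) * (1 / 2 : ℝ) ^ (g + 1)) *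
          psi0 (g + 2) r n
        = c * ((2 : ℝ) ^ (-(1 / 2 : ℝ)) * (2 * X) ^ (-r) * (1 / 2 * Real.log n) ^ (g + 1)) := by
          rw [h11, h13, mul_pow]
          ring
      _ ≤ c * ((2 : ℝ) ^ (-(1 / 2 : ℝ)) * ((2 : ℝ) ^ l) ^ (-r) * κ) := by
          refine mul_le_mul_of_nonneg_left ?_ hc.le
          exact mul_le_mul (mul_le_mul_of_nonneg_left h9 (by positivity)) h10 (by positivity)
            (by positivity)
      _ = c * (2 : ℝ) ^ ((1 / 2 - r) * l) * Real.sqrt (κ ^ 2 / (2 * (2 : ℝ) ^ l)) := by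
          rw [← h5]
          ring

end MPcd65c1
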