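import Pool.Agent.Lib.MP_cd65c1_an.Defs2
import Pool.Agent.Lib.MP_cd65c1_an.LNum
import Pool.Agent.Lib.MP_cd65c1_an.LParH

/-!
# MP_cd65c1_an / LParC : parameters of the lower bound for `r = 1/2` (about 170 lines)

`l0 = l`, `l1 = l + ⌊(1/2) logb 2 (l+1)⌋₊`, `Λ = Lv l0 l1 = ⌊(1/2) logb 2 (l+1)⌋₊ + 1`, `κ = (l+1)^(d-1)`,
`np = ⌊η 2^l Λ^2 κ/(l+1)⌋₊`; for large `l` `np ≥ η 2^l Λ^2 κ/(2(l+1)) ≥ 1` and `l1 ≤ 2 l + 1`.
* `2^l1 ≤ np κ`: `2^(l1) ≤ 2^l (l+1)^(1/2)` and `np κ ≥ (η/2) 2^l Λ^2 κ^2/(l+1) ≥ (η/2) 2^l (l+1)`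
  (`κ^2 ≥ (l+1)^2`, `Λ ≥ 1`), and `(l+1)^(1/2) ≤ (η/2)(l+1)` for large `l`.
* bits: `c np (l+1) ≥ (cη/2) 2^l Λ^2 (l+1)^(d-1)`.
* distance (`2^((1/2-r) l0) = 1`): `np ≤ η 2^l Λ^2 κ/(l+1)` gives
  `sqrt(Λ κ/np) ≥ sqrt((l+1)/(η 2^l Λ))`.
CHOICE: `LL = log log n`, `l = ⌈logb 2 (A n (log n)^(-(d-1)) LL^(-2))⌉₊`; for `n ≥ n0`:
`A n (log n)^(-(d-1)) LL^(-2) ≤ 2^l ≤ 2A(...)`, `(1/2) log n ≤ l+1 ≤ 4 log n`, hence
`(1/4) LL ≤ Λ ≤ 4 LL` (`logb 2 t = log t/log 2`; `log(l+1)` is between `LL - log 2` and `LL + log 4`).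
bits `≥ (cη/2) A n (log n)^(-(d-1)) LL^(-2) (LL/4)^2 (log n/2)^(d-1) > n log 2` for `A` large;
distance `≥ sqrt( (log n/2) / (η 2A n (log n)^(-(d-1)) LL^(-2) 4 LL) )
= c' n^(-1/2) (log n)^(d/2) LL^(1/2)`.
-/

namespace MPcd65c1

open Filter

private theorem lpc_large (η : ℝ) (L0 : ℕ) : ∃ L1 : ℕ, ∀ l : ℕ, L1 ≤ l →
    L0 ≤ l ∧ 2 / η ≤ (2 : ℝ) ^ l ∧ (2 / η) ^ 2 ≤ (l : ℝ) + 1 := by
  have h : ∀ᶠ l : ℕ in atTop, L0 ≤ l ∧ 2 / η ≤ (2 : ℝ) ^ l ∧ (2 / η) ^ 2 ≤ (l : ℝ) + 1 :=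
    (eventually_ge_atTop L0).and ((lph_two_pow _).and (lph_lin _))
  obtain ⟨L1, h1⟩ := eventually_atTop.1 h
  exact ⟨L1, h1⟩

/-- the number of additional levels -/
private theorem lpc_t (l : ℕ) : ∃ t : ℕ, t ≤ l ∧ (2 : ℝ) ^ t ≤ Real.sqrt ((l : ℝ) + 1) ∧
    1 / 2 * (Real.log ((l : ℝ) + 1) / Real.log 2) ≤ (t : ℝ) + 1 ∧
    (t : ℝ) ≤ 1 / 2 * (Real.log ((l : ℝ) + 1) / Real.log 2) := by
  have hl0 : (0 : ℝ) ≤ l := Nat.cast_nonneg l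
  have hlp : (0 : ℝ) < (l : ℝ) + 1 := by positivity
  have h0 : 0 ≤ Real.logb 2 ((l : ℝ) + 1) := Real.logb_nonneg (by norm_num) (by linarith)
  have h1 : Real.logb 2 ((l : ℝ) + 1) ≤ l := by
    rw [Real.logb_le_iff_le_rpow (by norm_num) hlp, Real.rpow_natCast]
    have h2 : l + 1 ≤ 2 ^ l := Nat.lt_two_pow_self
    exact_mod_cast h2
  have hfl : (⌊1 / 2 * Real.logb 2 ((l : ℝ) + 1)⌋₊ : ℝ) ≤ 1 / 2 * Real.logb 2 ((l : ℝ) + 1) :=
    Nat.floor_le (by positivity)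
  refine ⟨⌊1 / 2 * Real.logb 2 ((l : ℝ) + 1)⌋₊, ?_, ?_, ?_, ?_⟩
  · have h2 : (⌊1 / 2 * Real.logb 2 ((l : ℝ) + 1)⌋₊ : ℝ) ≤ l := by linarith
    exact_mod_cast h2
  · rw [Real.sqrt_eq_rpow, ← Real.rpow_natCast]
    calc (2 : ℝ) ^ ((⌊1 / 2 * Real.logb 2 ((l : ℝ) + 1)⌋₊ : ℕ) : ℝ)
        ≤ (2 : ℝ) ^ (1 / 2 * Real.logb 2 ((l : ℝ) + 1)) :=
          Real.rpow_le_rpow_of_exponent_le (by norm_num) hfl
      _ = ((l : ℝ) + 1) ^ ((1 : ℝ) / 2) := by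
          rw [mul_comm, Real.rpow_mul (by norm_num), Real.rpow_logb (by norm_num) (by norm_num) hlp]
  · have h2 := Nat.lt_floor_add_one (1 / 2 * Real.logb 2 ((l : ℝ) + 1))
    exact h2.le
  · exact hfl

theorem params_mid (d : ℕ) (hd : 2 ≤ d) (η c : ℝ) (hη : 0 < η) (hc : 0 < c) (L0 : ℕ) :
    Params d (1 / 2) (psi0 d (1 / 2)) η c L0 := by
  obtain ⟨L1, hL1⟩ := lpc_large η L0
  obtain ⟨g, rfl⟩ : ∃ g, d = g + 1 := ⟨d - 1, by omega⟩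
  have hg : 1 ≤ g := by omega
  set A : ℝ := 32 * 2 ^ g / (c * η) with hA
  have hA0 : 0 < A := by positivity
  refine ⟨c * (16 * η * A) ^ (-(1 / 2 : ℝ)), ?_⟩
  have hev : ∀ᶠ n : ℕ in atTop, 3 ≤ n ∧
      (1 / A) * (Real.log n) ^ ((g + 2 : ℕ) : ℝ) ≤ (n : ℝ) ^ ((1 : ℝ) / 2) ∧
      2 * A * (Real.log n) ^ (0 : ℝ) ≤ (n : ℝ) ^ ((1 : ℝ) / 2) ∧
      2 ≤ Real.log (Real.log n) ∧
      ∀ l : ℕ, 1 / 2 * Real.log n ≤ (l : ℝ) + 1 → L1 ≤ l :=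
    (eventually_ge_atTop 3).and ((lph_log_rpow _ _).and ((lph_log_rpow _ _).and
      ((lph_loglog_tendsto 2).and (lph_large L1))))
  obtain ⟨n0, hn0⟩ := eventually_atTop.1 hev
  refine ⟨n0, by positivity, fun n hn => ?_⟩
  obtain ⟨hn3, hlow, hup, hLL, hbig⟩ := hn0 n hn
  rw [Real.rpow_zero, mul_one] at hup
  rw [Real.rpow_natCast] at hlow
  have hn1 : (1 : ℝ) ≤ n := by
    have : 1 ≤ n := by omega
    exact_mod_cast this
  have hnpos : (0 : ℝ) < n := by linarith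
  have hlog := lph_one_lt_log hn3
  have hlogp : 0 < Real.log n := by linarith
  have hhalf : (n : ℝ) ^ ((1 : ℝ) / 2) * (n : ℝ) ^ ((1 : ℝ) / 2) = n := by
    rw [← Real.rpow_add hnpos]
    norm_num
  have hhalf1 : 1 ≤ (n : ℝ) ^ ((1 : ℝ) / 2) := Real.one_le_rpow hn1 (by norm_num)
  set LL : ℝ := Real.log (Real.log n) with hLLdef
  have hLL0 : 0 < LL := by linarith
  have hLLlog : LL ≤ Real.log n := Real.log_le_self hlogp.le
  set D : ℝ := (Real.log n) ^ g * LL ^ 2 with hD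
  have hD0 : 0 < D := by positivity
  have hD1 : 1 ≤ D := by
    have h1 : 1 ≤ (Real.log n) ^ g := one_le_pow₀ hlog.le
    have h2 : 1 ≤ LL ^ 2 := one_le_pow₀ (by linarith)
    rw [hD]
    exact one_le_mul_of_one_le_of_one_le h1 h2
  have hD2 : D ≤ (Real.log n) ^ (g + 2) := by
    rw [hD, pow_add]
    exact mul_le_mul_of_nonneg_left (pow_le_pow_left₀ hLL0.le hLLlog 2) (by positivity)
  set X : ℝ := A * n / D with hX
  have hXlow : (n : ℝ) ^ ((1 : ℝ) / 2) ≤ X := by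
    rw [hX, le_div_iff₀ hD0]
    have h1 : D ≤ A * (n : ℝ) ^ ((1 : ℝ) / 2) := by
      refine hD2.trans ?_
      have h2 := mul_le_mul_of_nonneg_left hlow hA0.le
      have h3 : A * ((1 / A) * (Real.log n) ^ (g + 2)) = (Real.log n) ^ (g + 2) := by
        field_simp
      rwa [h3] at h2
    calc (n : ℝ) ^ ((1 : ℝ) / 2) * D ≤ (n : ℝ) ^ ((1 : ℝ) / 2) * (A * (n : ℝ) ^ ((1 : ℝ) / 2)) :=
          mul_le_mul_of_nonneg_left h1 (by positivity)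
      _ = A * ((n : ℝ) ^ ((1 : ℝ) / 2) * (n : ℝ) ^ ((1 : ℝ) / 2)) := by ring
      _ = A * n := by rw [hhalf]
  have hXup : 2 * X ≤ (n : ℝ) ^ 2 := by
    have h1 : X ≤ A * n := div_le_self (by positivity) hD1
    have h2 : 2 * A ≤ n := hup.trans (by nlinarith)
    nlinarith
  have hX1 : 1 ≤ X := hhalf1.trans hXlow
  have hX0 : 0 < X := by linarith
  obtain ⟨l, hl1, hl2⟩ := lph_choose hX1
  obtain ⟨hs1, hs2⟩ := lph_size hn3 hXlow hXup hl1 hl2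
  obtain ⟨hL, hp1, hp2⟩ := hL1 l (hbig l hs1)
  have hlp : (0 : ℝ) < (l : ℝ) + 1 := by positivity
  have hl1' : (1 : ℝ) ≤ (l : ℝ) + 1 := by
    have : (0 : ℝ) ≤ l := Nat.cast_nonneg l
    linarith
  have h2l : (0 : ℝ) < (2 : ℝ) ^ l := by positivity
  rw [div_le_iff₀ hη] at hp1
  obtain ⟨t, ht1, ht2, ht3, ht4⟩ := lpc_t l
  have hκ : kap (g + 1) l = ((l : ℝ) + 1) ^ g := by
    unfold kap
    norm_num
  have hκ1 : (l : ℝ) + 1 ≤ ((l : ℝ) + 1) ^ g := by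
    calc (l : ℝ) + 1 = ((l : ℝ) + 1) ^ 1 := (pow_one _).symm
      _ ≤ ((l : ℝ) + 1) ^ g := pow_le_pow_right₀ hl1' hg
  set κ : ℝ := ((l : ℝ) + 1) ^ g with hκdef
  have hκ0 : 0 < κ := by positivity
  have ht0 : (0 : ℝ) ≤ t := Nat.cast_nonneg t
  set Λ : ℝ := (t : ℝ) + 1 with hΛ
  have hΛ1 : 1 ≤ Λ := by rw [hΛ]; linarith
  have hΛ0 : 0 < Λ := by linarith
  have hLv : Lv l (l + t) = Λ := by
    unfold Lv
    rw [hΛ]
    push_cast
    ring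
  -- bounds of `Λ`
  have hlog2a : Real.log 2 < 1 := by
    have := Real.log_two_lt_d9
    linarith
  have hlog2b : 0.69 < Real.log 2 := by
    have := Real.log_two_gt_d9
    linarith
  have hlog2c : Real.log 2 < 0.7 := by
    have := Real.log_two_lt_d9
    linarith
  have hlogl0 : 0 ≤ Real.log ((l : ℝ) + 1) := Real.log_nonneg hl1'
  have hΛlow : LL / 4 ≤ Λ := by
    have h1 : Real.log (1 / 2 * Real.log n) ≤ Real.log ((l : ℝ) + 1) :=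
      Real.log_le_log (by positivity) hs1
    have h2 : Real.log (1 / 2 * Real.log n) = LL - Real.log 2 := by
      rw [Real.log_mul (by norm_num) hlogp.ne', one_div, Real.log_inv]
      ring
    have h3 : Real.log ((l : ℝ) + 1) ≤ Real.log ((l : ℝ) + 1) / Real.log 2 := by
      rw [le_div_iff₀ (by linarith)]
      nlinarith
    linarith
  have hΛup : Λ ≤ 4 * LL := by
    have h1 : Real.log ((l : ℝ) + 1) ≤ Real.log (4 * Real.log n) := Real.log_le_log hlp hs2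
    have h4 : Real.log 4 = 2 * Real.log 2 := by
      rw [show (4 : ℝ) = 2 ^ 2 by norm_num, Real.log_pow]
      norm_num
    have h2 : Real.log (4 * Real.log n) = 2 * Real.log 2 + LL := by
      rw [Real.log_mul (by norm_num) hlogp.ne', h4]
    have h3 : Real.log ((l : ℝ) + 1) / Real.log 2 ≤ 3 / 2 * Real.log ((l : ℝ) + 1) := by
      rw [div_le_iff₀ (by linarith)]
      nlinarith
    linarith
  set Y : ℝ := η * (2 : ℝ) ^ l * Λ ^ 2 * κ / ((l : ℝ) + 1) with hY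
  have hΛ2 : 1 ≤ Λ ^ 2 := one_le_pow₀ hΛ1
  have hY2 : 2 ≤ Y := by
    rw [hY, le_div_iff₀ hlp]
    calc 2 * ((l : ℝ) + 1) ≤ (2 ^ l * η) * ((l : ℝ) + 1) :=
          mul_le_mul_of_nonneg_right hp1 hlp.le
      _ ≤ (2 ^ l * η) * κ := mul_le_mul_of_nonneg_left hκ1 (by positivity)
      _ ≤ (2 ^ l * η * κ) * Λ ^ 2 := le_mul_of_one_le_right (by positivity) hΛ2
      _ = η * (2 : ℝ) ^ l * Λ ^ 2 * κ := by ring
  have hY0 : 0 < Y := by linarith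
  have hnp1 : (⌊Y⌋₊ : ℝ) ≤ Y := Nat.floor_le hY0.le
  have hnp2 : Y / 2 ≤ (⌊Y⌋₊ : ℝ) := by
    have := Nat.lt_floor_add_one Y
    linarith
  have hnp0 : (0 : ℝ) < (⌊Y⌋₊ : ℝ) := by linarith
  have hY1 : Y * ((l : ℝ) + 1) = η * (2 : ℝ) ^ l * Λ ^ 2 * κ := by
    rw [hY]
    field_simp
  refine ⟨l, l + t, ⌊Y⌋₊, hL, by omega, by omega, Or.inr rfl, ?_, ?_, ?_, ?_, ?_⟩
  · exact_mod_cast hnp0
  · rw [hLv, hκ]
    exact hnp1
  · rw [hκ, pow_add]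
    have hsq : Real.sqrt ((l : ℝ) + 1) * Real.sqrt ((l : ℝ) + 1) = (l : ℝ) + 1 :=
      Real.mul_self_sqrt hlp.le
    have hs0 : 0 < Real.sqrt ((l : ℝ) + 1) := Real.sqrt_pos.2 hlp
    have hs2' : 2 / η ≤ Real.sqrt ((l : ℝ) + 1) := Real.le_sqrt_of_sq_le hp2
    rw [div_le_iff₀ hη] at hs2'
    have h1 : Real.sqrt ((l : ℝ) + 1) ≤ η * ((l : ℝ) + 1) / 2 := by nlinarith
    have h2 : (2 : ℝ) ^ l * (2 : ℝ) ^ t ≤ (2 : ℝ) ^ l * (η * ((l : ℝ) + 1) / 2) :=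
      mul_le_mul_of_nonneg_left (ht2.trans h1) h2l.le
    refine h2.trans ?_
    have h3 : (2 : ℝ) ^ l * (η * ((l : ℝ) + 1) / 2) ≤ Y / 2 * κ := by
      have h4 : η * (2 : ℝ) ^ l ≤ Y := by
        rw [hY, le_div_iff₀ hlp]
        calc η * (2 : ℝ) ^ l * ((l : ℝ) + 1) ≤ η * (2 : ℝ) ^ l * κ :=
              mul_le_mul_of_nonneg_left hκ1 (by positivity)
          _ ≤ (η * (2 : ℝ) ^ l * κ) * Λ ^ 2 := le_mul_of_one_le_right (by positivity) hΛ2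
          _ = η * (2 : ℝ) ^ l * Λ ^ 2 * κ := by ring
      calc (2 : ℝ) ^ l * (η * ((l : ℝ) + 1) / 2) = (η * (2 : ℝ) ^ l) / 2 * ((l : ℝ) + 1) := by ring
        _ ≤ Y / 2 * ((l : ℝ) + 1) := by
            refine mul_le_mul_of_nonneg_right ?_ hlp.le
            linarith
        _ ≤ Y / 2 * κ := mul_le_mul_of_nonneg_left hκ1 (by linarith)
    exact h3.trans (mul_le_mul_of_nonneg_right hnp2 hκ0.le)
  · refine lph_exp hn3 ?_
    have h2 : (1 / 2 * Real.log n) ^ g ≤ κ := by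
      rw [hκdef]
      exact pow_le_pow_left₀ (by positivity) hs1 g
    have h3 : (n : ℝ) = c * (η * X * (LL / 4) ^ 2 * (1 / 2 * Real.log n) ^ g / 2) := by
      rw [hX, hA, hD, mul_pow, div_pow, div_pow, one_pow]
      have h4 : (Real.log n) ^ g ≠ 0 := by positivity
      have h5 : LL ^ 2 ≠ 0 := by positivity
      field_simp
      norm_num
    have h4 : (LL / 4) ^ 2 ≤ Λ ^ 2 := pow_le_pow_left₀ (by positivity) hΛlow 2
    have h5 : η * X * (LL / 4) ^ 2 * (1 / 2 * Real.log n) ^ g ≤ η * (2 : ℝ) ^ l * Λ ^ 2 * κ :=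
      mul_le_mul (mul_le_mul (mul_le_mul_of_nonneg_left hl1 hη.le) h4 (by positivity)
        (by positivity)) h2 (by positivity) (by positivity)
    rw [h3]
    have h6 : c * (η * X * (LL / 4) ^ 2 * (1 / 2 * Real.log n) ^ g / 2) ≤
        c * (Y / 2 * ((l : ℝ) + 1)) := by
      refine mul_le_mul_of_nonneg_left ?_ hc.le
      linarith
    refine h6.trans ?_
    rw [← mul_assoc]
    exact mul_le_mul_of_nonneg_right (mul_le_mul_of_nonneg_left hnp2 hc.le) hlp.le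
  · rw [hLv, hκ]
    have he : (2 : ℝ) ^ (((1 : ℝ) / 2 - 1 / 2) * l) = 1 := by
      rw [sub_self, zero_mul, Real.rpow_zero]
    rw [he, mul_one]
    have h1 : ((l : ℝ) + 1) / (η * (2 : ℝ) ^ l * Λ) ≤ Λ * κ / (⌊Y⌋₊ : ℝ) := by
      have h2 : ((l : ℝ) + 1) / (η * (2 : ℝ) ^ l * Λ) = Λ * κ / Y := by
        rw [hY]
        field_simp
      rw [h2]
      exact div_le_div_of_nonneg_left (by positivity) hnp0 hnp1
    have h3 : (Real.log n) ^ (g + 1) * LL / (16 * η * A * n) ≤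
        ((l : ℝ) + 1) / (η * (2 : ℝ) ^ l * Λ) := by
      have h4 : (Real.log n) ^ (g + 1) * LL / (16 * η * A * n) =
          (1 / 2 * Real.log n) / (η * (2 * X) * (4 * LL)) := by
        rw [hX, hD, pow_succ]
        have h5 : (Real.log n) ^ g ≠ 0 := by positivity
        field_simp
        norm_num
      rw [h4]
      refine div_le_div₀ hlp.le hs1 (by positivity) ?_
      exact mul_le_mul (mul_le_mul_of_nonneg_left hl2 hη.le) hΛup hΛ0.le (by positivity)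
    have h5 : Real.sqrt ((Real.log n) ^ (g + 1) * LL / (16 * η * A * n)) ≤
        Real.sqrt (Λ * κ / (⌊Y⌋₊ : ℝ)) := Real.sqrt_le_sqrt (h3.trans h1)
    have h6 : (16 * η * A) ^ (-(1 / 2 : ℝ)) * psi0 (g + 1) (1 / 2) n =
        Real.sqrt ((Real.log n) ^ (g + 1) * LL / (16 * η * A * n)) := by
      unfold psi0
      rw [if_neg (lt_irrefl _), if_pos rfl, Real.sqrt_eq_rpow, Real.div_rpow (by positivity)
        (by positivity), Real.mul_rpow (by positivity) hLL0.le, Real.mul_rpow (by positivity)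
        hnpos.le, ← Real.rpow_natCast, ← Real.rpow_mul hlogp.le, Real.rpow_neg (by positivity),
        Real.rpow_neg hnpos.le]
      have h7 : ((g + 1 : ℕ) : ℝ) * (1 / 2) = ((g + 1 : ℕ) : ℝ) / 2 := by ring
      rw [h7, ← hLLdef]
      have h8 : (16 * η * A) ^ (1 / 2 : ℝ) ≠ 0 := by positivity
      have h9 : (n : ℝ) ^ (1 / 2 : ℝ) ≠ 0 := by positivity
      field_simp
    rw [mul_assoc, h6]
    exact mul_le_mul_of_nonneg_left h5 hc.le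

end MPcd65c1
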