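import Pool.Agent.Lib.MP_cd65c1_an.LInf
import Pool.Agent.Lib.MP_cd65c1_an.LOne
import Pool.Agent.Lib.MP_cd65c1_an.LParA
import Pool.Agent.Lib.MP_cd65c1_an.LParB
import Pool.Agent.Lib.MP_cd65c1_an.LParC

/-!
# MP_cd65c1_an / LMain : lower bounds for `(2m, ∞)` and `(1, (2m)')` (about 50 lines)

Combine `sep_infty`, `sep_one` (constants `η, c, L0`) with `Params` (`params_high`, `params_low`,
`params_mid` according to `r > 1/2`, `r < 1/2`, `r = 1/2`): take `N = 2^n`.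
-/

namespace MPcd65c1

open MeasureTheory
open scoped ENNReal

theorem params_all (d : ℕ) (hd : 2 ≤ d) (r : ℝ) (hr : 0 < r) (η c : ℝ) (hη : 0 < η)
    (hc : 0 < c) (L0 : ℕ) : Params d r (psi0 d r) η c L0 := by
  rcases lt_trichotomy r (1 / 2) with h | h | h
  · exact params_low d hd r hr h η c hη hc L0
  · subst h
    exact params_mid d hd η c hη hc L0
  · exact params_high d hd r h η c hη hc L0

theorem low_infty_even (d : ℕ) (hd : 2 ≤ d) (r : ℝ) (hr : 0 < r) (m : ℕ) (hm : 1 ≤ m) :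
    LOW d ((2 * m : ℕ) : ℝ≥0∞) ∞ r (psi0 d r) := by
  obtain ⟨η, c, L0, hη, hc, h⟩ := sep_infty d hd r hr m hm
  obtain ⟨c', n0, hc', hp⟩ := params_all d hd r hr η c hη hc L0
  refine ⟨c', n0, hc', fun n hn ε hcov => ?_⟩
  obtain ⟨l0, l1, np, h1, h2, h3, h4, h5, h6, h7, h8, h9⟩ := hp n hn
  exact h9.trans (h l0 l1 np h1 h2 h3 h4 h5 h6 h7 _ ε h8 hcov)

theorem low_one_even (d : ℕ) (hd : 2 ≤ d) (r : ℝ) (hr : 0 < r) (m : ℕ) (hm : 1 ≤ m)
    (q : ℝ≥0∞) [Fact (1 ≤ q)] (hq : q.HolderConjugate ((2 * m : ℕ) : ℝ≥0∞)) :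
    LOW d 1 q r (psi0 d r) := by
  obtain ⟨η, c, L0, hη, hc, h⟩ := sep_one d hd r hr m hm
  obtain ⟨c', n0, hc', hp⟩ := params_all d hd r hr η c hη hc L0
  refine ⟨c', n0, hc', fun n hn ε hcov => ?_⟩
  obtain ⟨l0, l1, np, h1, h2, h3, h4, h5, h6, h7, h8, h9⟩ := hp n hn
  exact h9.trans (h l0 l1 np h1 h2 h3 h4 h5 h6 h7 q hq _ ε h8 hcov)

end MPcd65c1
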