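import Mathlib
import Pool.Agent.Lib.MP_cd65c1_an.Defs

/-!
# Definitions for section 9 (the lower bound for (1,∞))
-/

namespace MPcd65c1

open MeasureTheory

/-- half of the layer: exactly one of `k`, `-k` -/
noncomputable def Hf (d l : ℕ) : Finset (Fin d → ℤ) := by
  classical exact (Lam d l).filter (fun k => toLex (-k) < toLex k)

/-- index set of the Gaussian variables -/
abbrev Ig (d l : ℕ) : Type := {k : Fin d → ℤ // k ∈ Hf d l} × Bool

/-- standard Gaussian product measure on `ℝ^ι` -/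
noncomputable def gp (ι : Type*) [Fintype ι] : Measure (ι → ℝ) :=
  Measure.pi (fun _ : ι => ProbabilityTheory.gaussianReal 0 1)

/-- unimodular multipliers commuting with complex conjugation -/
def Uni {d : ℕ} (u : CV d) : Prop :=
  (∀ k, ‖u k‖ = 1) ∧ ∀ k, u (-k) = starRingEnd ℂ (u k)

/-- the functions `√2 cos(2π k·x + θ_k)`, `√2 sin(2π k·x + θ_k)`, `u_k = exp(i θ_k)` -/
noncomputable def fb {d l : ℕ} (u : CV d) (i : Ig d l) (x : Td d) : ℝ :=
  Real.sqrt 2 *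
    (if i.2 then (u i.1.1 * (UnitAddTorus.mFourier i.1.1 x : ℂ)).re
      else (u i.1.1 * (UnitAddTorus.mFourier i.1.1 x : ℂ)).im)

/-- the Gaussian field -/
noncomputable def Gf {d l : ℕ} (u : CV d) (γ : Ig d l → ℝ) (x : Td d) : ℝ :=
  ∑ i, γ i * fb u i x

/-- layer kernel -/
noncomputable def Dl (d l : ℕ) (x : Td d) : ℝ :=
  ∑ k ∈ Lam d l, (UnitAddTorus.mFourier k x : ℂ).re

/-- number of elements of the layer -/
noncomputable def NL (d l : ℕ) : ℝ := ((Lam d l).card : ℝ)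

/-- the density `sinh(a G)/(a exp(a^2 N/2))` -/
noncomputable def mg {d l : ℕ} (a : ℝ) (u : CV d) (γ : Ig d l → ℝ) (x : Td d) : ℝ :=
  Real.sinh (a * Gf u γ x) / (a * Real.exp (a ^ 2 * NL d l / 2))

/-- Fourier coefficient of a real function -/
noncomputable def cfr {d : ℕ} (f : Td d → ℝ) (k : Fin d → ℤ) : ℂ := cf (fun x => ((f x : ℝ) : ℂ)) k

/-- the energy of the error `mg - Gf` in the layer `l'` -/
noncomputable def vl {d l : ℕ} (a : ℝ) (u : CV d) (γ : Ig d l → ℝ) (l' : ℕ) : ℝ :=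
  ∑ k ∈ Lam d l', ‖cfr (fun x => mg a u γ x - Gf u γ x) k‖ ^ 2

/-- the parameter `a` with `a^2 N = ε l` -/
noncomputable def al (d l : ℕ) (ε : ℝ) : ℝ := Real.sqrt (ε * l / NL d l)

/-- good samples -/
structure Good {d l : ℕ} (C a : ℝ) (u : CV d) (γ : Ig d l → ℝ) : Prop where
  one : ∫ x, |mg a 1 γ x| ∂(mu d) ≤ 16 / a
  two : ∫ x, |mg a u γ x| ∂(mu d) ≤ 16 / a
  three : ∀ l', vl a 1 γ l' ≤ C * Mm d l / ((l : ℝ) + 1) ^ 2 *
    (2 : ℝ) ^ (((l' : ℝ) - l) / 2 + |(l' : ℝ) - l| / 8)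
  four : ∀ l', vl a u γ l' ≤ C * Mm d l / ((l : ℝ) + 1) ^ 2 *
    (2 : ℝ) ^ (((l' : ℝ) - l) / 2 + |(l' : ℝ) - l| / 8)
  five : NL d l / 4 ≤ ∑ i, γ i ^ 2
  six : ∑ i, γ i ^ 2 ≤ 16 * NL d l

/-- the phases of the Bernoulli multiplier -/
noncomputable def uph {d : ℕ} (r : ℝ) : CV d := fun k => lamr r k / ((‖lamr r k‖ : ℝ) : ℂ)

/-- the weights `2^{rl} |lamr r k|` -/
noncomputable def wph {d : ℕ} (r : ℝ) (l : ℕ) (k : Fin d → ℤ) : ℝ :=
  (2 : ℝ) ^ (r * l) * ‖lamr r k‖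

end MPcd65c1
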