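import Mathlib
import Pool.Agent.Lib.MP_cd65c1_an.TDefs

/-! TP: solutions `f = F_r * φ` for `r > 1` and the pairing with a continuous function. -/

namespace MPcd65c1

open MeasureTheory
open scoped ENNReal

private theorem norm_bern (r : ℝ) (k : ℤ) :
    ‖bern r k‖ = if k = 0 then 1 else |(k : ℝ)| ^ (-r) := by
  unfold bern
  split_ifs with h
  · exact norm_one
  · have h1 : -(Complex.I * (((k.sign : ℝ) * r * Real.pi / 2 : ℝ) : ℂ)) =
        ((-((k.sign : ℝ) * r * Real.pi / 2) : ℝ) : ℂ) * Complex.I := by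
      push_cast
      ring
    rw [norm_mul, h1, Complex.norm_exp_ofReal_mul_I, mul_one, Complex.norm_real, Real.norm_eq_abs,
      abs_of_nonneg (Real.rpow_nonneg (abs_nonneg _) _)]

private theorem summable_bern (r : ℝ) (hr : 1 < r) : Summable (fun k : ℤ => ‖bern r k‖) := by
  have h1 : Summable (fun k : ℤ => |(k : ℝ)| ^ (-r)) := Real.summable_abs_int_rpow hr
  have h2 : Summable (fun k : ℤ => if k = 0 then (1 : ℝ) else 0) :=
    summable_of_ne_finset_zero (s := {0}) (fun k hk => if_neg (by simpa using hk))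
  refine (h1.add h2).of_nonneg_of_le (fun k => norm_nonneg _) (fun k => ?_)
  rw [norm_bern]
  split_ifs with h
  · have : 0 ≤ |(k : ℝ)| ^ (-r) := Real.rpow_nonneg (abs_nonneg _) _
    linarith
  · rw [add_zero]

/-- `∑_k ‖lamr r k‖ < ∞` for `r > 1` (product of the one-dimensional sums `1 + 2 ∑ k^{-r}`). -/
theorem summable_lamr (d : ℕ) (r : ℝ) (hr : 1 < r) :
    Summable (fun k : Fin d → ℤ => ‖lamr r k‖) := by
  classical
  have hb := summable_bern r hr
  have hnn : ∀ k : Fin d → ℤ, 0 ≤ ‖lamr r k‖ := fun k => norm_nonneg _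
  refine summable_of_sum_le (c := ∏ _j : Fin d, ∑' n : ℤ, ‖bern r n‖) hnn ?_
  intro s
  let T : Fin d → Finset ℤ := fun j => s.image (fun k => k j)
  have h1 : s ⊆ Fintype.piFinset T := by
    intro k hk
    rw [Fintype.mem_piFinset]
    exact fun j => Finset.mem_image_of_mem _ hk
  have h2 : ∑ k ∈ s, ‖lamr r k‖ ≤ ∑ k ∈ Fintype.piFinset T, ‖lamr r k‖ :=
    Finset.sum_le_sum_of_subset_of_nonneg h1 (fun k _ _ => hnn k)
  have h3 : ∑ k ∈ Fintype.piFinset T, ‖lamr r k‖ = ∑ k ∈ Fintype.piFinset T, ∏ j, ‖bern r (k j)‖ :=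
    Finset.sum_congr rfl fun k _ => by rw [lamr, norm_prod]
  have h4 : ∏ j : Fin d, ∑ n ∈ T j, ‖bern r n‖ =
      ∑ k ∈ Fintype.piFinset T, ∏ j, ‖bern r (k j)‖ :=
    Finset.prod_univ_sum T (fun _ n => ‖bern r n‖)
  have h5 : ∏ j : Fin d, ∑ n ∈ T j, ‖bern r n‖ ≤ ∏ _j : Fin d, ∑' n : ℤ, ‖bern r n‖ := by
    refine Finset.prod_le_prod (fun j _ => Finset.sum_nonneg fun n _ => norm_nonneg _) ?_
    intro j _
    exact hb.sum_le_tsum (T j) (fun n _ => norm_nonneg _)
  rw [h3, ← h4] at h2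
  exact h2.trans h5

private theorem norm_mF {d : ℕ} (k : Fin d → ℤ) (x : Td d) :
    ‖(UnitAddTorus.mFourier k x : ℂ)‖ = 1 := by
  simp [UnitAddTorus.mFourier, fourier_apply, Circle.norm_coe]

private theorem integrable_cont' {d : ℕ} {f : Td d → ℂ} (hf : Continuous f) :
    Integrable f (mu d) :=
  hf.integrable_of_hasCompactSupport (HasCompactSupport.of_compactSpace f)

private theorem cf_mF {d : ℕ} (m k : Fin d → ℤ) :
    cf (fun x => (UnitAddTorus.mFourier m x : ℂ)) k = if m = k then 1 else 0 := by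
  have h := (orthonormal_iff_ite.mp (UnitAddTorus.orthonormal_mFourier (d := Fin d))) k m
  have h2 : cf (fun x => (UnitAddTorus.mFourier m x : ℂ)) k =
      inner ℂ (UnitAddTorus.mFourierLp (d := Fin d) 2 k) (UnitAddTorus.mFourierLp 2 m) := by
    rw [ContinuousMap.inner_toLp]
    unfold cf
    refine integral_congr_ae (Filter.Eventually.of_forall fun x => ?_)
    simp only []
    rw [UnitAddTorus.mFourier_neg, mul_comm]
  rw [h2, h]
  by_cases hk : m = k
  · rw [if_pos hk, if_pos hk.symm]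
  · rw [if_neg hk, if_neg fun h => hk h.symm]

private theorem cf_tsum {d : ℕ} (c : CV d) (hc : Summable fun k => ‖c k‖) (k : Fin d → ℤ) :
    cf (fun x => ∑' m, c m * (UnitAddTorus.mFourier m x : ℂ)) k = c k := by
  have hcont : ∀ m : Fin d → ℤ, Continuous (fun x : Td d =>
      (UnitAddTorus.mFourier (-k) x : ℂ) * (c m * (UnitAddTorus.mFourier m x : ℂ))) := fun m =>
    (UnitAddTorus.mFourier (-k)).continuous.mul
      (continuous_const.mul (UnitAddTorus.mFourier m).continuous)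
  have hnorm : ∀ (m : Fin d → ℤ) (x : Td d),
      ‖(UnitAddTorus.mFourier (-k) x : ℂ) * (c m * (UnitAddTorus.mFourier m x : ℂ))‖ = ‖c m‖ := by
    intro m x
    rw [norm_mul, norm_mul, norm_mF, norm_mF, one_mul, mul_one]
  have h1 := hasSum_integral_of_summable_integral_norm (μ := mu d)
    (F := fun (m : Fin d → ℤ) (x : Td d) =>
      (UnitAddTorus.mFourier (-k) x : ℂ) * (c m * (UnitAddTorus.mFourier m x : ℂ)))
    (fun m => integrable_cont' (hcont m)) (by
      simp only [hnorm]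
      simpa using hc)
  have h2 : ∀ m : Fin d → ℤ, ∫ x, (UnitAddTorus.mFourier (-k) x : ℂ) *
      (c m * (UnitAddTorus.mFourier m x : ℂ)) ∂(mu d) = if m = k then c m else 0 := by
    intro m
    have h3 := cf_mF m k
    unfold cf at h3
    have h4 : ∫ x, (UnitAddTorus.mFourier (-k) x : ℂ) *
        (c m * (UnitAddTorus.mFourier m x : ℂ)) ∂(mu d) =
        c m * ∫ x, (UnitAddTorus.mFourier (-k) x : ℂ) * (UnitAddTorus.mFourier m x : ℂ) ∂(mu d) := by
      rw [← integral_const_mul]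
      refine integral_congr_ae (Filter.Eventually.of_forall fun x => ?_)
      simp only []
      ring
    rw [h4, h3, mul_ite, mul_one, mul_zero]
  simp only [h2] at h1
  have h5 := h1.tsum_eq
  rw [tsum_ite_eq] at h5
  rw [h5]
  unfold cf
  refine integral_congr_ae (Filter.Eventually.of_forall fun x => ?_)
  simp only []
  rw [tsum_mul_left]

private theorem cf_congr_ae {d : ℕ} {f g : Td d → ℂ} (h : f =ᵐ[mu d] g) (k : Fin d → ℤ) :
    cf f k = cf g k := by
  unfold cf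
  refine integral_congr_ae ?_
  filter_upwards [h] with x hx
  rw [hx]

private theorem norm_cfr_le {d : ℕ} (φ : Td d → ℝ) (k : Fin d → ℤ) :
    ‖cfr φ k‖ ≤ ∫ x, |φ x| ∂(mu d) := by
  unfold cfr cf
  refine (norm_integral_le_integral_norm _).trans (le_of_eq ?_)
  refine integral_congr_ae (Filter.Eventually.of_forall fun x => ?_)
  simp only []
  rw [norm_mul, norm_mF, one_mul, Complex.norm_real, Real.norm_eq_abs]

/-- `|cfr φ k| ≤ ∫ |φ|`; `f = ∑ lamr cfr(φ) e_k` converges absolutely in `C(Td d, ℂ)`, its Fourier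
coefficients are the coefficients of the series (`cf_mFourier` and continuity of the integral);
pass to `L_∞` (`ContinuousMap.toLp` or `MemLp.toLp` of a bounded continuous function). -/
theorem exists_sol (d : ℕ) (r : ℝ) (hr : 1 < r) (φ : Td d → ℝ) (hφ : Continuous φ) :
    ∃ f : Lp ℂ ∞ (mu d), ∀ k, cf (f : Td d → ℂ) k = lamr r k * cfr φ k := by
  have hc : Summable fun k : Fin d → ℤ => ‖lamr r k * cfr φ k‖ := by
    refine ((summable_lamr d r hr).mul_right (∫ x, |φ x| ∂(mu d))).of_nonneg_of_le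
      (fun k => norm_nonneg _) (fun k => ?_)
    rw [norm_mul]
    exact mul_le_mul_of_nonneg_left (norm_cfr_le φ k) (norm_nonneg _)
  have hcont : Continuous (fun x : Td d =>
      ∑' m, (lamr r m * cfr φ m) * (UnitAddTorus.mFourier m x : ℂ)) := by
    refine continuous_tsum (fun m => continuous_const.mul (UnitAddTorus.mFourier m).continuous)
      hc (fun m x => ?_)
    rw [norm_mul, norm_mF, mul_one]
  let F : C(Td d, ℂ) := ⟨_, hcont⟩
  refine ⟨ContinuousMap.toLp ∞ (mu d) ℂ F, fun k => ?_⟩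
  rw [cf_congr_ae (ContinuousMap.coeFn_toLp (mu d) F)]
  exact cf_tsum (fun m => lamr r m * cfr φ m) hc k

private theorem memLp_two {d : ℕ} (h : Lp ℂ ∞ (mu d)) : MemLp (h : Td d → ℂ) 2 (mu d) :=
  (Lp.memLp h).mono_exponent le_top

/-- Parseval for `h = f - g ∈ L_∞ ⊆ L_2` and the continuous real function `ν`
(`UnitAddTorus.hasSum_prod_mFourierCoeff`, whose measure is definitionally `mu d`):
`∫ h ν = ∑ h^(k) conj(ν^(k))`. -/
theorem pairing_sub {d : ℕ} (r : ℝ) (f g : Lp ℂ ∞ (mu d)) (φ ψ ν : Td d → ℝ) (hν : Continuous ν)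
    (hf : ∀ k, cf (f : Td d → ℂ) k = lamr r k * cfr φ k)
    (hg : ∀ k, cf (g : Td d → ℂ) k = lamr r k * cfr ψ k) :
    HasSum (fun k => lamr r k * (cfr φ k - cfr ψ k) * starRingEnd ℂ (cfr ν k))
      (∫ x, ((f - g : Lp ℂ ∞ (mu d)) : Td d → ℂ) x * ((ν x : ℝ) : ℂ) ∂(mu d)) := by
  have hνc : Continuous (fun x : Td d => ((ν x : ℝ) : ℂ)) := Complex.continuous_ofReal.comp hν
  let N : Lp ℂ 2 (mu d) := ContinuousMap.toLp 2 (mu d) ℂ ⟨_, hνc⟩
  let H : Lp ℂ 2 (mu d) := (memLp_two (f - g)).toLp _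
  have hN : (N : Td d → ℂ) =ᵐ[mu d] fun x => ((ν x : ℝ) : ℂ) :=
    ContinuousMap.coeFn_toLp (mu d) ⟨_, hνc⟩
  have hH : (H : Td d → ℂ) =ᵐ[mu d] ((f - g : Lp ℂ ∞ (mu d)) : Td d → ℂ) :=
    (memLp_two (f - g)).coeFn_toLp
  have hsum : HasSum (fun k : Fin d → ℤ => starRingEnd ℂ (cf (N : Td d → ℂ) k) * cf (H : Td d → ℂ) k)
      (∫ x, starRingEnd ℂ ((N : Td d → ℂ) x) * (H : Td d → ℂ) x ∂(mu d)) :=
    UnitAddTorus.hasSum_prod_mFourierCoeff (d := Fin d) N H
  have hint : ∀ (h : Lp ℂ ∞ (mu d)) (k : Fin d → ℤ), Integrable (fun x =>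
      (UnitAddTorus.mFourier (-k) x : ℂ) * (h : Td d → ℂ) x) (mu d) := by
    intro h k
    have h1 : Integrable (h : Td d → ℂ) (mu d) := (memLp_two h).integrable one_le_two
    refine h1.bdd_mul (c := 1) (UnitAddTorus.mFourier (-k)).continuous.aestronglyMeasurable ?_
    exact Filter.Eventually.of_forall fun x => (norm_mF _ _).le
  have hcoefH : ∀ k, cf (H : Td d → ℂ) k = lamr r k * (cfr φ k - cfr ψ k) := by
    intro k
    rw [cf_congr_ae hH, mul_sub, ← hf, ← hg, cf_congr_ae (Lp.coeFn_sub f g)]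
    unfold cf
    rw [← integral_sub (hint f k) (hint g k)]
    refine integral_congr_ae (Filter.Eventually.of_forall fun x => ?_)
    simp only [Pi.sub_apply]
    ring
  have hcoefN : ∀ k, cf (N : Td d → ℂ) k = cfr ν k := fun k => cf_congr_ae hN k
  have hval : ∫ x, starRingEnd ℂ ((N : Td d → ℂ) x) * (H : Td d → ℂ) x ∂(mu d) =
      ∫ x, ((f - g : Lp ℂ ∞ (mu d)) : Td d → ℂ) x * ((ν x : ℝ) : ℂ) ∂(mu d) := by
    refine integral_congr_ae ?_
    filter_upwards [hN, hH] with x h1 h2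
    rw [h1, h2, Complex.conj_ofReal, mul_comm]
  rw [hval] at hsum
  refine hsum.congr_fun (fun k => ?_)
  rw [hcoefH, hcoefN, mul_comm]

/-- `|∫ h ν| ≤ |h|_∞ ∫ |ν|`. -/
theorem pairing_le {d : ℕ} (h : Lp ℂ ∞ (mu d)) (ν : Td d → ℝ) (hν : Continuous ν) :
    ‖∫ x, (h : Td d → ℂ) x * ((ν x : ℝ) : ℂ) ∂(mu d)‖ ≤ ‖h‖ * ∫ x, |ν x| ∂(mu d) := by
  have hνi : Integrable (fun x => |ν x|) (mu d) :=
    hν.abs.integrable_of_hasCompactSupport (HasCompactSupport.of_compactSpace _)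
  have hae : ∀ᵐ x ∂(mu d), ‖(h : Td d → ℂ) x‖ ≤ ‖h‖ := by
    have h1 : ∀ᵐ x ∂(mu d), ‖(h : Td d → ℂ) x‖ₑ ≤ eLpNormEssSup (h : Td d → ℂ) (mu d) :=
      ae_le_eLpNormEssSup
    filter_upwards [h1] with x hx
    rw [Lp.norm_def, eLpNorm_exponent_top, ← toReal_enorm]
    refine ENNReal.toReal_mono ?_ hx
    have := Lp.eLpNorm_ne_top h
    rwa [eLpNorm_exponent_top] at this
  rw [← integral_const_mul]
  refine norm_integral_le_of_norm_le (hνi.const_mul _) ?_
  filter_upwards [hae] with x hx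
  rw [norm_mul, Complex.norm_real, Real.norm_eq_abs]
  exact mul_le_mul_of_nonneg_right hx (abs_nonneg _)

end MPcd65c1
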