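import Mathlib
import Pool.Agent.Lib.MP_cd65c1_an.TDefs

/-! TF1: the numerical sum behind Lemma I (paper of section 9, paragraph 2). -/

namespace MPcd65c1

private theorem tf_summ (k : ℕ) (δ : ℝ) (hδ : 0 < δ) :
    Summable (fun j : ℕ => (1 + (j : ℝ)) ^ k * (2 : ℝ) ^ (-((j : ℝ) * δ))) := by
  set q : ℝ := (2 : ℝ) ^ (-δ) with hq
  have hq0 : 0 < q := by positivity
  have hq1 : q < 1 := Real.rpow_lt_one_of_one_lt_of_neg (by norm_num) (by linarith)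
  have hs := summable_pow_mul_geometric_of_norm_lt_one (R := ℝ) k (r := q)
    (by rw [Real.norm_eq_abs, abs_of_pos hq0]; exact hq1)
  have hs1 := (summable_nat_add_iff 1).2 hs
  have hs2 := hs1.mul_left q⁻¹
  refine hs2.congr (fun j => ?_)
  have h1 : (2 : ℝ) ^ (-((j : ℝ) * δ)) = q ^ j := by
    rw [hq, ← Real.rpow_natCast, ← Real.rpow_mul (by norm_num)]
    congr 1
    ring
  rw [h1]
  push_cast
  rw [pow_succ q j]
  field_simp
  ring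

private theorem tf_bdd (D : ℕ) (δ : ℝ) (hδ : 0 < δ) : ∃ C : ℝ, 0 < C ∧ ∀ x : ℝ, 0 ≤ x →
    (1 + x) ^ D * (2 : ℝ) ^ (-(x * δ)) ≤ C := by
  set a : ℝ := min 1 (Real.log 2 * δ / (D + 1)) with ha
  have hlog : 0 < Real.log 2 := Real.log_pos (by norm_num)
  have ha0 : 0 < a := lt_min one_pos (by positivity)
  have ha1 : a ≤ 1 := min_le_left _ _
  have ha2 : a * D ≤ Real.log 2 * δ := by
    have h1 : a ≤ Real.log 2 * δ / (D + 1) := min_le_right _ _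
    have h2 : a * (D + 1) ≤ Real.log 2 * δ := by
      rwa [le_div_iff₀ (by positivity)] at h1
    nlinarith
  refine ⟨(a⁻¹) ^ D, by positivity, fun x hx => ?_⟩
  have h1 : 1 + x ≤ a⁻¹ * Real.exp (a * x) := by
    rw [le_inv_mul_iff₀ ha0]
    have := Real.add_one_le_exp (a * x)
    nlinarith
  have h2 : (1 + x) ^ D ≤ (a⁻¹) ^ D * Real.exp (a * D * x) := by
    calc (1 + x) ^ D ≤ (a⁻¹ * Real.exp (a * x)) ^ D := pow_le_pow_left₀ (by linarith) h1 D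
      _ = (a⁻¹) ^ D * Real.exp (a * D * x) := by
          rw [mul_pow, ← Real.exp_nat_mul]
          congr 2
          ring
  have h3 : (2 : ℝ) ^ (-(x * δ)) = Real.exp (-(Real.log 2 * δ * x)) := by
    rw [Real.rpow_def_of_pos (by norm_num)]
    congr 1
    ring
  rw [h3]
  calc (1 + x) ^ D * Real.exp (-(Real.log 2 * δ * x))
      ≤ ((a⁻¹) ^ D * Real.exp (a * D * x)) * Real.exp (-(Real.log 2 * δ * x)) :=
        mul_le_mul_of_nonneg_right h2 (Real.exp_pos _).le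
    _ = (a⁻¹) ^ D * Real.exp (a * D * x + -(Real.log 2 * δ * x)) := by
        rw [Real.exp_add]; ring
    _ ≤ (a⁻¹) ^ D * 1 := by
        apply mul_le_mul_of_nonneg_left _ (by positivity)
        rw [Real.exp_le_one_iff]
        nlinarith
    _ = _ := mul_one _

private theorem tf_expo (l l' w : ℝ) :
    -w + min l' w + 3 * min l w ≤ 3 * l + (l' - l) / 2 - (|w - l| + |l' - l|) / 4 := by
  rcases le_total l' w with h1 | h1 <;> rcases le_total l w with h2 | h2 <;>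
    rcases le_total l l' with h3 | h3 <;>
    simp only [min_eq_left, min_eq_right, h1, h2] <;>
    (first
      | rw [abs_of_nonneg (sub_nonneg.2 h2)]
      | rw [abs_of_nonpos (sub_nonpos.2 h2)]) <;>
    (first
      | rw [abs_of_nonneg (sub_nonneg.2 h3)]
      | rw [abs_of_nonpos (sub_nonpos.2 h3)]) <;>
    linarith

private theorem tf_term (D l l' w : ℕ) (c : ℝ) (hc : 0 ≤ c) (hc1 : c ≤ Real.log 2 / 8) :
    ((w : ℝ) + 1) ^ D * ((2 : ℝ) ^ w)⁻¹ *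
      ((2 : ℝ) ^ (min l' w) * (1 + |(w : ℝ) - l'|) ^ D) *
      ((2 : ℝ) ^ (min l w) * (1 + |(w : ℝ) - l|) ^ D) ^ 3 *
      Real.exp (c * (1 + max ((w : ℝ) - l) 0)) ≤
    (2 * ((2 : ℝ) ^ (3 * l) * ((l : ℝ) + 1) ^ D * (2 : ℝ) ^ (((l' : ℝ) - l) / 2)) *
      ((1 + |(l' : ℝ) - l|) ^ D * (2 : ℝ) ^ (-(|(l' : ℝ) - l| * (1 / 4))))) *
      ((1 + |(w : ℝ) - l|) ^ (5 * D) * (2 : ℝ) ^ (-(|(w : ℝ) - l| * (1 / 8)))) := by
  set U : ℝ := |(w : ℝ) - l| with hU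
  set J : ℝ := |(l' : ℝ) - l| with hJ
  have hU0 : 0 ≤ U := abs_nonneg _
  have hJ0 : 0 ≤ J := abs_nonneg _
  have hl0 : (0 : ℝ) ≤ l := Nat.cast_nonneg _
  have hUle : (w : ℝ) - l ≤ U := le_abs_self _
  have e1 : ((w : ℝ) + 1) ^ D ≤ ((l : ℝ) + 1) ^ D * (1 + U) ^ D := by
    rw [← mul_pow]
    apply pow_le_pow_left₀ (by positivity)
    nlinarith
  have e2 : (1 + |(w : ℝ) - l'|) ^ D ≤ (1 + U) ^ D * (1 + J) ^ D := by
    rw [← mul_pow]
    apply pow_le_pow_left₀ (by positivity)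
    have h1 : |(w : ℝ) - l'| ≤ U + J := by
      have h2 : (w : ℝ) - l' = ((w : ℝ) - l) - ((l' : ℝ) - l) := by ring
      rw [h2]
      exact abs_sub _ _
    nlinarith
  have e3 : Real.exp (c * (1 + max ((w : ℝ) - l) 0)) ≤ 2 * (2 : ℝ) ^ (U * (1 / 8)) := by
    have h1 : max ((w : ℝ) - l) 0 ≤ U := max_le hUle hU0
    have h2 : c * (1 + max ((w : ℝ) - l) 0) ≤ Real.log 2 + Real.log 2 * (U * (1 / 8)) := by
      have h3 : c * (1 + max ((w : ℝ) - l) 0) ≤ Real.log 2 / 8 * (1 + U) := by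
        apply mul_le_mul hc1 (by linarith) _ (by positivity)
        have := le_max_right ((w : ℝ) - l) 0
        linarith
      have h4 : 0 < Real.log 2 := Real.log_pos (by norm_num)
      nlinarith
    calc Real.exp (c * (1 + max ((w : ℝ) - l) 0)) ≤
          Real.exp (Real.log 2 + Real.log 2 * (U * (1 / 8))) := Real.exp_le_exp.2 h2
      _ = 2 * (2 : ℝ) ^ (U * (1 / 8)) := by
          rw [Real.exp_add, Real.exp_log (by norm_num), Real.rpow_def_of_pos (by norm_num) (U * (1 / 8))]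
  have e4 : ((2 : ℝ) ^ w)⁻¹ * (2 : ℝ) ^ (min l' w) * ((2 : ℝ) ^ (min l w)) ^ 3 ≤
      (2 : ℝ) ^ (3 * l) * (2 : ℝ) ^ (((l' : ℝ) - l) / 2) *
        ((2 : ℝ) ^ (-(U * (1 / 4))) * (2 : ℝ) ^ (-(J * (1 / 4)))) := by
    have h1 : ((2 : ℝ) ^ w)⁻¹ * (2 : ℝ) ^ (min l' w) * ((2 : ℝ) ^ (min l w)) ^ 3 =
        (2 : ℝ) ^ (-(w : ℝ) + min (l' : ℝ) w + 3 * min (l : ℝ) w) := by
      rw [Real.rpow_add (by norm_num), Real.rpow_add (by norm_num), Real.rpow_neg (by norm_num),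
        Real.rpow_natCast, ← Nat.cast_min, ← Nat.cast_min, Real.rpow_natCast, ← pow_mul,
        ← Real.rpow_natCast 2 (min l w * 3)]
      congr 2
      push_cast
      ring
    have h2 : (2 : ℝ) ^ (3 * l) * (2 : ℝ) ^ (((l' : ℝ) - l) / 2) *
        ((2 : ℝ) ^ (-(U * (1 / 4))) * (2 : ℝ) ^ (-(J * (1 / 4)))) =
        (2 : ℝ) ^ (3 * (l : ℝ) + ((l' : ℝ) - l) / 2 - (U + J) / 4) := by
      rw [← Real.rpow_natCast, ← Real.rpow_add (by norm_num), ← Real.rpow_add (by norm_num),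
        ← Real.rpow_add (by norm_num)]
      congr 1
      push_cast
      ring
    rw [h1, h2]
    exact Real.rpow_le_rpow_of_exponent_le (by norm_num) (tf_expo l l' w)
  have e5 : (2 : ℝ) ^ (-(U * (1 / 4))) * (2 : ℝ) ^ (U * (1 / 8)) = (2 : ℝ) ^ (-(U * (1 / 8))) := by
    rw [← Real.rpow_add (by norm_num)]
    congr 1
    ring
  calc ((w : ℝ) + 1) ^ D * ((2 : ℝ) ^ w)⁻¹ *
      ((2 : ℝ) ^ (min l' w) * (1 + |(w : ℝ) - l'|) ^ D) *
      ((2 : ℝ) ^ (min l w) * (1 + U) ^ D) ^ 3 *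
      Real.exp (c * (1 + max ((w : ℝ) - l) 0))
      = (((w : ℝ) + 1) ^ D * (1 + |(w : ℝ) - l'|) ^ D * ((1 + U) ^ D) ^ 3) *
        (((2 : ℝ) ^ w)⁻¹ * (2 : ℝ) ^ (min l' w) * ((2 : ℝ) ^ (min l w)) ^ 3) *
        Real.exp (c * (1 + max ((w : ℝ) - l) 0)) := by ring
    _ ≤ ((((l : ℝ) + 1) ^ D * (1 + U) ^ D) * ((1 + U) ^ D * (1 + J) ^ D) * ((1 + U) ^ D) ^ 3) *
        ((2 : ℝ) ^ (3 * l) * (2 : ℝ) ^ (((l' : ℝ) - l) / 2) *
          ((2 : ℝ) ^ (-(U * (1 / 4))) * (2 : ℝ) ^ (-(J * (1 / 4))))) *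
        (2 * (2 : ℝ) ^ (U * (1 / 8))) := by
        apply mul_le_mul _ e3 (Real.exp_pos _).le (by positivity)
        apply mul_le_mul _ e4 (by positivity) (by positivity)
        apply mul_le_mul_of_nonneg_right _ (by positivity)
        exact mul_le_mul e1 e2 (by positivity) (by positivity)
    _ = (2 * ((2 : ℝ) ^ (3 * l) * ((l : ℝ) + 1) ^ D * (2 : ℝ) ^ (((l' : ℝ) - l) / 2)) *
          ((1 + J) ^ D * (2 : ℝ) ^ (-(J * (1 / 4))))) *
        ((1 + U) ^ (5 * D) * ((2 : ℝ) ^ (-(U * (1 / 4))) * (2 : ℝ) ^ (U * (1 / 8)))) := by ring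
    _ = _ := by rw [e5]

private theorem tf_sum (F : ℝ → ℝ) (h0 : ∀ x, 0 ≤ x → 0 ≤ F x)
    (hF : Summable (fun j : ℕ => F j)) (l W : ℕ) :
    ∑ w ∈ Finset.range W, F |(w : ℝ) - l| ≤ 2 * ∑' j : ℕ, F j := by
  have h1 : ∑ w ∈ Finset.range W, F |(w : ℝ) - l| ≤
      ∑ w ∈ Finset.range (l + W), F |(w : ℝ) - l| := by
    apply Finset.sum_le_sum_of_subset_of_nonneg
    · intro x hx
      rw [Finset.mem_range] at *
      omega
    · intro x _ _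
      exact h0 _ (abs_nonneg _)
  refine h1.trans ?_
  rw [Finset.sum_range_add]
  have h2 : ∑ w ∈ Finset.range l, F |(w : ℝ) - l| ≤ ∑' j : ℕ, F j := by
    have e1 : ∑ w ∈ Finset.range l, F |(w : ℝ) - l| = ∑ j ∈ Finset.range l, F ((j + 1 : ℕ) : ℝ) := by
      rw [← Finset.sum_range_reflect (fun j : ℕ => F ((j + 1 : ℕ) : ℝ)) l]
      refine Finset.sum_congr rfl (fun w hw => ?_)
      have hw' := Finset.mem_range.1 hw
      congr 1
      have : l - 1 - w + 1 = l - w := by omega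
      rw [this, Nat.cast_sub hw'.le, abs_sub_comm, abs_of_nonneg]
      have : (w : ℝ) ≤ l := by exact_mod_cast hw'.le
      linarith
    rw [e1]
    calc ∑ j ∈ Finset.range l, F ((j + 1 : ℕ) : ℝ) ≤ ∑ j ∈ Finset.range (l + 1), F (j : ℝ) := by
          rw [Finset.sum_range_succ' (fun j : ℕ => F (j : ℝ))]
          have := h0 ((0 : ℕ) : ℝ) (by simp)
          linarith
      _ ≤ _ := hF.sum_le_tsum _ (fun j _ => h0 _ (Nat.cast_nonneg _))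
  have h3 : ∑ w ∈ Finset.range W, F |((l + w : ℕ) : ℝ) - l| ≤ ∑' j : ℕ, F j := by
    have e1 : ∑ w ∈ Finset.range W, F |((l + w : ℕ) : ℝ) - l| = ∑ w ∈ Finset.range W, F (w : ℝ) := by
      refine Finset.sum_congr rfl (fun w _ => ?_)
      congr 1
      push_cast
      rw [add_sub_cancel_left, abs_of_nonneg (Nat.cast_nonneg _)]
    rw [e1]
    exact hF.sum_le_tsum _ (fun j _ => h0 _ (Nat.cast_nonneg _))
  linarith

/-- Write `w = l + u`, `l' = l + j` (integers). `2^{-w} 2^{min(l',w)} 2^{3 min(l,w)}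
= 2^{3l} 2^{min(j,u) - u - 3 u^-}` and `(w+1)^{d-1} ≤ (l+1)^{d-1} (1+u^+)^{d-1}`,
`1+|w-l'| ≤ (1+|u|)(1+|j|)`. So the sum is at most
`2^{3l} (l+1)^{d-1} (1+|j|)^{d-1} ∑_u 2^{min(j,u)-u-3u^-} (1+|u|)^{5(d-1)} e^{c(1+u^+)}`.
For `j ≥ 0` this is `≤ C (1+j)^{6d} e^{c j} ≤ C 2^{j/2}` (if `c ≤ c0` small: split `0 ≤ u ≤ j`,
`u > j`, `u < 0`); for `j < 0` it is `≤ C (1+|j|)^{d-1} 2^{-|j|} ≤ C 2^{j/2}`
(`min(j,u) - u - 3u^- ≤ j - u` for `u ≥ 0`, `≤ j - 2|u|` for `j ≤ u < 0`, `= -3|u| ≤ j - 2|u|` for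
`u < j`).  Simplest way in Lean: prove termwise, for all `u, j` (as `w, l, l'`),
`2^{min(j,u)-u-3u^-} ≤ 2^{j/2} 2^{|j|/2} 2^{-|u - j^+|...}`; any route is fine. -/
theorem sum_I (d : ℕ) (hd : 1 ≤ d) : ∃ c0 : ℝ, 0 < c0 ∧ ∃ C : ℝ, 0 < C ∧
    ∀ (l l' : ℕ) (c : ℝ), 0 ≤ c → c ≤ c0 → ∀ W : ℕ,
    ∑ w ∈ Finset.range W, ((w : ℝ) + 1) ^ (d - 1) * ((2 : ℝ) ^ w)⁻¹ *
      ((2 : ℝ) ^ (min l' w) * (1 + |(w : ℝ) - l'|) ^ (d - 1)) *
      ((2 : ℝ) ^ (min l w) * (1 + |(w : ℝ) - l|) ^ (d - 1)) ^ 3 *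
      Real.exp (c * (1 + max ((w : ℝ) - l) 0))
    ≤ C * (2 : ℝ) ^ (3 * l) * ((l : ℝ) + 1) ^ (d - 1) * (2 : ℝ) ^ (((l' : ℝ) - l) / 2) := by
  obtain ⟨C1, hC1, h1⟩ := tf_bdd (d - 1) (1 / 4) (by norm_num)
  have hs := tf_summ (5 * (d - 1)) (1 / 8) (by norm_num)
  set F : ℝ → ℝ := fun x => (1 + x) ^ (5 * (d - 1)) * (2 : ℝ) ^ (-(x * (1 / 8))) with hF
  have hF0 : ∀ x, 0 ≤ x → 0 ≤ F x := fun x hx => by
    simp only [hF]
    positivity
  have hS0 : 0 ≤ ∑' j : ℕ, F j := tsum_nonneg (fun j => hF0 _ (Nat.cast_nonneg _))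
  refine ⟨Real.log 2 / 8, by have := Real.log_pos (show (1 : ℝ) < 2 by norm_num); positivity,
    2 * C1 * (2 * ∑' j : ℕ, F j) + 1, by positivity, fun l l' c hc hc1 W => ?_⟩
  set A : ℝ := (2 : ℝ) ^ (3 * l) * ((l : ℝ) + 1) ^ (d - 1) * (2 : ℝ) ^ (((l' : ℝ) - l) / 2) with hA
  have hA0 : 0 < A := by positivity
  calc _ ≤ ∑ w ∈ Finset.range W, (2 * A * C1) * F |(w : ℝ) - l| := by
        refine Finset.sum_le_sum (fun w _ => (tf_term (d - 1) l l' w c hc hc1).trans ?_)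
        simp only [hF]
        apply mul_le_mul_of_nonneg_right _ (by positivity)
        exact mul_le_mul_of_nonneg_left (h1 _ (abs_nonneg _)) (by positivity)
    _ = (2 * A * C1) * ∑ w ∈ Finset.range W, F |(w : ℝ) - l| := by rw [Finset.mul_sum]
    _ ≤ (2 * A * C1) * (2 * ∑' j : ℕ, F j) :=
        mul_le_mul_of_nonneg_left (tf_sum F hF0 hs l W) (by positivity)
    _ = (2 * C1 * (2 * ∑' j : ℕ, F j)) * A := by ring
    _ ≤ (2 * C1 * (2 * ∑' j : ℕ, F j) + 1) * A := mul_le_mul_of_nonneg_right (by linarith) hA0.le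
    _ = _ := by rw [hA]; ring

end MPcd65c1
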