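import Mathlib
import Pool.Agent.Lib.MP_cd65c1_an.TDefs
import Pool.Agent.Lib.MP_cd65c1_an.TF1
import Pool.Agent.Lib.MP_cd65c1_an.ACount
import Pool.Agent.Lib.MP_cd65c1_an.KCell
import Pool.Agent.Lib.MP_cd65c1_an.KQl
import Pool.Agent.Lib.MP_cd65c1_an.KEl
import Pool.Agent.Lib.MP_cd65c1_an.ABasic

/-! TF: Lemma I. Uses (K1), (K2) and `|(El 0 0 l x).re| ≤ Ql l x`, `El 0 0 l x = ∑_{Lam} e_k` of the
kernel part. -/

namespace MPcd65c1

open MeasureTheory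

/-- two-sided bound of the number of frequencies: `#Lam = 2^l K_l`. -/
theorem NL_bounds (d : ℕ) (hd : 1 ≤ d) : ∃ c : ℝ, 0 < c ∧ ∀ l : ℕ,
    c * Mm d l ≤ NL d l ∧ NL d l ≤ Mm d l := by
  have hf : (0 : ℝ) < ((d - 1).factorial : ℝ) := by exact_mod_cast (d - 1).factorial_pos
  refine ⟨1 / ((d - 1).factorial : ℝ), by positivity, fun l => ?_⟩
  have h0 : NL d l = (2 : ℝ) ^ l * ((Finset.Nat.antidiagonalTuple d l).card : ℝ) := by
    unfold NL
    rw [card_Lam]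
    push_cast
    ring
  have h1 : (((l : ℝ) + 1) ^ (d - 1)) ≤ ((d - 1).factorial : ℝ) *
      ((Finset.Nat.antidiagonalTuple d l).card : ℝ) := by
    exact_mod_cast card_adt_ge d l hd
  have h2 : ((Finset.Nat.antidiagonalTuple d l).card : ℝ) ≤ ((l : ℝ) + 1) ^ (d - 1) := by
    exact_mod_cast card_adt_le d l hd
  constructor
  · rw [h0, one_div, inv_mul_le_iff₀ hf]
    unfold Mm
    calc (2 : ℝ) ^ l * ((l : ℝ) + 1) ^ (d - 1)
        ≤ (2 : ℝ) ^ l * (((d - 1).factorial : ℝ) *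
          ((Finset.Nat.antidiagonalTuple d l).card : ℝ)) := by gcongr
      _ = _ := by ring
  · rw [h0]
    unfold Mm
    gcongr

private lemma wtd_zero {d : ℕ} (k : Fin d → ℤ) : wtd 0 0 k = 1 := by
  unfold wtd
  apply Finset.prod_eq_one
  intro j _
  unfold wt
  split_ifs with h
  · rfl
  · simp

private lemma abs_Dl_le {d l : ℕ} (x : Td d) : |Dl d l x| ≤ Ql l x := by
  have h1 : Dl d l x = (El 0 0 l x).re := by
    rw [El_eq, tp_apply]
    unfold Dl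
    rw [Complex.re_sum]
    refine Finset.sum_congr rfl fun k _ => ?_
    rw [wtd_zero, one_mul]
  rw [h1]
  exact (Complex.abs_re_le_norm _).trans (norm_El_le le_rfl 0 l x)

private lemma exp_beats (n : ℕ) : ∃ B : ℝ, 1 ≤ B ∧ ∀ j : ℕ, (1 + (j : ℝ)) ^ n ≤ B * (2 : ℝ) ^ j := by
  have hs : Summable (fun j : ℕ => (1 + (j : ℝ)) ^ n * (1 / 2 : ℝ) ^ j) := by
    have h := summable_pow_mul_geometric_of_norm_lt_one n (r := (1 / 2 : ℝ))
      (by rw [Real.norm_eq_abs, abs_of_pos] <;> norm_num)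
    have h2 := ((summable_nat_add_iff 1).2 h).mul_left 2
    refine h2.congr (fun i => ?_)
    push_cast
    rw [pow_succ, add_comm (1 : ℝ)]
    ring
  refine ⟨∑' j : ℕ, (1 + (j : ℝ)) ^ n * (1 / 2 : ℝ) ^ j, ?_, fun j => ?_⟩
  · have := hs.le_tsum 0 (fun j _ => by positivity)
    simpa using this
  · have := hs.le_tsum j (fun j _ => by positivity)
    have h2 : (1 / 2 : ℝ) ^ j * (2 : ℝ) ^ j = 1 := by
      rw [← mul_pow]; norm_num
    calc (1 + (j : ℝ)) ^ n = ((1 + (j : ℝ)) ^ n * (1 / 2 : ℝ) ^ j) * (2 : ℝ) ^ j := by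
          rw [mul_assoc, h2, mul_one]
      _ ≤ _ := by gcongr

/-- the exponent -/
private lemma exponent_le (d : ℕ) (hd : 2 ≤ d) : ∃ C : ℝ, 0 < C ∧ ∀ (l : ℕ) (x : Td d),
    (∀ j, x j ≠ 0) → (l : ℝ) / NL d l * |Dl d l x| ≤ C * (1 + max ((wx x : ℝ) - l) 0) := by
  obtain ⟨c, hc, hNL⟩ := NL_bounds d (by omega)
  obtain ⟨CQ, hCQ, hQ⟩ := Ql_le d (by omega)
  obtain ⟨B, hB, hBj⟩ := exp_beats (d - 1)
  refine ⟨(CQ + 1) * B / c, by positivity, fun l x hx => ?_⟩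
  have hMm : 0 < Mm d l := by unfold Mm; positivity
  have hN : 0 < NL d l := lt_of_lt_of_le (by positivity) (hNL l).1
  have hl0 : (0 : ℝ) ≤ l := Nat.cast_nonneg l
  -- it suffices to bound `Ql`
  suffices H : (l : ℝ) * Ql l x ≤ (CQ + 1) * B * Mm d l * (1 + max ((wx x : ℝ) - l) 0) by
    have h1 : (l : ℝ) / NL d l * |Dl d l x| ≤ (l : ℝ) / NL d l * Ql l x := by
      gcongr
      exact abs_Dl_le x
    refine h1.trans ?_
    rw [div_mul_eq_mul_div, div_le_iff₀ hN]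
    refine H.trans ?_
    have h2 : 0 ≤ 1 + max ((wx x : ℝ) - l) 0 := by positivity
    calc (CQ + 1) * B * Mm d l * (1 + max ((wx x : ℝ) - l) 0)
        = (CQ + 1) * B / c * (1 + max ((wx x : ℝ) - l) 0) * (c * Mm d l) := by field_simp
      _ ≤ _ := by
          gcongr
          exact (hNL l).1
  have hP1 : (1 : ℝ) ≤ (l : ℝ) + 1 := by linarith
  obtain ⟨n, rfl⟩ : ∃ n, d = n + 2 := ⟨d - 2, by omega⟩
  have hd1 : n + 2 - 1 = n + 1 := by omega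
  rw [hd1] at hBj
  have hlP : (l : ℝ) ≤ ((l : ℝ) + 1) ^ (n + 1) := by
    calc (l : ℝ) ≤ (l : ℝ) + 1 := by linarith
      _ = ((l : ℝ) + 1) ^ 1 := by ring
      _ ≤ _ := pow_le_pow_right₀ hP1 (by omega)
  rcases le_or_gt (wx x) l with hw | hw
  · -- `w ≤ l`
    obtain ⟨j, rfl⟩ : ∃ j, l = wx x + j := ⟨l - wx x, by omega⟩
    have hmax : max ((wx x : ℝ) - ((wx x + j : ℕ) : ℝ)) 0 = 0 := by
      apply max_eq_right; push_cast; linarith [(Nat.cast_nonneg j : (0:ℝ) ≤ j)]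
    rw [hmax, add_zero, mul_one]
    have h3 := hQ (wx x + j) x hx
    have hmin : min (wx x + j) (wx x) = wx x := min_eq_right (by omega)
    have hdist : dist1 (wx x) (wx x + j) = j := by
      unfold dist1
      push_cast
      rw [show (wx x : ℝ) - (wx x + j) = -(j : ℝ) by ring, abs_neg,
        abs_of_nonneg (Nat.cast_nonneg j)]
    rw [hmin, hdist, hd1] at h3
    calc ((wx x + j : ℕ) : ℝ) * Ql (wx x + j) x
        ≤ (((wx x + j : ℕ) : ℝ) + 1) ^ (n + 1) * (CQ * (2 : ℝ) ^ wx x * (1 + (j : ℝ)) ^ (n + 1)) := by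
          gcongr
          exact Ql_nonneg _ _
      _ ≤ (((wx x + j : ℕ) : ℝ) + 1) ^ (n + 1) * (CQ * (2 : ℝ) ^ wx x * (B * (2 : ℝ) ^ j)) := by
          gcongr
          exact hBj j
      _ = CQ * B * Mm (n + 2) (wx x + j) := by
          unfold Mm
          rw [hd1, pow_add]
          ring
      _ ≤ (CQ + 1) * B * Mm (n + 2) (wx x + j) := by
          gcongr
          linarith
  · -- `w > l`
    obtain ⟨u, hu⟩ : ∃ u, wx x = l + u := ⟨wx x - l, by omega⟩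
    have hmax : max ((wx x : ℝ) - l) 0 = u := by
      rw [hu]; push_cast
      rw [add_sub_cancel_left]
      exact max_eq_left (Nat.cast_nonneg u)
    have hu0 : (0 : ℝ) ≤ u := Nat.cast_nonneg u
    rw [hmax]
    rcases le_or_gt u l with hul | hul
    · have h3 := hQ l x hx
      have hmin : min l (wx x) = l := min_eq_left (by omega)
      have hdist : dist1 (wx x) l = u := by
        unfold dist1
        rw [hu]; push_cast
        rw [add_sub_cancel_left, abs_of_nonneg hu0]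
      rw [hmin, hdist, hd1] at h3
      have hulR : (1 : ℝ) + u ≤ (l : ℝ) + 1 := by
        have : (u : ℝ) ≤ l := by exact_mod_cast hul
        linarith
      have h4 : (l : ℝ) * (1 + (u : ℝ)) ^ (n + 1) ≤ ((l : ℝ) + 1) ^ (n + 1) * (1 + u) := by
        calc (l : ℝ) * (1 + (u : ℝ)) ^ (n + 1) ≤ ((l : ℝ) + 1) * (1 + (u : ℝ)) ^ (n + 1) := by
              gcongr; linarith
          _ = ((l : ℝ) + 1) * ((1 + (u : ℝ)) ^ n * (1 + u)) := by rw [pow_succ]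
          _ ≤ ((l : ℝ) + 1) * (((l : ℝ) + 1) ^ n * (1 + u)) := by gcongr
          _ = _ := by ring
      calc (l : ℝ) * Ql l x ≤ (l : ℝ) * (CQ * (2 : ℝ) ^ l * (1 + (u : ℝ)) ^ (n + 1)) := by gcongr
        _ = CQ * (2 : ℝ) ^ l * ((l : ℝ) * (1 + (u : ℝ)) ^ (n + 1)) := by ring
        _ ≤ CQ * (2 : ℝ) ^ l * (((l : ℝ) + 1) ^ (n + 1) * (1 + u)) := by gcongr
        _ = CQ * 1 * Mm (n + 2) l * (1 + u) := by
            unfold Mm; rw [hd1]; ring
        _ ≤ (CQ + 1) * B * Mm (n + 2) l * (1 + u) := by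
            gcongr
            linarith
    · have h3 := Ql_le_triv (d := n + 2) (by omega) l x
      have hulR : (l : ℝ) ≤ 1 + u := by
        have : (l : ℝ) ≤ u := by exact_mod_cast hul.le
        linarith
      calc (l : ℝ) * Ql l x ≤ (1 + (u : ℝ)) * Mm (n + 2) l :=
            mul_le_mul hulR h3 (Ql_nonneg _ _) (by positivity)
        _ = 1 * 1 * Mm (n + 2) l * (1 + u) := by ring
        _ ≤ (CQ + 1) * B * Mm (n + 2) l * (1 + u) := by
            gcongr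
            linarith

private lemma cont_Dl {d l : ℕ} : Continuous (Dl d l) := by
  unfold Dl
  refine continuous_finsetSum _ fun k _ => ?_
  exact Complex.continuous_re.comp (UnitAddTorus.mFourier k).continuous

/-- LEMMA I. Pointwise `|Dl l| ≤ Ql l ≤ C 2^{min(l,w)} (1+|w-l|)^{d-1}` and
`ε l/NL |Dl| ≤ C ε (1 + (w-l)^+)`: for `w ≥ l` use the minimum in (K2):
`l/NL Ql ≤ C l min((1+w-l)^{d-1},(l+1)^{d-1})/(l+1)^{d-1} ≤ C (1+(w-l))`; for `w < l`: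
`2^{-(l-w)}(1+l-w)^{d-1} ≤ C`, `l/(l+1)^{d-1} ≤ 1`. Then (K1) and `sum_I`. -/
theorem lemma_I (d : ℕ) (hd : 2 ≤ d) : ∃ ε0 : ℝ, 0 < ε0 ∧ ∃ C : ℝ, 0 < C ∧
    ∀ (l l' : ℕ) (ε : ℝ), 1 ≤ l → 0 ≤ ε → ε ≤ ε0 →
    ∫ x, |Dl d l' x| * |Dl d l x| ^ 3 * Real.exp (ε * l / NL d l * |Dl d l x|) ∂(mu d)
      ≤ C * (2 : ℝ) ^ (3 * l) * ((l : ℝ) + 1) ^ (d - 1) * (2 : ℝ) ^ (((l' : ℝ) - l) / 2) := by
  obtain ⟨c0, hc0, CS, hCS, hS⟩ := sum_I d (by omega)
  obtain ⟨CE, hCE, hE⟩ := exponent_le d hd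
  obtain ⟨CQ, hCQ, hQ⟩ := Ql_le d (by omega)
  refine ⟨c0 / CE, by positivity, 2 ^ d * CQ ^ 4 * CS, by positivity, ?_⟩
  intro l l' ε hl hε0 hε
  set c : ℝ := ε * CE with hc
  have hc1 : 0 ≤ c := by positivity
  have hc2 : c ≤ c0 := by rwa [hc, ← le_div_iff₀ hCE]
  set Ψ : ℕ → ℝ := fun w => (CQ * ((2 : ℝ) ^ (min l' w) * (1 + |(w : ℝ) - l'|) ^ (d - 1))) *
      (CQ * ((2 : ℝ) ^ (min l w) * (1 + |(w : ℝ) - l|) ^ (d - 1))) ^ 3 *
      Real.exp (c * (1 + max ((w : ℝ) - l) 0)) with hΨ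
  have hΨ0 : ∀ w, 0 ≤ Ψ w := fun w => by positivity
  have hterm : ∀ w : ℕ, ((w : ℝ) + 1) ^ (d - 1) * ((2 : ℝ) ^ w)⁻¹ * Ψ w
      = CQ ^ 4 * (((w : ℝ) + 1) ^ (d - 1) * ((2 : ℝ) ^ w)⁻¹ *
      ((2 : ℝ) ^ (min l' w) * (1 + |(w : ℝ) - l'|) ^ (d - 1)) *
      ((2 : ℝ) ^ (min l w) * (1 + |(w : ℝ) - l|) ^ (d - 1)) ^ 3 *
      Real.exp (c * (1 + max ((w : ℝ) - l) 0))) := by
    intro w
    simp only [hΨ]
    ring
  have hpart : ∀ W : ℕ, ∑ w ∈ Finset.range W, ((w : ℝ) + 1) ^ (d - 1) * ((2 : ℝ) ^ w)⁻¹ * Ψ w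
      ≤ CQ ^ 4 * (CS * (2 : ℝ) ^ (3 * l) * ((l : ℝ) + 1) ^ (d - 1) *
        (2 : ℝ) ^ (((l' : ℝ) - l) / 2)) := by
    intro W
    rw [Finset.sum_congr rfl fun w _ => hterm w, ← Finset.mul_sum]
    gcongr
    exact hS l l' c hc1 hc2 W
  have hsum : Summable (fun w : ℕ => ((w : ℝ) + 1) ^ (d - 1) * ((2 : ℝ) ^ w)⁻¹ * Ψ w) :=
    summable_of_sum_range_le (fun w => mul_nonneg (by positivity) (hΨ0 w)) hpart
  have hcell := integral_cell (d := d) (by omega)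
    (fun x => |Dl d l' x| * |Dl d l x| ^ 3 * Real.exp (ε * l / NL d l * |Dl d l x|))
    (by
      refine ((cont_Dl.abs).mul ((cont_Dl.abs).pow 3)).mul (Real.continuous_exp.comp ?_)
      exact continuous_const.mul cont_Dl.abs)
    (fun x => by positivity) Ψ hΨ0 (by
      intro x hx
      simp only [hΨ]
      have h1 : |Dl d l' x| ≤ CQ * ((2 : ℝ) ^ (min l' (wx x)) * (1 + |(wx x : ℝ) - l'|) ^ (d - 1)) := by
        refine (abs_Dl_le x).trans ((hQ l' x hx).trans (le_of_eq ?_))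
        unfold dist1
        ring
      have h2 : |Dl d l x| ≤ CQ * ((2 : ℝ) ^ (min l (wx x)) * (1 + |(wx x : ℝ) - l|) ^ (d - 1)) := by
        refine (abs_Dl_le x).trans ((hQ l x hx).trans (le_of_eq ?_))
        unfold dist1
        ring
      have h3 : ε * l / NL d l * |Dl d l x| ≤ c * (1 + max ((wx x : ℝ) - l) 0) := by
        have := hE l x hx
        calc ε * l / NL d l * |Dl d l x| = ε * (l / NL d l * |Dl d l x|) := by ring
          _ ≤ ε * (CE * (1 + max ((wx x : ℝ) - l) 0)) := by gcongr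
          _ = _ := by rw [hc]; ring
      have h4 : Real.exp (ε * l / NL d l * |Dl d l x|) ≤
          Real.exp (c * (1 + max ((wx x : ℝ) - l) 0)) := Real.exp_le_exp.mpr h3
      gcongr) hsum
  refine hcell.trans ?_
  have htsum : ∑' w : ℕ, ((w : ℝ) + 1) ^ (d - 1) * ((2 : ℝ) ^ w)⁻¹ * Ψ w
      ≤ CQ ^ 4 * (CS * (2 : ℝ) ^ (3 * l) * ((l : ℝ) + 1) ^ (d - 1) *
        (2 : ℝ) ^ (((l' : ℝ) - l) / 2)) :=
    Real.tsum_le_of_sum_range_le (fun w => mul_nonneg (by positivity) (hΨ0 w)) hpart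
  calc (2 : ℝ) ^ d * ∑' w : ℕ, ((w : ℝ) + 1) ^ (d - 1) * ((2 : ℝ) ^ w)⁻¹ * Ψ w
      ≤ 2 ^ d * (CQ ^ 4 * (CS * (2 : ℝ) ^ (3 * l) * ((l : ℝ) + 1) ^ (d - 1) *
        (2 : ℝ) ^ (((l' : ℝ) - l) / 2))) := by gcongr
    _ = _ := by ring

end MPcd65c1
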