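import Mathlib
import Pool.Agent.Lib.MP_cd65c1_an.TDefs

/-! TA: exponential moments of the standard Gaussian product measure. -/

namespace MPcd65c1

open MeasureTheory

/-- `gp ι` is a probability measure (`Measure.pi` of probability measures). -/
theorem gp_prob (ι : Type*) [Fintype ι] : IsProbabilityMeasure (gp ι) := by
  unfold gp
  infer_instance

/-- One variable: `∫ exp(a x) = exp(a^2/2)` (Mathlib: `ProbabilityTheory.mgf_gaussianReal` or
`integral_exp...`), product: `MeasureTheory.integral_fintype_prod_eq_prod` and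
`Integrable.fintype_prod`, `exp (∑) = ∏ exp`. -/
theorem gp_exp {ι : Type*} [Fintype ι] (a : ι → ℝ) :
    Integrable (fun γ : ι → ℝ => Real.exp (∑ i, a i * γ i)) (gp ι) ∧
      ∫ γ, Real.exp (∑ i, a i * γ i) ∂(gp ι) = Real.exp ((∑ i, a i ^ 2) / 2) := by
  have h1 : (fun γ : ι → ℝ => Real.exp (∑ i, a i * γ i)) =
      fun γ => ∏ i, (fun x => Real.exp (a i * x)) (γ i) := by
    funext γ
    rw [Real.exp_sum]
  have h2 : ∀ t : ℝ, ∫ x, Real.exp (t * x) ∂(ProbabilityTheory.gaussianReal 0 1) =
      Real.exp (t ^ 2 / 2) := by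
    intro t
    have h := congrFun (ProbabilityTheory.mgf_fun_id_gaussianReal (μ := 0) (v := 1)) t
    unfold ProbabilityTheory.mgf at h
    rw [h]
    simp
  unfold gp
  rw [h1]
  refine ⟨Integrable.fintype_prod
    (fun i => ProbabilityTheory.integrable_exp_mul_gaussianReal (a i)), ?_⟩
  rw [integral_fintype_prod_eq_prod (fun i : ι => fun x : ℝ => Real.exp (a i * x))]
  simp only [h2]
  rw [← Real.exp_sum, Finset.sum_div]

private theorem TA_sq1 : Integrable (fun x : ℝ => x ^ 2) (ProbabilityTheory.gaussianReal 0 1) ∧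
    ∫ x, x ^ 2 ∂(ProbabilityTheory.gaussianReal 0 1) = 1 := by
  constructor
  · have h := (ProbabilityTheory.memLp_id_gaussianReal (μ := 0) (v := 1) 2).integrable_sq
    simpa using h
  · have h := ProbabilityTheory.variance_of_integral_eq_zero
      (μ := ProbabilityTheory.gaussianReal 0 1) (X := fun x : ℝ => x) (by fun_prop)
      (ProbabilityTheory.integral_id_gaussianReal)
    rw [← h, ProbabilityTheory.variance_fun_id_gaussianReal]
    simp

/-- `∫ (∑ γ_i^2) = card ι`, integrable (`∫ x^2 = 1` for `gaussianReal 0 1`: variance). -/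
theorem gp_sq {ι : Type*} [Fintype ι] :
    Integrable (fun γ : ι → ℝ => ∑ i, γ i ^ 2) (gp ι) ∧
      ∫ γ, (∑ i, γ i ^ 2) ∂(gp ι) = Fintype.card ι := by
  have h1 : ∀ i : ι, Integrable (fun γ : ι → ℝ => γ i ^ 2) (gp ι) := by
    intro i
    unfold gp
    exact integrable_comp_eval (μ := fun _ : ι => ProbabilityTheory.gaussianReal 0 1) (i := i)
      (f := fun x : ℝ => x ^ 2) TA_sq1.1
  refine ⟨integrable_finsetSum _ fun i _ => h1 i, ?_⟩
  rw [integral_finsetSum _ fun i _ => h1 i]
  have h2 : ∀ i : ι, ∫ γ : ι → ℝ, γ i ^ 2 ∂(gp ι) = 1 := by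
    intro i
    unfold gp
    rw [integral_comp_eval (μ := fun _ : ι => ProbabilityTheory.gaussianReal 0 1) (i := i)
      (f := fun x : ℝ => x ^ 2) TA_sq1.1.aestronglyMeasurable]
    exact TA_sq1.2
  simp [h2]

private theorem TA_neg1 :
    Integrable (fun x : ℝ => Real.exp (-x ^ 2)) (ProbabilityTheory.gaussianReal 0 1) ∧
    ∫ x, Real.exp (-x ^ 2) ∂(ProbabilityTheory.gaussianReal 0 1) = 1 / Real.sqrt 3 := by
  constructor
  · apply Integrable.mono' (integrable_const (1 : ℝ))
    · exact Continuous.aestronglyMeasurable (by fun_prop)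
    · refine Filter.Eventually.of_forall fun x => ?_
      rw [Real.norm_eq_abs, abs_of_pos (Real.exp_pos _)]
      exact Real.exp_le_one_iff.2 (by nlinarith [sq_nonneg x])
  · rw [ProbabilityTheory.integral_gaussianReal_eq_integral_smul one_ne_zero]
    have h1 : (fun x : ℝ => ProbabilityTheory.gaussianPDFReal 0 1 x • Real.exp (-x ^ 2)) =
        fun x => (Real.sqrt (2 * Real.pi))⁻¹ * Real.exp (-(3 / 2) * x ^ 2) := by
      funext x
      rw [ProbabilityTheory.gaussianPDFReal_def]
      simp only [smul_eq_mul, NNReal.coe_one, mul_one, sub_zero]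
      rw [mul_assoc, ← Real.exp_add]
      congr 2
      ring
    rw [h1, integral_const_mul, integral_gaussian]
    have h2 : Real.pi / (3 / 2) = (2 * Real.pi) / 3 := by ring
    rw [h2, Real.sqrt_div (by positivity)]
    have h3 : Real.sqrt (2 * Real.pi) ≠ 0 := by positivity
    field_simp

/-- `∫ exp(-∑ γ_i^2) = (1/√3)^card` (density of the Gaussian, `integral_gaussian`). -/
theorem gp_negsq {ι : Type*} [Fintype ι] :
    Integrable (fun γ : ι → ℝ => Real.exp (-∑ i, γ i ^ 2)) (gp ι) ∧
      ∫ γ, Real.exp (-∑ i, γ i ^ 2) ∂(gp ι) = (1 / Real.sqrt 3) ^ (Fintype.card ι) := by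
  have h1 : (fun γ : ι → ℝ => Real.exp (-∑ i, γ i ^ 2)) =
      fun γ => ∏ i, (fun x => Real.exp (-x ^ 2)) (γ i) := by
    funext γ
    rw [← Finset.sum_neg_distrib, Real.exp_sum]
  unfold gp
  rw [h1]
  refine ⟨Integrable.fintype_prod (f := fun _ : ι => fun x : ℝ => Real.exp (-x ^ 2))
    (fun i => TA_neg1.1), ?_⟩
  rw [integral_fintype_prod_eq_prod (fun _ : ι => fun x : ℝ => Real.exp (-x ^ 2))]
  rw [TA_neg1.2]
  simp

/-- Domination: for every `c` the function `exp(c ∑ |γ_i|)` is integrable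
(`exp(c|x|) ≤ exp(cx) + exp(-cx)`, product of integrable functions of one variable). -/
theorem gp_exp_abs {ι : Type*} [Fintype ι] (c : ℝ) :
    Integrable (fun γ : ι → ℝ => Real.exp (c * ∑ i, |γ i|)) (gp ι) := by
  have h1 : (fun γ : ι → ℝ => Real.exp (c * ∑ i, |γ i|)) =
      fun γ => ∏ i, (fun x : ℝ => Real.exp (c * |x|)) (γ i) := by
    funext γ
    rw [Finset.mul_sum, Real.exp_sum]
  unfold gp
  rw [h1]
  refine Integrable.fintype_prod (f := fun _ : ι => fun x : ℝ => Real.exp (c * |x|)) fun i => ?_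
  have h2 := (ProbabilityTheory.integrable_exp_mul_gaussianReal (μ := 0) (v := 1) c).add
    (ProbabilityTheory.integrable_exp_mul_gaussianReal (μ := 0) (v := 1) (-c))
  refine h2.mono' (Continuous.aestronglyMeasurable (by fun_prop)) ?_
  refine Filter.Eventually.of_forall fun x => ?_
  rw [Real.norm_eq_abs, abs_of_pos (Real.exp_pos _)]
  show Real.exp (c * |x|) ≤ Real.exp (c * x) + Real.exp (-c * x)
  rcases abs_cases x with ⟨h, -⟩ | ⟨h, -⟩
  · rw [h]
    linarith [Real.exp_pos (-c * x)]
  · rw [h]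
    have : c * -x = -c * x := by ring
    rw [this]
    linarith [Real.exp_pos (c * x)]

end MPcd65c1
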