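import Mathlib
import Pool.Agent.Lib.MP_cd65c1_an.TDefs
import Pool.Agent.Lib.MP_cd65c1_an.TA

/-! TB: hyperbolic moments of two Gaussian linear forms. -/

namespace MPcd65c1

open MeasureTheory

/-- `cosh x = (e^x + e^{-x})/2` and `gp_exp` for `a`, `-a`. -/
theorem gp_cosh {ι : Type*} [Fintype ι] (a : ι → ℝ) :
    Integrable (fun γ : ι → ℝ => Real.cosh (∑ i, a i * γ i)) (gp ι) ∧
      ∫ γ, Real.cosh (∑ i, a i * γ i) ∂(gp ι) = Real.exp ((∑ i, a i ^ 2) / 2) := by
  have h1 := gp_exp a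
  have h2 := gp_exp (fun i => -a i)
  have e1 : (fun γ : ι → ℝ => Real.exp (∑ i, -a i * γ i)) =
      fun γ => Real.exp (-∑ i, a i * γ i) := by
    funext γ
    simp only [neg_mul, Finset.sum_neg_distrib]
  rw [e1] at h2
  have e2 : ∑ i, (-a i) ^ 2 = ∑ i, a i ^ 2 := by simp
  rw [e2] at h2
  have e3 : (fun γ : ι → ℝ => Real.cosh (∑ i, a i * γ i)) =
      fun γ => (Real.exp (∑ i, a i * γ i) + Real.exp (-∑ i, a i * γ i)) / 2 := by
    funext γ
    exact Real.cosh_eq _
  rw [e3]
  refine ⟨(h1.1.add h2.1).div_const 2, ?_⟩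
  rw [integral_div, integral_add h1.1 h2.1, h1.2, h2.2]
  ring

/-- `sinh x sinh y = (cosh (x+y) - cosh (x-y))/2` and `gp_cosh` for `a+b`, `a-b`;
`∑ (a±b)^2 = ∑ a^2 + ∑ b^2 ± 2 ∑ ab`. -/
theorem gp_sinh_sinh {ι : Type*} [Fintype ι] (a b : ι → ℝ) :
    Integrable (fun γ : ι → ℝ => Real.sinh (∑ i, a i * γ i) * Real.sinh (∑ i, b i * γ i)) (gp ι) ∧
      ∫ γ, Real.sinh (∑ i, a i * γ i) * Real.sinh (∑ i, b i * γ i) ∂(gp ι)
        = Real.exp ((∑ i, a i ^ 2 + ∑ i, b i ^ 2) / 2) * Real.sinh (∑ i, a i * b i) := by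
  have h1 := gp_cosh (fun i => a i + b i)
  have h2 := gp_cosh (fun i => a i - b i)
  have e3 : (fun γ : ι → ℝ => Real.sinh (∑ i, a i * γ i) * Real.sinh (∑ i, b i * γ i)) =
      fun γ => (Real.cosh (∑ i, (a i + b i) * γ i) - Real.cosh (∑ i, (a i - b i) * γ i)) / 2 := by
    funext γ
    have f1 : ∑ i, (a i + b i) * γ i = ∑ i, a i * γ i + ∑ i, b i * γ i := by
      rw [← Finset.sum_add_distrib]
      refine Finset.sum_congr rfl fun i _ => ?_
      ring
    have f2 : ∑ i, (a i - b i) * γ i = ∑ i, a i * γ i - ∑ i, b i * γ i := by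
      rw [← Finset.sum_sub_distrib]
      refine Finset.sum_congr rfl fun i _ => ?_
      ring
    rw [f1, f2, Real.cosh_add, Real.cosh_sub]
    ring
  rw [e3]
  refine ⟨(h1.1.sub h2.1).div_const 2, ?_⟩
  rw [integral_div, integral_sub h1.1 h2.1, h1.2, h2.2]
  have g1 : ∑ i, (a i + b i) ^ 2 = (∑ i, a i ^ 2 + ∑ i, b i ^ 2) + 2 * ∑ i, a i * b i := by
    rw [Finset.mul_sum, ← Finset.sum_add_distrib, ← Finset.sum_add_distrib]
    refine Finset.sum_congr rfl fun i _ => ?_
    ring
  have g2 : ∑ i, (a i - b i) ^ 2 = (∑ i, a i ^ 2 + ∑ i, b i ^ 2) - 2 * ∑ i, a i * b i := by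
    rw [Finset.mul_sum, ← Finset.sum_add_distrib, ← Finset.sum_sub_distrib]
    refine Finset.sum_congr rfl fun i _ => ?_
    ring
  rw [g1, g2, Real.sinh_eq]
  have g3 : (∑ i, a i ^ 2 + ∑ i, b i ^ 2 + 2 * ∑ i, a i * b i) / 2 =
      (∑ i, a i ^ 2 + ∑ i, b i ^ 2) / 2 + ∑ i, a i * b i := by ring
  have g4 : (∑ i, a i ^ 2 + ∑ i, b i ^ 2 - 2 * ∑ i, a i * b i) / 2 =
      (∑ i, a i ^ 2 + ∑ i, b i ^ 2) / 2 + -∑ i, a i * b i := by ring
  rw [g3, g4, Real.exp_add, Real.exp_add]
  ring

/-- one variable: `E x exp(t x) = t exp(t^2/2)`. -/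
private theorem TB_one (t : ℝ) :
    Integrable (fun x : ℝ => x * Real.exp (t * x)) (ProbabilityTheory.gaussianReal 0 1) ∧
      ∫ x, x * Real.exp (t * x) ∂(ProbabilityTheory.gaussianReal 0 1) =
        t * Real.exp (t ^ 2 / 2) := by
  have hmem : t ∈ interior (ProbabilityTheory.integrableExpSet (fun x : ℝ => x)
      (ProbabilityTheory.gaussianReal 0 1)) := by
    simp
  constructor
  · have h1 := ProbabilityTheory.integrable_pow_mul_exp_of_mem_interior_integrableExpSet
      hmem 1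
    simpa using h1
  · have h1 := ProbabilityTheory.hasDerivAt_mgf hmem
    rw [ProbabilityTheory.mgf_fun_id_gaussianReal] at h1
    have hfun : (fun t : ℝ => Real.exp (0 * t + ((1 : NNReal) : ℝ) * t ^ 2 / 2)) =
        fun t => Real.exp (t ^ 2 / 2) := by
      funext t
      norm_num
    rw [hfun] at h1
    have h2 : HasDerivAt (fun t : ℝ => Real.exp (t ^ 2 / 2)) (t * Real.exp (t ^ 2 / 2)) t := by
      have h3 : HasDerivAt (fun t : ℝ => t ^ 2 / 2) t t := by
        have h4 := (hasDerivAt_pow 2 t).div_const 2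
        refine h4.congr_deriv ?_
        norm_num
      refine h3.exp.congr_deriv ?_
      ring
    exact h1.unique h2

/-- `E γ_j exp(a·γ) = a_j exp(|a|^2/2)`. -/
private theorem TB_coord {ι : Type*} [Fintype ι] (a : ι → ℝ) (j : ι) :
    Integrable (fun γ : ι → ℝ => γ j * Real.exp (∑ i, a i * γ i)) (gp ι) ∧
      ∫ γ, γ j * Real.exp (∑ i, a i * γ i) ∂(gp ι) = a j * Real.exp ((∑ i, a i ^ 2) / 2) := by
  classical
  set f : ι → ℝ → ℝ := fun i x => (if i = j then x else 1) * Real.exp (a i * x) with hf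
  have h1 : (fun γ : ι → ℝ => γ j * Real.exp (∑ i, a i * γ i)) = fun γ => ∏ i, f i (γ i) := by
    funext γ
    rw [hf]
    simp only
    rw [Finset.prod_mul_distrib, Real.exp_sum, Finset.prod_ite_eq']
    simp
  have h2 : ∀ i, Integrable (f i) (ProbabilityTheory.gaussianReal 0 1) := by
    intro i
    by_cases hij : i = j
    · have := (TB_one (a i)).1
      simpa [hf, hij] using this
    · have := ProbabilityTheory.integrable_exp_mul_gaussianReal (μ := 0) (v := 1) (a i)
      simpa [hf, hij] using this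
  have h3 : ∀ i, ∫ x, f i x ∂(ProbabilityTheory.gaussianReal 0 1) =
      (if i = j then a i else 1) * Real.exp (a i ^ 2 / 2) := by
    intro i
    by_cases hij : i = j
    · have := (TB_one (a i)).2
      simpa [hf, hij] using this
    · have h := congrFun (ProbabilityTheory.mgf_fun_id_gaussianReal (μ := 0) (v := 1)) (a i)
      unfold ProbabilityTheory.mgf at h
      simpa [hf, hij] using h
  unfold gp
  rw [h1]
  refine ⟨Integrable.fintype_prod h2, ?_⟩
  rw [integral_fintype_prod_eq_prod f]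
  simp only [h3]
  rw [Finset.prod_mul_distrib, ← Real.exp_sum, Finset.sum_div, Finset.prod_ite_eq']
  simp

/-- `E sinh(a·γ) (b·γ) = (a·b) exp(|a|^2/2)`. Proof: divide `gp_sinh_sinh a (t b)` by `t` and let
`t → 0` (`|sinh(t y)/t| ≤ exp(|y|)` for `0 < t ≤ 1` since `|sinh z| ≤ |z| cosh z`...;
dominated convergence with `gp_exp_abs`), or coordinatewise by `E γ_j exp(a·γ) = a_j exp(|a|^2/2)`. -/
theorem gp_sinh_lin {ι : Type*} [Fintype ι] (a b : ι → ℝ) :
    Integrable (fun γ : ι → ℝ => Real.sinh (∑ i, a i * γ i) * (∑ i, b i * γ i)) (gp ι) ∧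
      ∫ γ, Real.sinh (∑ i, a i * γ i) * (∑ i, b i * γ i) ∂(gp ι)
        = (∑ i, a i * b i) * Real.exp ((∑ i, a i ^ 2) / 2) := by
  have key : ∀ j : ι, Integrable (fun γ : ι → ℝ => b j * (Real.sinh (∑ i, a i * γ i) * γ j))
      (gp ι) ∧ ∫ γ, b j * (Real.sinh (∑ i, a i * γ i) * γ j) ∂(gp ι) =
        a j * b j * Real.exp ((∑ i, a i ^ 2) / 2) := by
    intro j
    have h1 := TB_coord a j
    have h2 := TB_coord (fun i => -a i) j
    have e2 : ∑ i, (-a i) ^ 2 = ∑ i, a i ^ 2 := by simp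
    rw [e2] at h2
    have e3 : (fun γ : ι → ℝ => b j * (Real.sinh (∑ i, a i * γ i) * γ j)) =
        fun γ => b j / 2 * (γ j * Real.exp (∑ i, a i * γ i) -
          γ j * Real.exp (∑ i, -a i * γ i)) := by
      funext γ
      rw [Real.sinh_eq]
      simp only [neg_mul, Finset.sum_neg_distrib]
      ring
    rw [e3]
    refine ⟨(h1.1.sub h2.1).const_mul _, ?_⟩
    rw [integral_const_mul, integral_sub h1.1 h2.1, h1.2, h2.2]
    ring
  have e4 : (fun γ : ι → ℝ => Real.sinh (∑ i, a i * γ i) * (∑ i, b i * γ i)) =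
      fun γ => ∑ j, b j * (Real.sinh (∑ i, a i * γ i) * γ j) := by
    funext γ
    rw [Finset.mul_sum]
    refine Finset.sum_congr rfl fun i _ => ?_
    ring
  rw [e4]
  refine ⟨integrable_finsetSum _ fun j _ => (key j).1, ?_⟩
  rw [integral_finsetSum _ fun j _ => (key j).1]
  simp only [fun j => (key j).2]
  rw [← Finset.sum_mul]

/-- `E γ_i γ_j = δ_ij` -/
private theorem TB_two {ι : Type*} [Fintype ι] [DecidableEq ι] (i j : ι) :
    Integrable (fun γ : ι → ℝ => γ i * γ j) (gp ι) ∧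
      ∫ γ, γ i * γ j ∂(gp ι) = if i = j then 1 else 0 := by
  set f : ι → ℝ → ℝ := fun k x => (if k = i then x else 1) * (if k = j then x else 1) with hf
  have h1 : (fun γ : ι → ℝ => γ i * γ j) = fun γ => ∏ k, f k (γ k) := by
    funext γ
    rw [hf]
    simp only
    rw [Finset.prod_mul_distrib, Finset.prod_ite_eq', Finset.prod_ite_eq']
    simp
  have hid : Integrable (fun x : ℝ => x) (ProbabilityTheory.gaussianReal 0 1) := by
    have := (TB_one 0).1
    simpa using this
  have hsq : Integrable (fun x : ℝ => x * x) (ProbabilityTheory.gaussianReal 0 1) := by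
    have h := (ProbabilityTheory.memLp_id_gaussianReal (μ := 0) (v := 1) 2).integrable_sq
    simpa [pow_two] using h
  have hsq1 : ∫ x : ℝ, x * x ∂(ProbabilityTheory.gaussianReal 0 1) = 1 := by
    have h := ProbabilityTheory.variance_of_integral_eq_zero
      (μ := ProbabilityTheory.gaussianReal 0 1) (X := fun x : ℝ => x) (by fun_prop)
      (ProbabilityTheory.integral_id_gaussianReal)
    rw [ProbabilityTheory.variance_fun_id_gaussianReal] at h
    simp only [pow_two] at h
    rw [← h]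
    simp
  have h2 : ∀ k, Integrable (f k) (ProbabilityTheory.gaussianReal 0 1) := by
    intro k
    by_cases hki : k = i
    · by_cases hkj : k = j
      · have : f k = fun x => x * x := by
          funext x
          simp only [hf, if_pos hki, if_pos hkj]
        rw [this]
        exact hsq
      · have : f k = fun x => x := by
          funext x
          simp only [hf, if_pos hki, if_neg hkj, mul_one]
        rw [this]
        exact hid
    · by_cases hkj : k = j
      · have : f k = fun x => x := by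
          funext x
          simp only [hf, if_neg hki, if_pos hkj, one_mul]
        rw [this]
        exact hid
      · have : f k = fun x => 1 := by
          funext x
          simp only [hf, if_neg hki, if_neg hkj, one_mul]
        rw [this]
        exact integrable_const _
  unfold gp
  rw [h1]
  refine ⟨Integrable.fintype_prod h2, ?_⟩
  rw [integral_fintype_prod_eq_prod f]
  by_cases hij : i = j
  · rw [if_pos hij]
    apply Finset.prod_eq_one
    intro k _
    by_cases hki : k = i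
    · have : f k = fun x => x * x := by
        funext x
        simp only [hf, if_pos hki, if_pos (hki.trans hij)]
      rw [this, hsq1]
    · have : f k = fun x => 1 := by
        funext x
        simp only [hf, if_neg hki, if_neg (show k ≠ j from fun h => hki (h.trans hij.symm)),
          one_mul]
      rw [this]
      simp
  · rw [if_neg hij]
    apply Finset.prod_eq_zero (Finset.mem_univ i)
    have : f i = fun x => x := by
      funext x
      simp only [hf, if_neg hij, mul_one]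
      simp
    rw [this]
    exact ProbabilityTheory.integral_id_gaussianReal

/-- `E (a·γ)(b·γ) = a·b` (independence, `E γ_i γ_j = δ_ij`; or `t → 0` in `gp_sinh_lin (t a) b`). -/
theorem gp_lin_lin {ι : Type*} [Fintype ι] (a b : ι → ℝ) :
    Integrable (fun γ : ι → ℝ => (∑ i, a i * γ i) * (∑ i, b i * γ i)) (gp ι) ∧
      ∫ γ, (∑ i, a i * γ i) * (∑ i, b i * γ i) ∂(gp ι) = ∑ i, a i * b i := by
  classical
  have e1 : (fun γ : ι → ℝ => (∑ i, a i * γ i) * (∑ i, b i * γ i)) =
      fun γ => ∑ i, ∑ j, a i * b j * (γ i * γ j) := by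
    funext γ
    rw [Finset.sum_mul_sum]
    refine Finset.sum_congr rfl fun i _ => Finset.sum_congr rfl fun j _ => ?_
    ring
  rw [e1]
  have h1 : ∀ i j, Integrable (fun γ : ι → ℝ => a i * b j * (γ i * γ j)) (gp ι) :=
    fun i j => (TB_two i j).1.const_mul _
  refine ⟨integrable_finsetSum _ fun i _ => integrable_finsetSum _ fun j _ => h1 i j, ?_⟩
  rw [integral_finsetSum _ fun i _ => integrable_finsetSum _ fun j _ => h1 i j]
  refine Finset.sum_congr rfl fun i _ => ?_
  rw [integral_finsetSum _ fun j _ => h1 i j]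
  rw [Finset.sum_eq_single i]
  · rw [integral_const_mul, (TB_two i i).2, if_pos rfl, mul_one]
  · intro j _ hj
    rw [integral_const_mul, (TB_two i j).2, if_neg (Ne.symm hj), mul_zero]
  · intro h
    exact absurd (Finset.mem_univ _) h

/-- The covariance of the error field. With `|f|^2 = |g|^2 = N`, `s = f·g`, `t > 0`:
`E (sinh(t f·γ)/(t e^{t²N/2}) - f·γ)(sinh(t g·γ)/(t e^{t²N/2}) - g·γ) = (sinh(t² s) - t² s)/t²`.
Expand the product: the four terms are `t^{-2} sinh(t² s)`, `-s`, `-s`, `s`. -/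
theorem gp_err {ι : Type*} [Fintype ι] (f g : ι → ℝ) (N t : ℝ) (ht : 0 < t)
    (hf : ∑ i, f i ^ 2 = N) (hg : ∑ i, g i ^ 2 = N) :
    Integrable (fun γ : ι → ℝ =>
      (Real.sinh (t * ∑ i, γ i * f i) / (t * Real.exp (t ^ 2 * N / 2)) - ∑ i, γ i * f i) *
      (Real.sinh (t * ∑ i, γ i * g i) / (t * Real.exp (t ^ 2 * N / 2)) - ∑ i, γ i * g i)) (gp ι) ∧
    ∫ γ, (Real.sinh (t * ∑ i, γ i * f i) / (t * Real.exp (t ^ 2 * N / 2)) - ∑ i, γ i * f i) *
      (Real.sinh (t * ∑ i, γ i * g i) / (t * Real.exp (t ^ 2 * N / 2)) - ∑ i, γ i * g i) ∂(gp ι)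
      = (Real.sinh (t ^ 2 * ∑ i, f i * g i) - t ^ 2 * ∑ i, f i * g i) / t ^ 2 := by
  set D : ℝ := t * Real.exp (t ^ 2 * N / 2) with hD
  have hD0 : D ≠ 0 := by positivity
  have h1 := gp_sinh_sinh (fun i => t * f i) (fun i => t * g i)
  have h2 := gp_sinh_lin (fun i => t * f i) g
  have h3 := gp_sinh_lin (fun i => t * g i) f
  have h4 := gp_lin_lin f g
  have hexp : (fun γ : ι → ℝ => (Real.sinh (t * ∑ i, γ i * f i) / D - ∑ i, γ i * f i) *
      (Real.sinh (t * ∑ i, γ i * g i) / D - ∑ i, γ i * g i)) =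
      fun γ => ((1 / D ^ 2) * (Real.sinh (∑ i, (t * f i) * γ i) * Real.sinh (∑ i, (t * g i) * γ i))
        - (1 / D) * (Real.sinh (∑ i, (t * f i) * γ i) * (∑ i, g i * γ i)))
        - (1 / D) * (Real.sinh (∑ i, (t * g i) * γ i) * (∑ i, f i * γ i))
        + (∑ i, f i * γ i) * (∑ i, g i * γ i) := by
    funext γ
    have e1 : ∀ u : ι → ℝ, ∑ i, (t * u i) * γ i = t * ∑ i, γ i * u i := by
      intro u
      rw [Finset.mul_sum]
      refine Finset.sum_congr rfl fun i _ => ?_
      ring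
    have e2 : ∀ u : ι → ℝ, ∑ i, u i * γ i = ∑ i, γ i * u i := by
      intro u
      refine Finset.sum_congr rfl fun i _ => ?_
      ring
    rw [e1 f, e1 g, e2 f, e2 g]
    field_simp
    ring
  rw [hexp]
  have i1 := h1.1.const_mul (1 / D ^ 2)
  have i2 := h2.1.const_mul (1 / D)
  have i3 := h3.1.const_mul (1 / D)
  refine ⟨((i1.sub i2).sub i3).add h4.1, ?_⟩
  have i12 : Integrable (fun γ : ι → ℝ =>
      (1 / D ^ 2) * (Real.sinh (∑ i, (t * f i) * γ i) * Real.sinh (∑ i, (t * g i) * γ i))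
        - (1 / D) * (Real.sinh (∑ i, (t * f i) * γ i) * (∑ i, g i * γ i))) (gp ι) := i1.sub i2
  have i123 : Integrable (fun γ : ι → ℝ =>
      (1 / D ^ 2) * (Real.sinh (∑ i, (t * f i) * γ i) * Real.sinh (∑ i, (t * g i) * γ i))
        - (1 / D) * (Real.sinh (∑ i, (t * f i) * γ i) * (∑ i, g i * γ i))
        - (1 / D) * (Real.sinh (∑ i, (t * g i) * γ i) * (∑ i, f i * γ i))) (gp ι) := i12.sub i3
  rw [integral_add i123 h4.1, integral_sub i12 i3,
    integral_sub i1 i2, integral_const_mul, integral_const_mul, integral_const_mul,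
    h1.2, h2.2, h3.2, h4.2]
  have s1 : ∑ i, (t * f i) ^ 2 = t ^ 2 * N := by
    rw [← hf, Finset.mul_sum]
    refine Finset.sum_congr rfl fun i _ => ?_
    ring
  have s2 : ∑ i, (t * g i) ^ 2 = t ^ 2 * N := by
    rw [← hg, Finset.mul_sum]
    refine Finset.sum_congr rfl fun i _ => ?_
    ring
  have s3 : ∑ i, (t * f i) * (t * g i) = t ^ 2 * ∑ i, f i * g i := by
    rw [Finset.mul_sum]
    refine Finset.sum_congr rfl fun i _ => ?_
    ring
  have s4 : ∑ i, (t * f i) * g i = t * ∑ i, f i * g i := by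
    rw [Finset.mul_sum]
    refine Finset.sum_congr rfl fun i _ => ?_
    ring
  have s5 : ∑ i, (t * g i) * f i = t * ∑ i, f i * g i := by
    rw [Finset.mul_sum]
    refine Finset.sum_congr rfl fun i _ => ?_
    ring
  rw [s1, s2, s3, s4, s5]
  set S := ∑ i, f i * g i
  have e5 : Real.exp ((t ^ 2 * N + t ^ 2 * N) / 2) = Real.exp (t ^ 2 * N / 2) ^ 2 := by
    rw [← Real.exp_nat_mul]
    congr 1
    push_cast
    ring
  rw [e5, hD]
  have hE : Real.exp (t ^ 2 * N / 2) ≠ 0 := (Real.exp_pos _).ne'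
  field_simp
  ring

end MPcd65c1
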