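import Mathlib
import Pool.Agent.Lib.MP_cd65c1_an.TDefs
import Pool.Agent.Lib.MP_cd65c1_an.ABasic
import Pool.Agent.Lib.MP_cd65c1_an.ALam

/-! TD: the half layer and the covariance of the field. -/

namespace MPcd65c1

open MeasureTheory

/-- `k ∈ Lam d l ↔ lev k = l`. (If helper86's basics contain it, cite it.) -/
theorem mem_Lam' {d l : ℕ} {k : Fin d → ℤ} : k ∈ Lam d l ↔ lev k = l := mem_Lam d l k

theorem lev_neg {d : ℕ} (k : Fin d → ℤ) : lev (-k) = lev k := by
  simp [lev]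

theorem neg_mem_Lam {d l : ℕ} {k : Fin d → ℤ} : -k ∈ Lam d l ↔ k ∈ Lam d l := by
  rw [mem_Lam', mem_Lam', lev_neg]

theorem zero_notMem_Lam {d l : ℕ} (hl : 1 ≤ l) : (0 : Fin d → ℤ) ∉ Lam d l := by
  rw [mem_Lam']
  intro h
  have : lev (0 : Fin d → ℤ) = 0 := by simp [lev]
  omega

theorem mem_Hf {d l : ℕ} {k : Fin d → ℤ} :
    k ∈ Hf d l ↔ k ∈ Lam d l ∧ toLex (-k) < toLex k := by
  classical
  unfold Hf
  rw [Finset.mem_filter]

theorem toLex_trichotomy {d : ℕ} {k : Fin d → ℤ} (hk : k ≠ 0) :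
    toLex (-k) < toLex k ∨ toLex k < toLex (-k) := by
  rcases lt_trichotomy (toLex (-k)) (toLex k) with h | h | h
  · exact Or.inl h
  · exfalso
    apply hk
    have h2 : -k = k := toLex.injective h
    funext j
    have := congrFun h2 j
    simp only [Pi.neg_apply] at this
    simp only [Pi.zero_apply]
    omega
  · exact Or.inr h

/-- Every `k ≠ 0` satisfies exactly one of `toLex (-k) < toLex k`, `toLex k < toLex (-k)`
(linear order `Lex (Fin d → ℤ)`, `k ≠ -k`). -/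
theorem sum_Lam_half {d l : ℕ} (hl : 1 ≤ l) {E : Type*} [AddCommMonoid E] (F : (Fin d → ℤ) → E) :
    ∑ k ∈ Lam d l, F k = ∑ k ∈ Hf d l, (F k + F (-k)) := by
  classical
  have h1 : Lam d l = Hf d l ∪ (Hf d l).image (fun k => -k) := by
    ext k
    rw [Finset.mem_union, Finset.mem_image, mem_Hf]
    constructor
    · intro hk
      have hk0 : k ≠ 0 := fun h => zero_notMem_Lam hl (h ▸ hk)
      rcases toLex_trichotomy hk0 with h | h
      · exact Or.inl ⟨hk, h⟩
      · refine Or.inr ⟨-k, mem_Hf.2 ⟨neg_mem_Lam.2 hk, ?_⟩, neg_neg k⟩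
        rw [neg_neg]
        exact h
    · rintro (h | ⟨k', hk', rfl⟩)
      · exact h.1
      · exact neg_mem_Lam.2 (mem_Hf.1 hk').1
  have h2 : Disjoint (Hf d l) ((Hf d l).image (fun k => -k)) := by
    rw [Finset.disjoint_left]
    intro k hk hk'
    rw [Finset.mem_image] at hk'
    obtain ⟨k', hk', rfl⟩ := hk'
    have h3 := (mem_Hf.1 hk').2
    have h4 := (mem_Hf.1 hk).2
    rw [neg_neg] at h4
    exact lt_asymm h3 h4
  rw [h1, Finset.sum_union h2, Finset.sum_image (fun a _ b _ h => neg_injective h),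
    Finset.sum_add_distrib]

/-- `card (Hf × Bool) = 2 card Hf = card Lam` (`sum_Lam_half` with `F = 1`). -/
theorem card_Ig {d l : ℕ} (hl : 1 ≤ l) : (Fintype.card (Ig d l) : ℝ) = NL d l := by
  have h1 := sum_Lam_half (d := d) hl (fun _ => (1 : ℕ))
  simp only [Finset.sum_const, smul_eq_mul, mul_one] at h1
  unfold NL
  rw [h1]
  simp [Fintype.card_prod, Fintype.card_coe]

/-- `Re(u e_k(x)) Re(u e_k(y)) + Im(u e_k(x)) Im(u e_k(y)) = Re(u e_k(x) conj(u e_k(y)))
= Re e_k(x-y)`; sum over `Hf` times 2 is the sum over `Lam` since `Re e_{-k} = Re e_k`. -/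
theorem sum_fb {d l : ℕ} (hl : 1 ≤ l) {u : CV d} (hu : Uni u) (x y : Td d) :
    ∑ i : Ig d l, fb u i x * fb u i y = Dl d l (x - y) := by
  unfold Dl
  rw [sum_Lam_half hl (fun k => (UnitAddTorus.mFourier k (x - y) : ℂ).re), Fintype.sum_prod_type]
  rw [← Finset.sum_coe_sort (Hf d l)]
  refine Finset.sum_congr rfl (fun k _ => ?_)
  rw [Fintype.sum_bool]
  have h1 : (UnitAddTorus.mFourier (-(k : Fin d → ℤ)) (x - y) : ℂ).re =
      (UnitAddTorus.mFourier (k : Fin d → ℤ) (x - y) : ℂ).re := by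
    rw [← mF_conj, Complex.conj_re]
  have h2 : (UnitAddTorus.mFourier (k : Fin d → ℤ) (x - y) : ℂ) =
      (u k * UnitAddTorus.mFourier (k : Fin d → ℤ) x) *
        (starRingEnd ℂ) (u k * UnitAddTorus.mFourier (k : Fin d → ℤ) y) := by
    have h3 : u k * (starRingEnd ℂ) (u k) = 1 := by
      rw [Complex.mul_conj, Complex.normSq_eq_norm_sq, hu.1]; norm_num
    rw [map_mul, mF_conj, sub_eq_add_neg, mF_add_arg, mF_neg_arg]
    calc _ = (u k * (starRingEnd ℂ) (u k)) * ((UnitAddTorus.mFourier (k : Fin d → ℤ) x : ℂ) *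
          (UnitAddTorus.mFourier (-(k : Fin d → ℤ)) y : ℂ)) := by rw [h3, one_mul]
      _ = _ := by ring
  rw [h1, h2]
  unfold fb
  simp only [if_true, Bool.false_eq_true, if_false]
  have h4 : Real.sqrt 2 * Real.sqrt 2 = 2 := Real.mul_self_sqrt (by norm_num)
  have h5 : ∀ z w : ℂ, Real.sqrt 2 * z.re * (Real.sqrt 2 * w.re) +
      Real.sqrt 2 * z.im * (Real.sqrt 2 * w.im) =
      (z * (starRingEnd ℂ) w).re + (z * (starRingEnd ℂ) w).re := by
    intro z w
    rw [Complex.mul_re, Complex.conj_re, Complex.conj_im]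
    linear_combination (z.re * w.re + z.im * w.im) * h4
  exact h5 _ _

theorem Dl_zero {d l : ℕ} : Dl d l 0 = NL d l := by
  unfold Dl NL
  simp [mF_zero_arg]

/-- consequence of `sum_fb` with `x = y` -/
theorem sum_fb_sq {d l : ℕ} (hl : 1 ≤ l) {u : CV d} (hu : Uni u) (x : Td d) :
    ∑ i : Ig d l, fb u i x ^ 2 = NL d l := by
  have h := sum_fb hl hu x x
  rw [sub_self, Dl_zero] at h
  rw [← h]
  exact Finset.sum_congr rfl (fun i _ => sq _)

theorem Dl_continuous {d l : ℕ} : Continuous (Dl d l) := by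
  unfold Dl
  refine continuous_finsetSum _ (fun k _ => ?_)
  exact Complex.continuous_re.comp (map_continuous (UnitAddTorus.mFourier k))

theorem fb_continuous {d l : ℕ} (u : CV d) (i : Ig d l) : Continuous (fb u i) := by
  unfold fb
  have h : Continuous (fun x : Td d => u i.1.1 * (UnitAddTorus.mFourier i.1.1 x : ℂ)) :=
    continuous_const.mul (map_continuous (UnitAddTorus.mFourier i.1.1))
  refine continuous_const.mul ?_
  by_cases hi : i.2 = true
  · simp only [hi, if_true]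
    exact Complex.continuous_re.comp h
  · simp only [hi]
    exact Complex.continuous_im.comp h

/-- joint continuity of the field -/
theorem Gf_continuous {d l : ℕ} (u : CV d) :
    Continuous (fun q : (Ig d l → ℝ) × Td d => Gf u q.1 q.2) := by
  unfold Gf
  refine continuous_finsetSum _ (fun i _ => ?_)
  exact ((continuous_apply i).comp continuous_fst).mul ((fb_continuous u i).comp continuous_snd)

theorem abs_fb_le {d l : ℕ} {u : CV d} (hu : Uni u) (i : Ig d l) (x : Td d) :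
    |fb u i x| ≤ 2 := by
  unfold fb
  have h1 : ‖u i.1.1 * (UnitAddTorus.mFourier i.1.1 x : ℂ)‖ = 1 := by
    rw [norm_mul, hu.1, norm_mF, one_mul]
  have h2 : Real.sqrt 2 ≤ 2 := by
    rw [Real.sqrt_le_left (by norm_num)]; norm_num
  rw [abs_mul, abs_of_nonneg (Real.sqrt_nonneg 2)]
  have h3 : |(if i.2 then (u i.1.1 * (UnitAddTorus.mFourier i.1.1 x : ℂ)).re
      else (u i.1.1 * (UnitAddTorus.mFourier i.1.1 x : ℂ)).im)| ≤ 1 := by
    split_ifs
    · exact (Complex.abs_re_le_norm _).trans h1.le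
    · exact (Complex.abs_im_le_norm _).trans h1.le
  calc _ ≤ 2 * 1 := mul_le_mul h2 h3 (abs_nonneg _) (by norm_num)
    _ = 2 := by norm_num

/-- `|fb| ≤ √2 ≤ 2` -/
theorem abs_Gf_le {d l : ℕ} {u : CV d} (hu : Uni u) (γ : Ig d l → ℝ) (x : Td d) :
    |Gf u γ x| ≤ 2 * ∑ i, |γ i| := by
  unfold Gf
  refine (Finset.abs_sum_le_sum_abs _ _).trans ?_
  rw [Finset.mul_sum]
  refine Finset.sum_le_sum (fun i _ => ?_)
  rw [abs_mul, mul_comm]
  exact mul_le_mul_of_nonneg_right (abs_fb_le hu i x) (abs_nonneg _)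

theorem uni_one {d : ℕ} : Uni (1 : CV d) := by
  refine ⟨fun k => ?_, fun k => ?_⟩
  · simp
  · simp

theorem lamr_ne_zero {d : ℕ} (r : ℝ) (k : Fin d → ℤ) : lamr r k ≠ 0 := by
  unfold lamr
  rw [Finset.prod_ne_zero_iff]
  intro j _
  by_cases hk : k j = 0
  · rw [hk, bern_zero]; exact one_ne_zero
  · rw [← norm_ne_zero_iff, norm_bern_ne hk]
    exact (Real.rpow_pos_of_pos (abs_pos.2 (by exact_mod_cast hk)) _).ne'

theorem norm_lamr_neg {d : ℕ} (r : ℝ) (k : Fin d → ℤ) : ‖lamr r (-k)‖ = ‖lamr r k‖ := by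
  rw [lamr_neg, RCLike.norm_conj]

/-- `lamr r (-k) = conj (lamr r k)`, `lamr r k ≠ 0`. -/
theorem uni_uph {d : ℕ} (r : ℝ) : Uni (uph r : CV d) := by
  refine ⟨fun k => ?_, fun k => ?_⟩
  · unfold uph
    rw [norm_div, Complex.norm_real, norm_norm, div_self]
    exact norm_ne_zero_iff.2 (lamr_ne_zero r k)
  · unfold uph
    rw [norm_lamr_neg, lamr_neg, map_div₀, Complex.conj_ofReal]

/-- bounds of the multiplier: for `k ∈ Lam d l`, `r ≥ 0`:
`2^{-rl} ≤ |lamr r k| ≤ 2^{rd} 2^{-rl}` (`2^(s-1) ≤ |k_j| < 2^s`, `s = size |k_j|`, if `k_j ≠ 0`). -/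
theorem lamr_bounds {d l : ℕ} {r : ℝ} (hr : 0 ≤ r) {k : Fin d → ℤ} (hk : k ∈ Lam d l) :
    (2 : ℝ) ^ (-(r * l)) ≤ ‖lamr r k‖ ∧ ‖lamr r k‖ ≤ (2 : ℝ) ^ (r * d) * (2 : ℝ) ^ (-(r * l)) := by
  have h := mem_Lam'.1 hk
  subst h
  exact ⟨lamr_lower hr k, lamr_upper hr k⟩

end MPcd65c1
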