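import Mathlib
import Pool.Agent.Lib.MP_cd65c1_an.TDefs
import Pool.Agent.Lib.MP_cd65c1_an.TB
import Pool.Agent.Lib.MP_cd65c1_an.TD

/-! TG: expectation of the energy of Fourier coefficients. -/

namespace MPcd65c1

open MeasureTheory

private theorem mF_neg_sub {d : ℕ} (k : Fin d → ℤ) (x y : Td d) :
    (UnitAddTorus.mFourier (-k) (x - y) : ℂ)
      = UnitAddTorus.mFourier (-k) x * starRingEnd ℂ (UnitAddTorus.mFourier (-k) y) := by
  simp only [UnitAddTorus.mFourier, ContinuousMap.coe_mk, Pi.neg_apply, Pi.sub_apply]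
  rw [map_prod, ← Finset.prod_mul_distrib]
  refine Finset.prod_congr rfl fun j _ => ?_
  rw [← fourier_neg, sub_eq_add_neg]
  rw [show (fourier (-k j)) (x j + -(y j)) = fourier (-k j) (x j) * fourier (-k j) (-(y j)) by
    simp only [fourier_apply, smul_add, AddCircle.toCircle_add, Circle.coe_mul]]
  congr 1
  simp only [fourier_apply, smul_neg, neg_smul, neg_neg]

private theorem tg_norm_mF {d : ℕ} (k : Fin d → ℤ) (x : Td d) :
    ‖(UnitAddTorus.mFourier k x : ℂ)‖ = 1 := by
  simp only [UnitAddTorus.mFourier, ContinuousMap.coe_mk, norm_prod, fourier_apply,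
    Circle.norm_coe, Finset.prod_const_one]

private theorem mF_neg {d : ℕ} (k : Fin d → ℤ) (x : Td d) :
    (UnitAddTorus.mFourier (-k) x : ℂ) = starRingEnd ℂ (UnitAddTorus.mFourier k x) := by
  simp only [UnitAddTorus.mFourier, ContinuousMap.coe_mk, Pi.neg_apply, map_prod, fourier_neg]

/-- Abstract Fubini. `‖cfr (h γ) k‖^2 = ∫∫ e_{-k}(x) conj(e_{-k}(y)) h γ x h γ y dx dy`; integrate
over `γ` (everything is dominated by `b^2 exp(2c ∑|γ_i|)`, integrable by `gp_exp_abs`, and the torus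
has measure one), get `∫∫ e_{-k}(x) conj(e_{-k}(y)) R(x-y) dx dy = cfr R k` by translation
invariance of `mu d`; take real parts. -/
theorem fubini_energy {d : ℕ} {ι : Type*} [Fintype ι] (h : (ι → ℝ) → Td d → ℝ)
    (hc : Continuous (fun q : (ι → ℝ) × Td d => h q.1 q.2)) (b c : ℝ)
    (hb : ∀ γ x, |h γ x| ≤ b * Real.exp (c * ∑ i, |γ i|)) (R : Td d → ℝ) (hRc : Continuous R)
    (hR : ∀ x y, ∫ γ, h γ x * h γ y ∂(gp ι) = R (x - y)) (k : Fin d → ℤ) :
    Integrable (fun γ => ‖cfr (h γ) k‖ ^ 2) (gp ι) ∧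
      ∫ γ, ‖cfr (h γ) k‖ ^ 2 ∂(gp ι) = (cfr R k).re := by
  have : IsProbabilityMeasure (gp ι) := gp_prob ι
  set Φ : (ι → ℝ) → Td d × Td d → ℂ := fun γ p =>
    (UnitAddTorus.mFourier (-k) (p.1 - p.2) : ℂ) * (((h γ p.1 * h γ p.2 : ℝ)) : ℂ) with hΦ
  have hc1 : Continuous (fun q : (ι → ℝ) × (Td d × Td d) => h q.1 q.2.1) :=
    hc.comp (continuous_fst.prodMk (continuous_fst.comp continuous_snd))
  have hc2 : Continuous (fun q : (ι → ℝ) × (Td d × Td d) => h q.1 q.2.2) :=
    hc.comp (continuous_fst.prodMk (continuous_snd.comp continuous_snd))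
  have hΦc : Continuous (fun q : (ι → ℝ) × (Td d × Td d) => Φ q.1 q.2) := by
    refine Continuous.mul ?_ (Complex.continuous_ofReal.comp (hc1.mul hc2))
    exact (UnitAddTorus.mFourier (-k)).continuous.comp
      ((continuous_fst.comp continuous_snd).sub (continuous_snd.comp continuous_snd))
  have hΦb : ∀ γ p, ‖Φ γ p‖ ≤ b ^ 2 * Real.exp ((2 * c) * ∑ i, |γ i|) := by
    intro γ p
    rw [hΦ]
    simp only
    rw [norm_mul, tg_norm_mF, one_mul, Complex.norm_real, Real.norm_eq_abs, abs_mul]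
    have h1 := hb γ p.1
    have h2 := hb γ p.2
    calc |h γ p.1| * |h γ p.2| ≤ (b * Real.exp (c * ∑ i, |γ i|)) *
          (b * Real.exp (c * ∑ i, |γ i|)) :=
        mul_le_mul h1 h2 (abs_nonneg _) ((abs_nonneg _).trans h1)
      _ = b ^ 2 * Real.exp ((2 * c) * ∑ i, |γ i|) := by
        rw [show (2 * c) * ∑ i, |γ i| = c * ∑ i, |γ i| + c * ∑ i, |γ i| by ring, Real.exp_add]
        ring
  have hint : Integrable (fun q : (ι → ℝ) × (Td d × Td d) => Φ q.1 q.2)
      ((gp ι).prod ((mu d).prod (mu d))) := by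
    refine Integrable.mono' (g := fun q : (ι → ℝ) × (Td d × Td d) =>
      b ^ 2 * Real.exp ((2 * c) * ∑ i, |q.1 i|)) ?_ hΦc.aestronglyMeasurable
      (Filter.Eventually.of_forall fun q => hΦb q.1 q.2)
    exact ((gp_exp_abs (ι := ι) (2 * c)).const_mul (b ^ 2)).comp_fst _
  -- the square as a double integral
  have hsq : ∀ γ, ((‖cfr (h γ) k‖ ^ 2 : ℝ) : ℂ) = ∫ p, Φ γ p ∂((mu d).prod (mu d)) := by
    intro γ
    have e1 : ∀ p : Td d × Td d, Φ γ p =
        ((UnitAddTorus.mFourier (-k) p.1 : ℂ) * ((h γ p.1 : ℝ) : ℂ)) *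
          (starRingEnd ℂ ((UnitAddTorus.mFourier (-k) p.2 : ℂ) * ((h γ p.2 : ℝ) : ℂ))) := by
      intro p
      rw [hΦ]
      simp only
      rw [mF_neg_sub, map_mul, Complex.conj_ofReal]
      push_cast
      ring
    simp_rw [e1]
    rw [integral_prod_mul (fun x : Td d => (UnitAddTorus.mFourier (-k) x : ℂ) * ((h γ x : ℝ) : ℂ))
      (fun y : Td d => starRingEnd ℂ ((UnitAddTorus.mFourier (-k) y : ℂ) * ((h γ y : ℝ) : ℂ)))]
    rw [integral_conj]
    have e2 : cfr (h γ) k = ∫ x, (UnitAddTorus.mFourier (-k) x : ℂ) * ((h γ x : ℝ) : ℂ) ∂(mu d) :=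
      rfl
    rw [← e2, Complex.mul_conj, Complex.normSq_eq_norm_sq]
  have hI : Integrable (fun γ => ((‖cfr (h γ) k‖ ^ 2 : ℝ) : ℂ)) (gp ι) := by
    simp_rw [hsq]
    exact hint.integral_prod_left
  have hIr : Integrable (fun γ => ‖cfr (h γ) k‖ ^ 2) (gp ι) := by
    have := hI.re
    simpa only [RCLike.re_to_complex, Complex.ofReal_re] using this
  refine ⟨hIr, ?_⟩
  have key : ((∫ γ, ‖cfr (h γ) k‖ ^ 2 ∂(gp ι) : ℝ) : ℂ) = cfr R k := by
    rw [← integral_complex_ofReal]
    simp_rw [hsq]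
    rw [integral_integral_swap hint]
    have e3 : ∀ p : Td d × Td d, ∫ γ, Φ γ p ∂(gp ι) =
        (UnitAddTorus.mFourier (-k) (p.1 - p.2) : ℂ) * ((R (p.1 - p.2) : ℝ) : ℂ) := by
      intro p
      rw [hΦ]
      simp only
      rw [integral_const_mul, integral_complex_ofReal, hR]
    simp_rw [e3]
    have hcont : Continuous (fun x : Td d => (UnitAddTorus.mFourier (-k) x : ℂ) * ((R x : ℝ) : ℂ)) :=
      (UnitAddTorus.mFourier (-k)).continuous.mul (Complex.continuous_ofReal.comp hRc)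
    have hint2 : Integrable (fun p : Td d × Td d =>
        (UnitAddTorus.mFourier (-k) (p.1 - p.2) : ℂ) * ((R (p.1 - p.2) : ℝ) : ℂ))
        ((mu d).prod (mu d)) := by
      have : Continuous (fun p : Td d × Td d =>
        (UnitAddTorus.mFourier (-k) (p.1 - p.2) : ℂ) * ((R (p.1 - p.2) : ℝ) : ℂ)) :=
        hcont.comp (continuous_fst.sub continuous_snd)
      exact this.integrable_of_hasCompactSupport (HasCompactSupport.of_compactSpace _)
    rw [integral_prod_symm _ hint2]
    have e4 : ∀ y : Td d, ∫ x, (UnitAddTorus.mFourier (-k) (x - y) : ℂ) * ((R (x - y) : ℝ) : ℂ)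
        ∂(mu d) = cfr R k := by
      intro y
      exact integral_sub_right_eq_self (μ := mu d)
        (fun x : Td d => (UnitAddTorus.mFourier (-k) x : ℂ) * ((R x : ℝ) : ℂ)) y
    simp_rw [e4]
    simp
  rw [← key, Complex.ofReal_re]

/-- `∑_{k ∈ Lam l'} Re cfr R k = ∫ Dl l' R`. -/
theorem sum_cfr_re {d : ℕ} (l' : ℕ) (R : Td d → ℝ) (hR : Continuous R) :
    ∑ k ∈ Lam d l', (cfr R k).re = ∫ x, Dl d l' x * R x ∂(mu d) := by
  have h1 : ∀ k : Fin d → ℤ, (cfr R k).re
      = ∫ x, (UnitAddTorus.mFourier k x : ℂ).re * R x ∂(mu d) := by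
    intro k
    have hcont : Continuous (fun x : Td d => (UnitAddTorus.mFourier (-k) x : ℂ) * ((R x : ℝ) : ℂ)) :=
      (UnitAddTorus.mFourier (-k)).continuous.mul (Complex.continuous_ofReal.comp hR)
    have hint : Integrable (fun x : Td d =>
        (UnitAddTorus.mFourier (-k) x : ℂ) * ((R x : ℝ) : ℂ)) (mu d) :=
      hcont.integrable_of_hasCompactSupport (HasCompactSupport.of_compactSpace _)
    have h2 : (cfr R k).re = ∫ x, ((UnitAddTorus.mFourier (-k) x : ℂ) * ((R x : ℝ) : ℂ)).re ∂(mu d) := by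
      have := integral_re hint
      simp only [RCLike.re_to_complex] at this
      rw [this]
      rfl
    rw [h2]
    refine integral_congr_ae (Filter.Eventually.of_forall fun x => ?_)
    simp only
    rw [Complex.re_mul_ofReal, mF_neg, Complex.conj_re]
  simp_rw [h1]
  rw [← integral_finsetSum]
  · refine integral_congr_ae (Filter.Eventually.of_forall fun x => ?_)
    simp only [Dl, Finset.sum_mul]
  · intro k _
    have hcont : Continuous (fun x : Td d => (UnitAddTorus.mFourier k x : ℂ).re * R x) :=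
      (Complex.continuous_re.comp (UnitAddTorus.mFourier k).continuous).mul hR
    exact hcont.integrable_of_hasCompactSupport (HasCompactSupport.of_compactSpace _)

/-- `E vl = ∫ D_{l'} (sinh(a² D) - a² D)/a²`: `fubini_energy` for `h = mg - Gf`, covariance from
`gp_err` with `f_i = fb u i x`, `g_i = fb u i y` (`sum_fb`, `sum_fb_sq`); bound
`|sinh(a G)/(a e^{..})| ≤ exp(a |G|)/a`, `|G| ≤ exp |G|`, `abs_Gf_le`. -/
theorem E_vl {d l : ℕ} (hl : 1 ≤ l) {u : CV d} (hu : Uni u) (a : ℝ) (ha : 0 < a) (l' : ℕ) :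
    Integrable (fun γ => vl (l := l) a u γ l') (gp (Ig d l)) ∧
      ∫ γ, vl (l := l) a u γ l' ∂(gp (Ig d l))
        = ∫ x, Dl d l' x * ((Real.sinh (a ^ 2 * Dl d l x) - a ^ 2 * Dl d l x) / a ^ 2) ∂(mu d) := by
  set R : Td d → ℝ := fun x => (Real.sinh (a ^ 2 * Dl d l x) - a ^ 2 * Dl d l x) / a ^ 2 with hRdef
  have hRc : Continuous R := by
    have h1 : Continuous (fun x : Td d => a ^ 2 * Dl d l x) := continuous_const.mul Dl_continuous
    exact ((Real.continuous_sinh.comp h1).sub h1).div_const _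
  set h : (Ig d l → ℝ) → Td d → ℝ := fun γ x => mg a u γ x - Gf u γ x with hh
  have hc : Continuous (fun q : (Ig d l → ℝ) × Td d => h q.1 q.2) := by
    have hG := Gf_continuous (d := d) (l := l) u
    have : Continuous (fun q : (Ig d l → ℝ) × Td d => mg a u q.1 q.2) := by
      unfold mg
      exact (Real.continuous_sinh.comp (continuous_const.mul hG)).div_const _
    exact this.sub hG
  have hb : ∀ γ x, |h γ x| ≤ (1 / a + 1) * Real.exp ((2 * (a + 1)) * ∑ i, |γ i|) := by
    intro γ x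
    have hG := abs_Gf_le hu γ x
    set G := Gf u γ x with hGd
    set S := ∑ i, |γ i| with hS
    have hS0 : 0 ≤ S := Finset.sum_nonneg fun i _ => abs_nonneg _
    have h1 : |mg a u γ x| ≤ 1 / a * Real.exp ((2 * (a + 1)) * S) := by
      unfold mg
      rw [← hGd, abs_div, abs_of_pos (mul_pos ha (Real.exp_pos _))]
      have e1 : |Real.sinh (a * G)| ≤ Real.exp ((2 * (a + 1)) * S) := by
        rw [Real.abs_sinh]
        have : Real.sinh |a * G| ≤ Real.exp |a * G| := by
          rw [Real.sinh_eq]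
          have := Real.exp_pos (|a * G|)
          have := Real.exp_pos (-|a * G|)
          linarith
        refine this.trans (Real.exp_le_exp.mpr ?_)
        rw [abs_mul, abs_of_pos ha]
        nlinarith [abs_nonneg G]
      have e2 : (1 : ℝ) ≤ Real.exp (a ^ 2 * NL d l / 2) := by
        refine Real.one_le_exp ?_
        have : 0 ≤ NL d l := by unfold NL; positivity
        positivity
      rw [div_le_iff₀ (mul_pos ha (Real.exp_pos _))]
      calc |Real.sinh (a * G)| ≤ Real.exp ((2 * (a + 1)) * S) := e1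
        _ ≤ Real.exp ((2 * (a + 1)) * S) * Real.exp (a ^ 2 * NL d l / 2) :=
          le_mul_of_one_le_right (Real.exp_pos _).le e2
        _ = 1 / a * Real.exp ((2 * (a + 1)) * S) * (a * Real.exp (a ^ 2 * NL d l / 2)) := by
          field_simp
    have h2 : |G| ≤ Real.exp ((2 * (a + 1)) * S) := by
      have : 2 * S ≤ Real.exp ((2 * (a + 1)) * S) := by
        have h3 := Real.add_one_le_exp ((2 * (a + 1)) * S)
        nlinarith [mul_nonneg ha.le hS0]
      exact hG.trans this
    calc |h γ x| ≤ |mg a u γ x| + |G| := abs_sub _ _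
      _ ≤ _ := by linarith [add_le_add h1 h2, mul_comm (1 / a + 1) (Real.exp ((2 * (a + 1)) * S))]
  have hR : ∀ x y, ∫ γ, h γ x * h γ y ∂(gp (Ig d l)) = R (x - y) := by
    intro x y
    have := (gp_err (fun i => fb u i x) (fun i => fb u i y) (NL d l) a ha
      (sum_fb_sq hl hu x) (sum_fb_sq hl hu y)).2
    rw [sum_fb hl hu] at this
    exact this
  have hk := fun k => fubini_energy h hc _ _ hb R hRc hR k
  constructor
  · unfold vl
    exact integrable_finsetSum _ fun k _ => (hk k).1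
  · unfold vl
    rw [integral_finsetSum _ fun k _ => (hk k).1]
    rw [← sum_cfr_re l' R hRc]
    exact Finset.sum_congr rfl fun k _ => (hk k).2

end MPcd65c1
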