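import Mathlib
import Pool.Agent.Lib.MP_cd65c1_an.TDefs
import Pool.Agent.Lib.MP_cd65c1_an.TF
import Pool.Agent.Lib.MP_cd65c1_an.TG

/-! TH: the bound of the expected error energy (here `d ≥ 3`). -/

namespace MPcd65c1

open MeasureTheory

private theorem fact_ge (n : ℕ) : 6 * (Nat.factorial (2 * n)) ≤ Nat.factorial (2 * (n + 1) + 1) := by
  have h1 : 2 * (n + 1) + 1 = 2 * n + 1 + 1 + 1 := by ring
  rw [h1, Nat.factorial_succ, Nat.factorial_succ, Nat.factorial_succ]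
  have h2 := Nat.factorial_pos (2 * n)
  have h3 : 6 ≤ (2 * n + 1 + 1 + 1) * ((2 * n + 1 + 1) * (2 * n + 1)) := by
    have h4 := Nat.mul_le_mul (show 3 ≤ 2 * n + 1 + 1 + 1 by omega)
      (Nat.mul_le_mul (show 2 ≤ 2 * n + 1 + 1 by omega) (show 1 ≤ 2 * n + 1 by omega))
    exact h4
  calc 6 * Nat.factorial (2 * n)
      ≤ ((2 * n + 1 + 1 + 1) * ((2 * n + 1 + 1) * (2 * n + 1))) * Nat.factorial (2 * n) :=
        Nat.mul_le_mul_right _ h3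
    _ = _ := by ring

private theorem sinh_sub_le_aux {y : ℝ} (hy : 0 ≤ y) :
    0 ≤ Real.sinh y - y ∧ Real.sinh y - y ≤ y ^ 3 / 6 * Real.cosh y := by
  have h1 := Real.hasSum_sinh y
  have h2 : HasSum (fun n : ℕ => y ^ (2 * (n + 1) + 1) / ((Nat.factorial (2 * (n + 1) + 1) : ℕ) : ℝ))
      (Real.sinh y - y) := by
    have h3 := (hasSum_nat_add_iff' 1).2 h1
    simpa using h3
  have h4 : HasSum (fun n : ℕ => y ^ 3 / 6 * (y ^ (2 * n) / ((Nat.factorial (2 * n) : ℕ) : ℝ)))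
      (y ^ 3 / 6 * Real.cosh y) := (Real.hasSum_cosh y).mul_left _
  constructor
  · exact h2.nonneg fun n => by positivity
  · refine hasSum_le (fun n => ?_) h2 h4
    have h5 : (0 : ℝ) < ((Nat.factorial (2 * (n + 1) + 1) : ℕ) : ℝ) := by
      exact_mod_cast Nat.factorial_pos _
    have h6 : (0 : ℝ) < ((Nat.factorial (2 * n) : ℕ) : ℝ) := by
      exact_mod_cast Nat.factorial_pos _
    have h7 : (6 : ℝ) * ((Nat.factorial (2 * n) : ℕ) : ℝ) ≤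
        ((Nat.factorial (2 * (n + 1) + 1) : ℕ) : ℝ) := by
      exact_mod_cast fact_ge n
    have h8 : y ^ (2 * (n + 1) + 1) = y ^ 3 * y ^ (2 * n) := by
      rw [← pow_add]
      congr 1
      ring
    rw [h8]
    calc y ^ 3 * y ^ (2 * n) / ((Nat.factorial (2 * (n + 1) + 1) : ℕ) : ℝ)
        ≤ y ^ 3 * y ^ (2 * n) / (6 * ((Nat.factorial (2 * n) : ℕ) : ℝ)) := by
          gcongr
      _ = y ^ 3 / 6 * (y ^ (2 * n) / ((Nat.factorial (2 * n) : ℕ) : ℝ)) := by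
          field_simp

private theorem cosh_le_exp_abs (y : ℝ) : Real.cosh y ≤ Real.exp |y| := by
  rw [← Real.cosh_abs, Real.cosh_eq]
  have h1 : Real.exp (-|y|) ≤ Real.exp |y| := Real.exp_le_exp.2 (by linarith [abs_nonneg y])
  linarith

/-- `|sinh y - y| ≤ |y|^3/6 · e^{|y|}` -/
theorem sinh_sub_le (y : ℝ) : |Real.sinh y - y| ≤ |y| ^ 3 / 6 * Real.exp |y| := by
  have key : ∀ z : ℝ, 0 ≤ z → |Real.sinh z - z| ≤ |z| ^ 3 / 6 * Real.exp |z| := by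
    intro z hz
    obtain ⟨h1, h2⟩ := sinh_sub_le_aux hz
    rw [abs_of_nonneg h1, abs_of_nonneg hz]
    have h3 := cosh_le_exp_abs z
    rw [abs_of_nonneg hz] at h3
    exact h2.trans (by gcongr)
  rcases le_total 0 y with hy | hy
  · exact key y hy
  · have h := key (-y) (by linarith)
    rw [Real.sinh_neg, abs_neg] at h
    have h2 : -Real.sinh y - -y = -(Real.sinh y - y) := by ring
    rw [h2, abs_neg] at h
    exact h

private theorem alg_bound {d : ℕ} (hd : 3 ≤ d) {l : ℕ} {c ε N : ℝ} (hc : 0 < c) (hε : 0 < ε)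
    (hN : c * Mm d l ≤ N) :
    (ε * l / N) ^ 2 * ((2 : ℝ) ^ (3 * l) * ((l : ℝ) + 1) ^ (d - 1)) ≤
      ε ^ 2 / c ^ 2 * (Mm d l / ((l : ℝ) + 1) ^ 2) := by
  have hl1 : (1 : ℝ) ≤ (l : ℝ) + 1 := by
    have : (0 : ℝ) ≤ l := Nat.cast_nonneg l
    linarith
  have hl0 : (0 : ℝ) < (l : ℝ) + 1 := by linarith
  have hM : 0 < Mm d l := by
    unfold Mm
    positivity
  have h1 : ε * l / N ≤ ε * l / (c * Mm d l) := by
    have : (0 : ℝ) ≤ l := Nat.cast_nonneg l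
    gcongr
  have hN0 : 0 < N := lt_of_lt_of_le (by positivity) hN
  have h0 : 0 ≤ ε * l / N := by
    have : (0 : ℝ) ≤ l := Nat.cast_nonneg l
    positivity
  have h2 : (ε * l / N) ^ 2 ≤ (ε * l / (c * Mm d l)) ^ 2 := pow_le_pow_left₀ h0 h1 2
  have h3 : (l : ℝ) ^ 2 ≤ ((l : ℝ) + 1) ^ (2 * (d - 1) - 2) := by
    have h4 : (l : ℝ) ^ 2 ≤ ((l : ℝ) + 1) ^ 2 :=
      pow_le_pow_left₀ (Nat.cast_nonneg l) (by linarith) 2
    exact h4.trans (pow_le_pow_right₀ hl1 (by omega))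
  have h5 : ((l : ℝ) + 1) ^ (2 * (d - 1)) = ((l : ℝ) + 1) ^ (2 * (d - 1) - 2) * ((l : ℝ) + 1) ^ 2 := by
    rw [← pow_add]
    congr 1
    omega
  have h6 : (l : ℝ) ^ 2 * ((l : ℝ) + 1) ^ 2 ≤ ((l : ℝ) + 1) ^ (2 * (d - 1)) := by
    rw [h5]
    exact mul_le_mul_of_nonneg_right h3 (by positivity)
  calc (ε * l / N) ^ 2 * ((2 : ℝ) ^ (3 * l) * ((l : ℝ) + 1) ^ (d - 1))
      ≤ (ε * l / (c * Mm d l)) ^ 2 * ((2 : ℝ) ^ (3 * l) * ((l : ℝ) + 1) ^ (d - 1)) := by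
        exact mul_le_mul_of_nonneg_right h2 (by positivity)
    _ = ε ^ 2 / c ^ 2 * ((l : ℝ) ^ 2 * (2 : ℝ) ^ l / ((l : ℝ) + 1) ^ (d - 1)) := by
        unfold Mm
        have e1 : (2 : ℝ) ^ (3 * l) = ((2 : ℝ) ^ l) ^ 2 * (2 : ℝ) ^ l := by
          rw [← pow_mul, ← pow_add]
          congr 1
          ring
        rw [e1]
        have e2 : ((2 : ℝ) ^ l) ≠ 0 := by positivity
        have e3 : ((l : ℝ) + 1) ^ (d - 1) ≠ 0 := by positivity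
        field_simp
    _ ≤ ε ^ 2 / c ^ 2 * (Mm d l / ((l : ℝ) + 1) ^ 2) := by
        refine mul_le_mul_of_nonneg_left ?_ (by positivity)
        unfold Mm
        rw [div_le_div_iff₀ (by positivity) (by positivity)]
        calc (l : ℝ) ^ 2 * (2 : ℝ) ^ l * ((l : ℝ) + 1) ^ 2
            = (2 : ℝ) ^ l * ((l : ℝ) ^ 2 * ((l : ℝ) + 1) ^ 2) := by ring
          _ ≤ (2 : ℝ) ^ l * ((l : ℝ) + 1) ^ (2 * (d - 1)) := by gcongr
          _ = (2 : ℝ) ^ l * ((l : ℝ) + 1) ^ (d - 1) * ((l : ℝ) + 1) ^ (d - 1) := by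
              rw [two_mul, pow_add]
              ring

/-- `a = al d l ε`, `a² = ε l/NL`. `E vl ≤ a^{-2} ∫ |D_{l'}| (a²|D|)^3/6 e^{a²|D|}
≤ a^4 C 2^{3l} (l+1)^{d-1} 2^{(l'-l)/2}`, `a^4 = ε² l²/NL² ≤ C l² / (4^l (l+1)^{2(d-1)})`, so
`≤ C 2^l l²/(l+1)^{d-1} 2^{(l'-l)/2} = C Mm l²/(l+1)^{2(d-1)} .. ≤ C Mm/(l+1)^2 ..` for `d ≥ 3`. -/
theorem E_vl_le (d : ℕ) (hd : 3 ≤ d) : ∃ ε : ℝ, 0 < ε ∧ ∃ C : ℝ, 1 ≤ C ∧
    ∀ (l l' : ℕ) (u : CV d), 1 ≤ l → Uni u →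
    ∫ γ, vl (l := l) (al d l ε) u γ l' ∂(gp (Ig d l))
      ≤ C * Mm d l / ((l : ℝ) + 1) ^ 2 * (2 : ℝ) ^ (((l' : ℝ) - l) / 2) := by
  obtain ⟨ε0, hε0, C1, hC1, hI⟩ := lemma_I d (by omega)
  obtain ⟨c, hc, hNL⟩ := NL_bounds d (by omega)
  refine ⟨ε0, hε0, max 1 (C1 * (ε0 ^ 2 / c ^ 2)), le_max_left _ _, ?_⟩
  intro l l' u hl hu
  have hl0 : (0 : ℝ) < l := by exact_mod_cast hl
  have hM : 0 < Mm d l := by
    unfold Mm
    positivity
  have hN0 : 0 < NL d l := lt_of_lt_of_le (by positivity) (hNL l).1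
  set a := al d l ε0 with ha
  have ha2 : a ^ 2 = ε0 * l / NL d l := by
    rw [ha]
    unfold al
    rw [Real.sq_sqrt (by positivity)]
  have hapos : 0 < a := by
    rw [ha]
    unfold al
    exact Real.sqrt_pos.2 (by positivity)
  have ha2pos : 0 < a ^ 2 := by positivity
  rw [(E_vl hl hu a hapos l').2]
  have hgc : Continuous (fun x : Td d => |Dl d l' x| * |Dl d l x| ^ 3 *
      Real.exp (ε0 * l / NL d l * |Dl d l x|)) := by
    have h1 : Continuous (fun x : Td d => |Dl d l' x|) := Dl_continuous.abs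
    have h2 : Continuous (fun x : Td d => |Dl d l x|) := Dl_continuous.abs
    exact (h1.mul (h2.pow 3)).mul (Real.continuous_exp.comp (continuous_const.mul h2))
  have hgi : Integrable (fun x : Td d => (a ^ 2) ^ 2 / 6 * (|Dl d l' x| * |Dl d l x| ^ 3 *
      Real.exp (ε0 * l / NL d l * |Dl d l x|))) (mu d) :=
    (hgc.integrable_of_hasCompactSupport (HasCompactSupport.of_compactSpace _)).const_mul _
  have hle := norm_integral_le_of_norm_le (μ := mu d)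
    (f := fun x => Dl d l' x * ((Real.sinh (a ^ 2 * Dl d l x) - a ^ 2 * Dl d l x) / a ^ 2)) hgi
    (Filter.Eventually.of_forall fun x => by
      rw [Real.norm_eq_abs, abs_mul, abs_div, abs_of_pos ha2pos]
      have h3 := sinh_sub_le (a ^ 2 * Dl d l x)
      rw [abs_mul, abs_of_pos ha2pos] at h3
      rw [← ha2]
      calc |Dl d l' x| * (|Real.sinh (a ^ 2 * Dl d l x) - a ^ 2 * Dl d l x| / a ^ 2)
          ≤ |Dl d l' x| * (((a ^ 2 * |Dl d l x|) ^ 3 / 6 * Real.exp (a ^ 2 * |Dl d l x|)) / a ^ 2) := by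
            gcongr
        _ = (a ^ 2) ^ 2 / 6 * (|Dl d l' x| * |Dl d l x| ^ 3 *
              Real.exp (a ^ 2 * |Dl d l x|)) := by
            field_simp)
  refine (le_abs_self _).trans ((Real.norm_eq_abs _).symm.le.trans (hle.trans ?_))
  rw [integral_const_mul]
  have h4 := hI l l' ε0 hl hε0.le le_rfl
  have h5 := alg_bound hd hc hε0 (hNL l).1 (l := l)
  rw [← ha2] at h5
  have hpow : (0 : ℝ) < (2 : ℝ) ^ (((l' : ℝ) - l) / 2) := by positivity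
  calc (a ^ 2) ^ 2 / 6 * ∫ x, |Dl d l' x| * |Dl d l x| ^ 3 *
          Real.exp (ε0 * l / NL d l * |Dl d l x|) ∂(mu d)
      ≤ (a ^ 2) ^ 2 / 6 * (C1 * (2 : ℝ) ^ (3 * l) * ((l : ℝ) + 1) ^ (d - 1) *
          (2 : ℝ) ^ (((l' : ℝ) - l) / 2)) := by gcongr
    _ = C1 / 6 * ((a ^ 2) ^ 2 * ((2 : ℝ) ^ (3 * l) * ((l : ℝ) + 1) ^ (d - 1))) *
          (2 : ℝ) ^ (((l' : ℝ) - l) / 2) := by ring
    _ ≤ C1 / 6 * (ε0 ^ 2 / c ^ 2 * (Mm d l / ((l : ℝ) + 1) ^ 2)) *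
          (2 : ℝ) ^ (((l' : ℝ) - l) / 2) := by gcongr
    _ ≤ C1 * (ε0 ^ 2 / c ^ 2) * (Mm d l / ((l : ℝ) + 1) ^ 2) *
          (2 : ℝ) ^ (((l' : ℝ) - l) / 2) := by
        have h6 : 0 ≤ ε0 ^ 2 / c ^ 2 * (Mm d l / ((l : ℝ) + 1) ^ 2) := by positivity
        have h7 : C1 / 6 ≤ C1 := by linarith
        have h8 := mul_le_mul_of_nonneg_right h7 h6
        have h9 : C1 * (ε0 ^ 2 / c ^ 2) * (Mm d l / ((l : ℝ) + 1) ^ 2) =
            C1 * (ε0 ^ 2 / c ^ 2 * (Mm d l / ((l : ℝ) + 1) ^ 2)) := by ring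
        rw [h9]
        gcongr
    _ ≤ max 1 (C1 * (ε0 ^ 2 / c ^ 2)) * (Mm d l / ((l : ℝ) + 1) ^ 2) *
          (2 : ℝ) ^ (((l' : ℝ) - l) / 2) := by
        gcongr
        exact le_max_right _ _
    _ = max 1 (C1 * (ε0 ^ 2 / c ^ 2)) * Mm d l / ((l : ℝ) + 1) ^ 2 *
          (2 : ℝ) ^ (((l' : ℝ) - l) / 2) := by ring

end MPcd65c1
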