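import Mathlib
import Pool.Agent.Lib.MP_cd65c1_an.TDefs
import Pool.Agent.Lib.MP_cd65c1_an.TA

/-! TC: tails. -/

namespace MPcd65c1

open MeasureTheory

private theorem TC_one {ι : Type*} [Fintype ι] (v : ι → ℝ) (V t : ℝ) (hV : 0 < V)
    (hv : ∑ i, v i ^ 2 ≤ V) (ht : 0 ≤ t) :
    (gp ι) {γ | t < ∑ i, v i * γ i} ≤ ENNReal.ofReal (Real.exp (-(t ^ 2 / (2 * V)))) := by
  have := gp_prob ι
  set s : ℝ := t / V with hs
  have hs0 : 0 ≤ s := div_nonneg ht hV.le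
  have h1 : (fun γ : ι → ℝ => Real.exp (s * ∑ i, v i * γ i)) =
      fun γ => Real.exp (∑ i, (s * v i) * γ i) := by
    funext γ
    rw [Finset.mul_sum]
    simp only [mul_assoc]
  have h2 := gp_exp (fun i => s * v i)
  rw [← h1] at h2
  have h3 := ProbabilityTheory.measure_ge_le_exp_mul_mgf (μ := gp ι)
    (X := fun γ : ι → ℝ => ∑ i, v i * γ i) t hs0 h2.1
  have h4 : ProbabilityTheory.mgf (fun γ : ι → ℝ => ∑ i, v i * γ i) (gp ι) s =
      Real.exp ((∑ i, (s * v i) ^ 2) / 2) := h2.2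
  rw [h4, ← Real.exp_add] at h3
  have h5 : -s * t + (∑ i, (s * v i) ^ 2) / 2 ≤ -(t ^ 2 / (2 * V)) := by
    have h6 : ∑ i, (s * v i) ^ 2 = s ^ 2 * ∑ i, v i ^ 2 := by
      rw [Finset.mul_sum]
      simp only [mul_pow]
    have h7 : s ^ 2 * ∑ i, v i ^ 2 ≤ s ^ 2 * V := by gcongr
    have h8 : -s * t + s ^ 2 * V / 2 = -(t ^ 2 / (2 * V)) := by
      rw [hs]
      field_simp
      ring
    rw [h6]
    linarith
  have h6 : (gp ι) {γ | t < ∑ i, v i * γ i} ≤ (gp ι) {γ | t ≤ ∑ i, v i * γ i} := by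
    apply measure_mono
    intro γ hγ
    have hγ' : t < ∑ i, v i * γ i := hγ
    exact hγ'.le
  refine h6.trans ?_
  rw [← ENNReal.ofReal_toReal (measure_ne_top (gp ι) {γ | t ≤ ∑ i, v i * γ i})]
  apply ENNReal.ofReal_le_ofReal
  exact h3.trans (Real.exp_le_exp.2 h5)

/-- Chernoff: `P(v·γ ≥ t) ≤ e^{-st} e^{s²|v|²/2} ≤ e^{-st + s²V/2}`, `s = t/V`, and the same for `-v`. -/
theorem tail_lin {ι : Type*} [Fintype ι] (v : ι → ℝ) (V t : ℝ) (hV : 0 < V)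
    (hv : ∑ i, v i ^ 2 ≤ V) (ht : 0 ≤ t) :
    (gp ι) {γ | t < |∑ i, v i * γ i|} ≤ ENNReal.ofReal (2 * Real.exp (-(t ^ 2 / (2 * V)))) := by
  have h1 : {γ : ι → ℝ | t < |∑ i, v i * γ i|} ⊆
      {γ | t < ∑ i, v i * γ i} ∪ {γ | t < ∑ i, (-v i) * γ i} := by
    intro γ hγ
    have hγ' : t < |∑ i, v i * γ i| := hγ
    rcases lt_abs.1 hγ' with h | h
    · exact Or.inl h
    · right
      show t < ∑ i, (-v i) * γ i
      simpa only [neg_mul, Finset.sum_neg_distrib] using h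
  refine (measure_mono h1).trans ((measure_union_le _ _).trans ?_)
  have h2 := TC_one v V t hV hv ht
  have h3 := TC_one (fun i => -v i) V t hV (by simpa using hv) ht
  refine (add_le_add h2 h3).trans ?_
  rw [← ENNReal.ofReal_add (Real.exp_pos _).le (Real.exp_pos _).le]
  apply ENNReal.ofReal_le_ofReal
  linarith

/-- Markov with `gp_sq`. -/
theorem tail_sq_high {ι : Type*} [Fintype ι] [Nonempty ι] :
    (gp ι) {γ | 16 * (Fintype.card ι : ℝ) < ∑ i, γ i ^ 2} ≤ ENNReal.ofReal (1 / 16) := by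
  have := gp_prob ι
  obtain ⟨h1, h2⟩ := gp_sq (ι := ι)
  have hc : (0 : ℝ) < Fintype.card ι := by exact_mod_cast Fintype.card_pos
  have h3 := mul_meas_ge_le_integral_of_nonneg (μ := gp ι)
    (f := fun γ : ι → ℝ => ∑ i, γ i ^ 2)
    (Filter.Eventually.of_forall fun γ => Finset.sum_nonneg fun i _ => sq_nonneg (γ i)) h1
    (16 * (Fintype.card ι : ℝ))
  rw [h2] at h3
  have h4 : (gp ι) {γ | 16 * (Fintype.card ι : ℝ) < ∑ i, γ i ^ 2} ≤
      (gp ι) {γ | 16 * (Fintype.card ι : ℝ) ≤ ∑ i, γ i ^ 2} := by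
    apply measure_mono
    intro γ hγ
    have hγ' : 16 * (Fintype.card ι : ℝ) < ∑ i, γ i ^ 2 := hγ
    exact hγ'.le
  refine h4.trans ?_
  rw [← ENNReal.ofReal_toReal (measure_ne_top (gp ι)
    {γ | 16 * (Fintype.card ι : ℝ) ≤ ∑ i, γ i ^ 2})]
  apply ENNReal.ofReal_le_ofReal
  have h5 : 16 * (Fintype.card ι : ℝ) * ((gp ι) {γ | 16 * (Fintype.card ι : ℝ) ≤
      ∑ i, γ i ^ 2}).toReal ≤ Fintype.card ι := h3
  rw [le_div_iff₀ (by norm_num)]
  by_contra hcon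
  push Not at hcon
  nlinarith

/-- Markov for `exp(-|γ|²)`: `P(|γ|² < n/4) ≤ e^{n/4} 3^{-n/2} ≤ (3/4)^n ≤ 1/16` for `n ≥ 10`
(`e^{1/4}/√3 ≤ 3/4`: `e ≤ (9/4)^2 ... `, i.e. `e ≤ 9 (3/4)^4 = 2.847`). -/
theorem tail_sq_low {ι : Type*} [Fintype ι] (h : 10 ≤ Fintype.card ι) :
    (gp ι) {γ | ∑ i, γ i ^ 2 < (Fintype.card ι : ℝ) / 4} ≤ ENNReal.ofReal (1 / 16) := by
  have := gp_prob ι
  obtain ⟨h1, h2⟩ := gp_negsq (ι := ι)
  have h3 := mul_meas_ge_le_integral_of_nonneg (μ := gp ι)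
    (f := fun γ : ι → ℝ => Real.exp (-∑ i, γ i ^ 2))
    (Filter.Eventually.of_forall fun γ => (Real.exp_pos _).le) h1
    (Real.exp (-((Fintype.card ι : ℝ) / 4)))
  rw [h2] at h3
  have h4 : (gp ι) {γ | ∑ i, γ i ^ 2 < (Fintype.card ι : ℝ) / 4} ≤
      (gp ι) {γ | Real.exp (-((Fintype.card ι : ℝ) / 4)) ≤ Real.exp (-∑ i, γ i ^ 2)} := by
    apply measure_mono
    intro γ hγ
    have h5 : ∑ i, γ i ^ 2 < (Fintype.card ι : ℝ) / 4 := hγ
    exact Real.exp_le_exp.2 (by linarith)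
  refine h4.trans ?_
  rw [← ENNReal.ofReal_toReal (measure_ne_top (gp ι)
    {γ | Real.exp (-((Fintype.card ι : ℝ) / 4)) ≤ Real.exp (-∑ i, γ i ^ 2)})]
  apply ENNReal.ofReal_le_ofReal
  set n := Fintype.card ι with hn
  set P := ((gp ι) {γ | Real.exp (-((n : ℝ) / 4)) ≤ Real.exp (-∑ i, γ i ^ 2)}).toReal with hP
  have h5 : Real.exp (-((n : ℝ) / 4)) * P ≤ (1 / Real.sqrt 3) ^ n := h3
  have h6 : P ≤ (Real.exp (1 / 4) * (1 / Real.sqrt 3)) ^ n := by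
    have e1 : Real.exp ((n : ℝ) / 4) = Real.exp (1 / 4) ^ n := by
      rw [← Real.exp_nat_mul]
      congr 1
      ring
    have e2 : Real.exp ((n : ℝ) / 4) * Real.exp (-((n : ℝ) / 4)) = 1 := by
      rw [← Real.exp_add]
      simp
    rw [mul_pow, ← e1]
    calc P = Real.exp ((n : ℝ) / 4) * (Real.exp (-((n : ℝ) / 4)) * P) := by
          rw [← mul_assoc, e2, one_mul]
      _ ≤ _ := by gcongr
  have h7 : Real.exp (1 / 4) * (1 / Real.sqrt 3) ≤ 3 / 4 := by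
    have hq : 0 ≤ Real.exp (1 / 4) * (1 / Real.sqrt 3) := by positivity
    have e1 : (Real.exp (1 / 4) * (1 / Real.sqrt 3)) ^ 4 ≤ (3 / 4 : ℝ) ^ 4 := by
      have e2 : Real.exp (1 / 4) ^ 4 = Real.exp 1 := by
        rw [← Real.exp_nat_mul]
        norm_num
      have e3 : (1 / Real.sqrt 3) ^ 4 = 1 / 9 := by
        have e4 : Real.sqrt 3 ^ 4 = 9 := by
          have := Real.sq_sqrt (show (0 : ℝ) ≤ 3 by norm_num)
          calc Real.sqrt 3 ^ 4 = (Real.sqrt 3 ^ 2) ^ 2 := by ring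
            _ = 9 := by rw [this]; norm_num
        rw [div_pow, e4]
        norm_num
      rw [mul_pow, e2, e3]
      have := Real.exp_one_lt_d9
      norm_num
      linarith
    exact le_of_pow_le_pow_left₀ (by norm_num) (by norm_num) e1
  have h8 : (Real.exp (1 / 4) * (1 / Real.sqrt 3)) ^ n ≤ (3 / 4 : ℝ) ^ n :=
    pow_le_pow_left₀ (by positivity) h7 n
  have h9 : (3 / 4 : ℝ) ^ n ≤ (3 / 4 : ℝ) ^ 10 :=
    pow_le_pow_of_le_one (by norm_num) (by norm_num) h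
  have h10 : (3 / 4 : ℝ) ^ 10 ≤ 1 / 16 := by norm_num
  linarith

end MPcd65c1
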