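import Mathlib
import Pool.Agent.Lib.MP_cd65c1_an.TDefs
import Pool.Agent.Lib.MP_cd65c1_an.TC
import Pool.Agent.Lib.MP_cd65c1_an.TG

/-! TI: probability of the good set. -/

namespace MPcd65c1

open MeasureTheory Set

/-- Markov's inequality. -/
private theorem markov {Ω : Type*} [MeasurableSpace Ω] {μ : Measure Ω} [IsFiniteMeasure μ]
    {f : Ω → ℝ} (hf : Integrable f μ) (h0 : ∀ x, 0 ≤ f x) {X ε δ : ℝ} (hX : ∫ x, f x ∂μ ≤ X)
    (hε : 0 < ε) (hδ : X / ε ≤ δ) : μ {x | ε < f x} ≤ ENNReal.ofReal δ := by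
  have h1 := mul_meas_ge_le_integral_of_nonneg (Filter.Eventually.of_forall h0) hf ε
  have h2 : μ.real {x | ε ≤ f x} ≤ δ := by
    refine le_trans ?_ hδ
    rw [le_div_iff₀ hε, mul_comm]
    exact h1.trans hX
  have h3 : μ {x | ε < f x} ≤ μ {x | ε ≤ f x} := by
    refine measure_mono fun x hx => ?_
    rw [mem_ofPred_eq] at hx ⊢
    exact hx.le
  refine h3.trans ?_
  rw [← ENNReal.ofReal_toReal (measure_ne_top μ {x | ε ≤ f x})]
  exact ENNReal.ofReal_le_ofReal h2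

private theorem abs_sinh_le_cosh (y : ℝ) : |Real.sinh y| ≤ Real.cosh y := by
  rw [abs_le]
  have h1 := Real.exp_pos y
  have h2 := Real.exp_pos (-y)
  rw [Real.sinh_eq, Real.cosh_eq]
  constructor <;> linarith

private theorem abs_sinh_le_exp (y : ℝ) : |Real.sinh y| ≤ Real.exp |y| := by
  refine (abs_sinh_le_cosh y).trans ?_
  rw [← Real.cosh_abs, Real.cosh_eq]
  have h1 : Real.exp (-|y|) ≤ Real.exp |y| := Real.exp_le_exp.2 (by linarith [abs_nonneg y])
  linarith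

private theorem mg_cont {d l : ℕ} (a : ℝ) (u : CV d) :
    Continuous (fun q : (Ig d l → ℝ) × Td d => |mg a u q.1 q.2|) := by
  have hG := Gf_continuous (d := d) (l := l) u
  have : Continuous (fun q : (Ig d l → ℝ) × Td d => mg a u q.1 q.2) := by
    unfold mg
    exact (Real.continuous_sinh.comp (continuous_const.mul hG)).div_const _
  exact this.abs

private theorem mg_bound {d l : ℕ} {a : ℝ} (ha : 0 < a) {u : CV d} (hu : Uni u)
    (γ : Ig d l → ℝ) (x : Td d) :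
    |mg a u γ x| ≤ (a * Real.exp (a ^ 2 * NL d l / 2))⁻¹ * Real.exp ((2 * a) * ∑ i, |γ i|) := by
  have hD : 0 < a * Real.exp (a ^ 2 * NL d l / 2) := by positivity
  unfold mg
  rw [abs_div, abs_of_pos hD, div_eq_inv_mul]
  refine mul_le_mul_of_nonneg_left ?_ (by positivity)
  refine (abs_sinh_le_exp _).trans ?_
  rw [Real.exp_le_exp, abs_mul, abs_of_pos ha]
  calc a * |Gf u γ x| ≤ a * (2 * ∑ i, |γ i|) :=
        mul_le_mul_of_nonneg_left (abs_Gf_le hu γ x) ha.le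
    _ = 2 * a * ∑ i, |γ i| := by ring

private theorem mg_int {d l : ℕ} {a : ℝ} (ha : 0 < a) {u : CV d} (hu : Uni u) :
    Integrable (fun q : (Ig d l → ℝ) × Td d => |mg a u q.1 q.2|) ((gp (Ig d l)).prod (mu d)) := by
  have : IsProbabilityMeasure (gp (Ig d l)) := gp_prob _
  have h1 : Integrable (fun q : (Ig d l → ℝ) × Td d =>
      (a * Real.exp (a ^ 2 * NL d l / 2))⁻¹ * Real.exp ((2 * a) * ∑ i, |q.1 i|))
      ((gp (Ig d l)).prod (mu d)) :=
    ((gp_exp_abs (ι := Ig d l) (2 * a)).comp_fst (mu d)).const_mul _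
  refine h1.mono' (mg_cont a u).aestronglyMeasurable (Filter.Eventually.of_forall fun q => ?_)
  rw [Real.norm_eq_abs, abs_abs]
  exact mg_bound ha hu q.1 q.2

/-- `E ∫ |mg| ≤ 1/a` (`|sinh| ≤ cosh`, `gp_cosh`, `sum_fb_sq`), Markov. -/
theorem L1_tail {d l : ℕ} (hl : 1 ≤ l) {u : CV d} (hu : Uni u) (a : ℝ) (ha : 0 < a) :
    (gp (Ig d l)) {γ | 16 / a < ∫ x, |mg a u γ x| ∂(mu d)} ≤ ENNReal.ofReal (1 / 16) := by
  have : IsProbabilityMeasure (gp (Ig d l)) := gp_prob _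
  have hD : 0 < a * Real.exp (a ^ 2 * NL d l / 2) := by positivity
  have hint := mg_int (d := d) (l := l) ha hu
  have hF : Integrable (fun γ => ∫ x, |mg a u γ x| ∂(mu d)) (gp (Ig d l)) :=
    hint.integral_prod_left
  have hEq : (∫ γ, ∫ x, |mg a u γ x| ∂(mu d) ∂(gp (Ig d l))) =
      ∫ x, ∫ γ, |mg a u γ x| ∂(gp (Ig d l)) ∂(mu d) := integral_integral_swap hint
  have hx : ∀ x : Td d, ∫ γ, |mg a u γ x| ∂(gp (Ig d l)) ≤ 1 / a := by
    intro x
    obtain ⟨h1, h2⟩ := gp_cosh (fun i : Ig d l => a * fb u i x)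
    have e1 : ∀ γ : Ig d l → ℝ, (∑ i, (a * fb u i x) * γ i) = a * Gf u γ x := by
      intro γ
      unfold Gf
      rw [Finset.mul_sum]
      exact Finset.sum_congr rfl fun i _ => by ring
    have e2 : ∑ i : Ig d l, (a * fb u i x) ^ 2 = a ^ 2 * NL d l := by
      rw [← sum_fb_sq hl hu x, Finset.mul_sum]
      exact Finset.sum_congr rfl fun i _ => by ring
    simp only [e1, e2] at h1 h2
    have h3 : ∫ γ, |mg a u γ x| ∂(gp (Ig d l)) ≤
        ∫ γ, (a * Real.exp (a ^ 2 * NL d l / 2))⁻¹ * Real.cosh (a * Gf u γ x) ∂(gp (Ig d l)) := by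
      refine integral_mono_of_nonneg (Filter.Eventually.of_forall fun γ => abs_nonneg _)
        (h1.const_mul _) (Filter.Eventually.of_forall fun γ => ?_)
      simp only
      unfold mg
      rw [abs_div, abs_of_pos hD, div_eq_inv_mul]
      exact mul_le_mul_of_nonneg_left (abs_sinh_le_cosh _) (by positivity)
    refine h3.trans (le_of_eq ?_)
    rw [integral_const_mul, h2]
    have h4 : Real.exp (a ^ 2 * NL d l / 2) ≠ 0 := (Real.exp_pos _).ne'
    field_simp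
  have hX : (∫ γ, ∫ x, |mg a u γ x| ∂(mu d) ∂(gp (Ig d l))) ≤ 1 / a := by
    rw [hEq]
    calc ∫ x, ∫ γ, |mg a u γ x| ∂(gp (Ig d l)) ∂(mu d) ≤ ∫ _x : Td d, 1 / a ∂(mu d) :=
          integral_mono_of_nonneg
            (Filter.Eventually.of_forall fun x => integral_nonneg fun γ => abs_nonneg _)
            (integrable_const _) (Filter.Eventually.of_forall hx)
      _ = 1 / a := by simp
  refine markov hF (fun γ => integral_nonneg fun x => abs_nonneg _) hX (by positivity) ?_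
  rw [div_div_div_cancel_right₀ ha.ne']

private theorem geom_bound {q : ℝ} (h0 : 0 ≤ q) (h1 : q ≤ 92 / 100) (n : ℕ) :
    ∑ j ∈ Finset.range n, q ^ j ≤ 25 / 2 := by
  have h2 : ∀ n : ℕ, (∑ j ∈ Finset.range n, q ^ j) * (1 - q) = 1 - q ^ n := by
    intro n
    induction n with
    | zero => simp
    | succ n ih =>
      rw [Finset.sum_range_succ, add_mul, ih, pow_succ]
      ring
  have h3 := h2 n
  have h4 : 0 ≤ q ^ n := pow_nonneg h0 n
  have h5 : 0 ≤ ∑ j ∈ Finset.range n, q ^ j := Finset.sum_nonneg fun j _ => pow_nonneg h0 j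
  nlinarith

/-- `∑_{l'} 2^{-|l'-l|/8} ≤ 32` -/
theorem sum_weights (l : ℕ) : ∀ L : ℕ,
    ∑ l' ∈ Finset.range L, (2 : ℝ) ^ (-(|(l' : ℝ) - l| / 8)) ≤ 32 := by
  set q : ℝ := (2 : ℝ) ^ (-(1 / 8) : ℝ) with hq
  have hq0 : 0 < q := by positivity
  have hq8 : q ^ 8 = 1 / 2 := by
    rw [hq, ← Real.rpow_natCast, ← Real.rpow_mul (by norm_num)]
    norm_num
  have hq1 : q ≤ 92 / 100 := by
    by_contra hcon
    push Not at hcon
    have h1 : (92 / 100 : ℝ) ^ 8 ≤ q ^ 8 := pow_le_pow_left₀ (by norm_num) hcon.le 8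
    rw [hq8] at h1
    norm_num at h1
  have hpow : ∀ (j : ℕ) (t : ℝ), |t| = j → (2 : ℝ) ^ (-(|t| / 8)) = q ^ j := by
    intro j t ht
    rw [ht, hq, ← Real.rpow_natCast, ← Real.rpow_mul (by norm_num)]
    congr 1
    ring
  have hfirst : ∑ l' ∈ Finset.range (l + 1), (2 : ℝ) ^ (-(|(l' : ℝ) - l| / 8)) ≤ 25 / 2 := by
    have h1 : ∑ l' ∈ Finset.range (l + 1), (2 : ℝ) ^ (-(|(l' : ℝ) - l| / 8)) =
        ∑ l' ∈ Finset.range (l + 1), q ^ (l + 1 - 1 - l') := by
      refine Finset.sum_congr rfl fun l' hl' => ?_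
      have h2 : l' ≤ l := by
        have := Finset.mem_range.1 hl'
        omega
      apply hpow
      rw [abs_sub_comm, abs_of_nonneg (by
        have : (l' : ℝ) ≤ l := by exact_mod_cast h2
        linarith), Nat.add_sub_cancel, Nat.cast_sub h2]
    rw [h1, Finset.sum_range_reflect (fun j => q ^ j) (l + 1)]
    exact geom_bound hq0.le hq1 _
  intro L
  rcases le_total L (l + 1) with hL | hL
  · have h1 : ∑ l' ∈ Finset.range L, (2 : ℝ) ^ (-(|(l' : ℝ) - l| / 8)) ≤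
        ∑ l' ∈ Finset.range (l + 1), (2 : ℝ) ^ (-(|(l' : ℝ) - l| / 8)) := by
      refine Finset.sum_le_sum_of_subset_of_nonneg (Finset.range_mono hL) fun i _ _ => ?_
      positivity
    linarith
  · obtain ⟨m, rfl⟩ := Nat.exists_eq_add_of_le hL
    rw [Finset.sum_range_add]
    have h1 : ∑ x ∈ Finset.range m, (2 : ℝ) ^ (-(|((l + 1 + x : ℕ) : ℝ) - l| / 8)) =
        q * ∑ x ∈ Finset.range m, q ^ x := by
      rw [Finset.mul_sum]
      refine Finset.sum_congr rfl fun x _ => ?_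
      rw [hpow (x + 1), pow_succ]
      · ring
      · push_cast
        rw [abs_of_nonneg (by
          have : (0 : ℝ) ≤ x := Nat.cast_nonneg x
          linarith)]
        ring
    rw [h1]
    have h2 := geom_bound hq0.le hq1 m
    have h3 : 0 ≤ ∑ x ∈ Finset.range m, q ^ x := Finset.sum_nonneg fun j _ => pow_nonneg hq0.le j
    nlinarith

private theorem vl_nonneg {d l : ℕ} (a : ℝ) (u : CV d) (γ : Ig d l → ℝ) (l' : ℕ) :
    0 ≤ vl a u γ l' := by
  unfold vl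
  exact Finset.sum_nonneg fun k _ => sq_nonneg _

/-- Markov for each `l'` and the union bound over `l' ∈ ℕ` (`measure_iUnion_le`):
`P(vl l' > 512 C1 X 2^{(l'-l)/2 + |l'-l|/8}) ≤ 2^{-|l'-l|/8}/512`, sum `≤ 32/512 = 1/16`. -/
theorem vl_tail {d l : ℕ} (hl : 1 ≤ l) {u : CV d} (hu : Uni u) (a : ℝ) (ha : 0 < a) (X : ℝ)
    (hX : 0 < X) (hE : ∀ l' : ℕ, ∫ γ, vl (l := l) a u γ l' ∂(gp (Ig d l))
      ≤ X * (2 : ℝ) ^ (((l' : ℝ) - l) / 2)) :
    (gp (Ig d l)) {γ | ¬ ∀ l', vl a u γ l' ≤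
      512 * X * (2 : ℝ) ^ (((l' : ℝ) - l) / 2 + |(l' : ℝ) - l| / 8)} ≤ ENNReal.ofReal (1 / 16) := by
  have : IsProbabilityMeasure (gp (Ig d l)) := gp_prob _
  have hsub : {γ : Ig d l → ℝ | ¬ ∀ l', vl a u γ l' ≤
      512 * X * (2 : ℝ) ^ (((l' : ℝ) - l) / 2 + |(l' : ℝ) - l| / 8)} ⊆
      ⋃ l' : ℕ, {γ : Ig d l → ℝ |
        512 * X * (2 : ℝ) ^ (((l' : ℝ) - l) / 2 + |(l' : ℝ) - l| / 8) < vl a u γ l'} := by
    intro γ hγ
    rw [mem_ofPred_eq] at hγ
    push Not at hγ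
    exact mem_iUnion.2 hγ
  have hone : ∀ l' : ℕ, (gp (Ig d l)) {γ : Ig d l → ℝ |
      512 * X * (2 : ℝ) ^ (((l' : ℝ) - l) / 2 + |(l' : ℝ) - l| / 8) < vl a u γ l'} ≤
      ENNReal.ofReal ((2 : ℝ) ^ (-(|(l' : ℝ) - l| / 8)) / 512) := by
    intro l'
    refine markov (E_vl hl hu a ha l').1 (fun γ => vl_nonneg a u γ l') (hE l') (by positivity) ?_
    rw [Real.rpow_add (by norm_num), Real.rpow_neg (by norm_num)]
    have h1 : (0 : ℝ) < (2 : ℝ) ^ (((l' : ℝ) - l) / 2) := by positivity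
    have h2 : (0 : ℝ) < (2 : ℝ) ^ (|(l' : ℝ) - l| / 8) := by positivity
    apply le_of_eq
    field_simp
  refine (measure_mono hsub).trans ((measure_iUnion_le _).trans ?_)
  refine (ENNReal.tsum_le_tsum hone).trans ?_
  refine ENNReal.tsum_le_of_sum_range_le fun n => ?_
  rw [← ENNReal.ofReal_sum_of_nonneg fun i _ => by positivity]
  apply ENNReal.ofReal_le_ofReal
  rw [← Finset.sum_div, div_le_iff₀ (by norm_num)]
  exact (sum_weights l n).trans (by norm_num)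

/-- The good set has (outer) measure at least `1/2`: six bad sets of measure `≤ 1/16`
(`card_Ig` for the last two). -/
theorem good_half {d l : ℕ} (hl : 1 ≤ l) (hN : 10 ≤ NL d l) {u : CV d} (hu : Uni u) (a : ℝ)
    (ha : 0 < a) (C : ℝ) (hC : 0 < C)
    (hE : ∀ (v : CV d), Uni v → ∀ l' : ℕ, ∫ γ, vl (l := l) a v γ l' ∂(gp (Ig d l))
      ≤ C * Mm d l / ((l : ℝ) + 1) ^ 2 * (2 : ℝ) ^ (((l' : ℝ) - l) / 2)) :
    ENNReal.ofReal (1 / 2) ≤ (gp (Ig d l)) {γ | Good (512 * C) a u γ} := by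
  have : IsProbabilityMeasure (gp (Ig d l)) := gp_prob _
  have hcard := card_Ig (d := d) hl
  have hcard10 : 10 ≤ Fintype.card (Ig d l) := by
    have h1 : (10 : ℝ) ≤ (Fintype.card (Ig d l) : ℝ) := by
      rw [hcard]
      exact hN
    exact_mod_cast h1
  have hne : Nonempty (Ig d l) := Fintype.card_pos_iff.1 (by omega)
  have hX : 0 < C * Mm d l / ((l : ℝ) + 1) ^ 2 := by
    unfold Mm
    positivity
  have b1 := L1_tail hl (uni_one (d := d)) a ha
  have b2 := L1_tail hl hu a ha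
  have b3 := vl_tail hl (uni_one (d := d)) a ha _ hX (hE 1 uni_one)
  have b4 := vl_tail hl hu a ha _ hX (hE u hu)
  have b5 := tail_sq_low (ι := Ig d l) hcard10
  have b6 := tail_sq_high (ι := Ig d l)
  rw [hcard] at b5 b6
  set B1 := {γ : Ig d l → ℝ | 16 / a < ∫ x, |mg a 1 γ x| ∂(mu d)} with hB1
  set B2 := {γ : Ig d l → ℝ | 16 / a < ∫ x, |mg a u γ x| ∂(mu d)} with hB2
  set B3 := {γ : Ig d l → ℝ | ¬ ∀ l', vl a 1 γ l' ≤ 512 * (C * Mm d l / ((l : ℝ) + 1) ^ 2) *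
    (2 : ℝ) ^ (((l' : ℝ) - l) / 2 + |(l' : ℝ) - l| / 8)} with hB3
  set B4 := {γ : Ig d l → ℝ | ¬ ∀ l', vl a u γ l' ≤ 512 * (C * Mm d l / ((l : ℝ) + 1) ^ 2) *
    (2 : ℝ) ^ (((l' : ℝ) - l) / 2 + |(l' : ℝ) - l| / 8)} with hB4
  set B5 := {γ : Ig d l → ℝ | ∑ i, γ i ^ 2 < NL d l / 4} with hB5
  set B6 := {γ : Ig d l → ℝ | 16 * NL d l < ∑ i, γ i ^ 2} with hB6
  have hcover : (univ : Set (Ig d l → ℝ)) ⊆
      {γ | Good (512 * C) a u γ} ∪ (B1 ∪ (B2 ∪ (B3 ∪ (B4 ∪ (B5 ∪ B6))))) := by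
    intro γ _
    by_cases h1 : γ ∈ B1
    · exact Or.inr (Or.inl h1)
    by_cases h2 : γ ∈ B2
    · exact Or.inr (Or.inr (Or.inl h2))
    by_cases h3 : γ ∈ B3
    · exact Or.inr (Or.inr (Or.inr (Or.inl h3)))
    by_cases h4 : γ ∈ B4
    · exact Or.inr (Or.inr (Or.inr (Or.inr (Or.inl h4))))
    by_cases h5 : γ ∈ B5
    · exact Or.inr (Or.inr (Or.inr (Or.inr (Or.inr (Or.inl h5)))))
    by_cases h6 : γ ∈ B6
    · exact Or.inr (Or.inr (Or.inr (Or.inr (Or.inr (Or.inr h6)))))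
    refine Or.inl ⟨not_lt.1 h1, not_lt.1 h2, ?_, ?_, not_lt.1 h5, not_lt.1 h6⟩
    · intro l'
      have h := not_not.1 h3 l'
      refine h.trans (le_of_eq ?_)
      ring
    · intro l'
      have h := not_not.1 h4 l'
      refine h.trans (le_of_eq ?_)
      ring
  by_contra hcon
  push Not at hcon
  set e : ENNReal := ENNReal.ofReal (1 / 16) with he
  have hsum : (1 : ENNReal) ≤ (gp (Ig d l)) {γ | Good (512 * C) a u γ} +
      (e + (e + (e + (e + (e + e))))) := by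
    calc (1 : ENNReal) = (gp (Ig d l)) univ := measure_univ.symm
      _ ≤ (gp (Ig d l)) ({γ | Good (512 * C) a u γ} ∪ (B1 ∪ (B2 ∪ (B3 ∪ (B4 ∪ (B5 ∪ B6)))))) :=
          measure_mono hcover
      _ ≤ _ := by
          refine (measure_union_le _ _).trans (add_le_add le_rfl ?_)
          refine (measure_union_le _ _).trans (add_le_add b1 ?_)
          refine (measure_union_le _ _).trans (add_le_add b2 ?_)
          refine (measure_union_le _ _).trans (add_le_add b3 ?_)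
          refine (measure_union_le _ _).trans (add_le_add b4 ?_)
          exact (measure_union_le _ _).trans (add_le_add b5 b6)
  have h6 : e + (e + (e + (e + (e + e)))) = ENNReal.ofReal (3 / 8) := by
    rw [he]
    rw [← ENNReal.ofReal_add (by norm_num) (by norm_num), ← ENNReal.ofReal_add (by norm_num)
      (by norm_num), ← ENNReal.ofReal_add (by norm_num) (by norm_num), ← ENNReal.ofReal_add
      (by norm_num) (by norm_num), ← ENNReal.ofReal_add (by norm_num) (by norm_num)]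
    norm_num
  rw [h6] at hsum
  have h7 : (1 : ENNReal) < ENNReal.ofReal (1 / 2) + ENNReal.ofReal (3 / 8) :=
    lt_of_le_of_lt hsum (ENNReal.add_lt_add_right ENNReal.ofReal_ne_top hcon)
  rw [← ENNReal.ofReal_add (by norm_num) (by norm_num), ← ENNReal.ofReal_one,
    ENNReal.ofReal_lt_ofReal_iff (by norm_num)] at h7
  norm_num at h7

end MPcd65c1
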