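import Mathlib
import Pool.Agent.Lib.MP_cd65c1_an.TDefs
import Pool.Agent.Lib.MP_cd65c1_an.TC

/-! TJ: greedy choice of almost orthogonal good samples. -/

namespace MPcd65c1

open MeasureTheory Set

/-- One step: a good sample almost orthogonal to finitely many good samples. -/
private theorem greedy_step {ι : Type*} [Fintype ι] (w : ι → ℝ) (W n : ℝ) (hn : 0 < n)
    (hW : 1 ≤ W) (hw1 : ∀ i, 1 ≤ w i) (hw2 : ∀ i, w i ≤ W) (G : Set (ι → ℝ))
    (h2 : ∀ γ ∈ G, ∑ i, γ i ^ 2 ≤ 16 * n)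
    (hP : ENNReal.ofReal (1 / 2) ≤ (gp ι) G) (F : Finset (ι → ℝ)) (hF : ∀ γ ∈ F, γ ∈ G)
    (hc : (F.card : ℝ) < Real.exp (n / (8192 * W ^ 2)) / 8) :
    ∃ γ ∈ G, ∀ γ' ∈ F, |∑ i, w i * γ i * γ' i| ≤ n / 16 := by
  by_contra hcon
  push Not at hcon
  set E : ℝ := Real.exp (n / (8192 * W ^ 2)) with hE
  have hE0 : 0 < E := Real.exp_pos _
  have hsub : G ⊆ ⋃ γ' ∈ F, {γ : ι → ℝ | n / 16 < |∑ i, (w i * γ' i) * γ i|} := by
    intro γ hγ
    obtain ⟨γ', hγ', h3⟩ := hcon γ hγ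
    simp only [mem_iUnion, mem_ofPred_eq, exists_prop]
    refine ⟨γ', hγ', ?_⟩
    have h4 : (∑ i, (w i * γ' i) * γ i) = ∑ i, w i * γ i * γ' i :=
      Finset.sum_congr rfl fun i _ => by ring
    rw [h4]
    exact h3
  have hone : ∀ γ' ∈ F, (gp ι) {γ : ι → ℝ | n / 16 < |∑ i, (w i * γ' i) * γ i|} ≤
      ENNReal.ofReal (2 / E) := by
    intro γ' hγ'
    have hV : 0 < 16 * W ^ 2 * n := by positivity
    have h3 : ∑ i, (w i * γ' i) ^ 2 ≤ 16 * W ^ 2 * n := by
      calc ∑ i, (w i * γ' i) ^ 2 ≤ ∑ i, W ^ 2 * γ' i ^ 2 := by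
            refine Finset.sum_le_sum fun i _ => ?_
            rw [mul_pow]
            have h4 : w i ^ 2 ≤ W ^ 2 :=
              pow_le_pow_left₀ (le_trans zero_le_one (hw1 i)) (hw2 i) 2
            exact mul_le_mul_of_nonneg_right h4 (sq_nonneg _)
        _ = W ^ 2 * ∑ i, γ' i ^ 2 := by rw [Finset.mul_sum]
        _ ≤ W ^ 2 * (16 * n) := by
            exact mul_le_mul_of_nonneg_left (h2 γ' (hF γ' hγ')) (sq_nonneg _)
        _ = 16 * W ^ 2 * n := by ring
    have h5 := tail_lin (fun i => w i * γ' i) (16 * W ^ 2 * n) (n / 16) hV h3 (by positivity)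
    refine h5.trans (ENNReal.ofReal_le_ofReal (le_of_eq ?_))
    have hW0 : W ≠ 0 := by positivity
    have h6 : -((n / 16) ^ 2 / (2 * (16 * W ^ 2 * n))) = -(n / (8192 * W ^ 2)) := by
      field_simp
      ring
    rw [h6, Real.exp_neg, ← hE, div_eq_mul_inv]
  have hbig : (gp ι) G ≤ ENNReal.ofReal (1 / 4) := by
    calc (gp ι) G ≤ (gp ι) (⋃ γ' ∈ F, {γ : ι → ℝ | n / 16 < |∑ i, (w i * γ' i) * γ i|}) :=
          measure_mono hsub
      _ ≤ ∑ γ' ∈ F, (gp ι) {γ : ι → ℝ | n / 16 < |∑ i, (w i * γ' i) * γ i|} :=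
          measure_biUnion_finset_le _ _
      _ ≤ ∑ _γ' ∈ F, ENNReal.ofReal (2 / E) := Finset.sum_le_sum hone
      _ = ENNReal.ofReal (F.card * (2 / E)) := by
          rw [Finset.sum_const, nsmul_eq_mul, ENNReal.ofReal_mul (Nat.cast_nonneg _),
            ENNReal.ofReal_natCast]
      _ ≤ ENNReal.ofReal (1 / 4) := by
          apply ENNReal.ofReal_le_ofReal
          rw [mul_div_assoc', div_le_iff₀ hE0]
          linarith
  have h7 : ENNReal.ofReal (1 / 2) ≤ ENNReal.ofReal (1 / 4) := hP.trans hbig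
  rw [ENNReal.ofReal_le_ofReal_iff (by norm_num)] at h7
  norm_num at h7

/-- Greedy. For a good `γ'` the bad set `{γ | n/16 < |∑ w_i γ_i γ'_i|}` has measure
`≤ 2 exp(-n/(8192 W²))` (`tail_lin` with `v_i = w_i γ'_i`, `V = 16 W² n`). As long as
`#F · 2 exp(-n/(8192W²)) < 1/2` the union of the bad sets does not cover `G`, so one can add an
element; it is new because `∑ w γ² ≥ n/4 > n/16`. Induction on the size: for every `m` with
`m ≤ exp(n/(8192 W²))/8 + 1` there is such an `F` with `m` elements. -/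
theorem greedy {ι : Type*} [Fintype ι] (w : ι → ℝ) (W n : ℝ) (hn : 0 < n)
    (hw1 : ∀ i, 1 ≤ w i) (hw2 : ∀ i, w i ≤ W) (G : Set (ι → ℝ))
    (h1 : ∀ γ ∈ G, n / 4 ≤ ∑ i, γ i ^ 2) (h2 : ∀ γ ∈ G, ∑ i, γ i ^ 2 ≤ 16 * n)
    (hP : ENNReal.ofReal (1 / 2) ≤ (gp ι) G) :
    ∃ F : Finset (ι → ℝ), (∀ γ ∈ F, γ ∈ G) ∧
      Real.exp (n / (8192 * W ^ 2)) / 8 ≤ (F.card : ℝ) ∧
      ∀ γ ∈ F, ∀ γ' ∈ F, γ ≠ γ' → |∑ i, w i * γ i * γ' i| ≤ n / 16 := by
  classical
  -- the index set is nonempty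
  have hGne : G.Nonempty := by
    by_contra hcon
    rw [not_nonempty_iff_eq_empty] at hcon
    rw [hcon, measure_empty] at hP
    have : (0 : ℝ) < 1 / 2 := by norm_num
    exact absurd hP (not_le.2 (ENNReal.ofReal_pos.2 this))
  have hW : 1 ≤ W := by
    obtain ⟨γ, hγ⟩ := hGne
    have h3 := h1 γ hγ
    have h4 : Nonempty ι := by
      by_contra hcon
      rw [not_nonempty_iff] at hcon
      rw [Finset.univ_eq_empty, Finset.sum_empty] at h3
      linarith
    obtain ⟨i⟩ := h4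
    exact (hw1 i).trans (hw2 i)
  have key : ∀ m : ℕ, (m : ℝ) < Real.exp (n / (8192 * W ^ 2)) / 8 + 1 →
      ∃ F : Finset (ι → ℝ), (∀ γ ∈ F, γ ∈ G) ∧ F.card = m ∧
        ∀ γ ∈ F, ∀ γ' ∈ F, γ ≠ γ' → |∑ i, w i * γ i * γ' i| ≤ n / 16 := by
    intro m
    induction m with
    | zero =>
      intro _
      exact ⟨∅, by simp, by simp, by simp⟩
    | succ m ih =>
      intro hm
      rw [Nat.cast_succ] at hm
      obtain ⟨F, hF, hcard, hort⟩ := ih (by linarith)
      obtain ⟨γ, hγ, hγF⟩ := greedy_step w W n hn hW hw1 hw2 G h2 hP F hF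
        (by rw [hcard]; linarith)
      have hnot : γ ∉ F := by
        intro hin
        have h3 := hγF γ hin
        have h4 : ∑ i, γ i ^ 2 ≤ ∑ i, w i * γ i * γ i := by
          refine Finset.sum_le_sum fun i _ => ?_
          have h5 := mul_le_mul_of_nonneg_right (hw1 i) (sq_nonneg (γ i))
          nlinarith [h5]
        have h6 := h1 γ hγ
        have h7 := le_abs_self (∑ i, w i * γ i * γ i)
        linarith
      have hsymm : ∀ γ' : ι → ℝ, (∑ i, w i * γ' i * γ i) = ∑ i, w i * γ i * γ' i := fun γ' =>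
        Finset.sum_congr rfl fun i _ => by ring
      refine ⟨insert γ F, ?_, ?_, ?_⟩
      · intro δ hδ
        rcases Finset.mem_insert.1 hδ with rfl | h
        · exact hγ
        · exact hF δ h
      · rw [Finset.card_insert_of_notMem hnot, hcard]
      · intro δ hδ δ' hδ' hne
        rcases Finset.mem_insert.1 hδ with rfl | h
        · rcases Finset.mem_insert.1 hδ' with rfl | h'
          · exact absurd rfl hne
          · exact hγF δ' h'
        · rcases Finset.mem_insert.1 hδ' with rfl | h'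
          · rw [hsymm]
            exact hγF δ h
          · exact hort δ h δ' h' hne
  obtain ⟨F, hF, hcard, hort⟩ := key ⌈Real.exp (n / (8192 * W ^ 2)) / 8⌉₊
    (Nat.ceil_lt_add_one (by positivity))
  refine ⟨F, hF, ?_, hort⟩
  rw [hcard]
  exact Nat.le_ceil _

end MPcd65c1
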