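import Mathlib
import Pool.Agent.Lib.MP_cd65c1_an.TDefs
import Pool.Agent.Lib.MP_cd65c1_an.H1
import Pool.Agent.Lib.MP_cd65c1_an.ACount

/-! TK: covering of Euclidean balls, pigeonhole over several levels, number of cells. -/

namespace MPcd65c1

open MeasureTheory

open MeasureTheory Metric in
/-- Packing: separated points in a ball. -/
private theorem pack_aux {E : Type} [NormedAddCommGroup E] [NormedSpace ℝ E] [FiniteDimensional ℝ E]
    (S : Finset E) {R r : ℝ} (hr : 0 < r) (hR0 : 0 ≤ R) (hR : ∀ s ∈ S, ‖s‖ ≤ R)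
    (hsep : ∀ s ∈ S, ∀ s' ∈ S, s ≠ s' → r ≤ ‖s - s'‖) :
    (S.card : ℝ) * r ^ (Module.finrank ℝ E) ≤ (2 * R + r) ^ (Module.finrank ℝ E) := by
  borelize E
  let μ : Measure E := Measure.addHaar
  set d := Module.finrank ℝ E with hd
  have hδ : 0 < r / 2 := by positivity
  have hρ : 0 < R + r / 2 := by positivity
  have D : Set.Pairwise (S : Set E) (Function.onFun Disjoint fun c => ball (c : E) (r / 2)) := by
    rintro c hc e he hce
    apply ball_disjoint_ball
    rw [dist_eq_norm]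
    have := hsep c hc e he hce
    linarith
  have A_subset : (⋃ c ∈ S, ball (c : E) (r / 2)) ⊆ ball 0 (R + r / 2) := by
    refine Set.iUnion₂_subset fun x hx => ?_
    apply ball_subset_ball'
    have := hR x hx
    rw [dist_eq_norm, sub_zero]
    linarith
  have I1 : (S.card : ENNReal) * ENNReal.ofReal ((r / 2) ^ d) * μ (ball 0 1) ≤
      ENNReal.ofReal ((R + r / 2) ^ d) * μ (ball 0 1) := by
    calc
      (S.card : ENNReal) * ENNReal.ofReal ((r / 2) ^ d) * μ (ball 0 1)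
          = μ (⋃ c ∈ S, ball (c : E) (r / 2)) := by
        rw [measure_biUnion_finset D fun c _ => measurableSet_ball]
        simp only [μ.addHaar_ball_of_pos _ hδ, Finset.sum_const, nsmul_eq_mul, mul_assoc, hd]
      _ ≤ μ (ball 0 (R + r / 2)) := measure_mono A_subset
      _ = ENNReal.ofReal ((R + r / 2) ^ d) * μ (ball 0 1) := by
        simp only [μ.addHaar_ball_of_pos _ hρ, hd]
  have h0 : μ (ball (0 : E) 1) ≠ 0 := (measure_ball_pos _ _ zero_lt_one).ne'
  have h1 : μ (ball (0 : E) 1) ≠ ⊤ := measure_ball_lt_top.ne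
  have J : (S.card : ENNReal) * ENNReal.ofReal ((r / 2) ^ d) ≤
      ENNReal.ofReal ((R + r / 2) ^ d) := by
    have := (ENNReal.mul_le_mul_iff_left h0 h1).1 I1
    exact this
  have K : (S.card : ℝ) * (r / 2) ^ d ≤ (R + r / 2) ^ d := by
    have h2 : (S.card : ENNReal) * ENNReal.ofReal ((r / 2) ^ d) =
        ENNReal.ofReal ((S.card : ℝ) * (r / 2) ^ d) := by
      rw [ENNReal.ofReal_mul (by positivity)]
      simp
    rw [h2] at J
    exact (ENNReal.ofReal_le_ofReal_iff (by positivity)).1 J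
  have e1 : r ^ d = (r / 2) ^ d * 2 ^ d := by rw [← mul_pow]; congr 1; ring
  have e2 : (2 * R + r) ^ d = (R + r / 2) ^ d * 2 ^ d := by rw [← mul_pow]; congr 1; ring
  rw [e1, e2, ← mul_assoc]
  exact mul_le_mul_of_nonneg_right K (by positivity)

/-- the vector of the coordinates in `L` -/
private noncomputable def emb {d : ℕ} (L : Finset (Fin d → ℤ)) (c : CV d) : EuclideanSpace ℂ L :=
  WithLp.toLp 2 (fun k : L => c k)

private theorem l2_emb {d : ℕ} (L : Finset (Fin d → ℤ)) (c : CV d) : l2 L c = ‖emb L c‖ := by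
  rw [EuclideanSpace.norm_eq, l2]
  congr 1
  exact (Finset.sum_coe_sort L (fun k => ‖c k‖ ^ 2)).symm

private theorem emb_sub {d : ℕ} (L : Finset (Fin d → ℤ)) (c e : CV d) :
    emb L (c - e) = emb L c - emb L e := rfl

private theorem sn_l2' {d : ℕ} (L : Finset (Fin d → ℤ)) : Sn (l2 L) where
  add x y := by
    rw [l2_emb, l2_emb, l2_emb]
    have : emb L (x + y) = emb L x + emb L y := rfl
    rw [this]
    exact norm_add_le _ _
  smul t x := by
    rw [l2_emb, l2_emb]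
    have : emb L (t • x) = t • emb L x := rfl
    rw [this, norm_smul, Real.norm_eq_abs]

/-- Volumetric covering in the real space `ℂ^L` of dimension `2 #L`: a maximal `ρ/2`-separated subset
of the ball of radius `R` has at most `(1 + 4R/ρ)^{2#L}` elements (disjoint balls of radius `ρ/4`
inside the ball of radius `R + ρ/4`, `Measure.addHaar_ball`). -/
theorem euclid_cover {d : ℕ} (L : Finset (Fin d → ℤ)) (R ρ : ℝ) (hR : 0 ≤ R) (hρ : 0 < ρ) :
    Cov (l2 L) {c : CV d | l2 L c ≤ R} ((1 + 4 * R / ρ) ^ (2 * L.card)) (ρ / 2) := by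
  classical
  refine Cov.of_separated (sn_l2' L) (by positivity) ?_
  intro S hS hsep
  have hinj : Set.InjOn (emb L) (S : Set (CV d)) := by
    intro x hx y hy hxy
    by_contra hne
    have h1 := hsep x hx y hy hne
    rw [l2_emb, emb_sub, hxy, sub_self, norm_zero] at h1
    linarith
  have hfr : Module.finrank ℝ (EuclideanSpace ℂ L) = 2 * L.card := by
    rw [finrank_real_of_complex, finrank_euclideanSpace, Fintype.card_coe]
  have h1 := pack_aux (S.image (emb L)) (R := R) (r := ρ / 2) (by positivity) hR (by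
    intro s hs
    obtain ⟨x, hx, rfl⟩ := Finset.mem_image.mp hs
    rw [← l2_emb]
    exact hS x hx) (by
    intro s hs s' hs' hne
    obtain ⟨x, hx, rfl⟩ := Finset.mem_image.mp hs
    obtain ⟨y, hy, rfl⟩ := Finset.mem_image.mp hs'
    have hxy : x ≠ y := fun h => hne (by rw [h])
    have h2 := hsep x hx y hy hxy
    rw [l2_emb, emb_sub] at h2
    exact h2.le)
  rw [Finset.card_image_of_injOn hinj, hfr] at h1
  have h2 : (2 * R + ρ / 2) ^ (2 * L.card) = (1 + 4 * R / ρ) ^ (2 * L.card) * (ρ / 2) ^ (2 * L.card) := by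
    rw [← mul_pow]
    congr 1
    field_simp
    ring
  rw [h2] at h1
  exact le_of_mul_le_mul_right h1 (by positivity)

/-- Pigeonhole over a finite set of levels, induction on `J`: cover each ball, split `F` into cells,
keep the largest class; two vectors in the same cell differ by at most `ρ/2 + ρ/2`. -/
theorem pigeon_levels {d : ℕ} {α : Type*} [DecidableEq α] (F : Finset α) (J : Finset ℕ)
    (a : ℕ → α → CV d)
    (L : ℕ → Finset (Fin d → ℤ)) (R ρ : ℕ → ℝ) (hR : ∀ j ∈ J, 0 ≤ R j) (hρ : ∀ j ∈ J, 0 < ρ j)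
    (ha : ∀ j ∈ J, ∀ x ∈ F, l2 (L j) (a j x) ≤ R j) :
    ∃ F' : Finset α, F' ⊆ F ∧
      (F.card : ℝ) ≤ F'.card * ∏ j ∈ J, (1 + 4 * R j / ρ j) ^ (2 * (L j).card) ∧
      ∀ x ∈ F', ∀ y ∈ F', ∀ j ∈ J, l2 (L j) (a j x - a j y) ≤ ρ j := by
  classical
  induction J using Finset.induction_on with
  | empty => exact ⟨F, Finset.Subset.refl _, by simp, by simp⟩
  | insert j J hj ih =>
    obtain ⟨F₀, hF₀, hcard, hF₀d⟩ := ih (fun i hi => hR i (Finset.mem_insert_of_mem hi))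
      (fun i hi => hρ i (Finset.mem_insert_of_mem hi))
      (fun i hi => ha i (Finset.mem_insert_of_mem hi))
    have hjm := Finset.mem_insert_self j J
    have hpos : ∀ i ∈ insert j J, (0 : ℝ) ≤ (1 + 4 * R i / ρ i) ^ (2 * (L i).card) := by
      intro i hi
      have h1 := hR i hi
      have h2 := hρ i hi
      positivity
    rcases F₀.eq_empty_or_nonempty with rfl | hne
    · refine ⟨∅, Finset.empty_subset _, ?_, by simp⟩
      simpa using hcard
    obtain ⟨Y, hY, hcov⟩ := euclid_cover (L j) (R j) (ρ j) (hR j hjm) (hρ j hjm)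
    have h1 : ∀ x ∈ F₀, ∃ y ∈ Y, l2 (L j) (a j x - y) ≤ ρ j / 2 := by
      intro x hx
      exact hcov _ (ha j hjm x (hF₀ hx))
    choose! φ hφ hφd using h1
    have hYne : Y.Nonempty := by
      obtain ⟨x, hx⟩ := hne
      exact ⟨φ x, hφ x hx⟩
    obtain ⟨y₀, hy₀, hmax⟩ := Y.exists_max_image (fun y => (F₀.filter (fun x => φ x = y)).card) hYne
    refine ⟨F₀.filter (fun x => φ x = y₀), (Finset.filter_subset _ _).trans hF₀, ?_, ?_⟩
    · have h2 : F₀.card ≤ Y.card * (F₀.filter (fun x => φ x = y₀)).card := by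
        rw [Finset.card_eq_sum_card_fiberwise (f := φ) (t := Y) (fun x hx => hφ x hx)]
        calc ∑ b ∈ Y, (F₀.filter (fun x => φ x = b)).card ≤
            ∑ _b ∈ Y, (F₀.filter (fun x => φ x = y₀)).card := Finset.sum_le_sum fun b hb => hmax b hb
          _ = _ := by rw [Finset.sum_const, smul_eq_mul]
      have h3 : (F₀.card : ℝ) ≤ (F₀.filter (fun x => φ x = y₀)).card *
          (1 + 4 * R j / ρ j) ^ (2 * (L j).card) := by
        calc (F₀.card : ℝ) ≤ (Y.card : ℝ) * (F₀.filter (fun x => φ x = y₀)).card := by exact_mod_cast h2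
          _ ≤ (1 + 4 * R j / ρ j) ^ (2 * (L j).card) * (F₀.filter (fun x => φ x = y₀)).card :=
            mul_le_mul_of_nonneg_right hY (by positivity)
          _ = _ := mul_comm _ _
      rw [Finset.prod_insert hj, ← mul_assoc]
      refine hcard.trans (mul_le_mul_of_nonneg_right h3 ?_)
      exact Finset.prod_nonneg fun i hi => hpos i (Finset.mem_insert_of_mem hi)
    · intro x hx y hy i hi
      rw [Finset.mem_filter] at hx hy
      rcases Finset.mem_insert.mp hi with rfl | hi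
      · have h4 := (sn_l2' (L i)).sub_le' (a i x) y₀ (a i y)
        have h5 := hφd x hx.1
        have h6 := hφd y hy.1
        rw [hx.2] at h5
        rw [hy.2, (sn_l2' (L i)).sub_comm] at h6
        linarith
      · exact hF₀d x hx.1 y hy.1 i hi

private theorem tail_sum (C l : ℕ) :
    ∑ j ∈ Finset.Ioc C l, ((j : ℝ) + 1) * (2 : ℝ)⁻¹ ^ j ≤ ((C : ℝ) + 3) * (2 : ℝ)⁻¹ ^ C := by
  rcases Nat.lt_or_ge l C with h | h
  · rw [Finset.Ioc_eq_empty_of_le h.le, Finset.sum_empty]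
    positivity
  have key : ∀ m : ℕ, ∑ j ∈ Finset.Ioc C (C + m), ((j : ℝ) + 1) * (2 : ℝ)⁻¹ ^ j =
      ((C : ℝ) + 3) * (2 : ℝ)⁻¹ ^ C - (((C + m : ℕ) : ℝ) + 3) * (2 : ℝ)⁻¹ ^ (C + m) := by
    intro m
    induction m with
    | zero => simp
    | succ m ih =>
      rw [← Nat.add_assoc, Finset.sum_Ioc_succ_top (by omega), ih, pow_succ]
      push_cast
      ring
  obtain ⟨m, rfl⟩ := Nat.exists_eq_add_of_le h
  rw [key]
  have : (0 : ℝ) ≤ (((C + m : ℕ) : ℝ) + 3) * (2 : ℝ)⁻¹ ^ (C + m) := by positivity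
  linarith

private theorem exists_tail (K c1 : ℝ) (hc : 0 < c1) :
    ∃ C : ℕ, K * (((C : ℝ) + 3) * (2 : ℝ)⁻¹ ^ C) ≤ c1 := by
  have h1 : Filter.Tendsto (fun n : ℕ => (n : ℝ) * (2 : ℝ)⁻¹ ^ n) Filter.atTop (nhds 0) :=
    tendsto_self_mul_const_pow_of_lt_one (by norm_num) (by norm_num)
  have h2 : Filter.Tendsto (fun n : ℕ => (2 : ℝ)⁻¹ ^ n) Filter.atTop (nhds 0) :=
    tendsto_pow_atTop_nhds_zero_of_lt_one (by norm_num) (by norm_num)
  have h3 : Filter.Tendsto (fun n : ℕ => K * ((n : ℝ) * (2 : ℝ)⁻¹ ^ n + 3 * (2 : ℝ)⁻¹ ^ n))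
      Filter.atTop (nhds (K * (0 + 3 * 0))) := (h1.add (h2.const_mul 3)).const_mul K
  rw [mul_zero, add_zero, mul_zero] at h3
  obtain ⟨C, hC⟩ := (h3.eventually (gt_mem_nhds hc)).exists
  refine ⟨C, ?_⟩
  have h4 : K * (((C : ℝ) + 3) * (2 : ℝ)⁻¹ ^ C) = K * ((C : ℝ) * (2 : ℝ)⁻¹ ^ C + 3 * (2 : ℝ)⁻¹ ^ C) := by
    ring
  rw [h4]
  exact hC.le

/-- The number of cells: `#Lam(l-j) ≤ 2^{-j} Mm`, `log(1 + 4A 2^{(r+1)j}/δ) ≤ C(A,δ,r) (j+1)`,
`∑_{j>C0} 2^{-j} (j+1) → 0`. -/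
theorem cells (d : ℕ) (hd : 1 ≤ d) (r A δ c1 : ℝ) (hr : 0 ≤ r) (hA : 0 < A) (hδ : 0 < δ)
    (hc : 0 < c1) : ∃ C0 : ℕ, ∀ l : ℕ,
    ∏ j ∈ Finset.Ioc C0 l, (1 + 4 * A * (2 : ℝ) ^ ((r + 1) * j) / δ) ^ (2 * (Lam d (l - j)).card)
      ≤ Real.exp (c1 * Mm d l) := by
  set K : ℝ := Real.log (1 + 4 * A / δ) + (r + 1) * Real.log 2 with hK
  have hlog1 : 0 ≤ Real.log (1 + 4 * A / δ) := Real.log_nonneg (by
    have : 0 < 4 * A / δ := by positivity
    linarith)
  have hlog2 : 0 ≤ Real.log 2 := Real.log_nonneg (by norm_num)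
  have hK0 : 0 ≤ K := by positivity
  obtain ⟨C0, hC0⟩ := exists_tail (2 * K) c1 hc
  refine ⟨C0, fun l => ?_⟩
  have hbase : ∀ j : ℕ, 1 + 4 * A * (2 : ℝ) ^ ((r + 1) * j) / δ ≤ Real.exp (K * (j + 1)) := by
    intro j
    have h1 : (1 : ℝ) ≤ (2 : ℝ) ^ ((r + 1) * j) := Real.one_le_rpow (by norm_num) (by positivity)
    have h2 : 1 + 4 * A * (2 : ℝ) ^ ((r + 1) * j) / δ ≤ (1 + 4 * A / δ) * (2 : ℝ) ^ ((r + 1) * j) := by
      have : 4 * A * (2 : ℝ) ^ ((r + 1) * j) / δ = 4 * A / δ * (2 : ℝ) ^ ((r + 1) * j) := by ring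
      rw [this]
      generalize (2 : ℝ) ^ ((r + 1) * j) = X at h1 ⊢
      have h0 : (1 + 4 * A / δ) * X = X + 4 * A / δ * X := by ring
      rw [h0]
      exact add_le_add h1 le_rfl
    have h3 : (1 + 4 * A / δ) * (2 : ℝ) ^ ((r + 1) * j) =
        Real.exp (Real.log (1 + 4 * A / δ) + (r + 1) * j * Real.log 2) := by
      rw [Real.exp_add, Real.exp_log (by positivity), Real.rpow_def_of_pos (by norm_num)]
      congr 2
      ring
    rw [h3] at h2
    refine h2.trans (Real.exp_le_exp.mpr ?_)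
    rw [hK]
    have h4 : 0 ≤ Real.log (1 + 4 * A / δ) * j := by positivity
    have h5 : 0 ≤ (r + 1) * Real.log 2 := by positivity
    nlinarith
  have hcard : ∀ j ∈ Finset.Ioc C0 l, ((Lam d (l - j)).card : ℝ) ≤ (2 : ℝ)⁻¹ ^ j * Mm d l := by
    intro j hj
    rw [Finset.mem_Ioc] at hj
    rw [card_Lam, Mm]
    have h1 : ((Finset.Nat.antidiagonalTuple d (l - j)).card : ℝ) ≤ ((l : ℝ) + 1) ^ (d - 1) := by
      calc ((Finset.Nat.antidiagonalTuple d (l - j)).card : ℝ) ≤ (((l - j + 1) ^ (d - 1) : ℕ) : ℝ) := by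
            exact_mod_cast card_adt_le d (l - j) hd
        _ ≤ (((l + 1) ^ (d - 1) : ℕ) : ℝ) := by
            exact_mod_cast Nat.pow_le_pow_left (by omega) _
        _ = _ := by push_cast; rfl
    have h2 : (2 : ℝ) ^ l = 2 ^ (l - j) * 2 ^ j := by
      rw [← pow_add]
      congr 1
      omega
    push_cast
    rw [h2]
    have h3 : (2 : ℝ)⁻¹ ^ j * ((2 : ℝ) ^ (l - j) * 2 ^ j * ((l : ℝ) + 1) ^ (d - 1)) =
        2 ^ (l - j) * ((l : ℝ) + 1) ^ (d - 1) := by
      have h4 : (2 : ℝ)⁻¹ ^ j * 2 ^ j = 1 := by rw [← mul_pow]; norm_num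
      calc (2 : ℝ)⁻¹ ^ j * ((2 : ℝ) ^ (l - j) * 2 ^ j * ((l : ℝ) + 1) ^ (d - 1)) =
          ((2 : ℝ)⁻¹ ^ j * 2 ^ j) * (2 ^ (l - j) * ((l : ℝ) + 1) ^ (d - 1)) := by ring
        _ = _ := by rw [h4, one_mul]
    rw [h3]
    exact mul_le_mul_of_nonneg_left h1 (by positivity)
  have hM : 0 ≤ Mm d l := (Mm_pos d l).le
  calc ∏ j ∈ Finset.Ioc C0 l, (1 + 4 * A * (2 : ℝ) ^ ((r + 1) * j) / δ) ^ (2 * (Lam d (l - j)).card)
      ≤ ∏ j ∈ Finset.Ioc C0 l, Real.exp (Mm d l * (2 * K) * (((j : ℝ) + 1) * (2 : ℝ)⁻¹ ^ j)) := by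
        refine Finset.prod_le_prod (fun j _ => by positivity) fun j hj => ?_
        calc (1 + 4 * A * (2 : ℝ) ^ ((r + 1) * j) / δ) ^ (2 * (Lam d (l - j)).card)
            ≤ (Real.exp (K * (j + 1))) ^ (2 * (Lam d (l - j)).card) :=
              pow_le_pow_left₀ (by positivity) (hbase j) _
          _ = Real.exp (((2 * (Lam d (l - j)).card : ℕ) : ℝ) * (K * (j + 1))) := by
              rw [Real.exp_nat_mul]
          _ ≤ _ := by
              apply Real.exp_le_exp.mpr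
              push_cast
              have h5 := hcard j hj
              have h6 : 0 ≤ K * ((j : ℝ) + 1) := by positivity
              calc 2 * ((Lam d (l - j)).card : ℝ) * (K * (j + 1)) ≤
                  2 * ((2 : ℝ)⁻¹ ^ j * Mm d l) * (K * (j + 1)) := by
                    refine mul_le_mul_of_nonneg_right ?_ h6
                    linarith
                _ = _ := by ring
    _ = Real.exp (Mm d l * (2 * K) * ∑ j ∈ Finset.Ioc C0 l, (((j : ℝ) + 1) * (2 : ℝ)⁻¹ ^ j)) := by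
        rw [← Real.exp_sum, Finset.mul_sum]
    _ ≤ Real.exp (c1 * Mm d l) := by
        apply Real.exp_le_exp.mpr
        calc Mm d l * (2 * K) * ∑ j ∈ Finset.Ioc C0 l, (((j : ℝ) + 1) * (2 : ℝ)⁻¹ ^ j) ≤
            Mm d l * (2 * K) * (((C0 : ℝ) + 3) * (2 : ℝ)⁻¹ ^ C0) :=
              mul_le_mul_of_nonneg_left (tail_sum C0 l) (by positivity)
          _ = Mm d l * (2 * K * (((C0 : ℝ) + 3) * (2 : ℝ)⁻¹ ^ C0)) := by ring
          _ ≤ Mm d l * c1 := mul_le_mul_of_nonneg_left hC0 hM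
          _ = _ := mul_comm _ _

end MPcd65c1
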