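import Mathlib
import Pool.Agent.Lib.MP_cd65c1_an.TDefs
import Pool.Agent.Lib.MP_cd65c1_an.TD

/-! TE: Fourier coefficients of the field. -/

namespace MPcd65c1

open MeasureTheory

/-- Fourier coefficients of characters. Use the definitional equality of `mu d` with the volume of
`Mathlib/Analysis/Fourier/AddCircleMulti` (`UnitAddTorus.orthonormal_mFourier`) or the product
formula and `orthonormal_fourier`. -/
theorem cf_mFourier {d : ℕ} (m k : Fin d → ℤ) :
    cf (fun x => (UnitAddTorus.mFourier m x : ℂ)) k = if m = k then 1 else 0 := by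
  have h := (orthonormal_iff_ite.mp (UnitAddTorus.orthonormal_mFourier (d := Fin d))) k m
  have h2 : cf (fun x => (UnitAddTorus.mFourier m x : ℂ)) k =
      inner ℂ (UnitAddTorus.mFourierLp (d := Fin d) 2 k) (UnitAddTorus.mFourierLp 2 m) := by
    rw [ContinuousMap.inner_toLp]
    unfold cf
    refine integral_congr_ae (Filter.Eventually.of_forall fun x => ?_)
    simp only []
    rw [UnitAddTorus.mFourier_neg, mul_comm]
  rw [h2, h]
  by_cases hk : m = k
  · rw [if_pos hk, if_pos hk.symm]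
  · rw [if_neg hk, if_neg fun h => hk h.symm]

private theorem integrable_cont {d : ℕ} {f : Td d → ℂ} (hf : Continuous f) :
    Integrable f (mu d) :=
  hf.integrable_of_hasCompactSupport (HasCompactSupport.of_compactSpace f)

private theorem te_cf_add {d : ℕ} {f g : Td d → ℂ} (hf : Continuous f) (hg : Continuous g)
    (k : Fin d → ℤ) : cf (fun x => f x + g x) k = cf f k + cf g k := by
  unfold cf
  rw [← integral_add]
  · refine integral_congr_ae (Filter.Eventually.of_forall fun x => ?_)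
    simp only [mul_add]
  · exact integrable_cont ((UnitAddTorus.mFourier (-k)).continuous.mul hf)
  · exact integrable_cont ((UnitAddTorus.mFourier (-k)).continuous.mul hg)

private theorem te_cf_sum {d : ℕ} {ι : Type*} (s : Finset ι) {f : ι → Td d → ℂ}
    (hf : ∀ i ∈ s, Continuous (f i)) (k : Fin d → ℤ) :
    cf (fun x => ∑ i ∈ s, f i x) k = ∑ i ∈ s, cf (f i) k := by
  unfold cf
  rw [← integral_finset_sum]
  · refine integral_congr_ae (Filter.Eventually.of_forall fun x => ?_)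
    simp only [Finset.mul_sum]
  · intro i hi
    exact integrable_cont ((UnitAddTorus.mFourier (-k)).continuous.mul (hf i hi))

private theorem cf_const_mul {d : ℕ} (c : ℂ) (f : Td d → ℂ)
    (k : Fin d → ℤ) : cf (fun x => c * f x) k = c * cf f k := by
  unfold cf
  rw [← integral_const_mul]
  refine integral_congr_ae (Filter.Eventually.of_forall fun x => ?_)
  simp only []
  ring

open Classical in
/-- half coefficients -/
private noncomputable def cc {d l : ℕ} (u : CV d) (γ : Ig d l → ℝ) (k : Fin d → ℤ) : ℂ :=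
  if hk : k ∈ Hf d l then
    u k * (((γ (⟨k, hk⟩, true) : ℂ) - γ (⟨k, hk⟩, false) * Complex.I) / (Real.sqrt 2 : ℂ))
  else 0

private theorem cc_pos {d l : ℕ} (u : CV d) (γ : Ig d l → ℝ) {k : Fin d → ℤ} (hk : k ∈ Hf d l) :
    cc u γ k =
      u k * (((γ (⟨k, hk⟩, true) : ℂ) - γ (⟨k, hk⟩, false) * Complex.I) / (Real.sqrt 2 : ℂ)) := by
  unfold cc
  rw [dif_pos hk]

private theorem cc_neg {d l : ℕ} (u : CV d) (γ : Ig d l → ℝ) {k : Fin d → ℤ} (hk : k ∉ Hf d l) :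
    cc u γ k = 0 := by
  unfold cc
  rw [dif_neg hk]

private theorem te_mem_Hf {d l : ℕ} {k : Fin d → ℤ} :
    k ∈ Hf d l ↔ k ∈ Lam d l ∧ toLex (-k) < toLex k := by
  classical
  unfold Hf
  rw [Finset.mem_filter]

private theorem neg_notMem_Hf {d l : ℕ} {k : Fin d → ℤ} (hk : k ∈ Hf d l) : -k ∉ Hf d l := by
  intro h
  have h1 := (te_mem_Hf.mp hk).2
  have h2 := (te_mem_Hf.mp h).2
  rw [neg_neg] at h2
  exact lt_asymm h1 h2

private theorem sqrt_two_mul (z : ℂ) : (Real.sqrt 2 : ℂ) * z = 2 * z / (Real.sqrt 2 : ℂ) := by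
  have h0 : (Real.sqrt 2 : ℂ) ≠ 0 := by
    exact_mod_cast (Real.sqrt_pos.mpr (by norm_num : (0 : ℝ) < 2)).ne'
  have h2 : (Real.sqrt 2 : ℂ) * (Real.sqrt 2 : ℂ) = 2 := by
    have := Real.mul_self_sqrt (by norm_num : (0 : ℝ) ≤ 2)
    exact_mod_cast this
  rw [eq_div_iff h0]
  linear_combination z * h2

private theorem Gf_eq {d l : ℕ} (u : CV d) (γ : Ig d l → ℝ) (x : Td d) :
    ((Gf u γ x : ℝ) : ℂ) = ∑ k ∈ Hf d l, (cc u γ k * (UnitAddTorus.mFourier k x : ℂ) +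
      starRingEnd ℂ (cc u γ k) * (UnitAddTorus.mFourier (-k) x : ℂ)) := by
  unfold Gf
  rw [Fintype.sum_prod_type, Complex.ofReal_sum, ← Finset.sum_coe_sort (Hf d l)]
  refine Finset.sum_congr rfl fun k _ => ?_
  rw [Fintype.sum_bool, cc_pos u γ k.2, UnitAddTorus.mFourier_neg]
  unfold fb
  simp only [if_true, Bool.false_eq_true, if_false]
  have hre : ∀ w : ℂ, ((w.re : ℝ) : ℂ) = (w + starRingEnd ℂ w) / 2 := fun w => by
    rw [Complex.re_eq_add_conj]
  have him : ∀ w : ℂ, ((w.im : ℝ) : ℂ) = (w - starRingEnd ℂ w) / (2 * Complex.I) := fun w => by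
    rw [Complex.im_eq_sub_conj]
  have hI : Complex.I ≠ 0 := Complex.I_ne_zero
  have hI2 : Complex.I * Complex.I = -1 := Complex.I_mul_I
  have h0 : (Real.sqrt 2 : ℂ) ≠ 0 := by
    exact_mod_cast (Real.sqrt_pos.mpr (by norm_num : (0 : ℝ) < 2)).ne'
  push_cast
  rw [hre, him, sqrt_two_mul, sqrt_two_mul]
  simp only [map_mul, map_div₀, map_sub, Complex.conj_ofReal, Complex.conj_I]
  set e : ℂ := (UnitAddTorus.mFourier (k : Fin d → ℤ) x : ℂ)
  set U : ℂ := u (k : Fin d → ℤ)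
  generalize (starRingEnd ℂ) U = U'
  generalize (starRingEnd ℂ) e = e'
  generalize ((γ (k, true) : ℝ) : ℂ) = a
  have hb : ∀ b : ℂ, b * (2 * ((U * e - U' * e') / (2 * Complex.I)) / (Real.sqrt 2 : ℂ)) =
      -(b * Complex.I) * (U * e - U' * e') / (Real.sqrt 2 : ℂ) := by
    intro b
    field_simp
    linear_combination (b * (U * e - U' * e')) * hI2
  rw [hb]
  field_simp
  ring

private theorem cfr_Gf {d l : ℕ} (u : CV d) (γ : Ig d l → ℝ) (k : Fin d → ℤ) :
    cfr (Gf u γ) k = cc u γ k + starRingEnd ℂ (cc u γ (-k)) := by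
  classical
  have h1 : cfr (Gf u γ) k = cf (fun x => ∑ m ∈ Hf d l,
      (cc u γ m * (UnitAddTorus.mFourier m x : ℂ) +
      starRingEnd ℂ (cc u γ m) * (UnitAddTorus.mFourier (-m) x : ℂ))) k := by
    unfold cfr
    exact congrArg (fun F => cf F k) (funext fun x => Gf_eq u γ x)
  rw [h1, te_cf_sum]
  · have h2 : ∀ m ∈ Hf d l, cf (fun x => cc u γ m * (UnitAddTorus.mFourier m x : ℂ) +
        starRingEnd ℂ (cc u γ m) * (UnitAddTorus.mFourier (-m) x : ℂ)) k =
        (if m = k then cc u γ m else 0) + (if m = -k then starRingEnd ℂ (cc u γ m) else 0) := by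
      intro m _
      rw [te_cf_add (f := fun x => cc u γ m * (UnitAddTorus.mFourier m x : ℂ))
        (g := fun x => starRingEnd ℂ (cc u γ m) * (UnitAddTorus.mFourier (-m) x : ℂ))
        (continuous_const.mul (UnitAddTorus.mFourier m).continuous)
        (continuous_const.mul (UnitAddTorus.mFourier (-m)).continuous), cf_const_mul,
        cf_const_mul, cf_mFourier, cf_mFourier, mul_ite, mul_one, mul_zero, mul_ite, mul_one,
        mul_zero]
      have h3 : (-m = k) ↔ (m = -k) := neg_eq_iff_eq_neg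
      simp only [h3]
    rw [Finset.sum_congr rfl h2, Finset.sum_add_distrib, Finset.sum_ite_eq', Finset.sum_ite_eq']
    by_cases hk : k ∈ Hf d l <;> by_cases hk' : -k ∈ Hf d l
    · rw [if_pos hk, if_pos hk']
    · rw [if_pos hk, if_neg hk', cc_neg u γ hk', map_zero]
    · rw [if_neg hk, if_pos hk', cc_neg u γ hk]
    · rw [if_neg hk, if_neg hk', cc_neg u γ hk, cc_neg u γ hk', map_zero]
  · intro m _
    exact (continuous_const.mul (UnitAddTorus.mFourier m).continuous).add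
      (continuous_const.mul (UnitAddTorus.mFourier (-m)).continuous)

/-- `√2 (a Re(u e_k) + b Im(u e_k)) = (1/√2) ((a - ib) u e_k + (a + ib) ū e_{-k})`. -/
theorem cfr_Gf_half {d l : ℕ} (hl : 1 ≤ l) {u : CV d} (hu : Uni u) (γ : Ig d l → ℝ)
    (k : Fin d → ℤ) (hk : k ∈ Hf d l) :
    cfr (Gf u γ) k = u k * (((γ (⟨k, hk⟩, true) : ℂ) - γ (⟨k, hk⟩, false) * Complex.I) /
      (Real.sqrt 2 : ℂ)) := by
  rw [cfr_Gf, cc_neg u γ (neg_notMem_Hf hk), map_zero, add_zero, cc_pos u γ hk]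

/-- real functions -/
theorem cfr_neg {d : ℕ} (f : Td d → ℝ) (k : Fin d → ℤ) :
    cfr f (-k) = starRingEnd ℂ (cfr f k) := by
  unfold cfr cf
  rw [← integral_conj]
  refine integral_congr_ae (Filter.Eventually.of_forall fun x => ?_)
  simp only [map_mul, Complex.conj_ofReal]
  rw [← UnitAddTorus.mFourier_neg]

theorem cfr_Gf_off {d l : ℕ} (u : CV d) (γ : Ig d l → ℝ) (k : Fin d → ℤ) (hk : k ∉ Lam d l) :
    cfr (Gf u γ) k = 0 := by
  have h1 : k ∉ Hf d l := fun h => hk (te_mem_Hf.mp h).1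
  have h2 : -k ∉ Hf d l := fun h => hk (neg_mem_Lam.mp (te_mem_Hf.mp h).1)
  rw [cfr_Gf, cc_neg u γ h1, cc_neg u γ h2, map_zero, add_zero]

private theorem cc_mul {d l : ℕ} (u : CV d) (γ : Ig d l → ℝ) (k : Fin d → ℤ) :
    cc u γ k = u k * cc 1 γ k := by
  by_cases hk : k ∈ Hf d l
  · rw [cc_pos u γ hk, cc_pos 1 γ hk, Pi.one_apply, one_mul]
  · rw [cc_neg u γ hk, cc_neg 1 γ hk, mul_zero]

theorem cfr_Gf_mul {d l : ℕ} (hl : 1 ≤ l) {u : CV d} (hu : Uni u) (γ : Ig d l → ℝ)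
    (k : Fin d → ℤ) : cfr (Gf u γ) k = u k * cfr (Gf 1 γ) k := by
  rw [cfr_Gf, cfr_Gf, cc_mul, cc_mul u γ (-k), map_mul, ← hu.2 (-k), neg_neg, mul_add]

private theorem cfr_one_mul_conj {d l : ℕ} (γ γ' : Ig d l → ℝ) (k : Fin d → ℤ)
    (hk : k ∈ Hf d l) :
    cc 1 γ k * starRingEnd ℂ (cc 1 γ' k) + starRingEnd ℂ (cc 1 γ k) * cc 1 γ' k =
      ((γ (⟨k, hk⟩, true) * γ' (⟨k, hk⟩, true) + γ (⟨k, hk⟩, false) * γ' (⟨k, hk⟩, false) : ℝ) : ℂ)
      := by
  have h0 : (Real.sqrt 2 : ℂ) ≠ 0 := by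
    exact_mod_cast (Real.sqrt_pos.mpr (by norm_num : (0 : ℝ) < 2)).ne'
  have h2 : (Real.sqrt 2 : ℂ) * (Real.sqrt 2 : ℂ) = 2 := by
    have := Real.mul_self_sqrt (by norm_num : (0 : ℝ) ≤ 2)
    exact_mod_cast this
  have hI2 : Complex.I * Complex.I = -1 := Complex.I_mul_I
  rw [cc_pos 1 γ hk, cc_pos 1 γ' hk]
  simp only [Pi.one_apply, one_mul, map_div₀, map_sub, map_mul, Complex.conj_ofReal,
    Complex.conj_I]
  push_cast
  generalize ((γ (⟨k, hk⟩, true) : ℝ) : ℂ) = a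
  generalize ((γ (⟨k, hk⟩, false) : ℝ) : ℂ) = b
  generalize ((γ' (⟨k, hk⟩, true) : ℝ) : ℂ) = a'
  generalize ((γ' (⟨k, hk⟩, false) : ℝ) : ℂ) = b'
  rw [div_mul_div_comm, div_mul_div_comm, ← add_div, h2, div_eq_iff (by norm_num)]
  linear_combination (-2 * b * b') * hI2

/-- `∑_{Lam} w_k G^(k) conj G'^(k) = ∑_i w_i γ_i γ'_i` for real even weights: for `k ∈ Hf` the two
terms `k`, `-k` are conjugate, their sum is `w_k (γ_1 γ'_1 + γ_2 γ'_2)`. -/
theorem energy {d l : ℕ} (hl : 1 ≤ l) (w : (Fin d → ℤ) → ℝ) (hw : ∀ k, w (-k) = w k)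
    (γ γ' : Ig d l → ℝ) :
    ∑ k ∈ Lam d l, (w k : ℂ) * (cfr (Gf 1 γ) k * starRingEnd ℂ (cfr (Gf 1 γ') k))
      = ((∑ i, w i.1.1 * γ i * γ' i : ℝ) : ℂ) := by
  rw [sum_Lam_half hl, Fintype.sum_prod_type, Complex.ofReal_sum, ← Finset.sum_coe_sort (Hf d l)]
  refine Finset.sum_congr rfl fun k _ => ?_
  rw [Fintype.sum_bool, cfr_neg, cfr_neg, cfr_Gf, cfr_Gf, cc_neg 1 γ (neg_notMem_Hf k.2),
    cc_neg 1 γ' (neg_notMem_Hf k.2), map_zero, add_zero, add_zero, hw, Complex.conj_conj,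
    ← mul_add, cfr_one_mul_conj γ γ' k k.2]
  push_cast
  ring

/-- `∑_{Lam} |G^(k)|^2 = |γ|^2` for both fields. -/
theorem energy_sq {d l : ℕ} (hl : 1 ≤ l) {u : CV d} (hu : Uni u) (γ : Ig d l → ℝ) :
    ∑ k ∈ Lam d l, ‖cfr (Gf u γ) k‖ ^ 2 = ∑ i, γ i ^ 2 := by
  have h1 := energy hl (fun _ => 1) (fun _ => rfl) γ γ
  have h2 : ∀ k ∈ Lam d l, ‖cfr (Gf u γ) k‖ ^ 2 = ‖cfr (Gf 1 γ) k‖ ^ 2 := by
    intro k _
    rw [cfr_Gf_mul hl hu, norm_mul, hu.1, one_mul]
  rw [Finset.sum_congr rfl h2]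
  apply Complex.ofReal_injective
  have h3 : ∑ i, γ i ^ 2 = ∑ i, (1 : ℝ) * γ i * γ i :=
    Finset.sum_congr rfl fun i _ => by ring
  rw [h3, ← h1, Complex.ofReal_sum]
  refine Finset.sum_congr rfl fun k _ => ?_
  rw [Complex.ofReal_one, one_mul, Complex.mul_conj, Complex.normSq_eq_norm_sq]

end MPcd65c1
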