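import Mathlib
import Pool.Agent.Lib.MP_cd65c1_an.TDefs
import Pool.Agent.Lib.MP_cd65c1_an.TD
import Pool.Agent.Lib.MP_cd65c1_an.TE

/-! TN: the deterministic separation inequality. -/

namespace MPcd65c1

open MeasureTheory

private lemma disj_Lam {d : ℕ} : ∀ i j : ℕ, i ≠ j → Disjoint (Lam d i) (Lam d j) := by
  intro i j hij
  rw [Finset.disjoint_left]
  intro k hi hj
  exact hij ((mem_Lam'.mp hi).symm.trans (mem_Lam'.mp hj))

/-- The finite sets `⋃_{l' < L} Lam d l'` are cofinal, so the partial sums over them converge to `s`;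
`s - ∑_{Lam l} F` is the limit of the sums over the other levels. -/
theorem level_sum {d : ℕ} {F : (Fin d → ℤ) → ℂ} {s : ℂ} (hF : HasSum F s) (l : ℕ) (B : ℝ)
    (hB : ∀ L : ℕ, ‖∑ l' ∈ (Finset.range L).erase l, ∑ k ∈ Lam d l', F k‖ ≤ B) :
    ‖s - ∑ k ∈ Lam d l, F k‖ ≤ B := by
  classical
  have hmono : Monotone (fun L : ℕ => (Finset.range L).biUnion (Lam d)) := by
    intro a b hab
    exact Finset.biUnion_subset_biUnion_of_subset_left _ (Finset.range_mono hab)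
  have hcof : ∀ k : Fin d → ℤ, ∃ L : ℕ, k ∈ (Finset.range L).biUnion (Lam d) := by
    intro k
    refine ⟨lev k + 1, Finset.mem_biUnion.mpr ⟨lev k, by simp, mem_Lam'.mpr rfl⟩⟩
  have htend := Filter.tendsto_atTop_finset_of_monotone hmono hcof
  have hlim : Filter.Tendsto (fun L : ℕ => ∑ k ∈ (Finset.range L).biUnion (Lam d), F k)
      Filter.atTop (nhds s) := hF.comp htend
  have hlim2 : Filter.Tendsto
      (fun L : ℕ => ‖(∑ k ∈ (Finset.range L).biUnion (Lam d), F k) - ∑ k ∈ Lam d l, F k‖)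
      Filter.atTop (nhds ‖s - ∑ k ∈ Lam d l, F k‖) := (hlim.sub_const _).norm
  refine le_of_tendsto hlim2 ?_
  filter_upwards [Filter.eventually_gt_atTop l] with L hL
  have h1 : ∑ k ∈ (Finset.range L).biUnion (Lam d), F k
      = ∑ l' ∈ Finset.range L, ∑ k ∈ Lam d l', F k :=
    Finset.sum_biUnion (fun i _ j _ hij => disj_Lam i j hij)
  rw [h1, ← Finset.add_sum_erase _ _ (Finset.mem_range.mpr hL), add_sub_cancel_left]
  exact hB L

private lemma cont_mg {d l : ℕ} (a : ℝ) (u : CV d) (γ : Ig d l → ℝ) :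
    Continuous (fun x => mg a u γ x) := by
  have h1 : Continuous (fun x : Td d => Gf u γ x) :=
    (Gf_continuous (l := l) u).comp (continuous_const.prodMk continuous_id)
  unfold mg
  exact (Real.continuous_sinh.comp (continuous_const.mul h1)).div_const _

private lemma cont_Gf {d l : ℕ} (u : CV d) (γ : Ig d l → ℝ) :
    Continuous (fun x : Td d => Gf u γ x) :=
  (Gf_continuous (l := l) u).comp (continuous_const.prodMk continuous_id)

private lemma cfr_sub' {d : ℕ} (f g : Td d → ℝ) (hf : Continuous f) (hg : Continuous g)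
    (k : Fin d → ℤ) : cfr (fun x => f x - g x) k = cfr f k - cfr g k := by
  have key : ∀ h : Td d → ℝ, Continuous h →
      Integrable (fun x => (UnitAddTorus.mFourier (-k) x : ℂ) * ((h x : ℝ) : ℂ)) (mu d) := by
    intro h hh
    have hc : Continuous (fun x : Td d => (UnitAddTorus.mFourier (-k) x : ℂ) * ((h x : ℝ) : ℂ)) :=
      (UnitAddTorus.mFourier (-k)).continuous.mul (Complex.continuous_ofReal.comp hh)
    obtain ⟨B, hB⟩ := (isCompact_univ (X := Td d)).exists_bound_of_continuousOn hc.continuousOn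
    exact Integrable.of_bound hc.aestronglyMeasurable B
      (Filter.Eventually.of_forall fun x => hB x trivial)
  unfold cfr cf
  rw [← integral_sub (key f hf) (key g hg)]
  congr 1
  funext x
  push_cast
  ring

private lemma vl_eq_off {d l l' : ℕ} (hl' : l' ≠ l) (a : ℝ) (u : CV d) (γ : Ig d l → ℝ) :
    vl a u γ l' = ∑ k ∈ Lam d l', ‖cfr (mg a u γ) k‖ ^ 2 := by
  unfold vl
  refine Finset.sum_congr rfl fun k hk => ?_
  have hkl : k ∉ Lam d l := fun h => hl' ((mem_Lam'.mp hk).symm.trans (mem_Lam'.mp h))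
  rw [cfr_sub' _ _ (cont_mg a u γ) (cont_Gf u γ), cfr_Gf_off u γ k hkl, sub_zero]

/-- weighted Cauchy-Schwarz -/
private lemma cs3 {ι : Type*} (s : Finset ι) (m x y : ι → ℂ) (M : ℝ) (hM : 0 ≤ M)
    (hm : ∀ k ∈ s, ‖m k‖ ≤ M) :
    ‖∑ k ∈ s, m k * x k * y k‖
      ≤ M * Real.sqrt (∑ k ∈ s, ‖x k‖ ^ 2) * Real.sqrt (∑ k ∈ s, ‖y k‖ ^ 2) := by
  calc ‖∑ k ∈ s, m k * x k * y k‖ ≤ ∑ k ∈ s, ‖m k * x k * y k‖ := norm_sum_le _ _
    _ ≤ ∑ k ∈ s, M * (‖x k‖ * ‖y k‖) := by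
        refine Finset.sum_le_sum fun k hk => ?_
        rw [norm_mul, norm_mul, mul_assoc]
        have := hm k hk
        gcongr
    _ = M * ∑ k ∈ s, ‖x k‖ * ‖y k‖ := by rw [Finset.mul_sum]
    _ ≤ M * (Real.sqrt (∑ k ∈ s, ‖x k‖ ^ 2) * Real.sqrt (∑ k ∈ s, ‖y k‖ ^ 2)) := by
        gcongr
        exact Real.sum_mul_le_sqrt_mul_sqrt _ _ _
    _ = _ := by ring

/-- A level different from `l`: Cauchy-Schwarz, `|lamr| ≤ 2^{rd} 2^{-rl'}` (`lamr_bounds`) and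
`cfr (mg a u γ) k = cfr (mg a u γ - Gf u γ) k` off `Lam d l` (`cfr_Gf_off`). -/
theorem other_level {d l l' : ℕ} {r : ℝ} (hr : 0 ≤ r) (hl' : l' ≠ l) (a : ℝ) (u : CV d)
    (γ γ' : Ig d l → ℝ) :
    ‖∑ k ∈ Lam d l', lamr r k * (cfr (mg a 1 γ) k - cfr (mg a 1 γ') k) *
        starRingEnd ℂ (cfr (mg a u γ) k)‖
      ≤ (2 : ℝ) ^ (r * d) * (2 : ℝ) ^ (-(r * l')) *
        l2 (Lam d l') (fun k => cfr (mg a 1 γ) k - cfr (mg a 1 γ') k) *
        Real.sqrt (vl a u γ l') := by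
  have h := cs3 (Lam d l') (lamr r) (fun k => cfr (mg a 1 γ) k - cfr (mg a 1 γ') k)
    (fun k => starRingEnd ℂ (cfr (mg a u γ) k)) ((2 : ℝ) ^ (r * d) * (2 : ℝ) ^ (-(r * l')))
    (by positivity) (fun k hk => (lamr_bounds hr hk).2)
  refine h.trans (le_of_eq ?_)
  unfold l2
  rw [vl_eq_off hl']
  congr 2
  refine Finset.sum_congr rfl fun k _ => ?_
  rw [RCLike.norm_conj]

private lemma sqrt_sum_sub_le {ι : Type*} (s : Finset ι) (x y : ι → ℂ) :
    Real.sqrt (∑ k ∈ s, ‖x k - y k‖ ^ 2)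
      ≤ Real.sqrt (∑ k ∈ s, ‖x k‖ ^ 2) + Real.sqrt (∑ k ∈ s, ‖y k‖ ^ 2) := by
  rw [Real.sqrt_le_left (by positivity)]
  have hx := Real.sq_sqrt (Finset.sum_nonneg fun k (_ : k ∈ s) => sq_nonneg ‖x k‖)
  have hy := Real.sq_sqrt (Finset.sum_nonneg fun k (_ : k ∈ s) => sq_nonneg ‖y k‖)
  have hcs := Real.sum_mul_le_sqrt_mul_sqrt s (fun k => ‖x k‖) (fun k => ‖y k‖)
  calc ∑ k ∈ s, ‖x k - y k‖ ^ 2 ≤ ∑ k ∈ s, (‖x k‖ ^ 2 + ‖y k‖ ^ 2 + 2 * (‖x k‖ * ‖y k‖)) := by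
        refine Finset.sum_le_sum fun k _ => ?_
        have h1 := norm_sub_le (x k) (y k)
        have h2 := norm_nonneg (x k - y k)
        nlinarith [norm_nonneg (x k), norm_nonneg (y k)]
    _ = ∑ k ∈ s, ‖x k‖ ^ 2 + ∑ k ∈ s, ‖y k‖ ^ 2 + 2 * ∑ k ∈ s, ‖x k‖ * ‖y k‖ := by
        rw [Finset.sum_add_distrib, Finset.sum_add_distrib, Finset.mul_sum]
    _ ≤ _ := by nlinarith

/-- `l2 (Lam l') (Δ) ≤ √v + √v'` off the level `l`. -/
theorem l2_diff_le {d l l' : ℕ} (hl' : l' ≠ l) (a : ℝ) (γ γ' : Ig d l → ℝ) :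
    l2 (Lam d l') (fun k => cfr (mg a 1 γ) k - cfr (mg a 1 γ') k)
      ≤ Real.sqrt (vl a 1 γ l') + Real.sqrt (vl a 1 γ' l') := by
  rw [vl_eq_off hl', vl_eq_off hl']
  exact sqrt_sum_sub_le _ _ _

/-- The main level. `mg^ = G^ + e`; the product of the main terms is
`∑ lamr (G^ - G'^) conj(u G^) = 2^{-rl} ∑_i w_i (γ_i - γ'_i) γ_i` (`energy`, `cfr_Gf_mul`,
`lamr conj(uph) = |lamr|`); the three error terms are bounded by Cauchy-Schwarz with
`|G^|_2, |u G^|_2 ≤ 4 √Mm`, `|G^ - G'^|_2 ≤ 8 √Mm`, `|e|_2, |e'|_2 ≤ √(C Mm)/(l+1)` (`Good`, `l' = l`,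
`NL ≤ Mm`), total `≤ 2^{rd} 2^{-rl} 18 C Mm/(l+1)`. -/
theorem main_level {d l : ℕ} {r : ℝ} (hr : 0 ≤ r) (hl : 1 ≤ l) (hN : NL d l ≤ Mm d l) (C a : ℝ)
    (hC : 1 ≤ C) (γ γ' : Ig d l → ℝ) (h : Good C a (uph r) γ) (h' : Good C a (uph r) γ') :
    ‖∑ k ∈ Lam d l, lamr r k * (cfr (mg a 1 γ) k - cfr (mg a 1 γ') k) *
        starRingEnd ℂ (cfr (mg a (uph r) γ) k)
      - (((2 : ℝ) ^ (-(r * l)) * ∑ i, wph r l i.1.1 * (γ i - γ' i) * γ i : ℝ) : ℂ)‖
      ≤ (2 : ℝ) ^ (r * d) * (2 : ℝ) ^ (-(r * l)) * (18 * C * Mm d l / ((l : ℝ) + 1)) := by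
  have hl0 : (0 : ℝ) < (l : ℝ) + 1 := by positivity
  have hl1 : (1 : ℝ) ≤ (l : ℝ) + 1 := by linarith [(Nat.cast_nonneg l : (0:ℝ) ≤ l)]
  have hM : 0 < Mm d l := by unfold Mm; positivity
  set P : ℝ := (2 : ℝ) ^ (r * d) * (2 : ℝ) ^ (-(r * l)) with hP
  have hP0 : 0 ≤ P := by positivity
  -- errors
  set e : CV d := fun k => cfr (fun x => mg a 1 γ x - Gf 1 γ x) k with he
  set e' : CV d := fun k => cfr (fun x => mg a 1 γ' x - Gf 1 γ' x) k with he'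
  set f : CV d := fun k => cfr (fun x => mg a (uph r) γ x - Gf (uph r) γ x) k with hf
  have hm1 : ∀ k, cfr (mg a 1 γ) k = cfr (Gf 1 γ) k + e k := by
    intro k; rw [he]; simp only
    rw [cfr_sub' _ _ (cont_mg a 1 γ) (cont_Gf 1 γ)]
    ring
  have hm2 : ∀ k, cfr (mg a 1 γ') k = cfr (Gf 1 γ') k + e' k := by
    intro k; rw [he']; simp only
    rw [cfr_sub' _ _ (cont_mg a 1 γ') (cont_Gf 1 γ')]
    ring
  have hm3 : ∀ k, cfr (mg a (uph r) γ) k = cfr (Gf (uph r) γ) k + f k := by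
    intro k; rw [hf]; simp only
    rw [cfr_sub' _ _ (cont_mg a (uph r) γ) (cont_Gf (uph r) γ)]
    ring
  -- sizes of the errors
  set X : ℝ := Real.sqrt (C * Mm d l) / ((l : ℝ) + 1) with hX
  have hX0 : 0 ≤ X := by positivity
  have hexp0 : (2 : ℝ) ^ (((l : ℝ) - l) / 2 + |(l : ℝ) - l| / 8) = 1 := by simp
  have hbd : ∀ v : ℝ, v ≤ C * Mm d l / ((l : ℝ) + 1) ^ 2 → Real.sqrt v ≤ X := by
    intro v hv
    rw [hX, ← Real.sqrt_sq hl0.le, ← Real.sqrt_div' _ (by positivity)]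
    exact Real.sqrt_le_sqrt hv
  have he_le : Real.sqrt (∑ k ∈ Lam d l, ‖e k‖ ^ 2) ≤ X := by
    apply hbd
    have := h.three l
    rw [hexp0, mul_one] at this
    exact this
  have he'_le : Real.sqrt (∑ k ∈ Lam d l, ‖e' k‖ ^ 2) ≤ X := by
    apply hbd
    have := h'.three l
    rw [hexp0, mul_one] at this
    exact this
  have hf_le : Real.sqrt (∑ k ∈ Lam d l, ‖f k‖ ^ 2) ≤ X := by
    apply hbd
    have := h.four l
    rw [hexp0, mul_one] at this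
    exact this
  -- sizes of the fields
  set Y : ℝ := Real.sqrt (Mm d l) with hY
  have hY0 : 0 ≤ Y := Real.sqrt_nonneg _
  have hG : ∀ (u : CV d), Uni u → ∀ δ : Ig d l → ℝ, ∑ i, δ i ^ 2 ≤ 16 * NL d l →
      Real.sqrt (∑ k ∈ Lam d l, ‖cfr (Gf u δ) k‖ ^ 2) ≤ 4 * Y := by
    intro u hu δ hδ
    rw [energy_sq hl hu]
    have h16 : (4 : ℝ) * Y = Real.sqrt (16 * Mm d l) := by
      rw [Real.sqrt_mul (by norm_num), hY]
      congr 1
      rw [show (16 : ℝ) = 4 ^ 2 by norm_num, Real.sqrt_sq (by norm_num)]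
    rw [h16]
    apply Real.sqrt_le_sqrt
    linarith
  have hG1 := hG 1 uni_one γ h.six
  have hG2 := hG 1 uni_one γ' h'.six
  have hG3 := hG (uph r) (uni_uph r) γ h.six
  -- the main term
  have hmain : ∑ k ∈ Lam d l, lamr r k * (cfr (Gf 1 γ) k - cfr (Gf 1 γ') k) *
      starRingEnd ℂ (cfr (Gf (uph r) γ) k)
      = (((2 : ℝ) ^ (-(r * l)) * ∑ i, wph r l i.1.1 * (γ i - γ' i) * γ i : ℝ) : ℂ) := by
    have hw : ∀ k, wph r l (-k) = wph (d := d) r l k := by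
      intro k; unfold wph; rw [norm_lamr_neg]
    have h1 := energy hl (wph r l) hw γ γ
    have h2 := energy hl (wph r l) hw γ' γ
    have hstep : ∀ k ∈ Lam d l, lamr r k * (cfr (Gf 1 γ) k - cfr (Gf 1 γ') k) *
        starRingEnd ℂ (cfr (Gf (uph r) γ) k)
        = (((2 : ℝ) ^ (-(r * l)) : ℝ) : ℂ) *
          ((wph r l k : ℂ) * (cfr (Gf 1 γ) k * starRingEnd ℂ (cfr (Gf 1 γ) k))
            - (wph r l k : ℂ) * (cfr (Gf 1 γ') k * starRingEnd ℂ (cfr (Gf 1 γ) k))) := by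
      intro k hk
      rw [cfr_Gf_mul hl (uni_uph r) γ k, map_mul]
      have hlam : lamr r k * starRingEnd ℂ (uph r k) = ((‖lamr r k‖ : ℝ) : ℂ) := by
        unfold uph
        have hne : ‖lamr r k‖ ≠ 0 := by
          have := (lamr_bounds hr hk).1
          have h2 : (0 : ℝ) < (2 : ℝ) ^ (-(r * (l : ℝ))) := by positivity
          linarith
        have hne' : ((‖lamr r k‖ : ℝ) : ℂ) ≠ 0 := by exact_mod_cast hne
        rw [map_div₀, Complex.conj_ofReal, ← mul_div_assoc, Complex.mul_conj,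
          Complex.normSq_eq_norm_sq]
        push_cast
        field_simp
      have hwk : (((2 : ℝ) ^ (-(r * l)) : ℝ) : ℂ) * (wph r l k : ℂ) = ((‖lamr r k‖ : ℝ) : ℂ) := by
        unfold wph
        rw [← Complex.ofReal_mul]
        congr 1
        rw [← mul_assoc, ← Real.rpow_add (by norm_num)]
        simp
      calc lamr r k * (cfr (Gf 1 γ) k - cfr (Gf 1 γ') k) *
            (starRingEnd ℂ (uph r k) * starRingEnd ℂ (cfr (Gf 1 γ) k))
          = (lamr r k * starRingEnd ℂ (uph r k)) * ((cfr (Gf 1 γ) k - cfr (Gf 1 γ') k) *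
            starRingEnd ℂ (cfr (Gf 1 γ) k)) := by ring
        _ = _ := by rw [hlam, ← hwk]; ring
    rw [Finset.sum_congr rfl hstep, ← Finset.mul_sum, Finset.sum_sub_distrib, h1, h2,
      ← Complex.ofReal_sub, ← Complex.ofReal_mul]
    congr 2
    rw [← Finset.sum_sub_distrib]
    refine Finset.sum_congr rfl fun i _ => ?_
    ring
  -- decomposition
  have hdec : ∑ k ∈ Lam d l, lamr r k * (cfr (mg a 1 γ) k - cfr (mg a 1 γ') k) *
        starRingEnd ℂ (cfr (mg a (uph r) γ) k)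
      - (((2 : ℝ) ^ (-(r * l)) * ∑ i, wph r l i.1.1 * (γ i - γ' i) * γ i : ℝ) : ℂ)
      = ∑ k ∈ Lam d l, lamr r k * (cfr (Gf 1 γ) k - cfr (Gf 1 γ') k) * starRingEnd ℂ (f k)
        + ∑ k ∈ Lam d l, lamr r k * (e k - e' k) * starRingEnd ℂ (cfr (Gf (uph r) γ) k)
        + ∑ k ∈ Lam d l, lamr r k * (e k - e' k) * starRingEnd ℂ (f k) := by
    rw [← hmain, ← Finset.sum_sub_distrib, ← Finset.sum_add_distrib, ← Finset.sum_add_distrib]
    refine Finset.sum_congr rfl fun k _ => ?_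
    rw [hm1, hm2, hm3, map_add]
    ring
  rw [hdec]
  have hlamP : ∀ k ∈ Lam d l, ‖lamr r k‖ ≤ P := fun k hk => (lamr_bounds hr hk).2
  have hconj : ∀ g : CV d, Real.sqrt (∑ k ∈ Lam d l, ‖starRingEnd ℂ (g k)‖ ^ 2)
      = Real.sqrt (∑ k ∈ Lam d l, ‖g k‖ ^ 2) := by
    intro g; congr 1
    refine Finset.sum_congr rfl fun k _ => ?_
    rw [RCLike.norm_conj]
  have hΔG : Real.sqrt (∑ k ∈ Lam d l, ‖cfr (Gf 1 γ) k - cfr (Gf 1 γ') k‖ ^ 2) ≤ 8 * Y := by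
    refine (sqrt_sum_sub_le _ _ _).trans ?_
    linarith
  have hΔe : Real.sqrt (∑ k ∈ Lam d l, ‖e k - e' k‖ ^ 2) ≤ 2 * X := by
    refine (sqrt_sum_sub_le _ _ _).trans ?_
    linarith
  have t1 := cs3 (Lam d l) (lamr r) (fun k => cfr (Gf 1 γ) k - cfr (Gf 1 γ') k)
    (fun k => starRingEnd ℂ (f k)) P hP0 hlamP
  have t2 := cs3 (Lam d l) (lamr r) (fun k => e k - e' k)
    (fun k => starRingEnd ℂ (cfr (Gf (uph r) γ) k)) P hP0 hlamP
  have t3 := cs3 (Lam d l) (lamr r) (fun k => e k - e' k)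
    (fun k => starRingEnd ℂ (f k)) P hP0 hlamP
  rw [hconj] at t1 t2 t3
  have s1 : ‖∑ k ∈ Lam d l, lamr r k * (cfr (Gf 1 γ) k - cfr (Gf 1 γ') k) *
      starRingEnd ℂ (f k)‖ ≤ P * (8 * Y) * X := by
    refine t1.trans ?_
    gcongr
  have s2 : ‖∑ k ∈ Lam d l, lamr r k * (e k - e' k) *
      starRingEnd ℂ (cfr (Gf (uph r) γ) k)‖ ≤ P * (2 * X) * (4 * Y) := by
    refine t2.trans ?_
    gcongr
  have s3 : ‖∑ k ∈ Lam d l, lamr r k * (e k - e' k) *
      starRingEnd ℂ (f k)‖ ≤ P * (2 * X) * X := by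
    refine t3.trans ?_
    gcongr
  have hXY : X * Y ≤ C * Mm d l / ((l : ℝ) + 1) := by
    have h1 : Real.sqrt (C * Mm d l) * Real.sqrt (Mm d l) ≤ C * Mm d l := by
      rw [Real.sqrt_mul (by linarith), mul_assoc, Real.mul_self_sqrt hM.le]
      have h2 : Real.sqrt C ≤ C := by
        rw [Real.sqrt_le_left (by linarith)]
        nlinarith
      exact mul_le_mul_of_nonneg_right h2 hM.le
    rw [hX, hY, div_mul_eq_mul_div]
    exact div_le_div_of_nonneg_right h1 hl0.le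
  have hXX : X * X ≤ C * Mm d l / ((l : ℝ) + 1) := by
    rw [hX, div_mul_div_comm, Real.mul_self_sqrt (by positivity)]
    have hden : (l : ℝ) + 1 ≤ ((l : ℝ) + 1) * ((l : ℝ) + 1) := by nlinarith
    gcongr
  calc ‖∑ k ∈ Lam d l, lamr r k * (cfr (Gf 1 γ) k - cfr (Gf 1 γ') k) * starRingEnd ℂ (f k)
        + ∑ k ∈ Lam d l, lamr r k * (e k - e' k) * starRingEnd ℂ (cfr (Gf (uph r) γ) k)
        + ∑ k ∈ Lam d l, lamr r k * (e k - e' k) * starRingEnd ℂ (f k)‖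
      ≤ P * (8 * Y) * X + P * (2 * X) * (4 * Y) + P * (2 * X) * X :=
        (norm_add₃_le).trans (by linarith)
    _ = P * (16 * (X * Y) + 2 * (X * X)) := by ring
    _ ≤ P * (16 * (C * Mm d l / ((l : ℝ) + 1)) + 2 * (C * Mm d l / ((l : ℝ) + 1))) := by gcongr
    _ = P * (18 * C * Mm d l / ((l : ℝ) + 1)) := by ring

end MPcd65c1
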