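import Mathlib
import Pool.Agent.Lib.MP_cd65c1_an.TDefs
import Pool.Agent.Lib.MP_cd65c1_an.TN
import Pool.Agent.Lib.MP_cd65c1_an.TI

/-! TO: separation of two good samples. -/

namespace MPcd65c1

open MeasureTheory

private lemma one_le_wph' {d l : ℕ} {r : ℝ} (hr : 0 ≤ r) {k : Fin d → ℤ} (hk : k ∈ Hf d l) :
    1 ≤ wph r l k := by
  classical
  have hk' : k ∈ Lam d l := by
    unfold Hf at hk
    exact (Finset.mem_filter.mp hk).1
  unfold wph
  have h := (lamr_bounds hr hk').1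
  calc (1 : ℝ) = (2 : ℝ) ^ (r * l) * (2 : ℝ) ^ (-(r * l)) := by
        rw [← Real.rpow_add (by norm_num)]; simp
    _ ≤ _ := by gcongr

/-- bound of one level `l' ≠ l` -/
private lemma level_bd {d l l' C0 : ℕ} {r C δ a : ℝ} (hr : 1 < r) (hC : 1 ≤ C) (hδ : 0 < δ)
    (hne : l' ≠ l) (γ γ' : Ig d l → ℝ)
    (h : Good C a (uph r) γ) (h' : Good C a (uph r) γ')
    (hlow : ∀ j ∈ Finset.Ioc C0 l, l2 (Lam d (l - j))
      (fun k => cfr (mg a 1 γ) k - cfr (mg a 1 γ') k)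
        ≤ δ * (2 : ℝ) ^ (-((r + 1) * j)) * Real.sqrt (Mm d l)) :
    ‖∑ k ∈ Lam d l', lamr r k * (cfr (mg a 1 γ) k - cfr (mg a 1 γ') k) *
        starRingEnd ℂ (cfr (mg a (uph r) γ) k)‖
      ≤ (2 : ℝ) ^ (r * d) * (2 : ℝ) ^ (-(r * l)) * Mm d l *
        (2 * C * (2 : ℝ) ^ (r * C0) / ((l : ℝ) + 1) ^ 2 + δ * C) *
        (2 : ℝ) ^ (-(|(l' : ℝ) - l| / 8)) := by
  have hM : 0 < Mm d l := by unfold Mm; positivity
  have hl1 : (1 : ℝ) ≤ (l : ℝ) + 1 := by linarith [(Nat.cast_nonneg l : (0:ℝ) ≤ l)]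
  have hr0 : 0 ≤ r := by linarith
  set P : ℝ := (2 : ℝ) ^ (r * d) with hP
  have hP0 : 0 < P := by positivity
  set q : ℝ := (2 : ℝ) ^ (-(r * l)) with hq
  have hq0 : 0 < q := by positivity
  set V : ℝ := C * Mm d l / ((l : ℝ) + 1) ^ 2 *
    (2 : ℝ) ^ (((l' : ℝ) - l) / 2 + |(l' : ℝ) - l| / 8) with hV
  have hV0 : 0 ≤ V := by positivity
  have hob := other_level (r := r) hr0 hne a (uph r) γ γ'
  have hv3 : Real.sqrt (vl a (uph r) γ l') ≤ Real.sqrt V := Real.sqrt_le_sqrt (h.four l')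
  have hgen : l2 (Lam d l') (fun k => cfr (mg a 1 γ) k - cfr (mg a 1 γ') k) ≤ 2 * Real.sqrt V := by
    refine (l2_diff_le hne a γ γ').trans ?_
    have e1 : Real.sqrt (vl a 1 γ l') ≤ Real.sqrt V := Real.sqrt_le_sqrt (h.three l')
    have e2 : Real.sqrt (vl a 1 γ' l') ≤ Real.sqrt V := Real.sqrt_le_sqrt (h'.three l')
    linarith
  have hl2n : 0 ≤ l2 (Lam d l') (fun k => cfr (mg a 1 γ) k - cfr (mg a 1 γ') k) :=
    Real.sqrt_nonneg _
  -- generic bound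
  have hg2 : ‖∑ k ∈ Lam d l', lamr r k * (cfr (mg a 1 γ) k - cfr (mg a 1 γ') k) *
        starRingEnd ℂ (cfr (mg a (uph r) γ) k)‖ ≤ P * (2 : ℝ) ^ (-(r * l')) * (2 * V) := by
    refine hob.trans ?_
    calc P * (2 : ℝ) ^ (-(r * l')) *
          l2 (Lam d l') (fun k => cfr (mg a 1 γ) k - cfr (mg a 1 γ') k) *
          Real.sqrt (vl a (uph r) γ l')
        ≤ P * (2 : ℝ) ^ (-(r * l')) * (2 * Real.sqrt V) * Real.sqrt V := by gcongr
      _ = P * (2 : ℝ) ^ (-(r * l')) * (2 * (Real.sqrt V * Real.sqrt V)) := by ring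
      _ = _ := by rw [Real.mul_self_sqrt hV0]
  have hA : 0 ≤ 2 * C * (2 : ℝ) ^ (r * C0) / ((l : ℝ) + 1) ^ 2 := by positivity
  have hB : 0 ≤ δ * C := by positivity
  have hE0 : 0 < (2 : ℝ) ^ (-(|(l' : ℝ) - l| / 8)) := by positivity
  rcases lt_or_gt_of_ne hne with hlt | hgt
  · -- l' < l
    obtain ⟨j, rfl⟩ : ∃ j, l = l' + j := ⟨l - l', by omega⟩
    have hj : 1 ≤ j := by omega
    have hjR : (1 : ℝ) ≤ j := by exact_mod_cast hj
    have habs : |(l' : ℝ) - ((l' + j : ℕ) : ℝ)| = j := by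
      push_cast
      rw [show (l' : ℝ) - (l' + j) = -(j : ℝ) by ring, abs_neg, abs_of_nonneg (by linarith)]
    have hdiff : (l' : ℝ) - ((l' + j : ℕ) : ℝ) = -(j : ℝ) := by push_cast; ring
    have hql : (2 : ℝ) ^ (-(r * (l' : ℝ))) = q * (2 : ℝ) ^ (r * j) := by
      rw [hq, ← Real.rpow_add (by norm_num)]
      congr 1
      push_cast
      ring
    by_cases hjC : j ≤ C0
    · refine hg2.trans ?_
      rw [hql, hV, habs, hdiff]
      have hjC' : (j : ℝ) ≤ C0 := by exact_mod_cast hjC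
      have e1 : (2 : ℝ) ^ (r * j) ≤ (2 : ℝ) ^ (r * C0) := by
        apply Real.rpow_le_rpow_of_exponent_le (by norm_num)
        gcongr
      have e2 : (2 : ℝ) ^ (-(j : ℝ) / 2 + (j : ℝ) / 8) ≤ (2 : ℝ) ^ (-((j : ℝ) / 8)) := by
        apply Real.rpow_le_rpow_of_exponent_le (by norm_num)
        linarith
      calc P * (q * (2 : ℝ) ^ (r * j)) * (2 * (C * Mm d (l' + j) / (((l' + j : ℕ) : ℝ) + 1) ^ 2 *
            (2 : ℝ) ^ (-(j : ℝ) / 2 + (j : ℝ) / 8)))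
          ≤ P * (q * (2 : ℝ) ^ (r * C0)) * (2 * (C * Mm d (l' + j) / (((l' + j : ℕ) : ℝ) + 1) ^ 2 *
            (2 : ℝ) ^ (-((j : ℝ) / 8)))) := by gcongr
        _ = P * q * Mm d (l' + j) * (2 * C * (2 : ℝ) ^ (r * C0) / (((l' + j : ℕ) : ℝ) + 1) ^ 2) *
            (2 : ℝ) ^ (-((j : ℝ) / 8)) := by ring
        _ ≤ P * q * Mm d (l' + j) * (2 * C * (2 : ℝ) ^ (r * C0) / (((l' + j : ℕ) : ℝ) + 1) ^ 2
            + δ * C) * (2 : ℝ) ^ (-((j : ℝ) / 8)) := by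
            gcongr
            linarith
    · have hmem : j ∈ Finset.Ioc C0 (l' + j) := Finset.mem_Ioc.mpr ⟨by omega, by omega⟩
      have hlo := hlow j hmem
      rw [Nat.add_sub_cancel] at hlo
      have hsV : Real.sqrt V ≤ C * Real.sqrt (Mm d (l' + j)) := by
        have e3 : V ≤ C * Mm d (l' + j) := by
          rw [hV, habs, hdiff]
          have e4 : (2 : ℝ) ^ (-(j : ℝ) / 2 + (j : ℝ) / 8) ≤ 1 := by
            apply Real.rpow_le_one_of_one_le_of_nonpos (by norm_num)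
            linarith
          have e5 : (1 : ℝ) ≤ (((l' + j : ℕ) : ℝ) + 1) ^ 2 := one_le_pow₀ hl1
          calc C * Mm d (l' + j) / (((l' + j : ℕ) : ℝ) + 1) ^ 2 *
                (2 : ℝ) ^ (-(j : ℝ) / 2 + (j : ℝ) / 8)
              ≤ C * Mm d (l' + j) / 1 * 1 := by gcongr
            _ = _ := by ring
        calc Real.sqrt V ≤ Real.sqrt (C * Mm d (l' + j)) := Real.sqrt_le_sqrt e3
          _ = Real.sqrt C * Real.sqrt (Mm d (l' + j)) := Real.sqrt_mul (by linarith) _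
          _ ≤ C * Real.sqrt (Mm d (l' + j)) := by
              have : Real.sqrt C ≤ C := by
                rw [Real.sqrt_le_left (by linarith)]
                nlinarith
              gcongr
      refine hob.trans ?_
      rw [hql, habs]
      have e6 : (2 : ℝ) ^ (r * j) * (2 : ℝ) ^ (-((r + 1) * j)) ≤ (2 : ℝ) ^ (-((j : ℝ) / 8)) := by
        rw [← Real.rpow_add (by norm_num)]
        apply Real.rpow_le_rpow_of_exponent_le (by norm_num)
        linarith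
      calc P * (q * (2 : ℝ) ^ (r * j)) *
            l2 (Lam d l') (fun k => cfr (mg a 1 γ) k - cfr (mg a 1 γ') k) *
            Real.sqrt (vl a (uph r) γ l')
          ≤ P * (q * (2 : ℝ) ^ (r * j)) *
            (δ * (2 : ℝ) ^ (-((r + 1) * j)) * Real.sqrt (Mm d (l' + j))) *
            (C * Real.sqrt (Mm d (l' + j))) := by
              gcongr
              exact hv3.trans hsV
        _ = P * q * (Real.sqrt (Mm d (l' + j)) * Real.sqrt (Mm d (l' + j))) * (δ * C) *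
            ((2 : ℝ) ^ (r * j) * (2 : ℝ) ^ (-((r + 1) * j))) := by ring
        _ = P * q * Mm d (l' + j) * (δ * C) *
            ((2 : ℝ) ^ (r * j) * (2 : ℝ) ^ (-((r + 1) * j))) := by
              rw [Real.mul_self_sqrt hM.le]
        _ ≤ P * q * Mm d (l' + j) * (2 * C * (2 : ℝ) ^ (r * C0) / (((l' + j : ℕ) : ℝ) + 1) ^ 2
            + δ * C) * (2 : ℝ) ^ (-((j : ℝ) / 8)) := by
              gcongr
              linarith
  · -- l' > l
    obtain ⟨j, rfl⟩ : ∃ j, l' = l + j := ⟨l' - l, by omega⟩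
    have hj : 1 ≤ j := by omega
    have hjR : (1 : ℝ) ≤ j := by exact_mod_cast hj
    have hdiff : ((l + j : ℕ) : ℝ) - (l : ℝ) = (j : ℝ) := by push_cast; ring
    have habs : |((l + j : ℕ) : ℝ) - (l : ℝ)| = j := by rw [hdiff, abs_of_nonneg (by linarith)]
    refine hg2.trans ?_
    have hql : (2 : ℝ) ^ (-(r * ((l + j : ℕ) : ℝ))) = q * (2 : ℝ) ^ (-(r * j)) := by
      rw [hq, ← Real.rpow_add (by norm_num)]
      congr 1
      push_cast
      ring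
    rw [hql, hV, habs, hdiff]
    have e1 : (2 : ℝ) ^ (-(r * j)) * (2 : ℝ) ^ ((j : ℝ) / 2 + (j : ℝ) / 8)
        ≤ (2 : ℝ) ^ (-((j : ℝ) / 8)) := by
      rw [← Real.rpow_add (by norm_num)]
      apply Real.rpow_le_rpow_of_exponent_le (by norm_num)
      nlinarith
    have e2 : (1 : ℝ) ≤ (2 : ℝ) ^ (r * C0) := Real.one_le_rpow (by norm_num) (by positivity)
    calc P * (q * (2 : ℝ) ^ (-(r * j))) * (2 * (C * Mm d l / ((l : ℝ) + 1) ^ 2 *
          (2 : ℝ) ^ ((j : ℝ) / 2 + (j : ℝ) / 8)))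
        = P * q * Mm d l * (2 * C * 1 / ((l : ℝ) + 1) ^ 2) *
          ((2 : ℝ) ^ (-(r * j)) * (2 : ℝ) ^ ((j : ℝ) / 2 + (j : ℝ) / 8)) := by ring
      _ ≤ P * q * Mm d l * (2 * C * (2 : ℝ) ^ (r * C0) / ((l : ℝ) + 1) ^ 2) *
          (2 : ℝ) ^ (-((j : ℝ) / 8)) := by gcongr
      _ ≤ P * q * Mm d l * (2 * C * (2 : ℝ) ^ (r * C0) / ((l : ℝ) + 1) ^ 2
            + δ * C) * (2 : ℝ) ^ (-((j : ℝ) / 8)) := by
            gcongr
            linarith

/-- SEPARATION. Main level: `≥ 2^{-rl} (∑ w γ² - |∑ w γ γ'|) ≥ 2^{-rl} (3/16) NL` up to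
`2^{rd} 2^{-rl} 18 C Mm/(l+1)` (`main_level`, `w ≥ 1`). Levels `l+j`: `Good` gives
`v ≤ C Mm/(l+1)^2 2^{5j/8}`, so the sum over `j ≥ 1` is
`≤ 2^{rd} 2^{-rl} 2 C Mm/(l+1)^2 ∑ 2^{-(r-5/8) j}`. Levels `l-j`, `1 ≤ j ≤ C0`: `v ≤ C Mm/(l+1)^2`,
sum `≤ 2^{rd} 2^{-rl} C0 2^{r C0} 2 C Mm/(l+1)^2`. Levels `l-j`, `C0 < j ≤ l`: `v ≤ C Mm`, sum
`≤ 2^{rd} 2^{-rl} δ √C Mm ∑ 2^{-j}`. `NL ≥ c Mm`. Choose `δ` first, `l0` after `C0`; total error
`≤ 2^{-rl} NL/8`. -/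
theorem sep_core (d : ℕ) (r : ℝ) (hr : 1 < r) (C c : ℝ) (hC : 1 ≤ C) (hc : 0 < c) :
    ∃ δ : ℝ, 0 < δ ∧ ∀ C0 : ℕ, ∃ l0 : ℕ, ∀ l : ℕ, l0 ≤ l → c * Mm d l ≤ NL d l →
    NL d l ≤ Mm d l → ∀ (a : ℝ) (γ γ' : Ig d l → ℝ), 0 < a →
    Good C a (uph r) γ → Good C a (uph r) γ' →
    |∑ i, wph r l i.1.1 * γ i * γ' i| ≤ NL d l / 16 →
    (∀ j ∈ Finset.Ioc C0 l, l2 (Lam d (l - j)) (fun k => cfr (mg a 1 γ) k - cfr (mg a 1 γ') k)
      ≤ δ * (2 : ℝ) ^ (-((r + 1) * j)) * Real.sqrt (Mm d l)) →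
    ∀ s : ℂ, HasSum (fun k => lamr r k * (cfr (mg a 1 γ) k - cfr (mg a 1 γ') k) *
      starRingEnd ℂ (cfr (mg a (uph r) γ) k)) s →
    (2 : ℝ) ^ (-(r * l)) * NL d l / 16 ≤ ‖s‖ := by
  have hr0 : 0 ≤ r := by linarith
  set P : ℝ := (2 : ℝ) ^ (r * d) with hP
  have hP0 : 0 < P := by positivity
  have hC0' : 0 < C := by linarith
  refine ⟨c / (24 * 32 * P * C), by positivity, fun C0 => ?_⟩
  set δ : ℝ := c / (24 * 32 * P * C) with hδ
  have hδ0 : 0 < δ := by positivity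
  obtain ⟨n0, hn0⟩ := exists_nat_ge ((432 * C * P + 1536 * C * P * (2 : ℝ) ^ (r * C0)) / c)
  refine ⟨n0 + 1, fun l hl hcN hNM a γ γ' ha h h' hB hlow s hs => ?_⟩
  have hl1n : 1 ≤ l := by omega
  have hM : 0 < Mm d l := by unfold Mm; positivity
  have hN0 : 0 < NL d l := lt_of_lt_of_le (by positivity) hcN
  have hlR : ((432 * C * P + 1536 * C * P * (2 : ℝ) ^ (r * C0)) / c) ≤ (l : ℝ) + 1 := by
    have : (n0 : ℝ) ≤ l := by exact_mod_cast (by omega : n0 ≤ l)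
    linarith
  have hl1 : (1 : ℝ) ≤ (l : ℝ) + 1 := by linarith [(Nat.cast_nonneg l : (0:ℝ) ≤ l)]
  have hl0 : (0 : ℝ) < (l : ℝ) + 1 := by linarith
  set q : ℝ := (2 : ℝ) ^ (-(r * l)) with hq
  have hq0 : 0 < q := by positivity
  set K : ℝ := 2 * C * (2 : ℝ) ^ (r * C0) / ((l : ℝ) + 1) ^ 2 + δ * C with hK
  have hK0 : 0 ≤ K := by positivity
  -- other levels
  have hother := level_sum hs l (P * q * Mm d l * K * 32) (by
    intro L
    refine (norm_sum_le _ _).trans ?_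
    calc ∑ l' ∈ (Finset.range L).erase l, ‖∑ k ∈ Lam d l', lamr r k *
          (cfr (mg a 1 γ) k - cfr (mg a 1 γ') k) * starRingEnd ℂ (cfr (mg a (uph r) γ) k)‖
        ≤ ∑ l' ∈ (Finset.range L).erase l, P * q * Mm d l * K *
          (2 : ℝ) ^ (-(|(l' : ℝ) - l| / 8)) := by
            refine Finset.sum_le_sum fun l' hl' => ?_
            exact level_bd hr hC hδ0 (Finset.ne_of_mem_erase hl') γ γ' h h' hlow
      _ ≤ ∑ l' ∈ Finset.range L, P * q * Mm d l * K *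
          (2 : ℝ) ^ (-(|(l' : ℝ) - l| / 8)) := by
            apply Finset.sum_le_sum_of_subset_of_nonneg (Finset.erase_subset _ _)
            intro i _ _
            positivity
      _ = P * q * Mm d l * K * ∑ l' ∈ Finset.range L, (2 : ℝ) ^ (-(|(l' : ℝ) - l| / 8)) := by
            rw [Finset.mul_sum]
      _ ≤ P * q * Mm d l * K * 32 := by
            gcongr
            exact sum_weights l L)
  have hmain := main_level hr0 hl1n hNM C a hC γ γ' h h'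
  -- main term
  set T : ℝ := q * ∑ i, wph r l i.1.1 * (γ i - γ' i) * γ i with hT
  have hTge : q * (3 / 16 * NL d l) ≤ T := by
    rw [hT]
    gcongr
    have e1 : ∑ i, wph r l i.1.1 * (γ i - γ' i) * γ i
        = ∑ i, wph r l i.1.1 * γ i ^ 2 - ∑ i, wph r l i.1.1 * γ i * γ' i := by
      rw [← Finset.sum_sub_distrib]
      refine Finset.sum_congr rfl fun i _ => ?_
      ring
    have e2 : ∑ i, γ i ^ 2 ≤ ∑ i, wph r l i.1.1 * γ i ^ 2 := by
      refine Finset.sum_le_sum fun i _ => ?_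
      have := one_le_wph' hr0 i.1.2
      nlinarith [sq_nonneg (γ i)]
    have e3 := abs_le.mp hB
    rw [e1]
    linarith [h.five, e3.2]
  have hTn : T ≤ ‖((T : ℝ) : ℂ)‖ := by
    rw [Complex.norm_real]
    exact le_abs_self T
  set S0 : ℂ := ∑ k ∈ Lam d l, lamr r k * (cfr (mg a 1 γ) k - cfr (mg a 1 γ') k) *
      starRingEnd ℂ (cfr (mg a (uph r) γ) k) with hS0
  have htri : ‖((T : ℝ) : ℂ)‖ ≤ ‖s‖ + ‖s - S0‖ + ‖S0 - ((T : ℝ) : ℂ)‖ := by
    have : ((T : ℝ) : ℂ) = s - (s - S0) - (S0 - ((T : ℝ) : ℂ)) := by ring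
    calc ‖((T : ℝ) : ℂ)‖ = ‖s - (s - S0) - (S0 - ((T : ℝ) : ℂ))‖ := by rw [← this]
      _ ≤ ‖s - (s - S0)‖ + ‖S0 - ((T : ℝ) : ℂ)‖ := norm_sub_le _ _
      _ ≤ ‖s‖ + ‖s - S0‖ + ‖S0 - ((T : ℝ) : ℂ)‖ := by
          gcongr
          exact norm_sub_le _ _
  -- numerical estimate of the errors
  have hnum : P * (18 * C / ((l : ℝ) + 1)) + 32 * P * K ≤ c / 8 := by
    rw [div_le_iff₀ hc] at hlR
    have f1 : 432 * C * P ≤ ((l : ℝ) + 1) * c := by
      have : 0 ≤ 1536 * C * P * (2 : ℝ) ^ (r * C0) := by positivity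
      linarith
    have f2 : 1536 * C * P * (2 : ℝ) ^ (r * C0) ≤ ((l : ℝ) + 1) * c := by
      have : 0 ≤ 432 * C * P := by positivity
      linarith
    have g1 : P * (18 * C / ((l : ℝ) + 1)) ≤ c / 24 := by
      rw [← mul_div_assoc, div_le_div_iff₀ hl0 (by norm_num)]
      linarith
    have g2 : 32 * P * (2 * C * (2 : ℝ) ^ (r * C0) / ((l : ℝ) + 1) ^ 2) ≤ c / 24 := by
      rw [← mul_div_assoc, div_le_div_iff₀ (by positivity) (by norm_num)]
      calc 32 * P * (2 * C * (2 : ℝ) ^ (r * C0)) * 24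
          = 1536 * C * P * (2 : ℝ) ^ (r * C0) := by ring
        _ ≤ ((l : ℝ) + 1) * c := f2
        _ ≤ c * ((l : ℝ) + 1) ^ 2 := by
            have e9 : c * ((l : ℝ) + 1) * 1 ≤ c * ((l : ℝ) + 1) * ((l : ℝ) + 1) := by gcongr
            calc ((l : ℝ) + 1) * c = c * ((l : ℝ) + 1) * 1 := by ring
              _ ≤ _ := e9
              _ = _ := by ring
    have g3 : 32 * P * (δ * C) = c / 24 := by
      rw [hδ]; field_simp
    have : 32 * P * K = 32 * P * (2 * C * (2 : ℝ) ^ (r * C0) / ((l : ℝ) + 1) ^ 2)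
        + 32 * P * (δ * C) := by rw [hK]; ring
    rw [this]
    linarith
  have herr : P * q * (18 * C * Mm d l / ((l : ℝ) + 1)) + P * q * Mm d l * K * 32
      ≤ q * (NL d l / 8) := by
    calc P * q * (18 * C * Mm d l / ((l : ℝ) + 1)) + P * q * Mm d l * K * 32
        = q * Mm d l * (P * (18 * C / ((l : ℝ) + 1)) + 32 * P * K) := by ring
      _ ≤ q * Mm d l * (c / 8) := by gcongr
      _ = q * (c * Mm d l / 8) := by ring
      _ ≤ q * (NL d l / 8) := by gcongr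
  have hfin : q * (3 / 16 * NL d l) ≤ ‖s‖ + q * (NL d l / 8) := by
    calc q * (3 / 16 * NL d l) ≤ T := hTge
      _ ≤ ‖((T : ℝ) : ℂ)‖ := hTn
      _ ≤ ‖s‖ + ‖s - S0‖ + ‖S0 - ((T : ℝ) : ℂ)‖ := htri
      _ ≤ ‖s‖ + P * q * Mm d l * K * 32 + P * q * (18 * C * Mm d l / ((l : ℝ) + 1)) := by
          gcongr
      _ ≤ ‖s‖ + q * (NL d l / 8) := by linarith
  calc q * NL d l / 16 = q * (3 / 16 * NL d l) - q * (NL d l / 8) := by ring
    _ ≤ ‖s‖ := by linarith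

end MPcd65c1
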