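import Mathlib
import Pool.Agent.Lib.MP_cd65c1_an.TDefs
import Pool.Agent.Lib.MP_cd65c1_an.TF
import Pool.Agent.Lib.MP_cd65c1_an.TH
import Pool.Agent.Lib.MP_cd65c1_an.TI
import Pool.Agent.Lib.MP_cd65c1_an.TJ
import Pool.Agent.Lib.MP_cd65c1_an.TK
import Pool.Agent.Lib.MP_cd65c1_an.TO

/-! TQ1: the family of samples. -/

namespace MPcd65c1

open MeasureTheory

private lemma Hf_sub {d l : ℕ} {k : Fin d → ℤ} (hk : k ∈ Hf d l) : k ∈ Lam d l := by
  classical
  unfold Hf at hk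
  exact (Finset.mem_filter.mp hk).1

private lemma one_le_wph {d l : ℕ} {r : ℝ} (hr : 0 ≤ r) {k : Fin d → ℤ} (hk : k ∈ Lam d l) :
    1 ≤ wph r l k := by
  unfold wph
  have h := (lamr_bounds hr hk).1
  calc (1 : ℝ) = (2 : ℝ) ^ (r * l) * (2 : ℝ) ^ (-(r * l)) := by
        rw [← Real.rpow_add (by norm_num)]; simp
    _ ≤ _ := by gcongr

private lemma wph_le {d l : ℕ} {r : ℝ} (hr : 0 ≤ r) {k : Fin d → ℤ} (hk : k ∈ Lam d l) :
    wph r l k ≤ (2 : ℝ) ^ (r * d) := by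
  unfold wph
  have h := (lamr_bounds hr hk).2
  calc (2 : ℝ) ^ (r * l) * ‖lamr r k‖
      ≤ (2 : ℝ) ^ (r * l) * ((2 : ℝ) ^ (r * d) * (2 : ℝ) ^ (-(r * l))) := by gcongr
    _ = (2 : ℝ) ^ (r * d) * ((2 : ℝ) ^ (r * l) * (2 : ℝ) ^ (-(r * l))) := by ring
    _ = (2 : ℝ) ^ (r * d) := by rw [← Real.rpow_add (by norm_num)]; simp

private lemma l2_mg_le {d l l' : ℕ} (hl' : l' ≠ l) (a : ℝ) (γ : Ig d l → ℝ) :
    l2 (Lam d l') (fun k => cfr (mg a 1 γ) k) = Real.sqrt (vl a 1 γ l') := by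
  unfold l2 vl
  congr 1
  refine Finset.sum_congr rfl fun k hk => ?_
  have hkl : k ∉ Lam d l := by
    intro h
    exact hl' ((mem_Lam'.mp hk).symm.trans (mem_Lam'.mp h))
  have h1 : cfr (fun x => mg a 1 γ x - Gf 1 γ x) k = cfr (mg a 1 γ) k - cfr (Gf 1 γ) k := by
    unfold cfr cf
    rw [← integral_sub]
    · congr 1
      funext x
      push_cast
      ring
    · have hc : Continuous (fun x : Td d => (UnitAddTorus.mFourier (-k) x : ℂ) * ((mg a 1 γ x : ℝ) : ℂ)) := by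
        refine (UnitAddTorus.mFourier (-k)).continuous.mul (Complex.continuous_ofReal.comp ?_)
        have h2 : Continuous (fun x : Td d => Gf 1 γ x) :=
          (Gf_continuous (l := l) 1).comp (continuous_const.prodMk continuous_id)
        unfold mg
        exact (Real.continuous_sinh.comp (continuous_const.mul h2)).div_const _
      obtain ⟨B, hB⟩ := (isCompact_univ (X := Td d)).exists_bound_of_continuousOn hc.continuousOn
      exact Integrable.of_bound hc.aestronglyMeasurable B (Filter.Eventually.of_forall fun x => hB x trivial)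
    · have hc : Continuous (fun x : Td d => (UnitAddTorus.mFourier (-k) x : ℂ) * ((Gf 1 γ x : ℝ) : ℂ)) := by
        refine (UnitAddTorus.mFourier (-k)).continuous.mul (Complex.continuous_ofReal.comp ?_)
        exact (Gf_continuous (l := l) 1).comp (continuous_const.prodMk continuous_id)
      obtain ⟨B, hB⟩ := (isCompact_univ (X := Td d)).exists_bound_of_continuousOn hc.continuousOn
      exact Integrable.of_bound hc.aestronglyMeasurable B (Filter.Eventually.of_forall fun x => hB x trivial)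
  rw [h1, cfr_Gf_off 1 γ k hkl, sub_zero]

/-- From `E_vl_le`, `good_half`, `greedy` (`ι = Ig d l`, `w_i = wph r l i.1.1 ∈ [1, 2^{rd}]`,
`n = NL`), `pigeon_levels` + `cells` (`J = Ioc C0 l`, `L j = Lam d (l-j)`, `a j γ = cfr (mg a 1 γ)`,
`R j = √(512 C) √Mm`, `ρ j = δ 2^{-(r+1)j} √Mm`), `sep_core`: a finite set of good samples with at
least `exp(c Mm)` elements such that any two of them satisfy the separation inequality. -/
theorem sample_family (d : ℕ) (hd : 3 ≤ d) (r : ℝ) (hr : 1 < r) :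
    ∃ ε : ℝ, 0 < ε ∧ ∃ c : ℝ, 0 < c ∧ ∃ l0 : ℕ, 1 ≤ l0 ∧ ∀ l : ℕ, l0 ≤ l →
    ∃ F : Finset (Ig d l → ℝ), Real.exp (c * Mm d l) ≤ (F.card : ℝ) ∧
      (∀ γ ∈ F, ∫ x, |mg (al d l ε) 1 γ x| ∂(mu d) ≤ 16 / al d l ε ∧
        ∫ x, |mg (al d l ε) (uph r) γ x| ∂(mu d) ≤ 16 / al d l ε) ∧
      ∀ γ ∈ F, ∀ γ' ∈ F, γ ≠ γ' → ∀ s : ℂ,
        HasSum (fun k => lamr r k * (cfr (mg (al d l ε) 1 γ) k - cfr (mg (al d l ε) 1 γ') k) *
          starRingEnd ℂ (cfr (mg (al d l ε) (uph r) γ) k)) s →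
        (2 : ℝ) ^ (-(r * l)) * NL d l / 16 ≤ ‖s‖ := by
  classical
  obtain ⟨ε, hε, C1, hC1, hE⟩ := E_vl_le d hd
  obtain ⟨c', hc', hNL⟩ := NL_bounds d (by omega)
  have hr0 : 0 ≤ r := by linarith
  have hC : 1 ≤ 512 * C1 := by linarith
  obtain ⟨δ, hδ, hsep⟩ := sep_core d r hr (512 * C1) c' hC hc'
  set W : ℝ := (2 : ℝ) ^ (r * d) with hW
  have hW0 : 0 < W := by positivity
  set c1 : ℝ := c' / (2 * 8192 * W ^ 2) with hc1
  have hc1' : 0 < c1 := by positivity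
  obtain ⟨C0, hC0⟩ := cells d (by omega) r (Real.sqrt (512 * C1)) δ c1 hr0
    (Real.sqrt_pos.mpr (by linarith)) hδ hc1'
  obtain ⟨l1, hl1⟩ := hsep C0
  obtain ⟨l2', hl2⟩ := exists_nat_ge (10 / c')
  obtain ⟨l3, hl3⟩ := exists_nat_ge (2 * Real.log 8 / c1)
  refine ⟨ε, hε, c1 / 2, by positivity, l1 + l2' + l3 + 1, by omega, fun l hl => ?_⟩
  have hl1' : 1 ≤ l := by omega
  have hMm0 : 0 < Mm d l := by unfold Mm; positivity
  have hMml : (l : ℝ) ≤ Mm d l := by
    unfold Mm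
    have h1 : (l : ℝ) ≤ (2 : ℝ) ^ l := by
      have := Nat.lt_two_pow_self (n := l)
      exact_mod_cast this.le
    have h2 : (1 : ℝ) ≤ ((l : ℝ) + 1) ^ (d - 1) := one_le_pow₀ (by linarith [(Nat.cast_nonneg l : (0:ℝ) ≤ l)])
    calc (l : ℝ) ≤ (2 : ℝ) ^ l * 1 := by linarith
      _ ≤ _ := by gcongr
  have hNLM := hNL l
  have hN0 : 0 < NL d l := lt_of_lt_of_le (by positivity) hNLM.1
  have hl_l2 : (l2' : ℝ) ≤ l := by exact_mod_cast (by omega : l2' ≤ l)
  have hl_l3 : (l3 : ℝ) ≤ l := by exact_mod_cast (by omega : l3 ≤ l)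
  have hN10 : 10 ≤ NL d l := by
    have h1 : 10 / c' ≤ Mm d l := by linarith
    have h2 : 10 ≤ c' * Mm d l := by
      rw [div_le_iff₀ hc'] at h1; linarith
    linarith [hNLM.1]
  set a := al d l ε with ha_def
  have hlR : (1 : ℝ) ≤ l := by exact_mod_cast hl1'
  have ha : 0 < a := by
    rw [ha_def]; unfold al; apply Real.sqrt_pos.mpr; positivity
  have hG := good_half hl1' hN10 (uni_uph (d := d) r) a ha C1 (by linarith)
    (fun v hv l' => hE l l' v hl1' hv)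
  obtain ⟨F0, hF0G, hF0c, hF0s⟩ := greedy (ι := Ig d l) (fun i => wph r l i.1.1) W (NL d l) hN0
    (fun i => one_le_wph hr0 (Hf_sub i.1.2)) (fun i => wph_le hr0 (Hf_sub i.1.2))
    {γ | Good (512 * C1) a (uph r) γ} (fun γ hγ => hγ.five) (fun γ hγ => hγ.six) hG
  set R : ℕ → ℝ := fun _ => Real.sqrt (512 * C1) * Real.sqrt (Mm d l) with hR
  set ρ : ℕ → ℝ := fun j => δ * (2 : ℝ) ^ (-((r + 1) * (j : ℝ))) * Real.sqrt (Mm d l) with hρ
  have hsM : 0 < Real.sqrt (Mm d l) := Real.sqrt_pos.mpr hMm0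
  obtain ⟨F', hF'sub, hF'c, hF's⟩ := pigeon_levels F0 (Finset.Ioc C0 l)
    (fun _ γ k => cfr (mg a 1 γ) k) (fun j => Lam d (l - j)) R ρ
    (fun j _ => by positivity) (fun j _ => by positivity) (by
      intro j hj γ hγ
      rw [Finset.mem_Ioc] at hj
      have hne : l - j ≠ l := by omega
      change l2 (Lam d (l - j)) (fun k => cfr (mg a 1 γ) k) ≤ _
      rw [l2_mg_le hne, hR]
      simp only
      rw [← Real.sqrt_mul (by linarith)]
      apply Real.sqrt_le_sqrt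
      have h3 := (hF0G γ hγ).three (l - j)
      refine h3.trans ?_
      have hcast : (((l - j : ℕ) : ℝ) - l) = -(j : ℝ) := by
        rw [Nat.cast_sub hj.2]; ring
      rw [hcast]
      have hexp : (2 : ℝ) ^ (-(j : ℝ) / 2 + |-(j : ℝ)| / 8) ≤ 1 := by
        apply Real.rpow_le_one_of_one_le_of_nonpos (by norm_num)
        rw [abs_neg, abs_of_nonneg (Nat.cast_nonneg j)]
        have : (0 : ℝ) ≤ j := Nat.cast_nonneg j
        linarith
      have h4 : (1 : ℝ) ≤ ((l : ℝ) + 1) ^ 2 := one_le_pow₀ (by linarith)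
      calc 512 * C1 * Mm d l / ((l : ℝ) + 1) ^ 2 * (2 : ℝ) ^ (-(j : ℝ) / 2 + |-(j : ℝ)| / 8)
          ≤ 512 * C1 * Mm d l / 1 * 1 := by gcongr
        _ = 512 * C1 * Mm d l := by ring)
  have hprod : ∏ j ∈ Finset.Ioc C0 l, (1 + 4 * R j / ρ j) ^ (2 * (Lam d (l - j)).card)
      ≤ Real.exp (c1 * Mm d l) := by
    refine le_trans (le_of_eq ?_) (hC0 l)
    refine Finset.prod_congr rfl fun j _ => ?_
    congr 2
    simp only [hR, hρ]
    rw [Real.rpow_neg (by norm_num)]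
    field_simp
  have hcount : Real.exp (c1 / 2 * Mm d l) ≤ (F'.card : ℝ) := by
    have h1 : Real.exp (2 * c1 * Mm d l) / 8 ≤ (F0.card : ℝ) := by
      refine le_trans ?_ hF0c
      gcongr
      have : 2 * c1 * Mm d l = c' * Mm d l / (8192 * W ^ 2) := by
        rw [hc1]; field_simp
      rw [this]
      gcongr
      exact hNLM.1
    have h2 : Real.exp (2 * c1 * Mm d l) / 8 ≤ F'.card * Real.exp (c1 * Mm d l) := by
      refine h1.trans (hF'c.trans ?_)
      gcongr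
    have h3 : (8 : ℝ) ≤ Real.exp (c1 / 2 * Mm d l) := by
      have h4 : Real.log 8 ≤ c1 / 2 * Mm d l := by
        have h5 : 2 * Real.log 8 / c1 ≤ Mm d l := by linarith
        rw [div_le_iff₀ hc1'] at h5
        linarith
      calc (8 : ℝ) = Real.exp (Real.log 8) := (Real.exp_log (by norm_num)).symm
        _ ≤ _ := Real.exp_le_exp.mpr h4
    have h6 : Real.exp (2 * c1 * Mm d l) = Real.exp (c1 / 2 * Mm d l) * Real.exp (c1 / 2 * Mm d l) *
        Real.exp (c1 * Mm d l) := by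
      rw [← Real.exp_add, ← Real.exp_add]; congr 1; ring
    have h7 : 0 < Real.exp (c1 * Mm d l) := Real.exp_pos _
    have h8 : Real.exp (c1 / 2 * Mm d l) * Real.exp (c1 * Mm d l) ≤
        F'.card * Real.exp (c1 * Mm d l) := by
      refine le_trans ?_ h2
      rw [h6]
      have h9 : 0 < Real.exp (c1 / 2 * Mm d l) := Real.exp_pos _
      have : Real.exp (c1 / 2 * Mm d l) * Real.exp (c1 / 2 * Mm d l) * Real.exp (c1 * Mm d l) / 8
        = (Real.exp (c1 / 2 * Mm d l) / 8) * (Real.exp (c1 / 2 * Mm d l) * Real.exp (c1 * Mm d l)) := by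
        ring
      rw [this]
      have h10 : 1 ≤ Real.exp (c1 / 2 * Mm d l) / 8 := by linarith
      nlinarith [mul_pos h9 h7]
    exact le_of_mul_le_mul_right h8 h7
  refine ⟨F', hcount, fun γ hγ => ⟨(hF0G γ (hF'sub hγ)).one, (hF0G γ (hF'sub hγ)).two⟩, ?_⟩
  intro γ hγ γ' hγ' hne s hs
  exact hl1 l (by omega) hNLM.1 hNLM.2 a γ γ' ha (hF0G γ (hF'sub hγ)) (hF0G γ' (hF'sub hγ'))
    (hF0s γ (hF'sub hγ) γ' (hF'sub hγ') hne)
    (fun j hj => by
      have := hF's γ hγ γ' hγ' j hj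
      exact this) s hs

end MPcd65c1
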