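import Mathlib
import Pool.Agent.Lib.MP_cd65c1_an.TDefs
import Pool.Agent.Lib.MP_cd65c1_an.TP
import Pool.Agent.Lib.MP_cd65c1_an.TQ1

/-! TR: packing in `W^r_1` for the `L_∞` norm. -/

namespace MPcd65c1

open MeasureTheory
open scoped ENNReal

private lemma mg_cont {d l : ℕ} (a : ℝ) (u : CV d) (γ : Ig d l → ℝ) :
    Continuous (fun x => mg a u γ x) := by
  have h1 : Continuous (fun x : Td d => Gf u γ x) :=
    (Gf_continuous (l := l) u).comp (continuous_const.prodMk continuous_id)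
  unfold mg
  exact (Real.continuous_sinh.comp (continuous_const.mul h1)).div_const _

private lemma cfr_smul {d : ℕ} (b : ℝ) (f : Td d → ℝ) (k : Fin d → ℤ) :
    cfr (fun x => b * f x) k = (b : ℂ) * cfr f k := by
  unfold cfr cf
  rw [← integral_const_mul]
  congr 1
  funext x
  push_cast
  ring

private lemma cont_memLp {d : ℕ} (f : Td d → ℝ) (hf : Continuous f) : MemLp f 1 (mu d) := by
  obtain ⟨C, hC⟩ := (isCompact_univ (X := Td d)).exists_bound_of_continuousOn hf.continuousOn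
  exact MemLp.of_bound hf.aestronglyMeasurable C (Filter.Eventually.of_forall fun x => hC x trivial)

private lemma eLp_one {d : ℕ} (f : Td d → ℝ) (hf : Continuous f) (h : ∫ x, |f x| ∂(mu d) ≤ 1) :
    eLpNorm f 1 (mu d) ≤ 1 := by
  rw [eLpNorm_one_eq_lintegral_enorm]
  have hi : Integrable f (mu d) := memLp_one_iff_integrable.mp (cont_memLp f hf)
  rw [← ofReal_integral_norm_eq_lintegral_enorm hi]
  calc ENNReal.ofReal (∫ x, ‖f x‖ ∂(mu d)) ≤ ENNReal.ofReal 1 := ENNReal.ofReal_le_ofReal (by simpa using h)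
    _ = 1 := by simp

/-- `φ_γ = (a/16) mg a 1 γ`, `ν_γ = (a/16) mg a (uph r) γ` (continuous, `∫ |·| ≤ 1`), `f_γ` from
`exists_sol`; `‖f_γ - f_γ'‖ ≥ |∫ (f_γ - f_γ') ν_γ| = (a/16)^2 ‖s‖ ≥ (a/16)^2 2^{-rl} NL/16
= ε l 2^{-rl}/4096 ≥ c 2^{-rl} (l+1)` (`a² NL = ε l`). In particular the `f_γ` are different and
`S` = image of `F`. -/
theorem packing_one_infty (d : ℕ) (hd : 3 ≤ d) (r : ℝ) (hr : 1 < r) :
    ∃ c : ℝ, 0 < c ∧ ∃ l0 : ℕ, ∀ l : ℕ, l0 ≤ l → ∃ S : Finset (Lp ℂ ∞ (mu d)),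
      (∀ f ∈ S, f ∈ WR d r 1 ∞) ∧ Real.exp (c * Mm d l) ≤ (S.card : ℝ) ∧
      ∀ f ∈ S, ∀ g ∈ S, f ≠ g → c * (2 : ℝ) ^ (-(r * l)) * ((l : ℝ) + 1) ≤ ‖f - g‖ := by
  classical
  obtain ⟨ε, hε, c, hc, l0, hl01, H⟩ := sample_family d hd r hr
  obtain ⟨c', hc', hNL⟩ := NL_bounds d (by omega)
  refine ⟨min c (ε / 8192), lt_min hc (by positivity), l0, fun l hl => ?_⟩
  obtain ⟨F, hF1, hF2, hF3⟩ := H l hl
  have hl1 : 1 ≤ l := hl01.trans hl
  have hMm : 0 < Mm d l := by unfold Mm; positivity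
  have hN : 0 < NL d l := lt_of_lt_of_le (by positivity) (hNL l).1
  have hlR : (1 : ℝ) ≤ l := by exact_mod_cast hl1
  set a := al d l ε with ha_def
  have ha : 0 < a := by
    rw [ha_def]; unfold al; apply Real.sqrt_pos.mpr; positivity
  have ha2 : a ^ 2 * NL d l = ε * l := by
    rw [ha_def]; unfold al
    rw [Real.sq_sqrt (by positivity)]
    field_simp
  -- the functions
  have hφc : ∀ γ : Ig d l → ℝ, Continuous (fun x => a / 16 * mg a 1 γ x) :=
    fun γ => continuous_const.mul (mg_cont a 1 γ)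
  have hνc : ∀ γ : Ig d l → ℝ, Continuous (fun x => a / 16 * mg a (uph r) γ x) :=
    fun γ => continuous_const.mul (mg_cont a (uph r) γ)
  have hint : ∀ (g : Td d → ℝ), ∫ x, |g x| ∂(mu d) ≤ 16 / a →
      ∫ x, |a / 16 * g x| ∂(mu d) ≤ 1 := by
    intro g hg
    have : (fun x => |a / 16 * g x|) = fun x => a / 16 * |g x| := by
      funext x; rw [abs_mul, abs_of_pos (by positivity)]
    rw [this, integral_const_mul]
    calc a / 16 * ∫ x, |g x| ∂(mu d) ≤ a / 16 * (16 / a) := by gcongr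
      _ = 1 := by field_simp
  choose sol hsol using fun γ : Ig d l → ℝ => exists_sol d r hr (fun x => a / 16 * mg a 1 γ x) (hφc γ)
  -- separation
  have hsep : ∀ γ ∈ F, ∀ γ' ∈ F, γ ≠ γ' →
      ε / 8192 * (2 : ℝ) ^ (-(r * l)) * ((l : ℝ) + 1) ≤ ‖sol γ - sol γ'‖ := by
    intro γ hγ γ' hγ' hne
    have hP := pairing_sub r (sol γ) (sol γ') (fun x => a / 16 * mg a 1 γ x)
      (fun x => a / 16 * mg a 1 γ' x) (fun x => a / 16 * mg a (uph r) γ x) (hνc γ) (hsol γ) (hsol γ')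
    set s0 := ∫ x, ((sol γ - sol γ' : Lp ℂ ∞ (mu d)) : Td d → ℂ) x *
      ((a / 16 * mg a (uph r) γ x : ℝ) : ℂ) ∂(mu d) with hs0
    have hle := pairing_le (sol γ - sol γ') (fun x => a / 16 * mg a (uph r) γ x) (hνc γ)
    have hle' : ‖s0‖ ≤ ‖sol γ - sol γ'‖ := by
      refine hle.trans ?_
      have := hint (fun x => mg a (uph r) γ x) (hF2 γ hγ).2
      calc ‖sol γ - sol γ'‖ * ∫ x, |a / 16 * mg a (uph r) γ x| ∂(mu d)
          ≤ ‖sol γ - sol γ'‖ * 1 := by gcongr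
        _ = _ := mul_one _
    have ha16 : ((a / 16 : ℝ) : ℂ) ≠ 0 := by
      exact_mod_cast (by positivity : a / 16 ≠ 0)
    have hs : HasSum (fun k => lamr r k * (cfr (mg a 1 γ) k - cfr (mg a 1 γ') k) *
        starRingEnd ℂ (cfr (mg a (uph r) γ) k)) (s0 * (((a / 16 : ℝ) : ℂ) ^ 2)⁻¹) := by
      have h2 := hP.mul_right ((((a / 16 : ℝ) : ℂ) ^ 2)⁻¹)
      have h3 : (fun k => lamr r k * (cfr (mg a 1 γ) k - cfr (mg a 1 γ') k) *
          starRingEnd ℂ (cfr (mg a (uph r) γ) k)) = fun k =>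
          lamr r k * (cfr (fun x => a / 16 * mg a 1 γ x) k - cfr (fun x => a / 16 * mg a 1 γ' x) k) *
          starRingEnd ℂ (cfr (fun x => a / 16 * mg a (uph r) γ x) k) *
          (((a / 16 : ℝ) : ℂ) ^ 2)⁻¹ := by
        funext k
        rw [cfr_smul, cfr_smul, cfr_smul, map_mul, Complex.conj_ofReal]
        field_simp
      rw [h3]
      exact h2
    have h3 := hF3 γ hγ γ' hγ' hne _ hs
    rw [norm_mul, norm_inv, norm_pow, Complex.norm_real, Real.norm_of_nonneg (by positivity)] at h3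
    have h4 : (a / 16) ^ 2 * ((2 : ℝ) ^ (-(r * l)) * NL d l / 16) ≤ ‖s0‖ := by
      have h5 : (a / 16) ^ 2 * (‖s0‖ * ((a / 16) ^ 2)⁻¹) = ‖s0‖ := by
        have : (a / 16) ^ 2 ≠ 0 := by positivity
        field_simp
      rw [← h5]
      gcongr
    have h6 : (a / 16) ^ 2 * ((2 : ℝ) ^ (-(r * l)) * NL d l / 16)
        = ε * l / 4096 * (2 : ℝ) ^ (-(r * l)) := by
      have : (a / 16) ^ 2 * ((2 : ℝ) ^ (-(r * l)) * NL d l / 16)
        = (a ^ 2 * NL d l) / 4096 * (2 : ℝ) ^ (-(r * l)) := by ring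
      rw [this, ha2]
    rw [h6] at h4
    refine le_trans ?_ (h4.trans hle')
    have h7 : (0 : ℝ) < (2 : ℝ) ^ (-(r * l)) := by positivity
    have h8 : ε / 8192 * ((l : ℝ) + 1) ≤ ε * l / 4096 := by
      have : ε / 8192 * ((l : ℝ) + 1) ≤ ε / 8192 * (2 * l) := by
        gcongr; linarith
      linarith
    calc ε / 8192 * (2 : ℝ) ^ (-(r * l)) * ((l : ℝ) + 1)
        = (ε / 8192 * ((l : ℝ) + 1)) * (2 : ℝ) ^ (-(r * l)) := by ring
      _ ≤ _ := by gcongr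
  have hpos : 0 < ε / 8192 * (2 : ℝ) ^ (-(r * l)) * ((l : ℝ) + 1) := by positivity
  have hinj : ∀ γ ∈ F, ∀ γ' ∈ F, sol γ = sol γ' → γ = γ' := by
    intro γ hγ γ' hγ' heq
    by_contra hne
    have := hsep γ hγ γ' hγ' hne
    rw [heq, sub_self, norm_zero] at this
    linarith
  refine ⟨F.image sol, ?_, ?_, ?_⟩
  · intro f hf
    obtain ⟨γ, hγ, rfl⟩ := Finset.mem_image.mp hf
    refine ⟨fun x => a / 16 * mg a 1 γ x, cont_memLp _ (hφc γ),
      eLp_one _ (hφc γ) (hint _ (hF2 γ hγ).1), fun k => ?_⟩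
    exact hsol γ k
  · rw [Finset.card_image_of_injOn (fun γ hγ γ' hγ' h => hinj γ hγ γ' hγ' h)]
    refine le_trans (Real.exp_le_exp.mpr ?_) hF1
    gcongr
    exact min_le_left _ _
  · intro f hf g hg hfg
    obtain ⟨γ, hγ, rfl⟩ := Finset.mem_image.mp hf
    obtain ⟨γ', hγ', rfl⟩ := Finset.mem_image.mp hg
    have hne : γ ≠ γ' := fun h => hfg (by rw [h])
    refine le_trans ?_ (hsep γ hγ γ' hγ' hne)
    gcongr
    exact min_le_right _ _

end MPcd65c1
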