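import Pool.Agent.Lib.MP_cd65c1_an.Defs2
import Pool.Agent.Lib.MP_cd65c1_an.LNum
import Pool.Agent.Lib.MP_cd65c1_an.TR
import Pool.Agent.Lib.MP_cd65c1_an.H1

/-!
# MP_cd65c1_an / TMain : lower bound for `(1,∞)`, `d ≥ 3`

`params_oneinf`: take `l` minimal with `l0 ≤ l` and `n log 2 < c Mm d l`; then `Mm d l ≤ C n` and
`log n ≤ C (l+1)`.
-/

namespace MPcd65c1

open MeasureTheory
open scoped ENNReal

private lemma Mm_pos' (d l : ℕ) : 0 < Mm d l := by unfold Mm; positivity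

private lemma le_Mm (d l : ℕ) : (l : ℝ) ≤ Mm d l := by
  unfold Mm
  have h1 : (l : ℝ) ≤ (2 : ℝ) ^ l := by
    have := Nat.lt_two_pow_self (n := l)
    exact_mod_cast this.le
  have h2 : (1 : ℝ) ≤ ((l : ℝ) + 1) ^ (d - 1) :=
    one_le_pow₀ (by linarith [(Nat.cast_nonneg l : (0:ℝ) ≤ l)])
  calc (l : ℝ) ≤ (2 : ℝ) ^ l * 1 := by linarith
    _ ≤ _ := by gcongr

private lemma Mm_succ_le (d l : ℕ) : Mm d (l + 1) ≤ 2 * 2 ^ (d - 1) * Mm d l := by
  unfold Mm
  have h0 : (0 : ℝ) ≤ l := Nat.cast_nonneg l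
  have h1 : (((l + 1 : ℕ) : ℝ) + 1) ≤ 2 * ((l : ℝ) + 1) := by push_cast; linarith
  calc (2 : ℝ) ^ (l + 1) * (((l + 1 : ℕ) : ℝ) + 1) ^ (d - 1)
      ≤ (2 : ℝ) ^ (l + 1) * (2 * ((l : ℝ) + 1)) ^ (d - 1) := by gcongr
    _ = _ := by rw [mul_pow, pow_succ]; ring

theorem params_oneinf (d : ℕ) (hd : 2 ≤ d) (r c : ℝ) (hr : 0 < r) (hc : 0 < c) (l0 : ℕ) :
    ∃ (c' : ℝ) (n0 : ℕ), 0 < c' ∧ ∀ n : ℕ, n0 ≤ n → ∃ l : ℕ, l0 ≤ l ∧
      (2 : ℝ) ^ (n : ℝ) < Real.exp (c * Mm d l) ∧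
      c' * psi1 d r n ≤ c * (2 : ℝ) ^ (-(r * l)) * ((l : ℝ) + 1) := by
  have hlog2 : 0 < Real.log 2 := Real.log_pos (by norm_num)
  -- constants
  set C1 : ℝ := 2 * 2 ^ (d - 1) * Real.log 2 / c with hC1
  have hC1' : 0 < C1 := by positivity
  set C2 : ℝ := |Real.log (c / Real.log 2)| + d with hC2
  have hd0 : (2 : ℝ) ≤ d := by exact_mod_cast hd
  have hC2' : 0 < C2 := by
    have := abs_nonneg (Real.log (c / Real.log 2))
    linarith
  set α : ℝ := ((d : ℝ) - 1) * r + 1 with hα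
  have hα0 : 0 < α := by
    have : 0 < ((d : ℝ) - 1) * r := mul_pos (by linarith) hr
    linarith
  obtain ⟨n1, hn1⟩ := exists_nat_gt (c * Mm d l0 / Real.log 2)
  refine ⟨c / (C1 ^ r * C2 ^ α), n1 + 3, by positivity, fun n hn => ?_⟩
  have hn3 : 3 ≤ n := by omega
  have hnpos : (0 : ℝ) < n := by exact_mod_cast (by omega : 0 < n)
  have hnR : (n1 : ℝ) ≤ n := by exact_mod_cast (by omega : n1 ≤ n)
  have hl0fail : c * Mm d l0 < n * Real.log 2 := by
    have : c * Mm d l0 / Real.log 2 < n := by linarith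
    rwa [div_lt_iff₀ hlog2] at this
  -- existence
  have hex : ∃ l : ℕ, l0 ≤ l ∧ n * Real.log 2 < c * Mm d l := by
    obtain ⟨m, hm⟩ := exists_nat_gt (n * Real.log 2 / c)
    refine ⟨max m l0, le_max_right _ _, ?_⟩
    rw [div_lt_iff₀ hc] at hm
    have h1 : (m : ℝ) ≤ Mm d (max m l0) := by
      refine le_trans ?_ (le_Mm d (max m l0))
      exact_mod_cast le_max_left m l0
    calc n * Real.log 2 < m * c := hm
      _ ≤ Mm d (max m l0) * c := by gcongr
      _ = _ := by ring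
  classical
  set l := Nat.find hex with hl
  have hspec := Nat.find_spec hex
  rw [← hl] at hspec
  have hlpos : l0 < l := by
    rcases hspec.1.lt_or_eq with h | h
    · exact h
    · exfalso
      have := hspec.2
      rw [← h] at this
      linarith
  obtain ⟨m, hm⟩ : ∃ m, l = m + 1 := ⟨l - 1, by omega⟩
  have hmfail : c * Mm d m ≤ n * Real.log 2 := by
    have h1 : ¬ (l0 ≤ m ∧ n * Real.log 2 < c * Mm d m) :=
      Nat.find_min hex (by rw [← hl]; omega)
    by_contra h2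
    exact h1 ⟨by omega, lt_of_not_ge h2⟩
  have hMl : Mm d l ≤ C1 * n := by
    rw [hm]
    refine (Mm_succ_le d m).trans ?_
    rw [hC1]
    have h1 : Mm d m ≤ n * Real.log 2 / c := by
      rw [le_div_iff₀ hc]; linarith
    calc (2 : ℝ) * 2 ^ (d - 1) * Mm d m ≤ 2 * 2 ^ (d - 1) * (n * Real.log 2 / c) := by gcongr
      _ = _ := by ring
  have hM0 := Mm_pos' d l
  have hlR0 : (0 : ℝ) ≤ l := Nat.cast_nonneg l
  have hl1 : (0 : ℝ) < (l : ℝ) + 1 := by linarith
  refine ⟨l, hspec.1, ?_, ?_⟩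
  · calc (2 : ℝ) ^ (n : ℝ) = Real.exp (n * Real.log 2) := by
          rw [Real.rpow_def_of_pos (by norm_num), mul_comm]
      _ < Real.exp (c * Mm d l) := Real.exp_lt_exp.mpr hspec.2
  · -- `log n ≤ C2 (l+1)`
    have hlogn0 : 0 ≤ Real.log n := Real.log_natCast_nonneg n
    have hlogn : Real.log n ≤ C2 * ((l : ℝ) + 1) := by
      have h1 : (n : ℝ) ≤ c / Real.log 2 * Mm d l := by
        rw [div_mul_eq_mul_div, le_div_iff₀ hlog2]
        exact hspec.2.le
      have h2 : Real.log n ≤ Real.log (c / Real.log 2) + Real.log (Mm d l) := by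
        rw [← Real.log_mul (by positivity) (by positivity)]
        exact Real.log_le_log hnpos h1
      have h3 : Real.log (Mm d l) = l * Real.log 2 + (d - 1 : ℕ) * Real.log ((l : ℝ) + 1) := by
        unfold Mm
        rw [Real.log_mul (by positivity) (by positivity), Real.log_pow, Real.log_pow]
      have h4 : Real.log ((l : ℝ) + 1) ≤ l := by
        have := Real.log_le_sub_one_of_pos hl1
        linarith
      have h5 : Real.log 2 ≤ 1 := by
        have := Real.log_two_lt_d9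
        linarith
      have h6 : ((d - 1 : ℕ) : ℝ) = (d : ℝ) - 1 := by
        rw [Nat.cast_sub (by omega)]; simp
      have h7 : Real.log (c / Real.log 2) ≤ |Real.log (c / Real.log 2)| := le_abs_self _
      rw [h3, h6] at h2
      have h8 : (l : ℝ) * Real.log 2 ≤ l * 1 := by gcongr
      have h9 : ((d : ℝ) - 1) * Real.log ((l : ℝ) + 1) ≤ ((d : ℝ) - 1) * l := by
        apply mul_le_mul_of_nonneg_left h4; linarith
      have h10 : |Real.log (c / Real.log 2)| ≤ |Real.log (c / Real.log 2)| * ((l : ℝ) + 1) := by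
        nlinarith [abs_nonneg (Real.log (c / Real.log 2))]
      rw [hC2]
      nlinarith
    -- `n^(-r) ≤ C1^r (Mm)^(-r)`
    have hnr : (n : ℝ) ^ (-r) ≤ C1 ^ r * (Mm d l) ^ (-r) := by
      have h1 : Mm d l / C1 ≤ n := by rw [div_le_iff₀ hC1']; linarith
      have h2 : (n : ℝ) ^ (-r) ≤ (Mm d l / C1) ^ (-r) :=
        Real.rpow_le_rpow_of_nonpos (by positivity) h1 (by linarith)
      refine h2.trans (le_of_eq ?_)
      rw [Real.div_rpow hM0.le hC1'.le, Real.rpow_neg hC1'.le, div_inv_eq_mul]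
      ring
    have hMr : (Mm d l) ^ (-r) = (2 : ℝ) ^ (-(r * l)) * ((l : ℝ) + 1) ^ (-(((d : ℝ) - 1) * r)) := by
      unfold Mm
      rw [Real.mul_rpow (by positivity) (by positivity), ← Real.rpow_natCast, ← Real.rpow_natCast,
        ← Real.rpow_mul (by norm_num), ← Real.rpow_mul hl1.le]
      have h6 : ((d - 1 : ℕ) : ℝ) = (d : ℝ) - 1 := by
        rw [Nat.cast_sub (by omega)]; simp
      rw [h6]
      congr 2 <;> ring
    have hlogα : (Real.log n) ^ α ≤ C2 ^ α * ((l : ℝ) + 1) ^ α := by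
      rw [← Real.mul_rpow hC2'.le hl1.le]
      exact Real.rpow_le_rpow hlogn0 hlogn hα0.le
    have hpsi : psi1 d r n ≤ (C1 ^ r * C2 ^ α) * ((2 : ℝ) ^ (-(r * l)) * ((l : ℝ) + 1)) := by
      unfold psi1
      calc (n : ℝ) ^ (-r) * (Real.log n) ^ (((d : ℝ) - 1) * r + 1)
          ≤ (C1 ^ r * (Mm d l) ^ (-r)) * (C2 ^ α * ((l : ℝ) + 1) ^ α) := by
            apply mul_le_mul hnr hlogα (Real.rpow_nonneg hlogn0 _) (by positivity)
        _ = (C1 ^ r * C2 ^ α) * ((2 : ℝ) ^ (-(r * l)) *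
            (((l : ℝ) + 1) ^ (-(((d : ℝ) - 1) * r)) * ((l : ℝ) + 1) ^ α)) := by
            rw [hMr]; ring
        _ = _ := by
            rw [← Real.rpow_add hl1, hα]
            have : -(((d : ℝ) - 1) * r) + (((d : ℝ) - 1) * r + 1) = 1 := by ring
            rw [this, Real.rpow_one]
    calc c / (C1 ^ r * C2 ^ α) * psi1 d r n
        ≤ c / (C1 ^ r * C2 ^ α) * ((C1 ^ r * C2 ^ α) * ((2 : ℝ) ^ (-(r * l)) * ((l : ℝ) + 1))) := by
          gcongr
      _ = c * (2 : ℝ) ^ (-(r * l)) * ((l : ℝ) + 1) := by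
          field_simp

theorem low_one_infty (d : ℕ) (hd : 3 ≤ d) (r : ℝ) (hr : 1 < r) : LOW d 1 ∞ r (psi1 d r) := by
  obtain ⟨c, hc, l0, hS⟩ := packing_one_infty d hd r hr
  obtain ⟨c', n0, hc', hP⟩ := params_oneinf d (by omega) r c (by linarith) hc l0
  refine ⟨c' / 2, n0, by positivity, fun n hn ε hcov => ?_⟩
  obtain ⟨l, hl, hlt, hpsi⟩ := hP n hn
  obtain ⟨S, hSW, hScard, hSsep⟩ := hS l hl
  have hsn : Sn (fun v : Lp ℂ ∞ (mu d) => ‖v‖) :=
    ⟨fun x y => norm_add_le x y, fun t x => by rw [norm_smul, Real.norm_eq_abs]⟩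
  by_contra hcon
  rw [not_le] at hcon
  have h2 : 2 * ε < c * (2 : ℝ) ^ (-(r * l)) * ((l : ℝ) + 1) := by
    have : 2 * ε < c' * psi1 d r n := by linarith
    linarith
  have h3 := Cov.card_le_of_separated hsn hcov S hSW
    (fun x hx y hy hxy => lt_of_lt_of_le h2 (hSsep x hx y hy hxy))
  linarith

end MPcd65c1
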