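import Pool.Agent.Lib.MP_cd65c1_an.UAll
import Pool.Agent.Lib.MP_cd65c1_an.LMain
import Pool.Agent.Lib.MP_cd65c1_an.EInf
import Pool.Agent.Lib.MP_cd65c1_an.EOne
import Pool.Agent.Lib.MP_cd65c1_an.EntM
import Pool.Agent.Lib.MP_cd65c1_an.TMain

/-!
# MP_cd65c1_an / Main : the theorem for the multiplier form of the class, proved from the stubs
-/

namespace MPcd65c1

open MeasureTheory
open scoped ENNReal

/-- choice of an integer `m ≥ 2`, `1/m < r` -/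
theorem exists_m (r : ℝ) (hr : 0 < r) : ∃ m : ℕ, 2 ≤ m ∧ 1 / (m : ℝ) < r := by
  obtain ⟨m, hm⟩ := exists_nat_gt (1 / r)
  refine ⟨max m 2, le_max_right _ _, ?_⟩
  have h1 : (1 / r : ℝ) < (max m 2 : ℕ) := lt_of_lt_of_le hm (by exact_mod_cast le_max_left _ _)
  have h2 : (0 : ℝ) < (max m 2 : ℕ) := lt_of_le_of_lt (by positivity) h1
  rw [div_lt_iff₀ h2]
  rw [div_lt_iff₀ hr] at h1
  linarith

theorem LOW_infty_infty (d : ℕ) (hd : 2 ≤ d) (r : ℝ) (hr : 0 < r) :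
    LOW d ∞ ∞ r (psi0 d r) := by
  obtain ⟨m, hm, hmr⟩ := exists_m r hr
  have h1 : (1 : ℝ≥0∞) < (m : ℝ≥0∞) := by exact_mod_cast (by omega : 1 < m)
  have h2 : (((m : ℝ≥0∞))⁻¹).toReal < r := by
    rw [ENNReal.toReal_inv, ENNReal.toReal_natCast, ← one_div]
    exact hmr
  obtain ⟨hU, hE⟩ := up_infty d hd (m : ℝ≥0∞) h1 r hr h2
  obtain ⟨-, hE'⟩ := up_infty d hd ∞ ENNReal.one_lt_top r hr (by simpa using hr)
  exact low_infty d (by omega) r hr m hm (low_infty_even d hd r hr m (by omega)) hU hE hE'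

theorem LOW_one_one (d : ℕ) (hd : 2 ≤ d) (r : ℝ) (hr : 0 < r) : LOW d 1 1 r (psi0 d r) := by
  obtain ⟨m, hm, hmr⟩ := exists_m r hr
  have hm' : (2 : ℝ) ≤ m := by exact_mod_cast hm
  have hq1 : (1 : ℝ) ≤ 2 * (m : ℝ) / (2 * m - 1) := by
    rw [le_div_iff₀ (by linarith)]
    linarith
  have hq0 : (1 : ℝ) ≤ (m : ℝ) / (m - 1) := by
    rw [le_div_iff₀ (by linarith)]
    linarith
  haveI : Fact (1 ≤ ENNReal.ofReal (2 * (m : ℝ) / (2 * m - 1))) :=
    ⟨by simpa using ENNReal.ofReal_le_ofReal hq1⟩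
  haveI : Fact (1 ≤ ENNReal.ofReal ((m : ℝ) / (m - 1))) :=
    ⟨by simpa using ENNReal.ofReal_le_ofReal hq0⟩
  have hr0 : 1 - ((ENNReal.ofReal ((m : ℝ) / (m - 1)))⁻¹).toReal < r := by
    rw [ENNReal.toReal_inv, ENNReal.toReal_ofReal (by linarith)]
    have : 1 - ((m : ℝ) / (m - 1))⁻¹ = 1 / (m : ℝ) := by
      have : (m : ℝ) ≠ 0 := by linarith
      rw [inv_div]
      field_simp
      ring
    rw [this]
    exact hmr
  obtain ⟨hU, hE⟩ := up_one d hd (ENNReal.ofReal ((m : ℝ) / (m - 1))) ENNReal.ofReal_ne_top r hr hr0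
  have hconj : (ENNReal.ofReal (2 * (m : ℝ) / (2 * m - 1))).HolderConjugate
      ((2 * m : ℕ) : ℝ≥0∞) := by
    rw [ENNReal.holderConjugate_iff]
    have e1 : ((2 * m : ℕ) : ℝ≥0∞) = ENNReal.ofReal (2 * (m : ℝ)) := by
      rw [← ENNReal.ofReal_natCast]
      push_cast
      rfl
    rw [e1, ← ENNReal.ofReal_inv_of_pos (by positivity), ← ENNReal.ofReal_inv_of_pos (by positivity),
      ← ENNReal.ofReal_add (by positivity) (by positivity)]
    have : (2 * (m : ℝ) / (2 * m - 1))⁻¹ + (2 * (m : ℝ))⁻¹ = 1 := by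
      have : (m : ℝ) ≠ 0 := by linarith
      rw [inv_div]
      field_simp
      ring
    rw [this, ENNReal.ofReal_one]
  exact low_one d (by omega) r hr m hm _ _ rfl rfl
    (low_one_even d hd r hr m (by omega) _ hconj) hU hE

/-- MAIN THEOREM, multiplier form: all cases of Q1. -/
theorem main_multiplier (d : ℕ) (hd : 3 ≤ d) (p q : ℝ≥0∞) [Fact (1 ≤ p)] [Fact (1 ≤ q)]
    (hpq : p = 1 ∨ q = ∞) (r : ℝ) (hr0 : 0 < r) (hr : (p⁻¹).toReal - (q⁻¹).toReal < r) :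
    EX d p q r ∧ ∃ c C : ℝ, 0 < c ∧ 0 < C ∧ ∀ n : ℕ, 3 ≤ n →
      c * psi d p q r n ≤ ent n (WR d r p q) ∧ ent n (WR d r p q) ≤ ent n (W d r p q) ∧
      ent n (W d r p q) ≤ C * psi d p q r n := by
  have hd2 : 2 ≤ d := by omega
  have hp1 : (1 : ℝ≥0∞) ≤ p := Fact.out
  have hq1 : (1 : ℝ≥0∞) ≤ q := Fact.out
  by_cases h : p = 1 ∧ q = ∞
  · obtain ⟨rfl, rfl⟩ := h
    have hr' : 1 < r := by simpa using hr
    obtain ⟨hU, hE⟩ := up_one_infty d hd2 r hr'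
    refine ⟨hE, ?_⟩
    have := ent_two_sided d r 1 ∞ (psi1 d r) (fun n hn => psi1_pos d r n hn) (psi1_bdd d r hr0)
      hU (low_one_infty d hd r hr')
    simpa [psi_eq] using this
  · have hpsi : ∀ n, psi d p q r n = psi0 d r n := by
      intro n
      rw [psi_eq, if_neg h]
    simp only [hpsi]
    rcases hpq with rfl | rfl
    · have hq : q ≠ ∞ := fun hq => h ⟨rfl, hq⟩
      obtain ⟨hU, hE⟩ := up_one d hd2 q hq r hr0 (by simpa using hr)
      exact ⟨hE, ent_two_sided d r 1 q (psi0 d r) (fun n hn => psi0_pos d r n hn)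
        (psi0_bdd d r hr0) hU (low_transfer d r _ q (LOW_one_one d hd2 r hr0) hE)⟩
    · have hp : 1 < p := lt_of_le_of_ne hp1 (fun hp => h ⟨hp.symm, rfl⟩)
      obtain ⟨hU, hE⟩ := up_infty d hd2 p hp r hr0 (by simpa using hr)
      exact ⟨hE, ent_two_sided d r p ∞ (psi0 d r) (fun n hn => psi0_pos d r n hn)
        (psi0_bdd d r hr0) hU (low_mono_src d r _ le_top (LOW_infty_infty d hd2 r hr0))⟩

end MPcd65c1
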