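import Pool.Agent.Lib.MP_cd65c1_an.USimple
import Pool.Agent.Lib.MP_cd65c1_an.UTrunc
import Pool.Agent.Lib.MP_cd65c1_an.ACount

/-!
# MP_cd65c1_an / UInt2 : source and target properties for intermediate exponents (about 160 lines)

Let `m ≥ 2`, `p1 = 2m/(2m-1)`.

`SP_interp`: `1 < p < 2`, `p1 < p`.  Given `SP d p1 (1/2) 0` (constant `C ≥ 1`), get `SP d p γ 0` with
`γ = (1/p - 1/2)/(1 - 1/m)`.  For `φ` in the unit ball of `L_p` and `s > 0` `truncate` gives `φ = φ1 + φ2`,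
`‖φ1‖_2 ≤ s^(1-p/2)`, `‖φ2‖_p1 ≤ s^(1-p/p1)`; so `Img L 1 p ⊆ s^(1-p/2) Img L 1 2 + s^(1-p/p1) Img L 1 p1`
(`Cov.trunc`; scale `φ1`, `φ2`; `cf_add`).  `Cov (l2 L) (Img L 1 2) 1 1` (one ball) and
`Cov (l2 L) (Img L 1 p1) (2^k) (C t^(1/2))`, `t = Mm/k`.  Error `s^(1-p/2) + s^(1-p/p1) C t^(1/2)`; choose
`s = t^e`, `e = (1/2)/(p/p1 - p/2)`, so that `s^(1-p/p1) t^(1/2) = s^(1-p/2) = t^γ'`,
`γ' = (1-p/2) e = (1/2)(1/p-1/2)/(1/p1-1/2) = (1/p-1/2)/(1-1/m)` because `1/p1 - 1/2 = (1-1/m)/2`.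

`TQ_interp`: `2 < q < 2m`.  Given `TQ d (2m) (1/2) 0`, get `TQ d q γ 0`, `γ = (1/2 - 1/q)/(1 - 1/m)`:
`Cov.interp` with `ν = l2 L = nrm 2 ∘ tp` (one ball, `N = 1`, radius `1`) and `ν' = nrm (2m) ∘ tp`,
`θ = (1/2-1/q)/(1/2-1/(2m)) = 2γ`, `nrm_interp`: `1/q = (1-θ)/2 + θ/(2m)`.  Error `2 (C t^(1/2))^θ`.

`SP_all`, `TQ_all`: for `δ > 0` choose `m` with `(1/p-1/2)/(1-1/m) < 1/p - 1/2 + δ`, `p1 < p`, resp. `q < 2m`.
-/

namespace MPcd65c1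

open MeasureTheory
open scoped ENNReal

private lemma scale_img {d : ℕ} (L : Finset (Fin d → ℤ)) (q : ℝ≥0∞) {σ : ℝ} (hσ : 0 < σ)
    {ψ : Td d → ℂ} (hm : MemLp ψ q (mu d)) (h : eLpNorm ψ q (mu d) ≤ ENNReal.ofReal σ) :
    ∃ b ∈ Img L 1 q, ∀ k, (σ • b) k = if k ∈ L then cf ψ k else 0 := by
  have hm' : MemLp (fun x => ((σ⁻¹ : ℝ) : ℂ) * ψ x) q (mu d) := hm.const_mul _
  refine ⟨fun k => if k ∈ L then (1 : CV d) k * cf (fun x => ((σ⁻¹ : ℝ) : ℂ) * ψ x) k else 0,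
    ⟨fun x => ((σ⁻¹ : ℝ) : ℂ) * ψ x, hm', ?_, rfl⟩, ?_⟩
  · have h1 : eLpNorm (fun x => ((σ⁻¹ : ℝ) : ℂ) * ψ x) q (mu d) =
        ‖((σ⁻¹ : ℝ) : ℂ)‖ₑ * eLpNorm ψ q (mu d) :=
      eLpNorm_const_smul (((σ⁻¹ : ℝ) : ℂ)) ψ q (mu d)
    have h2 : ‖((σ⁻¹ : ℝ) : ℂ)‖ₑ = ENNReal.ofReal σ⁻¹ := by
      rw [← ofReal_norm, Complex.norm_real, Real.norm_of_nonneg (by positivity)]
    rw [h1, h2]
    calc ENNReal.ofReal σ⁻¹ * eLpNorm ψ q (mu d) ≤ ENNReal.ofReal σ⁻¹ * ENNReal.ofReal σ := by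
          gcongr
      _ = 1 := by
          rw [← ENNReal.ofReal_mul (by positivity), inv_mul_cancel₀ hσ.ne', ENNReal.ofReal_one]
  · intro k
    rw [Pi.smul_apply]
    by_cases hk : k ∈ L
    · simp only [if_pos hk, Pi.one_apply, one_mul]
      rw [cf_smul, Complex.real_smul, ← mul_assoc, ← Complex.ofReal_mul, mul_inv_cancel₀ hσ.ne']
      simp
    · simp only [if_neg hk, smul_zero]

private lemma img_two_le {d : ℕ} (L : Finset (Fin d → ℤ)) :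
    ∀ a ∈ Img L 1 (2 : ℝ≥0∞), l2 L a ≤ 1 := by
  rintro a ⟨φ, hφ, h1, rfl⟩
  have e1 : l2 L (fun k => if k ∈ L then (1 : CV d) k * cf φ k else 0) = l2 L (cf φ) := by
    unfold l2
    congr 1
    apply Finset.sum_congr rfl
    intro k hk
    simp only [if_pos hk, Pi.one_apply, one_mul]
  rw [e1]
  refine (bessel L hφ).trans ?_
  unfold nrm
  exact ENNReal.toReal_le_of_le_ofReal zero_le_one (by rwa [ENNReal.ofReal_one])

theorem SP_interp (d : ℕ) (hd : 1 ≤ d) (m : ℕ) (hm : 2 ≤ m) (p : ℝ)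
    (hp1 : 2 * (m : ℝ) / (2 * m - 1) < p) (hp2 : p < 2)
    (H : SP d (ENNReal.ofReal (2 * (m : ℝ) / (2 * m - 1))) (1 / 2) 0) :
    SP d (ENNReal.ofReal p) ((1 / p - 1 / 2) / (1 - 1 / (m : ℝ))) 0 := by
  have hmr : (2 : ℝ) ≤ m := by exact_mod_cast hm
  set p1 : ℝ := 2 * (m : ℝ) / (2 * m - 1) with hp1d
  have hden : 0 < 2 * (m : ℝ) - 1 := by linarith
  have hp11 : 1 ≤ p1 := by
    rw [hp1d, le_div_iff₀ hden]
    linarith
  have hp0 : 0 < p := by linarith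
  obtain ⟨C, hC, hcov⟩ := H
  refine ⟨1 + C, by positivity, fun l k hk => ?_⟩
  have hcov' := hcov l k hk
  have hM := Mm_pos d l
  set t : ℝ := Mm d l / k with ht
  have ht0 : 0 < t := div_pos hM hk
  set e : ℝ := 1 / (p * (1 - 1 / (m : ℝ))) with he
  have h1m : 0 < 1 - 1 / (m : ℝ) := by
    rw [sub_pos, div_lt_one (by linarith)]
    linarith
  set s : ℝ := t ^ e with hs
  have hs0 : 0 < s := Real.rpow_pos_of_pos ht0 _
  set γ : ℝ := (1 / p - 1 / 2) / (1 - 1 / (m : ℝ)) with hγ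
  have hs1 : s ^ (1 - p / 2) = t ^ γ := by
    rw [hs, ← Real.rpow_mul ht0.le]
    congr 1
    rw [he, hγ]
    field_simp
  have hs2 : s ^ (1 - p / p1) * t ^ (1 / 2 : ℝ) = t ^ γ := by
    rw [hs, ← Real.rpow_mul ht0.le, ← Real.rpow_add ht0]
    congr 1
    rw [he, hγ, hp1d]
    have hm0 : (m : ℝ) ≠ 0 := by linarith
    have hm1 : (m : ℝ) - 1 ≠ 0 := by linarith
    field_simp
    ring
  have hν := sn_l2 (LL d l)
  have hB1 : Cov (l2 (LL d l)) (Img (LL d l) 1 (2 : ℝ≥0∞)) 1 1 :=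
    Cov.one_ball (img_two_le _) le_rfl
  have hT := Cov.trunc (A := Img (LL d l) 1 (ENNReal.ofReal p)) (s1 := s ^ (1 - p / 2))
    (s2 := s ^ (1 - p / p1)) hν (Real.rpow_nonneg hs0.le _) (Real.rpow_nonneg hs0.le _) (by
      rintro a ⟨φ, hφ, hφ1, rfl⟩
      obtain ⟨φ1, φ2, hsum, -, hm1, hm2, -, h2, h3⟩ := truncate p (by linarith) s hs0 hφ hφ1
      obtain ⟨hL1, hN1⟩ := h2 2 hp2.le
      obtain ⟨hL2, hN2⟩ := h3 p1 hp11 hp1.le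
      rw [ENNReal.ofReal_ofNat] at hL1 hN1
      obtain ⟨b1, hb1, hb1'⟩ := scale_img (LL d l) 2 (Real.rpow_pos_of_pos hs0 (1 - p / 2)) hL1 hN1
      obtain ⟨b2, hb2, hb2'⟩ := scale_img (LL d l) (ENNReal.ofReal p1)
        (Real.rpow_pos_of_pos hs0 (1 - p / p1)) hL2 hN2
      refine ⟨b1, hb1, b2, hb2, ?_⟩
      funext j
      rw [Pi.add_apply, hb1' j, hb2' j]
      by_cases hj : j ∈ LL d l
      · simp only [if_pos hj, Pi.one_apply, one_mul]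
        have hi1 : Integrable φ1 (mu d) := hL1.integrable (by norm_num)
        have hi2 : Integrable φ2 (mu d) := hL2.integrable (by
          rw [ENNReal.one_le_ofReal]; exact hp11)
        have hφe : φ = fun x => φ1 x + φ2 x := funext hsum
        rw [hφe, cf_add hi1 hi2]
      · simp only [if_neg hj, add_zero]) hB1 hcov'
  refine hT.mono le_rfl (by rw [one_mul]) ?_ (fun v => le_rfl)
  have e0 : s ^ (1 - p / 2) * 1 + s ^ (1 - p / p1) * (C * ((l : ℝ) + 1) ^ (0 : ℝ) * t ^ (1 / 2 : ℝ)) =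
      s ^ (1 - p / 2) + C * ((l : ℝ) + 1) ^ (0 : ℝ) * (s ^ (1 - p / p1) * t ^ (1 / 2 : ℝ)) := by ring
  rw [e0, hs1, hs2, Real.rpow_zero]
  apply le_of_eq
  ring

theorem TQ_interp (d : ℕ) (hd : 1 ≤ d) (m : ℕ) (hm : 2 ≤ m) (q : ℝ) (hq1 : 2 < q)
    (hq2 : q < 2 * m) (H : TQ d ((2 * m : ℕ) : ℝ≥0∞) (1 / 2) 0) :
    TQ d (ENNReal.ofReal q) ((1 / 2 - 1 / q) / (1 - 1 / (m : ℝ))) 0 := by
  have hmr : (2 : ℝ) ≤ m := by exact_mod_cast hm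
  obtain ⟨C, hC, hcov⟩ := H
  have h1m : 0 < 1 - 1 / (m : ℝ) := by
    rw [sub_pos, div_lt_one (by linarith)]
    linarith
  have hq0 : 0 < q := by linarith
  have ha : 0 < 1 / 2 - 1 / q := by
    rw [sub_pos, div_lt_div_iff₀ hq0 (by norm_num)]
    linarith
  set γ : ℝ := (1 / 2 - 1 / q) / (1 - 1 / (m : ℝ)) with hγ
  have hγ0 : 0 < γ := div_pos ha h1m
  set θ : ℝ := 2 * γ with hθ
  have hθ0 : 0 < θ := by positivity
  have hmq : 1 / (2 * (m : ℝ)) < 1 / q := by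
    rw [div_lt_div_iff₀ (by linarith) hq0]
    linarith
  have hθ1 : θ < 1 := by
    have e1 : (1 / (2 * (m : ℝ))) = (1 / (m : ℝ)) / 2 := by
      field_simp
    rw [e1] at hmq
    rw [hθ, hγ, ← mul_div_assoc, div_lt_one h1m]
    linarith
  have hrel : 1 / q = (1 - θ) / 2 + θ / (2 * (m : ℝ)) := by
    have hm0 : (m : ℝ) ≠ 0 := by linarith
    have e2 : θ * (1 - 1 / (m : ℝ)) = 2 * (1 / 2 - 1 / q) := by
      rw [hθ, hγ, mul_assoc, div_mul_cancel₀ _ h1m.ne']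
    have e3 : (1 - θ) / 2 + θ / (2 * (m : ℝ)) = 1 / 2 - (θ * (1 - 1 / (m : ℝ))) / 2 := by
      field_simp
      ring
    rw [e3, e2]
    ring
  refine ⟨2 * C ^ θ, by positivity, fun l k hk => ?_⟩
  have hcov' := hcov l k hk
  have hM := Mm_pos d l
  set t : ℝ := Mm d l / k with ht
  have ht0 : 0 < t := div_pos hM hk
  have h2m : ((2 * m : ℕ) : ℝ≥0∞) = ENNReal.ofReal (2 * (m : ℝ)) := by
    rw [show (2 * (m : ℝ)) = ((2 * m : ℕ) : ℝ) by push_cast; ring, ENNReal.ofReal_natCast]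
  have h12m : (1 : ℝ≥0∞) ≤ ((2 * m : ℕ) : ℝ≥0∞) := by
    rw [Nat.one_le_cast]
    omega
  have hone : Cov (l2 (LL d l)) {c : CV d | l2 (LL d l) c ≤ 1} 1 1 :=
    Cov.one_ball (fun a ha => ha) le_rfl
  have hC0 : 0 ≤ C * ((l : ℝ) + 1) ^ (0 : ℝ) * t ^ (1 / 2 : ℝ) := by positivity
  have hI := Cov.interp (ν'' := fun c : CV d => nrm (ENNReal.ofReal q) (tp (LL d l) c))
    (sn_l2 (LL d l)) (sn_nrm' ((2 * m : ℕ) : ℝ≥0∞) h12m (LL d l)) hθ0.le hθ1.le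
    (by
      intro v
      have h := nrm_interp 2 q (2 * (m : ℝ)) θ (by norm_num) (by linarith) (by linarith) hθ0 hθ1
        hrel (f := (tp (LL d l) v : Td d → ℂ)) (memLp_tp _ _ _) (memLp_tp _ _ _)
      rw [ENNReal.ofReal_ofNat, nrm_two_tp, ← h2m] at h
      exact h) zero_le_one hC0 hone hcov'
  refine hI.mono le_rfl (by rw [one_mul]) ?_ (fun v => le_rfl)
  rw [Real.one_rpow, one_mul, Real.rpow_zero, mul_one, Real.mul_rpow hC.le (by positivity),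
    ← Real.rpow_mul ht0.le, mul_one, show (1 / 2 : ℝ) * θ = γ by rw [hθ]; ring]
  apply le_of_eq
  ring

private lemma exists_m (a δ B : ℝ) (ha : 0 < a) (hδ : 0 < δ) :
    ∃ m : ℕ, 2 ≤ m ∧ B < m ∧ 0 ≤ a / (1 - 1 / (m : ℝ)) ∧ a / (1 - 1 / (m : ℝ)) < a + δ := by
  obtain ⟨m, hm⟩ := exists_nat_gt (max (max B ((a + δ) / δ)) 2)
  have h1 : B < m := lt_of_le_of_lt ((le_max_left _ _).trans (le_max_left _ _)) hm
  have h2 : (a + δ) / δ < m := lt_of_le_of_lt ((le_max_right _ _).trans (le_max_left _ _)) hm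
  have h3 : (2 : ℝ) < m := lt_of_le_of_lt (le_max_right _ _) hm
  have h3' : 2 < m := by exact_mod_cast h3
  have h1m : 0 < 1 - 1 / (m : ℝ) := by
    rw [sub_pos, div_lt_one (by linarith)]
    linarith
  refine ⟨m, h3'.le, h1, by positivity, ?_⟩
  rw [div_lt_iff₀ h1m]
  rw [div_lt_iff₀ hδ] at h2
  have hm0 : (0 : ℝ) < m := by linarith
  have e1 : (a + δ) * (1 - 1 / (m : ℝ)) = a + δ - (a + δ) / m := by ring
  rw [e1]
  have h4 : (a + δ) / m < δ := by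
    rw [div_lt_iff₀ hm0]
    linarith
  linarith

theorem SP_all (d : ℕ) (hd : 1 ≤ d) (p : ℝ) (hp1 : 1 < p) (hp2 : p < 2)
    (H : ∀ m : ℕ, 2 ≤ m → SP d (ENNReal.ofReal (2 * (m : ℝ) / (2 * m - 1))) (1 / 2) 0)
    (δ : ℝ) (hδ : 0 < δ) :
    ∃ g : ℝ, 0 ≤ g ∧ g < 1 / p - 1 / 2 + δ ∧ SP d (ENNReal.ofReal p) g 0 := by
  have ha : 0 < 1 / p - 1 / 2 := by
    rw [sub_pos, div_lt_div_iff₀ (by norm_num) (by linarith)]
    linarith
  obtain ⟨m, hm2, hB, h0, h1⟩ := exists_m (1 / p - 1 / 2) δ (p / (2 * (p - 1))) ha hδ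
  refine ⟨_, h0, h1, SP_interp d hd m hm2 p ?_ hp2 (H m hm2)⟩
  have hmr : (2 : ℝ) ≤ m := by exact_mod_cast hm2
  rw [div_lt_iff₀ (by linarith)]
  rw [div_lt_iff₀ (by linarith)] at hB
  linarith

theorem TQ_all (d : ℕ) (hd : 1 ≤ d) (q : ℝ) (hq : 2 < q)
    (H : ∀ m : ℕ, 2 ≤ m → TQ d ((2 * m : ℕ) : ℝ≥0∞) (1 / 2) 0) (δ : ℝ) (hδ : 0 < δ) :
    ∃ g : ℝ, 0 ≤ g ∧ g < 1 / 2 - 1 / q + δ ∧ TQ d (ENNReal.ofReal q) g 0 := by
  have ha : 0 < 1 / 2 - 1 / q := by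
    rw [sub_pos, div_lt_div_iff₀ (by linarith) (by norm_num)]
    linarith
  obtain ⟨m, hm2, hB, h0, h1⟩ := exists_m (1 / 2 - 1 / q) δ (q / 2) ha hδ
  refine ⟨_, h0, h1, TQ_interp d hd m hm2 q hq ?_ (H m hm2)⟩
  linarith

end MPcd65c1
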