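import Pool.Agent.Lib.MP_cd65c1_an.USimple
import Pool.Agent.Lib.MP_cd65c1_an.UTrunc
import Pool.Agent.Lib.MP_cd65c1_an.JTwo

/-!
# MP_cd65c1_an / USmall : level bounds for small smoothness (about 180 lines)

`T = Tt (2-d) l = 2^l (l+1)^(2-d)`.  Algebra (`small_alg`):
`(l+1)^(1/2) (Tt (d-1) l/k)^(1/2) = (l+1)^(d-1) (T/k)^(1/2)`.

`small_infty`: `p > 2` real.  `H`: `LB d 2 ∞ r al (d-1) (1/2) (1/2)`.  By the algebra
`Cov (nrm ∞ ∘ tp) (Img LL (alm r l) 2) (2^k) (C 2^(-rl) (l+1)^(d-1) (T/k)^(1/2))`.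
For `φ` in the unit ball of `L_p`, `s = (T/k)^(1/p)`: `truncate`: `φ = φ1 + φ2`, `‖φ1 x‖ ≤ s`,
`‖φ2‖_2 ≤ s^(1-p/2)`.  `nrm ∞ (A_l φ1) ≤ C 2^(-rl) (l+1)^(d-1) s` (`alm_kernel`, `conv_infty`): one ball.
`Cov.trunc` with `B1 = {c : c = al*cf φ1 on LL, ‖φ1‖_∞ ≤ 1}`, `B2 = Img LL (alm r l) 2`, `s1 = s`, `s2 = s^(1-p/2)`:
error `C 2^(-rl) (l+1)^(d-1) [s + s^(1-p/2) (T/k)^(1/2)] = 2 C 2^(-rl)(l+1)^(d-1) (T/k)^(1/p)`.

`small_one`: `1 < q < 2` real, `θ = 2 - 2/q`, `1/q = (1-θ)/1 + θ/2`.  `H`: `LB d 1 2 r al (d-1) (1/2) (1/2)`.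
`Cov.interp` with `ν = nrm 1 ∘ tp` (one ball of radius `C 2^(-rl)(l+1)^(d-1)`, `conv_one`) and
`ν' = nrm 2 ∘ tp`; `nrm_interp`.  Error `2 (C 2^(-rl)(l+1)^(d-1))^(1-θ) (C 2^(-rl)(l+1)^(d-1)(T/k)^(1/2))^θ`,
exponent `θ/2 = 1 - 1/q`.
-/

namespace MPcd65c1

open MeasureTheory
open scoped ENNReal

private theorem USmall_Tt_pos (g : ℝ) (l : ℕ) : 0 < Tt g l := by
  unfold Tt
  positivity

theorem small_alg (d : ℕ) (hd : 1 ≤ d) {p q : ℝ≥0∞} {r : ℝ} {a : ℕ → CV d}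
    (H : LB d p q r a ((d : ℝ) - 1) (1 / 2) (1 / 2)) :
    LB d p q r a (2 - (d : ℝ)) ((d : ℝ) - 1) (1 / 2) := by
  obtain ⟨C, hC, h⟩ := H
  refine ⟨C, hC, fun l k hk => ?_⟩
  have h1 := h l k hk
  have hl : (0 : ℝ) < (l : ℝ) + 1 := by positivity
  have e : C * (2 : ℝ) ^ (-(r * l)) * ((l : ℝ) + 1) ^ ((1 : ℝ) / 2) *
      (Tt ((d : ℝ) - 1) l / k) ^ ((1 : ℝ) / 2) =
      C * (2 : ℝ) ^ (-(r * l)) * ((l : ℝ) + 1) ^ ((d : ℝ) - 1) *
      (Tt (2 - (d : ℝ)) l / k) ^ ((1 : ℝ) / 2) := by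
    have e1 : Tt ((d : ℝ) - 1) l / k = ((l : ℝ) + 1) ^ (2 * (d : ℝ) - 3) *
        (Tt (2 - (d : ℝ)) l / k) := by
      unfold Tt
      have e2 : ((l : ℝ) + 1) ^ ((d : ℝ) - 1) = ((l : ℝ) + 1) ^ (2 * (d : ℝ) - 3) *
          ((l : ℝ) + 1) ^ (2 - (d : ℝ)) := by
        rw [← Real.rpow_add hl]
        congr 1
        ring
      rw [e2]
      ring
    have e3 : ((l : ℝ) + 1) ^ ((d : ℝ) - 1) = ((l : ℝ) + 1) ^ ((1 : ℝ) / 2) *
        (((l : ℝ) + 1) ^ (2 * (d : ℝ) - 3)) ^ ((1 : ℝ) / 2) := by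
      rw [← Real.rpow_mul hl.le, ← Real.rpow_add hl]
      congr 1
      ring
    have hT := USmall_Tt_pos (2 - (d : ℝ)) l
    rw [e1, Real.mul_rpow (by positivity) (by positivity), e3]
    ring
  rw [e] at h1
  exact h1

private theorem USmall_tp_if {d : ℕ} (L : Finset (Fin d → ℤ)) (c : CV d) :
    tp L (fun k => if k ∈ L then c k else 0) = tp L c := by
  unfold tp
  refine Finset.sum_congr rfl fun k hk => ?_
  simp only [if_pos hk]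

private theorem USmall_pow (d : ℕ) (hd : 1 ≤ d) (l : ℕ) :
    ((l : ℝ) + 1) ^ (d - 1) = ((l : ℝ) + 1) ^ ((d : ℝ) - 1) := by
  rw [← Real.rpow_natCast, Nat.cast_sub hd, Nat.cast_one]

private theorem USmall_int {d : ℕ} {φ : Td d → ℂ} (hφ : Integrable φ (mu d)) (k : Fin d → ℤ) :
    Integrable (fun x => UnitAddTorus.mFourier (-k) x * φ x) (mu d) := by
  refine hφ.bdd_mul (c := 1) ?_ ?_
  · exact (UnitAddTorus.mFourier (-k)).continuous.aestronglyMeasurable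
  · refine Filter.Eventually.of_forall fun x => ?_
    refine (ContinuousMap.norm_coe_le_norm _ x).trans ?_
    rw [UnitAddTorus.mFourier_norm]

private theorem USmall_cf_add {d : ℕ} {φ ψ χ : Td d → ℂ} (h : ∀ x, χ x = φ x + ψ x)
    (hφ : Integrable φ (mu d)) (hψ : Integrable ψ (mu d)) (k : Fin d → ℤ) :
    cf χ k = cf φ k + cf ψ k := by
  unfold cf
  rw [← integral_add (USmall_int hφ k) (USmall_int hψ k)]
  refine integral_congr_ae (Filter.Eventually.of_forall fun x => ?_)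
  simp only [h x]
  ring

private theorem USmall_cf_smul {d : ℕ} (t : ℂ) (φ : Td d → ℂ) (k : Fin d → ℤ) :
    cf (fun x => t * φ x) k = t * cf φ k := by
  unfold cf
  rw [← integral_const_mul]
  refine integral_congr_ae (Filter.Eventually.of_forall fun x => ?_)
  simp only
  ring

/-- normalisation -/
private theorem USmall_norm {d : ℕ} {q : ℝ≥0∞} {φ : Td d → ℂ} {s : ℝ} (hs : 0 < s)
    (hφ : MemLp φ q (mu d)) (h1 : eLpNorm φ q (mu d) ≤ ENNReal.ofReal s) :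
    MemLp (fun x => ((s⁻¹ : ℝ) : ℂ) * φ x) q (mu d) ∧
      eLpNorm (fun x => ((s⁻¹ : ℝ) : ℂ) * φ x) q (mu d) ≤ 1 := by
  refine ⟨hφ.const_mul _, ?_⟩
  have e : (fun x => ((s⁻¹ : ℝ) : ℂ) * φ x) = ((s⁻¹ : ℝ) : ℂ) • φ := by
    funext x
    simp
  rw [e, eLpNorm_const_smul]
  have e2 : ‖((s⁻¹ : ℝ) : ℂ)‖ₑ = ENNReal.ofReal s⁻¹ := by
    rw [← ofReal_norm_eq_enorm, Complex.norm_real, Real.norm_eq_abs, abs_of_pos (inv_pos.2 hs)]
  rw [e2]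
  calc ENNReal.ofReal s⁻¹ * eLpNorm φ q (mu d) ≤ ENNReal.ofReal s⁻¹ * ENNReal.ofReal s := by
        gcongr
    _ = 1 := by
        rw [← ENNReal.ofReal_mul (inv_pos.2 hs).le, inv_mul_cancel₀ hs.ne', ENNReal.ofReal_one]

theorem small_infty (d : ℕ) (hd : 1 ≤ d) (r : ℝ) (hr : 0 < r) (p : ℝ) (hp : 2 < p)
    (H : LB d 2 ∞ r (fun l => alm r l) ((d : ℝ) - 1) (1 / 2) (1 / 2)) :
    LB d (ENNReal.ofReal p) ∞ r (fun l => alm r l) (2 - (d : ℝ)) ((d : ℝ) - 1) (1 / p) := by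
  obtain ⟨C2, hC2, h2⟩ := small_alg d hd H
  obtain ⟨C1, hC1, hker⟩ := alm_kernel d hd r hr
  have hp0 : 0 < p := by linarith
  refine ⟨C1 + C2, by positivity, fun l k hk => ?_⟩
  have hl : (0 : ℝ) < (l : ℝ) + 1 := by positivity
  have hT := USmall_Tt_pos (2 - (d : ℝ)) l
  set R : ℝ := Tt (2 - (d : ℝ)) l / k with hR
  have hR0 : 0 < R := by positivity
  set s : ℝ := R ^ (1 / p) with hs
  have hs0 : 0 < s := by positivity
  set s2 : ℝ := s ^ (1 - p / 2) with hs2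
  have hs20 : 0 < s2 := by positivity
  set B1 : Set (CV d) := {c | ∃ φ : Td d → ℂ, MemLp φ ∞ (mu d) ∧ eLpNorm φ ∞ (mu d) ≤ 1 ∧
    c = fun k => if k ∈ LL d l then alm r l k * cf φ k else 0} with hB1
  set e1 : ℝ := C1 * (2 : ℝ) ^ (-(r * l)) * ((l : ℝ) + 1) ^ ((d : ℝ) - 1) with he1
  have he10 : 0 ≤ e1 := by positivity
  have hc1 : Cov (fun c : CV d => nrm ∞ (tp (LL d l) c)) B1 1 e1 := by
    refine Cov.one_ball ?_ le_rfl
    rintro _ ⟨φ, hφ, hφ1, rfl⟩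
    rw [USmall_tp_if]
    have h3 := conv_infty (LL d l) (alm r l) hφ
    have h4 := hker l
    rw [USmall_pow d hd] at h4
    have h5 : nrm ∞ φ ≤ 1 := by
      unfold nrm
      have := ENNReal.toReal_mono ENNReal.one_ne_top hφ1
      rwa [ENNReal.toReal_one] at this
    have h6 : 0 ≤ nrm ∞ φ := nrm_nonneg _ _
    calc nrm ∞ (tp (LL d l) fun k => alm r l k * cf φ k) ≤
          (∫ x, ‖tp (LL d l) (alm r l) x‖ ∂(mu d)) * nrm ∞ φ := h3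
      _ ≤ e1 * 1 := mul_le_mul h4 h5 h6 he10
      _ = e1 := mul_one _
  have hA : ∀ a ∈ Img (LL d l) (alm r l) (ENNReal.ofReal p), ∃ b1 ∈ B1,
      ∃ b2 ∈ Img (LL d l) (alm r l) 2, a = s • b1 + s2 • b2 := by
    rintro _ ⟨φ, hφ, hφ1, rfl⟩
    obtain ⟨φ1, φ2, hsum, -, hm1, -, hb, -, hlow⟩ := truncate p (by linarith) s hs0 hφ hφ1
    have hφ1top : MemLp φ1 ∞ (mu d) := memLp_top_of_bound hm1 s (Filter.Eventually.of_forall hb)
    have hφ1n : eLpNorm φ1 ∞ (mu d) ≤ ENNReal.ofReal s := by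
      rw [eLpNorm_exponent_top]
      refine eLpNormEssSup_le_of_ae_bound (Filter.Eventually.of_forall hb)
    obtain ⟨h21, h22⟩ := hlow 2 (by norm_num) hp.le
    rw [ENNReal.ofReal_ofNat] at h21 h22
    obtain ⟨g1, g2⟩ := USmall_norm hs0 hφ1top hφ1n
    obtain ⟨g3, g4⟩ := USmall_norm hs20 h21 h22
    have i1 : Integrable φ1 (mu d) := hφ1top.integrable le_top
    have i2 : Integrable φ2 (mu d) := h21.integrable (by norm_num)
    refine ⟨_, ⟨_, g1, g2, rfl⟩, _, ⟨_, g3, g4, rfl⟩, ?_⟩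
    funext j
    simp only [Pi.add_apply, Pi.smul_apply]
    split_ifs with hj
    · rw [USmall_cf_add hsum i1 i2, USmall_cf_smul, USmall_cf_smul]
      rw [Complex.real_smul, Complex.real_smul]
      have a1 : (s : ℂ) * ((s⁻¹ : ℝ) : ℂ) = 1 := by
        rw [← Complex.ofReal_mul, mul_inv_cancel₀ hs0.ne', Complex.ofReal_one]
      have a2 : (s2 : ℂ) * ((s2⁻¹ : ℝ) : ℂ) = 1 := by
        rw [← Complex.ofReal_mul, mul_inv_cancel₀ hs20.ne', Complex.ofReal_one]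
      linear_combination (-(alm r l j * cf φ1 j)) * a1 - (alm r l j * cf φ2 j) * a2
    · simp
  have hfin := Cov.trunc (sn_nrm' ∞ le_top (LL d l)) hs0.le hs20.le hA hc1 (h2 l k hk)
  rw [one_mul] at hfin
  refine hfin.mono_e (le_of_eq ?_)
  rw [← hR]
  have e3 : s2 * R ^ ((1 : ℝ) / 2) = s := by
    rw [hs2, hs, ← Real.rpow_mul hR0.le, ← Real.rpow_add hR0]
    congr 1
    field_simp
    ring
  have e4 : s2 * (C2 * (2 : ℝ) ^ (-(r * l)) * ((l : ℝ) + 1) ^ ((d : ℝ) - 1) *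
      R ^ ((1 : ℝ) / 2)) = C2 * (2 : ℝ) ^ (-(r * l)) * ((l : ℝ) + 1) ^ ((d : ℝ) - 1) *
      (s2 * R ^ ((1 : ℝ) / 2)) := by ring
  rw [e4, e3, he1]
  ring

theorem small_one (d : ℕ) (hd : 1 ≤ d) (r : ℝ) (hr : 0 < r) (q : ℝ) (hq1 : 1 < q) (hq2 : q < 2)
    (H : LB d 1 2 r (fun l => alm r l) ((d : ℝ) - 1) (1 / 2) (1 / 2)) :
    LB d 1 (ENNReal.ofReal q) r (fun l => alm r l) (2 - (d : ℝ)) ((d : ℝ) - 1) (1 - 1 / q) := by
  obtain ⟨C2, hC2, h2⟩ := small_alg d hd H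
  obtain ⟨C1, hC1, hker⟩ := alm_kernel d hd r hr
  have hq0 : 0 < q := by linarith
  set θ : ℝ := 2 - 2 / q with hθ
  have hθ0 : 0 < θ := by
    have : 2 / q < 2 := by
      rw [div_lt_iff₀ hq0]
      linarith
    linarith
  have hθ1 : θ < 1 := by
    have : 1 < 2 / q := by
      rw [lt_div_iff₀ hq0]
      linarith
    linarith
  have hθ' : 0 < 1 - θ := by linarith
  refine ⟨2 * (C1 ^ (1 - θ) * C2 ^ θ), by positivity, fun l k hk => ?_⟩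
  have hl : (0 : ℝ) < (l : ℝ) + 1 := by positivity
  have hT := USmall_Tt_pos (2 - (d : ℝ)) l
  set R : ℝ := Tt (2 - (d : ℝ)) l / k with hR
  have hR0 : 0 < R := by positivity
  set M : ℝ := (2 : ℝ) ^ (-(r * l)) * ((l : ℝ) + 1) ^ ((d : ℝ) - 1) with hM
  have hM0 : 0 < M := by positivity
  have hc1 : Cov (fun c : CV d => nrm 1 (tp (LL d l) c)) (Img (LL d l) (alm r l) 1) 1
      (C1 * M) := by
    refine Cov.one_ball ?_ le_rfl
    rintro _ ⟨φ, hφ, hφ1, rfl⟩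
    rw [USmall_tp_if]
    have h3 := conv_one (LL d l) (alm r l) hφ
    have h4 := hker l
    rw [USmall_pow d hd] at h4
    have h5 : nrm 1 φ ≤ 1 := by
      unfold nrm
      have := ENNReal.toReal_mono ENNReal.one_ne_top hφ1
      rwa [ENNReal.toReal_one] at this
    have h6 : 0 ≤ nrm 1 φ := nrm_nonneg _ _
    have h7 : C1 * (2 : ℝ) ^ (-(r * l)) * ((l : ℝ) + 1) ^ ((d : ℝ) - 1) = C1 * M := by
      rw [hM]
      ring
    rw [h7] at h4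
    calc nrm 1 (tp (LL d l) fun k => alm r l k * cf φ k) ≤
          (∫ x, ‖tp (LL d l) (alm r l) x‖ ∂(mu d)) * nrm 1 φ := h3
      _ ≤ C1 * M * 1 := mul_le_mul h4 h5 h6 (by positivity)
      _ = C1 * M := mul_one _
  have hc2 : Cov (fun c : CV d => nrm 2 (tp (LL d l) c)) (Img (LL d l) (alm r l) 1)
      ((2 : ℝ) ^ k) (C2 * M * R ^ ((1 : ℝ) / 2)) := by
    refine (h2 l k hk).mono_e (le_of_eq ?_)
    rw [← hR, hM]
    ring
  have hi : ∀ v : CV d, nrm (ENNReal.ofReal q) (tp (LL d l) v) ≤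
      nrm 1 (tp (LL d l) v) ^ (1 - θ) * nrm 2 (tp (LL d l) v) ^ θ := by
    intro v
    have h8 := nrm_interp 1 q 2 θ le_rfl hq1.le (by norm_num) hθ0 hθ1 (by
      rw [hθ]
      field_simp
      ring) (f := tp (LL d l) v) (memLp_tp _ _ _) (memLp_tp _ _ _)
    rwa [ENNReal.ofReal_one, ENNReal.ofReal_ofNat] at h8
  have hfin := Cov.interp (sn_nrm' 1 le_rfl (LL d l)) (sn_nrm' 2 (by norm_num) (LL d l))
    hθ0.le hθ1.le hi (by positivity) (by positivity) hc1 hc2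
  rw [one_mul] at hfin
  refine hfin.mono_e (le_of_eq ?_)
  have e1 : (C1 * M) ^ (1 - θ) = C1 ^ (1 - θ) * M ^ (1 - θ) :=
    Real.mul_rpow hC1.le hM0.le
  have e2 : (C2 * M * R ^ ((1 : ℝ) / 2)) ^ θ = C2 ^ θ * M ^ θ * R ^ (1 - 1 / q) := by
    rw [Real.mul_rpow (by positivity) (by positivity), Real.mul_rpow hC2.le hM0.le,
      ← Real.rpow_mul hR0.le]
    congr 2
    rw [hθ]
    ring
  have e3 : M ^ (1 - θ) * M ^ θ = M := by
    rw [← Real.rpow_add hM0]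
    rw [sub_add_cancel, Real.rpow_one]
  rw [e1, e2]
  calc 2 * (C1 ^ (1 - θ) * M ^ (1 - θ) * (C2 ^ θ * M ^ θ * R ^ (1 - 1 / q))) =
        2 * (C1 ^ (1 - θ) * C2 ^ θ) * (M ^ (1 - θ) * M ^ θ) * R ^ (1 - 1 / q) := by ring
    _ = _ := by
        rw [e3, hM]
        ring

end MPcd65c1
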