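import Pool.Agent.Lib.MP_cd65c1_an.UEta

/-!
# MP_cd65c1_an / UMidOp : Hilbert-Schmidt norm of the middle operator, `r = 1/2` (about 80 lines)

`l2 (Lmid d l0 l1) (amid (1/2) l0 l1)^2 ≤ Σ_{k ∈ Lmid} ‖lamr (1/2) k‖^2` (`norm_amid_le`)
`≤ Σ_{k ∈ Lmid} 2^d 2^(-lev k)` (`lamr_upper` with `r = 1/2`).  The levels of `k ∈ Lmid` are between
`l0 - d` and `l1 - 1` (`mem_LL`), at most `l1 - l0 + d` values `i < l1`, and each level contributes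
`2^d 2^(-i) #Lam d i = 2^d #S_i ≤ 2^d (i+1)^(d-1) ≤ 2^d (l1+1)^(d-1)` (`card_Lam`, `card_adt_le`).
So `l2 (..) ≤ sqrt(2^d (l1 - l0 + d) (l1+1)^(d-1))` (also for `l0 = l1`, when the set is empty).
-/

namespace MPcd65c1

private theorem UMidOp_level {d l0 l1 : ℕ} {k : Fin d → ℤ} (hk : k ∈ Lmid d l0 l1) :
    lev k ∈ Finset.Ico (l0 - d) l1 := by
  unfold Lmid at hk
  rw [Finset.mem_biUnion] at hk
  obtain ⟨l, hl, hk⟩ := hk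
  rw [Finset.mem_Ico] at hl ⊢
  have h := (mem_LL d l k).1 hk
  omega

private theorem UMidOp_sq {d : ℕ} (l0 l1 : ℕ) (k : Fin d → ℤ) :
    ‖amid (1 / 2) l0 l1 k‖ ^ 2 ≤ (2 : ℝ) ^ d * ((2 : ℝ) ^ (lev k))⁻¹ := by
  have h1 : ‖amid (1 / 2) l0 l1 k‖ ≤
      (2 : ℝ) ^ ((1 / 2 : ℝ) * d) * (2 : ℝ) ^ (-((1 / 2 : ℝ) * lev k)) :=
    (norm_amid_le _ _ _ _).trans (lamr_upper (by norm_num) k)
  have h2 : ((2 : ℝ) ^ ((1 / 2 : ℝ) * d) * (2 : ℝ) ^ (-((1 / 2 : ℝ) * lev k))) ^ 2 =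
      (2 : ℝ) ^ d * ((2 : ℝ) ^ (lev k))⁻¹ := by
    rw [mul_pow, ← Real.rpow_natCast, ← Real.rpow_natCast ((2 : ℝ) ^ (-((1 / 2 : ℝ) * lev k))),
      ← Real.rpow_mul (by norm_num), ← Real.rpow_mul (by norm_num)]
    congr 1
    · rw [show (1 / 2 : ℝ) * d * ((2 : ℕ) : ℝ) = (d : ℝ) by push_cast; ring, Real.rpow_natCast]
    · rw [show -((1 / 2 : ℝ) * lev k) * ((2 : ℕ) : ℝ) = -(lev k : ℝ) by push_cast; ring,
        Real.rpow_neg (by norm_num), Real.rpow_natCast]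
  rw [← h2]
  exact pow_le_pow_left₀ (norm_nonneg _) h1 2

theorem l2_amid_le (d : ℕ) (hd : 1 ≤ d) (l0 l1 : ℕ) (hl : l0 ≤ l1) :
    l2 (Lmid d l0 l1) (amid (1 / 2) l0 l1) ≤
      Real.sqrt ((2 : ℝ) ^ d * ((l1 : ℝ) - l0 + d) * ((l1 : ℝ) + 1) ^ (d - 1)) := by
  classical
  unfold l2
  apply Real.sqrt_le_sqrt
  have h1 : ∑ k ∈ Lmid d l0 l1, ‖amid (1 / 2) l0 l1 k‖ ^ 2 ≤
      ∑ k ∈ Lmid d l0 l1, (2 : ℝ) ^ d * ((2 : ℝ) ^ (lev k))⁻¹ :=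
    Finset.sum_le_sum fun k _ => UMidOp_sq l0 l1 k
  have hsub : Lmid d l0 l1 ⊆ (Finset.Ico (l0 - d) l1).biUnion (Lam d) := by
    intro k hk
    rw [Finset.mem_biUnion]
    exact ⟨lev k, UMidOp_level hk, (mem_Lam _ _ _).2 rfl⟩
  have h2 : ∑ k ∈ Lmid d l0 l1, (2 : ℝ) ^ d * ((2 : ℝ) ^ (lev k))⁻¹ ≤
      ∑ k ∈ (Finset.Ico (l0 - d) l1).biUnion (Lam d), (2 : ℝ) ^ d * ((2 : ℝ) ^ (lev k))⁻¹ :=
    Finset.sum_le_sum_of_subset_of_nonneg hsub fun k _ _ => by positivity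
  have hdisj : (↑(Finset.Ico (l0 - d) l1) : Set ℕ).PairwiseDisjoint (Lam d) := by
    intro i _ j _ hij
    rw [Function.onFun, Finset.disjoint_left]
    intro k hki hkj
    exact hij (((mem_Lam _ _ _).1 hki).symm.trans ((mem_Lam _ _ _).1 hkj))
  rw [Finset.sum_biUnion hdisj] at h2
  have h3 : ∀ i ∈ Finset.Ico (l0 - d) l1,
      ∑ k ∈ Lam d i, (2 : ℝ) ^ d * ((2 : ℝ) ^ (lev k))⁻¹ ≤ (2 : ℝ) ^ d * ((l1 : ℝ) + 1) ^ (d - 1) := by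
    intro i hi
    rw [Finset.mem_Ico] at hi
    have e1 : ∑ k ∈ Lam d i, (2 : ℝ) ^ d * ((2 : ℝ) ^ (lev k))⁻¹ =
        ((Lam d i).card : ℝ) * ((2 : ℝ) ^ d * ((2 : ℝ) ^ i)⁻¹) := by
      rw [Finset.sum_congr rfl (fun k hk => by rw [(mem_Lam _ _ _).1 hk]), Finset.sum_const,
        nsmul_eq_mul]
    rw [e1, card_Lam]
    have e2 : (((Finset.Nat.antidiagonalTuple d i).card : ℕ) : ℝ) ≤ ((l1 : ℝ) + 1) ^ (d - 1) := by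
      have e3 : (Finset.Nat.antidiagonalTuple d i).card ≤ (l1 + 1) ^ (d - 1) :=
        (card_adt_le d i hd).trans (Nat.pow_le_pow_left (by omega) _)
      exact_mod_cast e3
    have e4 : (0 : ℝ) < (2 : ℝ) ^ i := by positivity
    have e5 : (((2 ^ i * (Finset.Nat.antidiagonalTuple d i).card : ℕ)) : ℝ) *
        ((2 : ℝ) ^ d * ((2 : ℝ) ^ i)⁻¹) =
        (2 : ℝ) ^ d * ((Finset.Nat.antidiagonalTuple d i).card : ℝ) := by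
      push_cast
      field_simp
    rw [e5]
    exact mul_le_mul_of_nonneg_left e2 (by positivity)
  have h4 := Finset.sum_le_sum h3
  rw [Finset.sum_const, nsmul_eq_mul, Nat.card_Ico] at h4
  have h5 : ((l1 - (l0 - d) : ℕ) : ℝ) ≤ (l1 : ℝ) - l0 + d := by
    have e : l1 - (l0 - d) + l0 ≤ l1 + d := by omega
    have e' : ((l1 - (l0 - d) : ℕ) : ℝ) + l0 ≤ (l1 : ℝ) + d := by exact_mod_cast e
    linarith
  have h6 : ((l1 - (l0 - d) : ℕ) : ℝ) * ((2 : ℝ) ^ d * ((l1 : ℝ) + 1) ^ (d - 1)) ≤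
      ((l1 : ℝ) - l0 + d) * ((2 : ℝ) ^ d * ((l1 : ℝ) + 1) ^ (d - 1)) :=
    mul_le_mul_of_nonneg_right h5 (by positivity)
  calc ∑ k ∈ Lmid d l0 l1, ‖amid (1 / 2) l0 l1 k‖ ^ 2
      ≤ ((l1 : ℝ) - l0 + d) * ((2 : ℝ) ^ d * ((l1 : ℝ) + 1) ^ (d - 1)) :=
        h1.trans (h2.trans (h4.trans h6))
    _ = (2 : ℝ) ^ d * ((l1 : ℝ) - l0 + d) * ((l1 : ℝ) + 1) ^ (d - 1) := by ring

theorem abs_le_of_mem_Lmid (d l0 l1 : ℕ) (k : Fin d → ℤ) (hk : k ∈ Lmid d l0 l1) (j : Fin d) :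
    |k j| ≤ 2 ^ l1 := by
  unfold Lmid at hk
  rw [Finset.mem_biUnion] at hk
  obtain ⟨l, hl, hk⟩ := hk
  rw [Finset.mem_Ico] at hl
  refine (abs_le_of_mem_LL d l k hk j).trans ?_
  exact pow_le_pow_right₀ (by norm_num) hl.2.le

end MPcd65c1
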