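import Pool.Agent.Lib.MP_cd65c1_an.Defs2

/-!
# MP_cd65c1_an / UNum : distribution of the bits over the levels (pure real analysis, about 180 lines)

`Tt g l = 2^l (l+1)^g`.

`num_high`: `r > β ≥ 0`.  Choose `κ > 0` with `β(1+κ) < r` (`κ = (r-β)/(2(β+1))`), `c = (1 - 2^(-κ))/4`,
`k j = c n 2^(-κ j)` for the level `l0 + j`.  `Σ_j k j = c n/(1-2^(-κ)) = n/4`.
`Tt g (l0+j)/k j = (Tt g (l0+j)/Tt g l0) (Tt g l0/n) 2^(κj)/c ≤ (C2/c) 2^((1+κ)j) (1+j)^|g|`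
(`1 ≤ (l0+j+1)/(l0+1) ≤ 1+j`), and `(l0+j+1)^h ≤ (l0+1)^h (1+j)^|h|`.  So the sum of the errors is
`≤ 2^(-r l0) (l0+1)^h (C2/c)^β Σ_j 2^(-(r-β(1+κ))j) (1+j)^(|h|+|g|β) < ∞`.

`num_low`: `β' > r > 0`, levels `l < l0`, `j = l0 - l ≥ 1`.  Choose `0 < κ < 1` with `β'(1-κ) > r`,
`c = (1-2^(-κ))/4`, `k l = c n 2^(-κ (l0-l))` for `l < l0`; `Σ_{l<l0} k l ≤ n/4`.
`Tt g l/k l ≤ (C2/c) 2^(-(1-κ)j) (1+j)^|g|` (`(l0+1)/(l+1) ≤ 1+j`), `(l+1)^h ≤ (l0+1)^h (1+j)^|h|`,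
`2^(-rl) = 2^(-r l0) 2^(rj)`: the sum is `≤ 2^(-r l0)(l0+1)^h (C2/c)^β' Σ_j 2^(-(β'(1-κ)-r)j)(1+j)^(|h|+|g|β')`.
-/

namespace MPcd65c1

private theorem cmp_rpow (a b t g : ℝ) (ha : 0 < a) (hb : 0 < b) (ht : 1 ≤ t) (h1 : b ≤ a * t)
    (h2 : a ≤ b * t) : b ^ g ≤ a ^ g * t ^ |g| := by
  have ht0 : 0 < t := by linarith
  rcases le_total 0 g with hg | hg
  · rw [abs_of_nonneg hg, ← Real.mul_rpow ha.le ht0.le]
    exact Real.rpow_le_rpow hb.le h1 hg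
  · rw [abs_of_nonpos hg]
    have h3 : (b * t) ^ g ≤ a ^ g := Real.rpow_le_rpow_of_nonpos ha h2 hg
    rw [Real.mul_rpow hb.le ht0.le] at h3
    calc b ^ g = (b ^ g * t ^ g) * t ^ (-g) := by
          rw [mul_assoc, ← Real.rpow_add ht0]; simp
      _ ≤ a ^ g * t ^ (-g) := mul_le_mul_of_nonneg_right h3 (by positivity)

private theorem summ_aux (p δ : ℝ) (hδ : 0 < δ) :
    Summable (fun j : ℕ => (1 + (j : ℝ)) ^ p * (2 : ℝ) ^ (-(δ * j))) := by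
  set q : ℝ := (2 : ℝ) ^ (-δ) with hq
  have hq0 : 0 < q := by positivity
  have hq1 : q < 1 := Real.rpow_lt_one_of_one_lt_of_neg (by norm_num) (by linarith)
  have hs := summable_pow_mul_geometric_of_norm_lt_one (R := ℝ) ⌈p⌉₊ (r := q)
    (by rw [Real.norm_eq_abs, abs_of_pos hq0]; exact hq1)
  have hs1 := (summable_nat_add_iff 1).2 hs
  have hs2 := hs1.mul_left q⁻¹
  refine Summable.of_nonneg_of_le (fun j => by positivity) (fun j => ?_) hs2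
  have h1 : (2 : ℝ) ^ (-(δ * j)) = q ^ j := by
    rw [hq, ← Real.rpow_natCast, ← Real.rpow_mul (by norm_num)]
    congr 1
    ring
  rw [h1]
  have h2 : (1 + (j : ℝ)) ^ p ≤ (1 + (j : ℝ)) ^ ⌈p⌉₊ := by
    rw [← Real.rpow_natCast]
    exact Real.rpow_le_rpow_of_exponent_le (by linarith [(Nat.cast_nonneg j : (0 : ℝ) ≤ j)])
      (Nat.le_ceil p)
  have h3 : q⁻¹ * ((((j + 1 : ℕ) : ℝ)) ^ ⌈p⌉₊ * q ^ (j + 1)) = (1 + (j : ℝ)) ^ ⌈p⌉₊ * q ^ j := by
    push_cast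
    rw [pow_succ q j]
    field_simp
    ring
  rw [h3]
  exact mul_le_mul_of_nonneg_right h2 (by positivity)

private theorem sum_refl_le (F : ℕ → ℝ) (hF : Summable F) (h0 : ∀ j, 0 ≤ F j) (n : ℕ) :
    ∑ l ∈ Finset.range n, F (n - l) ≤ ∑' j, F j := by
  have h1 := Finset.sum_range_reflect (fun j => F (j + 1)) n
  have h2 : ∑ l ∈ Finset.range n, F (n - l) = ∑ j ∈ Finset.range n, F (j + 1) := by
    rw [← h1]
    refine Finset.sum_congr rfl (fun l hl => ?_)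
    have := Finset.mem_range.1 hl
    congr 1
    omega
  rw [h2]
  calc ∑ j ∈ Finset.range n, F (j + 1) ≤ ∑ j ∈ Finset.range (n + 1), F j := by
        rw [Finset.sum_range_succ']
        linarith [h0 0]
    _ ≤ ∑' j, F j := hF.sum_le_tsum _ (fun _ _ => h0 _)

private theorem kap_aux (κ : ℝ) (hκ : 0 < κ) : 0 < 1 - (2 : ℝ) ^ (-κ) := by
  have : (2 : ℝ) ^ (-κ) < 1 := Real.rpow_lt_one_of_one_lt_of_neg (by norm_num) (by linarith)
  linarith

private theorem two_split (a b : ℝ) : (2 : ℝ) ^ (a + b) = (2 : ℝ) ^ a * (2 : ℝ) ^ b :=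
  Real.rpow_add (by norm_num) _ _

theorem num_high (r β g h C2 : ℝ) (hβ : 0 ≤ β) (hr : β < r) (hC2 : 0 < C2) :
    ∃ C : ℝ, 0 < C ∧ ∀ (l0 : ℕ) (n : ℝ), 0 < n → Tt g l0 ≤ C2 * n →
      ∃ k : ℕ → ℝ, (∀ j, 0 < k j) ∧ Summable k ∧ ∑' j, k j ≤ n / 4 ∧
        Summable (fun j : ℕ => (2 : ℝ) ^ (-(r * ((l0 + j : ℕ) : ℝ))) * (((l0 + j : ℕ) : ℝ) + 1) ^ h *
          (Tt g (l0 + j) / k j) ^ β) ∧
        ∑' j : ℕ, (2 : ℝ) ^ (-(r * ((l0 + j : ℕ) : ℝ))) * (((l0 + j : ℕ) : ℝ) + 1) ^ h *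
          (Tt g (l0 + j) / k j) ^ β ≤ C * (2 : ℝ) ^ (-(r * l0)) * ((l0 : ℝ) + 1) ^ h := by
  obtain ⟨κ, hκ, hκr⟩ : ∃ κ : ℝ, 0 < κ ∧ β * (1 + κ) < r := by
    refine ⟨(r - β) / (2 * (β + 1)), by apply div_pos <;> linarith, ?_⟩
    have h1 : β * ((r - β) / (2 * (β + 1))) ≤ (r - β) / 2 := by
      rw [mul_div_assoc', div_le_div_iff₀ (by linarith) (by norm_num)]
      nlinarith
    nlinarith
  set c : ℝ := (1 - (2 : ℝ) ^ (-κ)) / 4 with hc
  have hc0 : 0 < c := by have := kap_aux κ hκ; positivity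
  set δ : ℝ := r - β * (1 + κ) with hδ
  have hδ0 : 0 < δ := by linarith
  set u : ℕ → ℝ := fun j => (1 + (j : ℝ)) ^ (|h| + |g| * β) * (2 : ℝ) ^ (-(δ * j)) with hu
  have hus : Summable u := summ_aux _ _ hδ0
  have hu0 : ∀ j, 0 ≤ u j := fun j => by positivity
  refine ⟨(C2 / c) ^ β * (∑' j, u j) + 1, by
    have : 0 ≤ ∑' j, u j := tsum_nonneg hu0
    positivity, ?_⟩
  intro l0 n hn hT
  set k : ℕ → ℝ := fun j => c * n * (2 : ℝ) ^ (-(κ * j)) with hk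
  have hk0 : ∀ j, 0 < k j := fun j => by positivity
  have hq0 : (0 : ℝ) ≤ (2 : ℝ) ^ (-κ) := by positivity
  have hq1 : (2 : ℝ) ^ (-κ) < 1 := by linarith [kap_aux κ hκ]
  have hkq : ∀ j : ℕ, (2 : ℝ) ^ (-(κ * j)) = ((2 : ℝ) ^ (-κ)) ^ j := by
    intro j
    rw [← Real.rpow_natCast, ← Real.rpow_mul (by norm_num)]
    congr 1
    ring
  have hkeq : k = fun j => c * n * ((2 : ℝ) ^ (-κ)) ^ j := by
    funext j
    simp only [hk]
    rw [hkq j]
  have hks : Summable k := by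
    rw [hkeq]
    exact (summable_geometric_of_lt_one hq0 hq1).mul_left _
  have hksum : ∑' j, k j = n / 4 := by
    rw [hkeq, tsum_mul_left, tsum_geometric_of_lt_one hq0 hq1, hc]
    have := (kap_aux κ hκ).ne'
    field_simp
  -- the terms
  have hterm : ∀ j : ℕ, (2 : ℝ) ^ (-(r * ((l0 + j : ℕ) : ℝ))) * (((l0 + j : ℕ) : ℝ) + 1) ^ h *
      (Tt g (l0 + j) / k j) ^ β ≤
      ((2 : ℝ) ^ (-(r * l0)) * ((l0 : ℝ) + 1) ^ h * (C2 / c) ^ β) * u j := by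
    intro j
    have hl : (0 : ℝ) ≤ l0 := Nat.cast_nonneg _
    have hj : (0 : ℝ) ≤ j := Nat.cast_nonneg _
    have e1 : (((l0 + j : ℕ) : ℝ) + 1) ^ h ≤ ((l0 : ℝ) + 1) ^ h * (1 + (j : ℝ)) ^ |h| := by
      apply cmp_rpow
      · positivity
      · positivity
      · linarith
      · push_cast; nlinarith
      · push_cast; nlinarith
    have e2 : (((l0 + j : ℕ) : ℝ) + 1) ^ g ≤ ((l0 : ℝ) + 1) ^ g * (1 + (j : ℝ)) ^ |g| := by
      apply cmp_rpow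
      · positivity
      · positivity
      · linarith
      · push_cast; nlinarith
      · push_cast; nlinarith
    have e3 : Tt g (l0 + j) / k j ≤ (C2 / c) * (2 : ℝ) ^ ((1 + κ) * j) * (1 + (j : ℝ)) ^ |g| := by
      rw [div_le_iff₀ (hk0 j)]
      have e4 : (2 : ℝ) ^ ((1 + κ) * j) * (2 : ℝ) ^ (-(κ * j)) = (2 : ℝ) ^ j := by
        rw [← two_split, ← Real.rpow_natCast]
        congr 1
        ring
      calc Tt g (l0 + j) = (2 : ℝ) ^ l0 * (2 : ℝ) ^ j * (((l0 + j : ℕ) : ℝ) + 1) ^ g := by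
            simp only [Tt]
            rw [pow_add]
        _ ≤ (2 : ℝ) ^ l0 * (2 : ℝ) ^ j * (((l0 : ℝ) + 1) ^ g * (1 + (j : ℝ)) ^ |g|) :=
            mul_le_mul_of_nonneg_left e2 (by positivity)
        _ = Tt g l0 * ((2 : ℝ) ^ j * (1 + (j : ℝ)) ^ |g|) := by
            simp only [Tt]
            ring
        _ ≤ (C2 * n) * ((2 : ℝ) ^ j * (1 + (j : ℝ)) ^ |g|) :=
            mul_le_mul_of_nonneg_right hT (by positivity)
        _ = (C2 / c) * (2 : ℝ) ^ ((1 + κ) * j) * (1 + (j : ℝ)) ^ |g| * k j := by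
            simp only [hk]
            rw [← e4]
            field_simp
    have e5 : (Tt g (l0 + j) / k j) ^ β ≤
        (C2 / c) ^ β * (2 : ℝ) ^ (β * (1 + κ) * j) * (1 + (j : ℝ)) ^ (|g| * β) := by
      have hT0 : 0 ≤ Tt g (l0 + j) / k j := by
        have := hk0 j
        simp only [Tt]
        positivity
      refine (Real.rpow_le_rpow hT0 e3 hβ).trans (le_of_eq ?_)
      rw [Real.mul_rpow (by positivity) (by positivity), Real.mul_rpow (by positivity) (by positivity),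
        ← Real.rpow_mul (by norm_num), ← Real.rpow_mul (by positivity)]
      congr 3
      ring
    calc (2 : ℝ) ^ (-(r * ((l0 + j : ℕ) : ℝ))) * (((l0 + j : ℕ) : ℝ) + 1) ^ h *
          (Tt g (l0 + j) / k j) ^ β
        ≤ (2 : ℝ) ^ (-(r * ((l0 + j : ℕ) : ℝ))) * (((l0 : ℝ) + 1) ^ h * (1 + (j : ℝ)) ^ |h|) *
          ((C2 / c) ^ β * (2 : ℝ) ^ (β * (1 + κ) * j) * (1 + (j : ℝ)) ^ (|g| * β)) := by
          apply mul_le_mul _ e5 _ (by positivity)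
          · exact mul_le_mul_of_nonneg_left e1 (by positivity)
          · have := hk0 j
            have hT0 : 0 ≤ Tt g (l0 + j) / k j := by
              simp only [Tt]
              positivity
            positivity
      _ = ((2 : ℝ) ^ (-(r * l0)) * ((l0 : ℝ) + 1) ^ h * (C2 / c) ^ β) * u j := by
          have e6 : (2 : ℝ) ^ (-(r * ((l0 + j : ℕ) : ℝ))) * (2 : ℝ) ^ (β * (1 + κ) * j) =
              (2 : ℝ) ^ (-(r * l0)) * (2 : ℝ) ^ (-(δ * j)) := by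
            rw [← two_split, ← two_split]
            congr 1
            push_cast
            rw [hδ]
            ring
          have e7 : (1 + (j : ℝ)) ^ |h| * (1 + (j : ℝ)) ^ (|g| * β) =
              (1 + (j : ℝ)) ^ (|h| + |g| * β) := by
            rw [← Real.rpow_add (by positivity)]
          simp only [hu]
          calc _ = ((2 : ℝ) ^ (-(r * ((l0 + j : ℕ) : ℝ))) * (2 : ℝ) ^ (β * (1 + κ) * j)) *
                ((1 + (j : ℝ)) ^ |h| * (1 + (j : ℝ)) ^ (|g| * β)) *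
                (((l0 : ℝ) + 1) ^ h * (C2 / c) ^ β) := by ring
            _ = _ := by rw [e6, e7]; ring
  have hnn : ∀ j : ℕ, 0 ≤ (2 : ℝ) ^ (-(r * ((l0 + j : ℕ) : ℝ))) * (((l0 + j : ℕ) : ℝ) + 1) ^ h *
      (Tt g (l0 + j) / k j) ^ β := by
    intro j
    have := hk0 j
    have hT0 : 0 ≤ Tt g (l0 + j) / k j := by
      simp only [Tt]
      positivity
    positivity
  have hsm : Summable (fun j : ℕ => (2 : ℝ) ^ (-(r * ((l0 + j : ℕ) : ℝ))) *
      (((l0 + j : ℕ) : ℝ) + 1) ^ h * (Tt g (l0 + j) / k j) ^ β) :=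
    Summable.of_nonneg_of_le hnn hterm (hus.mul_left _)
  refine ⟨k, hk0, hks, hksum.le, hsm, ?_⟩
  calc _ ≤ ∑' j, ((2 : ℝ) ^ (-(r * l0)) * ((l0 : ℝ) + 1) ^ h * (C2 / c) ^ β) * u j :=
        hsm.tsum_le_tsum hterm (hus.mul_left _)
    _ = ((2 : ℝ) ^ (-(r * l0)) * ((l0 : ℝ) + 1) ^ h) * ((C2 / c) ^ β * ∑' j, u j) := by
        rw [tsum_mul_left]; ring
    _ ≤ ((2 : ℝ) ^ (-(r * l0)) * ((l0 : ℝ) + 1) ^ h) * ((C2 / c) ^ β * (∑' j, u j) + 1) :=
        mul_le_mul_of_nonneg_left (by linarith) (by positivity)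
    _ = _ := by ring

theorem num_low (r β g h C2 : ℝ) (hr0 : 0 < r) (hr : r < β) (hC2 : 0 < C2) :
    ∃ C : ℝ, 0 < C ∧ ∀ (l0 : ℕ) (n : ℝ), 0 < n → Tt g l0 ≤ C2 * n →
      ∃ k : ℕ → ℝ, (∀ l, 0 < k l) ∧ ∑ l ∈ Finset.range l0, k l ≤ n / 4 ∧
        ∑ l ∈ Finset.range l0, (2 : ℝ) ^ (-(r * l)) * ((l : ℝ) + 1) ^ h * (Tt g l / k l) ^ β ≤
          C * (2 : ℝ) ^ (-(r * l0)) * ((l0 : ℝ) + 1) ^ h := by
  have hβ : 0 < β := by linarith
  obtain ⟨κ, hκ, hκ1, hκr⟩ : ∃ κ : ℝ, 0 < κ ∧ κ < 1 ∧ r < β * (1 - κ) := by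
    refine ⟨(β - r) / (2 * β), by apply div_pos <;> linarith, ?_, ?_⟩
    · rw [div_lt_one (by linarith)]; linarith
    · have h1 : β * ((β - r) / (2 * β)) = (β - r) / 2 := by field_simp
      nlinarith
  set c : ℝ := (1 - (2 : ℝ) ^ (-κ)) / 4 with hc
  have hc0 : 0 < c := by have := kap_aux κ hκ; positivity
  set δ : ℝ := β * (1 - κ) - r with hδ
  have hδ0 : 0 < δ := by linarith
  set u : ℕ → ℝ := fun j => (1 + (j : ℝ)) ^ (|h| + |g| * β) * (2 : ℝ) ^ (-(δ * j)) with hu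
  have hus : Summable u := summ_aux _ _ hδ0
  have hu0 : ∀ j, 0 ≤ u j := fun j => by positivity
  refine ⟨(C2 / c) ^ β * (∑' j, u j) + 1, by
    have : 0 ≤ ∑' j, u j := tsum_nonneg hu0
    positivity, ?_⟩
  intro l0 n hn hT
  set k : ℕ → ℝ := fun l => c * n * (2 : ℝ) ^ (-(κ * ((l0 : ℝ) - l))) with hk
  have hk0 : ∀ j, 0 < k j := fun j => by positivity
  have hq0 : (0 : ℝ) ≤ (2 : ℝ) ^ (-κ) := by positivity
  have hq1 : (2 : ℝ) ^ (-κ) < 1 := by linarith [kap_aux κ hκ]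
  have hksum : ∑ l ∈ Finset.range l0, k l ≤ n / 4 := by
    have h1 : ∑ l ∈ Finset.range l0, k l =
        ∑ l ∈ Finset.range l0, (fun j : ℕ => c * n * ((2 : ℝ) ^ (-κ)) ^ j) (l0 - l) := by
      refine Finset.sum_congr rfl (fun l hl => ?_)
      have hl' := (Finset.mem_range.1 hl).le
      simp only [hk]
      rw [← Real.rpow_natCast, ← Real.rpow_mul (by norm_num), Nat.cast_sub hl']
      congr 2
      ring
    rw [h1]
    refine (sum_refl_le _ ((summable_geometric_of_lt_one hq0 hq1).mul_left _)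
      (fun j => by positivity) l0).trans (le_of_eq ?_)
    rw [tsum_mul_left, tsum_geometric_of_lt_one hq0 hq1, hc]
    have := (kap_aux κ hκ).ne'
    field_simp
  have hterm : ∀ l ∈ Finset.range l0, (2 : ℝ) ^ (-(r * l)) * ((l : ℝ) + 1) ^ h *
      (Tt g l / k l) ^ β ≤
      ((2 : ℝ) ^ (-(r * l0)) * ((l0 : ℝ) + 1) ^ h * (C2 / c) ^ β) * u (l0 - l) := by
    intro l hl
    have hlt := Finset.mem_range.1 hl
    have hl0 : (0 : ℝ) ≤ l := Nat.cast_nonneg _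
    obtain ⟨j, rfl⟩ : ∃ j, l0 = l + j := ⟨l0 - l, by omega⟩
    have hjj : l + j - l = j := by omega
    rw [hjj]
    have hj : (0 : ℝ) ≤ j := Nat.cast_nonneg _
    have e1 : ((l : ℝ) + 1) ^ h ≤ (((l + j : ℕ) : ℝ) + 1) ^ h * (1 + (j : ℝ)) ^ |h| := by
      apply cmp_rpow
      · positivity
      · positivity
      · linarith
      · push_cast; nlinarith
      · push_cast; nlinarith
    have e2 : ((l : ℝ) + 1) ^ g ≤ (((l + j : ℕ) : ℝ) + 1) ^ g * (1 + (j : ℝ)) ^ |g| := by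
      apply cmp_rpow
      · positivity
      · positivity
      · linarith
      · push_cast; nlinarith
      · push_cast; nlinarith
    have hkl : k l = c * n * (2 : ℝ) ^ (-(κ * j)) := by
      simp only [hk]
      congr 3
      push_cast
      ring
    have e3 : Tt g l / k l ≤ (C2 / c) * (2 : ℝ) ^ (-((1 - κ) * j)) * (1 + (j : ℝ)) ^ |g| := by
      rw [div_le_iff₀ (hk0 l)]
      have e4 : (2 : ℝ) ^ (-((1 - κ) * j)) * (2 : ℝ) ^ (-(κ * j)) = ((2 : ℝ) ^ j)⁻¹ := by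
        rw [← two_split, ← Real.rpow_natCast, ← Real.rpow_neg (by norm_num)]
        congr 1
        ring
      have e8 : (2 : ℝ) ^ l = (2 : ℝ) ^ (l + j) * ((2 : ℝ) ^ j)⁻¹ := by
        rw [pow_add]
        field_simp
      calc Tt g l = (2 : ℝ) ^ l * ((l : ℝ) + 1) ^ g := rfl
        _ ≤ (2 : ℝ) ^ l * ((((l + j : ℕ) : ℝ) + 1) ^ g * (1 + (j : ℝ)) ^ |g|) :=
            mul_le_mul_of_nonneg_left e2 (by positivity)
        _ = Tt g (l + j) * (((2 : ℝ) ^ j)⁻¹ * (1 + (j : ℝ)) ^ |g|) := by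
            simp only [Tt]
            rw [e8]
            ring
        _ ≤ (C2 * n) * (((2 : ℝ) ^ j)⁻¹ * (1 + (j : ℝ)) ^ |g|) :=
            mul_le_mul_of_nonneg_right hT (by positivity)
        _ = (C2 / c) * (2 : ℝ) ^ (-((1 - κ) * j)) * (1 + (j : ℝ)) ^ |g| * k l := by
            rw [hkl, ← e4]
            field_simp
    have hT0 : 0 ≤ Tt g l / k l := by
      have := hk0 l
      simp only [Tt]
      positivity
    have e5 : (Tt g l / k l) ^ β ≤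
        (C2 / c) ^ β * (2 : ℝ) ^ (-(β * (1 - κ) * j)) * (1 + (j : ℝ)) ^ (|g| * β) := by
      refine (Real.rpow_le_rpow hT0 e3 hβ.le).trans (le_of_eq ?_)
      rw [Real.mul_rpow (by positivity) (by positivity), Real.mul_rpow (by positivity) (by positivity),
        ← Real.rpow_mul (by norm_num), ← Real.rpow_mul (by positivity)]
      congr 3
      ring
    calc (2 : ℝ) ^ (-(r * l)) * ((l : ℝ) + 1) ^ h * (Tt g l / k l) ^ β
        ≤ (2 : ℝ) ^ (-(r * l)) * ((((l + j : ℕ) : ℝ) + 1) ^ h * (1 + (j : ℝ)) ^ |h|) *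
          ((C2 / c) ^ β * (2 : ℝ) ^ (-(β * (1 - κ) * j)) * (1 + (j : ℝ)) ^ (|g| * β)) := by
          apply mul_le_mul _ e5 (by positivity) (by positivity)
          exact mul_le_mul_of_nonneg_left e1 (by positivity)
      _ = ((2 : ℝ) ^ (-(r * ((l + j : ℕ) : ℝ))) * (((l + j : ℕ) : ℝ) + 1) ^ h * (C2 / c) ^ β) *
          u j := by
          have e6 : (2 : ℝ) ^ (-(r * l)) * (2 : ℝ) ^ (-(β * (1 - κ) * j)) =
              (2 : ℝ) ^ (-(r * ((l + j : ℕ) : ℝ))) * (2 : ℝ) ^ (-(δ * j)) := by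
            rw [← two_split, ← two_split]
            congr 1
            push_cast
            rw [hδ]
            ring
          have e7 : (1 + (j : ℝ)) ^ |h| * (1 + (j : ℝ)) ^ (|g| * β) =
              (1 + (j : ℝ)) ^ (|h| + |g| * β) := by
            rw [← Real.rpow_add (by positivity)]
          simp only [hu]
          calc _ = ((2 : ℝ) ^ (-(r * l)) * (2 : ℝ) ^ (-(β * (1 - κ) * j))) *
                ((1 + (j : ℝ)) ^ |h| * (1 + (j : ℝ)) ^ (|g| * β)) *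
                ((((l + j : ℕ) : ℝ) + 1) ^ h * (C2 / c) ^ β) := by ring
            _ = _ := by rw [e6, e7]; ring
  refine ⟨k, hk0, hksum, ?_⟩
  calc _ ≤ ∑ l ∈ Finset.range l0,
          ((2 : ℝ) ^ (-(r * l0)) * ((l0 : ℝ) + 1) ^ h * (C2 / c) ^ β) * u (l0 - l) :=
        Finset.sum_le_sum hterm
    _ = ((2 : ℝ) ^ (-(r * l0)) * ((l0 : ℝ) + 1) ^ h * (C2 / c) ^ β) *
          ∑ l ∈ Finset.range l0, u (l0 - l) := by rw [Finset.mul_sum]
    _ ≤ ((2 : ℝ) ^ (-(r * l0)) * ((l0 : ℝ) + 1) ^ h * (C2 / c) ^ β) * ∑' j, u j :=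
        mul_le_mul_of_nonneg_left (sum_refl_le u hus hu0 l0) (by positivity)
    _ = ((2 : ℝ) ^ (-(r * l0)) * ((l0 : ℝ) + 1) ^ h) * ((C2 / c) ^ β * ∑' j, u j) := by ring
    _ ≤ ((2 : ℝ) ^ (-(r * l0)) * ((l0 : ℝ) + 1) ^ h) * ((C2 / c) ^ β * (∑' j, u j) + 1) :=
        mul_le_mul_of_nonneg_left (by linarith) (by positivity)
    _ = _ := by ring

end MPcd65c1
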