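import Pool.Agent.Lib.MP_cd65c1_an.Defs2
import Pool.Agent.Lib.MP_cd65c1_an.LNum

/-!
# MP_cd65c1_an / UPiv : the pivot level (about 150 lines)

`piv g n = ⌊logb 2 (n (log n)^(-g))⌋₊`, `n ≥ 3`, `L = log n > 1`.
* `x = n L^(-g) > 0`.  If `x ≥ 1`: `2^piv ≤ x < 2 * 2^piv`; if `x < 1`: `piv = 0` and `x < 1 = 2^piv`.
  In both cases `x < 2 * 2^piv` and `2^piv ≤ max 1 x ≤ C x` (`x ≥ c > 0` for all `n ≥ 3`:
  `n L^(-g)` is bounded below by a positive constant depending on `g`).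
* `piv + 1 ≤ C L`: `2^piv ≤ C n L^|g| ≤ C' n^2`; and `L ≤ C (piv + 1)`: `2 * 2^piv > n L^(-|g|) ≥ c n^(1/2)`.
* `piv_T`: `Tt g piv = 2^piv (piv+1)^g ≤ C n L^(-g) (piv+1)^g ≤ C' n` (two-sided comparison of `piv+1`
  and `L`, `g` of any sign).
* `piv_err`: `2^(-r piv) ≤ (x/2)^(-r) = 2^r n^(-r) L^(gr)`, `(piv+1)^h ≤ C L^h`.
* `piv_mono`: `g' ≤ g → piv g n ≤ piv g' n` (`L ≥ 1`), and
  `piv g' n ≤ piv g n + (g-g') log L/log 2 + 1`.
* `piv_psi` : the values `psi0`, `psi1`:  `r > 1/2`: `g = d-1`, `h = 1/2`; `(1,∞)`: `g = d-1`, `h = 1`; `r < 1/2`: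
  `g = 2-d`, `h = d-1`, exponent `(2-d) r + d - 1 = (d-1)(1-r) + r`.
-/

namespace MPcd65c1

private theorem cmp_rpow' (a b t g : ℝ) (ha : 0 < a) (hb : 0 < b) (ht : 1 ≤ t) (h1 : b ≤ a * t)
    (h2 : a ≤ b * t) : b ^ g ≤ a ^ g * t ^ |g| := by
  have ht0 : 0 < t := by linarith
  rcases le_total 0 g with hg | hg
  · rw [abs_of_nonneg hg, ← Real.mul_rpow ha.le ht0.le]
    exact Real.rpow_le_rpow hb.le h1 hg
  · rw [abs_of_nonpos hg]
    have h3 : (b * t) ^ g ≤ a ^ g := Real.rpow_le_rpow_of_nonpos ha h2 hg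
    rw [Real.mul_rpow hb.le ht0.le] at h3
    calc b ^ g = (b ^ g * t ^ g) * t ^ (-g) := by
          rw [mul_assoc, ← Real.rpow_add ht0]; simp
      _ ≤ a ^ g * t ^ (-g) := mul_le_mul_of_nonneg_right h3 (by positivity)

private theorem log_three_gt : 1 < Real.log 3 := by
  have h : Real.exp 1 < 3 := by
    have := Real.exp_one_lt_d9
    linarith
  exact (Real.lt_log_iff_exp_lt (by norm_num)).2 h

private theorem log_ge (n : ℕ) (hn : 3 ≤ n) : Real.log 3 ≤ Real.log n :=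
  Real.log_le_log (by norm_num) (by exact_mod_cast hn)

private theorem log_gt_one (n : ℕ) (hn : 3 ≤ n) : 1 < Real.log n :=
  lt_of_lt_of_le log_three_gt (log_ge n hn)

private theorem log_pow_le (p s : ℝ) (hs : 0 < s) : ∃ C : ℝ, 0 < C ∧ ∀ n : ℕ, 3 ≤ n →
    (Real.log n) ^ p ≤ C * (n : ℝ) ^ s := by
  rcases le_or_gt p 0 with hp | hp
  · refine ⟨1, one_pos, fun n hn => ?_⟩
    have h1 := log_gt_one n hn
    have hn1 : (1 : ℝ) ≤ n := by exact_mod_cast (by omega : 1 ≤ n)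
    calc (Real.log n) ^ p ≤ 1 := Real.rpow_le_one_of_one_le_of_nonpos h1.le hp
      _ ≤ 1 * (n : ℝ) ^ s := by rw [one_mul]; exact Real.one_le_rpow hn1 hs.le
  · refine ⟨(p / s) ^ p, by positivity, fun n hn => ?_⟩
    have h1 := log_gt_one n hn
    have hn0 : (0 : ℝ) < n := by exact_mod_cast (by omega : 0 < n)
    have h2 := Real.log_le_rpow_div hn0.le (show 0 < s / p by positivity)
    calc (Real.log n) ^ p ≤ ((n : ℝ) ^ (s / p) / (s / p)) ^ p :=
          Real.rpow_le_rpow (by linarith) h2 hp.le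
      _ = (p / s) ^ p * (n : ℝ) ^ s := by
          rw [Real.div_rpow (by positivity) (by positivity), ← Real.rpow_mul hn0.le,
            div_mul_cancel₀ _ hp.ne', Real.div_rpow (by positivity) (by positivity),
            Real.div_rpow (by positivity) (by positivity)]
          have e1 : s ^ p ≠ 0 := by positivity
          have e2 : p ^ p ≠ 0 := by positivity
          field_simp

private theorem x_pos (g : ℝ) (n : ℕ) (hn : 3 ≤ n) : 0 < (n : ℝ) * (Real.log n) ^ (-g) := by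
  have h1 := log_gt_one n hn
  have hn0 : (0 : ℝ) < n := by exact_mod_cast (by omega : 0 < n)
  positivity

private theorem lt_two_piv (g : ℝ) (n : ℕ) (hn : 3 ≤ n) :
    (n : ℝ) * (Real.log n) ^ (-g) < (2 : ℝ) ^ (piv g n + 1) := by
  have hx := x_pos g n hn
  have h1 := Nat.lt_floor_add_one (Real.logb 2 ((n : ℝ) * (Real.log n) ^ (-g)))
  have h2 : (n : ℝ) * (Real.log n) ^ (-g) =
      (2 : ℝ) ^ (Real.logb 2 ((n : ℝ) * (Real.log n) ^ (-g))) :=
    (Real.rpow_logb (by norm_num) (by norm_num) hx).symm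
  rw [h2, ← Real.rpow_natCast]
  apply Real.rpow_lt_rpow_of_exponent_lt (by norm_num)
  push_cast
  exact h1

private theorem two_piv_le (g : ℝ) (n : ℕ) (hn : 3 ≤ n) :
    (2 : ℝ) ^ (piv g n) ≤ max 1 ((n : ℝ) * (Real.log n) ^ (-g)) := by
  have hx := x_pos g n hn
  rcases le_total 0 (Real.logb 2 ((n : ℝ) * (Real.log n) ^ (-g))) with h | h
  · refine le_trans ?_ (le_max_right _ _)
    have h1 := Nat.floor_le h
    have h2 : (n : ℝ) * (Real.log n) ^ (-g) =
        (2 : ℝ) ^ (Real.logb 2 ((n : ℝ) * (Real.log n) ^ (-g))) :=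
      (Real.rpow_logb (by norm_num) (by norm_num) hx).symm
    rw [h2, ← Real.rpow_natCast]
    exact Real.rpow_le_rpow_of_exponent_le (by norm_num) h1
  · refine le_trans (le_of_eq ?_) (le_max_left _ _)
    have : piv g n = 0 := Nat.floor_of_nonpos h
    rw [this, pow_zero]

private theorem x_ge (g : ℝ) : ∃ c : ℝ, 0 < c ∧ ∀ n : ℕ, 3 ≤ n →
    c ≤ (n : ℝ) * (Real.log n) ^ (-g) := by
  obtain ⟨C, hC, h⟩ := log_pow_le g 1 one_pos
  refine ⟨C⁻¹, by positivity, fun n hn => ?_⟩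
  have h1 := h n hn
  have h2 := log_gt_one n hn
  have h3 : 0 < (Real.log n) ^ g := by positivity
  rw [Real.rpow_one] at h1
  rw [Real.rpow_neg (by linarith), inv_le_comm₀ hC (by
    have hn0 : (0 : ℝ) < n := by exact_mod_cast (by omega : 0 < n)
    positivity), mul_inv, inv_inv]
  have hn0 : (0 : ℝ) < n := by exact_mod_cast (by omega : 0 < n)
  rw [inv_mul_le_iff₀ hn0]
  linarith

private theorem two_piv_le' (g : ℝ) : ∃ C : ℝ, 0 < C ∧ ∀ n : ℕ, 3 ≤ n →
    (2 : ℝ) ^ (piv g n) ≤ C * ((n : ℝ) * (Real.log n) ^ (-g)) := by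
  obtain ⟨c, hc, h⟩ := x_ge g
  refine ⟨c⁻¹ + 1, by positivity, fun n hn => (two_piv_le g n hn).trans ?_⟩
  have h1 := h n hn
  have hx := x_pos g n hn
  apply max_le
  · have : 1 ≤ c⁻¹ * ((n : ℝ) * (Real.log n) ^ (-g)) := by
      rw [← mul_inv_cancel₀ hc.ne', mul_comm]
      exact mul_le_mul_of_nonneg_left h1 (by positivity)
    linarith
  · have : 0 ≤ c⁻¹ * ((n : ℝ) * (Real.log n) ^ (-g)) := by positivity
    linarith

theorem piv_le_log (g : ℝ) : ∃ C : ℝ, 0 < C ∧ ∀ n : ℕ, 3 ≤ n →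
    (piv g n : ℝ) + 1 ≤ C * Real.log n := by
  obtain ⟨C1, hC1, h1⟩ := two_piv_le' g
  obtain ⟨C2, hC2, h2⟩ := log_pow_le (-g) 1 one_pos
  refine ⟨2 * (|Real.log (C1 * C2)| + 2) + 1, by positivity, fun n hn => ?_⟩
  have hL := log_gt_one n hn
  have hn0 : (0 : ℝ) < n := by exact_mod_cast (by omega : 0 < n)
  have e1 : (2 : ℝ) ^ (piv g n) ≤ (C1 * C2) * (n : ℝ) ^ 2 := by
    have h3 := h2 n hn
    rw [Real.rpow_one] at h3
    calc (2 : ℝ) ^ (piv g n) ≤ C1 * ((n : ℝ) * (Real.log n) ^ (-g)) := h1 n hn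
      _ ≤ C1 * ((n : ℝ) * (C2 * n)) := by
          apply mul_le_mul_of_nonneg_left _ hC1.le
          exact mul_le_mul_of_nonneg_left h3 hn0.le
      _ = _ := by ring
  have e2 := Real.log_le_log (by positivity) e1
  rw [Real.log_pow, Real.log_mul (by positivity) (by positivity), Real.log_pow] at e2
  have e3 : (1 / 2 : ℝ) ≤ Real.log 2 := by
    have := Real.log_two_gt_d9
    linarith
  have e4 : (piv g n : ℝ) * (1 / 2) ≤ piv g n * Real.log 2 :=
    mul_le_mul_of_nonneg_left e3 (Nat.cast_nonneg _)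
  have e5 : Real.log (C1 * C2) ≤ |Real.log (C1 * C2)| * Real.log n := by
    calc Real.log (C1 * C2) ≤ |Real.log (C1 * C2)| := le_abs_self _
      _ ≤ |Real.log (C1 * C2)| * Real.log n := by
          nlinarith [abs_nonneg (Real.log (C1 * C2))]
  push_cast at e2
  nlinarith

private theorem log_le_piv (g : ℝ) : ∃ C : ℝ, 0 < C ∧ ∀ n : ℕ, 3 ≤ n →
    Real.log n ≤ C * ((piv g n : ℝ) + 1) := by
  obtain ⟨C2, hC2, h2⟩ := log_pow_le g (1 / 2) (by norm_num)
  refine ⟨2 * |Real.log C2| + 2, by positivity, fun n hn => ?_⟩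
  have hL := log_gt_one n hn
  have hn0 : (0 : ℝ) < n := by exact_mod_cast (by omega : 0 < n)
  have hLg : 0 < (Real.log n) ^ g := by positivity
  have e0 := lt_two_piv g n hn
  have e1 : (n : ℝ) < (2 : ℝ) ^ (piv g n + 1) * (C2 * (n : ℝ) ^ (1 / 2 : ℝ)) := by
    calc (n : ℝ) = ((n : ℝ) * (Real.log n) ^ (-g)) * (Real.log n) ^ g := by
          rw [mul_assoc, ← Real.rpow_add (by linarith)]; simp
      _ < (2 : ℝ) ^ (piv g n + 1) * (Real.log n) ^ g := mul_lt_mul_of_pos_right e0 hLg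
      _ ≤ _ := mul_le_mul_of_nonneg_left (h2 n hn) (by positivity)
  have e2 := Real.log_lt_log hn0 e1
  rw [Real.log_mul (by positivity) (by positivity), Real.log_pow,
    Real.log_mul (by positivity) (by positivity), Real.log_rpow hn0] at e2
  have e3 : Real.log 2 ≤ 1 := by
    have := Real.log_two_lt_d9
    linarith
  have hp : (0 : ℝ) ≤ piv g n := Nat.cast_nonneg _
  have e4 : ((piv g n + 1 : ℕ) : ℝ) * Real.log 2 ≤ (piv g n : ℝ) + 1 := by
    push_cast
    nlinarith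
  have e5 : Real.log C2 ≤ |Real.log C2| * ((piv g n : ℝ) + 1) := by
    calc Real.log C2 ≤ |Real.log C2| := le_abs_self _
      _ ≤ _ := by nlinarith [abs_nonneg (Real.log C2)]
  nlinarith

private theorem piv_pow (g h : ℝ) : ∃ C : ℝ, 0 < C ∧ ∀ n : ℕ, 3 ≤ n →
    ((piv g n : ℝ) + 1) ^ h ≤ C * (Real.log n) ^ h := by
  obtain ⟨C1, hC1, h1⟩ := piv_le_log g
  obtain ⟨C2, hC2, h2⟩ := log_le_piv g
  refine ⟨(1 + C1 + C2) ^ |h|, by positivity, fun n hn => ?_⟩
  have hL := log_gt_one n hn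
  have hp : (0 : ℝ) ≤ piv g n := Nat.cast_nonneg _
  rw [mul_comm]
  apply cmp_rpow'
  · linarith
  · linarith
  · linarith
  · have := h1 n hn
    nlinarith
  · have := h2 n hn
    nlinarith

theorem piv_T (g : ℝ) : ∃ C : ℝ, 0 < C ∧ ∀ n : ℕ, 3 ≤ n → Tt g (piv g n) ≤ C * n := by
  obtain ⟨C1, hC1, h1⟩ := two_piv_le' g
  obtain ⟨C2, hC2, h2⟩ := piv_pow g g
  refine ⟨C1 * C2, by positivity, fun n hn => ?_⟩
  have hL := log_gt_one n hn
  have hn0 : (0 : ℝ) < n := by exact_mod_cast (by omega : 0 < n)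
  calc Tt g (piv g n) = (2 : ℝ) ^ (piv g n) * ((piv g n : ℝ) + 1) ^ g := rfl
    _ ≤ (C1 * ((n : ℝ) * (Real.log n) ^ (-g))) * (C2 * (Real.log n) ^ g) :=
        mul_le_mul (h1 n hn) (h2 n hn) (by positivity) (by
          have := x_pos g n hn
          positivity)
    _ = C1 * C2 * n * ((Real.log n) ^ (-g) * (Real.log n) ^ g) := by ring
    _ = C1 * C2 * n := by rw [← Real.rpow_add (by linarith)]; simp

theorem piv_err (g h r : ℝ) (hr : 0 < r) : ∃ C : ℝ, 0 < C ∧ ∀ n : ℕ, 3 ≤ n →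
    (2 : ℝ) ^ (-(r * (piv g n : ℝ))) * ((piv g n : ℝ) + 1) ^ h ≤
      C * ((n : ℝ) ^ (-r) * (Real.log n) ^ (g * r + h)) := by
  obtain ⟨C2, hC2, h2⟩ := piv_pow g h
  refine ⟨(2 : ℝ) ^ r * C2, by positivity, fun n hn => ?_⟩
  have hL := log_gt_one n hn
  have hL0 : 0 < Real.log n := by linarith
  have hn0 : (0 : ℝ) < n := by exact_mod_cast (by omega : 0 < n)
  have hx := x_pos g n hn
  have e0 := lt_two_piv g n hn
  have e1 : (2 : ℝ) ^ (-(r * (piv g n : ℝ))) ≤ (2 : ℝ) ^ r * ((n : ℝ) ^ (-r) * (Real.log n) ^ (g * r)) := by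
    have e2 : (2 : ℝ) ^ (-(r * (piv g n : ℝ))) = (2 : ℝ) ^ r * ((2 : ℝ) ^ (piv g n + 1)) ^ (-r) := by
      rw [← Real.rpow_natCast, ← Real.rpow_mul (by norm_num), ← Real.rpow_add (by norm_num)]
      congr 1
      push_cast
      ring
    rw [e2]
    apply mul_le_mul_of_nonneg_left _ (by positivity)
    calc ((2 : ℝ) ^ (piv g n + 1)) ^ (-r) ≤ ((n : ℝ) * (Real.log n) ^ (-g)) ^ (-r) :=
          Real.rpow_le_rpow_of_nonpos hx e0.le (by linarith)
      _ = (n : ℝ) ^ (-r) * (Real.log n) ^ (g * r) := by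
          rw [Real.mul_rpow hn0.le (by positivity), ← Real.rpow_mul hL0.le]
          congr 2
          ring
  calc (2 : ℝ) ^ (-(r * (piv g n : ℝ))) * ((piv g n : ℝ) + 1) ^ h
      ≤ ((2 : ℝ) ^ r * ((n : ℝ) ^ (-r) * (Real.log n) ^ (g * r))) * (C2 * (Real.log n) ^ h) :=
        mul_le_mul e1 (h2 n hn) (by positivity) (by positivity)
    _ = (2 : ℝ) ^ r * C2 * ((n : ℝ) ^ (-r) * ((Real.log n) ^ (g * r) * (Real.log n) ^ h)) := by ring
    _ = _ := by rw [← Real.rpow_add hL0]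

private theorem x_le (g g' : ℝ) (hg : g' ≤ g) (n : ℕ) (hn : 3 ≤ n) :
    (n : ℝ) * (Real.log n) ^ (-g) ≤ (n : ℝ) * (Real.log n) ^ (-g') := by
  have hL := log_gt_one n hn
  exact mul_le_mul_of_nonneg_left
    (Real.rpow_le_rpow_of_exponent_le hL.le (by linarith)) (Nat.cast_nonneg _)

theorem piv_mono (g g' : ℝ) (hg : g' ≤ g) (n : ℕ) (hn : 3 ≤ n) : piv g n ≤ piv g' n := by
  apply Nat.floor_mono
  exact (Real.logb_le_logb (by norm_num) (x_pos g n hn) (x_pos g' n hn)).2 (x_le g g' hg n hn)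

theorem piv_diff (g g' : ℝ) (hg : g' ≤ g) : ∃ C : ℝ, 0 < C ∧ ∀ n : ℕ, 3 ≤ n →
    (piv g' n : ℝ) - piv g n + 1 ≤ C * (Real.log (Real.log n)) := by
  have hl3 : 0 < Real.log (Real.log 3) := Real.log_pos log_three_gt
  refine ⟨(g - g') / Real.log 2 + 2 / Real.log (Real.log 3), by
    have h1 : 0 ≤ (g - g') / Real.log 2 := div_nonneg (by linarith) (Real.log_nonneg (by norm_num))
    have h2 : 0 < 2 / Real.log (Real.log 3) := by positivity
    linarith, fun n hn => ?_⟩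
  have hL := log_gt_one n hn
  have hL0 : 0 < Real.log n := by linarith
  have hn0 : (0 : ℝ) < n := by exact_mod_cast (by omega : 0 < n)
  have hLL : Real.log (Real.log 3) ≤ Real.log (Real.log n) :=
    Real.log_le_log (by linarith [log_three_gt]) (log_ge n hn)
  have hLL0 : 0 < Real.log (Real.log n) := by linarith
  set y : ℝ := Real.logb 2 ((n : ℝ) * (Real.log n) ^ (-g')) with hy
  set z : ℝ := Real.logb 2 ((n : ℝ) * (Real.log n) ^ (-g)) with hz
  have hyz : y = z + (g - g') * (Real.log (Real.log n) / Real.log 2) := by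
    rw [hy, hz, Real.logb, Real.logb, Real.log_mul (by positivity) (by positivity),
      Real.log_mul (by positivity) (by positivity), Real.log_rpow hL0, Real.log_rpow hL0]
    ring
  have h1 : (piv g n : ℝ) > z - 1 := by
    have := Nat.lt_floor_add_one z
    have h2 : ((⌊z⌋₊ : ℕ) : ℝ) = (piv g n : ℝ) := rfl
    linarith
  have hp : (0 : ℝ) ≤ piv g n := Nat.cast_nonneg _
  have hd : 0 ≤ (g - g') * (Real.log (Real.log n) / Real.log 2) :=
    mul_nonneg (by linarith) (div_nonneg hLL0.le (Real.log_nonneg (by norm_num)))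
  have h2 : (piv g' n : ℝ) - piv g n ≤ (g - g') * (Real.log (Real.log n) / Real.log 2) + 1 := by
    rcases le_total 0 y with h | h
    · have h3 : (piv g' n : ℝ) ≤ y := Nat.floor_le h
      linarith
    · have h3 : piv g' n = 0 := Nat.floor_of_nonpos h
      rw [h3]
      push_cast
      linarith
  have h3 : 2 ≤ 2 / Real.log (Real.log 3) * Real.log (Real.log n) := by
    rw [div_mul_eq_mul_div, le_div_iff₀ hl3]
    linarith
  calc (piv g' n : ℝ) - piv g n + 1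
      ≤ (g - g') * (Real.log (Real.log n) / Real.log 2) + 2 := by linarith
    _ ≤ (g - g') * (Real.log (Real.log n) / Real.log 2) +
        2 / Real.log (Real.log 3) * Real.log (Real.log n) := by linarith
    _ = _ := by ring

end MPcd65c1
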