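import Pool.Agent.Lib.MP_cd65c1_an.UAsm
import Pool.Agent.Lib.MP_cd65c1_an.UNum
import Pool.Agent.Lib.MP_cd65c1_an.UPiv
import Pool.Agent.Lib.MP_cd65c1_an.UMidOp

/-!
# MP_cd65c1_an / UThree : upper bound for `r = 1/2` (about 150 lines)

Hypotheses: (low) `LB` with `g = d-1`, `h = 1/2` and an exponent `b' > 1/2`; (high) `LB` with `g = 2-d`,
`h = d-1` and an exponent `0 ≤ b < 1/2`; (mid) for all `l0 ≤ l1` and real `k > 0`:
`Cov (nrm q ∘ tp Lmid) (Img Lmid amid p) (2^k) (C sqrt(l1+1) l2(amid)/sqrt k)`.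
Proof.  `n ≥ 3`, `l0 = piv (d-1) n ≤ l1 = piv (2-d) n` (`piv_mono`: `2 - d ≤ d - 1`).  Low levels: `num_low`, error
`≤ C 2^(-l0/2)(l0+1)^(1/2) ≤ C' n^(-1/2) (log n)^((d-1)/2+1/2)` (`piv_err`).
High levels `l ≥ l1`: `num_high`, error `≤ C 2^(-l1/2) (l1+1)^(d-1) ≤ C' n^(-1/2) (log n)^((2-d)/2+d-1)`.
Both are `C n^(-1/2) (log n)^(d/2)` and `loglog n ≥ loglog 3 > 0`, so `≤ C psi0 d (1/2) n`.
Middle: `k = n/4`, `l2_amid_le`: error `≤ C sqrt(l1+1) sqrt(2^d (l1-l0+d) (l1+1)^(d-1)) / sqrt(n/4)`, with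
`l1 + 1 ≤ C log n` (`piv_le_log`), `l1 - l0 + d ≤ C loglog n` (`piv_diff`): `≤ C n^(-1/2) (log n)^(d/2) (loglog n)^(1/2)`.
-/

namespace MPcd65c1

open MeasureTheory
open scoped ENNReal

private lemma three_log {n : ℕ} (hn : 3 ≤ n) : 1 < Real.log n := by
  have h1 : Real.exp 1 < 3 := Real.exp_one_lt_three
  have h2 : Real.log (Real.exp 1) < Real.log 3 := Real.log_lt_log (Real.exp_pos 1) h1
  rw [Real.log_exp] at h2
  have h3 : Real.log 3 ≤ Real.log n := Real.log_le_log (by norm_num) (by exact_mod_cast hn)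
  linarith

private lemma three_loglog {n : ℕ} (hn : 3 ≤ n) :
    Real.log (Real.log 3) ≤ Real.log (Real.log n) := by
  have h1 : 1 < Real.log ((3 : ℕ) : ℝ) := three_log le_rfl
  refine Real.log_le_log (by exact_mod_cast (zero_lt_one.trans h1)) ?_
  exact Real.log_le_log (by norm_num) (by exact_mod_cast hn)

private lemma three_loglog_pos : 0 < Real.log (Real.log 3) := by
  have h1 : 1 < Real.log ((3 : ℕ) : ℝ) := three_log le_rfl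
  exact Real.log_pos (by exact_mod_cast h1)

private lemma three_psi (d n : ℕ) : psi0 d (1 / 2) n =
    (n : ℝ) ^ (-(1 / 2 : ℝ)) * (Real.log n) ^ ((d : ℝ) / 2) *
      (Real.log (Real.log n)) ^ ((1 : ℝ) / 2) := by
  unfold psi0
  rw [if_neg (lt_irrefl _), if_pos rfl]

private lemma three_side (d : ℕ) : ∃ C : ℝ, 0 < C ∧ ∀ n : ℕ, 3 ≤ n →
    (n : ℝ) ^ (-(1 / 2 : ℝ)) * (Real.log n) ^ ((d : ℝ) / 2) ≤ C * psi0 d (1 / 2) n := by
  have h0 := three_loglog_pos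
  refine ⟨((Real.log (Real.log 3)) ^ ((1 : ℝ) / 2))⁻¹, by positivity, fun n hn => ?_⟩
  rw [three_psi]
  have h1 := three_log hn
  have h2 : (Real.log (Real.log 3)) ^ ((1 : ℝ) / 2) ≤ (Real.log (Real.log n)) ^ ((1 : ℝ) / 2) :=
    Real.rpow_le_rpow h0.le (three_loglog hn) (by norm_num)
  have h3 : 0 < (Real.log (Real.log 3)) ^ ((1 : ℝ) / 2) := by positivity
  have h4 : 0 ≤ (n : ℝ) ^ (-(1 / 2 : ℝ)) * (Real.log n) ^ ((d : ℝ) / 2) := by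
    have : 0 < Real.log n := by linarith
    positivity
  rw [← div_eq_inv_mul, le_div_iff₀ h3]
  exact mul_le_mul_of_nonneg_left h2 h4

private lemma three_mid (d : ℕ) (hd : 2 ≤ d) : ∃ C : ℝ, 0 < C ∧ ∀ n : ℕ, 3 ≤ n →
    Real.sqrt ((piv (2 - (d : ℝ)) n : ℝ) + 1) * Real.sqrt ((2 : ℝ) ^ d *
      ((piv (2 - (d : ℝ)) n : ℝ) - piv ((d : ℝ) - 1) n + d) *
        ((piv (2 - (d : ℝ)) n : ℝ) + 1) ^ (d - 1)) / Real.sqrt ((n : ℝ) / 4) ≤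
      C * psi0 d (1 / 2) n := by
  have hd' : (2 : ℝ) ≤ d := by exact_mod_cast hd
  have hg : 2 - (d : ℝ) ≤ (d : ℝ) - 1 := by linarith
  obtain ⟨C4, hC4, h4⟩ := piv_le_log (2 - (d : ℝ))
  obtain ⟨C5, hC5, h5⟩ := piv_diff ((d : ℝ) - 1) (2 - (d : ℝ)) hg
  have h0 := three_loglog_pos
  set c0 : ℝ := Real.log (Real.log 3) with hc0
  set C6 : ℝ := C5 + ((d : ℝ) - 1) / c0 with hC6
  have hC6p : 0 < C6 := by
    have : 0 ≤ ((d : ℝ) - 1) / c0 := div_nonneg (by linarith) h0.le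
    linarith
  refine ⟨2 * Real.sqrt ((2 : ℝ) ^ d * C6 * C4 ^ d), by positivity, fun n hn => ?_⟩
  have hL := three_log hn
  have hLL := three_loglog hn
  have hLLp : 0 < Real.log (Real.log n) := h0.trans_le hLL
  set L : ℝ := Real.log n with hLdef
  set M : ℝ := Real.log L with hMdef
  have hLp : 0 < L := by linarith
  have e4 := h4 n hn
  have e5 := h5 n hn
  have hmono : piv ((d : ℝ) - 1) n ≤ piv (2 - (d : ℝ)) n := piv_mono _ _ hg n hn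
  have hmono' : ((piv ((d : ℝ) - 1) n : ℕ) : ℝ) ≤ (piv (2 - (d : ℝ)) n : ℕ) := by
    exact_mod_cast hmono
  set l1 : ℝ := ((piv (2 - (d : ℝ)) n : ℕ) : ℝ) with hl1
  set l0 : ℝ := ((piv ((d : ℝ) - 1) n : ℕ) : ℝ) with hl0
  have hl1p : 0 ≤ l1 := Nat.cast_nonneg _
  have e6 : l1 - l0 + d ≤ C6 * M := by
    have h7 : (d : ℝ) - 1 ≤ ((d : ℝ) - 1) / c0 * M := by
      rw [div_mul_eq_mul_div, le_div_iff₀ h0]
      exact mul_le_mul_of_nonneg_left hLL (by linarith)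
    rw [hC6, add_mul]
    linarith
  have hnpos : (0 : ℝ) < n := by
    have : 0 < n := by omega
    exact_mod_cast this
  have key : Real.sqrt (l1 + 1) * Real.sqrt ((2 : ℝ) ^ d * (l1 - l0 + d) * (l1 + 1) ^ (d - 1)) ≤
      Real.sqrt ((2 : ℝ) ^ d * C6 * C4 ^ d) * (L ^ ((d : ℝ) / 2) * M ^ ((1 : ℝ) / 2)) := by
    have e7 : L ^ ((d : ℝ) / 2) = Real.sqrt (L ^ d) := by
      rw [Real.sqrt_eq_rpow, ← Real.rpow_natCast, ← Real.rpow_mul hLp.le]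
      congr 1
      ring
    rw [e7, ← Real.sqrt_eq_rpow, ← Real.sqrt_mul (by positivity : 0 ≤ L ^ d),
      ← Real.sqrt_mul (by positivity), ← Real.sqrt_mul (by positivity)]
    apply Real.sqrt_le_sqrt
    have e8 : (l1 + 1) * ((2 : ℝ) ^ d * (l1 - l0 + d) * (l1 + 1) ^ (d - 1)) =
        (2 : ℝ) ^ d * (l1 - l0 + d) * (l1 + 1) ^ d := by
      have : (l1 + 1) ^ d = (l1 + 1) ^ (d - 1) * (l1 + 1) := by
        rw [← pow_succ]
        congr 1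
        omega
      rw [this]
      ring
    rw [e8]
    have e9 : (l1 + 1) ^ d ≤ (C4 * L) ^ d := pow_le_pow_left₀ (by positivity) e4 d
    calc (2 : ℝ) ^ d * (l1 - l0 + d) * (l1 + 1) ^ d ≤ (2 : ℝ) ^ d * (C6 * M) * (C4 * L) ^ d := by
          have : 0 ≤ C6 * M := by positivity
          gcongr
      _ = (2 : ℝ) ^ d * C6 * C4 ^ d * (L ^ d * M) := by
          rw [mul_pow]
          ring
  have hsn : Real.sqrt ((n : ℝ) / 4) = Real.sqrt n / 2 := by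
    rw [Real.sqrt_div' _ (by norm_num : (0 : ℝ) ≤ 4)]
    congr 1
    rw [show (4 : ℝ) = 2 ^ 2 by norm_num, Real.sqrt_sq (by norm_num)]
  have hnn : (n : ℝ) ^ (-(1 / 2 : ℝ)) = (Real.sqrt n)⁻¹ := by
    rw [Real.rpow_neg hnpos.le, Real.sqrt_eq_rpow]
  have hsp : 0 < Real.sqrt n := Real.sqrt_pos.2 hnpos
  rw [three_psi, hsn, hnn, div_le_iff₀ (by positivity)]
  refine key.trans (le_of_eq ?_)
  rw [← hLdef, ← hMdef]
  field_simp

theorem up_half (d : ℕ) (hd : 2 ≤ d) {p q : ℝ≥0∞} [Fact (1 ≤ q)] (hp : 1 ≤ p)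
    (b b' : ℝ) (hb : 0 ≤ b) (hbr : b < 1 / 2) (hrb : 1 / 2 < b')
    (hlow : LB d p q (1 / 2) (fun l => alm (1 / 2) l) ((d : ℝ) - 1) (1 / 2) b')
    (hhigh : LB d p q (1 / 2) (fun l => alm (1 / 2) l) (2 - (d : ℝ)) ((d : ℝ) - 1) b)
    (hmid : ∃ C : ℝ, 0 < C ∧ ∀ (l0 l1 : ℕ) (k : ℝ), l0 ≤ l1 → 0 < k →
      Cov (fun c : CV d => nrm q (tp (Lmid d l0 l1) c))
        (Img (Lmid d l0 l1) (amid (1 / 2) l0 l1) p) ((2 : ℝ) ^ k)
        (C * Real.sqrt ((l1 : ℝ) + 1) * l2 (Lmid d l0 l1) (amid (1 / 2) l0 l1) / Real.sqrt k)) :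
    UP d p q (1 / 2) (psi0 d (1 / 2)) ∧ EX d p q (1 / 2) := by
  have hd' : (2 : ℝ) ≤ d := by exact_mod_cast hd
  have hg : 2 - (d : ℝ) ≤ (d : ℝ) - 1 := by linarith
  obtain ⟨Cl, hCl, hlow⟩ := hlow
  obtain ⟨Ch, hCh, hhigh⟩ := hhigh
  obtain ⟨Cm, hCm, hmid⟩ := hmid
  obtain ⟨T0, hT0, hT0'⟩ := piv_T ((d : ℝ) - 1)
  obtain ⟨T1, hT1, hT1'⟩ := piv_T (2 - (d : ℝ))
  obtain ⟨N0, hN0, hN0'⟩ := num_low (1 / 2) b' ((d : ℝ) - 1) (1 / 2) T0 (by norm_num) hrb hT0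
  obtain ⟨N1, hN1, hN1'⟩ := num_high (1 / 2) b (2 - (d : ℝ)) ((d : ℝ) - 1) T1 hb hbr hT1
  obtain ⟨R0, hR0, hR0'⟩ := piv_err ((d : ℝ) - 1) (1 / 2) (1 / 2) (by norm_num)
  obtain ⟨R1, hR1, hR1'⟩ := piv_err (2 - (d : ℝ)) ((d : ℝ) - 1) (1 / 2) (by norm_num)
  obtain ⟨S, hS, hS'⟩ := three_side d
  obtain ⟨Q, hQ, hQ'⟩ := three_mid d hd
  have main : ∀ n : ℕ, 3 ≤ n →
      Cov (fun v : Lp ℂ q (mu d) => ‖v‖) (W d (1 / 2) p q) ((2 : ℝ) ^ (n : ℝ))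
        ((Cl * (N0 * (R0 * S)) + Cm * Q + 2 * (Ch * (N1 * (R1 * S)))) * psi0 d (1 / 2) n) ∧
        EX d p q (1 / 2) := by
    intro n hn
    have hnpos : (0 : ℝ) < n := by
      have : 0 < n := by omega
      exact_mod_cast this
    obtain ⟨kl, hkl0, hkls, hkle⟩ := hN0' (piv ((d : ℝ) - 1) n) n hnpos (hT0' n hn)
    obtain ⟨kh, hkh0, hkhs, hkht, hkhe, hkhet⟩ := hN1' (piv (2 - (d : ℝ)) n) n hnpos (hT1' n hn)
    have hpm : piv ((d : ℝ) - 1) n ≤ piv (2 - (d : ℝ)) n := piv_mono _ _ hg n hn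
    set l0 : ℕ := piv ((d : ℝ) - 1) n with hl0
    set l1 : ℕ := piv (2 - (d : ℝ)) n with hl1
    have hsum : Summable (fun j : ℕ => Ch * (2 : ℝ) ^ (-((1 / 2 : ℝ) * ((l1 + j : ℕ) : ℝ))) *
        (((l1 + j : ℕ) : ℝ) + 1) ^ ((d : ℝ) - 1) * (Tt (2 - (d : ℝ)) (l1 + j) / kh j) ^ b) := by
      refine (hkhe.mul_left Ch).congr fun j => ?_
      ring
    obtain ⟨hcov, hex⟩ := assemble (d := d) (p := p) (q := q) hp (1 / 2) l0 l1 hpm (n : ℝ) hnpos.le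
      kl (fun l => Cl * (2 : ℝ) ^ (-((1 / 2 : ℝ) * l)) * ((l : ℝ) + 1) ^ (1 / 2 : ℝ) *
        (Tt ((d : ℝ) - 1) l / kl l) ^ b') hkls (fun l _ => hlow l (kl l) (hkl0 l))
      _ (hmid l0 l1 ((n : ℝ) / 4) hpm (by positivity))
      kh (fun j => Ch * (2 : ℝ) ^ (-((1 / 2 : ℝ) * ((l1 + j : ℕ) : ℝ))) *
        (((l1 + j : ℕ) : ℝ) + 1) ^ ((d : ℝ) - 1) * (Tt (2 - (d : ℝ)) (l1 + j) / kh j) ^ b)
      (fun j => (hkh0 j).le) hkhs hkht hsum (fun j => hhigh (l1 + j) (kh j) (hkh0 j))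
    · refine ⟨hcov.mono_e ?_, hex⟩
      -- low part
      have hA : ∑ l ∈ Finset.range l0, Cl * (2 : ℝ) ^ (-((1 / 2 : ℝ) * l)) *
          ((l : ℝ) + 1) ^ (1 / 2 : ℝ) * (Tt ((d : ℝ) - 1) l / kl l) ^ b' ≤
          Cl * (N0 * (R0 * S)) * psi0 d (1 / 2) n := by
        have e1 : ∑ l ∈ Finset.range l0, Cl * (2 : ℝ) ^ (-((1 / 2 : ℝ) * l)) *
            ((l : ℝ) + 1) ^ (1 / 2 : ℝ) * (Tt ((d : ℝ) - 1) l / kl l) ^ b' =
            Cl * ∑ l ∈ Finset.range l0, (2 : ℝ) ^ (-((1 / 2 : ℝ) * l)) *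
            ((l : ℝ) + 1) ^ (1 / 2 : ℝ) * (Tt ((d : ℝ) - 1) l / kl l) ^ b' := by
          rw [Finset.mul_sum]
          exact Finset.sum_congr rfl fun l _ => by ring
        have e2 := hR0' n hn
        have e3 : ((d : ℝ) - 1) * (1 / 2) + 1 / 2 = (d : ℝ) / 2 := by ring
        rw [e3] at e2
        rw [e1]
        calc Cl * ∑ l ∈ Finset.range l0, (2 : ℝ) ^ (-((1 / 2 : ℝ) * l)) *
              ((l : ℝ) + 1) ^ (1 / 2 : ℝ) * (Tt ((d : ℝ) - 1) l / kl l) ^ b'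
            ≤ Cl * (N0 * (2 : ℝ) ^ (-((1 / 2 : ℝ) * l0)) * ((l0 : ℝ) + 1) ^ (1 / 2 : ℝ)) :=
              mul_le_mul_of_nonneg_left hkle hCl.le
          _ = Cl * (N0 * ((2 : ℝ) ^ (-((1 / 2 : ℝ) * l0)) * ((l0 : ℝ) + 1) ^ (1 / 2 : ℝ))) := by
              ring
          _ ≤ Cl * (N0 * (R0 * (S * psi0 d (1 / 2) n))) := by
              have e4 := e2.trans (mul_le_mul_of_nonneg_left (hS' n hn) hR0.le)
              gcongr
          _ = Cl * (N0 * (R0 * S)) * psi0 d (1 / 2) n := by ring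
      have hB : Cm * Real.sqrt ((l1 : ℝ) + 1) * l2 (Lmid d l0 l1) (amid (1 / 2) l0 l1) /
          Real.sqrt ((n : ℝ) / 4) ≤ Cm * Q * psi0 d (1 / 2) n := by
        have e1 := l2_amid_le d (by omega) l0 l1 hpm
        have e2 := hQ' n hn
        have e3 : Real.sqrt ((l1 : ℝ) + 1) * l2 (Lmid d l0 l1) (amid (1 / 2) l0 l1) /
            Real.sqrt ((n : ℝ) / 4) ≤ Q * psi0 d (1 / 2) n := by
          refine le_trans ?_ e2
          gcongr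
        calc Cm * Real.sqrt ((l1 : ℝ) + 1) * l2 (Lmid d l0 l1) (amid (1 / 2) l0 l1) /
              Real.sqrt ((n : ℝ) / 4) = Cm * (Real.sqrt ((l1 : ℝ) + 1) *
              l2 (Lmid d l0 l1) (amid (1 / 2) l0 l1) / Real.sqrt ((n : ℝ) / 4)) := by ring
          _ ≤ Cm * (Q * psi0 d (1 / 2) n) := mul_le_mul_of_nonneg_left e3 hCm.le
          _ = Cm * Q * psi0 d (1 / 2) n := by ring
      have hC : ∑' j : ℕ, Ch * (2 : ℝ) ^ (-((1 / 2 : ℝ) * ((l1 + j : ℕ) : ℝ))) *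
          (((l1 + j : ℕ) : ℝ) + 1) ^ ((d : ℝ) - 1) * (Tt (2 - (d : ℝ)) (l1 + j) / kh j) ^ b ≤
          Ch * (N1 * (R1 * S)) * psi0 d (1 / 2) n := by
        have e1 : ∑' j : ℕ, Ch * (2 : ℝ) ^ (-((1 / 2 : ℝ) * ((l1 + j : ℕ) : ℝ))) *
            (((l1 + j : ℕ) : ℝ) + 1) ^ ((d : ℝ) - 1) * (Tt (2 - (d : ℝ)) (l1 + j) / kh j) ^ b =
            Ch * ∑' j : ℕ, (2 : ℝ) ^ (-((1 / 2 : ℝ) * ((l1 + j : ℕ) : ℝ))) *
            (((l1 + j : ℕ) : ℝ) + 1) ^ ((d : ℝ) - 1) * (Tt (2 - (d : ℝ)) (l1 + j) / kh j) ^ b := by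
          rw [← tsum_mul_left]
          exact tsum_congr fun j => by ring
        have e2 := hR1' n hn
        have e3 : (2 - (d : ℝ)) * (1 / 2) + ((d : ℝ) - 1) = (d : ℝ) / 2 := by ring
        rw [e3] at e2
        rw [e1]
        calc Ch * ∑' j : ℕ, (2 : ℝ) ^ (-((1 / 2 : ℝ) * ((l1 + j : ℕ) : ℝ))) *
              (((l1 + j : ℕ) : ℝ) + 1) ^ ((d : ℝ) - 1) * (Tt (2 - (d : ℝ)) (l1 + j) / kh j) ^ b
            ≤ Ch * (N1 * (2 : ℝ) ^ (-((1 / 2 : ℝ) * l1)) * ((l1 : ℝ) + 1) ^ ((d : ℝ) - 1)) :=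
              mul_le_mul_of_nonneg_left hkhet hCh.le
          _ = Ch * (N1 * ((2 : ℝ) ^ (-((1 / 2 : ℝ) * l1)) * ((l1 : ℝ) + 1) ^ ((d : ℝ) - 1))) := by
              ring
          _ ≤ Ch * (N1 * (R1 * (S * psi0 d (1 / 2) n))) := by
              have e4 := e2.trans (mul_le_mul_of_nonneg_left (hS' n hn) hR1.le)
              gcongr
          _ = Ch * (N1 * (R1 * S)) * psi0 d (1 / 2) n := by ring
      calc _ ≤ Cl * (N0 * (R0 * S)) * psi0 d (1 / 2) n + Cm * Q * psi0 d (1 / 2) n +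
            2 * (Ch * (N1 * (R1 * S)) * psi0 d (1 / 2) n) := by
            gcongr
        _ = _ := by ring
  refine ⟨⟨_, ?_, fun n hn => (main n hn).1⟩, (main 3 le_rfl).2⟩
  positivity

end MPcd65c1
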