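import Pool.Agent.Lib.MP_cd65c1_an.UAsm
import Pool.Agent.Lib.MP_cd65c1_an.UNum
import Pool.Agent.Lib.MP_cd65c1_an.UPiv

/-!
# MP_cd65c1_an / UTwo : upper bound when there is no middle operator (about 120 lines)

Hypothesis: level bounds `LB` with the two exponents `b < r < b'` and the same `g`, `h`.
CONCLUSION: `UP` with `ψ(n) = n^(-r) (log n)^(g r + h)`, and `EX`.
Proof.  `n ≥ 3`, `l0 = l1 = piv g n`; `piv_T`: `Tt g l0 ≤ C2 n`.  `num_low` (exponent `b'`) gives `kl`,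
`el l = C (2^(-rl)) (l+1)^h (Tt g l/kl l)^b'`; `num_high` (exponent `b`) gives `kh`, `eh`.
The middle operator is empty: `Lmid d l0 l0 = ∅`, `tp ∅ c = 0`, `nrm = 0`: `em = 0` with the one point `0`
(`1 ≤ 2^(n/4)`).  `assemble`, and the errors sum to `≤ C 2^(-r l0) (l0+1)^h ≤ C' ψ(n)` (`piv_err`).
-/

namespace MPcd65c1

open MeasureTheory
open scoped ENNReal

theorem up_of_LB (d : ℕ) {p q : ℝ≥0∞} [Fact (1 ≤ q)] (hp : 1 ≤ p) (r : ℝ) (hr : 0 < r)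
    (g h b b' : ℝ) (hb : 0 ≤ b) (hbr : b < r) (hrb : r < b')
    (h1 : LB d p q r (fun l => alm r l) g h b) (h2 : LB d p q r (fun l => alm r l) g h b') :
    UP d p q r (fun n => (n : ℝ) ^ (-r) * (Real.log n) ^ (g * r + h)) ∧ EX d p q r := by
  obtain ⟨Ch, hCh, hhigh⟩ := h1
  obtain ⟨Cl, hCl, hlow⟩ := h2
  obtain ⟨T0, hT0, hT0'⟩ := piv_T g
  obtain ⟨N0, hN0, hN0'⟩ := num_low r b' g h T0 hr hrb hT0
  obtain ⟨N1, hN1, hN1'⟩ := num_high r b g h T0 hb hbr hT0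
  obtain ⟨R0, hR0, hR0'⟩ := piv_err g h r hr
  have main : ∀ n : ℕ, 3 ≤ n →
      Cov (fun v : Lp ℂ q (mu d) => ‖v‖) (W d r p q) ((2 : ℝ) ^ (n : ℝ))
        ((Cl * (N0 * R0) + 2 * (Ch * (N1 * R0))) *
          ((n : ℝ) ^ (-r) * (Real.log n) ^ (g * r + h))) ∧ EX d p q r := by
    intro n hn
    have hnpos : (0 : ℝ) < n := by
      have : 0 < n := by omega
      exact_mod_cast this
    obtain ⟨kl, hkl0, hkls, hkle⟩ := hN0' (piv g n) n hnpos (hT0' n hn)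
    obtain ⟨kh, hkh0, hkhs, hkht, hkhe, hkhet⟩ := hN1' (piv g n) n hnpos (hT0' n hn)
    have e2 := hR0' n hn
    set l0 : ℕ := piv g n with hl0
    have hsum : Summable (fun j : ℕ => Ch * (2 : ℝ) ^ (-(r * ((l0 + j : ℕ) : ℝ))) *
        (((l0 + j : ℕ) : ℝ) + 1) ^ h * (Tt g (l0 + j) / kh j) ^ b) := by
      refine (hkhe.mul_left Ch).congr fun j => ?_
      ring
    have hmid : Cov (fun c : CV d => nrm q (tp (Lmid d l0 l0) c))
        (Img (Lmid d l0 l0) (amid r l0 l0) p) ((2 : ℝ) ^ ((n : ℝ) / 4)) 0 := by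
      refine ⟨{0}, ?_, fun a _ => ⟨0, by simp, ?_⟩⟩
      · rw [Finset.card_singleton, Nat.cast_one]
        exact Real.one_le_rpow (by norm_num) (by positivity)
      · have e3 : Lmid d l0 l0 = ∅ := by
          unfold Lmid
          simp
        rw [e3]
        unfold nrm tp
        simp
    obtain ⟨hcov, hex⟩ := assemble (d := d) (p := p) (q := q) hp r l0 l0 le_rfl (n : ℝ) hnpos.le
      kl (fun l => Cl * (2 : ℝ) ^ (-(r * l)) * ((l : ℝ) + 1) ^ h *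
        (Tt g l / kl l) ^ b') hkls (fun l _ => hlow l (kl l) (hkl0 l))
      0 hmid
      kh (fun j => Ch * (2 : ℝ) ^ (-(r * ((l0 + j : ℕ) : ℝ))) *
        (((l0 + j : ℕ) : ℝ) + 1) ^ h * (Tt g (l0 + j) / kh j) ^ b)
      (fun j => (hkh0 j).le) hkhs hkht hsum (fun j => hhigh (l0 + j) (kh j) (hkh0 j))
    refine ⟨hcov.mono_e ?_, hex⟩
    have hA : ∑ l ∈ Finset.range l0, Cl * (2 : ℝ) ^ (-(r * l)) *
        ((l : ℝ) + 1) ^ h * (Tt g l / kl l) ^ b' ≤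
        Cl * (N0 * R0) * ((n : ℝ) ^ (-r) * (Real.log n) ^ (g * r + h)) := by
      have e1 : ∑ l ∈ Finset.range l0, Cl * (2 : ℝ) ^ (-(r * l)) *
          ((l : ℝ) + 1) ^ h * (Tt g l / kl l) ^ b' =
          Cl * ∑ l ∈ Finset.range l0, (2 : ℝ) ^ (-(r * l)) *
          ((l : ℝ) + 1) ^ h * (Tt g l / kl l) ^ b' := by
        rw [Finset.mul_sum]
        exact Finset.sum_congr rfl fun l _ => by ring
      rw [e1]
      calc Cl * ∑ l ∈ Finset.range l0, (2 : ℝ) ^ (-(r * l)) *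
            ((l : ℝ) + 1) ^ h * (Tt g l / kl l) ^ b'
          ≤ Cl * (N0 * (2 : ℝ) ^ (-(r * l0)) * ((l0 : ℝ) + 1) ^ h) :=
            mul_le_mul_of_nonneg_left hkle hCl.le
        _ = Cl * (N0 * ((2 : ℝ) ^ (-(r * l0)) * ((l0 : ℝ) + 1) ^ h)) := by
            ring
        _ ≤ Cl * (N0 * (R0 * ((n : ℝ) ^ (-r) * (Real.log n) ^ (g * r + h)))) := by
            gcongr
        _ = Cl * (N0 * R0) * ((n : ℝ) ^ (-r) * (Real.log n) ^ (g * r + h)) := by ring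
    have hC : ∑' j : ℕ, Ch * (2 : ℝ) ^ (-(r * ((l0 + j : ℕ) : ℝ))) *
        (((l0 + j : ℕ) : ℝ) + 1) ^ h * (Tt g (l0 + j) / kh j) ^ b ≤
        Ch * (N1 * R0) * ((n : ℝ) ^ (-r) * (Real.log n) ^ (g * r + h)) := by
      have e1 : ∑' j : ℕ, Ch * (2 : ℝ) ^ (-(r * ((l0 + j : ℕ) : ℝ))) *
          (((l0 + j : ℕ) : ℝ) + 1) ^ h * (Tt g (l0 + j) / kh j) ^ b =
          Ch * ∑' j : ℕ, (2 : ℝ) ^ (-(r * ((l0 + j : ℕ) : ℝ))) *
          (((l0 + j : ℕ) : ℝ) + 1) ^ h * (Tt g (l0 + j) / kh j) ^ b := by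
        rw [← tsum_mul_left]
        exact tsum_congr fun j => by ring
      rw [e1]
      calc Ch * ∑' j : ℕ, (2 : ℝ) ^ (-(r * ((l0 + j : ℕ) : ℝ))) *
            (((l0 + j : ℕ) : ℝ) + 1) ^ h * (Tt g (l0 + j) / kh j) ^ b
          ≤ Ch * (N1 * (2 : ℝ) ^ (-(r * l0)) * ((l0 : ℝ) + 1) ^ h) :=
            mul_le_mul_of_nonneg_left hkhet hCh.le
        _ = Ch * (N1 * ((2 : ℝ) ^ (-(r * l0)) * ((l0 : ℝ) + 1) ^ h)) := by
            ring
        _ ≤ Ch * (N1 * (R0 * ((n : ℝ) ^ (-r) * (Real.log n) ^ (g * r + h)))) := by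
            gcongr
        _ = Ch * (N1 * R0) * ((n : ℝ) ^ (-r) * (Real.log n) ^ (g * r + h)) := by ring
    calc _ ≤ Cl * (N0 * R0) * ((n : ℝ) ^ (-r) * (Real.log n) ^ (g * r + h)) + 0 +
          2 * (Ch * (N1 * R0) * ((n : ℝ) ^ (-r) * (Real.log n) ^ (g * r + h))) := by
          gcongr
      _ = _ := by ring
  refine ⟨⟨_, ?_, fun n hn => (main n hn).1⟩, (main 3 le_rfl).2⟩
  positivity

end MPcd65c1
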