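import Pool.Agent.Lib.MP_cd65c1_an.UGauss
import Pool.Agent.Lib.MP_cd65c1_an.UInt2
import Pool.Agent.Lib.MP_cd65c1_an.USmall
import Pool.Agent.Lib.MP_cd65c1_an.UTwo
import Pool.Agent.Lib.MP_cd65c1_an.UThree

/-!
# MP_cd65c1_an / UAll : the upper bounds in all cases (about 200 lines)

`a = fun l => alm r l`, `‖alm r l k‖ ≤ Ca 2^(-rl)` (`norm_alm_le`).  `LB_comp` with `Vol_all`.

`r > 1/2` (`up_of_LB` with `g = d-1`, `h = 1/2`; `b' = b + r`, `Vol_all r`):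
* `q = ∞`, `p ≥ 2`: `SP_of_ge_two`, `TQ_infty`: `b = 1/2`.
* `q = ∞`, `1 < p < 2`, `1/p < r`: `SP_all` with `δ = (r - 1/p)/2`, `TQ_infty`: `b = g1 + 1/2 < 1/p + δ < r`.
* `p = 1`, `q ≤ 2`: `SP_one`, `TQ_of_le_two`: `b = 1/2`.
* `p = 1`, `2 < q < ∞`, `1 - 1/q < r`: `SP_one`, `TQ_all`, `δ = (r - 1 + 1/q)/2`: `b = 1/2 + g2 < r`.
* `(1,∞)`, `r > 1`: `SP_one`, `TQ_infty`: `h = 1`, `b = 1`: `psi1`.
`r < 1/2`: `g = 2-d`, `h = d-1`, `b' = 1/2` (`small_alg`), exponent `(2-d) r + d - 1 = (d-1)(1-r)+r`: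
* `q = ∞`, `1/p < r`: then `p > 2`; choose a real `p' ≤ p` with `2 < p'`, `1/p' < r` (`p' = p` if `p < ∞`):
  `small_infty`, `b = 1/p'`; `LB_mono_src`.
* `p = 1`, `1 - 1/q < r`: then `q < 2`; choose a real `q' ≥ q`, `1 < q' < 2`, `1 - 1/q' < r`: `small_one`,
  `b = 1 - 1/q'`; `LB_mono_tgt`.
`r = 1/2`: `up_half` with the same `b < 1/2`, `b' = 3/2` from `LB_comp` with `Vol_all 1`, and `mid_infty` (restricted
to `Img L a p ⊆ Img L a 2`, `p ≥ 2`), `mid_one` (`nrm q ≤ nrm 2`, `q ≤ 2`).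
-/

namespace MPcd65c1

open MeasureTheory
open scoped ENNReal

private theorem comp_alm {d : ℕ} (hd : 1 ≤ d) {p q : ℝ≥0∞} (hq : 1 ≤ q) {r : ℝ} (hr : 0 ≤ r)
    {g1 h1 g2 h2 g' : ℝ} (hg' : 0 ≤ g') (hS : SP d p g1 h1) (hT : TQ d q g2 h2) :
    LB d p q r (fun l => alm r l) ((d : ℝ) - 1) (h1 + h2) (g1 + g2 + g') :=
  LB_comp d hd hq (Ca := (2 : ℝ) ^ (2 * r * d)) (by positivity) (fun l k => norm_alm_le hr l k)
    hS hT (Vol_all d hd g' hg')

private theorem psi0_gt {d : ℕ} {r : ℝ} (hr : 1 / 2 < r) :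
    psi0 d r = fun n : ℕ => (n : ℝ) ^ (-r) * (Real.log n) ^ (((d : ℝ) - 1) * r + 1 / 2) := by
  funext n
  rw [psi0, if_pos hr]

private theorem psi0_lt {d : ℕ} {r : ℝ} (hr : r < 1 / 2) :
    psi0 d r = fun n : ℕ => (n : ℝ) ^ (-r) * (Real.log n) ^ ((2 - (d : ℝ)) * r + ((d : ℝ) - 1)) := by
  funext n
  rw [psi0, if_neg (not_lt.mpr hr.le), if_neg hr.ne]
  congr 2
  ring

private theorem exists_src {p : ℝ≥0∞} (hp : 1 < p) {r : ℝ} (hr0 : 0 < r) (hr2 : r ≤ 1 / 2)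
    (hr : (p⁻¹).toReal < r) : ∃ P : ℝ, 2 < P ∧ ENNReal.ofReal P ≤ p ∧ 1 / P < r := by
  by_cases hpt : p = ∞
  · refine ⟨max 3 (2 / r), lt_of_lt_of_le (by norm_num) (le_max_left _ _), by rw [hpt]; exact le_top, ?_⟩
    have h1 : 2 / r ≤ max 3 (2 / r) := le_max_right _ _
    have h2 : 0 < 2 / r := by positivity
    calc 1 / max 3 (2 / r) ≤ 1 / (2 / r) := one_div_le_one_div_of_le h2 h1
      _ = r / 2 := by field_simp
      _ < r := by linarith
  · have h1 : 1 < p.toReal := by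
      rw [← ENNReal.toReal_one]
      exact (ENNReal.toReal_lt_toReal ENNReal.one_ne_top hpt).mpr hp
    rw [ENNReal.toReal_inv] at hr
    have h2 : 1 / p.toReal < r := by rwa [one_div]
    refine ⟨p.toReal, ?_, by rw [ENNReal.ofReal_toReal hpt], h2⟩
    rw [div_lt_iff₀ (by linarith)] at h2
    nlinarith

private theorem exists_tgt {q : ℝ≥0∞} (hq1 : 1 ≤ q) (hq : q ≠ ∞) {r : ℝ} (hr0 : 0 < r)
    (hr2 : r ≤ 1 / 2) (hr : 1 - (q⁻¹).toReal < r) :
    ∃ Q : ℝ, 1 < Q ∧ Q < 2 ∧ q ≤ ENNReal.ofReal Q ∧ 1 - 1 / Q < r := by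
  have h1 : 1 ≤ q.toReal := by
    rw [← ENNReal.toReal_one]
    exact (ENNReal.toReal_le_toReal ENNReal.one_ne_top hq).mpr hq1
  rw [ENNReal.toReal_inv] at hr
  have hQ0 : 0 < q.toReal := by linarith
  rcases h1.eq_or_lt with h | h
  · refine ⟨1 / (1 - r / 2), ?_, ?_, ?_, ?_⟩
    · rw [lt_div_iff₀ (by linarith)]
      linarith
    · rw [div_lt_iff₀ (by linarith)]
      linarith
    · rw [← ENNReal.ofReal_toReal hq, ← h]
      apply ENNReal.ofReal_le_ofReal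
      rw [le_div_iff₀ (by linarith)]
      linarith
    · rw [one_div_one_div]
      linarith
  · refine ⟨q.toReal, h, ?_, by rw [ENNReal.ofReal_toReal hq], by rwa [one_div]⟩
    have h2 : 1 - 1 / q.toReal < 1 / 2 := by
      rw [one_div]
      linarith
    have h3 : 1 / 2 < 1 / q.toReal := by linarith
    rw [lt_div_iff₀ hQ0] at h3
    linarith

private theorem two_le_of_src {p : ℝ≥0∞} {P : ℝ} (hP : 2 < P) (h : ENNReal.ofReal P ≤ p) : 2 ≤ p := by
  refine le_trans ?_ h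
  rw [← ENNReal.ofReal_ofNat]
  exact ENNReal.ofReal_le_ofReal hP.le

private theorem le_two_of_tgt {q : ℝ≥0∞} {Q : ℝ} (hQ : Q < 2) (h : q ≤ ENNReal.ofReal Q) : q ≤ 2 := by
  refine le_trans h ?_
  rw [← ENNReal.ofReal_ofNat]
  exact ENNReal.ofReal_le_ofReal hQ.le

theorem up_infty (d : ℕ) (hd : 2 ≤ d) (p : ℝ≥0∞) (hp : 1 < p) (r : ℝ) (hr0 : 0 < r)
    (hr : (p⁻¹).toReal < r) : UP d p ∞ r (psi0 d r) ∧ EX d p ∞ r := by
  have hd1 : 1 ≤ d := by omega
  rcases lt_trichotomy r (1 / 2) with hlt | heq | hgt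
  · -- small smoothness
    obtain ⟨P, hP2, hPp, hPr⟩ := exists_src hp hr0 hlt.le hr
    have h2p := two_le_of_src hP2 hPp
    have H : LB d 2 ∞ r (fun l => alm r l) ((d : ℝ) - 1) (1 / 2) (1 / 2) := by
      have := comp_alm hd1 (p := 2) (q := ∞) le_top hr0.le le_rfl (SP_of_ge_two d le_rfl)
        (TQ_infty d hd1)
      simpa only [zero_add, add_zero] using this
    rw [psi0_lt hlt]
    refine up_of_LB d hp.le r hr0 (2 - (d : ℝ)) ((d : ℝ) - 1) (1 / P) (1 / 2) (by positivity) hPr hlt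
      (LB_mono_src hPp (small_infty d hd1 r hr0 P hP2 H))
      (LB_mono_src h2p (small_alg d hd1 H))
  · subst heq
    obtain ⟨P, hP2, hPp, hPr⟩ := exists_src hp hr0 le_rfl hr
    have h2p := two_le_of_src hP2 hPp
    have H : LB d 2 ∞ (1 / 2) (fun l => alm (1 / 2) l) ((d : ℝ) - 1) (1 / 2) (1 / 2) := by
      have := comp_alm hd1 (p := 2) (q := ∞) le_top hr0.le le_rfl (SP_of_ge_two d le_rfl)
        (TQ_infty d hd1)
      simpa only [zero_add, add_zero] using this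
    have Hlow : LB d p ∞ (1 / 2) (fun l => alm (1 / 2) l) ((d : ℝ) - 1) (1 / 2) (3 / 2) := by
      have := comp_alm hd1 (p := p) (q := ∞) le_top hr0.le (g' := 1) zero_le_one
        (SP_of_ge_two d h2p) (TQ_infty d hd1)
      simp only [zero_add] at this
      rwa [show (1 : ℝ) / 2 + 1 = 3 / 2 by norm_num] at this
    refine up_half d hd hp.le (1 / P) (3 / 2) (by positivity) hPr (by norm_num) Hlow
      (LB_mono_src hPp (small_infty d hd1 _ hr0 P hP2 H)) ?_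
    obtain ⟨C, hC, hmid⟩ := mid_infty d hd1
    exact ⟨C, hC, fun l0 l1 k hl hk => (hmid l0 l1 k hl hk).mono_A (Img_mono _ _ h2p)⟩
  · rw [psi0_gt hgt]
    by_cases h2p : 2 ≤ p
    · have H0 := comp_alm hd1 (p := p) (q := ∞) (r := r) le_top hr0.le (g' := 0) le_rfl
        (SP_of_ge_two d h2p) (TQ_infty d hd1)
      have H1 := comp_alm hd1 (p := p) (q := ∞) (r := r) le_top hr0.le (g' := r) hr0.le
        (SP_of_ge_two d h2p) (TQ_infty d hd1)
      simp only [zero_add, add_zero] at H0 H1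
      exact up_of_LB d hp.le r hr0 ((d : ℝ) - 1) (1 / 2) (1 / 2) (1 / 2 + r) (by norm_num) hgt
        (by linarith) H0 H1
    · push Not at h2p
      have hpt : p ≠ ∞ := ne_top_of_lt h2p
      have h1 : 1 < p.toReal := by
        rw [← ENNReal.toReal_one]
        exact (ENNReal.toReal_lt_toReal ENNReal.one_ne_top hpt).mpr hp
      have h2 : p.toReal < 2 := by
        rw [← ENNReal.toReal_ofNat 2]
        exact (ENNReal.toReal_lt_toReal hpt (by simp)).mpr h2p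
      rw [ENNReal.toReal_inv, ← one_div] at hr
      obtain ⟨g, hg0, hg, hSP⟩ := SP_all d hd1 p.toReal h1 h2 (fun m hm => SP_conj d hd1 m (by omega))
        ((r - 1 / p.toReal) / 2) (by linarith)
      rw [ENNReal.ofReal_toReal hpt] at hSP
      have H0 := comp_alm hd1 (p := p) (q := ∞) (r := r) le_top hr0.le (g' := 0) le_rfl
        hSP (TQ_infty d hd1)
      have H1 := comp_alm hd1 (p := p) (q := ∞) (r := r) le_top hr0.le (g' := r) hr0.le
        hSP (TQ_infty d hd1)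
      rw [zero_add] at H0 H1
      rw [add_zero] at H0
      exact up_of_LB d hp.le r hr0 ((d : ℝ) - 1) (1 / 2) (g + 1 / 2) (g + 1 / 2 + r) (by positivity)
        (by linarith) (by linarith) H0 H1

theorem up_one (d : ℕ) (hd : 2 ≤ d) (q : ℝ≥0∞) [Fact (1 ≤ q)] (hq : q ≠ ∞) (r : ℝ) (hr0 : 0 < r)
    (hr : 1 - (q⁻¹).toReal < r) : UP d 1 q r (psi0 d r) ∧ EX d 1 q r := by
  have hd1 : 1 ≤ d := by omega
  have hq1 : 1 ≤ q := Fact.out
  rcases lt_trichotomy r (1 / 2) with hlt | heq | hgt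
  · obtain ⟨Q, hQ1, hQ2, hqQ, hQr⟩ := exists_tgt hq1 hq hr0 hlt.le hr
    have hq2 := le_two_of_tgt hQ2 hqQ
    have H : LB d 1 2 r (fun l => alm r l) ((d : ℝ) - 1) (1 / 2) (1 / 2) := by
      have := comp_alm hd1 (p := 1) (q := 2) one_le_two hr0.le le_rfl (SP_one d hd1)
        (TQ_of_le_two d one_le_two le_rfl)
      simpa only [add_zero] using this
    rw [psi0_lt hlt]
    have hb : 0 ≤ 1 - 1 / Q := by
      rw [sub_nonneg, div_le_one (by linarith)]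
      exact hQ1.le
    exact up_of_LB d le_rfl r hr0 (2 - (d : ℝ)) ((d : ℝ) - 1) (1 - 1 / Q) (1 / 2) hb hQr hlt
      (LB_mono_tgt hqQ (small_one d hd1 r hr0 Q hQ1 hQ2 H))
      (LB_mono_tgt hq2 (small_alg d hd1 H))
  · subst heq
    obtain ⟨Q, hQ1, hQ2, hqQ, hQr⟩ := exists_tgt hq1 hq hr0 le_rfl hr
    have hq2 := le_two_of_tgt hQ2 hqQ
    have H : LB d 1 2 (1 / 2) (fun l => alm (1 / 2) l) ((d : ℝ) - 1) (1 / 2) (1 / 2) := by
      have := comp_alm hd1 (p := 1) (q := 2) one_le_two hr0.le le_rfl (SP_one d hd1)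
        (TQ_of_le_two d one_le_two le_rfl)
      simpa only [add_zero] using this
    have Hlow : LB d 1 q (1 / 2) (fun l => alm (1 / 2) l) ((d : ℝ) - 1) (1 / 2) (3 / 2) := by
      have := comp_alm hd1 (p := 1) (q := q) hq1 hr0.le (g' := 1) zero_le_one
        (SP_one d hd1) (TQ_of_le_two d hq1 hq2)
      simp only [add_zero] at this
      rwa [show (1 : ℝ) / 2 + 1 = 3 / 2 by norm_num] at this
    have hb : 0 ≤ 1 - 1 / Q := by
      rw [sub_nonneg, div_le_one (by linarith)]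
      exact hQ1.le
    refine up_half d hd le_rfl (1 - 1 / Q) (3 / 2) hb hQr (by norm_num) Hlow
      (LB_mono_tgt hqQ (small_one d hd1 _ hr0 Q hQ1 hQ2 H)) ?_
    obtain ⟨C, hC, hmid⟩ := mid_one d hd1
    refine ⟨C, hC, fun l0 l1 k hl hk => ?_⟩
    obtain ⟨Y, hY, hcov⟩ := hmid l0 l1 k hl hk
    refine ⟨Y, hY, fun a ha => ?_⟩
    obtain ⟨y, hy, hay⟩ := hcov a ha
    exact ⟨y, hy, (nrm_mono_exp hq2 (memLp_cont _ 2)).trans hay⟩
  · rw [psi0_gt hgt]
    by_cases hq2 : q ≤ 2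
    · have H0 := comp_alm hd1 (p := 1) (q := q) (r := r) hq1 hr0.le (g' := 0) le_rfl
        (SP_one d hd1) (TQ_of_le_two d hq1 hq2)
      have H1 := comp_alm hd1 (p := 1) (q := q) (r := r) hq1 hr0.le (g' := r) hr0.le
        (SP_one d hd1) (TQ_of_le_two d hq1 hq2)
      simp only [add_zero] at H0 H1
      exact up_of_LB d le_rfl r hr0 ((d : ℝ) - 1) (1 / 2) (1 / 2) (1 / 2 + r) (by norm_num) hgt
        (by linarith) H0 H1
    · push Not at hq2
      have h2 : 2 < q.toReal := by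
        rw [← ENNReal.toReal_ofNat 2]
        exact (ENNReal.toReal_lt_toReal (by simp) hq).mpr hq2
      rw [ENNReal.toReal_inv, ← one_div] at hr
      obtain ⟨g, hg0, hg, hTQ⟩ := TQ_all d hd1 q.toReal h2 (fun m hm => TQ_even d hd1 m (by omega))
        ((r - (1 - 1 / q.toReal)) / 2) (by linarith)
      rw [ENNReal.ofReal_toReal hq] at hTQ
      have H0 := comp_alm hd1 (p := 1) (q := q) (r := r) hq1 hr0.le (g' := 0) le_rfl
        (SP_one d hd1) hTQ
      have H1 := comp_alm hd1 (p := 1) (q := q) (r := r) hq1 hr0.le (g' := r) hr0.le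
        (SP_one d hd1) hTQ
      rw [add_zero] at H0 H1
      rw [add_zero] at H0
      exact up_of_LB d le_rfl r hr0 ((d : ℝ) - 1) (1 / 2) (1 / 2 + g) (1 / 2 + g + r) (by positivity)
        (by linarith) (by linarith) H0 H1

theorem up_one_infty (d : ℕ) (hd : 2 ≤ d) (r : ℝ) (hr : 1 < r) :
    UP d 1 ∞ r (psi1 d r) ∧ EX d 1 ∞ r := by
  have hd1 : 1 ≤ d := by omega
  have hr0 : 0 < r := by linarith
  have H0 := comp_alm hd1 (p := 1) (q := ∞) (r := r) le_top hr0.le (g' := 0) le_rfl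
    (SP_one d hd1) (TQ_infty d hd1)
  have H1 := comp_alm hd1 (p := 1) (q := ∞) (r := r) le_top hr0.le (g' := r) hr0.le
    (SP_one d hd1) (TQ_infty d hd1)
  rw [show (1 : ℝ) / 2 + 1 / 2 = 1 by norm_num] at H0 H1
  rw [add_zero] at H0
  exact up_of_LB d le_rfl r hr0 ((d : ℝ) - 1) 1 1 (1 + r) zero_le_one hr (by linarith) H0 H1

end MPcd65c1
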