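import Pool.Agent.Lib.MP_cd65c1_an.Defs2
import Pool.Agent.Lib.MP_cd65c1_an.UEta
import Pool.Agent.Lib.MP_cd65c1_an.ALp

/-!
# MP_cd65c1_an / UAsm : from level coverings to a covering of the class (about 220 lines)

`A_l φ := tpLp q (LL d l) (alm r l * cf φ) ∈ L_q`.

`ex_of_summable`: if `Σ_l nrm q (tp (LL d l) (alm r l * cf φ)) < ∞` (`φ ∈ L_p`, so integrable) then
`f = Σ_l A_l φ` exists in `L_q` and `cf f k = Σ_l [k ∈ LL d l] alm r l k cf φ k = lamr r k cf φ k`
(`cf_hasSum`, `cf_tpLp`, `alm_supp`, `hasSum_alm`, uniqueness of limits).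

`assemble`: write `Φ` for the unit ball of `L_p` (`MemLp`, `eLpNorm ≤ 1`).
HIGH LEVELS: put `F = {j : 1 ≤ kh j}`, finite (`kh` summable).  For `j ∉ F` the covering set has `≤ 2^(kh j) < 2`
elements, so exactly one, `y_j` (the image is nonempty, it contains `0`), and `nrm (A φ) ≤ nrm (A φ - y) +
nrm (0 - y) ≤ 2 eh j` (use `nrm_tp_add_le`, `nrm_tp_smul`).  For `j ∈ F`: `nrm (A_j φ)` is bounded over `Φ` as well (finite
covering).  So `Σ_j nrm (A_(l1+j) φ) < ∞` for all `φ ∈ Φ`, and by scaling for all `φ ∈ L_p`: this gives `EX`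
(the finitely many levels `l < l1` do not matter).
COVERING: for `f ∈ W d r p q` with `φ ∈ Φ`: `f = Σ_l A_l φ` (`Lp_ext_cf`), i.e.
`f = Σ_{l<l0} A_l φ + Amid φ + Σ_j A_(l1+j) φ`, `Amid φ = tpLp q (Lmid d l0 l1) (amid r l0 l1 * cf φ)
= Σ_{l0 ≤ l < l1} A_l φ` (compare coefficients: for `k ∈ LL d l` with `l0 ≤ l < l1`, `k ∈ Lmid`; `alm_supp`).
Centres: `Σ_{l<l0} tpLp (y_l) + tpLp (y_mid) + Σ_{j ∈ F} tpLp (z_j)`, one for every choice: the number is
`≤ ∏_{l<l0} 2^(kl l) * 2^(n/4) * ∏_{j∈F} 2^(kh j) ≤ 2^(n/4+n/4+n/4) ≤ 2^n` (image of a `Fintype.piFinset` or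
`Finset.pi`; `Finset.card_image_le`).  Error `≤ Σ_{l<l0} el l + em + Σ_{F} eh j + Σ_{j ∉ F} 2 eh j`.
(all `eh j ≥ 0` since they bound norms of an element.)
-/

namespace MPcd65c1

open MeasureTheory
open scoped ENNReal

private theorem cov_sum {ι α V : Type*} [AddCommGroup V] [Module ℝ V] {ν : V → ℝ} (hν : Sn ν)
    (A : Set α) (x : ι → α → V) (k e : ι → ℝ) (S : Finset ι)
    (h : ∀ i ∈ S, Cov ν {v | ∃ a ∈ A, v = x i a} ((2 : ℝ) ^ (k i)) (e i)) :
    Cov ν {v | ∃ a ∈ A, v = ∑ i ∈ S, x i a} ((2 : ℝ) ^ (∑ i ∈ S, k i)) (∑ i ∈ S, e i) := by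
  classical
  induction S using Finset.induction_on with
  | empty =>
    refine ⟨{0}, by simp, ?_⟩
    rintro _ ⟨a, -, rfl⟩
    exact ⟨0, by simp, by simp [hν.zero]⟩
  | insert i S hi ih =>
    have h1 := h i (Finset.mem_insert_self i S)
    have h2 := ih fun j hj => h j (Finset.mem_insert_of_mem hj)
    have h3 := Cov.add hν h1 h2
    rw [Finset.sum_insert hi, Finset.sum_insert hi, Real.rpow_add (by norm_num)]
    refine h3.mono_A ?_
    rintro _ ⟨a, ha, rfl⟩
    exact ⟨x i a, ⟨a, ha, rfl⟩, ∑ j ∈ S, x j a, ⟨a, ha, rfl⟩, by rw [Finset.sum_insert hi]⟩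

private theorem amid_supp {d : ℕ} (r : ℝ) (l0 l1 : ℕ) (k : Fin d → ℤ) (h : k ∉ Lmid d l0 l1) :
    amid r l0 l1 k = 0 := by
  unfold amid
  refine Finset.sum_eq_zero fun l hl => alm_supp r l k fun hk => h ?_
  unfold Lmid
  exact Finset.mem_biUnion.mpr ⟨l, hl, hk⟩

private theorem tpLp_ext {d : ℕ} {q : ℝ≥0∞} [Fact (1 ≤ q)] (L L' : Finset (Fin d → ℤ))
    (c : CV d) (h : ∀ k, k ∉ L → c k = 0) (h' : ∀ k, k ∉ L' → c k = 0) :
    tpLp q L c = tpLp q L' c := by
  apply Lp_ext_cf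
  intro k
  rw [cf_tpLp, cf_tpLp]
  by_cases h1 : k ∈ L
  · by_cases h2 : k ∈ L'
    · simp [h1, h2]
    · simp [h1, h2, h' k h2]
  · by_cases h2 : k ∈ L'
    · simp [h1, h2, h k h1]
    · simp [h1, h2]

private theorem tpLp_sum {d : ℕ} {q : ℝ≥0∞} [Fact (1 ≤ q)] (L : Finset (Fin d → ℤ))
    {ι : Type*} (S : Finset ι) (c : ι → CV d) :
    ∑ i ∈ S, tpLp q L (c i) = tpLp q L (∑ i ∈ S, c i) := by
  have := map_sum (AddMonoidHom.ofMapSub (tpLp q L) fun v w => (tpLp_sub q L v w).symm) c S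
  exact this.symm

theorem ex_of_summable {d : ℕ} {p q : ℝ≥0∞} [Fact (1 ≤ q)] (hp : 1 ≤ p) (r : ℝ) {φ : Td d → ℂ}
    (hφ : MemLp φ p (mu d))
    (hs : Summable (fun l : ℕ => nrm q (tp (LL d l) (fun k => alm r l k * cf φ k)))) :
    ∃ f : Lp ℂ q (mu d), HasSum (fun l : ℕ => tpLp q (LL d l) (fun k => alm r l k * cf φ k)) f ∧
      ∀ k, cf (f : Td d → ℂ) k = lamr r k * cf φ k := by
  have h1 : Summable (fun l : ℕ => tpLp q (LL d l) (fun k => alm r l k * cf φ k)) := by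
    refine Summable.of_norm ?_
    simpa only [norm_tpLp] using hs
  obtain ⟨f, hf⟩ := h1
  refine ⟨f, hf, fun k => ?_⟩
  have h2 := cf_hasSum q hf k
  have h3 : (fun l => cf (tpLp q (LL d l) (fun k => alm r l k * cf φ k) : Td d → ℂ) k) =
      fun l => alm r l k * cf φ k := by
    funext l
    rw [cf_tpLp]
    by_cases hk : k ∈ LL d l
    · simp [hk]
    · simp [hk, alm_supp r l k hk]
  rw [h3] at h2
  exact h2.unique ((hasSum_alm r k).mul_right _)

theorem assemble {d : ℕ} {p q : ℝ≥0∞} [Fact (1 ≤ q)] (hp : 1 ≤ p) (r : ℝ) (l0 l1 : ℕ)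
    (hl : l0 ≤ l1) (n : ℝ) (hn : 0 ≤ n) (kl el : ℕ → ℝ)
    (hkl : ∑ l ∈ Finset.range l0, kl l ≤ n / 4)
    (hel : ∀ l, l < l0 → Cov (fun c : CV d => nrm q (tp (LL d l) c)) (Img (LL d l) (alm r l) p)
      ((2 : ℝ) ^ (kl l)) (el l))
    (em : ℝ) (hem : Cov (fun c : CV d => nrm q (tp (Lmid d l0 l1) c))
      (Img (Lmid d l0 l1) (amid r l0 l1) p) ((2 : ℝ) ^ (n / 4)) em)
    (kh eh : ℕ → ℝ) (hkh0 : ∀ j, 0 ≤ kh j) (hkhs : Summable kh) (hkh : ∑' j, kh j ≤ n / 4)
    (hehs : Summable eh)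
    (heh : ∀ j, Cov (fun c : CV d => nrm q (tp (LL d (l1 + j)) c))
      (Img (LL d (l1 + j)) (alm r (l1 + j)) p) ((2 : ℝ) ^ (kh j)) (eh j)) :
    Cov (fun v : Lp ℂ q (mu d) => ‖v‖) (W d r p q) ((2 : ℝ) ^ n)
      (∑ l ∈ Finset.range l0, el l + em + 2 * ∑' j, eh j) ∧ EX d p q r := by
  classical
  have hq : 1 ≤ q := Fact.out
  -- the unit ball
  set Φ : Set (Td d → ℂ) := {φ | MemLp φ p (mu d) ∧ eLpNorm φ p (mu d) ≤ 1} with hΦ
  have himg : ∀ (L : Finset (Fin d → ℤ)) (a : CV d), (∀ k, k ∉ L → a k = 0) → ∀ φ ∈ Φ,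
      (fun k => a k * cf φ k) ∈ Img L a p := by
    intro L a ha φ hφ
    refine ⟨φ, hφ.1, hφ.2, ?_⟩
    funext k
    by_cases hk : k ∈ L
    · simp [hk]
    · simp [hk, ha k hk]
  have h0Φ : (0 : Td d → ℂ) ∈ Φ := by
    refine ⟨MemLp.zero, ?_⟩
    rw [eLpNorm_zero]
    exact zero_le_one
  have himg0 : ∀ (L : Finset (Fin d → ℤ)) (a : CV d), (∀ k, k ∉ L → a k = 0) →
      (0 : CV d) ∈ Img L a p := by
    intro L a ha
    have := himg L a ha 0 h0Φ
    have h1 : (fun k => a k * cf (0 : Td d → ℂ) k) = (0 : CV d) := by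
      funext k
      simp [cf]
    rwa [h1] at this
  have hsn : ∀ L : Finset (Fin d → ℤ), Sn (fun c : CV d => nrm q (tp L c)) := fun L =>
    sn_nrm' q hq L
  have heh0 : ∀ j, 0 ≤ eh j := by
    intro j
    obtain ⟨Y, -, hY⟩ := heh j
    obtain ⟨y, -, hy⟩ := hY 0 (himg0 _ _ fun k hk => alm_supp r _ k hk)
    exact (nrm_nonneg _ _).trans hy
  -- the finite set of levels with bits
  have hfin : {j : ℕ | 1 ≤ kh j}.Finite := by
    have h1 := hkhs.tendsto_cofinite_zero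
    have h2 : ∀ᶠ j in Filter.cofinite, kh j < 1 := h1.eventually (gt_mem_nhds one_pos)
    have h3 := Filter.eventually_cofinite.mp h2
    simpa only [not_lt] using h3
  set F : Finset ℕ := hfin.toFinset with hF
  have hFm : ∀ j, j ∉ F → kh j < 1 := by
    intro j hj
    rw [hF, Set.Finite.mem_toFinset] at hj
    simpa using hj
  have hsmall : ∀ j, j ∉ F → ∀ φ ∈ Φ,
      nrm q (tp (LL d (l1 + j)) (fun k => alm r (l1 + j) k * cf φ k)) ≤ 2 * eh j := by
    intro j hj φ hφ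
    obtain ⟨Y, hYc, hY⟩ := heh j
    have hcard : Y.card ≤ 1 := by
      have h1 : (Y.card : ℝ) < 2 := by
        refine lt_of_le_of_lt hYc ?_
        calc (2 : ℝ) ^ (kh j) < (2 : ℝ) ^ (1 : ℝ) :=
              Real.rpow_lt_rpow_of_exponent_lt (by norm_num) (hFm j hj)
          _ = 2 := Real.rpow_one 2
      have h2 : Y.card < 2 := by exact_mod_cast h1
      omega
    have hsupp : ∀ k, k ∉ LL d (l1 + j) → alm r (l1 + j) k = 0 := fun k hk => alm_supp r _ k hk
    obtain ⟨y, hy, h1⟩ := hY _ (himg _ _ hsupp φ hφ)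
    obtain ⟨y', hy', h2⟩ := hY 0 (himg0 _ _ hsupp)
    have hyy : y' = y := Finset.card_le_one.mp hcard _ hy' _ hy
    rw [hyy] at h2
    have h3 := (hsn (LL d (l1 + j))).sub_le' (fun k => alm r (l1 + j) k * cf φ k) y 0
    simp only [sub_zero] at h3
    have h4 := (hsn (LL d (l1 + j))).sub_comm y 0
    simp only [sub_zero] at h4
    rw [h4] at h3
    linarith
  -- summability for all `φ ∈ Φ`
  have hsumΦ : ∀ φ ∈ Φ,
      Summable (fun l : ℕ => nrm q (tp (LL d l) (fun k => alm r l k * cf φ k))) := by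
    intro φ hφ
    rw [← summable_nat_add_iff l1]
    have hs2 : Summable fun j => 2 * eh j := hehs.mul_left 2
    refine Summable.of_norm_bounded_eventually hs2 ?_
    rw [Filter.eventually_cofinite]
    refine F.finite_toSet.subset ?_
    intro j hj
    by_contra hjF
    apply hj
    have hjF' : j ∉ F := fun h => hjF (Finset.mem_coe.mpr h)
    rw [Real.norm_of_nonneg (nrm_nonneg _ _), add_comm j l1]
    exact hsmall j hjF' φ hφ
  have hEX : EX d p q r := by
    intro φ hφ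
    set t : ℝ := ((eLpNorm φ p (mu d)).toReal + 1)⁻¹ with ht
    have htp : 0 < t := by
      have : 0 ≤ (eLpNorm φ p (mu d)).toReal := ENNReal.toReal_nonneg
      positivity
    have hφ' : (fun x => (t : ℂ) * φ x) ∈ Φ := by
      refine ⟨hφ.const_mul _, ?_⟩
      have h1 : (fun x => (t : ℂ) * φ x) = (t : ℂ) • φ := by
        funext x
        simp
      rw [h1, eLpNorm_const_smul]
      have h2 : ‖(t : ℂ)‖ₑ = ENNReal.ofReal t := by
        rw [← ofReal_norm, Complex.norm_real, Real.norm_of_nonneg htp.le]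
      rw [h2, ← ENNReal.ofReal_toReal hφ.2.ne, ← ENNReal.ofReal_mul htp.le]
      rw [← ENNReal.ofReal_one]
      apply ENNReal.ofReal_le_ofReal
      rw [ht, inv_mul_le_iff₀ (by positivity)]
      linarith
    have hcf : ∀ k, cf (fun x => (t : ℂ) * φ x) k = t * cf φ k := by
      intro k
      unfold cf
      rw [← integral_const_mul]
      congr 1
      funext x
      ring
    have h1 := hsumΦ _ hφ'
    have h2 : Summable (fun l : ℕ => nrm q (tp (LL d l) (fun k => alm r l k * cf φ k))) := by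
      have h3 := h1.mul_left t⁻¹
      refine h3.congr fun l => ?_
      have h4 : (fun k => alm r l k * cf (fun x => (t : ℂ) * φ x) k) =
          t • (fun k => alm r l k * cf φ k : CV d) := by
        funext k
        rw [hcf, Pi.smul_apply, Complex.real_smul]
        ring
      rw [h4, nrm_tp_smul, abs_of_pos htp, ← mul_assoc, inv_mul_cancel₀ htp.ne', one_mul]
    obtain ⟨f, -, hf⟩ := ex_of_summable hp r hφ h2
    exact ⟨f, hf⟩
  refine ⟨?_, hEX⟩
  -- the pieces
  have hsnL : Sn (fun v : Lp ℂ q (mu d) => ‖v‖) := by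
    refine ⟨norm_add_le, fun t x => ?_⟩
    rw [norm_smul, Real.norm_eq_abs]
  set X : ℕ → (Td d → ℂ) → Lp ℂ q (mu d) := fun l φ =>
    tpLp q (LL d l) (fun k => alm r l k * cf φ k) with hX
  have hcov : ∀ (l : ℕ) (K e : ℝ), Cov (fun c : CV d => nrm q (tp (LL d l) c))
      (Img (LL d l) (alm r l) p) K e →
      Cov (fun v : Lp ℂ q (mu d) => ‖v‖) {v | ∃ φ ∈ Φ, v = X l φ} K e := by
    intro l K e h
    refine h.toLp.mono_A ?_
    rintro _ ⟨φ, hφ, rfl⟩
    exact ⟨_, himg _ _ (fun k hk => alm_supp r _ k hk) φ hφ, rfl⟩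
  have c1 := cov_sum hsnL Φ X kl el (Finset.range l0) fun l hl' =>
    hcov l _ _ (hel l (Finset.mem_range.mp hl'))
  have c2 : Cov (fun v : Lp ℂ q (mu d) => ‖v‖)
      {v | ∃ φ ∈ Φ, v = tpLp q (Lmid d l0 l1) (fun k => amid r l0 l1 k * cf φ k)}
      ((2 : ℝ) ^ (n / 4)) em := by
    refine hem.toLp.mono_A ?_
    rintro _ ⟨φ, hφ, rfl⟩
    exact ⟨_, himg _ _ (fun k hk => amid_supp r _ _ k hk) φ hφ, rfl⟩
  have c3 := cov_sum hsnL Φ (fun j => X (l1 + j)) kh eh F fun j _ => hcov (l1 + j) _ _ (heh j)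
  have hs0 : Summable (fun j => if j ∈ F then (0 : ℝ) else 2 * eh j) := by
    refine Summable.of_nonneg_of_le (fun j => ?_) (fun j => ?_) (hehs.mul_left 2)
    · split_ifs
      · exact le_rfl
      · exact mul_nonneg zero_le_two (heh0 j)
    · split_ifs
      · exact mul_nonneg zero_le_two (heh0 j)
      · exact le_rfl
  have c4 : Cov (fun v : Lp ℂ q (mu d) => ‖v‖)
      {v | ∃ φ ∈ Φ, v = ∑' j, if j ∈ F then (0 : Lp ℂ q (mu d)) else X (l1 + j) φ} 1
      (∑' j, if j ∈ F then (0 : ℝ) else 2 * eh j) := by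
    refine Cov.one_ball ?_ le_rfl
    rintro _ ⟨φ, hφ, rfl⟩
    refine tsum_of_norm_bounded hs0.hasSum fun j => ?_
    by_cases hj : j ∈ F
    · simp [hj]
    · simp only [hj, if_false]
      rw [hX]
      simp only
      rw [norm_tpLp]
      exact hsmall j hj φ hφ
  have cc := Cov.add hsnL (Cov.add hsnL (Cov.add hsnL c1 c2) c3) c4
  refine cc.mono ?_ ?_ ?_ fun _ => le_rfl
  · -- the class is contained in the sum
    rintro f ⟨φ, hφ1, hφ2, hf⟩
    have hφ : φ ∈ Φ := ⟨hφ1, hφ2⟩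
    obtain ⟨f', hf', hcf'⟩ := ex_of_summable hp r hφ1 (hsumΦ φ hφ)
    have hff : f = f' := Lp_ext_cf q fun k => by rw [hf, hcf']
    rw [← hff] at hf'
    have e1 : ∑ l ∈ Finset.range l1, X l φ + ∑' j, X (j + l1) φ = f := by
      rw [hf'.summable.sum_add_tsum_nat_add l1, hf'.tsum_eq]
    have e2 : ∑ l ∈ Finset.range l0, X l φ + ∑ l ∈ Finset.Ico l0 l1, X l φ =
        ∑ l ∈ Finset.range l1, X l φ := Finset.sum_range_add_sum_Ico _ hl
    have e3 : ∑ l ∈ Finset.Ico l0 l1, X l φ =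
        tpLp q (Lmid d l0 l1) (fun k => amid r l0 l1 k * cf φ k) := by
      have h1 : ∀ l ∈ Finset.Ico l0 l1, X l φ =
          tpLp q (Lmid d l0 l1) (fun k => alm r l k * cf φ k) := by
        intro l hl'
        refine tpLp_ext _ _ _ (fun k hk => by rw [alm_supp r l k hk, zero_mul])
          (fun k hk => ?_)
        have : k ∉ LL d l := fun h => hk (by
          unfold Lmid
          exact Finset.mem_biUnion.mpr ⟨l, hl', h⟩)
        rw [alm_supp r l k this, zero_mul]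
      rw [Finset.sum_congr rfl h1, tpLp_sum]
      congr 1
      funext k
      rw [Finset.sum_apply]
      unfold amid
      rw [Finset.sum_mul]
    have hs1 : Summable (fun j => X (l1 + j) φ) := by
      have := (summable_nat_add_iff l1).mpr hf'.summable
      refine this.congr fun j => ?_
      rw [add_comm]
    have e4 : ∑' j, X (j + l1) φ = ∑ j ∈ F, X (l1 + j) φ +
        ∑' j, if j ∈ F then (0 : Lp ℂ q (mu d)) else X (l1 + j) φ := by
      have h1 : ∑ j ∈ F, X (l1 + j) φ =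
          ∑' j, if j ∈ F then X (l1 + j) φ else (0 : Lp ℂ q (mu d)) := by
        rw [tsum_eq_sum (s := F) (fun j hj => by simp [hj])]
        exact Finset.sum_congr rfl fun j hj => by simp [hj]
      have hsa : Summable (fun j => if j ∈ F then X (l1 + j) φ else (0 : Lp ℂ q (mu d))) :=
        summable_of_ne_finset_zero (s := F) fun j hj => by simp [hj]
      have hsb : Summable (fun j => if j ∈ F then (0 : Lp ℂ q (mu d)) else X (l1 + j) φ) := by
        have := hs1.sub hsa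
        refine this.congr fun j => ?_
        by_cases hj : j ∈ F
        · simp [hj]
        · simp [hj]
      rw [h1, ← hsa.tsum_add hsb]
      refine tsum_congr fun j => ?_
      rw [add_comm j l1]
      by_cases hj : j ∈ F
      · simp [hj]
      · simp [hj]
    refine ⟨_, ⟨_, ⟨_, ⟨φ, hφ, rfl⟩, _, ⟨φ, hφ, rfl⟩, rfl⟩, _, ⟨φ, hφ, rfl⟩, rfl⟩, _,
      ⟨φ, hφ, rfl⟩, ?_⟩
    rw [← e1, ← e2, e3, e4]
    abel
  · -- the number
    rw [mul_one, ← Real.rpow_add (by norm_num), ← Real.rpow_add (by norm_num)]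
    apply Real.rpow_le_rpow_of_exponent_le (by norm_num)
    have h1 : ∑ j ∈ F, kh j ≤ ∑' j, kh j := hkhs.sum_le_tsum F fun j _ => hkh0 j
    linarith
  · -- the radius
    have h1 : ∑ j ∈ F, eh j = ∑' j, if j ∈ F then eh j else 0 := by
      rw [tsum_eq_sum (s := F) (fun j hj => by simp [hj])]
      exact Finset.sum_congr rfl fun j hj => by simp [hj]
    have hsa : Summable (fun j => if j ∈ F then eh j else 0) :=
      summable_of_ne_finset_zero (s := F) fun j hj => by simp [hj]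
    rw [h1, add_assoc, ← hsa.tsum_add hs0, ← tsum_mul_left]
    have h2 : (∑' j, ((if j ∈ F then eh j else 0) + if j ∈ F then (0 : ℝ) else 2 * eh j)) ≤
        ∑' j, 2 * eh j := by
      refine (hsa.add hs0).tsum_le_tsum (fun j => ?_) (hehs.mul_left 2)
      have := heh0 j
      by_cases hj : j ∈ F
      · simp only [hj, if_true]
        linarith
      · simp only [hj, if_false]
        linarith
    linarith

end MPcd65c1
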