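import Pool.Agent.Lib.MP_cd65c1_an.USimple
import Pool.Agent.Lib.MP_cd65c1_an.ACount

/-!
# MP_cd65c1_an / UComp : composition on a level (about 120 lines)

`Vol` (from (H7)): for every `g ≥ 0` there is `C` with
`Cov (l2 LL) {l2 ≤ 1} (2^k) (C (Mm d l/k)^g)` for all `l`, `k > 0`.

Proof of `LB_comp`.  Split `k = k/3 + k/3 + k/3`.  On the level `l`, `L = LL d l`:
`Cov (l2 L) (Img L 1 p) (2^(k/3)) e1`, `e1 = C1 (l+1)^h1 (M/(k/3))^g1`;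
`Cov (l2 L) {l2 ≤ 1} (2^(k/3)) e2`, `e2 = C2 (M/(k/3))^g'`;
`Cov (nrm q ∘ tp L) {l2 L ≤ 1} (2^(k/3)) e3`, `e3 = C3 (l+1)^h2 (M/(k/3))^g2`.
`Cov.compose` (twice; `e1, e1 e2 > 0`, `sn_l2`, `sn_nrm'`): first
`Cov (l2 L) (Img L 1 p) (2^(2k/3)) (e1 e2)`; then the multiplier: `Img L (a l) p = {a l * c : c ∈ Img L 1 p}`
and `l2 L (a l * v) ≤ Ca 2^(-rl) l2 L v` (`Cov.image` with rescaled seminorms, or directly):
`Cov (l2 L) (Img L (a l) p) (2^(2k/3)) (Ca 2^(-rl) e1 e2)`; finally compose with the third one.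
`(M/(k/3))^g = 3^g (M/k)^g`, `Mm d l = Tt (d-1) l` (`d ≥ 1`).
-/

namespace MPcd65c1

open MeasureTheory
open scoped ENNReal

def Vol (d : ℕ) (g : ℝ) : Prop :=
  ∃ C : ℝ, 0 < C ∧ ∀ (l : ℕ) (k : ℝ), 0 < k →
    Cov (l2 (LL d l)) {c | l2 (LL d l) c ≤ 1} ((2 : ℝ) ^ k) (C * (Mm d l / k) ^ g)

private theorem l2_mul_le {d : ℕ} (L : Finset (Fin d → ℤ)) (a v : CV d) (K : ℝ) (hK : 0 ≤ K)
    (ha : ∀ k, ‖a k‖ ≤ K) : l2 L (fun k => a k * v k) ≤ K * l2 L v := by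
  unfold l2
  rw [← Real.sqrt_sq hK, ← Real.sqrt_mul (sq_nonneg K)]
  apply Real.sqrt_le_sqrt
  rw [Finset.mul_sum]
  apply Finset.sum_le_sum
  intro k _
  rw [norm_mul, mul_pow]
  exact mul_le_mul_of_nonneg_right (pow_le_pow_left₀ (norm_nonneg _) (ha k) 2) (sq_nonneg _)

private theorem Cov_mul {d : ℕ} (L : Finset (Fin d → ℤ)) (a : CV d) (K : ℝ) (hK : 0 ≤ K)
    (ha : ∀ k, ‖a k‖ ≤ K) {p : ℝ≥0∞} {N e : ℝ} (h : Cov (l2 L) (Img L 1 p) N e) :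
    Cov (l2 L) (Img L a p) N (K * e) := by
  have h1 : Cov (fun v => K * l2 L v) (Img L 1 p) N (K * e) := by
    obtain ⟨Y, hY, hc⟩ := h
    refine ⟨Y, hY, fun v hv => ?_⟩
    obtain ⟨y, hy, h2⟩ := hc v hv
    exact ⟨y, hy, mul_le_mul_of_nonneg_left h2 hK⟩
  have h2 := h1.image (ω := l2 L) (fun v k => a k * v k) (fun v w => by
    have h3 : (fun k => a k * v k) - (fun k => a k * w k) = fun k => a k * (v - w) k := by
      funext k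
      simp only [Pi.sub_apply]
      ring
    rw [h3]
    exact l2_mul_le L a (v - w) K hK ha)
  refine h2.mono_A ?_
  rintro c ⟨φ, hφ, h4, rfl⟩
  refine ⟨fun k => if k ∈ L then (1 : CV d) k * cf φ k else 0, ⟨φ, hφ, h4, rfl⟩, ?_⟩
  funext k
  by_cases hk : k ∈ L
  · simp [hk]
  · simp [hk]

theorem LB_comp (d : ℕ) (hd : 1 ≤ d) {p q : ℝ≥0∞} (hq : 1 ≤ q) {r : ℝ} {a : ℕ → CV d} {Ca : ℝ}
    (hCa : 0 < Ca) (ha : ∀ l k, ‖a l k‖ ≤ Ca * (2 : ℝ) ^ (-(r * l))) {g1 h1 g2 h2 g' : ℝ}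
    (hS : SP d p g1 h1) (hT : TQ d q g2 h2) (hV : Vol d g') :
    LB d p q r a ((d : ℝ) - 1) (h1 + h2) (g1 + g2 + g') := by
  obtain ⟨C1, hC1, hS⟩ := hS
  obtain ⟨C3, hC3, hT⟩ := hT
  obtain ⟨C2, hC2, hV⟩ := hV
  refine ⟨Ca * C1 * C2 * C3 * (3 : ℝ) ^ (g1 + g2 + g'), by positivity, ?_⟩
  intro l k hk
  have hk3 : 0 < k / 3 := by positivity
  have hM : 0 < Mm d l := Mm_pos d l
  have hl : (0 : ℝ) < (l : ℝ) + 1 := by positivity
  have hX : 0 < Mm d l / (k / 3) := div_pos hM hk3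
  set L := LL d l with hL
  set X := Mm d l / (k / 3) with hXd
  have e1pos : 0 < C1 * ((l : ℝ) + 1) ^ h1 * X ^ g1 := by positivity
  have s1 := Cov.compose (sn_l2 L) (sn_l2 L) e1pos (hS l (k / 3) hk3) (hV l (k / 3) hk3)
  have hK : 0 ≤ Ca * (2 : ℝ) ^ (-(r * l)) := by positivity
  have s2 := Cov_mul L (a l) (Ca * (2 : ℝ) ^ (-(r * l))) hK (ha l) s1
  have e2pos : 0 < Ca * (2 : ℝ) ^ (-(r * (l : ℝ))) *
      (C1 * ((l : ℝ) + 1) ^ h1 * X ^ g1 * (C2 * X ^ g')) := by positivity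
  have s3 := Cov.compose (sn_l2 L) (sn_nrm' q hq L) e2pos s2 (hT l (k / 3) hk3)
  refine (s3.mono_N ?_).mono_e ?_
  · rw [← Real.rpow_add (by norm_num : (0 : ℝ) < 2), ← Real.rpow_add (by norm_num : (0 : ℝ) < 2)]
    apply le_of_eq
    congr 1
    ring
  · apply le_of_eq
    have hTt : Tt ((d : ℝ) - 1) l = Mm d l := by
      unfold Tt Mm
      congr 1
      rw [← Real.rpow_natCast, Nat.cast_sub hd]
      simp
    have hXk : X = 3 * (Mm d l / k) := by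
      rw [hXd]
      field_simp
    have hMk : 0 < Mm d l / k := div_pos hM hk
    rw [hTt]
    have hb : (3 : ℝ) ^ (g1 + g2 + g') * (Mm d l / k) ^ (g1 + g2 + g') = X ^ g1 * X ^ g2 * X ^ g' := by
      rw [← Real.mul_rpow (by norm_num) hMk.le, ← hXk, Real.rpow_add hX, Real.rpow_add hX]
    have hh : ((l : ℝ) + 1) ^ (h1 + h2) = ((l : ℝ) + 1) ^ h1 * ((l : ℝ) + 1) ^ h2 :=
      Real.rpow_add hl _ _
    calc _ = Ca * (2 : ℝ) ^ (-(r * (l : ℝ))) * C1 * C2 * C3 *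
          (((l : ℝ) + 1) ^ h1 * ((l : ℝ) + 1) ^ h2) * (X ^ g1 * X ^ g2 * X ^ g') := by ring
      _ = _ := by
          rw [← hb, ← hh]
          ring

end MPcd65c1
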