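import Pool.Agent.Lib.MP_cd65c1_an.UComp
import Pool.Agent.Lib.MP_cd65c1_an.UMidOp
import Pool.Agent.Lib.MP_cd65c1_an.H3b
import Pool.Agent.Lib.MP_cd65c1_an.G4b
import Pool.Agent.Lib.MP_cd65c1_an.G6a
import Pool.Agent.Lib.MP_cd65c1_an.G6c

/-!
# MP_cd65c1_an / UGauss : consequences of the Gaussian tools for the levels (about 150 lines)

From the statements of the H and G modules for a general finite set `L` and multiplier `a`:
* `TQ_even`, `TQ_infty`: `cov_bits` (G4b), `cov_bits_sup` (G6a, with `A = 1`) for `L = LL d l`, `a = 1`: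
  `l2 L 1 = sqrt #L ≤ sqrt (2 Mm)` (`card_LL_le`); the frequencies of `LL d l` are bounded by
  `2^l ≤ 2^(l+1)` (`abs_le_of_mem_LL`); `Mm d l/k` to the power `1/2` is `sqrt (Mm d l)/sqrt k`.
  (`((2 * m : ℕ) : ℝ≥0∞) = 2 * m` by `push_cast`.)
* `SP_conj`, `SP_one`: `src_2m`, `src_1` (G6c), `ENNReal.ofReal (2m/(2m-1))` is conjugate to `2m`
  (`ENNReal.holderConjugate_iff`; the computation is in `Main.lean`, `LOW_one_one`).
* `Vol_all`: `vol` (H3b) with `#LL ≤ 2 Mm` (`(#L/k)^g ≤ 2^g (Mm/k)^g`).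
* `mid_infty`, `mid_one`: `L = Lmid d l0 l1`, `a = amid`, box `2^l1 ≤ 2^(l1+1)` (`abs_le_of_mem_Lmid`), `l = l1`.
  For `Img L a 2`: an element is `a * c` on `L` with `c = cf φ`, `l2 L c ≤ nrm 2 φ ≤ 1` (`bessel`); transfer the
  covering of `{l2 L c ≤ 1}` for the functional `c ↦ nrm ∞ (tp L (a * c))` by the map `c ↦ a * c`
  (`Cov.image`; `tp L` only sees the values on `L`).  `mid_one`: `nrm 2 (tp L c) = l2 L c` (`nrm_two_tp`), `src_1`.
-/

namespace MPcd65c1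

open MeasureTheory
open scoped ENNReal

private theorem l2_one_le (d : ℕ) (hd : 1 ≤ d) (l : ℕ) :
    l2 (LL d l) 1 ≤ √2 * √(Mm d l) := by
  rw [← Real.sqrt_mul (by norm_num), l2]
  apply Real.sqrt_le_sqrt
  have h : ∑ k ∈ LL d l, ‖(1 : CV d) k‖ ^ 2 = ((LL d l).card : ℝ) := by
    simp
  rw [h]
  exact card_LL_le d l hd

private theorem rpow_half (d l : ℕ) (k : ℝ) :
    (Mm d l / k) ^ ((1 : ℝ) / 2) = √(Mm d l) / √k := by
  rw [← Real.sqrt_eq_rpow, Real.sqrt_div (Mm_pos d l).le]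

private theorem box_LL (d l : ℕ) : ∀ k ∈ LL d l, ∀ j, |k j| ≤ 2 ^ (1 * (l + 1)) := by
  intro k hk j
  refine (abs_le_of_mem_LL d l k hk j).trans ?_
  exact pow_le_pow_right₀ (by norm_num) (by omega)

private theorem err0 (d : ℕ) (hd : 1 ≤ d) (l : ℕ) (k : ℝ) (A : ℝ) (hA : 0 ≤ A) :
    A * l2 (LL d l) 1 / √k ≤ A * √2 * ((l : ℝ) + 1) ^ (0 : ℝ) * (Mm d l / k) ^ ((1 : ℝ) / 2) := by
  rw [rpow_half, Real.rpow_zero, mul_one]
  have h : A * √2 * (√(Mm d l) / √k) = A * (√2 * √(Mm d l)) / √k := by ring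
  rw [h]
  gcongr
  exact l2_one_le d hd l

private theorem err1 (d : ℕ) (hd : 1 ≤ d) (l : ℕ) (k : ℝ) (A : ℝ) (hA : 0 ≤ A) :
    A * √((l : ℝ) + 1) * l2 (LL d l) 1 / √k ≤
      A * √2 * ((l : ℝ) + 1) ^ ((1 : ℝ) / 2) * (Mm d l / k) ^ ((1 : ℝ) / 2) := by
  rw [rpow_half, ← Real.sqrt_eq_rpow]
  have h : A * √2 * √((l : ℝ) + 1) * (√(Mm d l) / √k) =
      A * √((l : ℝ) + 1) * (√2 * √(Mm d l)) / √k := by ring
  rw [h]
  gcongr
  exact l2_one_le d hd l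

private theorem one_mul_fun {d : ℕ} (c : CV d) : (fun k => (1 : CV d) k * c k) = c := by
  funext k
  simp

theorem TQ_even (d : ℕ) (hd : 1 ≤ d) (m : ℕ) (hm : 1 ≤ m) :
    TQ d ((2 * m : ℕ) : ℝ≥0∞) (1 / 2) 0 := by
  refine ⟨40 * √m * √2, by positivity, fun l k hk => ?_⟩
  have h := cov_bits (LL d l) 1 m hm k hk
  simp only [one_mul_fun] at h
  have hc : ((2 * m : ℕ) : ℝ≥0∞) = 2 * m := by push_cast; rfl
  rw [hc]
  exact h.mono_e (err0 d hd l k (40 * √m) (by positivity))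

theorem TQ_infty (d : ℕ) (hd : 1 ≤ d) : TQ d ∞ (1 / 2) (1 / 2) := by
  obtain ⟨C, hC, H⟩ := cov_bits_sup d 1
  refine ⟨C * √2, by positivity, fun l k hk => ?_⟩
  have h := H l (LL d l) (box_LL d l) 1 k hk
  simp only [one_mul_fun] at h
  exact h.mono_e (err1 d hd l k C hC.le)

theorem SP_conj (d : ℕ) (hd : 1 ≤ d) (m : ℕ) (hm : 1 ≤ m) :
    SP d (ENNReal.ofReal (2 * (m : ℝ) / (2 * m - 1))) (1 / 2) 0 := by
  have hm1 : (1 : ℝ) ≤ m := by exact_mod_cast hm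
  have hconj : (ENNReal.ofReal (2 * (m : ℝ) / (2 * m - 1))).HolderConjugate (2 * m) := by
    have h2m : (0 : ℝ) < 2 * m - 1 := by linarith
    rw [ENNReal.holderConjugate_iff]
    have e1 : (2 * m : ℝ≥0∞) = ENNReal.ofReal (2 * (m : ℝ)) := by
      rw [ENNReal.ofReal_mul (by norm_num), ENNReal.ofReal_natCast]
      norm_num
    rw [e1, ← ENNReal.ofReal_inv_of_pos (by positivity), ← ENNReal.ofReal_inv_of_pos (by positivity),
      ← ENNReal.ofReal_add (by positivity) (by positivity)]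
    have : (2 * (m : ℝ) / (2 * m - 1))⁻¹ + (2 * (m : ℝ))⁻¹ = 1 := by
      have : (m : ℝ) ≠ 0 := by linarith
      rw [inv_div]
      field_simp
      ring
    rw [this, ENNReal.ofReal_one]
  refine ⟨142 * √m * √2, by positivity, fun l k hk => ?_⟩
  have h := src_2m (LL d l) 1 m hm _ hconj k hk
  exact h.mono_e (err0 d hd l k (142 * √m) (by positivity))

theorem SP_one (d : ℕ) (hd : 1 ≤ d) : SP d 1 (1 / 2) (1 / 2) := by
  obtain ⟨C, hC, H⟩ := src_1 d 1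
  refine ⟨C * √2, by positivity, fun l k hk => ?_⟩
  have h := H l (LL d l) (box_LL d l) 1 k hk
  exact h.mono_e (err1 d hd l k C hC.le)

theorem Vol_all (d : ℕ) (hd : 1 ≤ d) (g : ℝ) (hg : 0 ≤ g) : Vol d g := by
  obtain ⟨C, hC, H⟩ := vol g hg
  refine ⟨C * (2 : ℝ) ^ g, by positivity, fun l k hk => ?_⟩
  have h := H d (LL d l) k hk
  refine h.mono_e ?_
  have h1 : (((LL d l).card : ℝ) / k) ^ g ≤ (2 * (Mm d l / k)) ^ g := by
    apply Real.rpow_le_rpow (by positivity) _ hg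
    rw [← mul_div_assoc]
    gcongr
    exact card_LL_le d l hd
  rw [Real.mul_rpow (by norm_num) (div_nonneg (Mm_pos d l).le hk.le)] at h1
  calc C * (((LL d l).card : ℝ) / k) ^ g ≤ C * ((2 : ℝ) ^ g * (Mm d l / k) ^ g) := by gcongr
    _ = C * (2 : ℝ) ^ g * (Mm d l / k) ^ g := by ring

private theorem box_Lmid (d l0 l1 : ℕ) : ∀ k ∈ Lmid d l0 l1, ∀ j, |k j| ≤ 2 ^ (1 * (l1 + 1)) := by
  intro k hk j
  refine (abs_le_of_mem_Lmid d l0 l1 k hk j).trans ?_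
  exact pow_le_pow_right₀ (by norm_num) (by omega)

theorem mid_infty (d : ℕ) (hd : 1 ≤ d) : ∃ C : ℝ, 0 < C ∧ ∀ (l0 l1 : ℕ) (k : ℝ), l0 ≤ l1 → 0 < k →
    Cov (fun c : CV d => nrm ∞ (tp (Lmid d l0 l1) c))
      (Img (Lmid d l0 l1) (amid (1 / 2) l0 l1) 2) ((2 : ℝ) ^ k)
      (C * Real.sqrt ((l1 : ℝ) + 1) * l2 (Lmid d l0 l1) (amid (1 / 2) l0 l1) / Real.sqrt k) := by
  classical
  obtain ⟨C, hC, H⟩ := cov_bits_sup d 1
  refine ⟨C, hC, fun l0 l1 k _ hk => ?_⟩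
  have h := H l1 (Lmid d l0 l1) (box_Lmid d l0 l1) (amid (1 / 2) l0 l1) k hk
  have h2 := h.image (ω := fun c : CV d => nrm ∞ (tp (Lmid d l0 l1) c))
    (fun c : CV d => fun k => amid (1 / 2) l0 l1 k * c k) (by
      intro v w
      apply le_of_eq
      have e : ((fun k => amid (1 / 2) l0 l1 k * v k) - fun k => amid (1 / 2) l0 l1 k * w k) =
          fun k => amid (1 / 2) l0 l1 k * (v - w) k := by
        funext j
        simp only [Pi.sub_apply]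
        ring
      simp only [e])
  refine h2.mono_A ?_
  rintro c ⟨φ, hφ, h1, rfl⟩
  refine ⟨fun k => if k ∈ Lmid d l0 l1 then cf φ k else 0, ?_, ?_⟩
  · change l2 (Lmid d l0 l1) _ ≤ 1
    have e : l2 (Lmid d l0 l1) (fun k => if k ∈ Lmid d l0 l1 then cf φ k else 0) =
        l2 (Lmid d l0 l1) (cf φ) := by
      unfold l2
      congr 1
      refine Finset.sum_congr rfl fun k hk => ?_
      simp only [if_pos hk]
    rw [e]
    refine (bessel (Lmid d l0 l1) hφ).trans ?_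
    have h3 := ENNReal.toReal_mono ENNReal.one_ne_top h1
    rw [ENNReal.toReal_one] at h3
    exact h3
  · funext j
    by_cases hj : j ∈ Lmid d l0 l1
    · simp only [if_pos hj]
    · simp only [if_neg hj, mul_zero]

theorem mid_one (d : ℕ) (hd : 1 ≤ d) : ∃ C : ℝ, 0 < C ∧ ∀ (l0 l1 : ℕ) (k : ℝ), l0 ≤ l1 → 0 < k →
    Cov (fun c : CV d => nrm 2 (tp (Lmid d l0 l1) c))
      (Img (Lmid d l0 l1) (amid (1 / 2) l0 l1) 1) ((2 : ℝ) ^ k)
      (C * Real.sqrt ((l1 : ℝ) + 1) * l2 (Lmid d l0 l1) (amid (1 / 2) l0 l1) / Real.sqrt k) := by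
  obtain ⟨C, hC, H⟩ := src_1 d 1
  refine ⟨C, hC, fun l0 l1 k _ hk => ?_⟩
  have h := H l1 (Lmid d l0 l1) (box_Lmid d l0 l1) (amid (1 / 2) l0 l1) k hk
  have e : (fun c : CV d => nrm 2 (tp (Lmid d l0 l1) c)) = l2 (Lmid d l0 l1) := by
    funext c
    exact nrm_two_tp _ c
  rw [e]
  exact h

end MPcd65c1
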