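import Pool.Agent.Lib.MP_cd65c1_an.H1
import Pool.Agent.Lib.MP_cd65c1_an.H3a
import Pool.Agent.Lib.MP_cd65c1_an.H4c
import Pool.Agent.Lib.MP_cd65c1_an.ANrm
import Pool.Agent.Lib.MP_cd65c1_an.APars
import Pool.Agent.Lib.MP_cd65c1_an.Defs2

/-!
# MP_cd65c1_an / USimple : seminorms, trivial source and target properties (about 100 lines)

* the seminorms: `sn_l2 L : Sn (l2 L)` (H3a), `sn_nrm' q hq L : Sn (fun c => nrm q (tp L c))` (H4c).
* `Img_mono`: `‖φ‖_p ≤ ‖φ‖_p'` for `p ≤ p'` (probability measure), so `Img L a p' ⊆ Img L a p`.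
* `SP_of_ge_two`: `Img L 1 p ⊆ {l2 ≤ 1}` (Bessel), one ball of radius `1` (`Cov.one_ball`), `2^k ≥ 1`;
  `(..)^0 = 1`.  `TQ_of_le_two`: `nrm q (tp L c) ≤ nrm 2 (tp L c) = l2 L c ≤ 1`.
* `SP_mono`, `TQ_mono`, `LB_mono_src`, `LB_mono_tgt`: `Cov.mono`, `nrm_mono_exp`.
-/

namespace MPcd65c1

open MeasureTheory
open scoped ENNReal

theorem Img_mono {d : ℕ} (L : Finset (Fin d → ℤ)) (a : CV d) {p p' : ℝ≥0∞} (h : p ≤ p') :
    Img L a p' ⊆ Img L a p := by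
  rintro c ⟨φ, hφ, h1, rfl⟩
  exact ⟨φ, hφ.mono_exponent h, (eLpNorm_le_eLpNorm_of_exponent_le h hφ.1).trans h1, rfl⟩

private theorem l2_Img_le_one {d : ℕ} (L : Finset (Fin d → ℤ)) {c : CV d}
    (hc : c ∈ Img L 1 2) : l2 L c ≤ 1 := by
  obtain ⟨φ, hφ, h1, rfl⟩ := hc
  have h2 : l2 L (fun k => if k ∈ L then (1 : CV d) k * cf φ k else 0) = l2 L (cf φ) := by
    unfold l2
    congr 1
    refine Finset.sum_congr rfl fun k hk => ?_
    simp only [if_pos hk, Pi.one_apply, one_mul]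
  rw [h2]
  refine (bessel L hφ).trans ?_
  unfold nrm
  exact ENNReal.toReal_le_of_le_ofReal zero_le_one (by simpa using h1)

private theorem one_le_two_rpow {k : ℝ} (hk : 0 < k) : (1 : ℝ) ≤ (2 : ℝ) ^ k :=
  Real.one_le_rpow (by norm_num) hk.le

theorem SP_of_ge_two (d : ℕ) {p : ℝ≥0∞} (hp : 2 ≤ p) : SP d p 0 0 := by
  refine ⟨1, one_pos, fun l k hk => Cov.one_ball (fun c hc => ?_) (one_le_two_rpow hk)⟩
  rw [Real.rpow_zero, Real.rpow_zero, mul_one, mul_one]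
  exact l2_Img_le_one _ (Img_mono _ _ hp hc)

theorem TQ_of_le_two (d : ℕ) {q : ℝ≥0∞} (hq1 : 1 ≤ q) (hq : q ≤ 2) : TQ d q 0 0 := by
  refine ⟨1, one_pos, fun l k hk => Cov.one_ball (fun c hc => ?_) (one_le_two_rpow hk)⟩
  rw [Real.rpow_zero, Real.rpow_zero, mul_one, mul_one]
  have h1 := nrm_mono_exp hq (memLp_cont (tp (LL d l) c) 2)
  rw [nrm_two_tp] at h1
  exact h1.trans hc

theorem LB_mono_src {d : ℕ} {p p' q : ℝ≥0∞} {r : ℝ} {a : ℕ → CV d} {g h b : ℝ} (hpp : p ≤ p')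
    (H : LB d p q r a g h b) : LB d p' q r a g h b := by
  obtain ⟨C, hC, H⟩ := H
  exact ⟨C, hC, fun l k hk => (H l k hk).mono_A (Img_mono _ _ hpp)⟩

theorem LB_mono_tgt {d : ℕ} {p q q' : ℝ≥0∞} {r : ℝ} {a : ℕ → CV d} {g h b : ℝ} (hqq : q ≤ q')
    (H : LB d p q' r a g h b) : LB d p q r a g h b := by
  obtain ⟨C, hC, H⟩ := H
  exact ⟨C, hC, fun l k hk => (H l k hk).mono le_rfl le_rfl le_rfl
    fun c => nrm_mono_exp hqq (memLp_cont _ q')⟩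

end MPcd65c1
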